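import Mathlib
import Pool.Agent.TH722.CR.Core

set_option autoImplicit false

/-!
Project CV (helper480): compact action realization of the shift relation of a countable group `Γ`
on the points of `(2^ℕ)^Γ` at which some finitely generated subgroup has an infinite orbit.
Definitions and statements of the parts.
-/

namespace Pool.Agent.N480.CV

open Set MeasureTheory TopologicalSpace
open Pool.Agent.TH722.CR (CAct)

/-- invariant Borel embedding of relations -/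
def IEmb {X Y : Type} [MeasurableSpace X] [MeasurableSpace Y] (E : X → X → Prop)
    (F : Y → Y → Prop) : Prop :=
  ∃ f : X → Y, Measurable f ∧ Function.Injective f ∧ (∀ a b, E a b ↔ F (f a) (f b)) ∧
    ∀ a y, F (f a) y → ∃ b, f b = y

/-- Borel isomorphism of relations -/
def Iso {X Y : Type} [MeasurableSpace X] [MeasurableSpace Y] (E : X → X → Prop)
    (F : Y → Y → Prop) : Prop := ∃ h : X ≃ᵐ Y, ∀ a b, E a b ↔ F (h a) (h b)

/-- orbit relation -/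
def Orb (Γ : Type) {X : Type} [Group Γ] [MulAction Γ X] (x y : X) : Prop := ∃ g : Γ, g • x = y

/-- at each point some finitely generated subgroup has an infinite orbit -/
def VT (Γ X : Type) [Group Γ] [MulAction Γ X] : Prop :=
  ∀ x : X, ∃ T : Finset Γ, {y | ∃ g ∈ Subgroup.closure (T : Set Γ), g • x = y}.Infinite

/-! ### Borel parts -/

/-- SB: Cantor-Bernstein for invariant embeddings -/
def S_SB : Prop := ∀ (X Y : Type) [MeasurableSpace X] [StandardBorelSpace X] [MeasurableSpace Y]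
  [StandardBorelSpace Y] (E : X → X → Prop) (F : Y → Y → Prop), Equivalence E → Equivalence F →
  IEmb E F → IEmb F E → Iso E F

/-- COL: three colours for a Borel automorphism -/
def S_COL : Prop := ∀ (X : Type) [MeasurableSpace X] [StandardBorelSpace X] (T T' : X → X),
  Measurable T → Measurable T' → (∀ x, T' (T x) = x) → (∀ x, T (T' x) = x) →
  ∃ c : X → Fin 3, Measurable c ∧ ∀ x, T x ≠ x → c (T x) ≠ c x

/-! ### The space of codes -/

/-- a code: a level, for each `g` a colour for `g` (`3` = fixed), and a name -/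
abbrev Cd (Γ : Type) := ℕ × (Γ → Fin 4) × (ℕ → Bool)

/-- the shift -/
def sh {Γ A : Type} [Group Γ] (g : Γ) (w : Γ → A) : Γ → A := fun δ => w (g⁻¹ * δ)

theorem sh_sh {Γ A : Type} [Group Γ] (g h : Γ) (w : Γ → A) : sh g (sh h w) = sh (g * h) w := by
  funext δ
  simp [sh, mul_assoc]

theorem sh_one {Γ A : Type} [Group Γ] (w : Γ → A) : sh 1 w = w := by
  funext δ
  simp [sh]

/-- products of at most `k` elements of `S` and inverses of such -/
def ball {Γ : Type} [Group Γ] (S : Set Γ) (k : ℕ) : Set Γ :=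
  {g | ∃ l : List Γ, l.length ≤ k ∧ (∀ h ∈ l, h ∈ S ∨ h⁻¹ ∈ S) ∧ l.prod = g}

/-- the conditions at one point -/
def Good {Γ : Type} [Group Γ] (S : ℕ → Set Γ) (u : Γ → Cd Γ) : Prop :=
  (∀ (k : ℕ), ∀ g ∈ Subgroup.closure (S k), max (sh g u 1).1 k = max (u 1).1 k) ∧
  (∀ g : Γ, ((u 1).2.1 g = 3 → sh g u = u) ∧
    ((u 1).2.1 g ≠ 3 → (sh g u 1).2.1 g ≠ (u 1).2.1 g)) ∧
  (∀ n k : ℕ, (u 1).1 ≤ n → ∃ h : Fin (k + 1) → Γ, (∀ i, h i ∈ ball (S n) k) ∧
    ∀ i j, i < j → (sh (h i) u 1).2.1 (h j * (h i)⁻¹) ≠ 3)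

/-- the space -/
def ZC {Γ : Type} [Group Γ] (S : ℕ → Set Γ) : Set (Γ → Cd Γ) := {w | ∀ δ : Γ, Good S (sh δ w)}

instance {Γ : Type} [Group Γ] (S : ℕ → Set Γ) : MulAction Γ (ZC S) where
  smul g w := ⟨sh g w.1, fun δ => by rw [sh_sh]; exact w.2 (δ * g)⟩
  one_smul w := Subtype.ext (sh_one w.1)
  mul_smul g h w := Subtype.ext (sh_sh g h w.1).symm

theorem ZC_smul {Γ : Type} [Group Γ] (S : ℕ → Set Γ) (g : Γ) (w : ZC S) :
    ((g • w : ZC S) : Γ → Cd Γ) = sh g w.1 := rfl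

/-- Z1: topology of the space of codes (`Fin 4` and `Bool`, `ℕ` discrete, product topologies) -/
def S_Z1 : Prop := ∀ (Γ : Type) [Group Γ] [Countable Γ] (S : ℕ → Set Γ), (∀ n, (S n).Finite) →
  Monotone S → (⋃ n, S n) = univ →
  IsClosed (ZC S) ∧ (∀ g : Γ, Continuous fun z : ZC S => g • z) ∧
  (∀ g : Γ, IsOpen {z : ZC S | g • z = z}) ∧
  (∀ n, IsCompact {z : ZC S | (z.1 1).1 ≤ n} ∧ IsOpen {z : ZC S | (z.1 1).1 ≤ n}) ∧
  (∀ (n : ℕ) (y : ZC S), (y.1 1).1 ≤ n →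
    {z : ZC S | (z.1 1).1 ≤ n ∧ ∃ g ∈ Subgroup.closure (S n), g • y = z}.Infinite)

/-- Z2: universality of the space of codes -/
def S_Z2 : Prop := ∀ (Γ : Type) [Group Γ] [Countable Γ] (S : ℕ → Set Γ), (∀ n, (S n).Finite) →
  Monotone S → (⋃ n, S n) = univ → ∀ (X : Type) [MeasurableSpace X] [StandardBorelSpace X]
  [MulAction Γ X], (∀ g : Γ, Measurable fun x : X => g • x) → VT Γ X →
  ∃ f : X → ZC S, Measurable f ∧ Function.Injective f ∧ ∀ (g : Γ) (x : X), f (g • x) = g • f x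

/-! ### Clopen markers -/

/-- MK: marker lemma -/
def S_MK : Prop := ∀ (Γ Z : Type) [Group Γ] [Countable Γ] [TopologicalSpace Z] [T2Space Z]
  [LocallyCompactSpace Z] [TotallyDisconnectedSpace Z] [MulAction Γ Z] [ContinuousConstSMul Γ Z]
  (B : Set Z), (∀ g : Γ, IsOpen {z : Z | g • z = z}) → IsCompact B → IsOpen B →
  (∀ y ∈ B, {z | z ∈ B ∧ ∃ g : Γ, g • y = z}.Infinite) → ∀ (Φ : Finset Γ) (M : ℕ),
  ∃ (B' : Set Z) (φ : Z → Z) (Ψ : Finset Γ), IsCompact B' ∧ IsOpen B' ∧ B' ⊆ B ∧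
    ContinuousOn φ B ∧ (∀ y ∈ B, φ y ∈ B' ∧ ∃ g ∈ Ψ, g • y = φ y) ∧ (∀ y ∈ B', φ y = y) ∧
    (∀ b ∈ B', M ≤ {y | y ∈ B ∧ φ y = b}.ncard) ∧ ∀ b ∈ B', ∀ g ∈ Φ, g • b ∈ B' → g • b = b

/-- a compact open set divided into blocks of `N` points of the same orbit -/
structure Blocks (Γ : Type) {Z : Type} [Group Γ] [TopologicalSpace Z] [MulAction Γ Z]
    (D : Set Z) (N : ℕ) (lab : Z → Fin N) (c : Fin N → Z → Z) : Prop where
  compact : IsCompact D
  isOpen : IsOpen D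
  lab_cont : ContinuousOn lab D
  c_cont : ∀ i, ContinuousOn (c i) D
  c_mem : ∀ i, ∀ z ∈ D, c i z ∈ D
  c_orb : ∀ i, ∀ z ∈ D, ∃ g : Γ, g • z = c i z
  lab_c : ∀ i, ∀ z ∈ D, lab (c i z) = i
  c_c : ∀ i j, ∀ z ∈ D, c i (c j z) = c i z
  c_lab : ∀ z ∈ D, c (lab z) z = z

/-- DIV: division of the space, up to a partial transversal -/
def S_DIV : Prop := ∀ (Γ Z : Type) [Group Γ] [Countable Γ] [TopologicalSpace Z] [T2Space Z]
  [LocallyCompactSpace Z] [TotallyDisconnectedSpace Z] [MulAction Γ Z] [ContinuousConstSMul Γ Z]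
  (Y : ℕ → Set Z) (N : ℕ → ℕ), (∀ g : Γ, IsOpen {z : Z | g • z = z}) →
  (∀ n, IsCompact (Y n)) → (∀ n, IsOpen (Y n)) → Monotone Y → (⋃ n, Y n) = univ →
  (∀ n, ∀ y ∈ Y n, {z | z ∈ Y n ∧ ∃ g : Γ, g • y = z}.Infinite) → (∀ m, 0 < N m) →
  ∃ (D : ℕ → Set Z) (lab : ∀ m, Z → Fin (N m)) (c : ∀ m, Fin (N m) → Z → Z),
    (∀ m, Blocks Γ (D m) (N m) (lab m) (c m)) ∧
    (∀ m m', m ≠ m' → Disjoint (D m) (D m')) ∧
    ∀ z z' : Z, z ∉ ⋃ m, D m → z' ∉ ⋃ m, D m → (∃ g : Γ, g • z = z') → z = z'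

/-! ### The space at infinity and the gluing -/

/-- W: a compact free system approximated by finite permutations -/
def S_W : Prop := ∀ (Γ : Type) [Group Γ] [Countable Γ] (γ : ℕ → Γ),
  ∃ (W : Type) (_ : MetricSpace W) (_ : CompactSpace W) (_ : Nonempty W) (_ : MulAction Γ W)
    (_ : ContinuousConstSMul Γ W) (N : ℕ → ℕ) (p : ∀ m, Fin (N m) → W)
    (π : ∀ m, ℕ → Equiv.Perm (Fin (N m))), (∀ (g : Γ) (w : W), g • w = w → g = 1) ∧
    (∀ m, 0 < N m) ∧ ∀ (i : ℕ) (ε : ℝ), 0 < ε → ∃ M, ∀ m, M ≤ m → ∀ x : Fin (N m),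
      dist (p m (π m i x)) (γ i • p m x) < ε

/-- GLUE: compact pieces converging to a compact space -/
def S_GLUE : Prop := ∀ (D : ℕ → Type) [∀ m, TopologicalSpace (D m)] [∀ m, CompactSpace (D m)]
  [∀ m, MetrizableSpace (D m)] (W : Type) [MetricSpace W] [CompactSpace W] (p : ∀ m, D m → W),
  (∀ m, Continuous (p m)) →
  ∃ _ : TopologicalSpace ((Σ m, D m) ⊕ W), CompactSpace ((Σ m, D m) ⊕ W) ∧
    MetrizableSpace ((Σ m, D m) ⊕ W) ∧
    (∀ m, Topology.IsOpenEmbedding fun d : D m => (Sum.inl ⟨m, d⟩ : (Σ m, D m) ⊕ W)) ∧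
    Topology.IsClosedEmbedding (Sum.inr : W → (Σ m, D m) ⊕ W) ∧
    ∀ (h : (Σ m, D m) ⊕ W → (Σ m, D m) ⊕ W) (k : W → W),
      (∀ m, Continuous fun d : D m => h (Sum.inl ⟨m, d⟩)) → Continuous k →
      (∀ w, h (Sum.inr w) = Sum.inr (k w)) →
      (∀ ε : ℝ, 0 < ε → ∃ M, ∀ m, M ≤ m → ∀ d : D m, ∃ d' : D m,
        h (Sum.inl ⟨m, d⟩) = Sum.inl ⟨m, d'⟩ ∧ dist (p m d') (k (p m d)) < ε) → Continuous h

/-- K: the glued space realizes the relation -/
def S_K : Prop := ∀ (Γ Z : Type) [Group Γ] [Countable Γ] [TopologicalSpace Z] [T2Space Z]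
  [LocallyCompactSpace Z] [SecondCountableTopology Z] [TotallyDisconnectedSpace Z]
  [MeasurableSpace Z] [BorelSpace Z] [MulAction Γ Z] [ContinuousConstSMul Γ Z]
  (D : ℕ → Set Z) (N : ℕ → ℕ) (lab : ∀ m, Z → Fin (N m)) (c : ∀ m, Fin (N m) → Z → Z),
  (∀ m, Blocks Γ (D m) (N m) (lab m) (c m)) → (∀ m m', m ≠ m' → Disjoint (D m) (D m')) →
  ∀ (W : Type) [MetricSpace W] [CompactSpace W] [MeasurableSpace W] [BorelSpace W]
    [MulAction Γ W] [ContinuousConstSMul Γ W] (γ : ℕ → Γ) (p : ∀ m, Fin (N m) → W)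
    (π : ∀ m, ℕ → Equiv.Perm (Fin (N m))), Function.Surjective γ →
    (∀ (i : ℕ) (ε : ℝ), 0 < ε → ∃ M, ∀ m, M ≤ m → ∀ x : Fin (N m),
      dist (p m (π m i x)) (γ i • p m x) < ε) →
    CAct ((⋃ m, D m : Set Z) ⊕ W)
      (Sum.LiftRel (fun a b : (⋃ m, D m : Set Z) => ∃ g : Γ, g • (a : Z) = b) (Orb Γ))

/-! ### Absorption of the smooth part -/

/-- NS: no continuous action with infinite orbits on a nonempty compact metrizable space is
smooth -/
def S_NS : Prop := ∀ (Γ W : Type) [Group Γ] [Countable Γ] [TopologicalSpace W] [CompactSpace W]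
  [MetrizableSpace W] [Nonempty W] [MeasurableSpace W] [BorelSpace W] [MulAction Γ W]
  [ContinuousConstSMul Γ W], (∀ w : W, {v | ∃ g : Γ, g • w = v}.Infinite) →
  ¬ ∃ f : W → ℝ, Measurable f ∧ ∀ x y : W, Orb Γ x y ↔ f x = f y

/-- ABS: a smooth relation with infinite classes embeds invariantly in such an action -/
def S_ABS : Prop := ∀ (Γ W : Type) [Group Γ] [Countable Γ] [TopologicalSpace W] [CompactSpace W]
  [MetrizableSpace W] [Nonempty W] [MeasurableSpace W] [BorelSpace W] [MulAction Γ W]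
  [ContinuousConstSMul Γ W], (∀ w : W, {v | ∃ g : Γ, g • w = v}.Infinite) →
  ∀ (Z : Type) [MeasurableSpace Z] [StandardBorelSpace Z] [MulAction Γ Z],
    (∀ g : Γ, Measurable fun z : Z => g • z) → (∀ w : Z, {v | ∃ g : Γ, g • w = v}.Infinite) →
    ∀ B : Set Z, MeasurableSet B → (∀ z ∈ B, ∀ z' ∈ B, Orb Γ z z' → z = z') →
    (∀ z : Z, ∃ b ∈ B, Orb Γ z b) → IEmb (Orb Γ : Z → Z → Prop) (Orb Γ : W → W → Prop)

/-- ACT: after removal of a partial transversal the relation is still given by an action of `Γ` -/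
def S_ACT : Prop := ∀ (Γ : Type) [Group Γ] [Countable Γ] (T : Finset Γ),
  (Subgroup.closure (T : Set Γ) : Set Γ).Infinite →
  ∀ (Z : Type) [MeasurableSpace Z] [StandardBorelSpace Z] [MulAction Γ Z],
    (∀ g : Γ, Measurable fun z : Z => g • z) → VT Γ Z →
    ∀ B : Set Z, MeasurableSet B → (∀ z ∈ B, ∀ z' ∈ B, Orb Γ z z' → z = z') →
    ∃ act : MulAction Γ (Bᶜ : Set Z), (∀ g : Γ, Measurable fun z : (Bᶜ : Set Z) => act.smul g z) ∧
      (∀ a : (Bᶜ : Set Z), ∃ T : Finset Γ,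
        {y | ∃ g ∈ Subgroup.closure (T : Set Γ), act.smul g a = y}.Infinite) ∧
      ∀ a b : (Bᶜ : Set Z), (∃ g : Γ, act.smul g a = b) ↔ ∃ g : Γ, g • (a : Z) = b

end Pool.Agent.N480.CV
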