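import Mathlib
import Pool.Agent.N480.CV.Stm

set_option autoImplicit false

/-!
Project CV (helper480), part 2: the hyperfinite rest. Definitions and statements of the parts.
-/

namespace Pool.Agent.N480.CV

open Set MeasureTheory TopologicalSpace Filter
open Pool.Agent.TH722.CR (CAct)

/-- `E` is the increasing union of the finite Borel equivalence relations `F n` -/
structure HF {X : Type} [MeasurableSpace X] (E : X → X → Prop) (F : ℕ → X → X → Prop) :
    Prop where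
  eqv : ∀ n, Equivalence (F n)
  meas : ∀ n, MeasurableSet {p : X × X | F n p.1 p.2}
  fin : ∀ n x, {y | F n x y}.Finite
  mono : ∀ n x y, F n x y → F (n + 1) x y
  union : ∀ x y, E x y ↔ ∃ n, F n x y

/-- all classes are infinite -/
def Ape {X : Type} (E : X → X → Prop) : Prop := ∀ x, {y | E x y}.Infinite

/-- compressible: a class preserving Borel injection of `X × ℕ` into `X` -/
def Cmp {X : Type} [MeasurableSpace X] (E : X → X → Prop) : Prop :=
  ∃ st : X → ℕ → X, (∀ n, Measurable fun x => st x n) ∧ (∀ x n, E x (st x n)) ∧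
    ∀ x x' n n', st x n = st x' n' → x = x' ∧ n = n'

/-- restriction -/
def Res {X : Type} (E : X → X → Prop) (U : Set X) : U → U → Prop := fun a b => E a b

/-- invariant set -/
def Inv {X : Type} (E : X → X → Prop) (U : Set X) : Prop := ∀ x y, E x y → x ∈ U → y ∈ U

/-! ### compressibility calculus -/

/-- HFG: greedy matching along the finite relations -/
def S_HFG : Prop := ∀ (X : Type) [MeasurableSpace X] [StandardBorelSpace X]
  (E : X → X → Prop) (F : ℕ → X → X → Prop), HF E F →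
  ∀ (k : ℕ) (A : Fin k → Set X) (B : Set X), (∀ i, MeasurableSet (A i)) → MeasurableSet B →
  (∀ x, ∃ᶠ n in atTop,
    ∑ i, {y | y ∈ A i ∧ F n x y}.ncard ≤ {y | y ∈ B ∧ F n x y}.ncard) →
  ∃ h : Fin k → X → X, (∀ i, Measurable (h i)) ∧ (∀ i, ∀ x ∈ A i, E x (h i x) ∧ h i x ∈ B) ∧
    ∀ i j, ∀ x ∈ A i, ∀ y ∈ A j, h i x = h j y → i = j ∧ x = y

/-- BAS: basic facts on compressible relations -/
def S_BAS : Prop := ∀ (X : Type) [MeasurableSpace X] [StandardBorelSpace X]
  (E : X → X → Prop) (F : ℕ → X → X → Prop), HF E F →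
  -- (1) one injection missing a complete section
  (∀ f : X → X, Measurable f → Function.Injective f → (∀ x, E x (f x)) →
    (∀ x, ∃ a, E x a ∧ a ∉ range f) → Cmp E) ∧
  -- (2) countable unions of invariant sets
  (∀ U : ℕ → Set X, (∀ n, MeasurableSet (U n)) → (∀ n, Inv E (U n)) →
    (∀ n, Cmp (Res E (U n))) → Cmp (Res E (⋃ n, U n))) ∧
  -- (3) infinitely many disjoint copies of a complete section
  (∀ (L : Set X) (h : ℕ → X → X), MeasurableSet L → (∀ n, Measurable (h n)) →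
    (∀ x, ∃ a ∈ L, E x a) → (∀ n, ∀ x ∈ L, E x (h n x)) →
    (∀ m n, ∀ x ∈ L, ∀ y ∈ L, h m x = h n y → m = n ∧ x = y) → Cmp E) ∧
  -- (4) smooth relations with infinite classes
  (∀ T : Set X, MeasurableSet T → Ape E → (∀ x, {t | t ∈ T ∧ E x t}.Finite) →
    (∀ x, ∃ t ∈ T, E x t) → Cmp E)

/-- CC: the comparison criterion -/
def S_CC : Prop := ∀ (X : Type) [MeasurableSpace X] [StandardBorelSpace X]
  (E : X → X → Prop) (F : ℕ → X → X → Prop), HF E F → Ape E →
  ∀ A : ℕ → Set X, (∀ i, MeasurableSet (A i)) →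
  (∀ j x, ∃ᶠ n in atTop,
    ∑ i ∈ Finset.range (j + 1), {y | y ∈ A i ∧ F n x y}.ncard ≤ {y | F n x y}.ncard) →
  ∃ U : Set X, MeasurableSet U ∧ Inv E U ∧ Cmp (Res E U) ∧ ∃ h : ℕ → X → X,
    (∀ i, Measurable (h i)) ∧ (∀ i, ∀ x ∈ A i, x ∉ U → E x (h i x)) ∧
    ∀ i j, ∀ x ∈ A i, ∀ y ∈ A j, x ∉ U → y ∉ U → h i x = h j y → i = j ∧ x = y

/-- VAN: escaping mass gives compressibility -/
def S_VAN : Prop := ∀ (X : Type) [MeasurableSpace X] [StandardBorelSpace X]
  (E : X → X → Prop) (F : ℕ → X → X → Prop), HF E F → Ape E →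
  ∀ (d : X → ℕ) (q : ℕ), Measurable d → 0 < q →
  (∀ x κ, ∃ᶠ n in atTop,
    q * {y | d y ≤ κ ∧ F n x y}.ncard ≤ (q - 1) * {y | F n x y}.ncard) → Cmp E

/-! ### locally finite type -/

/-- infinite orbits, but finite orbits of all finitely generated subgroups -/
def LF (Γ X : Type) [Group Γ] [MulAction Γ X] : Prop :=
  ∀ x : X, {y | ∃ g : Γ, g • x = y}.Infinite ∧
    ∀ T : Finset Γ, {y | ∃ g ∈ Subgroup.closure (T : Set Γ), g • x = y}.Finite

/-- some Borel action of locally finite type has an invariant probability measure -/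
def HasInv (Γ : Type) [Group Γ] : Prop :=
  ∃ (X : Type) (_ : MeasurableSpace X) (_ : StandardBorelSpace X) (_ : MulAction Γ X),
    (∀ g : Γ, Measurable fun x : X => g • x) ∧ LF Γ X ∧
    ∃ ν : Measure X, IsProbabilityMeasure ν ∧ ∀ g : Γ, ν.map (fun x : X => g • x) = ν

/-- MEAS: tight uniform measures give an invariant measure -/
def S_MEAS : Prop := ∀ (Γ : Type) [Group Γ] [Countable Γ] (S : ℕ → Finset Γ), Monotone S →
  (∀ g : Γ, ∃ n, g ∈ S n) → ∀ (X : Type) [MeasurableSpace X] [StandardBorelSpace X]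
  [MulAction Γ X], (∀ g : Γ, Measurable fun x : X => g • x) → LF Γ X → ∀ x : X,
  (∀ k : ℕ, ∃ M : ℕ, ∀ᶠ n in atTop,
    2 ^ (k + 3) * {y | (∃ g ∈ Subgroup.closure (S n : Set Γ), g • x = y) ∧
      M < {z | ∃ g ∈ Subgroup.closure (S k : Set Γ), g • y = z}.ncard}.ncard ≤
    {y | ∃ g ∈ Subgroup.closure (S n : Set Γ), g • x = y}.ncard) →
  (∀ k : ℕ, ∃ m : ℕ, ∀ᶠ n in atTop,
    2 ^ (k + 3) * {y | (∃ g ∈ Subgroup.closure (S n : Set Γ), g • x = y) ∧
      {z | ∃ g ∈ S m, g • y = z}.ncard < k}.ncard ≤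
    {y | ∃ g ∈ Subgroup.closure (S n : Set Γ), g • x = y}.ncard) → HasInv Γ

/-- NM: without invariant measures the locally finite type is compressible -/
def S_NM : Prop := ∀ (Γ : Type) [Group Γ] [Countable Γ], ¬ HasInv Γ →
  ∀ (X : Type) [MeasurableSpace X] [StandardBorelSpace X] [MulAction Γ X],
  (∀ g : Γ, Measurable fun x : X => g • x) → LF Γ X → Cmp (Orb Γ : X → X → Prop)

/-- LFG: locally finite groups -/
def S_LFG : Prop := ∀ (Γ : Type) [Group Γ] [Countable Γ] [Infinite Γ],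
  (∀ T : Finset Γ, (Subgroup.closure (T : Set Γ) : Set Γ).Finite) → HasInv Γ

/-! ### structure of hyperfinite relations -/

/-- RED: reduction to eventual equality of sequences of natural numbers -/
def S_RED : Prop := ∀ (X : Type) [MeasurableSpace X] [StandardBorelSpace X]
  (E : X → X → Prop) (F : ℕ → X → X → Prop), HF E F →
  ∃ c : X → ℕ → ℕ, Measurable c ∧ Function.Injective c ∧
    ∀ x y, E x y ↔ ∃ N, ∀ n, N ≤ n → c x n = c y n

/-- UF: finite relations with uniformly bounded and rapidly growing classes -/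
def S_UF : Prop := ∀ (X : Type) [MeasurableSpace X] [StandardBorelSpace X]
  (E : X → X → Prop) (F : ℕ → X → X → Prop), HF E F → Ape E → ∀ ψ : ℕ → ℕ → ℕ,
  ∃ U : Set X, MeasurableSet U ∧ Inv E U ∧ Cmp (Res E U) ∧ ∃ L C : ℕ → ℕ,
    (∀ j, ψ j (C j) ≤ L (j + 1)) ∧ ∃ F' : ℕ → (Uᶜ : Set X) → (Uᶜ : Set X) → Prop,
      HF (Res E Uᶜ) F' ∧ ∀ j x, L j ≤ {y | F' j x y}.ncard ∧ {y | F' j x y}.ncard ≤ C j

/-- OD: odometer coordinates up to a compressible part -/
def S_OD : Prop := ∀ (X : Type) [MeasurableSpace X] [StandardBorelSpace X]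
  (E : X → X → Prop) (F : ℕ → X → X → Prop), HF E F → Ape E →
  ∃ U : Set X, MeasurableSet U ∧ Inv E U ∧ Cmp (Res E U) ∧ ∃ π : X → ℕ → Bool, Measurable π ∧
    ∀ x, x ∉ U → (∀ y, E x y → ∃ n, ∀ k, n ≤ k → π x k = π y k) ∧
      (∀ y, E x y → π x = π y → x = y) ∧
      ∀ k, ∃ y, E x y ∧ π y = Function.update (π x) k (!π x k)

/-- DYE2: Dye's theorem for hyperfinite relations -/
def S_DYE2 : Prop := ∀ (X : Type) [MeasurableSpace X] [StandardBorelSpace X]
  (E : X → X → Prop) (F : ℕ → X → X → Prop), HF E F → Ape E →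
  ∀ s : ℕ → X → X, (∀ n, Measurable (s n)) → (∀ n x, s n (s n x) = x) →
  (∀ x y, E x y ↔ ∃ n, s n x = y) → ∀ (ν : Measure X) [IsProbabilityMeasure ν],
  (∀ n, ν.map (s n) = ν) →
  ∃ (X1 : Set X) (z ω : X → ℕ → Bool), MeasurableSet X1 ∧ ν X1ᶜ = 0 ∧ Inv E X1 ∧
    Measurable z ∧ Measurable ω ∧ (∀ x y, E x y → z x = z y) ∧
    (∀ x ∈ X1, ∀ y ∈ X1, z x = z y → ω x = ω y → x = y) ∧
    (∀ x ∈ X1, ∀ k, ∃ y ∈ X1, E x y ∧ ω y = Function.update (ω x) k (!ω x k)) ∧
    ∀ x ∈ X1, ∀ y ∈ X1, E x y → ∃ n, ∀ k, n ≤ k → ω x k = ω y k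

/-- eventual equality of binary sequences -/
def TE (p q : ℕ → Bool) : Prop := ∃ n, ∀ k, n ≤ k → p k = q k

/-- FIB: the group acts, up to a compressible part, by the odometer relation -/
def S_FIB : Prop := ∀ (Γ : Type) [Group Γ] [Countable Γ], HasInv Γ →
  ∃ (I : Set (ℕ → Bool)) (_ : MulAction Γ I), MeasurableSet I ∧ Inv TE I ∧ I.Nonempty ∧
    (∀ g : Γ, Measurable fun x : I => g • x) ∧ LF Γ I ∧
    (∀ x y : I, Orb Γ x y ↔ TE x y) ∧
    ∃ st : (ℕ → Bool) → ℕ → ℕ → Bool, (∀ n, Measurable fun p => st p n) ∧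
      (∀ p, p ∉ I → ∀ n, TE p (st p n)) ∧
      ∀ p, p ∉ I → ∀ q, q ∉ I → ∀ m n, st p m = st q n → p = q ∧ m = n

/-- JI: an invariant set with compressible complement contains a copy of eventual equality -/
def S_JI : Prop := ∀ I : Set (ℕ → Bool), MeasurableSet I → Inv TE I →
  (∃ st : (ℕ → Bool) → ℕ → ℕ → Bool, (∀ n, Measurable fun p => st p n) ∧
      (∀ p, p ∉ I → ∀ n, TE p (st p n)) ∧
      ∀ p, p ∉ I → ∀ q, q ∉ I → ∀ m n, st p m = st q n → p = q ∧ m = n) →
  ∃ j : (ℕ → Bool) → (ℕ → Bool), Measurable j ∧ Function.Injective j ∧ (∀ a, j a ∈ I) ∧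
    ∀ a b, TE (j a) (j b) ↔ TE a b

/-! ### the compact model -/

/-- flip the coordinates in `s` -/
def flip (s : Finset ℕ) (o : ℕ → Bool) : ℕ → Bool := fun n => if n ∈ s then !o n else o n

/-- the space of the model: a binary sequence, and a label for each of its finite modifications -/
abbrev KB := (ℕ → Bool) × (Finset ℕ → ℕ → Bool)

/-- the relation of the model -/
def RB (p q : KB) : Prop :=
  ∃ s : Finset ℕ, q.1 = flip s p.1 ∧ ∀ t, q.2 t = p.2 (symmDiff s t)

/-- KBL: facts on the model (`ℕ → Bool` etc. with product topologies and Borel sets) -/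
def S_KBL : Prop := Equivalence RB ∧ CAct KB RB ∧ Ape RB ∧ (∃ F, HF RB F) ∧
  (∃ s : ℕ → KB → KB, (∀ n, Measurable (s n)) ∧ (∀ n x, s n (s n x) = x) ∧
    ∀ x y, RB x y ↔ ∃ n, s n x = y) ∧
  ∃ j : (ℕ → Bool) → KB, Measurable j ∧ Function.Injective j ∧ ∀ a b, RB (j a) (j b) ↔ TE a b

/-- FWD: every hyperfinite relation with infinite classes embeds invariantly in the model -/
def S_FWD : Prop := ∀ (X : Type) [MeasurableSpace X] [StandardBorelSpace X]
  (E : X → X → Prop) (F : ℕ → X → X → Prop), HF E F → Ape E → IEmb E RB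

/-- BWD: if `Γ` has an invariant measure of locally finite type, the model embeds invariantly in
the orbit relation of a Borel action of `Γ` of locally finite type -/
def S_BWD : Prop := ∀ (Γ : Type) [Group Γ] [Countable Γ], HasInv Γ →
  ∃ (X : Type) (_ : MeasurableSpace X) (_ : StandardBorelSpace X) (_ : MulAction Γ X),
    (∀ g : Γ, Measurable fun x : X => g • x) ∧ LF Γ X ∧ IEmb RB (Orb Γ : X → X → Prop)

end Pool.Agent.N480.CV
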