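import Pool.Agent.N480.CV.Stm

/-!
Project CV (helper480), part Z2 (helper169): universality of the space of codes.
-/

set_option autoImplicit false

namespace Pool.Agent.N480.CV

open Set MeasureTheory TopologicalSpace

namespace Z2

section

variable {Γ X : Type} [Group Γ] [MulAction Γ X]

/-- the orbit of the `n`-th subgroup is infinite -/
def InfAt (S : ℕ → Set Γ) (x : X) (n : ℕ) : Prop :=
  {y | ∃ g ∈ Subgroup.closure (S n), g • x = y}.Infinite

theorem InfAt.mono {S : ℕ → Set Γ} (hS : Monotone S) {x : X} {m n : ℕ} (h : m ≤ n)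
    (hm : InfAt S x m) : InfAt S x n := by
  refine Set.Infinite.mono ?_ hm
  rintro y ⟨g, hg, rfl⟩
  exact ⟨g, Subgroup.closure_mono (hS h) hg, rfl⟩

theorem InfAt.ex {S : ℕ → Set Γ} (hS : Monotone S) (hU : (⋃ n, S n) = univ) (hV : VT Γ X) (x : X) :
    ∃ n, InfAt S x n := by
  obtain ⟨T, hT⟩ := hV x
  have h1 : ∀ t : Γ, ∃ n, t ∈ S n := by
    intro t
    have : t ∈ ⋃ n, S n := by rw [hU]; trivial
    exact mem_iUnion.1 this
  choose N hN using h1
  refine ⟨T.sup N, Set.Infinite.mono ?_ hT⟩
  rintro y ⟨g, hg, rfl⟩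
  refine ⟨g, Subgroup.closure_mono ?_ hg, rfl⟩
  intro t ht
  exact hS (Finset.le_sup (f := N) ht) (hN t)

theorem InfAt.smul {S : ℕ → Set Γ} (hS : Monotone S) {x : X} {k n : ℕ} (h : k ≤ n) {g : Γ}
    (hg : g ∈ Subgroup.closure (S k)) : InfAt S (g • x) n ↔ InfAt S x n := by
  have hg' : g ∈ Subgroup.closure (S n) := Subgroup.closure_mono (hS h) hg
  have : {y | ∃ h ∈ Subgroup.closure (S n), h • g • x = y} =
      {y | ∃ h ∈ Subgroup.closure (S n), h • x = y} := by
    ext y
    constructor
    · rintro ⟨h, hh, rfl⟩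
      exact ⟨h * g, Subgroup.mul_mem _ hh hg', mul_smul _ _ _⟩
    · rintro ⟨h, hh, rfl⟩
      refine ⟨h * g⁻¹, Subgroup.mul_mem _ hh (Subgroup.inv_mem _ hg'), ?_⟩
      rw [mul_smul, inv_smul_smul]
  unfold InfAt
  rw [this]

theorem infinite_iff (G : Subgroup Γ) (x : X) : {y | ∃ g ∈ G, g • x = y}.Infinite ↔
    ∀ k : ℕ, ∃ h : Fin k → G, ∀ i j, i ≠ j → (h i : Γ) • x ≠ (h j : Γ) • x := by
  constructor
  · intro hinf k
    obtain ⟨t, ht, hc⟩ := hinf.exists_subset_card_eq k
    have h1 : ∀ y : t, ∃ g : G, (g : Γ) • x = y := by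
      intro y
      obtain ⟨g, hg, h⟩ := ht y.2
      exact ⟨⟨g, hg⟩, h⟩
    choose a ha using h1
    let e : Fin k ≃ t := (Fintype.equivFinOfCardEq (by simpa using hc)).symm
    refine ⟨fun i => a (e i), fun i j hij h => hij ?_⟩
    simp only [ha] at h
    exact e.injective (Subtype.ext h)
  · intro h hfin
    classical
    obtain ⟨a, ha⟩ := h (hfin.toFinset.card + 1)
    have h1 : (Finset.univ.image fun i => (a i : Γ) • x) ⊆ hfin.toFinset := by
      intro y hy
      obtain ⟨i, -, rfl⟩ := Finset.mem_image.1 hy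
      rw [Set.Finite.mem_toFinset]
      exact ⟨_, (a i).2, rfl⟩
    have h2 := Finset.card_le_card h1
    rw [Finset.card_image_of_injective, Finset.card_univ, Fintype.card_fin] at h2
    · omega
    · intro i j hij
      by_contra hne
      exact ha i j hne hij

theorem ball_mono (S : Set Γ) {k l : ℕ} (h : k ≤ l) : ball S k ⊆ ball S l := by
  rintro g ⟨L, h1, h2, h3⟩
  exact ⟨L, h1.trans h, h2, h3⟩

open scoped Pointwise in
/-- enough different points in the balls -/
theorem exists_ball {S : Set Γ} {y : X}
    (hinf : {z | ∃ g ∈ Subgroup.closure S, g • y = z}.Infinite) (k : ℕ) :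
    ∃ h : Fin (k + 1) → Γ, (∀ i, h i ∈ ball S k) ∧ (h 0 = 1) ∧
      Function.Injective fun i => h i • y := by
  induction k with
  | zero =>
    refine ⟨fun _ => 1, fun i => ⟨[], le_rfl, by simp, rfl⟩, rfl, ?_⟩
    intro i j _
    apply Fin.ext
    omega
  | succ k ih =>
    obtain ⟨h, h1, h0, h2⟩ := ih
    have hex : ∃ b ∈ ball S (k + 1), ∀ i, h i • y ≠ b • y := by
      by_contra hno
      push Not at hno
      apply hinf
      set H : Set X := Set.range fun i => h i • y with hH
      have hfin : H.Finite := Set.finite_range _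
      have hsub : Subgroup.closure S ≤ MulAction.stabilizer Γ H := by
        rw [Subgroup.closure_le]
        intro s hs
        rw [SetLike.mem_coe, MulAction.mem_stabilizer_set' hfin]
        rintro z ⟨i, rfl⟩
        obtain ⟨L, hL1, hL2, hL3⟩ := h1 i
        obtain ⟨j, hj⟩ := hno (s * h i) ⟨s :: L, by simpa using hL1, by
          intro t ht
          rcases List.mem_cons.1 ht with rfl | ht
          · exact Or.inl hs
          · exact hL2 t ht, by rw [List.prod_cons, hL3]⟩
        refine ⟨j, ?_⟩
        show h j • y = s • h i • y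
        rw [hj, mul_smul]
      refine hfin.subset ?_
      rintro z ⟨g, hg, rfl⟩
      have hg' := hsub hg
      rw [MulAction.mem_stabilizer_iff] at hg'
      rw [← hg']
      exact Set.smul_mem_smul_set ⟨0, by simp [h0]⟩
    obtain ⟨b, hb, hbn⟩ := hex
    refine ⟨Fin.snoc h b, ?_, ?_, ?_⟩
    · intro i
      refine Fin.lastCases ?_ (fun i => ?_) i
      · rw [Fin.snoc_last]
        exact hb
      · rw [Fin.snoc_castSucc]
        exact ball_mono S (Nat.le_succ k) (h1 i)
    · have : (0 : Fin (k + 1 + 1)) = Fin.castSucc 0 := rfl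
      rw [this, Fin.snoc_castSucc, h0]
    · intro i j
      refine Fin.lastCases ?_ (fun i => ?_) i <;> refine Fin.lastCases ?_ (fun j => ?_) j
      · intro _
        rfl
      · simp only [Fin.snoc_last, Fin.snoc_castSucc]
        intro h
        exact absurd h.symm (hbn j)
      · simp only [Fin.snoc_last, Fin.snoc_castSucc]
        intro h
        exact absurd h (hbn i)
      · simp only [Fin.snoc_castSucc]
        intro h
        rw [h2 h]

end

section

variable {X : Type} [MeasurableSpace X] [StandardBorelSpace X]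

theorem meas_eq {a b : X → X} (ha : Measurable a) (hb : Measurable b) :
    MeasurableSet {x | a x = b x} := by
  let := upgradeStandardBorel X
  exact (isClosed_diagonal.measurableSet).preimage (ha.prodMk hb)

end

section

open scoped Classical

variable {Γ X : Type} [Group Γ] [Countable Γ] [MeasurableSpace X] [StandardBorelSpace X]
  [MulAction Γ X]

theorem meas_inf (hm : ∀ g : Γ, Measurable fun x : X => g • x) (S : ℕ → Set Γ) (n : ℕ) :
    MeasurableSet {x : X | InfAt S x n} := by
  have : {x : X | InfAt S x n} = ⋂ k : ℕ, ⋃ h : Fin k → Subgroup.closure (S n),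
      ⋂ i, ⋂ j, {x | i ≠ j → (h i : Γ) • x ≠ (h j : Γ) • x} := by
    ext x
    simp only [mem_ofPred_eq, mem_iInter, mem_iUnion]
    exact infinite_iff _ x
  rw [this]
  refine MeasurableSet.iInter fun k => MeasurableSet.iUnion fun h => MeasurableSet.iInter fun i =>
    MeasurableSet.iInter fun j => ?_
  by_cases hij : i = j
  · have : {x : X | i ≠ j → (h i : Γ) • x ≠ (h j : Γ) • x} = univ := by
      ext x
      simp [hij]
    rw [this]
    exact MeasurableSet.univ
  · have : {x : X | i ≠ j → (h i : Γ) • x ≠ (h j : Γ) • x} =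
        {x : X | (h i : Γ) • x = (h j : Γ) • x}ᶜ := by
      ext x
      simp [hij]
    rw [this]
    exact (meas_eq (hm _) (hm _)).compl

/-- the colour of `g` -/
noncomputable def chi (c : Γ → X → Fin 3) (g : Γ) (x : X) : Fin 4 :=
  if g • x = x then 3 else Fin.castSucc (c g x)

omit [Countable Γ] [MeasurableSpace X] [StandardBorelSpace X] in
theorem chi_three {c : Γ → X → Fin 3} {g : Γ} {x : X} : chi c g x = 3 ↔ g • x = x := by
  unfold chi
  split_ifs with h
  · simp [h]
  · simp only [h, iff_false]
    exact (Fin.castSucc_lt_last _).ne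

omit [Countable Γ] in
theorem meas_chi (hm : ∀ g : Γ, Measurable fun x : X => g • x) {c : Γ → X → Fin 3}
    (hc : ∀ g, Measurable (c g)) (g : Γ) : Measurable (chi c g) := by
  unfold chi
  refine Measurable.ite (meas_eq (hm g) measurable_id) measurable_const ?_
  exact (measurable_of_finite _).comp (hc g)

end

end Z2

open Z2 in
open scoped Classical in
theorem t_Z2 (h : S_COL) : S_Z2 := by
  intro Γ _ _ S hSf hSm hSU X _ _ _ hm hV
  have hc : ∀ g : Γ, ∃ c : X → Fin 3, Measurable c ∧ ∀ x, g • x ≠ x → c (g • x) ≠ c x := by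
    intro g
    exact h X (fun x => g • x) (fun x => g⁻¹ • x) (hm g) (hm g⁻¹) (fun x => inv_smul_smul g x)
      (fun x => smul_inv_smul g x)
  choose c hc1 hc2 using hc
  have hex := InfAt.ex hSm hSU hV
  let F : X → ℕ := fun x => Nat.find (hex x)
  have hF : Measurable F := measurable_find hex (meas_inf hm S)
  have hFle : ∀ x n, F x ≤ n ↔ InfAt S x n := by
    intro x n
    constructor
    · intro hn
      exact (Nat.find_spec (hex x)).mono hSm hn
    · intro hn
      exact Nat.find_min' (hex x) hn
  obtain ⟨e, he1, he2⟩ := MeasurableSpace.measurable_injection_nat_bool_of_countablySeparated X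
  let code : X → Cd Γ := fun x => (F x, fun g => chi c g x, e x)
  have hcode : Measurable code :=
    hF.prodMk ((measurable_pi_lambda _ fun g => meas_chi hm hc1 g).prodMk he1)
  let w : X → Γ → Cd Γ := fun x δ => code (δ⁻¹ • x)
  have hw : ∀ (g : Γ) (x : X), sh g (w x) = w (g • x) := by
    intro g x
    funext δ
    show code ((g⁻¹ * δ)⁻¹ • x) = code (δ⁻¹ • g • x)
    rw [← mul_smul, mul_inv_rev, inv_inv]
  have hw1 : ∀ x, w x 1 = code x := by
    intro x
    show code ((1 : Γ)⁻¹ • x) = code x
    rw [inv_one, one_smul]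
  have hgood : ∀ y, Good S (w y) := by
    intro y
    refine ⟨?_, ?_, ?_⟩
    · intro k g hg
      rw [hw, hw1, hw1]
      show max (F (g • y)) k = max (F y) k
      apply le_antisymm
      · refine max_le ?_ (le_max_right _ _)
        rw [hFle, InfAt.smul hSm (le_max_right _ _) hg, ← hFle]
        exact le_max_left _ _
      · refine max_le ?_ (le_max_right _ _)
        rw [hFle, ← InfAt.smul hSm (le_max_right _ _) hg, ← hFle]
        exact le_max_left _ _
    · intro g
      rw [hw, hw1, hw1]
      constructor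
      · intro h3
        rw [chi_three.1 h3]
      · intro h3
        have h4 : g • y ≠ y := fun h5 => h3 (chi_three.2 h5)
        have h5 : g • g • y ≠ g • y := fun h6 => h4 (smul_left_cancel g h6)
        show chi c g (g • y) ≠ chi c g y
        unfold chi
        rw [if_neg h4, if_neg h5]
        exact fun h6 => hc2 g y h4 (Fin.castSucc_injective _ h6)
    · intro n k hn
      rw [hw1] at hn
      have hn' : InfAt S y n := (hFle y n).1 hn
      obtain ⟨b, hb1, -, hb2⟩ := exists_ball hn' k
      refine ⟨b, hb1, fun i j hij => ?_⟩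
      rw [hw, hw1]
      show chi c (b j * (b i)⁻¹) (b i • y) ≠ 3
      intro h3
      have h4 := chi_three.1 h3
      rw [mul_smul, inv_smul_smul] at h4
      exact hij.ne' (hb2 h4)
  refine ⟨fun x => ⟨w x, fun δ => by rw [hw]; exact hgood _⟩, ?_, ?_, ?_⟩
  · refine Measurable.subtype_mk ?_
    exact measurable_pi_lambda _ fun δ => hcode.comp (hm _)
  · intro x x' hxx
    have h1 : w x = w x' := congrArg Subtype.val hxx
    have h2 : w x 1 = w x' 1 := by rw [h1]
    rw [hw1, hw1] at h2
    exact he2 (congrArg (fun u : Cd Γ => u.2.2) h2)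
  · intro g x
    apply Subtype.ext
    rw [ZC_smul]
    exact (hw g x).symm

end Pool.Agent.N480.CV
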