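import Mathlib
import Pool.Agent.N480.CV.Stm2
import Pool.Agent.N480.CV.Z2

set_option autoImplicit false

/-!
Project CV: general facts for the assembly.
-/

namespace Pool.Agent.N480.CV

open Set MeasureTheory TopologicalSpace
open Pool.Agent.TH722.CR (CAct)

section general

variable {Γ : Type} [Group Γ]

theorem orb_equivalence {X : Type} [MulAction Γ X] : Equivalence (Orb Γ : X → X → Prop) where
  refl x := ⟨1, one_smul Γ x⟩
  symm := by rintro x y ⟨g, rfl⟩; exact ⟨g⁻¹, inv_smul_smul g x⟩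
  trans := by rintro x y z ⟨g, rfl⟩ ⟨h, rfl⟩; exact ⟨h * g, mul_smul h g x⟩

theorem IEmb.of_equivariant {X Y : Type} [MeasurableSpace X] [MeasurableSpace Y] [MulAction Γ X]
    [MulAction Γ Y] (f : X → Y) (hf : Measurable f)
    (hi : Function.Injective f) (he : ∀ (g : Γ) x, f (g • x) = g • f x) :
    IEmb (Orb Γ : X → X → Prop) (Orb Γ : Y → Y → Prop) := by
  refine ⟨f, hf, hi, fun a b => ?_, ?_⟩
  · constructor
    · rintro ⟨g, rfl⟩; exact ⟨g, (he g a).symm⟩
    · rintro ⟨g, hg⟩; exact ⟨g, hi (by rw [he, hg])⟩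
  · rintro a y ⟨g, rfl⟩; exact ⟨g • a, he g a⟩

theorem IEmb.trans {X Y Z : Type} [MeasurableSpace X] [MeasurableSpace Y] [MeasurableSpace Z]
    {E : X → X → Prop} {F : Y → Y → Prop} {G : Z → Z → Prop} (h1 : IEmb E F) (h2 : IEmb F G) :
    IEmb E G := by
  obtain ⟨f, f1, f2, f3, f4⟩ := h1
  obtain ⟨g, g1, g2, g3, g4⟩ := h2
  refine ⟨g ∘ f, g1.comp f1, g2.comp f2, fun a b => (f3 a b).trans (g3 _ _), ?_⟩
  intro a z hz
  obtain ⟨y, rfl⟩ := g4 _ _ hz
  obtain ⟨b, rfl⟩ := f4 _ _ ((g3 _ _).2 hz)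
  exact ⟨b, rfl⟩

theorem Iso.iemb {X Y : Type} [MeasurableSpace X] [MeasurableSpace Y]
    {E : X → X → Prop} {F : Y → Y → Prop} (h : Iso E F) : IEmb E F := by
  obtain ⟨h, hh⟩ := h
  exact ⟨h, h.measurable, h.injective, hh, fun a y _ => ⟨h.symm y, h.apply_symm_apply y⟩⟩

theorem Iso.symm {X Y : Type} [MeasurableSpace X] [MeasurableSpace Y]
    {E : X → X → Prop} {F : Y → Y → Prop} (h : Iso E F) : Iso F E := by
  obtain ⟨h, hh⟩ := h
  exact ⟨h.symm, fun a b => by rw [hh]; simp⟩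

theorem Iso.trans {X Y Z : Type} [MeasurableSpace X] [MeasurableSpace Y] [MeasurableSpace Z]
    {E : X → X → Prop} {F : Y → Y → Prop} {G : Z → Z → Prop} (h1 : Iso E F) (h2 : Iso F G) :
    Iso E G := by
  obtain ⟨h, hh⟩ := h1
  obtain ⟨k, hk⟩ := h2
  exact ⟨h.trans k, fun a b => by rw [hh, hk]; rfl⟩

theorem CAct.of_iso {X Y : Type} [MeasurableSpace X] [MeasurableSpace Y]
    {E : X → X → Prop} {F : Y → Y → Prop} (h : Iso E F) (hF : CAct Y F) : CAct X E := by
  obtain ⟨h, hh⟩ := h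
  exact CAct.congr h hh hF

end general

/-! ### the shift -/

/-- the shift space -/
def Sft (Γ : Type) : Type := Γ → ℕ → Bool

instance (Γ : Type) : MeasurableSpace (Sft Γ) := inferInstanceAs (MeasurableSpace (Γ → ℕ → Bool))

instance (Γ : Type) [Countable Γ] : StandardBorelSpace (Sft Γ) :=
  inferInstanceAs (StandardBorelSpace (Γ → ℕ → Bool))

section shift

variable {Γ : Type} [Group Γ]

instance : MulAction Γ (Sft Γ) where
  smul g x := sh g x
  one_smul x := sh_one x
  mul_smul g h x := (sh_sh g h x).symm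

theorem Sft_smul (g : Γ) (x : Sft Γ) : g • x = (fun δ => x (g⁻¹ * δ) : Γ → ℕ → Bool) := rfl

theorem measurable_sft (g : Γ) : Measurable fun x : Sft Γ => g • x :=
  measurable_pi_iff.2 fun δ => measurable_pi_apply (g⁻¹ * δ)

/-- one point version of `VT` -/
def VTx (Γ : Type) {X : Type} [Group Γ] [MulAction Γ X] (x : X) : Prop :=
  ∃ T : Finset Γ, {y | ∃ g ∈ Subgroup.closure (T : Set Γ), g • x = y}.Infinite

/-- one point version of `LF` -/
def LFx (Γ : Type) {X : Type} [Group Γ] [MulAction Γ X] (x : X) : Prop :=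
  {y | ∃ g : Γ, g • x = y}.Infinite ∧
    ∀ T : Finset Γ, {y | ∃ g ∈ Subgroup.closure (T : Set Γ), g • x = y}.Finite

theorem image_orb {X Y : Type} [MulAction Γ X] [MulAction Γ Y] (f : X → Y)
    (he : ∀ (g : Γ) x, f (g • x) = g • f x) (P : Γ → Prop) (x : X) :
    {y | ∃ g, P g ∧ g • f x = y} = f '' {y | ∃ g, P g ∧ g • x = y} := by
  ext y
  constructor
  · rintro ⟨g, hg, rfl⟩
    exact ⟨g • x, ⟨g, hg, rfl⟩, he g x⟩
  · rintro ⟨_, ⟨g, hg, rfl⟩, rfl⟩
    exact ⟨g, hg, (he g x).symm⟩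

theorem VTx.map {X Y : Type} [MulAction Γ X] [MulAction Γ Y] (f : X → Y)
    (hi : Function.Injective f) (he : ∀ (g : Γ) x, f (g • x) = g • f x) (x : X) :
    VTx Γ (f x) ↔ VTx Γ x := by
  unfold VTx
  apply exists_congr
  intro T
  have := image_orb f he (fun g => g ∈ Subgroup.closure (T : Set Γ)) x
  rw [this, infinite_image_iff hi.injOn]

theorem LFx.map {X Y : Type} [MulAction Γ X] [MulAction Γ Y] (f : X → Y)
    (hi : Function.Injective f) (he : ∀ (g : Γ) x, f (g • x) = g • f x) (x : X) :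
    LFx Γ (f x) ↔ LFx Γ x := by
  unfold LFx
  have h1 := image_orb f he (fun _ => True) x
  simp only [true_and] at h1
  rw [h1, infinite_image_iff hi.injOn]
  refine and_congr_right fun _ => forall_congr' fun T => ?_
  have := image_orb f he (fun g => g ∈ Subgroup.closure (T : Set Γ)) x
  rw [this, finite_image_iff hi.injOn]

theorem VTx.smul {X : Type} [MulAction Γ X] {x : X} (h : VTx Γ x) (k : Γ) : VTx Γ (k • x) := by
  classical
  obtain ⟨T, hT⟩ := h
  refine ⟨insert k T, Set.Infinite.mono ?_ hT⟩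
  rintro y ⟨g, hg, rfl⟩
  refine ⟨g * k⁻¹, mul_mem ?_ (inv_mem ?_), by rw [mul_smul, inv_smul_smul]⟩
  · exact Subgroup.closure_mono (by simp) hg
  · exact Subgroup.subset_closure (by simp)

theorem LFx.smul {X : Type} [MulAction Γ X] {x : X} (h : LFx Γ x) (k : Γ) : LFx Γ (k • x) := by
  classical
  refine ⟨Set.Infinite.mono ?_ h.1, fun T => ((h.2 (insert k T)).subset ?_)⟩
  · rintro y ⟨g, rfl⟩
    exact ⟨g * k⁻¹, by rw [mul_smul, inv_smul_smul]⟩
  · rintro y ⟨g, hg, rfl⟩
    refine ⟨g * k, mul_mem ?_ ?_, by rw [mul_smul]⟩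
    · exact Subgroup.closure_mono (by simp) hg
    · exact Subgroup.subset_closure (by simp)

/-- points of the shift at which some finitely generated subgroup has an infinite orbit -/
def SV (Γ : Type) [Group Γ] : SubMulAction Γ (Sft Γ) where
  carrier := {x | VTx Γ x}
  smul_mem' := fun k _ hx => VTx.smul hx k

/-- points of the shift of locally finite type -/
def SL (Γ : Type) [Group Γ] : SubMulAction Γ (Sft Γ) where
  carrier := {x | LFx Γ x}
  smul_mem' := fun k _ hx => LFx.smul hx k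

theorem VT_SV : VT Γ (SV Γ) := fun x =>
  (VTx.map (fun y : SV Γ => (y : Sft Γ)) Subtype.val_injective (fun _ _ => rfl) x).1 x.2

theorem LF_SL : LF Γ (SL Γ) := fun x =>
  (LFx.map (fun y : SL Γ => (y : Sft Γ)) Subtype.val_injective (fun _ _ => rfl) x).1 x.2

theorem meas_infinite [Countable Γ] {X : Type} [MeasurableSpace X] [StandardBorelSpace X]
    [MulAction Γ X] (hm : ∀ g : Γ, Measurable fun x : X => g • x) (S : Set Γ) :
    MeasurableSet {x : X | {y | ∃ g ∈ Subgroup.closure S, g • x = y}.Infinite} :=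
  Z2.meas_inf hm (fun _ => S) 0

theorem meas_VTx [Countable Γ] {X : Type} [MeasurableSpace X] [StandardBorelSpace X]
    [MulAction Γ X] (hm : ∀ g : Γ, Measurable fun x : X => g • x) :
    MeasurableSet {x : X | VTx Γ x} := by
  have : {x : X | VTx Γ x} = ⋃ T : Finset Γ,
      {x : X | {y | ∃ g ∈ Subgroup.closure (T : Set Γ), g • x = y}.Infinite} := by
    ext x; simp [VTx]
  rw [this]
  exact MeasurableSet.iUnion fun T => meas_infinite hm _

theorem meas_LFx [Countable Γ] {X : Type} [MeasurableSpace X] [StandardBorelSpace X]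
    [MulAction Γ X] (hm : ∀ g : Γ, Measurable fun x : X => g • x) :
    MeasurableSet {x : X | LFx Γ x} := by
  have h1 := meas_infinite (Γ := Γ) hm univ
  have : {x : X | LFx Γ x} =
      {x : X | {y | ∃ g ∈ Subgroup.closure (univ : Set Γ), g • x = y}.Infinite} ∩
      ⋂ T : Finset Γ, {x : X | {y | ∃ g ∈ Subgroup.closure (T : Set Γ), g • x = y}.Infinite}ᶜ := by
    ext x; simp [LFx]
  rw [this]
  exact h1.inter (MeasurableSet.iInter fun T => (meas_infinite hm _).compl)

instance [Countable Γ] : StandardBorelSpace (SV Γ) :=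
  (meas_VTx (Γ := Γ) measurable_sft).standardBorel

instance [Countable Γ] : StandardBorelSpace (SL Γ) :=
  (meas_LFx (Γ := Γ) measurable_sft).standardBorel

theorem measurable_SV (g : Γ) : Measurable fun x : SV Γ => g • x :=
  ((measurable_sft g).comp measurable_subtype_coe).subtype_mk

theorem measurable_SL (g : Γ) : Measurable fun x : SL Γ => g • x :=
  ((measurable_sft g).comp measurable_subtype_coe).subtype_mk

theorem exists_emb [Countable Γ] {X : Type} [MeasurableSpace X] [StandardBorelSpace X]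
    [MulAction Γ X] (hm : ∀ g : Γ, Measurable fun x : X => g • x) :
    ∃ f : X → Sft Γ, Measurable f ∧ Function.Injective f ∧ ∀ (g : Γ) x, f (g • x) = g • f x := by
  obtain ⟨e, he, hi⟩ := MeasurableSpace.measurable_injection_nat_bool_of_countablySeparated X
  refine ⟨fun x δ => e (δ⁻¹ • x), ?_, ?_, ?_⟩
  · exact measurable_pi_iff.2 fun δ => he.comp (hm δ⁻¹)
  · intro x y h
    have := congrFun h 1
    simpa using hi this
  · intro g x
    refine funext (fun δ => ?_ : ∀ δ : Γ, _)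
    change e (δ⁻¹ • g • x) = e ((g⁻¹ * δ)⁻¹ • x)
    rw [mul_inv_rev, inv_inv, mul_smul]

theorem iemb_SV [Countable Γ] {X : Type} [MeasurableSpace X] [StandardBorelSpace X]
    [MulAction Γ X] (hm : ∀ g : Γ, Measurable fun x : X => g • x) (h : VT Γ X) :
    IEmb (Orb Γ : X → X → Prop) (Orb Γ : SV Γ → SV Γ → Prop) := by
  obtain ⟨f, h1, h2, h3⟩ := exists_emb hm
  refine IEmb.of_equivariant (fun x => (⟨f x, (VTx.map f h2 h3 x).2 (h x)⟩ : SV Γ))
    h1.subtype_mk (fun x y hxy => h2 (congrArg Subtype.val hxy)) (fun g x => Subtype.ext (h3 g x))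

theorem iemb_SL [Countable Γ] {X : Type} [MeasurableSpace X] [StandardBorelSpace X]
    [MulAction Γ X] (hm : ∀ g : Γ, Measurable fun x : X => g • x) (h : LF Γ X) :
    IEmb (Orb Γ : X → X → Prop) (Orb Γ : SL Γ → SL Γ → Prop) := by
  obtain ⟨f, h1, h2, h3⟩ := exists_emb hm
  refine IEmb.of_equivariant (fun x => (⟨f x, (LFx.map f h2 h3 x).2 (h x)⟩ : SL Γ))
    h1.subtype_mk (fun x y hxy => h2 (congrArg Subtype.val hxy)) (fun g x => Subtype.ext (h3 g x))

end shift

end Pool.Agent.N480.CV
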