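import Pool.Agent.N480.CV.Stm2
import Pool.Agent.H139R3.FM

set_option autoImplicit false

/-!
Project CV, part BAS: basic facts on compressible relations.
-/

namespace Pool.Agent.N480.CV.BAS

open Set MeasureTheory

variable {X : Type} [MeasurableSpace X]

theorem hf_eqv {E : X → X → Prop} {F : ℕ → X → X → Prop} (h : HF E F) : Equivalence E := by
  have hmono : ∀ x y, Monotone fun n => F n x y := fun x y =>
    monotone_nat_of_le_succ fun n => h.mono n x y
  refine ⟨fun x => (h.union x x).2 ⟨0, (h.eqv 0).refl x⟩, fun {x y} hxy => ?_,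
    fun {x y z} hxy hyz => ?_⟩
  · obtain ⟨n, hn⟩ := (h.union x y).1 hxy
    exact (h.union y x).2 ⟨n, (h.eqv n).symm hn⟩
  · obtain ⟨n, hn⟩ := (h.union x y).1 hxy
    obtain ⟨m, hm⟩ := (h.union y z).1 hyz
    exact (h.union x z).2 ⟨max n m, (h.eqv _).trans (hmono x y (le_max_left n m) hn)
      (hmono y z (le_max_right n m) hm)⟩

theorem hf_meas {E : X → X → Prop} {F : ℕ → X → X → Prop} (h : HF E F) :
    MeasurableSet {p : X × X | E p.1 p.2} := by
  have e : {p : X × X | E p.1 p.2} = ⋃ n, {p : X × X | F n p.1 p.2} := by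
    ext p
    simp only [mem_ofPred_eq, mem_iUnion]
    exact h.union p.1 p.2
  rw [e]
  exact MeasurableSet.iUnion h.meas

theorem hf_count {E : X → X → Prop} {F : ℕ → X → X → Prop} (h : HF E F) (x : X) :
    {y | E x y}.Countable := by
  have e : {y | E x y} = ⋃ n, {y | F n x y} := by
    ext y
    simp only [mem_ofPred_eq, mem_iUnion]
    exact h.union x y
  rw [e]
  exact countable_iUnion fun n => (h.fin n x).countable

theorem meas_nat {β : Type} [MeasurableSpace β] (f : ℕ → X → β) (hf : ∀ n, Measurable (f n))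
    (N : X → ℕ) (hN : Measurable N) : Measurable fun x => f (N x) x := by
  have h1 : Measurable fun p : ℕ × X => f p.1 p.2 := measurable_from_prod_countable_right fun n => hf n
  exact h1.comp (hN.prodMk measurable_id)

theorem three (E : X → X → Prop) (hE : Equivalence E) (s : ℕ → X → X)
    (hs : ∀ n, Measurable (s n)) (hinv : ∀ n x, s n (s n x) = x)
    (hsE : ∀ x y, E x y ↔ ∃ n, s n x = y) (L : Set X) (h : ℕ → X → X) (hL : MeasurableSet L)
    (hh : ∀ n, Measurable (h n)) (hex : ∀ x, ∃ a ∈ L, E x a) (hhE : ∀ n, ∀ x ∈ L, E x (h n x))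
    (hinj : ∀ m n, ∀ x ∈ L, ∀ y ∈ L, h m x = h n y → m = n ∧ x = y) : Cmp E := by
  classical
  have hp : ∀ x, ∃ n, s n x ∈ L := by
    intro x
    obtain ⟨a, ha, hxa⟩ := hex x
    obtain ⟨n, hn⟩ := (hsE x a).1 hxa
    exact ⟨n, hn ▸ ha⟩
  have hN : Measurable fun x => Nat.find (hp x) :=
    measurable_find hp fun n => (hs n) hL
  set N : X → ℕ := fun x => Nat.find (hp x) with hNdef
  have hNL : ∀ x, s (N x) x ∈ L := fun x => Nat.find_spec (hp x)
  refine ⟨fun x m => h (Nat.pair (N x) m) (s (N x) x), fun m => ?_, fun x m => ?_, ?_⟩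
  · exact meas_nat (fun n x => h (Nat.pair n m) (s n x)) (fun n => (hh _).comp (hs n)) N hN
  · exact hE.trans ((hsE x _).2 ⟨N x, rfl⟩) (hhE _ _ (hNL x))
  · intro x x' m m' he
    obtain ⟨h1, h2⟩ := hinj _ _ _ (hNL x) _ (hNL x') he
    rw [Nat.pair_eq_pair] at h1
    refine ⟨?_, h1.2⟩
    rw [← hinv (N x) x, h2, h1.1, hinv]

theorem one (E : X → X → Prop) [StandardBorelSpace X] (hE : Equivalence E) (s : ℕ → X → X)
    (hs : ∀ n, Measurable (s n)) (hinv : ∀ n x, s n (s n x) = x)
    (hsE : ∀ x y, E x y ↔ ∃ n, s n x = y) (f : X → X) (hf : Measurable f)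
    (hfi : Function.Injective f) (hfE : ∀ x, E x (f x)) (hex : ∀ x, ∃ a, E x a ∧ a ∉ range f) :
    Cmp E := by
  have hit : ∀ n, Function.Injective (f^[n]) := fun n => hfi.iterate n
  have key : ∀ m n x y, x ∉ range f → m ≤ n → f^[m] x = f^[n] y → m = n ∧ x = y := by
    intro m n x y hx hmn he
    obtain ⟨k, rfl⟩ := Nat.exists_eq_add_of_le hmn
    rw [Function.iterate_add_apply] at he
    have h1 := hit m he
    rcases k with _ | k
    · exact ⟨rfl, h1⟩
    · exfalso
      apply hx
      rw [h1, Function.iterate_succ_apply']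
      exact ⟨_, rfl⟩
  refine three E hE s hs hinv hsE (range f)ᶜ (fun n => f^[n])
    (hf.measurableEmbedding hfi).measurableSet_range.compl (fun n => hf.iterate n) ?_ ?_ ?_
  · intro x
    obtain ⟨a, ha, hr⟩ := hex x
    exact ⟨a, hr, ha⟩
  · intro n x _
    induction n with
    | zero => exact hE.refl x
    | succ n ih =>
      rw [Function.iterate_succ_apply']
      exact hE.trans ih (hfE _)
  · intro m n x hx y hy he
    rcases le_total m n with h | h
    · exact key m n x y hx h he
    · obtain ⟨h1, h2⟩ := key n m y x hy h he.symm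
      exact ⟨h1.symm, h2.symm⟩

theorem two (E : X → X → Prop) (hE : Equivalence E) (U : ℕ → Set X)
    (hU : ∀ n, MeasurableSet (U n)) (hI : ∀ n, Inv E (U n)) (hC : ∀ n, Cmp (Res E (U n))) :
    Cmp (Res E (⋃ n, U n)) := by
  classical
  choose st hst1 hst2 hst3 using hC
  have hp : ∀ x : (⋃ n, U n : Set X), ∃ n, (x : X) ∈ U n := fun x => mem_iUnion.1 x.2
  have hN : Measurable fun x : (⋃ n, U n : Set X) => Nat.find (hp x) :=
    measurable_find hp fun n => measurable_subtype_coe (hU n)
  set N : (⋃ n, U n : Set X) → ℕ := fun x => Nat.find (hp x) with hNdef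
  have hNU : ∀ x, (x : X) ∈ U (N x) := fun x => Nat.find_spec (hp x)
  have hNE : ∀ x y : (⋃ n, U n : Set X), E x y → N x = N y := by
    have aux : ∀ x y : (⋃ n, U n : Set X), E x y → N y ≤ N x := fun x y hxy =>
      Nat.find_min' (hp y) (hI _ _ _ hxy (hNU x))
    exact fun x y hxy => le_antisymm (aux y x (hE.symm hxy)) (aux x y hxy)
  let g : ℕ → ℕ → X → X := fun m n x => if h : x ∈ U n then (st n ⟨x, h⟩ m : X) else x
  have hg : ∀ m n, Measurable (g m n) := by
    intro m n
    exact Measurable.dite (s := U n) (f := fun x => (st n x m : X)) (g := fun x => (x : X))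
      (measurable_subtype_coe.comp (hst1 n m)) measurable_subtype_coe (hU n)
  have hgv : ∀ m n (x : X) (h : x ∈ U n), g m n x = st n ⟨x, h⟩ m := fun m n x h => dif_pos h
  refine ⟨fun x m => ⟨g m (N x) x, ?_⟩, fun m => ?_, fun x m => ?_, ?_⟩
  · rw [hgv m _ x (hNU x)]
    exact mem_iUnion.2 ⟨_, (st (N x) ⟨x, hNU x⟩ m).2⟩
  · refine Measurable.subtype_mk ?_
    exact meas_nat (fun n (x : (⋃ n, U n : Set X)) => g m n x)
      (fun n => (hg m n).comp measurable_subtype_coe) N hN
  · show E x (g m (N x) x)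
    rw [hgv m _ x (hNU x)]
    exact hst2 (N x) ⟨x, hNU x⟩ m
  · intro x x' m m' he
    have he' : g m (N x) x = g m' (N x') x' := congrArg Subtype.val he
    have hE1 : E x (g m (N x) x) := by
      rw [hgv m _ x (hNU x)]
      exact hst2 (N x) ⟨x, hNU x⟩ m
    have hE2 : E x' (g m' (N x') x') := by
      rw [hgv m' _ x' (hNU x')]
      exact hst2 (N x') ⟨x', hNU x'⟩ m'
    have hxx : E x x' := hE.trans hE1 (he' ▸ hE.symm hE2)
    have hNN := hNE x x' hxx
    have hx' : (x' : X) ∈ U (N x) := hNN ▸ hNU x'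
    rw [← hNN, hgv m _ x (hNU x), hgv m' _ x' hx'] at he'
    obtain ⟨h1, h2⟩ := hst3 (N x) _ _ _ _ (Subtype.ext he')
    exact ⟨Subtype.ext (congrArg (fun z : U (N x) => (z : X)) h1), h2⟩

theorem four (E : X → X → Prop) [StandardBorelSpace X] (hE : Equivalence E) (s : ℕ → X → X)
    (hs : ∀ n, Measurable (s n)) (hinv : ∀ n x, s n (s n x) = x)
    (hsE : ∀ x y, E x y ↔ ∃ n, s n x = y) (T : Set X) (hT : MeasurableSet T) (hA : Ape E)
    (hfin : ∀ x, {t | t ∈ T ∧ E x t}.Finite) (hex : ∀ x, ∃ t ∈ T, E x t) : Cmp E := by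
  classical
  obtain ⟨e, he⟩ := exists_measurableEmbedding_real X
  -- new elements of the list
  let p : X → ℕ → Prop := fun t k => ∀ j, j < k → s j t ≠ s k t
  have hpm : ∀ k, MeasurableSet {t | p t k} := by
    intro k
    have h1 : {t | p t k} = ⋂ j, ⋂ (_ : j < k), {t | s j t = s k t}ᶜ := by
      ext t
      simp [p]
    rw [h1]
    refine MeasurableSet.iInter fun j => MeasurableSet.iInter fun _ => ?_
    refine MeasurableSet.compl ?_
    have h2 : {t | s j t = s k t} = {t | e (s j t) = e (s k t)} := by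
      ext t
      exact ⟨fun h => congrArg e h, fun h => he.injective h⟩
    rw [h2]
    exact measurableSet_eq_fun (he.measurable.comp (hs j)) (he.measurable.comp (hs k))
  have hpinf : ∀ t n, ∃ k, n ≤ k ∧ p t k := by
    intro t n
    by_contra hcon
    push Not at hcon
    apply hA t
    refine ((Set.finite_Iio n).image fun j => s j t).subset ?_
    intro y hy
    have hk : ∃ k, s k t = y := (hsE t y).1 hy
    have h1 := Nat.find_spec hk
    have h2 : p t (Nat.find hk) := fun j hj hj' => Nat.find_min hk hj (hj'.trans h1)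
    refine ⟨Nat.find hk, ?_, h1⟩
    by_contra h3
    exact hcon _ (not_lt.1 h3) h2
  -- the indices of the new elements
  let K : ℕ → X → ℕ := fun n => Nat.rec (fun t => Nat.find (hpinf t 0))
    (fun _ r t => Nat.find (hpinf t (r t + 1))) n
  have hK0 : ∀ t, K 0 t = Nat.find (hpinf t 0) := fun t => rfl
  have hK1 : ∀ n t, K (n + 1) t = Nat.find (hpinf t (K n t + 1)) := fun n t => rfl
  have hKp : ∀ n t, p t (K n t) := by
    intro n t
    cases n with
    | zero => exact (Nat.find_spec (hpinf t 0)).2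
    | succ n => exact (Nat.find_spec (hpinf t (K n t + 1))).2
  have hKlt : ∀ n t, K n t < K (n + 1) t := fun n t => (Nat.find_spec (hpinf t (K n t + 1))).1
  have hKmono : ∀ t, StrictMono fun n => K n t := fun t => strictMono_nat_of_lt_succ fun n => hKlt n t
  have hKm : ∀ n, Measurable (K n) := by
    intro n
    induction n with
    | zero =>
      refine measurable_find (fun t => hpinf t 0) fun k => ?_
      have h1 : {t | 0 ≤ k ∧ p t k} = {t | p t k} := by
        ext t; simp
      rw [h1]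
      exact hpm k
    | succ n ih =>
      refine measurable_find (fun t => hpinf t (K n t + 1)) fun k => ?_
      have h1 : {t | K n t + 1 ≤ k ∧ p t k} = (K n) ⁻¹' {j | j + 1 ≤ k} ∩ {t | p t k} := rfl
      rw [h1]
      exact (ih (MeasurableSet.of_discrete)).inter (hpm k)
  -- the transversal
  let L : Set X := {t | t ∈ T ∧ ∀ n, s n t ∈ T → e t ≤ e (s n t)}
  have hLm : MeasurableSet L := by
    have h1 : L = T ∩ ⋂ n, ((s n ⁻¹' T)ᶜ ∪ {t | e t ≤ e (s n t)}) := by
      ext t
      simp only [L, mem_ofPred_eq, mem_inter_iff, mem_iInter, mem_union, mem_compl_iff, mem_preimage]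
      refine and_congr_right fun _ => forall_congr' fun n => ?_
      exact imp_iff_not_or
    rw [h1]
    refine hT.inter (MeasurableSet.iInter fun n => ?_)
    exact (hs n hT).compl.union (measurableSet_le he.measurable (he.measurable.comp (hs n)))
  have hLex : ∀ x, ∃ a ∈ L, E x a := by
    intro x
    obtain ⟨t, ht, hxt⟩ := hex x
    obtain ⟨a, ha, hmin⟩ := Set.exists_min_image _ e (hfin x) ⟨t, ht, hxt⟩
    refine ⟨a, ⟨ha.1, fun n hn => hmin _ ⟨hn, ?_⟩⟩, ha.2⟩
    exact hE.trans ha.2 ((hsE a _).2 ⟨n, rfl⟩)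
  have hLuniq : ∀ x ∈ L, ∀ y ∈ L, E x y → x = y := by
    intro x hx y hy hxy
    obtain ⟨n, hn⟩ := (hsE x y).1 hxy
    obtain ⟨m, hm⟩ := (hsE y x).1 (hE.symm hxy)
    have h1 : e x ≤ e y := by
      have := hx.2 n (hn ▸ hy.1)
      rwa [hn] at this
    have h2 : e y ≤ e x := by
      have := hy.2 m (hm ▸ hx.1)
      rwa [hm] at this
    exact he.injective (le_antisymm h1 h2)
  refine three E hE s hs hinv hsE L (fun n t => s (K n t) t) hLm
    (fun n => meas_nat s hs (K n) (hKm n)) hLex (fun n x _ => (hsE x _).2 ⟨_, rfl⟩) ?_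
  intro m n x hx y hy hxy
  have hExy : E x y := by
    have h1 : E x (s (K m x) x) := (hsE x _).2 ⟨_, rfl⟩
    have h2 : E y (s (K n y) y) := (hsE y _).2 ⟨_, rfl⟩
    have hxy' : s (K m x) x = s (K n y) y := hxy
    exact hE.trans h1 (hxy' ▸ hE.symm h2)
  have hxy2 := hLuniq x hx y hy hExy
  subst hxy2
  refine ⟨?_, rfl⟩
  have hxy' : s (K m x) x = s (K n x) x := hxy
  rcases lt_trichotomy m n with h | h | h
  · exact absurd hxy' (hKp n x _ (hKmono x h))
  · exact h
  · exact absurd hxy'.symm (hKp m x _ (hKmono x h))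

end Pool.Agent.N480.CV.BAS

namespace Pool.Agent.N480.CV

open BAS

theorem t_BAS : S_BAS := by
  intro X _ _ E F hF
  have hE := hf_eqv hF
  obtain ⟨s, hs, hinv, hsE⟩ := Pool.Agent.H139R3.FM.feldman_moore E hE (hf_meas hF) (hf_count hF)
  refine ⟨fun f hf hfi hfE hex => one E hE s hs hinv hsE f hf hfi hfE hex,
    fun U hU hI hC => two E hE U hU hI hC,
    fun L h hL hh hex hhE hinj => three E hE s hs hinv hsE L h hL hh hex hhE hinj,
    fun T hT hA hfin hex => four E hE s hs hinv hsE T hT hA hfin hex⟩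

end Pool.Agent.N480.CV
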