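import Mathlib
import Pool.Agent.N480.CV.Stm
import Pool.Agent.TH635.CR_ABS
import Pool.Agent.TH286.CR.GE
import Pool.Agent.H139R3.FM

set_option autoImplicit false

/-!
Project CV (helper480), part ABS (helper572): a smooth relation with infinite classes embeds
invariantly in a continuous action with infinite orbits on a compact metrizable space.
-/

namespace Pool.Agent.N480.CV

open Set MeasureTheory TopologicalSpace

namespace ABS

/-! ### Generalities -/

theorem orb_equiv {Γ X : Type} [Group Γ] [MulAction Γ X] : Equivalence (Orb Γ : X → X → Prop) := by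
  refine ⟨fun x => ⟨1, one_smul Γ x⟩, ?_, ?_⟩
  · rintro x y ⟨g, rfl⟩
    exact ⟨g⁻¹, inv_smul_smul g x⟩
  · rintro x y z ⟨g, rfl⟩ ⟨h, rfl⟩
    exact ⟨h * g, mul_smul h g x⟩

theorem meas_find {X : Type} [MeasurableSpace X] (P : ℕ → X → Prop)
    (hP : ∀ n, MeasurableSet {x | P n x}) (hex : ∀ x, ∃ n, P n x) :
    ∃ k : X → ℕ, Measurable k ∧ ∀ x, P (k x) x := by
  classical
  refine ⟨fun x => Nat.find (hex x), ?_, fun x => Nat.find_spec (hex x)⟩
  exact measurable_find (p := fun x n => P n x) hex hP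

theorem meas_sel {X Y : Type} [MeasurableSpace X] [MeasurableSpace Y] (F : ℕ → X → Y)
    (hF : ∀ n, Measurable (F n)) {k : X → ℕ} (hk : Measurable k) :
    Measurable fun x => F (k x) x := by
  intro S hS
  have h1 : (fun x => F (k x) x) ⁻¹' S = ⋃ n, (k ⁻¹' {n} ∩ F n ⁻¹' S) := by
    ext x
    simp only [mem_preimage, mem_iUnion, mem_inter_iff, mem_singleton_iff]
    constructor
    · intro h
      exact ⟨k x, rfl, h⟩
    · rintro ⟨n, rfl, h⟩
      exact h
  rw [h1]
  exact MeasurableSet.iUnion fun n => (hk (measurableSet_singleton n)).inter (hF n hS)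

/-! ### Enumeration of the orbits -/

section enum

variable {Γ Z : Type} [Group Γ] [MulAction Γ Z]

/-- `m` is the least number of its point -/
def pp (γ : ℕ → Γ) (b : Z) (m : ℕ) : Prop := ∀ i : ℕ, i < m → γ i • b ≠ γ m • b

/-- the `k`-th point of the orbit -/
noncomputable def rr (γ : ℕ → Γ) (b : Z) (k : ℕ) : Z := γ (Nat.nth (pp γ b) k) • b

variable {γ : ℕ → Γ} (hγ : Function.Surjective γ)

include hγ in
theorem pp_exists (b : Z) (g : Γ) : ∃ m, pp γ b m ∧ γ m • b = g • b := by
  classical
  have hex : ∃ m, γ m • b = g • b := by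
    obtain ⟨n, hn⟩ := hγ g
    exact ⟨n, by rw [hn]⟩
  refine ⟨Nat.find hex, ?_, Nat.find_spec hex⟩
  intro i hi h
  exact Nat.find_min hex hi (h.trans (Nat.find_spec hex))

include hγ in
theorem pp_inf (b : Z) (hinf : {v | ∃ g : Γ, g • b = v}.Infinite) :
    {m | pp γ b m}.Infinite := by
  intro hfin
  apply hinf
  refine (hfin.image (fun m => γ m • b)).subset ?_
  rintro v ⟨g, rfl⟩
  obtain ⟨m, hm, he⟩ := pp_exists hγ b g
  exact ⟨m, hm, he⟩

include hγ in
theorem rr_inj (b : Z) (hinf : {v | ∃ g : Γ, g • b = v}.Infinite) {k k' : ℕ}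
    (h : rr γ b k = rr γ b k') : k = k' := by
  have hi := pp_inf hγ b hinf
  have h1 : pp γ b (Nat.nth (pp γ b) k) := Nat.nth_mem_of_infinite hi k
  have h2 : pp γ b (Nat.nth (pp γ b) k') := Nat.nth_mem_of_infinite hi k'
  have h3 : Nat.nth (pp γ b) k = Nat.nth (pp γ b) k' := by
    rcases lt_trichotomy (Nat.nth (pp γ b) k) (Nat.nth (pp γ b) k') with h4 | h4 | h4
    · exact absurd h (h2 _ h4)
    · exact h4
    · exact absurd h.symm (h1 _ h4)
  exact Nat.nth_injective hi h3

include hγ in
theorem rr_surj (b : Z) (g : Γ) : ∃ k, rr γ b k = g • b := by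
  classical
  obtain ⟨m, hm, he⟩ := pp_exists hγ b g
  refine ⟨Nat.count (pp γ b) m, ?_⟩
  unfold rr
  rw [Nat.nth_count hm, he]

variable [MeasurableSpace Z] [StandardBorelSpace Z] (hm : ∀ g : Γ, Measurable fun z : Z => g • z)

include hm in
theorem pp_meas (m : ℕ) : MeasurableSet {b : Z | pp γ b m} := by
  have h1 : {b : Z | pp γ b m} = ⋂ i : ℕ, ⋂ _ : i < m, {b : Z | γ i • b = γ m • b}ᶜ := by
    ext b
    simp only [mem_iInter, mem_compl_iff, mem_ofPred_eq]
    rfl
  rw [h1]
  exact MeasurableSet.iInter fun i => MeasurableSet.iInter fun _ =>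
    (measurableSet_eq_fun (hm _) (hm _)).compl

include hm in
open Classical in
theorem count_meas (m : ℕ) : Measurable fun b : Z => Nat.count (pp γ b) m := by
  induction m with
  | zero =>
    simp only [Nat.count_zero]
    exact measurable_const
  | succ m ih =>
    simp only [Nat.count_succ]
    exact ih.add (Measurable.ite (pp_meas hm m) measurable_const measurable_const)

include hγ hm in
theorem nth_meas (hinf : ∀ w : Z, {v | ∃ g : Γ, g • w = v}.Infinite) (k : ℕ) :
    Measurable fun b : Z => Nat.nth (pp γ b) k := by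
  classical
  apply measurable_to_countable'
  intro m
  have h1 : (fun b : Z => Nat.nth (pp γ b) k) ⁻¹' {m} =
      {b : Z | pp γ b m} ∩ (fun b : Z => Nat.count (pp γ b) m) ⁻¹' {k} := by
    ext b
    simp only [mem_preimage, mem_singleton_iff, mem_inter_iff, mem_ofPred_eq]
    have hi := pp_inf hγ b (hinf b)
    constructor
    · intro h
      rw [← h]
      exact ⟨Nat.nth_mem_of_infinite hi k, Nat.count_nth_of_infinite hi k⟩
    · rintro ⟨h2, h3⟩
      rw [← h3]
      exact Nat.nth_count h2
  rw [h1]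
  exact (pp_meas hm m).inter (count_meas hm m (measurableSet_singleton k))

include hγ hm in
theorem rr_meas (hinf : ∀ w : Z, {v | ∃ g : Γ, g • w = v}.Infinite) (k : ℕ) :
    Measurable fun b : Z => rr γ b k :=
  meas_sel (fun n (b : Z) => γ n • b) (fun n => hm _) (nth_meas hγ hm hinf k)

end enum

/-- the code of the first `k + 1` values -/
noncomputable def cod (k : ℕ) (w : ℕ → Bool) : ℕ :=
  (Encodable.encode (fun i : Fin (k + 1) => w i) : ℕ)

theorem cod_meas (k : ℕ) : Measurable (cod k) := by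
  have h1 : Measurable (fun w : ℕ → Bool => fun i : Fin (k + 1) => w i) :=
    measurable_pi_lambda _ fun i => measurable_pi_apply (i : ℕ)
  have h2 : Measurable (fun v : Fin (k + 1) → Bool => (Encodable.encode v : ℕ)) :=
    measurable_from_top.comp (g := fun v : Fin (k + 1) → Bool => (Encodable.encode v : ℕ))
      (measurable_id'' (by
        intro s _
        exact (Set.to_countable s).measurableSet))
  exact h2.comp h1

theorem cod_inj {k : ℕ} {w w' : ℕ → Bool} (h : cod k w = cod k w') : w k = w' k := by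
  have h1 := Encodable.encode_injective h
  exact congrFun h1 (Fin.last k)

end ABS

open ABS in
/-- **ABS** -/
theorem t_ABS (h : S_NS) : S_ABS := by
  intro Γ W _ _ _ _ _ _ _ _ _ _ hW Z _ _ _ hm hZ B hB hB1 hB2
  classical
  letI : MetricSpace W := metrizableSpaceMetric W
  haveI : StandardBorelSpace W := inferInstance
  obtain ⟨γ, hγ⟩ := exists_surjective_nat Γ
  -- the involutions of `W`
  have hgm : ∀ g : Γ, Measurable fun w : W => g • w := fun g => (continuous_const_smul g).measurable
  have hE : MeasurableSet {p : W × W | Orb Γ p.1 p.2} := by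
    have h1 : {p : W × W | Orb Γ p.1 p.2} = ⋃ g : Γ, {p : W × W | g • p.1 = p.2} := by
      ext p
      simp only [mem_iUnion, mem_ofPred_eq]
      rfl
    rw [h1]
    exact MeasurableSet.iUnion fun g =>
      measurableSet_eq_fun ((hgm g).comp measurable_fst) measurable_snd
  have hEc : ∀ y : W, {y' | Orb Γ y y'}.Countable := by
    intro y
    exact Set.countable_range (fun g : Γ => g • y)
  obtain ⟨s, hs1, hs2, hs3⟩ := Pool.Agent.H139R3.FM.feldman_moore (Orb Γ : W → W → Prop)
    orb_equiv hE hEc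
  obtain ⟨j, hj1, hj2, hj3⟩ := Pool.Agent.TH286.CR.glimm_effros s hs1 hs2 (Orb Γ : W → W → Prop)
    orb_equiv hs3 (h Γ W hW)
  -- the transversal
  obtain ⟨κ, hκ1, hκ2⟩ := meas_find (fun n (z : Z) => γ n • z ∈ B)
    (fun n => hm (γ n) hB) (fun z => by
      obtain ⟨b, hb, g, hg⟩ := hB2 z
      obtain ⟨n, hn⟩ := hγ g
      exact ⟨n, by rw [hn, hg]; exact hb⟩)
  obtain ⟨β, hβ⟩ : ∃ β : Z → Z, β = fun z => γ (κ z) • z := ⟨_, rfl⟩
  have hβm : Measurable β := by
    rw [hβ]
    exact meas_sel (fun n (z : Z) => γ n • z) (fun n => hm _) hκ1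
  have hβB : ∀ z, β z ∈ B := by
    intro z
    rw [hβ]
    exact hκ2 z
  have hβO : ∀ z, Orb Γ z (β z) := by
    intro z
    rw [hβ]
    exact ⟨γ (κ z), rfl⟩
  have hβeq : ∀ z z', Orb Γ z z' ↔ β z = β z' := by
    intro z z'
    constructor
    · intro h1
      exact hB1 _ (hβB z) _ (hβB z')
        (orb_equiv.trans (orb_equiv.symm (hβO z)) (orb_equiv.trans h1 (hβO z')))
    · intro h1
      have h2 := hβO z
      rw [h1] at h2
      exact orb_equiv.trans h2 (orb_equiv.symm (hβO z'))
  -- the number of a point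
  obtain ⟨ν, hν1, hν2⟩ := meas_find (fun n (z : Z) => rr γ (β z) n = z)
    (fun n => measurableSet_eq_fun ((rr_meas hγ hm hZ n).comp hβm) measurable_id) (fun z => by
      obtain ⟨g, hg⟩ := orb_equiv.symm (hβO z)
      obtain ⟨k, hk⟩ := rr_surj hγ (β z) g
      exact ⟨k, by rw [hk, hg]⟩)
  obtain ⟨e, he1, he2⟩ := MeasurableSpace.measurable_injection_nat_bool_of_countablySeparated Z
  -- the code
  obtain ⟨c, hc⟩ : ∃ c : Z → ℕ → ℕ,
      c = fun z n => Nat.casesOn n (ν z) (fun k => cod k (e (β z))) := ⟨_, rfl⟩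
  have hc0 : ∀ z, c z 0 = ν z := fun z => by subst hc; rfl
  have hcs : ∀ z k, c z (k + 1) = cod k (e (β z)) := fun z k => by subst hc; rfl
  have hcm : Measurable c := by
    refine measurable_pi_lambda _ fun n => ?_
    cases n with
    | zero =>
      simp only [hc0]
      exact hν1
    | succ k =>
      simp only [hcs]
      exact (cod_meas k).comp (he1.comp hβm)
  have hcT : ∀ w w' : Z, Orb Γ w w' ↔ ∃ N, ∀ n, N ≤ n → c w n = c w' n := by
    intro w w'
    rw [hβeq]
    constructor
    · intro h1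
      refine ⟨1, fun n hn => ?_⟩
      obtain ⟨k, rfl⟩ : ∃ k, n = k + 1 := ⟨n - 1, by omega⟩
      rw [hcs, hcs, h1]
    · rintro ⟨N, hN⟩
      apply he2
      funext i
      have h1 := hN (max N i + 1) (by omega)
      rw [hcs, hcs] at h1
      have h2 := Encodable.encode_injective h1
      have h3 := congrFun h2 ⟨i, by omega⟩
      exact h3
  have hci : Function.Injective c := by
    intro z z' hzz
    have h1 : β z = β z' := by
      rw [← hβeq, hcT]
      exact ⟨0, fun n _ => by rw [hzz]⟩
    have h2 : ν z = ν z' := by rw [← hc0, ← hc0, hzz]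
    rw [← hν2 z, ← hν2 z', h1, h2]
  -- the points which are absorbed
  obtain ⟨st, hst⟩ : ∃ st : Z → ℕ → Z, st = fun z n => rr γ (β z) (Nat.pair (ν z) n) := ⟨_, rfl⟩
  have hstm : ∀ n, Measurable fun z => st z n := by
    intro n
    rw [hst]
    have h1 : Measurable (fun z : Z => Nat.pair (ν z) n) :=
      (measurable_from_top (f := fun m : ℕ => Nat.pair m n)).comp hν1
    exact meas_sel (fun k (z : Z) => rr γ (β z) k) (fun k => (rr_meas hγ hm hZ k).comp hβm) h1
  have hstT : ∀ z n, Orb Γ z (st z n) := by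
    intro z n
    rw [hst]
    exact orb_equiv.trans (hβO z) ⟨_, rfl⟩
  have hsti : ∀ w w' n n', st w n = st w' n' → w = w' ∧ n = n' := by
    intro w w' n n' h1
    have h2 : β w = β w' := by
      rw [← hβeq]
      refine orb_equiv.trans (hstT w n) ?_
      rw [h1]
      exact orb_equiv.symm (hstT w' n')
    rw [hst] at h1
    simp only at h1
    rw [h2] at h1
    have h3 := rr_inj hγ (β w') (hZ (β w')) h1
    rw [Nat.pair_eq_pair] at h3
    refine ⟨?_, h3.2⟩
    rw [← hν2 w, ← hν2 w', h2, h3.1]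
  obtain ⟨H, hH⟩ := Pool.Agent.TH635.CRAbs.absorb s hs1 hs2 (Orb Γ : W → W → Prop) orb_equiv hs3
    j hj1 hj2 hj3 (Orb Γ : Z → Z → Prop) c hcm hci hcT st hstm hstT hsti
  refine ⟨fun z => H (Sum.inr z), H.measurable.comp measurable_inr,
    H.injective.comp Sum.inr_injective, ?_, ?_⟩
  · intro a b
    rw [← hH, Sum.liftRel_inr_inr]
  · intro a y hy
    obtain ⟨x, rfl⟩ := H.surjective y
    rw [← hH] at hy
    cases x with
    | inl x => cases hy
    | inr x => exact ⟨x, rfl⟩

end Pool.Agent.N480.CV
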