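import Pool.Agent.N480.CV.Stm

/-! CV/ACT: an action after removal of a partial transversal (helper195). -/

set_option autoImplicit false

namespace Pool.Agent.N480.CV

open Set MeasureTheory TopologicalSpace

namespace ACT

open scoped Classical

noncomputable section

variable {Γ Z : Type} [Group Γ] [MulAction Γ Z]

/-- the number `n` is the first number of the point `e n • z` of the orbit, and this is not `z` -/
def pp (e : ℕ → Γ) (z : Z) (n : ℕ) : Prop := e n • z ≠ z ∧ ∀ j < n, e j • z ≠ e n • z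

/-- the number of a point of the orbit -/
def io (e : ℕ → Γ) (z a : Z) : ℕ := sInf {n | e n • z = a}

/-- the rank of a point of the orbit -/
def rk (e : ℕ → Γ) (z a : Z) : ℕ := Nat.count (pp e z) (io e z a)

/-- the point of the orbit with given rank -/
def ro (e : ℕ → Γ) (z : Z) (n : ℕ) : Z := e (Nat.nth (pp e z) n) • z

lemma pp_inf (e : ℕ ≃ Γ) (z : Z) (hz : {y | ∃ g : Γ, g • z = y}.Infinite) :
    {n | pp e z n}.Infinite := by
  intro hfin
  apply hz
  apply ((hfin.image fun m => e m • z).union (finite_singleton z)).subset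
  rintro y ⟨g, rfl⟩
  by_cases h : g • z = z
  · right; exact h
  · left
    have hne : {n | e n • z = g • z}.Nonempty := ⟨e.symm g, by
      show e (e.symm g) • z = g • z
      rw [e.apply_symm_apply]⟩
    have h1 := Nat.sInf_mem hne
    refine ⟨sInf {n | e n • z = g • z}, ⟨?_, ?_⟩, h1⟩
    · rw [show e (sInf {n | e n • z = g • z}) • z = g • z from h1]
      exact h
    · intro j hj hje
      rw [show e (sInf {n | e n • z = g • z}) • z = g • z from h1] at hje
      exact Nat.notMem_of_lt_sInf hj hje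

lemma ro_pp (e : ℕ ≃ Γ) (z : Z) (hz : {y | ∃ g : Γ, g • z = y}.Infinite) (n : ℕ) :
    pp e z (Nat.nth (pp e z) n) := Nat.nth_mem_of_infinite (pp_inf e z hz) n

lemma ro_ne (e : ℕ ≃ Γ) (z : Z) (hz : {y | ∃ g : Γ, g • z = y}.Infinite) (n : ℕ) :
    ro e z n ≠ z := (ro_pp e z hz n).1

lemma rk_ro (e : ℕ ≃ Γ) (z : Z) (hz : {y | ∃ g : Γ, g • z = y}.Infinite) (n : ℕ) :
    rk e z (ro e z n) = n := by
  have h1 := ro_pp e z hz n
  have h2 : io e z (ro e z n) = Nat.nth (pp e z) n := by
    unfold io ro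
    apply le_antisymm
    · exact Nat.sInf_le rfl
    · by_contra hcon
      push Not at hcon
      have h3 := Nat.sInf_mem (s := {m | e m • z = e (Nat.nth (pp e z) n) • z}) ⟨_, rfl⟩
      exact h1.2 _ hcon h3
  unfold rk
  rw [h2]
  exact Nat.count_nth_of_infinite (pp_inf e z hz) n

lemma io_spec (e : ℕ ≃ Γ) {z a : Z} (h : ∃ g : Γ, g • z = a) : e (io e z a) • z = a := by
  obtain ⟨g, hg⟩ := h
  exact Nat.sInf_mem (s := {n | e n • z = a}) ⟨e.symm g, by
    show e (e.symm g) • z = a
    rw [e.apply_symm_apply, hg]⟩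

lemma ro_rk (e : ℕ ≃ Γ) {z a : Z} (h : ∃ g : Γ, g • z = a) (ha : a ≠ z) :
    ro e z (rk e z a) = a := by
  have h1 := io_spec e h
  have h2 : pp e z (io e z a) := by
    refine ⟨?_, ?_⟩
    · rw [h1]; exact ha
    · intro j hj hje
      rw [h1] at hje
      exact Nat.notMem_of_lt_sInf hj hje
  unfold ro rk
  rw [Nat.nth_count h2, h1]

/-- the point of `B` in the orbit -/
def be (e : ℕ → Γ) (B : Set Z) (a : Z) : Z := e (sInf {n | e n • a ∈ B}) • a

lemma be_mem (e : ℕ ≃ Γ) {B : Set Z} {a : Z} (h : ∃ g : Γ, g • a ∈ B) : be e B a ∈ B := by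
  obtain ⟨g, hg⟩ := h
  exact Nat.sInf_mem (s := {n | e n • a ∈ B}) ⟨e.symm g, by
    show e (e.symm g) • a ∈ B
    rwa [e.apply_symm_apply]⟩

/-- the new action -/
def fa (e : ℕ ≃ Γ) (B : Set Z) (g : Γ) (a : Z) : Z :=
  if ∃ h : Γ, h • a ∈ B then ro e (be e B a) (e.symm (g * e (rk e (be e B a) a))) else g • a

section
variable (e : ℕ ≃ Γ) {B : Set Z} (hB : ∀ z ∈ B, ∀ z' ∈ B, Orb Γ z z' → z = z')
  (hinf : ∀ z : Z, {y | ∃ g : Γ, g • z = y}.Infinite)

include hB in
lemma be_eq {a b : Z} (hb : b ∈ B) (h : ∃ g : Γ, g • a = b) : be e B a = b := by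
  obtain ⟨g, hg⟩ := h
  have h1 : be e B a ∈ B := be_mem e ⟨g, by rw [hg]; exact hb⟩
  apply hB _ h1 _ hb
  refine ⟨g * (e (sInf {n | e n • a ∈ B}))⁻¹, ?_⟩
  unfold be
  rw [smul_smul, inv_mul_cancel_right, hg]

lemma be_orb (e : ℕ → Γ) (B : Set Z) (a : Z) : ∃ g : Γ, g • (be e B a) = a :=
  ⟨(e (sInf {n | e n • a ∈ B}))⁻¹, by unfold be; rw [inv_smul_smul]⟩

lemma ro_orb (e : ℕ → Γ) (z : Z) (n : ℕ) : ∃ g : Γ, g • z = ro e z n := ⟨_, rfl⟩

lemma fa_orb (g : Γ) (a : Z) : ∃ h : Γ, h • a = fa e B g a := by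
  unfold fa
  split_ifs with h
  · obtain ⟨k, hk⟩ := ro_orb e (be e B a) (e.symm (g * e (rk e (be e B a) a)))
    refine ⟨k * e (sInf {n | e n • a ∈ B}), ?_⟩
    rw [mul_smul]
    exact hk
  · exact ⟨g, rfl⟩

lemma sat_of_orb {a b : Z} (h : ∃ g : Γ, g • a = b) : (∃ h : Γ, h • b ∈ B) ↔ ∃ h : Γ, h • a ∈ B := by
  obtain ⟨g, rfl⟩ := h
  constructor
  · rintro ⟨h, hh⟩
    exact ⟨h * g, by rwa [mul_smul]⟩
  · rintro ⟨h, hh⟩
    exact ⟨h * g⁻¹, by rwa [mul_smul, inv_smul_smul]⟩

include hB hinf in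
lemma fa_notMem (g : Γ) {a : Z} (_ha : a ∉ B) : fa e B g a ∉ B := by
  intro hmem
  unfold fa at hmem
  split_ifs at hmem with h
  · have h1 := be_mem e h
    have h2 := hB _ h1 _ hmem (ro_orb e _ _)
    exact ro_ne e (be e B a) (hinf _) _ h2.symm
  · exact h ⟨g, hmem⟩

include hB in
lemma be_fa (g : Γ) {a : Z} (h : ∃ h : Γ, h • a ∈ B) : be e B (fa e B g a) = be e B a := by
  apply be_eq e hB (be_mem e h)
  obtain ⟨k, hk⟩ := fa_orb (B := B) e g a
  refine ⟨e (sInf {n | e n • a ∈ B}) * k⁻¹, ?_⟩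
  rw [← hk, smul_smul, inv_mul_cancel_right]
  rfl

include hB hinf in
lemma fa_mul (g k : Γ) {a : Z} (_ha : a ∉ B) : fa e B (g * k) a = fa e B g (fa e B k a) := by
  by_cases h : ∃ h : Γ, h • a ∈ B
  · have h1 : ∃ h : Γ, h • (fa e B k a) ∈ B := (sat_of_orb (fa_orb e k a)).mpr h
    have h2 := be_fa e hB k h
    have h3 : fa e B g (fa e B k a) = ro e (be e B (fa e B k a))
        (e.symm (g * e (rk e (be e B (fa e B k a)) (fa e B k a)))) := by
      conv_lhs => rw [fa]
      rw [if_pos h1]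
    have h4 : fa e B k a = ro e (be e B a) (e.symm (k * e (rk e (be e B a) a))) := by
      rw [fa, if_pos h]
    rw [h3, h2, h4, rk_ro e _ (hinf _), e.apply_symm_apply, fa, if_pos h, mul_assoc]
  · have h1 : ¬ ∃ h : Γ, h • (fa e B k a) ∈ B := fun h' => h ((sat_of_orb (fa_orb e k a)).mp h')
    have h4 : fa e B k a = k • a := by rw [fa, if_neg h]
    rw [h4] at h1 ⊢
    rw [fa, if_neg h, fa, if_neg h1, mul_smul]

lemma fa_one {a : Z} (ha : a ∉ B) : fa e B 1 a = a := by
  by_cases h : ∃ h : Γ, h • a ∈ B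
  · rw [fa, if_pos h, one_mul, e.symm_apply_apply]
    apply ro_rk e (be_orb e B a)
    intro h1
    exact ha (h1 ▸ be_mem e h)
  · rw [fa, if_neg h, one_smul]

include hinf in
lemma fa_inj {a : Z} (h : ∃ h : Γ, h • a ∈ B) : Function.Injective fun g => fa e B g a := by
  intro g k hgk
  simp only [fa, if_pos h] at hgk
  have h1 := congrArg (rk e (be e B a)) hgk
  rw [rk_ro e _ (hinf _), rk_ro e _ (hinf _)] at h1
  exact mul_right_cancel (e.symm.injective h1)

include hB in
lemma fa_trans {a b : Z} (ha : a ∉ B) (hb : b ∉ B) (hab : ∃ g : Γ, g • a = b) :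
    ∃ g : Γ, fa e B g a = b := by
  by_cases h : ∃ h : Γ, h • a ∈ B
  · refine ⟨e (rk e (be e B a) b) * (e (rk e (be e B a) a))⁻¹, ?_⟩
    rw [fa, if_pos h, inv_mul_cancel_right, e.symm_apply_apply]
    apply ro_rk e
    · obtain ⟨g, hg⟩ := hab
      obtain ⟨k, hk⟩ := be_orb e B a
      exact ⟨g * k, by rw [mul_smul, hk, hg]⟩
    · intro h1
      exact hb (h1 ▸ be_mem e h)
  · obtain ⟨g, hg⟩ := hab
    exact ⟨g, by rw [fa, if_neg h, hg]⟩

end

/-! ### Measurability -/

section
variable {X : Type} [MeasurableSpace X]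

lemma msInf {P : X → ℕ → Prop} (hP : ∀ n, MeasurableSet {x | P x n}) :
    Measurable fun x => sInf {n | P x n} := by
  apply measurable_to_countable'
  intro m
  have h1 : (fun x => sInf {n | P x n}) ⁻¹' {m} =
      ({x | P x m} ∩ ⋂ j ∈ Iio m, {x | P x j}ᶜ) ∪
        (if m = 0 then ⋂ j, {x | P x j}ᶜ else ∅) := by
    ext x
    simp only [mem_preimage, mem_singleton_iff, mem_union, mem_inter_iff, mem_iInter, mem_compl_iff,
      mem_setOf_eq, mem_Iio]
    constructor
    · intro h
      by_cases hne : {n | P x n}.Nonempty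
      · left
        refine ⟨?_, ?_⟩
        · rw [← h]; exact Nat.sInf_mem hne
        · intro j hj
          rw [← h] at hj
          exact Nat.notMem_of_lt_sInf hj
      · right
        rw [not_nonempty_iff_eq_empty] at hne
        rw [hne, Nat.sInf_empty] at h
        rw [if_pos h.symm]
        simp only [mem_iInter, mem_compl_iff, mem_setOf_eq]
        intro j hj
        have : j ∈ {n | P x n} := hj
        rw [hne] at this
        exact this
    · rintro (⟨h1, h2⟩ | h1)
      · apply le_antisymm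
        · exact Nat.sInf_le h1
        · by_contra hcon
          push Not at hcon
          exact h2 _ hcon (Nat.sInf_mem (s := {n | P x n}) ⟨m, h1⟩)
      · split_ifs at h1 with hm
        · simp only [mem_iInter, mem_compl_iff, mem_setOf_eq] at h1
          have : {n | P x n} = ∅ := by
            ext n
            simp only [mem_setOf_eq, mem_empty_iff_false, iff_false]
            exact h1 n
          rw [this, Nat.sInf_empty, hm]
        · exact h1.elim
  rw [h1]
  apply MeasurableSet.union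
  · exact (hP m).inter (MeasurableSet.biInter (to_countable _) fun j _ => (hP j).compl)
  · split_ifs
    · exact MeasurableSet.iInter fun j => (hP j).compl
    · exact MeasurableSet.empty

lemma mfam {Y : Type} [MeasurableSpace Y] {f : ℕ → X → Y} (hf : ∀ n, Measurable (f n))
    {N : X → ℕ} (hN : Measurable N) : Measurable fun x => f (N x) x := by
  have h1 : Measurable fun p : X × ℕ => f p.2 p.1 := measurable_from_prod_countable_left
    (fun n => hf n)
  exact h1.comp (measurable_id.prodMk hN)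

end

section
variable [MeasurableSpace Z] [StandardBorelSpace Z] (hm : ∀ g : Γ, Measurable fun z : Z => g • z)

lemma meq {X : Type} [MeasurableSpace X] {u v : X → Z} (hu : Measurable u) (hv : Measurable v) :
    MeasurableSet {x | u x = v x} := by
  letI := upgradeStandardBorel Z
  have h1 : MeasurableSet (diagonal Z) := isClosed_diagonal.measurableSet
  exact (hu.prodMk hv) h1

include hm in
lemma mpp (e : ℕ → Γ) (n : ℕ) : MeasurableSet {z : Z | pp e z n} := by
  have h1 : {z : Z | pp e z n} = {z | e n • z = z}ᶜ ∩ ⋂ j ∈ Iio n, {z | e j • z = e n • z}ᶜ := by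
    ext z
    simp only [pp, mem_setOf_eq, mem_inter_iff, mem_compl_iff, mem_iInter, mem_Iio, ne_eq]
  rw [h1]
  exact (meq (hm _) measurable_id).compl.inter
    (MeasurableSet.biInter (to_countable _) fun j _ => (meq (hm _) (hm _)).compl)

include hm in
lemma mcount (e : ℕ → Γ) (n : ℕ) : Measurable fun z : Z => Nat.count (pp e z) n := by
  induction n with
  | zero =>
    simp only [Nat.count_zero]
    exact measurable_const
  | succ n ih =>
    simp only [Nat.count_succ]
    exact ih.add (Measurable.ite (mpp hm e n) measurable_const measurable_const)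

include hm in
lemma mio (e : ℕ → Γ) {X : Type} [MeasurableSpace X] {u v : X → Z} (hu : Measurable u)
    (hv : Measurable v) : Measurable fun x => io e (u x) (v x) := by
  unfold io
  apply msInf
  intro n
  exact meq ((hm (e n)).comp hu) hv

include hm in
lemma mrk (e : ℕ → Γ) {X : Type} [MeasurableSpace X] {u v : X → Z} (hu : Measurable u)
    (hv : Measurable v) : Measurable fun x => rk e (u x) (v x) := by
  unfold rk
  exact mfam (f := fun n x => Nat.count (pp e (u x)) n) (fun n => (mcount hm e n).comp hu)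
    (mio hm e hu hv)

include hm in
lemma mnth (e : ℕ ≃ Γ) (hinf : ∀ z : Z, {y | ∃ g : Γ, g • z = y}.Infinite) (n : ℕ) :
    Measurable fun z : Z => Nat.nth (pp e z) n := by
  apply measurable_to_countable'
  intro m
  have h1 : (fun z : Z => Nat.nth (pp e z) n) ⁻¹' {m} =
      {z | pp e z m} ∩ (fun z => Nat.count (pp e z) m) ⁻¹' {n} := by
    ext z
    simp only [mem_preimage, mem_singleton_iff, mem_inter_iff, mem_setOf_eq]
    constructor
    · rintro rfl
      exact ⟨ro_pp e z (hinf z) n, Nat.count_nth_of_infinite (pp_inf e z (hinf z)) n⟩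
    · rintro ⟨h1, rfl⟩
      exact Nat.nth_count h1
  rw [h1]
  exact (mpp hm e m).inter (mcount hm e m (measurableSet_singleton n))

include hm in
lemma mro (e : ℕ ≃ Γ) (hinf : ∀ z : Z, {y | ∃ g : Γ, g • z = y}.Infinite)
    {X : Type} [MeasurableSpace X] {u : X → Z} {N : X → ℕ} (hu : Measurable u)
    (hN : Measurable N) : Measurable fun x => ro e (u x) (N x) := by
  apply mfam (f := fun n x => ro e (u x) n) _ hN
  intro n
  have h1 : Measurable fun z : Z => ro e z n := by
    unfold ro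
    exact mfam (f := fun m (z : Z) => e m • z) (fun m => hm (e m)) (mnth hm e hinf n)
  exact h1.comp hu

include hm in
lemma mbe (e : ℕ → Γ) {B : Set Z} (hB : MeasurableSet B) : Measurable fun a : Z => be e B a := by
  unfold be
  exact mfam (f := fun m (z : Z) => e m • z) (fun m => hm (e m)) (msInf fun n => hm (e n) hB)

include hm in
lemma mfa (e : ℕ ≃ Γ) {B : Set Z} (hB : MeasurableSet B)
    (hinf : ∀ z : Z, {y | ∃ g : Γ, g • z = y}.Infinite) (g : Γ) :
    Measurable fun a : Z => fa e B g a := by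
  unfold fa
  apply Measurable.ite
  · have h1 : {a : Z | ∃ h : Γ, h • a ∈ B} = ⋃ n, (fun a : Z => e n • a) ⁻¹' B := by
      ext a
      simp only [mem_setOf_eq, mem_iUnion, mem_preimage]
      constructor
      · rintro ⟨h, hh⟩
        exact ⟨e.symm h, by rwa [e.apply_symm_apply]⟩
      · rintro ⟨n, hn⟩
        exact ⟨_, hn⟩
    rw [h1]
    exact MeasurableSet.iUnion fun n => hm (e n) hB
  · apply mro hm e hinf (mbe hm e hB)
    have h1 : Measurable fun a : Z => rk e (be e B a) a := mrk hm e (mbe hm e hB) measurable_id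
    exact (measurable_from_top (f := fun n : ℕ => e.symm (g * e n))).comp h1
  · exact hm g

end

end

end ACT

theorem t_ACT : S_ACT := by
  intro Γ _ _ T hT Z _ _ _ hm hVT B hB hBt
  have hΓ : Infinite Γ := by
    by_contra hcon
    rw [not_infinite_iff_finite] at hcon
    exact hT (toFinite _)
  obtain ⟨e⟩ : Nonempty (ℕ ≃ Γ) := by
    obtain ⟨d⟩ := nonempty_denumerable Γ
    exact ⟨(Denumerable.eqv Γ).symm⟩
  have hinf : ∀ z : Z, {y | ∃ g : Γ, g • z = y}.Infinite := by
    intro z
    obtain ⟨T', hT'⟩ := hVT z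
    apply hT'.mono
    rintro y ⟨g, -, hg⟩
    exact ⟨g, hg⟩
  refine ⟨{ smul := fun g a => ⟨ACT.fa e B g a, ACT.fa_notMem e hBt hinf g a.2⟩,
            one_smul := fun a => Subtype.ext (ACT.fa_one e a.2),
            mul_smul := fun g k a => Subtype.ext (ACT.fa_mul e hBt hinf g k a.2) }, ?_, ?_, ?_⟩
  · intro g
    exact Measurable.subtype_mk ((ACT.mfa hm e hB hinf g).comp measurable_subtype_coe)
  · intro a
    by_cases h : ∃ h : Γ, h • (a : Z) ∈ B
    · refine ⟨T, ?_⟩
      have h1 : ((fun g => (⟨ACT.fa e B g a, ACT.fa_notMem e hBt hinf g a.2⟩ : (Bᶜ : Set Z))) ''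
          (Subgroup.closure (T : Set Γ) : Set Γ)).Infinite := by
        apply hT.image
        intro g _ k _ hgk
        exact ACT.fa_inj e hinf h (congrArg Subtype.val hgk)
      apply h1.mono
      rintro _ ⟨g, hg, rfl⟩
      exact ⟨g, hg, rfl⟩
    · obtain ⟨T', hT'⟩ := hVT (a : Z)
      refine ⟨T', ?_⟩
      apply Set.Infinite.of_image Subtype.val
      apply hT'.mono
      rintro y ⟨g, hg, rfl⟩
      refine ⟨⟨ACT.fa e B g a, ACT.fa_notMem e hBt hinf g a.2⟩, ⟨g, hg, rfl⟩, ?_⟩
      show ACT.fa e B g a = g • (a : Z)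
      rw [ACT.fa, if_neg h]
  · intro a b
    constructor
    · rintro ⟨g, hg⟩
      obtain ⟨k, hk⟩ := ACT.fa_orb (B := B) e g (a : Z)
      refine ⟨k, ?_⟩
      rw [hk]
      exact congrArg Subtype.val hg
    · intro h
      obtain ⟨g, hg⟩ := ACT.fa_trans e hBt a.2 b.2 h
      exact ⟨g, Subtype.ext hg⟩

end Pool.Agent.N480.CV
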