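import Pool.Agent.N480.CV.Stm

/-!
# COL: three colours for a Borel automorphism (project CV of helper480; helper415)

A proper measurable colouring `c0 : X → ℕ` is turned into one with three colours: the points of
colour `0, 1, 2, …` choose one after the other a colour different from those of their neighbours.
-/

set_option autoImplicit false

namespace Pool.Agent.N480.CV

open Set MeasureTheory

namespace COL

/-- a colour different from `a` and `b` -/
def pick (a b : Fin 3) : Fin 3 :=
  if a ≠ 0 ∧ b ≠ 0 then 0 else if a ≠ 1 ∧ b ≠ 1 then 1 else 2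

theorem pick_ne : ∀ a b : Fin 3, pick a b ≠ a ∧ pick a b ≠ b := by decide

section
variable {X : Type} (T T' : X → X) (c0 : X → ℕ)

/-- the colourings of the greedy algorithm -/
def F : ℕ → X → Fin 3
  | 0 => fun _ => 0
  | k + 1 => fun x => if c0 x = k then pick (F k (T x)) (F k (T' x)) else F k x

theorem F_stable (x : X) (k : ℕ) (h : c0 x < k) : F T T' c0 k x = F T T' c0 (c0 x + 1) x := by
  induction k, h using Nat.le_induction with
  | base => rfl
  | succ k hk ih =>
    rw [← ih]
    exact if_neg (by omega)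

theorem F_eq (x : X) : F T T' c0 (c0 x + 1) x =
    pick (F T T' c0 (c0 x) (T x)) (F T T' c0 (c0 x) (T' x)) := if_pos rfl

/-- the final colour -/
def fin (x : X) : Fin 3 := F T T' c0 (c0 x + 1) x

theorem fin_ne_left (x : X) (h : c0 (T x) < c0 x) : fin T T' c0 x ≠ fin T T' c0 (T x) := by
  unfold fin
  rw [F_eq, ← F_stable T T' c0 (T x) (c0 x) h]
  exact (pick_ne _ _).1

theorem fin_ne_right (x : X) (h : c0 (T' x) < c0 x) : fin T T' c0 x ≠ fin T T' c0 (T' x) := by
  unfold fin
  rw [F_eq, ← F_stable T T' c0 (T' x) (c0 x) h]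
  exact (pick_ne _ _).2

theorem fin_proper (hT : ∀ x, T' (T x) = x) (hc : ∀ x, T x ≠ x → c0 (T x) ≠ c0 x) (x : X)
    (hx : T x ≠ x) : fin T T' c0 (T x) ≠ fin T T' c0 x := by
  rcases lt_or_gt_of_ne (hc x hx) with h | h
  · exact (fin_ne_left T T' c0 x h).symm
  · have h1 := fin_ne_right T T' c0 (T x) (by rw [hT]; exact h)
    rwa [hT] at h1

variable [MeasurableSpace X]

theorem F_meas (hT : Measurable T) (hT' : Measurable T') (hc : Measurable c0) (k : ℕ) :
    Measurable (F T T' c0 k) := by
  induction k with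
  | zero => exact measurable_const
  | succ k ih =>
    refine Measurable.ite (hc (measurableSet_singleton k)) ?_ ih
    exact (Measurable.of_discrete (f := fun p : Fin 3 × Fin 3 => pick p.1 p.2)).comp
      ((ih.comp hT).prodMk (ih.comp hT'))

theorem fin_meas (hT : Measurable T) (hT' : Measurable T') (hc : Measurable c0) :
    Measurable (fin T T' c0) := by
  have h1 : Measurable fun p : ℕ × X => F T T' c0 (p.1 + 1) p.2 :=
    measurable_from_prod_countable_right fun k => F_meas T T' c0 hT hT' hc (k + 1)
  exact h1.comp (hc.prodMk measurable_id)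

end

theorem exists_c0 (X : Type) [MeasurableSpace X] [StandardBorelSpace X] (T : X → X)
    (hT : Measurable T) : ∃ c0 : X → ℕ, Measurable c0 ∧ ∀ x, T x ≠ x → c0 (T x) ≠ c0 x := by
  classical
  obtain ⟨e, he, hinj⟩ := MeasurableSpace.measurable_injection_nat_bool_of_countablySeparated X
  have hek : ∀ k, Measurable fun x => e x k := fun k => (measurable_pi_apply k).comp he
  have hm1 : ∀ k, MeasurableSet {x | e x k = e (T x) k} := fun k =>
    measurableSet_eq_fun (hek k) ((hek k).comp hT)
  have hex : ∀ x, ∃ n, e x n ≠ e (T x) n ∨ ∀ m, e x m = e (T x) m := by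
    intro x
    by_cases h : ∀ m, e x m = e (T x) m
    · exact ⟨0, Or.inr h⟩
    · push Not at h
      obtain ⟨n, hn⟩ := h
      exact ⟨n, Or.inl hn⟩
  have hm2 : ∀ k, MeasurableSet {x | e x k ≠ e (T x) k ∨ ∀ m, e x m = e (T x) m} := by
    intro k
    have h1 : {x | e x k ≠ e (T x) k ∨ ∀ m, e x m = e (T x) m} =
        {x | e x k = e (T x) k}ᶜ ∪ ⋂ m, {x | e x m = e (T x) m} := by
      ext x
      simp
    rw [h1]
    exact (hm1 k).compl.union (MeasurableSet.iInter hm1)
  have hn : Measurable fun x => Nat.find (hex x) := measurable_find hex hm2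
  have hb : Measurable fun x => e x (Nat.find (hex x)) := by
    have h1 : Measurable fun p : ℕ × X => e p.2 p.1 := measurable_from_prod_countable_right hek
    exact h1.comp (hn.prodMk measurable_id)
  refine ⟨fun x => Nat.pair (Nat.find (hex x)) (e x (Nat.find (hex x))).toNat, ?_, ?_⟩
  · exact (Measurable.of_discrete (f := fun p : ℕ × Bool => Nat.pair p.1 p.2.toNat)).comp
      (hn.prodMk hb)
  · intro x hx h
    obtain ⟨h1, h2⟩ := Nat.pair_eq_pair.1 h
    rw [h1] at h2
    have h3 : e (T x) (Nat.find (hex x)) = e x (Nat.find (hex x)) := by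
      revert h2
      cases e (T x) (Nat.find (hex x)) <;> cases e x (Nat.find (hex x)) <;> simp
    rcases Nat.find_spec (hex x) with h4 | h4
    · exact h4 h3.symm
    · exact hx (hinj (funext fun m => (h4 m).symm))

end COL

theorem t_COL : S_COL := by
  intro X _ _ T T' hT hT' h1 _
  obtain ⟨c0, hc, hp⟩ := COL.exists_c0 X T hT
  exact ⟨COL.fin T T' c0, COL.fin_meas T T' c0 hT hT' hc, fun x hx =>
    COL.fin_proper T T' c0 h1 hp x hx⟩

end Pool.Agent.N480.CV
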