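import Pool.Agent.N480.CV.Stm

/-!
Project CV, part DIV: division of the space into blocks, up to a partial transversal.
-/

set_option autoImplicit false

namespace Pool.Agent.N480.CV

namespace DIV

open Set Topology Filter

/-- continuous maps which move the points by finitely many elements of the group -/
def LM (Γ : Type) {Z : Type} [Group Γ] [TopologicalSpace Z] [MulAction Γ Z] (f : Z → Z) : Prop :=
  Continuous f ∧ ∃ Ψ : Finset Γ, ∀ z, ∃ g ∈ Ψ, g • z = f z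

/-- the fibres of `f` on `E` -/
def Fib {Z : Type} (E : Set Z) (f : Z → Z) (a : Z) : Set Z := {z | z ∈ E ∧ f z = a}

section basic

variable {Γ Z : Type} [Group Γ] [TopologicalSpace Z] [MulAction Γ Z]

theorem LM.comp {f f' : Z → Z} (hf : LM Γ f) (hf' : LM Γ f') : LM Γ (f' ∘ f) := by
  classical
  obtain ⟨h1, Ψ, h2⟩ := hf
  obtain ⟨h1', Ψ', h2'⟩ := hf'
  refine ⟨h1'.comp h1, (Ψ' ×ˢ Ψ).image (fun p => p.1 * p.2), fun z => ?_⟩
  obtain ⟨g, hg, e⟩ := h2 z
  obtain ⟨g', hg', e'⟩ := h2' (f z)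
  refine ⟨g' * g, Finset.mem_image.2 ⟨(g', g), Finset.mem_product.2 ⟨hg', hg⟩, rfl⟩, ?_⟩
  rw [mul_smul, e, e']
  rfl

theorem ev_iff {A : Set Z} (hA : IsClopen A) (z0 : Z) : ∀ᶠ z in 𝓝 z0, (z ∈ A ↔ z0 ∈ A) := by
  by_cases h : z0 ∈ A
  · filter_upwards [hA.isOpen.mem_nhds h] with z hz
    exact ⟨fun _ => h, fun _ => hz⟩
  · filter_upwards [hA.compl.isOpen.mem_nhds h] with z hz
    exact ⟨fun h' => absurd h' hz, fun h' => absurd h' h⟩

theorem lc_clopen {X : Type} {idx : Z → X} (h : IsLocallyConstant idx) (s : Set X) :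
    IsClopen (idx ⁻¹' s) := ⟨⟨h sᶜ⟩, h s⟩

theorem fib_finite {f : Z → Z} (hf : LM Γ f) (E : Set Z) (a : Z) : (Fib E f a).Finite := by
  classical
  obtain ⟨-, Ψ, hΨ⟩ := hf
  refine (Finset.finite_toSet (Ψ.image (fun g => g⁻¹ • a))).subset ?_
  rintro z ⟨-, rfl⟩
  obtain ⟨g, hg, e⟩ := hΨ z
  rw [Finset.mem_coe, Finset.mem_image]
  exact ⟨g, hg, by rw [← e, inv_smul_smul]⟩

variable [T2Space Z] [ContinuousConstSMul Γ Z]

theorem clopen_fix (hfix : ∀ g : Γ, IsOpen {z : Z | g • z = z}) (g : Γ) :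
    IsClopen {z : Z | g • z = z} :=
  ⟨isClosed_eq (continuous_const_smul g) continuous_id, hfix g⟩

theorem eq_clopen (hfix : ∀ g : Γ, IsOpen {z : Z | g • z = z}) {f : Z → Z} (hf : LM Γ f) (g : Γ) :
    IsClopen {z : Z | g • z = f z} := by
  refine ⟨isClosed_eq (continuous_const_smul g) hf.1, ?_⟩
  rw [isOpen_iff_eventually]
  intro z0 h0
  have h0' : g • z0 = f z0 := h0
  obtain ⟨hc, Ψ, hΨ⟩ := hf
  have h1 : ∀ h ∈ Ψ, ∀ᶠ z in 𝓝 z0, h • z = f z → g • z = f z := by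
    intro h _
    by_cases h2 : h • z0 = f z0
    · have h3 : z0 ∈ {z : Z | (g⁻¹ * h) • z = z} := by
        show (g⁻¹ * h) • z0 = z0
        rw [mul_smul, h2, ← h0', inv_smul_smul]
      filter_upwards [(hfix _).mem_nhds h3] with z hz e
      have h4 : (g⁻¹ * h) • z = z := hz
      rw [mul_smul, inv_smul_eq_iff] at h4
      rw [← h4, e]
    · filter_upwards [(isOpen_ne_fun (continuous_const_smul h) hc).mem_nhds h2] with z hz e
      exact absurd e hz
  filter_upwards [(Filter.eventually_all_finset Ψ).2 h1] with z hz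
  obtain ⟨h, hh, e⟩ := hΨ z
  exact hz h hh e

theorem eq_clopen' (hfix : ∀ g : Γ, IsOpen {z : Z | g • z = z}) {f : Z → Z} (hf : LM Γ f) (h : Γ) :
    IsClopen {a : Z | f (h • a) = a} := by
  have h1 := (eq_clopen hfix hf h⁻¹).preimage (continuous_const_smul (T := Z) h)
  convert h1 using 1
  ext a
  show f (h • a) = a ↔ h⁻¹ • h • a = f (h • a)
  rw [inv_smul_smul]
  exact eq_comm

theorem eq_clopen2 (hfix : ∀ g : Γ, IsOpen {z : Z | g • z = z}) (h h' : Γ) :
    IsClopen {a : Z | h • a = h' • a} := by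
  have h1 := clopen_fix hfix (h'⁻¹ * h)
  convert h1 using 1
  ext a
  show h • a = h' • a ↔ (h'⁻¹ * h) • a = a
  rw [mul_smul, inv_smul_eq_iff]

/-- the number of points of the fibres is locally constant -/
theorem count_const (hfix : ∀ g : Γ, IsOpen {z : Z | g • z = z}) {f : Z → Z} (hf : LM Γ f)
    {E : Set Z} (hE : IsClopen E) : IsLocallyConstant fun a => (Fib E f a).ncard := by
  classical
  rw [IsLocallyConstant.iff_eventually_eq]
  intro a0
  obtain ⟨Ψ, hΨ⟩ := hf.2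
  obtain ⟨H, hH⟩ : ∃ H : Finset Γ, H = Ψ.image (fun g => g⁻¹) := ⟨_, rfl⟩
  obtain ⟨H1, hH1⟩ : ∃ H1 : Finset Γ, H1 = H.filter (fun h => h • a0 ∈ E ∧ f (h • a0) = a0) :=
    ⟨_, rfl⟩
  obtain ⟨H0, hH0, hbij⟩ := exists_subset_bijOn (H1 : Set Γ) (fun h => h • a0)
  have hsub : ∀ h ∈ H0, h ∈ H := fun h hh => by
    have := hH0 hh
    rw [Finset.mem_coe, hH1, Finset.mem_filter] at this
    exact this.1
  have e1 : ∀ᶠ a in 𝓝 a0, ∀ h ∈ H, (h • a ∈ E ↔ h • a0 ∈ E) := by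
    rw [Filter.eventually_all_finset]
    exact fun h _ => ev_iff (hE.preimage (continuous_const_smul (T := Z) h)) a0
  have e2 : ∀ᶠ a in 𝓝 a0, ∀ h ∈ H, (f (h • a) = a ↔ f (h • a0) = a0) := by
    rw [Filter.eventually_all_finset]
    exact fun h _ => ev_iff (eq_clopen' hfix hf h) a0
  have e3 : ∀ᶠ a in 𝓝 a0, ∀ h ∈ H, ∀ h' ∈ H, (h • a = h' • a ↔ h • a0 = h' • a0) := by
    rw [Filter.eventually_all_finset]
    intro h _
    rw [Filter.eventually_all_finset]
    exact fun h' _ => ev_iff (eq_clopen2 hfix h h') a0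
  have key : ∀ᶠ a in 𝓝 a0, (Fib E f a).ncard = H0.ncard := by
    filter_upwards [e1, e2, e3] with a g1 g2 g3
    have h1 : Fib E f a = (fun h : Γ => h • a) '' H0 := by
      ext z
      constructor
      · rintro ⟨hz, hfz⟩
        obtain ⟨g, hg, e⟩ := hΨ z
        have hgH : g⁻¹ ∈ H := by
          rw [hH, Finset.mem_image]
          exact ⟨g, hg, rfl⟩
        have hza : g⁻¹ • a = z := by rw [← hfz, ← e, inv_smul_smul]
        have hg1 : g⁻¹ ∈ (H1 : Set Γ) := by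
          rw [Finset.mem_coe, hH1, Finset.mem_filter]
          refine ⟨hgH, (g1 _ hgH).1 ?_, (g2 _ hgH).1 ?_⟩
          · rw [hza]; exact hz
          · rw [hza]; exact hfz
        obtain ⟨h, hh, he⟩ := hbij.surjOn (mem_image_of_mem _ hg1)
        have he' : h • a0 = g⁻¹ • a0 := he
        refine ⟨h, hh, ?_⟩
        show h • a = z
        rw [(g3 h (hsub h hh) _ hgH).2 he', hza]
      · rintro ⟨h, hh, rfl⟩
        have h2 := hH0 hh
        rw [Finset.mem_coe, hH1, Finset.mem_filter] at h2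
        exact ⟨(g1 h h2.1).2 h2.2.1, (g2 h h2.1).2 h2.2.2⟩
    have h2 : InjOn (fun h : Γ => h • a) H0 := by
      intro h hh h' hh' e
      exact hbij.injOn hh hh' ((g3 h (hsub h hh) h' (hsub h' hh')).1 e)
    rw [h1, h2.ncard_image]
  have hself := key.self_of_nhds
  filter_upwards [key] with a ha
  rw [ha, hself]

/-- an index which separates the points of the fibres -/
theorem exists_idx [Countable Γ] (hfix : ∀ g : Γ, IsOpen {z : Z | g • z = z}) {f : Z → Z}
    (hf : LM Γ f) : ∃ idx : Z → ℕ, IsLocallyConstant idx ∧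
      ∀ z z', f z = f z' → idx z = idx z' → z = z' := by
  classical
  obtain ⟨Ψ, hΨ⟩ := hf.2
  obtain ⟨e, he⟩ := Countable.exists_injective_nat (Finset Γ)
  refine ⟨fun z => e (Ψ.filter (fun g => g • z = f z)), ?_, ?_⟩
  · rw [IsLocallyConstant.iff_eventually_eq]
    intro z0
    have h1 : ∀ᶠ z in 𝓝 z0, ∀ g ∈ Ψ, (g • z = f z ↔ g • z0 = f z0) := by
      rw [Filter.eventually_all_finset]
      exact fun g _ => ev_iff (eq_clopen hfix hf g) z0
    filter_upwards [h1] with z hz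
    congr 1
    exact Finset.filter_congr fun g hg => hz g hg
  · intro z z' h1 h2
    have h3 := he h2
    obtain ⟨g, hg, hgz⟩ := hΨ z
    have h4 : g ∈ Ψ.filter (fun g => g • z' = f z') := by
      rw [← h3, Finset.mem_filter]
      exact ⟨hg, hgz⟩
    have h5 := (Finset.mem_filter.1 h4).2
    have h6 : g • z = g • z' := by rw [hgz, h5, h1]
    exact MulAction.injective g h6

end basic

/-- the rank in a finite set -/
theorem rank_bij {Z : Type} {S : Set Z} (hS : S.Finite) (idx : Z → ℕ) (hinj : InjOn idx S) :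
    BijOn (fun z => {z' | z' ∈ S ∧ idx z' < idx z}.ncard) S (Iio S.ncard) := by
  have hfin : ∀ z, {z' | z' ∈ S ∧ idx z' < idx z}.Finite := fun z => hS.subset fun z' h => h.1
  have hmaps : MapsTo (fun z => {z' | z' ∈ S ∧ idx z' < idx z}.ncard) S (Iio S.ncard) := by
    intro z hz
    refine ncard_lt_ncard ⟨fun z' h => h.1, fun h => ?_⟩ hS
    exact lt_irrefl _ (h hz).2
  have hlt : ∀ z ∈ S, ∀ z' ∈ S, idx z < idx z' →
      {w | w ∈ S ∧ idx w < idx z}.ncard < {w | w ∈ S ∧ idx w < idx z'}.ncard := by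
    intro z hz z' _ h
    refine ncard_lt_ncard ⟨fun w hw => ⟨hw.1, hw.2.trans h⟩, fun hh => ?_⟩ (hfin z')
    exact lt_irrefl _ (hh ⟨hz, h⟩).2
  have hinj' : InjOn (fun z => {z' | z' ∈ S ∧ idx z' < idx z}.ncard) S := by
    intro z hz z' hz' h
    rcases lt_trichotomy (idx z) (idx z') with h1 | h1 | h1
    · exact absurd h (hlt z hz z' hz' h1).ne
    · exact hinj hz hz' h1
    · exact absurd h (hlt z' hz' z hz h1).ne'
  refine ⟨hmaps, hinj', ?_⟩
  have hcard : (Iio S.ncard).ncard ≤ ((fun z => {z' | z' ∈ S ∧ idx z' < idx z}.ncard) '' S).ncard := by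
    rw [hinj'.ncard_image, ← Finset.coe_Iio, ncard_coe_finset, Nat.card_Iio]
  have h1 := eq_of_subset_of_ncard_le (image_subset_iff.2 hmaps) hcard (finite_Iio _)
  intro n hn
  rw [← h1] at hn
  exact hn

section rank

variable {Γ Z : Type} [Group Γ] [Countable Γ] [TopologicalSpace Z] [MulAction Γ Z] [T2Space Z]
  [ContinuousConstSMul Γ Z]

/-- locally constant ranks in the fibres -/
theorem exists_rank (hfix : ∀ g : Γ, IsOpen {z : Z | g • z = z}) {f : Z → Z} (hf : LM Γ f)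
    {E : Set Z} (hE : IsClopen E) :
    ∃ rk : Z → ℕ, IsLocallyConstant rk ∧ ∀ a, BijOn rk (Fib E f a) (Iio (Fib E f a).ncard) := by
  obtain ⟨idx, hidx, hinj⟩ := exists_idx hfix hf
  have hcl : ∀ n : ℕ, IsClopen (E ∩ {z | idx z < n}) := fun n =>
    hE.inter (lc_clopen hidx {k | k < n})
  refine ⟨fun z => (Fib (E ∩ {z' | idx z' < idx z}) f (f z)).ncard, ?_, ?_⟩
  · rw [IsLocallyConstant.iff_eventually_eq]
    intro z0
    have h1 := (IsLocallyConstant.iff_eventually_eq _).1 hidx z0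
    have h2 := (IsLocallyConstant.iff_eventually_eq _).1 (count_const hfix hf (hcl (idx z0))) (f z0)
    have h3 := hf.1.continuousAt.eventually h2
    filter_upwards [h1, h3] with z g1 g3
    rw [g1]
    exact g3
  · intro a
    have h1 := rank_bij (fib_finite hf E a) idx (fun z hz z' hz' h => hinj z z'
      (hz.2.trans hz'.2.symm) h)
    refine h1.congr ?_
    intro z hz
    have h2 : {z' | z' ∈ Fib E f a ∧ idx z' < idx z} =
        Fib (E ∩ {z' | idx z' < idx z}) f (f z) := by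
      ext z'
      constructor
      · rintro ⟨h2, h3⟩
        exact ⟨⟨h2.1, h3⟩, h2.2.trans hz.2.symm⟩
      · rintro ⟨⟨h2, h3⟩, h4⟩
        exact ⟨⟨h2, h4.trans hz.2⟩, h3⟩
    exact congrArg Set.ncard h2

/-- division of a compact open set whose fibres have a multiple of `N` points -/
theorem blocks_of (hfix : ∀ g : Γ, IsOpen {z : Z | g • z = z}) {f : Z → Z} (hf : LM Γ f)
    {D : Set Z} (hDc : IsCompact D) (hDo : IsOpen D) {N : ℕ} (hN : 0 < N)
    (hdvd : ∀ a, N ∣ (Fib D f a).ncard) :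
    ∃ (lab : Z → Fin N) (c : Fin N → Z → Z), Blocks Γ D N lab c := by
  classical
  have hD : IsClopen D := ⟨hDc.isClosed, hDo⟩
  obtain ⟨rk, hrk, hbij⟩ := exists_rank hfix hf hD
  have hex : ∀ (i : Fin N) (z : Z), ∃ z', z ∈ D →
      z' ∈ Fib D f (f z) ∧ rk z' = N * (rk z / N) + i := by
    intro i z
    by_cases hz : z ∈ D
    · have h1 := hbij (f z)
      have h2 : rk z < (Fib D f (f z)).ncard := h1.mapsTo ⟨hz, rfl⟩
      obtain ⟨k, hk⟩ := hdvd (f z)
      have h3 : N * (rk z / N) + i ∈ Iio (Fib D f (f z)).ncard := by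
        rw [mem_Iio, hk]
        rw [hk] at h2
        have h4 : rk z / N < k := Nat.div_lt_of_lt_mul h2
        have h5 : N * (rk z / N + 1) ≤ N * k := Nat.mul_le_mul_left _ h4
        rw [Nat.mul_succ] at h5
        have := i.2
        omega
      obtain ⟨z', hz', e⟩ := h1.surjOn h3
      exact ⟨z', fun _ => ⟨hz', e⟩⟩
    · exact ⟨z, fun h => absurd h hz⟩
  choose c hc using hex
  have hmod : ∀ i : Fin N, ∀ z ∈ D, rk (c i z) % N = i := by
    intro i z hz
    rw [(hc i z hz).2, Nat.mul_add_mod, Nat.mod_eq_of_lt i.2]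
  have hdiv : ∀ i : Fin N, ∀ z ∈ D, rk (c i z) / N = rk z / N := by
    intro i z hz
    rw [(hc i z hz).2, Nat.mul_add_div hN, Nat.div_eq_of_lt i.2, add_zero]
  have hun : ∀ z w w', w ∈ Fib D f (f z) → w' ∈ Fib D f (f z) → rk w = rk w' → w = w' :=
    fun z w w' h1 h2 h3 => (hbij (f z)).injOn h1 h2 h3
  have hlc : IsLocallyConstant fun z => (⟨rk z % N, Nat.mod_lt _ hN⟩ : Fin N) :=
    hrk.comp fun n => (⟨n % N, Nat.mod_lt _ hN⟩ : Fin N)
  refine ⟨fun z => ⟨rk z % N, Nat.mod_lt _ hN⟩, c, hDc, hDo, hlc.continuous.continuousOn, ?_,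
    fun i z hz => (hc i z hz).1.1, ?_, ?_, ?_, ?_⟩
  · intro i z0 hz0
    obtain ⟨Ψ, hΨ⟩ := hf.2
    obtain ⟨g, -, hg⟩ := hΨ (c i z0)
    rw [(hc i z0 hz0).1.2] at hg
    have hg' : g⁻¹ • f z0 = c i z0 := by rw [← hg, inv_smul_smul]
    have hfc := hf.1.continuousAt (x := z0)
    have hcont : Continuous fun a : Z => g⁻¹ • a := continuous_const_smul _
    have e1 : ∀ᶠ z in 𝓝 z0, (g⁻¹ • f z ∈ D ↔ g⁻¹ • f z0 ∈ D) :=
      hfc.eventually (ev_iff (hD.preimage hcont) (f z0))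
    have e2 : ∀ᶠ z in 𝓝 z0, (f (g⁻¹ • f z) = f z ↔ f (g⁻¹ • f z0) = f z0) :=
      hfc.eventually (ev_iff (eq_clopen' hfix hf g⁻¹) (f z0))
    have e3 : ∀ᶠ z in 𝓝 z0, rk (g⁻¹ • f z) = rk (g⁻¹ • f z0) :=
      (hcont.comp hf.1).continuousAt.eventually
        ((IsLocallyConstant.iff_eventually_eq _).1 hrk (g⁻¹ • f z0))
    have e4 : ∀ᶠ z in 𝓝 z0, rk z = rk z0 := (IsLocallyConstant.iff_eventually_eq _).1 hrk z0
    have e5 : ∀ᶠ z in 𝓝 z0, z ∈ D := hDo.mem_nhds hz0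
    have key : (fun z => g⁻¹ • f z) =ᶠ[𝓝 z0] c i := by
      filter_upwards [e1, e2, e3, e4, e5] with z g1 g2 g3 g4 g5
      refine hun z _ _ ⟨g1.2 ?_, g2.2 ?_⟩ (hc i z g5).1 ?_
      · rw [hg']; exact (hc i z0 hz0).1.1
      · rw [hg']; exact (hc i z0 hz0).1.2
      · rw [g3, hg', (hc i z0 hz0).2, (hc i z g5).2, g4]
    exact ((hcont.comp hf.1).continuousAt.congr key).continuousWithinAt
  · intro i z hz
    obtain ⟨Ψ, hΨ⟩ := hf.2
    obtain ⟨g, -, hg⟩ := hΨ (c i z)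
    obtain ⟨g', -, hg''⟩ := hΨ z
    rw [(hc i z hz).1.2] at hg
    refine ⟨g⁻¹ * g', ?_⟩
    rw [mul_smul, hg'', ← hg, inv_smul_smul]
  · intro i z hz
    exact Fin.ext (hmod i z hz)
  · intro i j z hz
    have h1 := hc j z hz
    have h2 := hc i (c j z) h1.1.1
    rw [h1.1.2] at h2
    refine hun z _ _ h2.1 (hc i z hz).1 ?_
    rw [h2.2, (hc i z hz).2, hdiv j z hz]
  · intro z hz
    have h1 := hc ⟨rk z % N, Nat.mod_lt _ hN⟩ z hz
    refine hun z _ _ h1.1 ⟨hz, rfl⟩ ?_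
    rw [h1.2]
    exact Nat.div_add_mod _ _

/-- the next remainder -/
theorem step (hfix : ∀ g : Γ, IsOpen {z : Z | g • z = z}) {U V W Y R : Set Z} {p p' : Z → Z}
    {N : ℕ} (hN : 0 < N) (hV : IsClopen V) (hW : IsClopen W) (hR : IsClopen R) (hWV : W ⊆ V)
    (hVR : V ⊆ R) (hRU : R ⊆ U) (hp : LM Γ p) (hp' : LM Γ p') (hpU : ∀ z ∈ U, p z ∈ V)
    (hpV : ∀ z ∈ V, p' z ∈ W) (hid : ∀ z ∈ V, p z = z) (hid' : ∀ z ∈ W, p' z = z)
    (hY1 : ∀ z, z ∉ Y → p z = z) (hY2 : ∀ z, z ∉ Y → p' z = z)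
    (hY3 : ∀ z ∈ U, z ∈ Y → p z ∈ Y) (hY4 : ∀ z ∈ V, z ∈ Y → p' z ∈ Y)
    (hcard : ∀ a ∈ W, a ∈ Y → N + 1 ≤ (Fib V p' a).ncard) :
    ∃ L, IsClopen L ∧ W ⊆ L ∧ L ⊆ V ∧ R \ L ⊆ Y ∧ ∀ a, N ∣ (Fib (R \ L) (p' ∘ p) a).ncard := by
  classical
  obtain ⟨f, hfd⟩ : ∃ f : Z → Z, f = p' ∘ p := ⟨_, rfl⟩
  have hf : LM Γ f := by rw [hfd]; exact hp.comp hp'
  have hfU : ∀ z ∈ U, f z ∈ W := fun z hz => by rw [hfd]; exact hpV _ (hpU z hz)
  have hfV : ∀ z ∈ V, f z = p' z := fun z hz => by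
    rw [hfd]
    show p' (p z) = p' z
    rw [hid z hz]
  obtain ⟨rk, hrk, hbij⟩ := exists_rank hfix hp' (hV.diff hW)
  have hRc := count_const hfix hf hR
  obtain ⟨ρ, hρ⟩ : ∃ ρ : Z → ℕ, ρ = fun a => ((Fib R f a).ncard - 1) % N := ⟨_, rfl⟩
  have hρc : IsLocallyConstant ρ := by rw [hρ]; exact hRc.comp fun n => (n - 1) % N
  have hρN : ∀ a, ρ a < N := fun a => by rw [hρ]; exact Nat.mod_lt _ hN
  have hA : IsClopen {z | rk z < ρ (p' z)} :=
    lc_clopen (hrk.prodMk (hρc.comp_continuous hp'.1)) {q : ℕ × ℕ | q.1 < q.2}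
  obtain ⟨L, hL⟩ : ∃ L : Set Z, L = W ∪ ((V \ W) ∩ {z | rk z < ρ (p' z)}) := ⟨_, rfl⟩
  have hLc : IsClopen L := by rw [hL]; exact hW.union ((hV.diff hW).inter hA)
  have hWL : W ⊆ L := by rw [hL]; exact subset_union_left
  have hLV : L ⊆ V := by
    rw [hL]
    exact union_subset hWV fun z hz => hz.1.1
  have hRLY : R \ L ⊆ Y := by
    intro z hz
    by_contra h
    apply hz.2
    apply hWL
    have h1 := hfU z (hRU hz.1)
    rw [hfd] at h1
    have h2 : (p' ∘ p) z = z := by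
      show p' (p z) = z
      rw [hY1 z h, hY2 z h]
    rwa [h2] at h1
  refine ⟨L, hLc, hWL, hLV, hRLY, ?_⟩
  intro a
  rw [← hfd]
  by_cases haW : a ∈ W
  · by_cases haY : a ∈ Y
    · -- the main case
      obtain ⟨S, hS⟩ : ∃ S : Set Z, S = Fib (V \ W) p' a := ⟨_, rfl⟩
      have hSfin : S.Finite := by rw [hS]; exact fib_finite hp' _ _
      have haS : a ∉ S := fun h => by
        rw [hS] at h
        exact h.1.2 haW
      have h1 : Fib V p' a = insert a S := by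
        ext z
        constructor
        · rintro ⟨h2, h3⟩
          by_cases hzW : z ∈ W
          · left
            rw [← h3, hid' z hzW]
          · right
            rw [hS]
            exact ⟨⟨h2, hzW⟩, h3⟩
        · rintro (rfl | h2)
          · exact ⟨hWV haW, hid' _ haW⟩
          · rw [hS] at h2
            exact ⟨h2.1.1, h2.2⟩
      have h2 : N ≤ S.ncard := by
        have h3 := hcard a haW haY
        rw [h1, ncard_insert_of_notMem haS hSfin] at h3
        omega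
      obtain ⟨T, hT⟩ : ∃ T : Set Z, T = {z | z ∈ S ∧ rk z < ρ a} := ⟨_, rfl⟩
      have hTS : T ⊆ S := by rw [hT]; exact fun z hz => hz.1
      have hTfin : T.Finite := hSfin.subset hTS
      have haT : a ∉ T := fun h => haS (hTS h)
      have hbS : BijOn rk S (Iio S.ncard) := by
        have := hbij a
        rwa [← hS] at this
      have hTc : T.ncard = ρ a := by
        have h3 : rk '' T = Iio (ρ a) := by
          ext n
          constructor
          · rintro ⟨z, hz, rfl⟩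
            rw [hT] at hz
            exact hz.2
          · intro hn
            have h4 : n ∈ Iio S.ncard := lt_of_lt_of_le (lt_trans hn (hρN a)) h2
            obtain ⟨z, hz, e⟩ := hbS.surjOn h4
            refine ⟨z, ?_, e⟩
            rw [hT]
            exact ⟨hz, by rw [e]; exact hn⟩
        have h4 : InjOn rk T := hbS.injOn.mono hTS
        rw [← h4.ncard_image, h3, ← Finset.coe_Iio, ncard_coe_finset, Nat.card_Iio]
      have h3 : Fib L f a = insert a T := by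
        ext z
        constructor
        · rintro ⟨h4, h5⟩
          rw [hfV z (hLV h4)] at h5
          rw [hL] at h4
          rcases h4 with h4 | ⟨h4, h6⟩
          · left
            rw [← h5, hid' z h4]
          · right
            rw [hT, hS]
            have h7 : rk z < ρ (p' z) := h6
            rw [h5] at h7
            exact ⟨⟨h4, h5⟩, h7⟩
        · rintro (rfl | h4)
          · refine ⟨hWL haW, ?_⟩
            rw [hfV _ (hWV haW), hid' _ haW]
          · rw [hT, hS] at h4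
            obtain ⟨⟨h5, h6⟩, h7⟩ := h4
            refine ⟨?_, ?_⟩
            · rw [hL]
              right
              refine ⟨h5, ?_⟩
              show rk z < ρ (p' z)
              rw [h6]
              exact h7
            · rw [hfV z h5.1]
              exact h6
      have h4 : (Fib L f a).ncard = ρ a + 1 := by
        rw [h3, ncard_insert_of_notMem haT hTfin, hTc]
      have h5 : Fib R f a = Fib (R \ L) f a ∪ Fib L f a := by
        ext z
        constructor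
        · rintro ⟨h6, h7⟩
          by_cases hzL : z ∈ L
          · exact Or.inr ⟨hzL, h7⟩
          · exact Or.inl ⟨⟨h6, hzL⟩, h7⟩
        · rintro (⟨h6, h7⟩ | ⟨h6, h7⟩)
          · exact ⟨h6.1, h7⟩
          · exact ⟨hVR (hLV h6), h7⟩
      have h6 : Disjoint (Fib (R \ L) f a) (Fib L f a) := by
        rw [Set.disjoint_left]
        rintro z ⟨h7, -⟩ ⟨h8, -⟩
        exact h7.2 h8
      have h7 : (Fib R f a).ncard = (Fib (R \ L) f a).ncard + (ρ a + 1) := by
        rw [h5, ncard_union_eq h6 (fib_finite hf _ _) (fib_finite hf _ _), h4]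
      have h8 : ρ a = ((Fib R f a).ncard - 1) % N := by rw [hρ]
      have h9 : (Fib (R \ L) f a).ncard = N * (((Fib R f a).ncard - 1) / N) := by
        have h10 := Nat.div_add_mod ((Fib R f a).ncard - 1) N
        omega
      exact ⟨_, h9⟩
    · have h1 : Fib (R \ L) f a = ∅ := by
        rw [Set.eq_empty_iff_forall_notMem]
        rintro z ⟨h1, h2⟩
        apply haY
        rw [← h2, hfd]
        have h3 := hRLY h1
        have h4 := hRU h1.1
        exact hY4 _ (hpU z h4) (hY3 z h4 h3)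
      rw [h1, ncard_empty]
      exact dvd_zero _
  · have h1 : Fib (R \ L) f a = ∅ := by
      rw [Set.eq_empty_iff_forall_notMem]
      rintro z ⟨h1, h2⟩
      apply haW
      rw [← h2]
      exact hfU z (hRU h1.1)
    rw [h1, ncard_empty]
    exact dvd_zero _

end rank

/-- dependent choice -/
theorem dc {α : Type} (P : ℕ → α → Prop) (Q : ℕ → α → α → Prop) (a0 : α) (h0 : P 0 a0)
    (hs : ∀ m a, P m a → ∃ b, Q m a b ∧ P (m + 1) b) :
    ∃ s : ℕ → α, s 0 = a0 ∧ (∀ m, P m (s m)) ∧ ∀ m, Q m (s m) (s (m + 1)) := by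
  classical
  have hs' : ∀ (m : ℕ) (a : {a // P m a}), ∃ b : {b // P (m + 1) b}, Q m a.1 b.1 := by
    rintro m ⟨a, ha⟩
    obtain ⟨b, h1, h2⟩ := hs m a ha
    exact ⟨⟨b, h2⟩, h1⟩
  choose F hF using hs'
  let s : ∀ m, {a // P m a} := fun m => Nat.rec ⟨a0, h0⟩ (fun m a => F m a) m
  exact ⟨fun m => (s m).1, rfl, fun m => (s m).2, fun m => hF m (s m)⟩

section main

variable {Γ Z : Type} [Group Γ] [Countable Γ] [TopologicalSpace Z] [MulAction Γ Z] [T2Space Z]
  [ContinuousConstSMul Γ Z]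

/-- the invariant of the markers -/
def Inv (Γ : Type) {Z : Type} [Group Γ] [TopologicalSpace Z] [MulAction Γ Z] (Y : ℕ → Set Z)
    (m : ℕ) (B : Set Z) : Prop :=
  IsClopen B ∧ (Y m)ᶜ ⊆ B ∧
    ∀ n, m ≤ n → ∀ y ∈ Y n, {z | z ∈ B ∧ z ∈ Y n ∧ ∃ g : Γ, g • y = z}.Infinite

/-- one step from `B` to `B₁` -/
structure SP {Γ Z : Type} [Group Γ] [TopologicalSpace Z] [MulAction Γ Z] (Y : Set Z) (Φ : Finset Γ)
    (M : ℕ) (B B₁ : Set Z) (φ : Z → Z) : Prop where
  sub : B₁ ⊆ B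
  lm : LM Γ φ
  maps : ∀ z ∈ B, φ z ∈ B₁
  id_on : ∀ z ∈ B₁, φ z = z
  id_off : ∀ z, z ∉ Y → φ z = z
  mapsY : ∀ z ∈ B, z ∈ Y → φ z ∈ Y
  card : ∀ b ∈ B₁, b ∈ Y → M ≤ (Fib B φ b).ncard
  sep : ∀ b ∈ B₁, b ∈ Y → ∀ g ∈ Φ, g • b ∈ B₁ → g • b ∈ Y → g • b = b

theorem marker [LocallyCompactSpace Z] [TotallyDisconnectedSpace Z] (hMK : S_MK)
    (hfix : ∀ g : Γ, IsOpen {z : Z | g • z = z}) {Y : ℕ → Set Z} (hYc : ∀ n, IsCompact (Y n))
    (hYo : ∀ n, IsOpen (Y n)) (hYm : Monotone Y) {m : ℕ} {B : Set Z} (hB : Inv Γ Y m B)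
    (Φ : Finset Γ) (M : ℕ) : ∃ (B₁ : Set Z), (∃ φ : Z → Z, SP (Y (m + 1)) Φ M B B₁ φ) ∧
      Inv Γ Y (m + 1) B₁ := by
  classical
  obtain ⟨hBc, hBY, hBinf⟩ := hB
  have hYcl : ∀ n, IsClopen (Y n) := fun n => ⟨(hYc n).isClosed, hYo n⟩
  obtain ⟨A, hA⟩ : ∃ A : Set Z, A = B ∩ Y (m + 1) := ⟨_, rfl⟩
  have hAcl : IsClopen A := by rw [hA]; exact hBc.inter (hYcl _)
  have hAc : IsCompact A := (hYc (m + 1)).of_isClosed_subset hAcl.isClosed (by
    rw [hA]; exact inter_subset_right)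
  have hAinf : ∀ y ∈ A, {z | z ∈ A ∧ ∃ g : Γ, g • y = z}.Infinite := by
    intro y hy
    rw [hA] at hy
    refine (hBinf (m + 1) (Nat.le_succ m) y hy.2).mono ?_
    rintro z ⟨h1, h2, h3⟩
    refine ⟨?_, h3⟩
    rw [hA]
    exact ⟨h1, h2⟩
  obtain ⟨B', φ₀, Ψ, k1, k2, k3, k4, k5, k6, k7, k8⟩ := hMK Γ Z A hfix hAc hAcl.isOpen hAinf Φ M
  have hB'cl : IsClopen B' := ⟨k1.isClosed, k2⟩
  obtain ⟨φ, hφ⟩ : ∃ φ : Z → Z, φ = fun z => if z ∈ A then φ₀ z else z := ⟨_, rfl⟩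
  have hφA : ∀ z ∈ A, φ z = φ₀ z := fun z hz => by rw [hφ]; exact if_pos hz
  have hφN : ∀ z, z ∉ A → φ z = z := fun z hz => by rw [hφ]; exact if_neg hz
  obtain ⟨B₁, hB₁⟩ : ∃ B₁ : Set Z, B₁ = B' ∪ (B \ Y (m + 1)) := ⟨_, rfl⟩
  have hB'A : B' ⊆ A := k3
  have hB₁Y : ∀ b ∈ B₁, b ∈ Y (m + 1) → b ∈ B' := by
    intro b hb hbY
    rw [hB₁] at hb
    rcases hb with hb | hb
    · exact hb
    · exact absurd hbY hb.2
  have hlm : LM Γ φ := by
    refine ⟨?_, insert 1 Ψ, fun z => ?_⟩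
    · rw [continuous_iff_continuousAt]
      intro z0
      by_cases hz : z0 ∈ A
      · have h1 : ContinuousAt φ₀ z0 := k4.continuousAt (hAcl.isOpen.mem_nhds hz)
        refine h1.congr ?_
        filter_upwards [hAcl.isOpen.mem_nhds hz] with z hz
        exact (hφA z hz).symm
      · refine (continuousAt_id (x := z0)).congr ?_
        filter_upwards [hAcl.compl.isOpen.mem_nhds hz] with z hz
        exact (hφN z hz).symm
    · by_cases hz : z ∈ A
      · obtain ⟨-, g, hg, e⟩ := k5 z hz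
        exact ⟨g, Finset.mem_insert_of_mem hg, by rw [hφA z hz, e]⟩
      · exact ⟨1, Finset.mem_insert_self _ _, by rw [hφN z hz, one_smul]⟩
  have hsub : B₁ ⊆ B := by
    rw [hB₁]
    refine union_subset (fun z hz => ?_) sdiff_subset
    have := hB'A hz
    rw [hA] at this
    exact this.1
  have hmaps : ∀ z ∈ B, φ z ∈ B₁ := by
    intro z hz
    by_cases hzY : z ∈ Y (m + 1)
    · have hzA : z ∈ A := by rw [hA]; exact ⟨hz, hzY⟩
      rw [hφA z hzA, hB₁]
      exact Or.inl (k5 z hzA).1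
    · have hzA : z ∉ A := fun h => by
        rw [hA] at h
        exact hzY h.2
      rw [hφN z hzA, hB₁]
      exact Or.inr ⟨hz, hzY⟩
  have hidoff : ∀ z, z ∉ Y (m + 1) → φ z = z := fun z hz => hφN z fun h => by
    rw [hA] at h
    exact hz h.2
  have hmapsY : ∀ z ∈ B, z ∈ Y (m + 1) → φ z ∈ Y (m + 1) := by
    intro z hz hzY
    have hzA : z ∈ A := by rw [hA]; exact ⟨hz, hzY⟩
    rw [hφA z hzA]
    have := hB'A (k5 z hzA).1
    rw [hA] at this
    exact this.2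
  refine ⟨B₁, ⟨φ, hsub, hlm, hmaps, ?_, hidoff, hmapsY, ?_, ?_⟩, ?_, ?_, ?_⟩
  · intro z hz
    by_cases hzA : z ∈ A
    · rw [hφA z hzA]
      rw [hA] at hzA
      exact k6 z (hB₁Y z hz hzA.2)
    · exact hφN z hzA
  · intro b hb hbY
    refine (k7 b (hB₁Y b hb hbY)).trans (ncard_le_ncard ?_ (fib_finite hlm _ _))
    rintro z ⟨h1, h2⟩
    refine ⟨?_, by rw [hφA z h1, h2]⟩
    rw [hA] at h1
    exact h1.1
  · intro b hb hbY g hg h1 h2
    exact k8 b (hB₁Y b hb hbY) g hg (hB₁Y _ h1 h2)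
  · rw [hB₁]
    exact hB'cl.union (hBc.diff (hYcl _))
  · intro z hz
    rw [hB₁]
    right
    exact ⟨hBY fun h => hz (hYm (Nat.le_succ m) h), hz⟩
  · intro n hn y hy hfin
    refine hBinf n (by omega) y hy ?_
    refine (hfin.biUnion fun b _ => fib_finite hlm B b).subset ?_
    rintro z ⟨h1, h2, g, h3⟩
    rw [mem_iUnion₂]
    refine ⟨φ z, ⟨hmaps z h1, ?_, ?_⟩, h1, rfl⟩
    · by_cases hzY : z ∈ Y (m + 1)
      · exact hYm hn (hmapsY z h1 hzY)
      · rw [hidoff z hzY]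
        exact h2
    · obtain ⟨Ψ', hΨ'⟩ := hlm.2
      obtain ⟨g', -, hg'⟩ := hΨ' z
      exact ⟨g' * g, by rw [mul_smul, h3, hg']⟩

end main

end DIV

/-- **Division of the space into blocks, up to a partial transversal.** -/
theorem t_DIV (h : S_MK) : S_DIV := by
  classical
  intro Γ Z _ _ _ _ _ _ _ _ Y N hfix hYc hYo hYm hYu hYinf hN
  have hYcl : ∀ n, IsClopen (Y n) := fun n => ⟨(hYc n).isClosed, hYo n⟩
  obtain ⟨γ, hγ⟩ := exists_surjective_nat Γ
  -- the markers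
  obtain ⟨B, hB0, hBinv, hBstep⟩ := DIV.dc (DIV.Inv Γ Y)
    (fun m B B₁ => ∃ φ : Z → Z, DIV.SP (Y (m + 1)) ((Finset.range (m + 1)).image γ) (N (m - 1) + 1)
      B B₁ φ) Set.univ
    ⟨isClopen_univ, Set.subset_univ _, fun n _ y hy => by
      refine (hYinf n y hy).mono ?_
      rintro z ⟨h1, h2⟩
      exact ⟨Set.mem_univ _, h1, h2⟩⟩
    (fun m B hB => DIV.marker h hfix hYc hYo hYm hB _ _)
  choose φ hφ using hBstep
  -- the remainders
  obtain ⟨R, hR0, hRinv, hRstep⟩ := DIV.dc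
    (fun m R => IsClopen R ∧ B (m + 1) ⊆ R ∧ R ⊆ B m)
    (fun m R L => R \ L ⊆ Y (m + 2) ∧ ∀ a, N m ∣ (DIV.Fib (R \ L) (φ (m + 1) ∘ φ m) a).ncard)
    (Set.univ : Set Z)
    ⟨isClopen_univ, Set.subset_univ _, by rw [hB0]⟩
    (by
      rintro m R ⟨h1, h2, h3⟩
      have s0 := hφ m
      have s1 := hφ (m + 1)
      obtain ⟨L, g1, g2, g3, g4, g5⟩ := DIV.step hfix (U := B m) (V := B (m + 1)) (W := B (m + 2))
        (Y := Y (m + 2)) (R := R) (p := φ m) (p' := φ (m + 1)) (hN m) (hBinv _).1 (hBinv _).1 h1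
        s1.sub h2 h3 s0.lm s1.lm s0.maps s1.maps s0.id_on s1.id_on
        (fun z hz => s0.id_off z fun h => hz (hYm (Nat.le_succ _) h)) s1.id_off
        (fun z hz hzY => by
          by_cases hz1 : z ∈ Y (m + 1)
          · exact hYm (Nat.le_succ _) (s0.mapsY z hz hz1)
          · rw [s0.id_off z hz1]
            exact hzY)
        s1.mapsY s1.card
      exact ⟨L, ⟨g4, g5⟩, g1, g2, g3⟩)
  have hD : ∀ m, ∃ (lab : Z → Fin (N m)) (c : Fin (N m) → Z → Z),
      Blocks Γ (R m \ R (m + 1)) (N m) lab c := by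
    intro m
    have hcl : IsClopen (R m \ R (m + 1)) := (hRinv m).1.diff (hRinv (m + 1)).1
    exact DIV.blocks_of hfix ((hφ m).lm.comp (hφ (m + 1)).lm)
      ((hYc (m + 2)).of_isClosed_subset hcl.isClosed (hRstep m).1) hcl.isOpen (hN m) (hRstep m).2
  choose lab c hblocks using hD
  have hRanti : ∀ m, R (m + 1) ⊆ R m := fun m => (hRinv (m + 1)).2.2.trans (hRinv m).2.1
  have hRanti' : Antitone R := antitone_nat_of_succ_le hRanti
  refine ⟨fun m => R m \ R (m + 1), lab, c, hblocks, ?_, ?_⟩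
  · have key : ∀ m m', m < m' → Disjoint (R m \ R (m + 1)) (R m' \ R (m' + 1)) := by
      intro m m' hmm
      rw [Set.disjoint_left]
      rintro z ⟨-, h1⟩ ⟨h2, -⟩
      exact h1 (hRanti' hmm h2)
    intro m m' hmm
    rcases lt_or_gt_of_ne hmm with h1 | h1
    · exact key m m' h1
    · exact (key m' m h1).symm
  · have key : ∀ z : Z, z ∉ ⋃ m, R m \ R (m + 1) → ∀ m, z ∈ B m := by
      intro z hz
      have h1 : ∀ m, z ∈ R m := by
        intro m
        induction m with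
        | zero => rw [hR0]; exact Set.mem_univ _
        | succ m ih =>
          by_contra h2
          exact hz (Set.mem_iUnion.2 ⟨m, ih, h2⟩)
      exact fun m => (hRinv m).2.2 (h1 m)
    rintro z z' hz hz' ⟨g, rfl⟩
    obtain ⟨k, rfl⟩ := hγ g
    obtain ⟨n, hn⟩ : ∃ n, z ∈ Y n := by
      have : z ∈ ⋃ n, Y n := by rw [hYu]; exact Set.mem_univ _
      exact Set.mem_iUnion.1 this
    obtain ⟨n', hn'⟩ : ∃ n', γ k • z ∈ Y n' := by
      have : γ k • z ∈ ⋃ n, Y n := by rw [hYu]; exact Set.mem_univ _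
      exact Set.mem_iUnion.1 this
    have hm1 : n ≤ max (max n n') k + 1 := by omega
    have hm2 : n' ≤ max (max n n') k + 1 := by omega
    have h1 := (hφ (max (max n n') k)).sep z (key z hz _) (hYm hm1 hn) (γ k)
      (Finset.mem_image.2 ⟨k, Finset.mem_range.2 (by omega), rfl⟩) (key _ hz' _) (hYm hm2 hn')
    exact h1.symm

end Pool.Agent.N480.CV
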