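import Pool.Agent.N480.CV.Stm

set_option autoImplicit false

/-!
# CV/GLUE (helper335): compact pieces converging to a compact space

The space `(Σ m, D m) ⊕ W` is realized as a closed subset of `W × ∏ m, (D m ⊕ Unit)`.
-/

namespace Pool.Agent.N480.CV

namespace GLUE

open Set Filter Topology TopologicalSpace

variable {D : ℕ → Type} {W : Type}

/-- the map to the product -/
def j (p : ∀ m, D m → W) : (Σ m, D m) ⊕ W → W × (∀ m, D m ⊕ Unit)
  | Sum.inl x => (p x.1 x.2, Function.update (fun _ => Sum.inr ()) x.1 (Sum.inl x.2))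
  | Sum.inr w => (w, fun _ => Sum.inr ())

lemma j_inl_fst (p : ∀ m, D m → W) (m : ℕ) (d : D m) : (j p (Sum.inl ⟨m, d⟩)).1 = p m d := rfl

lemma j_inl_same (p : ∀ m, D m → W) (m : ℕ) (d : D m) :
    (j p (Sum.inl ⟨m, d⟩)).2 m = Sum.inl d := by
  simp [j]

lemma j_inl_ne (p : ∀ m, D m → W) (m : ℕ) (d : D m) (i : ℕ) (hi : i ≠ m) :
    (j p (Sum.inl ⟨m, d⟩)).2 i = Sum.inr () := by
  simp [j, hi]

lemma j_inr (p : ∀ m, D m → W) (w : W) : j p (Sum.inr w) = (w, fun _ => Sum.inr ()) := rfl

lemma j_inj (p : ∀ m, D m → W) : Function.Injective (j p) := by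
  rintro (⟨m, d⟩ | w) (⟨n, e⟩ | v) h
  · by_cases hmn : m = n
    · subst hmn
      have h1 := congrArg (fun x => x.2 m) h
      simp only [j_inl_same] at h1
      rw [Sum.inl.inj h1]
    · have h1 := congrArg (fun x => x.2 m) h
      simp only [j_inl_same, j_inl_ne p n e m hmn] at h1
      exact absurd h1 Sum.inl_ne_inr
  · have h1 := congrArg (fun x => x.2 m) h
    simp only [j_inl_same, j_inr] at h1
    exact absurd h1 Sum.inl_ne_inr
  · have h1 := congrArg (fun x => x.2 n) h
    simp only [j_inl_same, j_inr] at h1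
    exact absurd h1 Sum.inr_ne_inl
  · have h1 := congrArg Prod.fst h
    simp only [j_inr] at h1
    rw [h1]

variable [∀ m, TopologicalSpace (D m)] [∀ m, CompactSpace (D m)] [∀ m, MetrizableSpace (D m)]
  [MetricSpace W] [CompactSpace W]

/-- the description of the range -/
lemma range_j (p : ∀ m, D m → W) : range (j p) =
    (⋂ (m : ℕ) (n : ℕ) (_ : m ≠ n), {x : W × (∀ m, D m ⊕ Unit) |
      x.2 m ∈ range (Sum.inr : Unit → D m ⊕ Unit) ∨ x.2 n ∈ range (Sum.inr : Unit → D n ⊕ Unit)}) ∩
    ⋂ m : ℕ, ({x : W × (∀ m, D m ⊕ Unit) | x.2 m ∈ range (Sum.inr : Unit → D m ⊕ Unit)} ∪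
      (fun x : W × (∀ m, D m ⊕ Unit) => (x.1, x.2 m)) ⁻¹'
        (range fun d : D m => ((p m d, Sum.inl d) : W × (D m ⊕ Unit)))) := by
  ext x
  simp only [mem_inter_iff, mem_iInter, mem_setOf_eq, mem_union, mem_preimage, mem_range]
  constructor
  · rintro ⟨y, rfl⟩
    rcases y with ⟨m, d⟩ | w
    · refine ⟨fun a b hab => ?_, fun a => ?_⟩
      · by_cases ha : a = m
        · right
          exact ⟨(), (j_inl_ne p m d b (by rintro rfl; exact hab ha)).symm⟩
        · left
          exact ⟨(), (j_inl_ne p m d a ha).symm⟩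
      · by_cases ha : a = m
        · subst ha
          right
          exact ⟨d, by rw [j_inl_same, j_inl_fst]⟩
        · left
          exact ⟨(), (j_inl_ne p m d a ha).symm⟩
    · exact ⟨fun a b _ => Or.inl ⟨(), rfl⟩, fun a => Or.inl ⟨(), rfl⟩⟩
  · rintro ⟨h1, h2⟩
    by_cases h : ∃ m, ∃ d : D m, x.2 m = Sum.inl d
    · obtain ⟨m, d, hd⟩ := h
      have h3 : p m d = x.1 := by
        rcases h2 m with ⟨u, hu⟩ | ⟨e, he⟩
        · rw [hd] at hu
          exact absurd hu Sum.inr_ne_inl
        · have h4 := congrArg Prod.fst he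
          have h5 := congrArg Prod.snd he
          simp only at h4 h5
          rw [hd] at h5
          rw [Sum.inl.inj h5] at h4
          exact h4
      refine ⟨Sum.inl ⟨m, d⟩, Prod.ext h3 ?_⟩
      funext i
      by_cases hi : i = m
      · subst hi
        rw [j_inl_same, hd]
      · rw [j_inl_ne p m d i hi]
        rcases h1 i m hi with ⟨u, hu⟩ | ⟨u, hu⟩
        · exact hu
        · rw [hd] at hu
          exact absurd hu Sum.inr_ne_inl
    · refine ⟨Sum.inr x.1, Prod.ext rfl ?_⟩
      funext i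
      rcases hx : x.2 i with d | u
      · exact absurd ⟨i, d, hx⟩ h
      · rw [j_inr]

lemma isClosed_range_j (p : ∀ m, D m → W) (hp : ∀ m, Continuous (p m)) :
    IsClosed (range (j p)) := by
  rw [range_j]
  refine IsClosed.inter ?_ ?_
  · refine isClosed_iInter fun m => isClosed_iInter fun n => isClosed_iInter fun _ => ?_
    have h1 : IsClosed {x : W × (∀ m, D m ⊕ Unit) |
        x.2 m ∈ range (Sum.inr : Unit → D m ⊕ Unit)} :=
      isClosed_range_inr.preimage (by fun_prop)
    have h2 : IsClosed {x : W × (∀ m, D m ⊕ Unit) |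
        x.2 n ∈ range (Sum.inr : Unit → D n ⊕ Unit)} :=
      isClosed_range_inr.preimage (by fun_prop)
    exact h1.union h2
  · refine isClosed_iInter fun m => IsClosed.union ?_ ?_
    · exact isClosed_range_inr.preimage (by fun_prop)
    · have h1 : IsCompact (range fun d : D m => ((p m d, Sum.inl d) : W × (D m ⊕ Unit))) :=
        isCompact_range ((hp m).prodMk continuous_inl)
      exact h1.isClosed.preimage (by fun_prop)

end GLUE

open Set Filter Topology TopologicalSpace GLUE

theorem t_GLUE : S_GLUE := by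
  intro D _ _ _ W _ _ p hp
  let τ : TopologicalSpace ((Σ m, D m) ⊕ W) := TopologicalSpace.induced (j p) inferInstance
  have hind : IsInducing (j p) := ⟨rfl⟩
  have hcl : IsClosedEmbedding (j p) := ⟨⟨hind, j_inj p⟩, isClosed_range_j p hp⟩
  have hK : CompactSpace ((Σ m, D m) ⊕ W) := hcl.compactSpace
  have hM : MetrizableSpace ((Σ m, D m) ⊕ W) := hcl.isEmbedding.metrizableSpace
  have hT2 : T2Space ((Σ m, D m) ⊕ W) := inferInstance
  have hj : Continuous (j p) := hcl.continuous
  have hq : Continuous fun x => (j p x).1 := continuous_fst.comp hj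
  have hc : ∀ m, Continuous fun x => (j p x).2 m :=
    fun m => (continuous_apply m).comp (continuous_snd.comp hj)
  have hlc : ∀ m, Continuous fun d : D m => (Sum.inl ⟨m, d⟩ : (Σ m, D m) ⊕ W) := by
    intro m
    rw [hind.continuous_iff]
    refine (hp m).prodMk ?_
    exact continuous_const.update m continuous_inl
  have hli : ∀ m, Function.Injective fun d : D m => (Sum.inl ⟨m, d⟩ : (Σ m, D m) ⊕ W) := by
    intro m a b hab
    simpa using hab
  have hle : ∀ m, IsClosedEmbedding fun d : D m => (Sum.inl ⟨m, d⟩ : (Σ m, D m) ⊕ W) :=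
    fun m => (hlc m).isClosedEmbedding (hli m)
  have hro : ∀ m, IsOpen (range fun d : D m => (Sum.inl ⟨m, d⟩ : (Σ m, D m) ⊕ W)) := by
    intro m
    have h1 : (range fun d : D m => (Sum.inl ⟨m, d⟩ : (Σ m, D m) ⊕ W)) =
        (fun x => (j p x).2 m) ⁻¹' range (Sum.inl : D m → D m ⊕ Unit) := by
      ext x
      constructor
      · rintro ⟨d, rfl⟩
        exact ⟨d, (j_inl_same p m d).symm⟩
      · rintro ⟨d, hd⟩
        rcases x with ⟨n, e⟩ | w
        · by_cases hmn : m = n
          · subst hmn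
            exact ⟨e, rfl⟩
          · simp only [j_inl_ne p n e m hmn] at hd
            exact absurd hd Sum.inl_ne_inr
        · simp only [j_inr] at hd
          exact absurd hd Sum.inl_ne_inr
    rw [h1]
    exact isOpen_range_inl.preimage (hc m)
  have hlo : ∀ m, IsOpenEmbedding fun d : D m => (Sum.inl ⟨m, d⟩ : (Σ m, D m) ⊕ W) :=
    fun m => ⟨(hle m).isEmbedding, hro m⟩
  have hrc : Continuous (Sum.inr : W → (Σ m, D m) ⊕ W) := by
    rw [hind.continuous_iff]
    exact continuous_id.prodMk continuous_const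
  refine ⟨τ, hK, hM, hlo, hrc.isClosedEmbedding Sum.inr_injective, ?_⟩
  intro h k hh hk hw hε
  -- far pieces
  have hfar : ∀ (M : ℕ) (w : W), ∀ᶠ x in 𝓝 (Sum.inr w : (Σ m, D m) ⊕ W),
      ∀ m < M, ∀ d : D m, x ≠ Sum.inl ⟨m, d⟩ := by
    intro M w
    have h1 : ∀ m ∈ Finset.range M, ∀ᶠ x in 𝓝 (Sum.inr w : (Σ m, D m) ⊕ W),
        ∀ d : D m, x ≠ Sum.inl ⟨m, d⟩ := by
      intro m _
      have h2 : (range fun d : D m => (Sum.inl ⟨m, d⟩ : (Σ m, D m) ⊕ W))ᶜ ∈
          𝓝 (Sum.inr w : (Σ m, D m) ⊕ W) := by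
        refine (hle m).isClosed_range.isOpen_compl.mem_nhds ?_
        rintro ⟨d, hd⟩
        exact Sum.inl_ne_inr hd
      filter_upwards [h2] with x hx d hd
      exact hx ⟨d, hd.symm⟩
    have h3 := (eventually_all_finset (Finset.range M)).2 h1
    filter_upwards [h3] with x hx m hm
    exact hx m (Finset.mem_range.2 hm)
  rw [continuous_iff_continuousAt]
  rintro (⟨m, d⟩ | w)
  · exact (hlo m).continuousAt_iff.1 (hh m).continuousAt
  · rw [ContinuousAt, hind.tendsto_nhds_iff, hw]
    have e1 : Tendsto (fun x => (j p (h x)).1) (𝓝 (Sum.inr w)) (𝓝 (k w)) := by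
      rw [Metric.tendsto_nhds]
      intro ε he
      obtain ⟨M, hM⟩ := hε (ε / 2) (by positivity)
      have h1 : Tendsto (fun x => k (j p x).1) (𝓝 (Sum.inr w : (Σ m, D m) ⊕ W)) (𝓝 (k w)) :=
        (hk.comp hq).continuousAt
      have h2 := (Metric.tendsto_nhds.1 h1) (ε / 2) (by positivity)
      filter_upwards [h2, hfar M w] with x hx1 hx2
      rcases x with ⟨m, d⟩ | v
      · have hm : M ≤ m := by
          by_contra hlt
          exact hx2 m (not_le.1 hlt) d rfl
        obtain ⟨d', h3, h4⟩ := hM m hm d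
        rw [h3, j_inl_fst]
        rw [j_inl_fst] at hx1
        linarith [dist_triangle (p m d') (k (p m d)) (k w)]
      · rw [hw, j_inr]
        rw [j_inr] at hx1
        linarith
    have e2 : Tendsto (fun x => (j p (h x)).2) (𝓝 (Sum.inr w)) (𝓝 fun _ => Sum.inr ()) := by
      rw [tendsto_pi_nhds]
      intro i
      obtain ⟨M, hM⟩ := hε 1 one_pos
      refine tendsto_const_nhds.congr' ?_
      filter_upwards [hfar (max M (i + 1)) w] with x hx2
      rcases x with ⟨m, d⟩ | v
      · have hm : max M (i + 1) ≤ m := by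
          by_contra hlt
          exact hx2 m (not_le.1 hlt) d rfl
        obtain ⟨d', h3, -⟩ := hM m (le_trans (le_max_left _ _) hm) d
        have h5 : i + 1 ≤ m := le_trans (le_max_right _ _) hm
        rw [h3, j_inl_ne p m d' i (by omega)]
      · rw [hw, j_inr]
    exact e1.prodMk_nhds e2

end Pool.Agent.N480.CV
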