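import Pool.Agent.N480.CV.Stm

set_option autoImplicit false

/-! CV/K: the glued space gives a compact action realization (helper11). -/

namespace Pool.Agent.N480.CV

open Set MeasureTheory TopologicalSpace
open Pool.Agent.TH722.CR (CAct)

namespace KK

/-- compact open sets of a second countable space -/
lemma countable_compactOpen (Z : Type) [TopologicalSpace Z] [SecondCountableTopology Z] :
    {V : Set Z | IsCompact V ∧ IsOpen V}.Countable := by
  obtain ⟨b, hbc, -, hb⟩ := exists_countable_basis Z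
  have h1 : (Set.sUnion '' {F : Set (Set Z) | F.Finite ∧ F ⊆ b}).Countable :=
    (Set.countable_ofPred_finite_subset hbc).image _
  apply h1.mono
  rintro V ⟨hVc, hVo⟩
  have h2 : ∀ x : Z, x ∈ V → ∃ s ∈ b, x ∈ s ∧ s ⊆ V := fun x hx =>
    hb.exists_subset_of_mem_open hx hVo
  choose s hs using h2
  obtain ⟨t, ht⟩ := hVc.elim_nhds_subcover' (fun x hx => s x hx)
    (fun x hx => (hb.isOpen (hs x hx).1).mem_nhds (hs x hx).2.1)
  refine ⟨(fun x : V => s x x.2) '' (t : Set V), ⟨t.finite_toSet.image _, ?_⟩, ?_⟩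
  · rintro _ ⟨x, -, rfl⟩
    exact (hs x x.2).1
  · apply Subset.antisymm
    · apply sUnion_subset
      rintro _ ⟨x, -, rfl⟩
      exact (hs x x.2).2.2
    · intro y hy
      obtain ⟨x, hx, hyx⟩ := mem_iUnion₂.1 (ht hy)
      exact ⟨_, ⟨x, hx, rfl⟩, hyx⟩

/-- small compact open neighbourhoods -/
lemma exists_compactOpen {Z : Type} [TopologicalSpace Z] [T2Space Z] [LocallyCompactSpace Z]
    [TotallyDisconnectedSpace Z] {O : Set Z} (hO : IsOpen O) {z : Z} (hz : z ∈ O) :
    ∃ V : Set Z, IsCompact V ∧ IsOpen V ∧ z ∈ V ∧ V ⊆ O := by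
  obtain ⟨C, hC, hzC, hCO⟩ := exists_compact_subset hO hz
  obtain ⟨V, hV, hzV, hVC⟩ :=
    (loc_compact_Haus_tot_disc_of_zero_dim (H := Z)).exists_subset_of_mem_open hzC isOpen_interior
  exact ⟨V, hC.of_isClosed_subset hV.1 (hVC.trans interior_subset), hV.2, hzV,
    hVC.trans (interior_subset.trans hCO)⟩

/-- the extension of a continuous map with compact support along an open embedding -/
lemma extend_continuous {K Y : Type} [TopologicalSpace K] [T2Space K] [TopologicalSpace Y]
    (j : Y → K) (hj : Topology.IsOpenEmbedding j) (σ : Y → Y) (hσ : Continuous σ) (C : Set Y)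
    (hC : IsCompact C) (hid : ∀ y, y ∉ C → σ y = y) :
    Continuous (Function.extend j (j ∘ σ) id) := by
  rw [continuous_iff_continuousAt]
  intro x
  by_cases hx : ∃ y, j y = x
  · obtain ⟨y, rfl⟩ := hx
    rw [← hj.continuousAt_iff]
    have h1 : Function.extend j (j ∘ σ) id ∘ j = j ∘ σ := by
      funext z
      exact hj.injective.extend_apply _ _ _
    rw [h1]
    exact (hj.continuous.comp hσ).continuousAt
  · have h1 : (j '' C)ᶜ ∈ nhds x := by
      apply (hC.image hj.continuous).isClosed.isOpen_compl.mem_nhds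
      rintro ⟨y, -, hy⟩
      exact hx ⟨y, hy⟩
    apply (continuousAt_id (x := x)).congr
    filter_upwards [h1] with z hz
    by_cases hz' : ∃ y, j y = z
    · obtain ⟨y, rfl⟩ := hz'
      rw [hj.injective.extend_apply]
      have : y ∉ C := fun h => hz ⟨y, h, rfl⟩
      rw [Function.comp_apply, hid y this]
      rfl
    · rw [Function.extend_apply' _ _ _ hz']

section swap
variable {Γ Z : Type} [Group Γ] [TopologicalSpace Z] [T2Space Z] [MulAction Γ Z]
  [ContinuousConstSMul Γ Z]

/-- admissible data for a swap -/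
def Adm (Y : Set Z) (q : Γ × Set Z) : Prop :=
  (IsCompact q.2 ∧ IsOpen q.2) ∧ q.2 ⊆ Y ∧ (∀ z ∈ q.2, q.1 • z ∈ Y) ∧ ∀ z ∈ q.2, q.1 • z ∉ q.2

open Classical in
/-- the swap -/
noncomputable def sw (Y : Set Z) (q : Γ × Set Z) (hq : Adm Y q) (z : Y) : Y :=
  ⟨if (z : Z) ∈ q.2 then q.1 • (z : Z) else if q.1⁻¹ • (z : Z) ∈ q.2 then q.1⁻¹ • (z : Z) else z,
    by
      split_ifs with h1 h2
      · exact hq.2.2.1 _ h1
      · exact hq.2.1 h2
      · exact z.2⟩

lemma sw_of_mem (Y : Set Z) (q : Γ × Set Z) (hq : Adm Y q) (z : Y) (hz : (z : Z) ∈ q.2) :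
    ((sw Y q hq z : Y) : Z) = q.1 • (z : Z) := by
  simp [sw, hz]

lemma sw_sw (Y : Set Z) (q : Γ × Set Z) (hq : Adm Y q) (z : Y) :
    sw Y q hq (sw Y q hq z) = z := by
  apply Subtype.ext
  by_cases h1 : (z : Z) ∈ q.2
  · have h2 := hq.2.2.2 _ h1
    simp [sw, h1, h2]
  · by_cases h2 : q.1⁻¹ • (z : Z) ∈ q.2
    · simp [sw, h1, h2]
    · simp [sw, h1, h2]

lemma sw_orb (Y : Set Z) (q : Γ × Set Z) (hq : Adm Y q) (z : Y) :
    ∃ g : Γ, g • (z : Z) = (sw Y q hq z : Y) := by
  by_cases h1 : (z : Z) ∈ q.2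
  · exact ⟨q.1, by simp [sw, h1]⟩
  · by_cases h2 : q.1⁻¹ • (z : Z) ∈ q.2
    · exact ⟨q.1⁻¹, by simp [sw, h1, h2]⟩
    · exact ⟨1, by simp [sw, h1, h2]⟩

lemma sw_continuous (Y : Set Z) (q : Γ × Set Z) (hq : Adm Y q) : Continuous (sw Y q hq) := by
  classical
  have hcl : IsClopen q.2 := ⟨hq.1.1.isClosed, hq.1.2⟩
  have hA : IsClopen {z : Y | (z : Z) ∈ q.2} := hcl.preimage continuous_subtype_val
  have hB : IsClopen {z : Y | q.1⁻¹ • (z : Z) ∈ q.2} :=
    hcl.preimage ((continuous_const_smul q.1⁻¹).comp continuous_subtype_val)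
  unfold sw
  apply Continuous.subtype_mk
  apply Continuous.if
  · intro a ha
    rw [hA.frontier_eq] at ha
    exact ha.elim
  · exact (continuous_const_smul q.1).comp continuous_subtype_val
  · apply Continuous.if
    · intro a ha
      rw [hB.frontier_eq] at ha
      exact ha.elim
    · exact (continuous_const_smul q.1⁻¹).comp continuous_subtype_val
    · exact continuous_subtype_val

lemma sw_support (Y : Set Z) (q : Γ × Set Z) (hq : Adm Y q) :
    ∃ C : Set Y, IsCompact C ∧ ∀ y, y ∉ C → sw Y q hq y = y := by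
  have h1 : IsCompact {z : Y | (z : Z) ∈ q.2} := by
    rw [Subtype.isCompact_iff]
    convert hq.1.1
    ext z
    constructor
    · rintro ⟨y, hy, rfl⟩
      exact hy
    · intro hz
      exact ⟨⟨z, hq.2.1 hz⟩, hz, rfl⟩
  have h2 : IsCompact {z : Y | q.1⁻¹ • (z : Z) ∈ q.2} := by
    rw [Subtype.isCompact_iff]
    convert hq.1.1.image (continuous_const_smul q.1)
    ext z
    constructor
    · rintro ⟨y, hy, rfl⟩
      exact ⟨_, hy, smul_inv_smul _ _⟩
    · rintro ⟨y, hy, rfl⟩
      refine ⟨⟨q.1 • y, hq.2.2.1 _ hy⟩, ?_, rfl⟩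
      change q.1⁻¹ • q.1 • y ∈ q.2
      rw [inv_smul_smul]
      exact hy
  refine ⟨_, h1.union h2, ?_⟩
  intro y hy
  rw [mem_union, not_or] at hy
  have hy1 : (y : Z) ∉ q.2 := hy.1
  have hy2 : q.1⁻¹ • (y : Z) ∉ q.2 := hy.2
  apply Subtype.ext
  simp [sw, hy1, hy2]

/-- the swap as a homeomorphism of a compact space containing `Y` as an open set -/
noncomputable def swH {K : Type} [TopologicalSpace K] [T2Space K] (Y : Set Z) (j : Y → K)
    (hj : Topology.IsOpenEmbedding j) (q : Γ × Set Z) (hq : Adm Y q) : K ≃ₜ K where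
  toFun := Function.extend j (j ∘ sw Y q hq) id
  invFun := Function.extend j (j ∘ sw Y q hq) id
  left_inv := fun x => by
    by_cases hx : ∃ y, j y = x
    · obtain ⟨y, rfl⟩ := hx
      rw [hj.injective.extend_apply, Function.comp_apply, hj.injective.extend_apply,
        Function.comp_apply, sw_sw]
    · rw [Function.extend_apply' _ _ _ hx, id, Function.extend_apply' _ _ _ hx, id]
  right_inv := fun x => by
    by_cases hx : ∃ y, j y = x
    · obtain ⟨y, rfl⟩ := hx
      rw [hj.injective.extend_apply, Function.comp_apply, hj.injective.extend_apply,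
        Function.comp_apply, sw_sw]
    · rw [Function.extend_apply' _ _ _ hx, id, Function.extend_apply' _ _ _ hx, id]
  continuous_toFun := by
    obtain ⟨C, hC, hid⟩ := sw_support Y q hq
    exact extend_continuous j hj _ (sw_continuous Y q hq) C hC hid
  continuous_invFun := by
    obtain ⟨C, hC, hid⟩ := sw_support Y q hq
    exact extend_continuous j hj _ (sw_continuous Y q hq) C hC hid

lemma swH_apply {K : Type} [TopologicalSpace K] [T2Space K] (Y : Set Z) (j : Y → K)
    (hj : Topology.IsOpenEmbedding j) (q : Γ × Set Z) (hq : Adm Y q) (y : Y) :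
    swH Y j hj q hq (j y) = j (sw Y q hq y) := by
  change Function.extend j (j ∘ sw Y q hq) id (j y) = _
  rw [hj.injective.extend_apply]
  rfl

lemma swH_apply' {K : Type} [TopologicalSpace K] [T2Space K] (Y : Set Z) (j : Y → K)
    (hj : Topology.IsOpenEmbedding j) (q : Γ × Set Z) (hq : Adm Y q) (x : K)
    (hx : ¬ ∃ y, j y = x) : swH Y j hj q hq x = x := by
  change Function.extend j (j ∘ sw Y q hq) id x = _
  rw [Function.extend_apply' _ _ _ hx]
  rfl

end swap

/-! ### the maps on the glued space -/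

section maps
variable {Γ Z : Type} [Group Γ] [TopologicalSpace Z] [T2Space Z] [MulAction Γ Z]
  [ContinuousConstSMul Γ Z] {D : ℕ → Set Z} {N : ℕ → ℕ} {lab : ∀ m, Z → Fin (N m)}
  {c : ∀ m, Fin (N m) → Z → Z} {W : Type} [MulAction Γ W]

/-- the map given by permutations and a group element -/
def tf (hB : ∀ m, Blocks Γ (D m) (N m) (lab m) (c m)) (ρ : ∀ m, Equiv.Perm (Fin (N m))) (g : Γ) :
    (Σ m, D m) ⊕ W → (Σ m, D m) ⊕ W :=
  Sum.map (fun x => ⟨x.1, ⟨c x.1 (ρ x.1 (lab x.1 x.2)) x.2, (hB x.1).c_mem _ _ x.2.2⟩⟩)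
    (fun w => g • w)

lemma tf_inv (hB : ∀ m, Blocks Γ (D m) (N m) (lab m) (c m)) (ρ : ∀ m, Equiv.Perm (Fin (N m)))
    (g : Γ) (x : (Σ m, D m) ⊕ W) : tf hB (fun m => (ρ m)⁻¹) g⁻¹ (tf hB ρ g x) = x := by
  rcases x with ⟨m, z⟩ | w
  · change Sum.inl _ = Sum.inl _
    congr 1
    change (⟨m, _⟩ : Σ m, D m) = ⟨m, z⟩
    congr 1
    apply Subtype.ext
    change c m ((ρ m)⁻¹ (lab m (c m (ρ m (lab m z)) z))) (c m (ρ m (lab m z)) z) = z
    have h3 : (ρ m)⁻¹ (ρ m (lab m z)) = lab m z := (ρ m).symm_apply_apply _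
    rw [(hB m).lab_c _ _ z.2, (hB m).c_c _ _ _ z.2, h3, (hB m).c_lab _ z.2]
  · change Sum.inr (g⁻¹ • g • w) = Sum.inr w
    rw [inv_smul_smul]

lemma tf_inv' (hB : ∀ m, Blocks Γ (D m) (N m) (lab m) (c m)) (ρ : ∀ m, Equiv.Perm (Fin (N m)))
    (g : Γ) (x : (Σ m, D m) ⊕ W) : tf hB ρ g (tf hB (fun m => (ρ m)⁻¹) g⁻¹ x) = x := by
  have h := tf_inv hB (fun m => (ρ m)⁻¹) g⁻¹ x
  simpa only [inv_inv] using h

lemma tf_piece_continuous (hB : ∀ m, Blocks Γ (D m) (N m) (lab m) (c m)) (m : ℕ)
    (ρ : Equiv.Perm (Fin (N m))) : Continuous (fun d : D m => (⟨c m (ρ (lab m d)) d,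
      (hB m).c_mem _ _ d.2⟩ : D m)) := by
  apply Continuous.subtype_mk
  have h1 : Continuous (fun q : Fin (N m) × D m => c m q.1 q.2) := by
    rw [continuous_prod_of_discrete_left]
    intro i
    exact ((hB m).c_cont i).domRestrict
  have h2 : Continuous (fun d : D m => (ρ (lab m d), d)) :=
    (continuous_of_discreteTopology.comp ((hB m).lab_cont).domRestrict).prodMk continuous_id
  exact h1.comp h2

end maps

/-- the index of a point of the union -/
noncomputable def idx {Z : Type} {D : ℕ → Set Z} (z : (⋃ m, D m : Set Z)) : Σ m, D m :=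
  ⟨Classical.choose (mem_iUnion.1 z.2), ⟨z, Classical.choose_spec (mem_iUnion.1 z.2)⟩⟩

lemma idx_eq {Z : Type} {D : ℕ → Set Z} (hD : ∀ m m', m ≠ m' → Disjoint (D m) (D m'))
    (m : ℕ) (z : D m) (h : (z : Z) ∈ (⋃ m, D m : Set Z)) :
    idx (⟨z, h⟩ : (⋃ m, D m : Set Z)) = ⟨m, z⟩ := by
  have key : ∀ (m m' : ℕ) (z : Z) (h : z ∈ D m) (h' : z ∈ D m'),
      (⟨m, ⟨z, h⟩⟩ : Σ m, D m) = ⟨m', ⟨z, h'⟩⟩ := by
    intro m m' z h h'
    by_cases hm : m = m'
    · subst hm; rfl
    · exact (Set.disjoint_left.1 (hD m m' hm) h h').elim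
  exact key _ _ _ _ _

section main
variable {Γ Z : Type} [Group Γ] [Countable Γ] [TopologicalSpace Z] [T2Space Z]
  [LocallyCompactSpace Z] [SecondCountableTopology Z] [TotallyDisconnectedSpace Z]
  [MeasurableSpace Z] [BorelSpace Z] [MulAction Γ Z] [ContinuousConstSMul Γ Z]
  {D : ℕ → Set Z} {N : ℕ → ℕ} {lab : ∀ m, Z → Fin (N m)} {c : ∀ m, Fin (N m) → Z → Z}

theorem main_K (hB : ∀ m, Blocks Γ (D m) (N m) (lab m) (c m))
    (hD : ∀ m m', m ≠ m' → Disjoint (D m) (D m')) (W : Type) [MetricSpace W]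
    [MeasurableSpace W] [BorelSpace W] [MulAction Γ W] [ContinuousConstSMul Γ W] (γ : ℕ → Γ)
    (p : ∀ m, Fin (N m) → W) (π : ∀ m, ℕ → Equiv.Perm (Fin (N m))) (hγ : Function.Surjective γ)
    (happ : ∀ (i : ℕ) (ε : ℝ), 0 < ε → ∃ M, ∀ m, M ≤ m → ∀ x : Fin (N m),
      dist (p m (π m i x)) (γ i • p m x) < ε)
    (K : Type) [TopologicalSpace K] [CompactSpace K] [MetrizableSpace K]
    (e : ((Σ m, D m) ⊕ W) ≃ K)
    (hopen : ∀ m, Topology.IsOpenEmbedding fun d : D m => e (Sum.inl ⟨m, d⟩))
    (hclosed : Topology.IsClosedEmbedding (fun w => e (Sum.inr w)))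
    (hcrit : ∀ (h : K → K) (k : W → W),
      (∀ m, Continuous fun d : D m => h (e (Sum.inl ⟨m, d⟩))) → Continuous k →
      (∀ w, h (e (Sum.inr w)) = e (Sum.inr (k w))) →
      (∀ ε : ℝ, 0 < ε → ∃ M, ∀ m, M ≤ m → ∀ d : D m, ∃ d' : D m,
        h (e (Sum.inl ⟨m, d⟩)) = e (Sum.inl ⟨m, d'⟩) ∧
          dist (p m (lab m d')) (k (p m (lab m d))) < ε) → Continuous h) :
    CAct ((⋃ m, D m : Set Z) ⊕ W)
      (Sum.LiftRel (fun a b : (⋃ m, D m : Set Z) => ∃ g : Γ, g • (a : Z) = b) (Orb Γ)) := by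
  classical
  let _ : MeasurableSpace K := borel K
  have : BorelSpace K := ⟨rfl⟩
  -- the inclusion of the union
  let j : (⋃ m, D m : Set Z) → K := fun z => e (Sum.inl (idx z))
  have hjm : ∀ (m : ℕ) (z : D m) (h : (z : Z) ∈ (⋃ m, D m : Set Z)),
      j ⟨z, h⟩ = e (Sum.inl ⟨m, z⟩) := by
    intro m z h
    change e (Sum.inl (idx _)) = _
    rw [idx_eq hD]
  have hsub : ∀ m, D m ⊆ ⋃ m, D m := fun m => subset_iUnion D m
  have hinc : ∀ m, Topology.IsOpenEmbedding (Set.inclusion (hsub m)) := by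
    intro m
    refine ⟨Topology.IsEmbedding.inclusion (hsub m), ?_⟩
    rw [Set.range_inclusion]
    exact (hB m).isOpen.preimage continuous_subtype_val
  have hjinj : Function.Injective j := by
    intro x y hxy
    have h1 : idx x = idx y := Sum.inl_injective (e.injective hxy)
    have h2 : ((idx x).2 : Z) = (idx y).2 := by rw [h1]
    exact Subtype.ext h2
  have hjc : Continuous j := by
    rw [continuous_iff_continuousAt]
    intro x
    obtain ⟨m, hm⟩ := mem_iUnion.1 x.2
    have h1 : x = Set.inclusion (hsub m) ⟨x, hm⟩ := rfl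
    rw [h1, ← (hinc m).continuousAt_iff]
    have h2 : j ∘ Set.inclusion (hsub m) = fun d : D m => e (Sum.inl ⟨m, d⟩) := by
      funext d
      exact hjm m d _
    rw [h2]
    exact (hopen m).continuous.continuousAt
  have hjo : IsOpenMap j := by
    intro U hU
    have h1 : j '' U = ⋃ m, (fun d : D m => e (Sum.inl ⟨m, d⟩)) ''
        (Set.inclusion (hsub m) ⁻¹' U) := by
      ext x
      constructor
      · rintro ⟨z, hz, rfl⟩
        obtain ⟨m, hm⟩ := mem_iUnion.1 z.2
        exact mem_iUnion.2 ⟨m, ⟨z, hm⟩, hz, (hjm m ⟨z, hm⟩ z.2).symm⟩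
      · intro hx
        obtain ⟨m, d, hd, rfl⟩ := mem_iUnion.1 hx
        exact ⟨_, hd, hjm m d _⟩
    rw [h1]
    apply isOpen_iUnion
    intro m
    exact (hopen m).isOpenMap _ (hU.preimage (hinc m).continuous)
  have hj : Topology.IsOpenEmbedding j := .of_continuous_injective_isOpenMap hjc hjinj hjo
  -- the equivalence
  have hjW : ∀ z w, j z ≠ e (Sum.inr w) := by
    intro z w h
    exact Sum.inl_ne_inr (e.injective h)
  let E0 : (⋃ m, D m : Set Z) ⊕ W → K := Sum.elim j (fun w => e (Sum.inr w))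
  have hE0 : Function.Bijective E0 := by
    constructor
    · rintro (x | x) (y | y) h
      · exact congrArg Sum.inl (hjinj h)
      · exact (hjW _ _ h).elim
      · exact (hjW _ _ h.symm).elim
      · exact congrArg Sum.inr (Sum.inr_injective (e.injective h))
    · intro x
      obtain ⟨s, rfl⟩ := e.surjective x
      rcases s with ⟨m, z⟩ | w
      · exact ⟨Sum.inl ⟨z, hsub m z.2⟩, hjm m z _⟩
      · exact ⟨Sum.inr w, rfl⟩
  let E1 := Equiv.ofBijective E0 hE0
  let E : (⋃ m, D m : Set Z) ⊕ W ≃ᵐ K :=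
    { E1 with
      measurable_toFun := by
        change Measurable E0
        exact Measurable.sumElim hj.continuous.measurable hclosed.continuous.measurable
      measurable_invFun := by
        intro s hs
        have h1 : (E1.symm) ⁻¹' s = j '' (Sum.inl ⁻¹' s) ∪ (fun w => e (Sum.inr w)) ''
            (Sum.inr ⁻¹' s) := by
          ext x
          obtain ⟨y, rfl⟩ := E1.surjective x
          rw [mem_preimage, Equiv.symm_apply_apply]
          constructor
          · intro hy
            rcases y with y | y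
            · exact Or.inl ⟨y, hy, rfl⟩
            · exact Or.inr ⟨y, hy, rfl⟩
          · rintro (⟨z, hz, hzy⟩ | ⟨z, hz, hzy⟩)
            · have : Sum.inl z = y := E1.injective hzy
              rw [← this]; exact hz
            · have : Sum.inr z = y := E1.injective hzy
              rw [← this]; exact hz
        change MeasurableSet (E1.symm ⁻¹' s)
        rw [h1]
        exact (hj.measurableEmbedding.measurableSet_image.2 (measurable_inl hs)).union
          (hclosed.measurableEmbedding.measurableSet_image.2 (measurable_inr hs)) }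
  have hEl : ∀ z, E (Sum.inl z) = j z := fun z => rfl
  have hEr : ∀ w, E (Sum.inr w) = e (Sum.inr w) := fun w => rfl
  -- the relation
  let R0 : (⋃ m, D m : Set Z) ⊕ W → (⋃ m, D m : Set Z) ⊕ W → Prop :=
    Sum.LiftRel (fun a b : (⋃ m, D m : Set Z) => ∃ g : Γ, g • (a : Z) = b) (Orb Γ)
  have hR0 : Equivalence R0 := by
    refine ⟨?_, ?_, ?_⟩
    · rintro (x | x)
      · exact Sum.LiftRel.inl ⟨1, one_smul _ _⟩
      · exact Sum.LiftRel.inr ⟨1, one_smul _ _⟩
    · rintro _ _ (⟨⟨g, hg⟩⟩ | ⟨⟨g, hg⟩⟩)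
      · exact Sum.LiftRel.inl ⟨g⁻¹, by rw [← hg, inv_smul_smul]⟩
      · exact Sum.LiftRel.inr ⟨g⁻¹, by rw [← hg, inv_smul_smul]⟩
    · intro x y z h1 h2
      cases h1 with
      | inl h =>
        obtain ⟨g, hg⟩ := h
        cases h2 with
        | inl h' =>
          obtain ⟨g', hg'⟩ := h'
          exact Sum.LiftRel.inl ⟨g' * g, by rw [mul_smul, hg, hg']⟩
      | inr h =>
        obtain ⟨g, hg⟩ := h
        cases h2 with
        | inr h' =>
          obtain ⟨g', hg'⟩ := h'
          exact Sum.LiftRel.inr ⟨g' * g, by rw [mul_smul, hg, hg']⟩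
  let R : K → K → Prop := fun x y => R0 (E.symm x) (E.symm y)
  have hR : Equivalence R := ⟨fun x => hR0.refl _, fun h => hR0.symm h, fun h h' => hR0.trans h h'⟩
  -- the homeomorphisms
  let T1 : ℕ → K ≃ₜ K := fun i =>
    Continuous.homeoOfEquivCompactToT2 (f :=
      { toFun := fun x => e (tf hB (fun m => π m i) (γ i) (e.symm x))
        invFun := fun x => e (tf hB (fun m => (π m i)⁻¹) (γ i)⁻¹ (e.symm x))
        left_inv := fun x => by
          beta_reduce
          rw [Equiv.symm_apply_apply, tf_inv, Equiv.apply_symm_apply]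
        right_inv := fun x => by
          beta_reduce
          rw [Equiv.symm_apply_apply, tf_inv', Equiv.apply_symm_apply] }) (by
      change Continuous (fun x => e (tf hB (fun m => π m i) (γ i) (e.symm x)))
      apply hcrit _ (fun w => γ i • w)
      · intro m
        simp only [Equiv.symm_apply_apply]
        exact (hopen m).continuous.comp (tf_piece_continuous hB m (π m i))
      · exact continuous_const_smul _
      · intro w
        simp only [Equiv.symm_apply_apply]
        rfl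
      · intro ε hε
        obtain ⟨M, hM⟩ := happ i ε hε
        refine ⟨M, ?_⟩
        intro m hm d
        refine ⟨(⟨c m (π m i (lab m d)) d, (hB m).c_mem _ _ d.2⟩ : D m), ?_, ?_⟩
        · simp only [Equiv.symm_apply_apply]
          rfl
        · change dist (p m (lab m (c m (π m i (lab m d)) d))) _ < ε
          rw [(hB m).lab_c _ _ d.2]
          exact hM m hm _)
  have hT1 : ∀ i x, T1 i x = e (tf hB (fun m => π m i) (γ i) (e.symm x)) := fun i x => rfl
  let Q : Set (Γ × Set Z) := {q | Adm (⋃ m, D m) q}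
  have hQ : Q.Countable := by
    have h1 : (Set.univ ×ˢ {V : Set Z | IsCompact V ∧ IsOpen V} : Set (Γ × Set Z)).Countable :=
      (Set.countable_univ).prod (countable_compactOpen Z)
    apply h1.mono
    intro q hq
    have hq' : Adm (⋃ m, D m) q := hq
    exact Set.mem_prod.2 ⟨Set.mem_univ _, hq'.1⟩
  have : Countable Q := hQ.to_subtype
  let T : ℕ ⊕ Q → K ≃ₜ K := Sum.elim T1 (fun q => swH (⋃ m, D m) j hj q.1 q.2)
  have hact : CAct K R := by
    apply CAct.of_homeos T R hR
    · rintro (i | q) x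
      · obtain ⟨y, rfl⟩ := E.surjective x
        change R0 (E.symm (E y)) (E.symm (T1 i (E y)))
        rw [MeasurableEquiv.symm_apply_apply]
        rcases y with z | w
        · obtain ⟨m, hm⟩ := mem_iUnion.1 z.2
          obtain ⟨g, hg⟩ := (hB m).c_orb (π m i (lab m z)) z hm
          have h1 : T1 i (E (Sum.inl z)) = E (Sum.inl ⟨c m (π m i (lab m z)) z,
              hsub m ((hB m).c_mem _ _ hm)⟩) := by
            rw [hEl, hEl, hT1]
            have h2 : j z = e (Sum.inl ⟨m, ⟨z, hm⟩⟩) := hjm m ⟨z, hm⟩ z.2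
            have h3 := hjm m ⟨c m (π m i (lab m z)) z, (hB m).c_mem _ _ hm⟩
              (hsub m ((hB m).c_mem _ _ hm))
            rw [h2, h3, Equiv.symm_apply_apply]
            rfl
          rw [h1, MeasurableEquiv.symm_apply_apply]
          exact Sum.LiftRel.inl ⟨g, hg⟩
        · have h1 : T1 i (E (Sum.inr w)) = E (Sum.inr (γ i • w)) := by
            rw [hEr, hEr, hT1, Equiv.symm_apply_apply]
            rfl
          rw [h1, MeasurableEquiv.symm_apply_apply]
          exact Sum.LiftRel.inr ⟨γ i, rfl⟩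
      · obtain ⟨y, rfl⟩ := E.surjective x
        change R0 (E.symm (E y)) (E.symm (swH (⋃ m, D m) j hj q.1 q.2 (E y)))
        rw [MeasurableEquiv.symm_apply_apply]
        rcases y with z | w
        · rw [hEl, swH_apply, ← hEl, MeasurableEquiv.symm_apply_apply]
          exact Sum.LiftRel.inl (sw_orb _ q.1 q.2 z)
        · rw [swH_apply', MeasurableEquiv.symm_apply_apply]
          · exact hR0.refl _
          · rintro ⟨z, hz⟩
            exact hjW _ _ hz
    · intro x y hxy
      obtain ⟨a, rfl⟩ := E.surjective x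
      obtain ⟨b, rfl⟩ := E.surjective y
      change R0 (E.symm (E a)) (E.symm (E b)) at hxy
      rw [MeasurableEquiv.symm_apply_apply, MeasurableEquiv.symm_apply_apply] at hxy
      rcases hxy with ⟨⟨g, hg⟩⟩ | ⟨⟨g, hg⟩⟩
      · rename_i a b
        by_cases hab : a = b
        · rw [hab]
          exact Relation.EqvGen.refl _
        · have hab' : (b : Z) ≠ a := fun h => hab (Subtype.ext h.symm)
          have hop : IsOpen (⋃ m, D m) := isOpen_iUnion fun m => (hB m).isOpen
          obtain ⟨O1, O2, hO1, hO2, ha1, hb2, hdis⟩ := t2_separation hab'.symm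
          have hO : IsOpen (((⋃ m, D m) ∩ O1) ∩ (fun z : Z => g • z) ⁻¹' ((⋃ m, D m) ∩ O2)) :=
            (hop.inter hO1).inter ((hop.inter hO2).preimage (continuous_const_smul g))
          have haO : (a : Z) ∈ (((⋃ m, D m) ∩ O1) ∩ (fun z : Z => g • z) ⁻¹'
              ((⋃ m, D m) ∩ O2)) := by
            refine ⟨⟨a.2, ha1⟩, ?_⟩
            change g • (a : Z) ∈ (⋃ m, D m) ∩ O2
            rw [hg]
            exact ⟨b.2, hb2⟩
          obtain ⟨V, hVc, hVo, haV, hVO⟩ := exists_compactOpen hO haO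
          have hq : Adm (⋃ m, D m) (g, V) := by
            refine ⟨⟨hVc, hVo⟩, fun z hz => (hVO hz).1.1, fun z hz => (hVO hz).2.1, ?_⟩
            intro z hz hz'
            exact Set.disjoint_left.1 hdis (hVO hz').1.2 (hVO hz).2.2
          apply Relation.EqvGen.rel
          refine ⟨Sum.inr ⟨(g, V), hq⟩, ?_⟩
          change swH (⋃ m, D m) j hj (g, V) hq (E (Sum.inl a)) = E (Sum.inl b)
          rw [hEl, hEl, swH_apply]
          congr 1
          apply Subtype.ext
          rw [sw_of_mem _ _ hq a haV]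
          exact hg
      · rename_i a b
        obtain ⟨i, rfl⟩ := hγ g
        apply Relation.EqvGen.rel
        refine ⟨Sum.inl i, ?_⟩
        change T1 i (E (Sum.inr a)) = E (Sum.inr b)
        rw [hEr, hEr, hT1, Equiv.symm_apply_apply, ← hg]
        rfl
  exact CAct.congr E (fun x x' => by
    change R0 x x' ↔ R0 (E.symm (E x)) (E.symm (E x'))
    rw [MeasurableEquiv.symm_apply_apply, MeasurableEquiv.symm_apply_apply]) hact

end main

end KK

theorem t_K (h : S_GLUE) : S_K := by
  intro Γ Z _ _ _ _ _ _ _ _ _ _ _ D N lab c hB hD W _ _ _ _ _ _ γ p π hγ happ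
  have h1 : ∀ m, CompactSpace (D m) := fun m => isCompact_iff_compactSpace.1 (hB m).compact
  have h2 : ∀ m, MetrizableSpace (D m) := fun m => metrizableSpace_of_t3_secondCountable _
  obtain ⟨τ, hc, hm, ho, hcl, hcrit⟩ := h (fun m => (D m : Set Z)) W
    (fun m z => p m (lab m z)) (fun m => continuous_of_discreteTopology.comp
      ((hB m).lab_cont).domRestrict)
  exact @KK.main_K Γ Z _ _ _ _ _ _ _ _ _ _ _ D N lab c hB hD W _ _ _ _ _ γ p π hγ happ
    ((Σ m, D m) ⊕ W) τ hc hm (Equiv.refl _) ho hcl hcrit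

end Pool.Agent.N480.CV
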