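import Mathlib
import Pool.Agent.N480.CV.Stm

set_option autoImplicit false

/-!
CV/MK (helper456): marker lemma for actions with clopen sets of fixed points.
-/

namespace Pool.Agent.N480.CV

namespace MK

open Set Topology
open scoped Pointwise Classical

variable {Γ Z : Type} [Group Γ] [TopologicalSpace Z] [T2Space Z] [LocallyCompactSpace Z]
  [TotallyDisconnectedSpace Z] [MulAction Γ Z] [ContinuousConstSMul Γ Z] {B : Set Z}

/-- finitely many elements give many points in `B` -/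
theorem many (hB : IsCompact B) (hBo : IsOpen B)
    (hinf : ∀ y ∈ B, {z | z ∈ B ∧ ∃ g : Γ, g • y = z}.Infinite) (M : ℕ) :
    ∃ P : Finset Γ, ∀ y ∈ B, ∃ f : Fin M → Γ, (∀ i, f i ∈ P) ∧ (∀ i, f i • y ∈ B) ∧
      Function.Injective fun i => f i • y := by
  refine hB.induction_on (p := fun s => ∃ P : Finset Γ, ∀ y ∈ s, ∃ f : Fin M → Γ,
    (∀ i, f i ∈ P) ∧ (∀ i, f i • y ∈ B) ∧ Function.Injective fun i => f i • y) ?_ ?_ ?_ ?_
  · exact ⟨∅, fun y hy => absurd hy (notMem_empty y)⟩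
  · rintro s t hst ⟨P, hP⟩
    exact ⟨P, fun y hy => hP y (hst hy)⟩
  · rintro s t ⟨P, hP⟩ ⟨Q, hQ⟩
    refine ⟨P ∪ Q, ?_⟩
    rintro y (hy | hy)
    · obtain ⟨f, h1, h2, h3⟩ := hP y hy
      exact ⟨f, fun i => Finset.mem_union_left _ (h1 i), h2, h3⟩
    · obtain ⟨f, h1, h2, h3⟩ := hQ y hy
      exact ⟨f, fun i => Finset.mem_union_right _ (h1 i), h2, h3⟩
  · intro y hy
    have : Infinite {z | z ∈ B ∧ ∃ g : Γ, g • y = z} := (hinf y hy).to_subtype
    let e : Fin M ↪ {z | z ∈ B ∧ ∃ g : Γ, g • y = z} :=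
      (Fin.valEmbedding).trans (Infinite.natEmbedding _)
    have hg : ∀ i, ∃ g : Γ, g • y = (e i : Z) := fun i => (e i).2.2
    choose f hf using hg
    refine ⟨{z | (∀ i, f i • z ∈ B) ∧ ∀ i j, i ≠ j → f i • z ≠ f j • z}, ?_,
      Finset.univ.image f, ?_⟩
    · apply mem_nhdsWithin_of_mem_nhds
      apply IsOpen.mem_nhds
      · have e1 : {z : Z | (∀ i, f i • z ∈ B) ∧ ∀ i j, i ≠ j → f i • z ≠ f j • z} =
            (⋂ i, (fun z => f i • z) ⁻¹' B) ∩
              ⋂ i, ⋂ j, ⋂ (_ : i ≠ j), {z | f i • z ≠ f j • z} := by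
          ext z
          simp only [mem_setOf_eq, mem_inter_iff, mem_iInter, mem_preimage]
        rw [e1]
        apply IsOpen.inter
        · exact isOpen_iInter_of_finite fun i => hBo.preimage (continuous_const_smul (f i))
        · refine isOpen_iInter_of_finite fun i => isOpen_iInter_of_finite fun j =>
            isOpen_iInter_of_finite fun _ => ?_
          exact isOpen_ne_fun (continuous_const_smul (f i)) (continuous_const_smul (f j))
      · refine ⟨fun i => ?_, fun i j hij h => ?_⟩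
        · rw [hf]
          exact (e i).2.1
        · rw [hf, hf] at h
          exact hij (e.injective (Subtype.ext h))
    · intro z hz
      refine ⟨f, fun i => Finset.mem_image_of_mem _ (Finset.mem_univ _), hz.1, ?_⟩
      intro i j hij
      by_contra hne
      exact hz.2 i j hne hij

/-- small neighbourhoods -/
theorem small (hfix : ∀ g : Γ, IsOpen {z : Z | g • z = z}) (hB : IsCompact B) (hBo : IsOpen B)
    (Ψ : Finset Γ) (y : Z) (hy : y ∈ B) : ∃ U : Set Z, IsCompact U ∧ IsOpen U ∧ y ∈ U ∧ U ⊆ B ∧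
      ∀ g ∈ Ψ, (∀ z ∈ U, g • z = z) ∨ ∀ z ∈ U, g • z ∉ U := by
  have h1 : ∀ g : Γ, ∃ V : Set Z, IsOpen V ∧ y ∈ V ∧
      ((∀ z ∈ V, g • z = z) ∨ ∀ z ∈ V, g • z ∉ V) := by
    intro g
    by_cases hg : g • y = y
    · exact ⟨_, hfix g, hg, Or.inl fun z hz => hz⟩
    · obtain ⟨O1, O2, ho1, ho2, hy1, hy2, hd⟩ := t2_separation hg
      refine ⟨O2 ∩ (fun z => g • z) ⁻¹' O1, ho2.inter (ho1.preimage (continuous_const_smul g)),
        ⟨hy2, hy1⟩, Or.inr fun z hz hz' => ?_⟩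
      exact (disjoint_left.1 hd) hz.2 hz'.1
  choose V hVo hVy hV using h1
  have h2 : IsOpen (B ∩ ⋂ g ∈ Ψ, V g) :=
    hBo.inter (isOpen_biInter_finset fun g _ => hVo g)
  have h3 : y ∈ B ∩ ⋂ g ∈ Ψ, V g := ⟨hy, mem_iInter₂.2 fun g _ => hVy g⟩
  obtain ⟨U, hU, hyU, hUV⟩ :=
    (loc_compact_Haus_tot_disc_of_zero_dim (H := Z)).exists_subset_of_mem_open h3 h2
  have hUB : U ⊆ B := fun z hz => (hUV hz).1
  refine ⟨U, hB.of_isClosed_subset hU.1 hUB, hU.2, hyU, hUB, fun g hg => ?_⟩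
  have hUg : U ⊆ V g := fun z hz => mem_iInter₂.1 (hUV hz).2 g hg
  rcases hV g with h | h
  · exact Or.inl fun z hz => h z (hUg hz)
  · exact Or.inr fun z hz hz' => h z (hUg hz) (hUg hz')

/-- the greedy construction -/
theorem greedy (hfix : ∀ g : Γ, IsOpen {z : Z | g • z = z}) (hB : IsCompact B) (hBo : IsOpen B)
    (Ψ : Finset Γ) (h1 : (1 : Γ) ∈ Ψ) (hinv : ∀ g ∈ Ψ, g⁻¹ ∈ Ψ) :
    ∃ B' : Set Z, IsCompact B' ∧ IsOpen B' ∧ B' ⊆ B ∧
      (∀ b ∈ B', ∀ g ∈ Ψ, g • b ∈ B' → g • b = b) ∧ ∀ y ∈ B, ∃ g ∈ Ψ, g • y ∈ B' := by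
  have key : ∀ B₀ : Set Z, IsCompact B₀ → IsOpen B₀ → B₀ ⊆ B →
      (∀ b ∈ B₀, ∀ g ∈ Ψ, g • b ∈ B₀ → g • b = b) → ∃ B' : Set Z, IsCompact B' ∧ IsOpen B' ∧
      B' ⊆ B ∧ B₀ ⊆ B' ∧ (∀ b ∈ B', ∀ g ∈ Ψ, g • b ∈ B' → g • b = b) ∧
      ∀ y ∈ B, ∃ g ∈ Ψ, g • y ∈ B' := by
    refine hB.induction_on (p := fun s => ∀ B₀ : Set Z, IsCompact B₀ → IsOpen B₀ → B₀ ⊆ B →
      (∀ b ∈ B₀, ∀ g ∈ Ψ, g • b ∈ B₀ → g • b = b) → ∃ B' : Set Z, IsCompact B' ∧ IsOpen B' ∧
      B' ⊆ B ∧ B₀ ⊆ B' ∧ (∀ b ∈ B', ∀ g ∈ Ψ, g • b ∈ B' → g • b = b) ∧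
      ∀ y ∈ s, ∃ g ∈ Ψ, g • y ∈ B') ?_ ?_ ?_ ?_
    · intro B₀ hc ho hs hD
      exact ⟨B₀, hc, ho, hs, Subset.rfl, hD, fun y hy => absurd hy (notMem_empty y)⟩
    · intro s t hst ht B₀ hc ho hs hD
      obtain ⟨B', h2, h3, h4, h5, h6, h7⟩ := ht B₀ hc ho hs hD
      exact ⟨B', h2, h3, h4, h5, h6, fun y hy => h7 y (hst hy)⟩
    · intro s t hs' ht' B₀ hc ho hs hD
      obtain ⟨B1, h2, h3, h4, h5, h6, h7⟩ := hs' B₀ hc ho hs hD
      obtain ⟨B', h2', h3', h4', h5', h6', h7'⟩ := ht' B1 h2 h3 h4 h6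
      refine ⟨B', h2', h3', h4', h5.trans h5', h6', ?_⟩
      rintro y (hy | hy)
      · obtain ⟨g, hg, hgy⟩ := h7 y hy
        exact ⟨g, hg, h5' hgy⟩
      · exact h7' y hy
    · intro y hy
      obtain ⟨U, hUc, hUo, hyU, hUB, hU⟩ := small hfix hB hBo Ψ y hy
      refine ⟨U, mem_nhdsWithin_of_mem_nhds (hUo.mem_nhds hyU), ?_⟩
      intro B₀ hc ho hs hD
      set W : Set Z := U ∩ ⋂ g ∈ Ψ, (fun z => g • z) ⁻¹' B₀ᶜ with hW
      have hWo : IsOpen W := hUo.inter (isOpen_biInter_finset fun g _ =>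
        hc.isClosed.isOpen_compl.preimage (continuous_const_smul g))
      have hWc : IsCompact W := hUc.inter_right (isClosed_biInter fun g _ =>
        ho.isClosed_compl.preimage (continuous_const_smul g))
      have hWm : ∀ z, z ∈ W → ∀ g ∈ Ψ, g • z ∉ B₀ := fun z hz g hg =>
        mem_iInter₂.1 hz.2 g hg
      refine ⟨B₀ ∪ W, hc.union hWc, ho.union hWo,
        union_subset hs (inter_subset_left.trans hUB), subset_union_left, ?_, ?_⟩
      · rintro b (hb | hb) g hg (hgb | hgb)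
        · exact hD b hb g hg hgb
        · have h5 := hWm _ hgb g⁻¹ (hinv g hg)
          rw [inv_smul_smul] at h5
          exact absurd hb h5
        · exact absurd hgb (hWm b hb g hg)
        · rcases hU g hg with h5 | h5
          · exact h5 b hb.1
          · exact absurd hgb.1 (h5 b hb.1)
      · intro z hz
        by_cases hzW : z ∈ W
        · exact ⟨1, h1, by rw [one_smul]; exact Or.inr hzW⟩
        · have h5 : ∃ g ∈ Ψ, g • z ∈ B₀ := by
            by_contra hcon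
            push Not at hcon
            exact hzW ⟨hz, mem_iInter₂.2 fun g hg => hcon g hg⟩
          obtain ⟨g, hg, hgz⟩ := h5
          exact ⟨g, hg, Or.inl hgz⟩
  obtain ⟨B', h2, h3, h4, -, h6, h7⟩ := key ∅ isCompact_empty isOpen_empty (empty_subset _)
    (fun b hb => absurd hb (notMem_empty b))
  exact ⟨B', h2, h3, h4, h6, h7⟩

end MK

open Set Topology
open scoped Pointwise Classical

theorem t_MK : S_MK := by
  intro Γ Z _ _ _ _ _ _ _ _ B hfix hB hBo hinf Φ M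
  obtain ⟨P, hP⟩ := MK.many hB hBo hinf M
  set P₀ : Finset Γ := {1} ∪ (P ∪ P⁻¹) ∪ (Φ ∪ Φ⁻¹) with hP₀
  have hP1 : (1 : Γ) ∈ P₀ := by simp [hP₀]
  have hPi : ∀ g ∈ P₀, g⁻¹ ∈ P₀ := by
    intro g hg
    simp only [hP₀, Finset.mem_union, Finset.mem_singleton, Finset.mem_inv', inv_inv,
      inv_eq_one] at hg ⊢
    tauto
  have hPP : ∀ g ∈ P, g ∈ P₀ := by
    intro g hg
    simp only [hP₀, Finset.mem_union]
    tauto
  have hΦP : ∀ g ∈ Φ, g ∈ P₀ := by
    intro g hg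
    simp only [hP₀, Finset.mem_union]
    tauto
  set Ψ : Finset Γ := P₀ * P₀ with hΨ
  have hΨ1 : (1 : Γ) ∈ Ψ := by
    have := Finset.mul_mem_mul hP1 hP1
    rwa [mul_one] at this
  have hPΨ : ∀ g ∈ P₀, g ∈ Ψ := by
    intro g hg
    have := Finset.mul_mem_mul hg hP1
    rwa [mul_one] at this
  have hΨi : ∀ g ∈ Ψ, g⁻¹ ∈ Ψ := by
    intro g hg
    obtain ⟨a, ha, b, hb, rfl⟩ := Finset.mem_mul.1 hg
    rw [mul_inv_rev]
    exact Finset.mul_mem_mul (hPi b hb) (hPi a ha)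
  obtain ⟨B', hc, ho, hs, hD, hX⟩ := MK.greedy hfix hB hBo Ψ hΨ1 hΨi
  let c : Finset Γ → Γ := fun s => if h : s.Nonempty then h.choose else 1
  have hcm : ∀ s : Finset Γ, s.Nonempty → c s ∈ s := by
    intro s h
    show (if h : s.Nonempty then h.choose else 1) ∈ s
    rw [dif_pos h]
    exact h.choose_spec
  let A : Z → Finset Γ := fun y => P₀.filter fun g => g • y ∈ B'
  let A2 : Z → Finset Γ := fun y => Ψ.filter fun g => g • y ∈ B'
  let sel : Z → Γ := fun y => if (A y).Nonempty then c (A y) else c (A2 y)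
  have hA2 : ∀ y ∈ B, (A2 y).Nonempty := by
    intro y hy
    obtain ⟨g, hg, hgy⟩ := hX y hy
    exact ⟨g, Finset.mem_filter.2 ⟨hg, hgy⟩⟩
  have hsel1 : ∀ y, (A y).Nonempty → sel y ∈ P₀ ∧ sel y • y ∈ B' := by
    intro y hy
    have e1 : sel y = c (A y) := if_pos hy
    rw [e1]
    exact Finset.mem_filter.1 (hcm _ hy)
  have hsel2 : ∀ y ∈ B, sel y ∈ Ψ ∧ sel y • y ∈ B' := by
    intro y hy
    by_cases h : (A y).Nonempty
    · exact ⟨hPΨ _ (hsel1 y h).1, (hsel1 y h).2⟩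
    · have e1 : sel y = c (A2 y) := if_neg h
      rw [e1]
      exact Finset.mem_filter.1 (hcm _ (hA2 y hy))
  refine ⟨B', fun y => sel y • y, Ψ, hc, ho, hs, ?_, ?_, ?_, ?_, ?_⟩
  · apply Continuous.continuousOn
    rw [continuous_iff_continuousAt]
    intro y
    have h1 : ∀ g : Γ, ∀ᶠ z in 𝓝 y, (g • z ∈ B' ↔ g • y ∈ B') := by
      intro g
      by_cases hg : g • y ∈ B'
      · have h2 : ∀ᶠ z in 𝓝 y, g • z ∈ B' :=
          (ho.preimage (continuous_const_smul g)).mem_nhds hg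
        filter_upwards [h2] with z hz
        exact ⟨fun _ => hg, fun _ => hz⟩
      · have h2 : ∀ᶠ z in 𝓝 y, g • z ∈ B'ᶜ :=
          (hc.isClosed.isOpen_compl.preimage (continuous_const_smul g)).mem_nhds hg
        filter_upwards [h2] with z hz
        exact ⟨fun h => absurd h hz, fun h => absurd h hg⟩
    have h2 : ∀ᶠ z in 𝓝 y, ∀ g ∈ (Ψ : Set Γ), (g • z ∈ B' ↔ g • y ∈ B') :=
      (Filter.eventually_all_finite Ψ.finite_toSet).2 fun g _ => h1 g
    have h3 : (fun z => sel z • z) =ᶠ[𝓝 y] fun z => sel y • z := by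
      filter_upwards [h2] with z hz
      have e1 : A z = A y := Finset.filter_congr fun g hg => hz g (hPΨ g hg)
      have e2 : A2 z = A2 y := Finset.filter_congr fun g hg => hz g hg
      have e3 : sel z = sel y := by
        show (if (A z).Nonempty then c (A z) else c (A2 z)) =
          if (A y).Nonempty then c (A y) else c (A2 y)
        rw [e1, e2]
      rw [e3]
    exact (continuous_const_smul (sel y)).continuousAt.congr h3.symm
  · intro y hy
    exact ⟨(hsel2 y hy).2, sel y, (hsel2 y hy).1, rfl⟩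
  · intro y hy
    have h1 : (A y).Nonempty := ⟨1, Finset.mem_filter.2 ⟨hP1, by rw [one_smul]; exact hy⟩⟩
    obtain ⟨h2, h3⟩ := hsel1 y h1
    exact hD y hy _ (hPΨ _ h2) h3
  · intro b hb
    obtain ⟨f, hf1, hf2, hf3⟩ := hP b (hs hb)
    have hfin : Finite {y | y ∈ B ∧ sel y • y = b} := by
      have h1 : {y | y ∈ B ∧ sel y • y = b} ⊆ (fun g : Γ => g⁻¹ • b) '' (Ψ : Set Γ) := by
        rintro y ⟨hy, hyb⟩
        exact ⟨sel y, (hsel2 y hy).1, by simp only; rw [← hyb, inv_smul_smul]⟩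
      exact ((Ψ.finite_toSet.image _).subset h1).to_subtype
    have h2 : ∀ i, sel (f i • b) • (f i • b) = b := by
      intro i
      have h3 : (A (f i • b)).Nonempty :=
        ⟨(f i)⁻¹, Finset.mem_filter.2 ⟨hPi _ (hPP _ (hf1 i)), by
          rw [inv_smul_smul]
          exact hb⟩⟩
      obtain ⟨h4, h5⟩ := hsel1 _ h3
      rw [smul_smul] at h5 ⊢
      exact hD b hb _ (Finset.mul_mem_mul h4 (hPP _ (hf1 i))) h5
    have h3 := Nat.card_le_card_of_injective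
      (fun i : Fin M => (⟨f i • b, hf2 i, h2 i⟩ : {y | y ∈ B ∧ sel y • y = b}))
      (fun i j hij => hf3 (Subtype.ext_iff.1 hij))
    rw [Nat.card_fin, Nat.card_coe_set_eq] at h3
    exact h3
  · intro b hb g hg hgb
    exact hD b hb g (hPΨ g (hΦP g hg)) hgb

end Pool.Agent.N480.CV
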