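import Pool.Agent.N480.CV.Stm

/-!
# Project CV, part NS (helper650): a continuous action with infinite orbits on a nonempty compact
metrizable space is not smooth
-/

set_option autoImplicit false

namespace Pool.Agent.N480.CV

open Set MeasureTheory TopologicalSpace Filter
open scoped Topology

namespace NS

/-- generic ergodicity -/
theorem gen_erg {Γ Y : Type} [Countable Γ] [TopologicalSpace Y] [MeasurableSpace Y] [BorelSpace Y]
    (φ : Γ → Y ≃ₜ Y) (hd : ∀ U : Set Y, IsOpen U → U.Nonempty → ∀ y, ∃ g, φ g y ∈ U) (A : Set Y)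
    (hA : MeasurableSet A) (hinv : ∀ g y, φ g y ∈ A ↔ y ∈ A) :
    A ∈ residual Y ∨ Aᶜ ∈ residual Y := by
  obtain ⟨U, hU, hAU⟩ := hA.residualEq_isOpen
  rcases U.eq_empty_or_nonempty with h0 | h0
  · right
    filter_upwards [hAU] with x hx hxA
    have h1 : U x := by
      rw [← hx]
      exact hxA
    rw [h0] at h1
    exact h1
  · left
    have h1 : ∀ g : Γ, ∀ᶠ x in residual Y, A (φ g x) = U (φ g x) := fun g =>
      (tendsto_residual_of_isOpenMap (φ g).continuous (φ g).isOpenMap).eventually hAU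
    have h2 : ∀ᶠ x in residual Y, ∀ g : Γ, A (φ g x) = U (φ g x) :=
      eventually_countable_forall.2 h1
    filter_upwards [h2] with x hx
    obtain ⟨g, hg⟩ := hd U hU h0 x
    have h3 : φ g x ∈ A := by
      show A (φ g x)
      rw [hx g]
      exact hg
    exact (hinv g x).1 h3

/-- the contradiction for a system with dense orbits and without isolated points -/
theorem no_f {Γ Y : Type} [Countable Γ] [TopologicalSpace Y] [BaireSpace Y] [T1Space Y] [Nonempty Y]
    [MeasurableSpace Y] [BorelSpace Y] (φ : Γ → Y ≃ₜ Y)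
    (hd : ∀ U : Set Y, IsOpen U → U.Nonempty → ∀ y, ∃ g, φ g y ∈ U) (hi : ∀ y : Y, ¬ IsOpen {y})
    (f : Y → ℝ) (hf : Measurable f) (h1 : ∀ g y, f (φ g y) = f y)
    (h2 : ∀ x y, f x = f y → ∃ g, φ g x = y) : False := by
  classical
  obtain ⟨A, hA⟩ : ∃ A : ℚ → Set Y, A = fun q : ℚ => {y | f y < (q : ℝ)} := ⟨_, rfl⟩
  have hAr : ∀ q, A q ∈ residual Y ∨ (A q)ᶜ ∈ residual Y := by
    intro q
    apply gen_erg φ hd
    · rw [hA]
      exact measurableSet_lt hf measurable_const
    · intro g y
      rw [hA]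
      show f (φ g y) < q ↔ f y < q
      rw [h1]
  have hR : ∀ᶠ y in residual Y, ∀ q : ℚ, (y ∈ A q ↔ A q ∈ residual Y) := by
    apply eventually_countable_forall.2
    intro q
    by_cases hq : A q ∈ residual Y
    · filter_upwards [hq] with y hy
      exact ⟨fun _ => hq, fun _ => hy⟩
    · filter_upwards [(hAr q).resolve_left hq] with y hy
      exact ⟨fun h => absurd h hy, fun h => absurd h hq⟩
  have hne : (residual Y).NeBot := by
    rw [Filter.neBot_iff]
    intro hbot
    have h3 : (∅ : Set Y) ∈ residual Y := by rw [hbot]; exact mem_bot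
    have h4 := dense_of_mem_residual h3
    obtain ⟨y⟩ := (inferInstance : Nonempty Y)
    have h5 := h4 y
    rw [closure_empty] at h5
    exact h5
  obtain ⟨x, hx⟩ := hR.exists
  -- the generic points lie in one orbit
  have horb : ∀ᶠ y in residual Y, ∃ g, φ g x = y := by
    filter_upwards [hR] with y hy
    apply h2
    apply le_antisymm
    · by_contra hcon
      obtain ⟨q, hq1, hq2⟩ := exists_rat_btwn (not_le.1 hcon)
      have h3 : y ∈ A q := by rw [hA]; exact hq1
      have h4 : x ∈ A q := (hx q).2 ((hy q).1 h3)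
      rw [hA] at h4
      exact lt_asymm h4 hq2
    · by_contra hcon
      obtain ⟨q, hq1, hq2⟩ := exists_rat_btwn (not_le.1 hcon)
      have h3 : x ∈ A q := by rw [hA]; exact hq1
      have h4 : y ∈ A q := (hy q).2 ((hx q).1 h3)
      rw [hA] at h4
      exact lt_asymm h4 hq2
  have hno : ∀ᶠ y in residual Y, ∀ g, y ≠ φ g x := by
    apply eventually_countable_forall.2
    intro g
    have h3 : IsOpen ({φ g x}ᶜ : Set Y) := isOpen_compl_singleton
    have h4 : Dense ({φ g x}ᶜ : Set Y) := by
      rw [← interior_eq_empty_iff_dense_compl]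
      by_contra hcon
      obtain ⟨y, hy⟩ := nonempty_iff_ne_empty.2 hcon
      have h5 : y = φ g x := mem_singleton_iff.1 (interior_subset hy)
      apply hi (φ g x)
      have h6 : interior {φ g x} = {φ g x} := by
        apply subset_antisymm interior_subset
        rw [singleton_subset_iff]
        rw [h5] at hy
        exact hy
      rw [← h6]
      exact isOpen_interior
    have h5 := residual_of_dense_open h3 h4
    filter_upwards [h5] with y hy h6
    exact hy h6
  obtain ⟨y, ⟨g, hg⟩, hy⟩ := (horb.and hno).exists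
  exact hy g hg.symm

/-- minimal closed invariant sets -/
theorem exists_min {Γ W : Type} [Group Γ] [TopologicalSpace W] [CompactSpace W] [Nonempty W]
    [MulAction Γ W] : ∃ M : Set W, (IsClosed M ∧ M.Nonempty ∧ ∀ (g : Γ), ∀ x ∈ M, g • x ∈ M) ∧
      ∀ N : Set W, IsClosed N → N.Nonempty → (∀ (g : Γ), ∀ x ∈ N, g • x ∈ N) → N ⊆ M → N = M := by
  obtain ⟨M, hM⟩ := zorn_superset
    {M : Set W | IsClosed M ∧ M.Nonempty ∧ ∀ (g : Γ), ∀ x ∈ M, g • x ∈ M} (by
    intro c hc hch
    rcases c.eq_empty_or_nonempty with h0 | h0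
    · exact ⟨univ, ⟨isClosed_univ, univ_nonempty, fun _ _ _ => mem_univ _⟩, by rw [h0]; simp⟩
    · refine ⟨⋂₀ c, ⟨isClosed_sInter fun s hs => (hc hs).1, ?_, ?_⟩, fun s hs => sInter_subset_of_mem hs⟩
      · have : Nonempty c := h0.to_subtype
        apply IsCompact.nonempty_sInter_of_directed_nonempty_isCompact_isClosed
        · intro a ha b hb
          rcases hch.total ha hb with h | h
          · exact ⟨a, ha, subset_rfl, h⟩
          · exact ⟨b, hb, h, subset_rfl⟩
        · exact fun s hs => (hc hs).2.1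
        · exact fun s hs => (hc hs).1.isCompact
        · exact fun s hs => (hc hs).1
      · intro g x hx s hs
        exact (hc hs).2.2 g x (hx s hs))
  refine ⟨M, hM.prop, ?_⟩
  intro N h1 h2 h3 h4
  exact subset_antisymm h4 (hM.le_of_le ⟨h1, h2, h3⟩ h4)

end NS

open NS in
theorem t_NS : S_NS := by
  intro Γ W _ _ _ _ _ _ _ _ _ _ hinf
  rintro ⟨f, hf, hfo⟩
  obtain ⟨M, ⟨hMc, hMn, hMi⟩, hmin⟩ := exists_min (Γ := Γ) (W := W)
  have : Nonempty M := hMn.to_subtype
  have : CompactSpace M := isCompact_iff_compactSpace.1 hMc.isCompact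
  obtain ⟨φ, hφ⟩ : ∃ φ : Γ → M ≃ₜ M, ∀ g x, ((φ g x : M) : W) = g • (x : W) :=
    ⟨fun g =>
      { toFun := fun x => ⟨g • x.1, hMi g x.1 x.2⟩
        invFun := fun x => ⟨g⁻¹ • x.1, hMi g⁻¹ x.1 x.2⟩
        left_inv := fun x => Subtype.ext (inv_smul_smul g x.1)
        right_inv := fun x => Subtype.ext (smul_inv_smul g x.1)
        continuous_toFun := (continuous_subtype_val.const_smul g).subtype_mk _
        continuous_invFun := (continuous_subtype_val.const_smul g⁻¹).subtype_mk _ },
      fun g x => rfl⟩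
  -- orbits are dense
  have hd : ∀ U : Set M, IsOpen U → U.Nonempty → ∀ y, ∃ g, φ g y ∈ U := by
    intro U hU hUn y
    obtain ⟨V, hV, rfl⟩ := isOpen_induced_iff.1 hU
    by_contra hcon
    push Not at hcon
    obtain ⟨N, hN⟩ : ∃ N : Set W, N = {x | x ∈ M ∧ ∀ g : Γ, g • x ∉ V} := ⟨_, rfl⟩
    have hNc : IsClosed N := by
      have e : N = M ∩ ⋂ g : Γ, {x | g • x ∈ Vᶜ} := by
        rw [hN]
        ext x
        simp only [Set.mem_ofPred_eq, mem_inter_iff, mem_iInter, mem_compl_iff]
      rw [e]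
      refine hMc.inter (isClosed_iInter fun g => ?_)
      exact hV.isClosed_compl.preimage (continuous_const_smul g)
    have hNy : (y : W) ∈ N := by
      rw [hN]
      refine ⟨y.2, fun g hg => hcon g ?_⟩
      show ((φ g y : M) : W) ∈ V
      rw [hφ]
      exact hg
    have hNi : ∀ (g : Γ), ∀ x ∈ N, g • x ∈ N := by
      intro g x hx
      rw [hN] at hx ⊢
      refine ⟨hMi g x hx.1, fun g' hg' => hx.2 (g' * g) ?_⟩
      rw [mul_smul]
      exact hg'
    have hNM := hmin N hNc ⟨_, hNy⟩ hNi (by rw [hN]; exact fun x hx => hx.1)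
    obtain ⟨u, hu⟩ := hUn
    have h1 : (u : W) ∈ N := by rw [hNM]; exact u.2
    rw [hN] at h1
    have h2 := h1.2 1
    rw [one_smul] at h2
    exact h2 hu
  -- no isolated points
  have hi : ∀ y : M, ¬ IsOpen {y} := by
    intro y hy
    have hcov : ∀ x : M, ∃ g, φ g y = x := by
      intro x
      obtain ⟨g, hg⟩ := hd _ hy (singleton_nonempty y) x
      rw [mem_singleton_iff] at hg
      refine ⟨g⁻¹, Subtype.ext ?_⟩
      rw [hφ, ← hg, hφ, inv_smul_smul]
    have hopen : ∀ x : M, IsOpen {x} := by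
      intro x
      obtain ⟨g, hg⟩ := hcov x
      have h1 := (φ g).isOpenMap _ hy
      rw [image_singleton, hg] at h1
      exact h1
    have : DiscreteTopology M := discreteTopology_iff_isOpen_singleton.2 hopen
    have hfin : Finite M := finite_of_compact_of_discrete
    have h2 : {v | ∃ g : Γ, g • (y : W) = v} ⊆ M := by
      rintro v ⟨g, rfl⟩
      exact hMi g y y.2
    exact hinf y ((toFinite M).subset h2)
  refine no_f φ hd hi (fun x => f x) (hf.comp measurable_subtype_coe) ?_ ?_
  · intro g y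
    show f (φ g y : M) = f y
    rw [hφ]
    exact ((hfo y (g • (y : W))).1 ⟨g, rfl⟩).symm
  · intro x y hxy
    obtain ⟨g, hg⟩ := (hfo x y).2 hxy
    exact ⟨g, Subtype.ext (by rw [hφ]; exact hg)⟩

end Pool.Agent.N480.CV
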