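import Pool.Agent.N480.CV.Stm

set_option autoImplicit false

/-!
# CV/SB: the theorem of Cantor and Bernstein for invariant Borel embeddings of relations
-/

namespace Pool.Agent.N480.CV

open Set MeasureTheory TopologicalSpace

namespace SB

section

variable {X Y : Type} {E : X → X → Prop} {F : Y → Y → Prop} {f : X → Y} {g : Y → X}

/-- the sets `(g f)^n (X \ g(Y))` -/
def An (f : X → Y) (g : Y → X) : ℕ → Set X
  | 0 => (range g)ᶜ
  | n + 1 => g '' (f '' An f g n)

/-- their union -/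
def AA (f : X → Y) (g : Y → X) : Set X := ⋃ n, An f g n

theorem An_inv (hE : Equivalence E) (hf : ∀ a b, E a b ↔ F (f a) (f b))
    (hfi : ∀ a y, F (f a) y → ∃ b, f b = y) (hg : ∀ a b, F a b ↔ E (g a) (g b))
    (hgi : ∀ a y, E (g a) y → ∃ b, g b = y) (n : ℕ) :
    ∀ a b, a ∈ An f g n → E a b → b ∈ An f g n := by
  induction n with
  | zero =>
    rintro a b ha hab ⟨y, rfl⟩
    exact ha (hgi y a (hE.symm hab))
  | succ n ih =>
    rintro a b ⟨_, ⟨a', ha', rfl⟩, rfl⟩ hab
    obtain ⟨y, rfl⟩ := hgi _ _ hab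
    have h1 := (hg _ _).2 hab
    obtain ⟨b', rfl⟩ := hfi _ _ h1
    exact ⟨_, ⟨b', ih a' b' ha' ((hf _ _).2 h1), rfl⟩, rfl⟩

theorem AA_inv (hE : Equivalence E) (hf : ∀ a b, E a b ↔ F (f a) (f b))
    (hfi : ∀ a y, F (f a) y → ∃ b, f b = y) (hg : ∀ a b, F a b ↔ E (g a) (g b))
    (hgi : ∀ a y, E (g a) y → ∃ b, g b = y) {a b : X} (ha : a ∈ AA f g) (hab : E a b) :
    b ∈ AA f g := by
  obtain ⟨n, hn⟩ := mem_iUnion.1 ha
  exact mem_iUnion.2 ⟨n, An_inv hE hf hfi hg hgi n a b hn hab⟩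

theorem gf_mem {a : X} (ha : a ∈ AA f g) : g (f a) ∈ AA f g := by
  obtain ⟨n, hn⟩ := mem_iUnion.1 ha
  exact mem_iUnion.2 ⟨n + 1, _, ⟨a, hn, rfl⟩, rfl⟩

theorem exists_pre {a : X} (ha : a ∉ AA f g) : ∃ y, g y = a := by
  by_contra h
  exact ha (mem_iUnion.2 ⟨0, h⟩)

theorem of_mem (hg : Function.Injective g) {y : Y} (hy : g y ∈ AA f g) :
    ∃ a ∈ AA f g, f a = y := by
  obtain ⟨n, hn⟩ := mem_iUnion.1 hy
  cases n with
  | zero => exact absurd ⟨y, rfl⟩ hn
  | succ n =>
    obtain ⟨_, ⟨a, ha, rfl⟩, h⟩ := hn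
    exact ⟨a, mem_iUnion.2 ⟨n, ha⟩, hg h⟩

end

end SB

open SB in
theorem t_SB : S_SB := by
  classical
  intro X Y _ _ _ _ E F hE hF ⟨f, hfm, hfinj, hf, hfi⟩ ⟨g, hgm, hginj, hg, hgi⟩
  have ef := hfm.measurableEmbedding hfinj
  have eg := hgm.measurableEmbedding hginj
  have hAm : MeasurableSet (AA f g) := by
    refine MeasurableSet.iUnion fun n => ?_
    induction n with
    | zero => exact eg.measurableSet_range.compl
    | succ n ih => exact eg.measurableSet_image' (ef.measurableSet_image' ih)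
  have hex : ∀ x, ∃ y, (x ∈ AA f g ∧ y = f x) ∨ (x ∉ AA f g ∧ g y = x) := by
    intro x
    by_cases hx : x ∈ AA f g
    · exact ⟨f x, Or.inl ⟨hx, rfl⟩⟩
    · obtain ⟨y, hy⟩ := exists_pre hx
      exact ⟨y, Or.inr ⟨hx, hy⟩⟩
  choose h hh using hex
  have h1 : ∀ x, x ∈ AA f g → h x = f x := fun x hx => by
    rcases hh x with h | h
    · exact h.2
    · exact absurd hx h.1
  have h2 : ∀ x, x ∉ AA f g → g (h x) = x := fun x hx => by
    rcases hh x with h | h
    · exact absurd h.1 hx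
    · exact h.2
  have hinj : Function.Injective h := by
    intro a b hab
    by_cases ha : a ∈ AA f g <;> by_cases hb : b ∈ AA f g
    · rw [h1 a ha, h1 b hb] at hab
      exact hfinj hab
    · exfalso
      apply hb
      rw [← h2 b hb, ← hab, h1 a ha]
      exact gf_mem ha
    · exfalso
      apply ha
      rw [← h2 a ha, hab, h1 b hb]
      exact gf_mem hb
    · rw [← h2 a ha, ← h2 b hb, hab]
  have hsurj : Function.Surjective h := by
    intro y
    by_cases hy : g y ∈ AA f g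
    · obtain ⟨a, ha, hay⟩ := of_mem hginj hy
      exact ⟨a, by rw [h1 a ha, hay]⟩
    · exact ⟨g y, hginj (h2 _ hy)⟩
  have hmeas : Measurable h := by
    intro S hS
    have h3 : h ⁻¹' S = (AA f g ∩ f ⁻¹' S) ∪ ((AA f g)ᶜ ∩ g '' S) := by
      ext x
      constructor
      · intro hx
        by_cases ha : x ∈ AA f g
        · refine Or.inl ⟨ha, ?_⟩
          show f x ∈ S
          rw [← h1 x ha]
          exact hx
        · exact Or.inr ⟨ha, h x, hx, h2 x ha⟩
      · rintro (⟨ha, hx⟩ | ⟨ha, y, hy, hyx⟩)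
        · show h x ∈ S
          rw [h1 x ha]
          exact hx
        · show h x ∈ S
          have h4 : h x = y := hginj (by rw [h2 x ha, hyx])
          rw [h4]
          exact hy
    rw [h3]
    exact (hAm.inter (hfm hS)).union (hAm.compl.inter (eg.measurableSet_image' hS))
  have eh := hmeas.measurableEmbedding hinj
  refine ⟨⟨Equiv.ofBijective h ⟨hinj, hsurj⟩, hmeas, ?_⟩, ?_⟩
  · intro S hS
    have h3 : (Equiv.ofBijective h ⟨hinj, hsurj⟩).symm ⁻¹' S = h '' S := by
      rw [← Equiv.image_eq_preimage_symm]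
      rfl
    rw [h3]
    exact eh.measurableSet_image' hS
  · intro a b
    show E a b ↔ F (h a) (h b)
    have hmix : ∀ a b, a ∈ AA f g → b ∉ AA f g → ¬ F (h a) (h b) := by
      intro a b ha hb hab
      rw [h1 a ha] at hab
      obtain ⟨b', hb'⟩ := hfi _ _ hab
      rw [← hb'] at hab
      have h3 := AA_inv hE hf hfi hg hgi ha ((hf _ _).2 hab)
      apply hb
      rw [← h2 b hb, ← hb']
      exact gf_mem h3
    by_cases ha : a ∈ AA f g <;> by_cases hb : b ∈ AA f g
    · rw [h1 a ha, h1 b hb]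
      exact hf a b
    · exact ⟨fun hab => absurd (AA_inv hE hf hfi hg hgi ha hab) hb,
        fun hab => absurd hab (hmix a b ha hb)⟩
    · exact ⟨fun hab => absurd (AA_inv hE hf hfi hg hgi hb (hE.symm hab)) ha,
        fun hab => absurd (hF.symm hab) (hmix b a hb ha)⟩
    · have h3 := hg (h a) (h b)
      rw [h2 a ha, h2 b hb] at h3
      exact h3.symm

end Pool.Agent.N480.CV
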