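import Pool.Agent.N480.CV.Stm

/-!
# Project CV (helper480): a compact free system approximated by finite permutations

The group acts on the functions on the cosets of all its cyclic subgroups with values in the circle, by
translations composed with a cocycle with torsion values.
-/

set_option autoImplicit false

namespace Pool.Agent.N480.CV

namespace WW

open TopologicalSpace

/-- the circle -/
abbrev TT : Type := AddCircle (1 : ℝ)

/-! ### Characters of the cyclic subgroups -/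

theorem exists_char {Γ : Type} [Group Γ] (c : Γ) : ∃ X : Γ → TT,
    (∀ z ∈ Subgroup.zpowers c, ∀ z' ∈ Subgroup.zpowers c, X (z * z') = X z + X z') ∧
    (c ≠ 1 → X c ≠ 0) ∧ (∀ z ∈ Subgroup.zpowers c, ∃ n : ℕ, 0 < n ∧ n • X z = 0) := by
  classical
  obtain ⟨q, hq0, hq1, hq2⟩ : ∃ q : ℕ, 0 < q ∧ q ∣ orderOf c ∧ (c ≠ 1 → q ≠ 1) := by
    by_cases h : orderOf c = 0
    · exact ⟨2, by norm_num, by rw [h]; exact dvd_zero 2, fun _ => by norm_num⟩
    · exact ⟨orderOf c, Nat.pos_of_ne_zero h, dvd_rfl, fun h1 h2 => h1 (orderOf_eq_one_iff.1 h2)⟩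
  obtain ⟨a, ha⟩ : ∃ a : TT, addOrderOf a = q := ⟨_, AddCircle.addOrderOf_period_div (p := 1) hq0⟩
  have hch : ∀ z : Γ, z ∈ Subgroup.zpowers c → ∃ k : ℤ, c ^ k = z :=
    fun z hz => Subgroup.mem_zpowers_iff.1 hz
  choose! K hK using hch
  have key : ∀ k k' : ℤ, c ^ k = c ^ k' → k • a = k' • a := by
    intro k k' h
    rw [zpow_eq_zpow_iff_modEq] at h
    have h1 : ((orderOf c : ℕ) : ℤ) ∣ k' - k := h.dvd
    have h2 : ((q : ℕ) : ℤ) ∣ k' - k := (Int.natCast_dvd_natCast.2 hq1).trans h1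
    obtain ⟨t, ht⟩ := h2
    have h3 : (k' - k) • a = 0 := by
      rw [ht, mul_comm, mul_smul, natCast_zsmul, ← ha, addOrderOf_nsmul_eq_zero, smul_zero]
    rw [sub_smul, sub_eq_zero] at h3
    exact h3.symm
  refine ⟨fun z => K z • a, ?_, ?_, ?_⟩
  · intro z hz z' hz'
    show K (z * z') • a = K z • a + K z' • a
    rw [← add_smul]
    apply key
    rw [hK _ (mul_mem hz hz'), zpow_add, hK _ hz, hK _ hz']
  · intro hc h0
    have hcm := Subgroup.mem_zpowers c
    have h1 : K c • a = (1 : ℤ) • a := key _ _ (by rw [hK _ hcm, zpow_one])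
    have h2 : K c • a = 0 := h0
    rw [h1, one_smul] at h2
    apply hq2 hc
    rw [← ha, h2, addOrderOf_zero]
  · intro z _
    refine ⟨q, hq0, ?_⟩
    show q • (K z • a) = 0
    rw [smul_comm, ← ha, addOrderOf_nsmul_eq_zero, smul_zero]

/-- the characters -/
noncomputable def Xc {Γ : Type} [Group Γ] (c : Γ) : Γ → TT := (exists_char c).choose

section

variable {Γ : Type} [Group Γ]

theorem Xc_mul (c : Γ) {z z' : Γ} (h : z ∈ Subgroup.zpowers c) (h' : z' ∈ Subgroup.zpowers c) :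
    Xc c (z * z') = Xc c z + Xc c z' := (exists_char c).choose_spec.1 z h z' h'

theorem Xc_ne {c : Γ} (h : c ≠ 1) : Xc c c ≠ 0 := (exists_char c).choose_spec.2.1 h

theorem Xc_tor (c : Γ) {z : Γ} (h : z ∈ Subgroup.zpowers c) : ∃ n : ℕ, 0 < n ∧ n • Xc c z = 0 :=
  (exists_char c).choose_spec.2.2 z h

theorem Xc_one (c : Γ) : Xc c 1 = 0 := by
  have h := Xc_mul c (one_mem (Subgroup.zpowers c)) (one_mem _)
  rw [mul_one] at h
  exact left_eq_add.1 h

/-! ### Cosets and the cocycle -/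

variable (Γ) in
/-- the cosets of the cyclic subgroups -/
abbrev Cs : Type := Σ c : Γ, Γ ⧸ Subgroup.zpowers c

/-- translation -/
def mv (g : Γ) (x : Cs Γ) : Cs Γ := ⟨x.1, g • x.2⟩

theorem mv_mv (g h : Γ) (x : Cs Γ) : mv g (mv h x) = mv (g * h) x := by
  unfold mv
  rw [mul_smul]

theorem mv_one (x : Cs Γ) : mv 1 x = x := by
  unfold mv
  rw [one_smul]

/-- the element -/
noncomputable def el (g : Γ) (x : Cs Γ) : Γ :=
  (Quotient.out (mv g⁻¹ x).2)⁻¹ * (g⁻¹ * Quotient.out x.2)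

theorem el_mem (g : Γ) (x : Cs Γ) : el g x ∈ Subgroup.zpowers x.1 := by
  unfold el
  have h1 : ((Quotient.out (mv g⁻¹ x).2 : Γ) : Γ ⧸ Subgroup.zpowers x.1) =
      ((g⁻¹ * Quotient.out x.2 : Γ) : Γ ⧸ Subgroup.zpowers x.1) := by
    have e1 : ((Quotient.out (mv g⁻¹ x).2 : Γ) : Γ ⧸ Subgroup.zpowers x.1) = g⁻¹ • x.2 :=
      Quotient.out_eq' _
    have e2 : ((Quotient.out x.2 : Γ) : Γ ⧸ Subgroup.zpowers x.1) = x.2 := Quotient.out_eq' _
    rw [e1]
    conv_lhs => rw [← e2]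
    rfl
  exact QuotientGroup.eq.1 h1

theorem el_mul (g h : Γ) (x : Cs Γ) : el h (mv g⁻¹ x) * el g x = el (g * h) x := by
  unfold el
  rw [mv_mv, ← mul_inv_rev]
  group

theorem el_one (x : Cs Γ) : el 1 x = 1 := by
  unfold el
  rw [inv_one, mv_one, one_mul, inv_mul_cancel]

/-- the cocycle -/
noncomputable def bb (g : Γ) (x : Cs Γ) : TT := Xc x.1 (el g x)

theorem bb_one (x : Cs Γ) : bb 1 x = 0 := by
  unfold bb
  rw [el_one, Xc_one]

theorem bb_mul (g h : Γ) (x : Cs Γ) : bb (g * h) x = bb g x + bb h (mv g⁻¹ x) := by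
  unfold bb
  rw [← el_mul g h x]
  have h1 := Xc_mul x.1 (el_mem h (mv g⁻¹ x)) (el_mem g x)
  rw [add_comm]
  exact h1

theorem bb_tor (g : Γ) (x : Cs Γ) : ∃ n : ℕ, 0 < n ∧ n • bb g x = 0 := Xc_tor x.1 (el_mem g x)

/-! ### The space -/

variable (Γ) in
/-- the space -/
def Wt : Type := Cs Γ → TT

noncomputable instance : TopologicalSpace (Wt Γ) := inferInstanceAs (TopologicalSpace (Cs Γ → TT))

instance : CompactSpace (Wt Γ) := inferInstanceAs (CompactSpace (Cs Γ → TT))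

instance : T2Space (Wt Γ) := inferInstanceAs (T2Space (Cs Γ → TT))

instance : Nonempty (Cs Γ) := ⟨⟨1, ((1 : Γ) : Γ ⧸ Subgroup.zpowers (1 : Γ))⟩⟩

instance [Countable Γ] : Countable (Cs Γ) := by
  have : ∀ c : Γ, Countable (Γ ⧸ Subgroup.zpowers c) := fun c =>
    (QuotientGroup.mk_surjective (s := Subgroup.zpowers c)).countable
  infer_instance

instance [Countable Γ] : SecondCountableTopology (Wt Γ) :=
  inferInstanceAs (SecondCountableTopology (Cs Γ → TT))

instance : Nonempty (Wt Γ) := ⟨fun _ => 0⟩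

noncomputable instance : MulAction Γ (Wt Γ) where
  smul g w := fun x => w (mv g⁻¹ x) + bb g x
  one_smul w := by
    funext x
    show w (mv 1⁻¹ x) + bb 1 x = w x
    rw [inv_one, mv_one, bb_one, add_zero]
  mul_smul g h w := by
    funext x
    show w (mv (g * h)⁻¹ x) + bb (g * h) x = (w (mv h⁻¹ (mv g⁻¹ x)) + bb h (mv g⁻¹ x)) + bb g x
    rw [mv_mv, mul_inv_rev, bb_mul]
    abel

theorem smul_apply' (g : Γ) (w : Wt Γ) (x : Cs Γ) : (g • w) x = w (mv g⁻¹ x) + bb g x := rfl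

instance : ContinuousConstSMul Γ (Wt Γ) where
  continuous_const_smul g := by
    refine continuous_pi fun x => ?_
    exact ((continuous_apply (mv g⁻¹ x)).add continuous_const :
      Continuous fun w : Cs Γ → TT => w (mv g⁻¹ x) + bb g x)

theorem free (g : Γ) (w : Wt Γ) (h : g • w = w) : g = 1 := by
  by_contra hne
  obtain ⟨x, hx⟩ : ∃ x : Cs Γ, x = ⟨g, ((1 : Γ) : Γ ⧸ Subgroup.zpowers g)⟩ := ⟨_, rfl⟩
  have hmv : mv g⁻¹ x = x := by
    rw [hx]
    unfold mv
    have h1 : g⁻¹ • ((1 : Γ) : Γ ⧸ Subgroup.zpowers g) = ((1 : Γ) : Γ ⧸ Subgroup.zpowers g) := by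
      show ((g⁻¹ * 1 : Γ) : Γ ⧸ Subgroup.zpowers g) = ((1 : Γ) : Γ ⧸ Subgroup.zpowers g)
      rw [QuotientGroup.eq]
      simp
    rw [h1]
  have h1 := congrFun h x
  rw [smul_apply', hmv] at h1
  have h2 : bb g x = 0 := by
    have := add_eq_left.1 h1
    exact this
  -- the element is `g⁻¹`
  obtain ⟨o, ho⟩ : ∃ o : Γ, o = Quotient.out x.2 := ⟨_, rfl⟩
  have hel : el g x = o⁻¹ * (g⁻¹ * o) := by
    unfold el
    rw [hmv, ho]
  have hom : o ∈ Subgroup.zpowers g := by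
    have e2 : ((Quotient.out x.2 : Γ) : Γ ⧸ Subgroup.zpowers x.1) = x.2 := Quotient.out_eq' _
    rw [← ho] at e2
    subst hx
    have e3 : ((1 : Γ) : Γ ⧸ Subgroup.zpowers g) = (o : Γ ⧸ Subgroup.zpowers g) := e2.symm
    rw [QuotientGroup.eq, inv_one, one_mul] at e3
    exact e3
  have hel2 : el g x = g⁻¹ := by
    obtain ⟨k, rfl⟩ := Subgroup.mem_zpowers_iff.1 hom
    rw [hel]
    group
  have hx1 : x.1 = g := by rw [hx]
  unfold bb at h2
  rw [hel2, hx1] at h2
  have h3 := Xc_mul g (inv_mem (Subgroup.mem_zpowers g)) (Subgroup.mem_zpowers g)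
  rw [inv_mul_cancel, Xc_one, h2, zero_add] at h3
  exact Xc_ne hne h3.symm

/-! ### Finite approximations -/

/-- a permutation extending a translation -/
theorem exists_perm (S : Finset (Cs Γ)) (g : Γ) : ∃ r : Equiv.Perm S,
    ∀ (x : S) (h : mv g⁻¹ x.1 ∈ S), r x = ⟨mv g⁻¹ x.1, h⟩ := by
  classical
  let e : {x : S // mv g⁻¹ x.1 ∈ S} ≃ {y : S // mv g y.1 ∈ S} :=
    { toFun := fun x => ⟨⟨mv g⁻¹ x.1.1, x.2⟩, by
        show mv g (mv g⁻¹ x.1.1) ∈ S
        rw [mv_mv, mul_inv_cancel, mv_one]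
        exact x.1.2⟩
      invFun := fun y => ⟨⟨mv g y.1.1, y.2⟩, by
        show mv g⁻¹ (mv g y.1.1) ∈ S
        rw [mv_mv, inv_mul_cancel, mv_one]
        exact y.1.2⟩
      left_inv := fun x => by
        apply Subtype.ext
        apply Subtype.ext
        show mv g (mv g⁻¹ x.1.1) = x.1.1
        rw [mv_mv, mul_inv_cancel, mv_one]
      right_inv := fun y => by
        apply Subtype.ext
        apply Subtype.ext
        show mv g⁻¹ (mv g y.1.1) = y.1.1
        rw [mv_mv, inv_mul_cancel, mv_one] }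
  refine ⟨e.extendSubtype, fun x h => ?_⟩
  rw [e.extendSubtype_apply_of_mem x h]
  rfl

/-- extension by zero -/
noncomputable def ext0 {D : AddSubgroup TT} (S : Finset (Cs Γ)) (l : S → D) : Wt Γ :=
  fun x => by
    classical
    exact if h : x ∈ S then ((l ⟨x, h⟩ : D) : TT) else 0

theorem ext0_mem {D : AddSubgroup TT} (S : Finset (Cs Γ)) (l : S → D) {x : Cs Γ} (h : x ∈ S) :
    ext0 S l x = ((l ⟨x, h⟩ : D) : TT) := by
  unfold ext0
  rw [dif_pos h]

theorem approx (S : Finset (Cs Γ)) (Φ : Finset Γ) : ∃ (N : ℕ) (p : Fin N → Wt Γ)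
    (π : Γ → Equiv.Perm (Fin N)), 0 < N ∧ ∀ g ∈ Φ, ∀ k, ∀ x ∈ S, mv g⁻¹ x ∈ S →
      p (π g k) x = (g • p k) x := by
  classical
  have htor : ∀ q : Γ × Cs Γ, ∃ n : ℕ, 0 < n ∧ n • bb q.1 q.2 = 0 := fun q => bb_tor q.1 q.2
  choose t ht0 ht using htor
  obtain ⟨n, hn⟩ : ∃ n : ℕ, n = ∏ q ∈ Φ ×ˢ S, t q := ⟨_, rfl⟩
  have hn0 : 0 < n := by
    rw [hn]
    exact Finset.prod_pos fun q _ => ht0 q
  obtain ⟨D, hD⟩ : ∃ D : AddSubgroup TT, D = (nsmulAddMonoidHom n : TT →+ TT).ker := ⟨_, rfl⟩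
  have hDmem : ∀ a : TT, a ∈ D ↔ n • a = 0 := by
    intro a
    rw [hD]
    rfl
  have hfin : Finite D := by
    have h1 := AddCircle.finite_torsion (1 : ℝ) hn0
    refine (h1.subset ?_ : (D : Set TT).Finite).to_subtype
    intro a ha
    exact (hDmem a).1 ha
  have hb : ∀ g ∈ Φ, ∀ x ∈ S, bb g x ∈ D := by
    intro g hg x hx
    rw [hDmem]
    obtain ⟨c, hc⟩ : t (g, x) ∣ n := by
      rw [hn]
      exact Finset.dvd_prod_of_mem t (Finset.mem_product.2 ⟨hg, hx⟩)
    rw [hc, mul_comm, mul_smul, ht (g, x), smul_zero]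
  have : Fintype (S → D) := Fintype.ofFinite _
  obtain ⟨E⟩ : Nonempty ((S → D) ≃ Fin (Fintype.card (S → D))) := ⟨Fintype.equivFin _⟩
  choose r hr using exists_perm S
  refine ⟨Fintype.card (S → D), fun k => ext0 S (E.symm k),
    fun g => E.permCongr ((Equiv.arrowCongr (r g).symm (Equiv.refl D)).trans
      (Equiv.addRight (fun x : S => if h : bb g x.1 ∈ D then (⟨bb g x.1, h⟩ : D) else 0))),
    Fintype.card_pos, ?_⟩
  intro g hg k x hx hgx
  have e1 : ∀ (σ : Equiv.Perm (S → D)) (k), E.symm (E.permCongr σ k) = σ (E.symm k) := by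
    intro σ k
    rw [Equiv.permCongr_apply, Equiv.symm_apply_apply]
  refine (ext0_mem S _ hx).trans ?_
  rw [e1]
  show (((E.symm k (r g ⟨x, hx⟩)) + (if h : bb g x ∈ D then (⟨bb g x, h⟩ : D) else 0) : D) : TT) =
    ext0 S (E.symm k) (mv g⁻¹ x) + bb g x
  rw [dif_pos (hb g hg x hx), hr g ⟨x, hx⟩ hgx, ext0_mem S _ hgx]
  rfl

/-! ### Uniformity -/

/-- points which agree on a large finite set are close -/
theorem unif (W : Type) [MetricSpace W] [CompactSpace W] (T : Type) (v : T → W → TT)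
    (hv : ∀ x, Continuous (v x)) (hinj : ∀ w w' : W, (∀ x, v x w = v x w') → w = w')
    (f : ℕ → T) (hf : Function.Surjective f) (ε : ℝ) (hε : 0 < ε) :
    ∃ n : ℕ, ∀ w w' : W, (∀ j ≤ n, v (f j) w = v (f j) w') → dist w w' < ε := by
  have hK : IsCompact {q : W × W | ε ≤ dist q.1 q.2} :=
    (isClosed_le continuous_const (continuous_fst.dist continuous_snd)).isCompact
  obtain ⟨n, hn⟩ := hK.elim_directed_family_closed
    (fun n : ℕ => {q : W × W | ∀ j ≤ n, v (f j) q.1 = v (f j) q.2}) (fun n => by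
      have : {q : W × W | ∀ j ≤ n, v (f j) q.1 = v (f j) q.2} =
          ⋂ j ∈ Set.Iic n, {q : W × W | v (f j) q.1 = v (f j) q.2} := by
        ext q
        simp
      rw [this]
      exact isClosed_biInter fun j _ =>
        isClosed_eq ((hv _).comp continuous_fst) ((hv _).comp continuous_snd))
    (by
      rw [Set.eq_empty_iff_forall_notMem]
      rintro ⟨w, w'⟩ ⟨h1, h2⟩
      rw [Set.mem_iInter] at h2
      have h3 : w = w' := by
        apply hinj
        intro x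
        obtain ⟨j, rfl⟩ := hf x
        exact h2 j j le_rfl
      have h4 : ε ≤ dist w w' := h1
      rw [h3, dist_self] at h4
      linarith)
    (by
      apply directed_of_isDirected_le
      intro a b hab q hq j hj
      exact hq j (hj.trans hab))
  refine ⟨n, fun w w' h => ?_⟩
  by_contra hlt
  have h1 : (w, w') ∈ {q : W × W | ε ≤ dist q.1 q.2} ∩
      {q : W × W | ∀ j ≤ n, v (f j) q.1 = v (f j) q.2} := ⟨not_lt.1 hlt, h⟩
  rw [hn] at h1
  exact h1

end

end WW

/-- **A compact free system approximated by finite permutations.** -/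
theorem t_W : S_W := by
  classical
  intro Γ _ _ γ
  let _ : MetricSpace (WW.Wt Γ) := TopologicalSpace.metrizableSpaceMetric (WW.Wt Γ)
  obtain ⟨f, hf⟩ := exists_surjective_nat (WW.Cs Γ)
  obtain ⟨S, hS⟩ : ∃ S : ℕ → Finset (WW.Cs Γ), ∀ m, S m = (Finset.range m).image f :=
    ⟨_, fun _ => rfl⟩
  have hap := fun m => WW.approx (S m) ((Finset.range m).image γ)
  choose N p π hN h using hap
  refine ⟨WW.Wt Γ, inferInstance, inferInstance, inferInstance, inferInstance, inferInstance, N, p,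
    fun m i => π m (γ i), WW.free, hN, ?_⟩
  intro i ε hε
  obtain ⟨n, hn⟩ := WW.unif (WW.Wt Γ) (WW.Cs Γ) (fun x w => w x) (fun x => continuous_apply x)
    (fun w w' hw => funext hw) f hf ε hε
  choose a ha using fun j : ℕ => hf (WW.mv (γ i)⁻¹ (f j))
  refine ⟨i + 1 + (n + 1) + ∑ j ∈ Finset.range (n + 1), (a j + 1), fun m hm x => ?_⟩
  apply hn
  intro j hj
  have hmem : ∀ k, k < m → f k ∈ S m := by
    intro k hk
    rw [hS]
    exact Finset.mem_image_of_mem _ (Finset.mem_range.2 hk)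
  have h1 : a j + 1 ≤ ∑ j ∈ Finset.range (n + 1), (a j + 1) :=
    Finset.single_le_sum (f := fun j => a j + 1) (fun _ _ => Nat.zero_le _)
      (Finset.mem_range.2 (by omega))
  refine h m (γ i) (Finset.mem_image_of_mem _ (Finset.mem_range.2 (by omega))) x (f j)
    (hmem j (by omega)) ?_
  rw [← ha j]
  exact hmem _ (by omega)

end Pool.Agent.N480.CV
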