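import Pool.Agent.N480.CV.Stm

set_option autoImplicit false

namespace Pool.Agent.N480.CV

open Set MeasureTheory TopologicalSpace

namespace Z1

variable {Γ : Type} [Group Γ]

theorem ball_finite (S : Set Γ) (hS : S.Finite) (k : ℕ) : (ball S k).Finite := by
  induction k with
  | zero =>
    refine (Set.finite_singleton (1 : Γ)).subset ?_
    rintro g ⟨l, hl, -, rfl⟩
    have h1 : l = [] := List.length_eq_zero_iff.1 (Nat.le_zero.1 hl)
    subst h1
    simp
  | succ k ih =>
    have h1 : (S ∪ S⁻¹).Finite := hS.union hS.inv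
    refine ((Set.finite_singleton (1 : Γ)).union (Set.Finite.image2 (fun a b => a * b) h1 ih)).subset ?_
    rintro g ⟨l, hl, hm, rfl⟩
    cases l with
    | nil => left; simp
    | cons a l =>
      right
      refine ⟨a, ?_, l.prod, ⟨l, ?_, ?_, rfl⟩, ?_⟩
      · rcases hm a (by simp) with h | h
        · exact Or.inl h
        · exact Or.inr h
      · simpa using hl
      · intro h hh
        exact hm h (by simp [hh])
      · simp

theorem ball_sub (S : Set Γ) (k : ℕ) (g : Γ) (hg : g ∈ ball S k) : g ∈ Subgroup.closure S := by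
  obtain ⟨l, -, hm, rfl⟩ := hg
  apply Subgroup.list_prod_mem
  intro h hh
  rcases hm h hh with h1 | h1
  · exact Subgroup.subset_closure h1
  · have h2 := Subgroup.inv_mem _ (Subgroup.subset_closure (k := S) h1)
    rwa [inv_inv] at h2

theorem sh_cont (g : Γ) : Continuous (fun w : Γ → Cd Γ => sh g w) := by
  apply continuous_pi
  intro δ
  exact continuous_apply (g⁻¹ * δ)

theorem lev_cont (δ : Γ) : Continuous (fun w : Γ → Cd Γ => (w δ).1) :=
  continuous_fst.comp (continuous_apply δ)

theorem col_cont (δ g : Γ) : Continuous (fun w : Γ → Cd Γ => (w δ).2.1 g) :=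
  (continuous_apply g).comp (continuous_fst.comp (continuous_snd.comp (continuous_apply δ)))

theorem good_closed (S : ℕ → Set Γ) (hS : ∀ n, (S n).Finite) :
    IsClosed {u : Γ → Cd Γ | Good S u} := by
  have ha : IsClosed {u : Γ → Cd Γ |
      ∀ (k : ℕ), ∀ g ∈ Subgroup.closure (S k), max (sh g u 1).1 k = max (u 1).1 k} := by
    simp only [Set.setOf_forall]
    refine isClosed_iInter fun k => isClosed_iInter fun g => isClosed_iInter fun _ => ?_
    exact isClosed_eq ((lev_cont (g⁻¹ * 1)).max continuous_const) ((lev_cont 1).max continuous_const)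
  have hb : IsClosed {u : Γ → Cd Γ | ∀ g : Γ, ((u 1).2.1 g = 3 → sh g u = u) ∧
    ((u 1).2.1 g ≠ 3 → (sh g u 1).2.1 g ≠ (u 1).2.1 g)} := by
    simp only [Set.setOf_forall]
    refine isClosed_iInter fun g => ?_
    refine IsClosed.inter (isClosed_imp ?_ ?_) (isClosed_imp ?_ ?_)
    · exact (isOpen_discrete ({3} : Set (Fin 4))).preimage (col_cont 1 g)
    · exact isClosed_eq (sh_cont g) continuous_id
    · exact (isOpen_discrete ({3}ᶜ : Set (Fin 4))).preimage (col_cont 1 g)
    · have h1 : Continuous (fun w : Γ → Cd Γ => ((w (g⁻¹ * 1)).2.1 g, (w 1).2.1 g)) :=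
        (col_cont _ g).prodMk (col_cont 1 g)
      exact (isClosed_discrete ({p : Fin 4 × Fin 4 | p.1 ≠ p.2})).preimage h1
  have hc : IsClosed {u : Γ → Cd Γ | ∀ n k : ℕ, (u 1).1 ≤ n → ∃ h : Fin (k + 1) → Γ,
      (∀ i, h i ∈ ball (S n) k) ∧
        ∀ i j, i < j → (sh (h i) u 1).2.1 (h j * (h i)⁻¹) ≠ 3} := by
    have hc1 : {u : Γ → Cd Γ | ∀ n k : ℕ, (u 1).1 ≤ n → ∃ h : Fin (k + 1) → Γ,
        (∀ i, h i ∈ ball (S n) k) ∧
        ∀ i j, i < j → (sh (h i) u 1).2.1 (h j * (h i)⁻¹) ≠ 3} = ⋂ n : ℕ, ⋂ k : ℕ,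
        {u : Γ → Cd Γ | (u 1).1 ≤ n → u ∈ ⋃ h ∈ {h : Fin (k + 1) → Γ | ∀ i, h i ∈ ball (S n) k},
          {u : Γ → Cd Γ | ∀ i j, i < j → (sh (h i) u 1).2.1 (h j * (h i)⁻¹) ≠ 3}} := by
      ext u
      simp only [Set.mem_iInter, Set.mem_setOf_eq, Set.mem_iUnion, exists_prop]
    rw [hc1]
    refine isClosed_iInter fun n => isClosed_iInter fun k => isClosed_imp ?_ ?_
    · exact (isOpen_discrete (Set.Iic n)).preimage (lev_cont 1)
    · refine Set.Finite.isClosed_biUnion (Set.Finite.pi' fun _ => ball_finite _ (hS n) k) ?_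
      intro h _
      simp only [Set.setOf_forall]
      refine isClosed_iInter fun i => isClosed_iInter fun j => isClosed_iInter fun _ => ?_
      exact (isClosed_discrete ({3}ᶜ : Set (Fin 4))).preimage
        (col_cont ((h i)⁻¹ * 1) (h j * (h i)⁻¹))
  exact ha.inter (hb.inter hc)

theorem good_one (S : ℕ → Set Γ) (w : Γ → Cd Γ) (hw : w ∈ ZC S) : Good S w := by
  have h := hw 1
  rwa [sh_one] at h

end Z1

theorem t_Z1 : S_Z1 := by
  intro Γ _ _ S hS hmono huniv
  have hcl : IsClosed (ZC S) := by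
    have h1 : ZC S = ⋂ δ : Γ, (fun w : Γ → Cd Γ => sh δ w) ⁻¹' {u | Good S u} := by
      ext w
      simp only [Set.mem_iInter, Set.mem_preimage, Set.mem_setOf_eq, ZC]
    rw [h1]
    exact isClosed_iInter fun δ => (Z1.good_closed S hS).preimage (Z1.sh_cont δ)
  have hopen : ∀ n, IsOpen {z : ZC S | (z.1 1).1 ≤ n} := by
    intro n
    exact (isOpen_discrete (Set.Iic n)).preimage ((Z1.lev_cont (1 : Γ)).comp continuous_subtype_val)
  refine ⟨hcl, ?_, ?_, ?_, ?_⟩
  · intro g
    exact Continuous.subtype_mk ((Z1.sh_cont g).comp continuous_subtype_val) _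
  · intro g
    have h1 : {z : ZC S | g • z = z} = {z : ZC S | (z.1 1).2.1 g = 3} := by
      ext z
      simp only [Set.mem_setOf_eq]
      have hG := (Z1.good_one S z.1 z.2).2.1 g
      constructor
      · intro h2
        by_contra h3
        apply hG.2 h3
        have h4 : sh g z.1 = z.1 := by
          rw [← ZC_smul, h2]
        rw [h4]
      · intro h2
        apply Subtype.ext
        rw [ZC_smul]
        exact hG.1 h2
    rw [h1]
    exact (isOpen_discrete ({3} : Set (Fin 4))).preimage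
      ((Z1.col_cont (1 : Γ) g).comp continuous_subtype_val)
  · intro n
    refine ⟨?_, hopen n⟩
    rw [Subtype.isCompact_iff]
    have hk : ∀ δ : Γ, ∃ k, δ ∈ S k := by
      intro δ
      have : δ ∈ ⋃ n, S n := by rw [huniv]; trivial
      exact Set.mem_iUnion.1 this
    choose kk hkk using hk
    have hcomp : IsCompact (Set.pi univ (fun δ : Γ =>
        (Set.Iic (max n (kk δ)) ×ˢ (univ : Set ((Γ → Fin 4) × (ℕ → Bool)))))) := by
      apply isCompact_univ_pi
      intro δ
      exact (Set.finite_Iic _).isCompact.prod isCompact_univ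
    refine hcomp.of_isClosed_subset ?_ ?_
    · have h1 : ((↑) '' {z : ZC S | (z.1 1).1 ≤ n} : Set (Γ → Cd Γ)) =
          ZC S ∩ {w : Γ → Cd Γ | (w 1).1 ≤ n} := by
        ext w
        constructor
        · rintro ⟨z, hz, rfl⟩
          exact ⟨z.2, hz⟩
        · rintro ⟨hw, hw2⟩
          exact ⟨⟨w, hw⟩, hw2, rfl⟩
      rw [h1]
      exact hcl.inter ((isClosed_discrete (Set.Iic n)).preimage (Z1.lev_cont (1 : Γ)))
    · rintro w ⟨z, hz, rfl⟩
      intro δ _
      refine ⟨?_, trivial⟩
      have hG := (Z1.good_one S z.1 z.2).1 (kk δ) δ⁻¹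
        (Subgroup.inv_mem _ (Subgroup.subset_closure (hkk δ)))
      have h2 : sh δ⁻¹ z.1 1 = z.1 δ := by
        simp [sh]
      rw [h2] at hG
      show (z.1 δ).1 ≤ max n (kk δ)
      have h3 : (z.1 1).1 ≤ n := hz
      have h4 : (z.1 δ).1 ≤ max (z.1 δ).1 (kk δ) := le_max_left _ _
      rw [hG] at h4
      exact h4.trans (max_le_max_right _ h3)
  · intro n y hy hfin
    have := hfin.to_subtype
    set N := Nat.card {z : ZC S | (z.1 1).1 ≤ n ∧ ∃ g ∈ Subgroup.closure (S n), g • y = z} with hN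
    have hG := Z1.good_one S y.1 y.2
    obtain ⟨h, hh, hcol⟩ := hG.2.2 n N hy
    have hne : ∀ i j, i < j → h i • y ≠ h j • y := by
      intro i j hij heq
      have h1 := (y.2 (h i)).2.1 (h j * (h i)⁻¹)
      have h2 := h1.2 (hcol i j hij)
      rw [sh_sh, inv_mul_cancel_right] at h2
      apply h2
      have h3 : sh (h i) y.1 = sh (h j) y.1 := by
        rw [← ZC_smul, ← ZC_smul, heq]
      rw [h3]
    have hmem : ∀ i, h i • y ∈
        {z : ZC S | (z.1 1).1 ≤ n ∧ ∃ g ∈ Subgroup.closure (S n), g • y = z} := by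
      intro i
      have hcl1 := Z1.ball_sub _ _ _ (hh i)
      refine ⟨?_, h i, hcl1, rfl⟩
      have h1 := hG.1 n (h i) hcl1
      rw [max_eq_right hy] at h1
      rw [ZC_smul]
      exact (le_max_left _ _).trans h1.le
    let F : Fin (N + 1) →
        {z : ZC S | (z.1 1).1 ≤ n ∧ ∃ g ∈ Subgroup.closure (S n), g • y = z} :=
      fun i => ⟨h i • y, hmem i⟩
    have hF : Function.Injective F := by
      intro i j hij
      have h1 : h i • y = h j • y := congrArg Subtype.val hij
      rcases lt_trichotomy i j with h2 | h2 | h2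
      · exact absurd h1 (hne i j h2)
      · exact h2
      · exact absurd h1.symm (hne j i h2)
    have h5 := Nat.card_le_card_of_injective F hF
    rw [Nat.card_eq_fintype_card, Fintype.card_fin] at h5
    omega

end Pool.Agent.N480.CV
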