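import Mathlib
import Pool.Agent.N480.CV.Fin0
import Pool.Agent.N480.CV.SB
import Pool.Agent.N480.CV.COL
import Pool.Agent.N480.CV.Z1
import Pool.Agent.N480.CV.MK
import Pool.Agent.N480.CV.DIV
import Pool.Agent.N480.CV.W
import Pool.Agent.N480.CV.GLUE
import Pool.Agent.N480.CV.K
import Pool.Agent.N480.CV.NS
import Pool.Agent.N480.CV.ABS
import Pool.Agent.N480.CV.ACT

set_option autoImplicit false

/-!
Project CV: assembly of part 1.
-/

namespace Pool.Agent.N480.CV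

open Set MeasureTheory TopologicalSpace
open Pool.Agent.TH722.CR (CAct borelSpace_sum)

instance sb_sum (A B : Type) [MeasurableSpace A] [StandardBorelSpace A] [MeasurableSpace B]
    [StandardBorelSpace B] : StandardBorelSpace (A ⊕ B) := by
  let := upgradeStandardBorel A
  let := upgradeStandardBorel B
  have := borelSpace_sum A B
  have h1 : PolishSpace (A ⊕ B) := { }
  infer_instance

section

variable (Γ : Type) [Countable Γ]

theorem bs1 : BorelSpace (Cd Γ) := inferInstance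

theorem bs2 : BorelSpace (Γ → Cd Γ) :=
  @Pi.borelSpace _ _ _ _ _ inferInstance (fun _ => bs1 Γ)

theorem bs3 : PolishSpace (Γ → Cd Γ) :=
  @instPolishSpaceOfSeparableSpaceOfIsCompletelyMetrizableSpace _ _ inferInstance inferInstance

end

theorem bs4 {Γ : Type} [Group Γ] [Countable Γ] (S : ℕ → Set Γ) : BorelSpace (ZC S) :=
  @Subtype.borelSpace _ _ _ (bs2 Γ) _

theorem bs5 {Γ : Type} [Group Γ] [Countable Γ] (S : ℕ → Set Γ) (h : IsClosed (ZC S)) :
    PolishSpace (ZC S) :=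
  @IsClosed.polishSpace _ _ (bs3 Γ) _ h

section

variable {Γ : Type} [Group Γ]

theorem orb_sum {X W : Type} [MulAction Γ X] [MulAction Γ W] (a b : X ⊕ W) :
    Sum.LiftRel (Orb Γ) (Orb Γ) a b ↔ Orb Γ a b := by
  rcases a with a | a <;> rcases b with b | b
  · simp only [Sum.liftRel_inl_inl]
    constructor
    · rintro ⟨g, rfl⟩; exact ⟨g, rfl⟩
    · rintro ⟨g, hg⟩; exact ⟨g, Sum.inl.inj hg⟩
  · simp only [Sum.not_liftRel_inl_inr, false_iff]
    rintro ⟨g, hg⟩; exact absurd hg Sum.inl_ne_inr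
  · simp only [Sum.not_liftRel_inr_inl, false_iff]
    rintro ⟨g, hg⟩; exact absurd hg Sum.inr_ne_inl
  · simp only [Sum.liftRel_inr_inr]
    constructor
    · rintro ⟨g, rfl⟩; exact ⟨g, rfl⟩
    · rintro ⟨g, hg⟩; exact ⟨g, Sum.inr.inj hg⟩

theorem meas_sum {X W : Type} [MeasurableSpace X] [MeasurableSpace W] [MulAction Γ X]
    [MulAction Γ W] (h1 : ∀ g : Γ, Measurable fun x : X => g • x)
    (h2 : ∀ g : Γ, Measurable fun x : W => g • x) (g : Γ) :
    Measurable fun x : X ⊕ W => g • x := by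
  have : (fun x : X ⊕ W => g • x) = Sum.elim (fun x => Sum.inl (g • x))
      (fun x => Sum.inr (g • x)) := by
    funext x
    rcases x with x | x <;> rfl
  rw [this]
  exact (measurable_inl.comp (h1 g)).sumElim (measurable_inr.comp (h2 g))

theorem vt_sum {X W : Type} [MulAction Γ X]
    [MulAction Γ W] (h1 : VT Γ X) (h2 : VT Γ W) : VT Γ (X ⊕ W) := by
  rintro (x | x)
  · exact (VTx.map (Γ := Γ) (Sum.inl : X → X ⊕ W) Sum.inl_injective (fun _ _ => rfl) x).2 (h1 x)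
  · exact (VTx.map (Γ := Γ) (Sum.inr : W → X ⊕ W) Sum.inr_injective (fun _ _ => rfl) x).2 (h2 x)

theorem lf_sum {X W : Type} [MulAction Γ X]
    [MulAction Γ W] (h1 : LF Γ X) (h2 : LF Γ W) : LF Γ (X ⊕ W) := by
  rintro (x | x)
  · exact (LFx.map (Γ := Γ) (Sum.inl : X → X ⊕ W) Sum.inl_injective (fun _ _ => rfl) x).2 (h1 x)
  · exact (LFx.map (Γ := Γ) (Sum.inr : W → X ⊕ W) Sum.inr_injective (fun _ _ => rfl) x).2 (h2 x)

/-- first embedding -/
theorem emb_K [Countable Γ] (T : Finset Γ) (hT : (Subgroup.closure (T : Set Γ) : Set Γ).Infinite)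
    {Z W : Type} [MeasurableSpace Z] [StandardBorelSpace Z] [MulAction Γ Z]
    (hm : ∀ g : Γ, Measurable fun z : Z => g • z) (hV : VT Γ Z)
    [MeasurableSpace W] [StandardBorelSpace W] [MulAction Γ W]
    (hmW : ∀ g : Γ, Measurable fun z : W => g • z) (hVW : VT Γ W)
    (D : Set Z) (hD : MeasurableSet D)
    (hDt : ∀ z ∉ D, ∀ z' ∉ D, Orb Γ z z' → z = z') :
    IEmb (Sum.LiftRel (fun a b : D => ∃ g : Γ, g • (a : Z) = b) (Orb Γ : W → W → Prop))
      (Orb Γ : SV Γ → SV Γ → Prop) := by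
  obtain ⟨B, rfl⟩ : ∃ B : Set Z, D = Bᶜ := ⟨Dᶜ, (compl_compl D).symm⟩
  obtain ⟨act, a1, a2, a3⟩ := t_ACT Γ T hT Z hm hV B hD.of_compl (fun z hz z' hz' =>
    hDt z (fun h => h hz) z' (fun h => h hz'))
  let act' : MulAction Γ (Bᶜ : Set Z) := act
  have hBs : StandardBorelSpace (Bᶜ : Set Z) := hD.standardBorel
  have hV' : VT Γ (Bᶜ : Set Z) := a2
  have h1 := iemb_SV (Γ := Γ) (X := (Bᶜ : Set Z) ⊕ W) (meas_sum a1 hmW) (vt_sum hV' hVW)
  have h2 : Iso (Sum.LiftRel (fun a b : (Bᶜ : Set Z) => ∃ g : Γ, g • (a : Z) = b)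
      (Orb Γ : W → W → Prop)) (Orb Γ : ((Bᶜ : Set Z) ⊕ W) → ((Bᶜ : Set Z) ⊕ W) → Prop) := by
    refine ⟨MeasurableEquiv.refl _, fun a b => ?_⟩
    have h3 : (fun a b : (Bᶜ : Set Z) => ∃ g : Γ, g • (a : Z) = b) = Orb Γ := by
      funext a b
      exact propext (a3 a b).symm
    rw [h3, orb_sum]
    rfl
  exact h2.iemb.trans h1

/-- the saturation of a set -/
def Sat (Γ : Type) {Z : Type} [Group Γ] [MulAction Γ Z] (B : Set Z) : SubMulAction Γ Z where
  carrier := {z | ∃ g : Γ, g • z ∈ B}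
  smul_mem' := by
    rintro k z ⟨g, hg⟩
    exact ⟨g * k⁻¹, by rwa [mul_smul, inv_smul_smul]⟩

theorem emb_Z [Countable Γ] {Z W : Type} [MeasurableSpace Z] [StandardBorelSpace Z] [MulAction Γ Z]
    (hm : ∀ g : Γ, Measurable fun z : Z => g • z)
    (hinf : ∀ w : Z, {v | ∃ g : Γ, g • w = v}.Infinite)
    [TopologicalSpace W] [CompactSpace W] [MetrizableSpace W] [Nonempty W]
    [MeasurableSpace W] [BorelSpace W] [MulAction Γ W] [ContinuousConstSMul Γ W]
    (hinfW : ∀ w : W, {v | ∃ g : Γ, g • w = v}.Infinite)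
    (D : Set Z) (hD : MeasurableSet D)
    (hDt : ∀ z ∉ D, ∀ z' ∉ D, Orb Γ z z' → z = z') :
    IEmb (Orb Γ : Z → Z → Prop)
      (Sum.LiftRel (fun a b : D => ∃ g : Γ, g • (a : Z) = b) (Orb Γ : W → W → Prop)) := by
  classical
  have hSm : MeasurableSet {z : Z | ∃ g : Γ, g • z ∈ Dᶜ} := by
    have : {z : Z | ∃ g : Γ, g • z ∈ Dᶜ} = ⋃ g : Γ, (fun z => g • z) ⁻¹' Dᶜ := by
      ext z; simp
    rw [this]
    exact MeasurableSet.iUnion fun g => hm g hD.compl
  have hsb : StandardBorelSpace (Sat Γ (Dᶜ : Set Z)) := hSm.standardBorel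
  have hmS : ∀ g : Γ, Measurable fun z : Sat Γ (Dᶜ : Set Z) => g • z := fun g =>
    ((hm g).comp measurable_subtype_coe).subtype_mk
  have hinfS : ∀ w : Sat Γ (Dᶜ : Set Z), {v | ∃ g : Γ, g • w = v}.Infinite := by
    intro w
    have h1 := image_orb (Γ := Γ) (fun y : Sat Γ (Dᶜ : Set Z) => (y : Z)) (fun _ _ => rfl)
      (fun _ => True) w
    simp only [true_and] at h1
    have h2 := hinf w
    rw [h1, infinite_image_iff Subtype.val_injective.injOn] at h2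
    exact h2
  obtain ⟨f, f1, f2, f3, f4⟩ := t_ABS t_NS Γ W hinfW (Sat Γ (Dᶜ : Set Z)) hmS hinfS
    {z | (z : Z) ∈ Dᶜ} (measurable_subtype_coe hD.compl) (by
      rintro z hz z' hz' ⟨g, hg⟩
      exact Subtype.ext (hDt z hz z' hz' ⟨g, congrArg Subtype.val hg⟩)) (by
      rintro ⟨z, g, hg⟩
      exact ⟨⟨g • z, 1, by rwa [one_smul]⟩, hg, g, rfl⟩)
  let h : Z → D ⊕ W := fun z =>
    if hz : z ∈ Sat Γ (Dᶜ : Set Z) then Sum.inr (f ⟨z, hz⟩)
    else Sum.inl ⟨z, by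
      by_contra hc
      exact hz ⟨1, by rwa [one_smul]⟩⟩
  have hpos : ∀ (z : Z) (hz : z ∈ Sat Γ (Dᶜ : Set Z)), h z = Sum.inr (f ⟨z, hz⟩) := fun z hz =>
    dif_pos hz
  have hneg : ∀ (z : Z) (hz : z ∉ Sat Γ (Dᶜ : Set Z)), ∃ hz' : z ∈ D, h z = Sum.inl ⟨z, hz'⟩ :=
    fun z hz => ⟨_, dif_neg hz⟩
  have hSinv : ∀ (z : Z) (g : Γ), z ∈ Sat Γ (Dᶜ : Set Z) ↔ g • z ∈ Sat Γ (Dᶜ : Set Z) := by
    intro z g
    constructor
    · exact fun hz => (Sat Γ (Dᶜ : Set Z)).smul_mem g hz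
    · intro hz
      have := (Sat Γ (Dᶜ : Set Z)).smul_mem g⁻¹ hz
      rwa [inv_smul_smul] at this
  refine ⟨h, ?_, ?_, ?_, ?_⟩
  · have hj : ∀ z : Z, z ∉ Sat Γ (Dᶜ : Set Z) → z ∈ D := by
      intro z hz
      by_contra hc
      exact hz ⟨1, by rwa [one_smul]⟩
    have hm1 : Measurable fun z : {z : Z | z ∈ Sat Γ (Dᶜ : Set Z)} =>
        (Sum.inr (f ⟨z.1, z.2⟩) : D ⊕ W) := measurable_inr.comp f1
    have hm2 : Measurable fun z : ({z : Z | z ∈ Sat Γ (Dᶜ : Set Z)}ᶜ : Set Z) =>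
        (Sum.inl ⟨z.1, hj z.1 z.2⟩ : D ⊕ W) :=
      measurable_inl.comp (measurable_subtype_coe.subtype_mk)
    exact Measurable.dite hm1 hm2 hSm
  · intro a b hab
    by_cases ha : a ∈ Sat Γ (Dᶜ : Set Z) <;> by_cases hb : b ∈ Sat Γ (Dᶜ : Set Z)
    · rw [hpos a ha, hpos b hb] at hab
      exact congrArg Subtype.val (f2 (Sum.inr.inj hab))
    · obtain ⟨hb', hb''⟩ := hneg b hb
      rw [hpos a ha, hb''] at hab
      exact absurd hab Sum.inr_ne_inl
    · obtain ⟨ha', ha''⟩ := hneg a ha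
      rw [hpos b hb, ha''] at hab
      exact absurd hab Sum.inl_ne_inr
    · obtain ⟨ha', ha''⟩ := hneg a ha
      obtain ⟨hb', hb''⟩ := hneg b hb
      rw [ha'', hb''] at hab
      exact congrArg Subtype.val (Sum.inl.inj hab)
  · intro a b
    by_cases ha : a ∈ Sat Γ (Dᶜ : Set Z) <;> by_cases hb : b ∈ Sat Γ (Dᶜ : Set Z)
    · rw [hpos a ha, hpos b hb, Sum.liftRel_inr_inr, ← f3]
      constructor
      · rintro ⟨g, hg⟩; exact ⟨g, Subtype.ext hg⟩
      · rintro ⟨g, hg⟩; exact ⟨g, congrArg Subtype.val hg⟩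
    · obtain ⟨hb', hb''⟩ := hneg b hb
      rw [hpos a ha, hb'']
      simp only [Sum.not_liftRel_inr_inl, iff_false]
      rintro ⟨g, rfl⟩
      exact hb ((hSinv a g).1 ha)
    · obtain ⟨ha', ha''⟩ := hneg a ha
      rw [hpos b hb, ha'']
      simp only [Sum.not_liftRel_inl_inr, iff_false]
      rintro ⟨g, rfl⟩
      exact ha ((hSinv a g).2 hb)
    · obtain ⟨ha', ha''⟩ := hneg a ha
      obtain ⟨hb', hb''⟩ := hneg b hb
      rw [ha'', hb'', Sum.liftRel_inl_inl]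
      rfl
  · intro a y hay
    by_cases ha : a ∈ Sat Γ (Dᶜ : Set Z)
    · rw [hpos a ha] at hay
      rcases y with y | y
      · exact absurd hay Sum.not_liftRel_inr_inl
      · rw [Sum.liftRel_inr_inr] at hay
        obtain ⟨b, hb⟩ := f4 _ _ hay
        exact ⟨b, by rw [hpos b b.2]; exact congrArg _ hb⟩
    · obtain ⟨ha', ha''⟩ := hneg a ha
      rw [ha''] at hay
      rcases y with y | y
      · rw [Sum.liftRel_inl_inl] at hay
        obtain ⟨g, hg⟩ := hay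
        have hy : (y : Z) ∉ Sat Γ (Dᶜ : Set Z) := by
          rw [← hg]
          exact fun h => ha ((hSinv a g).2 h)
        obtain ⟨hy', hy''⟩ := hneg y hy
        exact ⟨y, hy''⟩
      · exact absurd hay Sum.not_liftRel_inl_inr

/-- Part 1. -/
theorem vpart (Γ : Type) [Group Γ] [Countable Γ] (T : Finset Γ)
    (hT : (Subgroup.closure (T : Set Γ) : Set Γ).Infinite) :
    CAct (SV Γ) (Orb Γ : SV Γ → SV Γ → Prop) := by
  classical
  obtain ⟨γ, hγ⟩ := exists_surjective_nat Γ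
  let S : ℕ → Set Γ := fun n => γ '' Set.Iic n
  have hSf : ∀ n, (S n).Finite := fun n => (Set.finite_Iic n).image _
  have hSm : Monotone S := fun m n h => image_mono (Iic_subset_Iic.2 h)
  have hSu : (⋃ n, S n) = univ := by
    ext g
    obtain ⟨n, rfl⟩ := hγ g
    simp only [mem_iUnion, mem_univ, iff_true]
    exact ⟨n, n, le_refl n, rfl⟩
  obtain ⟨z1, z2, z3, z4, z5⟩ := t_Z1 Γ S hSf hSm hSu
  have i1 : ContinuousConstSMul Γ (ZC S) := ⟨z2⟩
  have i0 : BorelSpace (ZC S) := bs4 S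
  have i2 : PolishSpace (ZC S) := bs5 S z1
  have i3 : StandardBorelSpace (ZC S) := inferInstance
  let Y : ℕ → Set (ZC S) := fun n => {z : ZC S | (z.1 1).1 ≤ n}
  have hYu : (⋃ n, Y n) = univ := by
    ext z
    simp only [mem_iUnion, mem_univ, iff_true]
    exact ⟨(z.1 1).1, le_refl (z.1 1).1⟩
  have i4 : WeaklyLocallyCompactSpace (ZC S) := by
    refine ⟨fun z => ⟨Y (z.1 1).1, (z4 _).1, (z4 _).2.mem_nhds (le_refl (z.1 1).1)⟩⟩
  have i5 : LocallyCompactSpace (ZC S) := inferInstance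
  have hmZ : ∀ g : Γ, Measurable fun z : ZC S => g • z := fun g => (z2 g).measurable
  have hVZ : VT Γ (ZC S) := by
    intro z
    refine ⟨(hSf (z.1 1).1).toFinset, ?_⟩
    rw [Set.Finite.coe_toFinset]
    refine Set.Infinite.mono ?_ (z5 (z.1 1).1 z le_rfl)
    rintro y ⟨-, hy⟩
    exact hy
  obtain ⟨W, w1, w2, w3, w4, w5, N, p, π, w6, w7, w8⟩ := t_W Γ γ
  let m1 : MeasurableSpace W := borel W
  have m2 : BorelSpace W := ⟨rfl⟩
  have m3 : StandardBorelSpace W := inferInstance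
  have hVW : VT Γ W := by
    intro w
    refine ⟨T, ?_⟩
    have : {y | ∃ g ∈ Subgroup.closure (T : Set Γ), g • w = y} =
        (fun g : Γ => g • w) '' (Subgroup.closure (T : Set Γ) : Set Γ) := by
      ext y; simp
    rw [this]
    refine hT.image (fun g _ h _ hgh => ?_)
    have h1 : (h⁻¹ * g) • w = w := by
      rw [mul_smul]
      rw [show g • w = h • w from hgh, inv_smul_smul]
    have h2 := w6 _ _ h1
    exact (inv_mul_eq_one.1 h2).symm
  obtain ⟨D, lab, c, d1, d2, d3⟩ := t_DIV t_MK Γ (ZC S) Y N z3 (fun n => (z4 n).1)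
    (fun n => (z4 n).2) (fun m n h z hz => le_trans hz h) hYu (by
      intro n y hy
      refine Set.Infinite.mono ?_ (z5 n y hy)
      rintro z ⟨h1, g, -, h2⟩
      exact ⟨h1, g, h2⟩) w7
  have hK := t_K t_GLUE Γ (ZC S) D N lab c d1 d2 W γ p π hγ w8
  have hDm : MeasurableSet (⋃ m, D m) := MeasurableSet.iUnion fun m => (d1 m).isOpen.measurableSet
  have hinfZ : ∀ w : ZC S, {v | ∃ g : Γ, g • w = v}.Infinite := by
    intro w
    obtain ⟨T', hT'⟩ := hVZ w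
    refine Set.Infinite.mono ?_ hT'
    rintro y ⟨g, -, hy⟩
    exact ⟨g, hy⟩
  have hinfW : ∀ w : W, {v | ∃ g : Γ, g • w = v}.Infinite := by
    intro w
    obtain ⟨T', hT'⟩ := hVW w
    refine Set.Infinite.mono ?_ hT'
    rintro y ⟨g, -, hy⟩
    exact ⟨g, hy⟩
  have e1 := emb_K T hT hmZ hVZ (W := W) (fun g => (continuous_const_smul g).measurable) hVW
    (⋃ m, D m) hDm (fun z hz z' hz' h => d3 z z' hz hz' h)
  have e2 := emb_Z (W := W) hmZ hinfZ hinfW (⋃ m, D m) hDm (fun z hz z' hz' h => d3 z z' hz hz' h)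
  -- from the shift to the space of codes
  obtain ⟨f, f1, f2, f3⟩ := t_Z2 t_COL Γ S hSf hSm hSu (SV Γ) measurable_SV VT_SV
  have e3 : IEmb (Orb Γ : SV Γ → SV Γ → Prop) (Orb Γ : ZC S → ZC S → Prop) :=
    IEmb.of_equivariant f f1 f2 f3
  have hDs : StandardBorelSpace (⋃ m, D m : Set (ZC S)) := hDm.standardBorel
  have hLR : Equivalence (Sum.LiftRel (fun a b : (⋃ m, D m : Set (ZC S)) =>
      ∃ g : Γ, g • (a : ZC S) = b) (Orb Γ : W → W → Prop)) := by
    refine ⟨?_, ?_, ?_⟩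
    · rintro (a | a)
      · exact Sum.LiftRel.inl ⟨1, one_smul _ _⟩
      · exact Sum.LiftRel.inr ⟨1, one_smul _ _⟩
    · rintro _ _ (⟨g, hg⟩ | ⟨g, hg⟩)
      · exact Sum.LiftRel.inl ⟨g⁻¹, by rw [← hg, inv_smul_smul]⟩
      · exact Sum.LiftRel.inr ⟨g⁻¹, by rw [← hg, inv_smul_smul]⟩
    · rintro _ _ _ (⟨g, hg⟩ | ⟨g, hg⟩) (⟨h, hh⟩ | ⟨h, hh⟩)
      · exact Sum.LiftRel.inl ⟨h * g, by rw [mul_smul, hg, hh]⟩
      · exact Sum.LiftRel.inr ⟨h * g, by rw [mul_smul, hg, hh]⟩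
  exact CAct.of_iso (t_SB _ _ _ _ orb_equivalence hLR (e3.trans e2) e1) hK

end

end Pool.Agent.N480.CV
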