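import Mathlib
import Pool.Agent.N480.CV.Fin1
import Pool.Agent.TH635.CR_ABS

set_option autoImplicit false

/-!
Project CV: assembly of part 2 and the final statement.
-/

namespace Pool.Agent.N480.CV

open Set MeasureTheory TopologicalSpace
open Pool.Agent.TH722.CR (CAct)

instance : StandardBorelSpace KB :=
  inferInstanceAs (StandardBorelSpace ((ℕ → Bool) × (Finset ℕ → ℕ → Bool)))

theorem CAct.of_empty {X : Type} [MeasurableSpace X] [IsEmpty X] (E : X → X → Prop) :
    CAct X E := by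
  let t : TopologicalSpace X := ⊥
  have h1 : DiscreteTopology X := ⟨rfl⟩
  have h2 : CompactSpace X := inferInstance
  have h3 : MetrizableSpace X := inferInstance
  have h4 : BorelSpace X := by
    refine ⟨MeasurableSpace.ext fun s => ?_⟩
    rw [Set.eq_empty_of_isEmpty s]
    exact ⟨fun _ => @MeasurableSet.empty _ (_), fun _ => @MeasurableSet.empty _ (_)⟩
  let act : MulAction Unit X := { smul := fun _ x => x, one_smul := fun _ => rfl,
                                  mul_smul := fun _ _ _ => rfl }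
  exact ⟨Unit, inferInstance, inferInstance, X, t, h2, h3, inferInstance, h4, act,
    ⟨fun _ => continuous_id⟩, MeasurableEquiv.refl X, fun a => isEmptyElim a⟩

theorem Iso.of_bij {X Y : Type} [MeasurableSpace X] [StandardBorelSpace X] [MeasurableSpace Y]
    [StandardBorelSpace Y] {E : X → X → Prop} {F : Y → Y → Prop} (f : X → Y) (hf : Measurable f)
    (hi : Function.Injective f) (hs : Function.Surjective f) (h : ∀ a b, E a b ↔ F (f a) (f b)) :
    Iso E F := by
  have hme := hf.measurableEmbedding hi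
  let e : X ≃ᵐ Y :=
    { toEquiv := Equiv.ofBijective f ⟨hi, hs⟩
      measurable_toFun := hf
      measurable_invFun := by
        intro s hs'
        have : (Equiv.ofBijective f ⟨hi, hs⟩).symm ⁻¹' s = f '' s := by
          ext y
          obtain ⟨x, rfl⟩ := hs y
          constructor
          · intro hy
            refine ⟨x, ?_, rfl⟩
            have h1 : (Equiv.ofBijective f ⟨hi, hs⟩).symm (f x) = x :=
              (Equiv.ofBijective f ⟨hi, hs⟩).symm_apply_apply x
            rw [mem_preimage, h1] at hy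
            exact hy
          · rintro ⟨x', hx', hxx⟩
            have h1 : (Equiv.ofBijective f ⟨hi, hs⟩).symm (f x) = x :=
              (Equiv.ofBijective f ⟨hi, hs⟩).symm_apply_apply x
            rw [mem_preimage, h1, ← hi hxx]
            exact hx'
        change MeasurableSet ((Equiv.ofBijective f ⟨hi, hs⟩).symm ⁻¹' s)
        rw [this]
        exact hme.measurableSet_image' hs' }
  exact ⟨e, h⟩

section

variable {Γ : Type} [Group Γ]

/-- infinite orbit -/
def AAx (Γ : Type) {X : Type} [Group Γ] [MulAction Γ X] (x : X) : Prop :=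
  {y | ∃ g : Γ, g • x = y}.Infinite

theorem AAx_iff {X : Type} [MulAction Γ X] (x : X) : AAx Γ x ↔ VTx Γ x ∨ LFx Γ x := by
  unfold AAx VTx LFx
  constructor
  · intro h
    by_cases h1 : ∃ T : Finset Γ, {y | ∃ g ∈ Subgroup.closure (T : Set Γ), g • x = y}.Infinite
    · exact Or.inl h1
    · refine Or.inr ⟨h, fun T => ?_⟩
      by_contra h2
      exact h1 ⟨T, h2⟩
  · rintro (⟨T, hT⟩ | ⟨h, -⟩)
    · refine hT.mono ?_
      rintro y ⟨g, -, hg⟩
      exact ⟨g, hg⟩
    · exact h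

theorem not_VTx_LFx {X : Type} [MulAction Γ X] (x : X) (h1 : VTx Γ x) (h2 : LFx Γ x) : False := by
  obtain ⟨T, hT⟩ := h1
  exact hT (h2.2 T)

theorem AAx.smul {X : Type} [MulAction Γ X] {x : X} (h : AAx Γ x) (k : Γ) : AAx Γ (k • x) := by
  refine Set.Infinite.mono ?_ h
  rintro y ⟨g, rfl⟩
  exact ⟨g * k⁻¹, by rw [mul_smul, inv_smul_smul]⟩

/-- points of the shift with infinite orbit -/
def SA (Γ : Type) [Group Γ] : SubMulAction Γ (Sft Γ) where
  carrier := {x | AAx Γ x}
  smul_mem' := fun k _ hx => AAx.smul hx k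

theorem meas_AAx [Countable Γ] {X : Type} [MeasurableSpace X] [StandardBorelSpace X]
    [MulAction Γ X] (hm : ∀ g : Γ, Measurable fun x : X => g • x) :
    MeasurableSet {x : X | AAx Γ x} := by
  have : {x : X | AAx Γ x} = {x : X | VTx Γ x} ∪ {x : X | LFx Γ x} := by
    ext x; exact AAx_iff x
  rw [this]
  exact (meas_VTx hm).union (meas_LFx hm)

instance [Countable Γ] : StandardBorelSpace (SA Γ) :=
  (meas_AAx (Γ := Γ) measurable_sft).standardBorel

theorem iso_SA [Countable Γ] : Iso (Orb Γ : SA Γ → SA Γ → Prop)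
    (Sum.LiftRel (Orb Γ : SV Γ → SV Γ → Prop) (Orb Γ : SL Γ → SL Γ → Prop)) := by
  refine Iso.symm (Iso.of_bij (Sum.elim
    (fun x : SV Γ => (⟨x.1, (AAx_iff _).2 (Or.inl x.2)⟩ : SA Γ))
    (fun x : SL Γ => (⟨x.1, (AAx_iff _).2 (Or.inr x.2)⟩ : SA Γ))) ?_ ?_ ?_ ?_)
  · exact (measurable_subtype_coe.subtype_mk).sumElim (measurable_subtype_coe.subtype_mk)
  · rintro (a | a) (b | b) hab
    · have h1 : (a : Sft Γ) = (b : Sft Γ) := congrArg (fun z : SA Γ => (z : Sft Γ)) hab
      exact congrArg Sum.inl (Subtype.ext h1)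
    · exfalso
      have h1 : (a : Sft Γ) = (b : Sft Γ) := congrArg Subtype.val hab
      exact not_VTx_LFx (Γ := Γ) (a : Sft Γ) a.2 (by rw [h1]; exact b.2)
    · exfalso
      have h1 : (a : Sft Γ) = (b : Sft Γ) := congrArg Subtype.val hab
      exact not_VTx_LFx (Γ := Γ) (a : Sft Γ) (by rw [h1]; exact b.2) a.2
    · have h1 : (a : Sft Γ) = (b : Sft Γ) := congrArg (fun z : SA Γ => (z : Sft Γ)) hab
      exact congrArg Sum.inr (Subtype.ext h1)
  · rintro ⟨x, hx⟩
    rcases (AAx_iff x).1 hx with h | h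
    · exact ⟨Sum.inl ⟨x, h⟩, rfl⟩
    · exact ⟨Sum.inr ⟨x, h⟩, rfl⟩
  · rintro (a | a) (b | b)
    · rw [Sum.liftRel_inl_inl]
      constructor
      · rintro ⟨g, rfl⟩; exact ⟨g, rfl⟩
      · rintro ⟨g, hg⟩
        have h1 : g • (a : Sft Γ) = (b : Sft Γ) := congrArg (fun z : SA Γ => (z : Sft Γ)) hg
        exact ⟨g, Subtype.ext h1⟩
    · simp only [Sum.not_liftRel_inl_inr, false_iff]
      rintro ⟨g, hg⟩
      have h1 : g • (a : Sft Γ) = (b : Sft Γ) := congrArg Subtype.val hg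
      exact not_VTx_LFx (Γ := Γ) (b : Sft Γ) (by rw [← h1]; exact VTx.smul a.2 g) b.2
    · simp only [Sum.not_liftRel_inr_inl, false_iff]
      rintro ⟨g, hg⟩
      have h1 : g • (a : Sft Γ) = (b : Sft Γ) := congrArg Subtype.val hg
      exact not_VTx_LFx (Γ := Γ) (b : Sft Γ) b.2 (by rw [← h1]; exact LFx.smul a.2 g)
    · rw [Sum.liftRel_inr_inr]
      constructor
      · rintro ⟨g, rfl⟩; exact ⟨g, rfl⟩
      · rintro ⟨g, hg⟩
        have h1 : g • (a : Sft Γ) = (b : Sft Γ) := congrArg (fun z : SA Γ => (z : Sft Γ)) hg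
        exact ⟨g, Subtype.ext h1⟩

/-! ### the hyperfinite structure of an action of locally finite type -/

theorem hf_of_LF [Countable Γ] {X : Type} [MeasurableSpace X] [StandardBorelSpace X]
    [MulAction Γ X] (hm : ∀ g : Γ, Measurable fun x : X => g • x) (h : LF Γ X) :
    ∃ F : ℕ → X → X → Prop, HF (Orb Γ : X → X → Prop) F := by
  classical
  obtain ⟨γ, hγ⟩ := exists_surjective_nat Γ
  let S : ℕ → Finset Γ := fun n => (Finset.range (n + 1)).image γ
  have hS : ∀ n, S n ⊆ S (n + 1) := fun n =>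
    Finset.image_subset_image (Finset.range_subset_range.2 (by omega))
  refine ⟨fun n x y => ∃ g ∈ Subgroup.closure (S n : Set Γ), g • x = y, ?_, ?_, ?_, ?_, ?_⟩
  · intro n
    refine ⟨fun x => ⟨1, one_mem _, one_smul _ x⟩, ?_, ?_⟩
    · rintro x y ⟨g, hg, rfl⟩
      exact ⟨g⁻¹, inv_mem hg, inv_smul_smul _ _⟩
    · rintro x y z ⟨g, hg, rfl⟩ ⟨k, hk, rfl⟩
      exact ⟨k * g, mul_mem hk hg, mul_smul _ _ _⟩
  · intro n
    have : {p : X × X | ∃ g ∈ Subgroup.closure (S n : Set Γ), g • p.1 = p.2} =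
        ⋃ g : Γ, ⋃ _ : g ∈ Subgroup.closure (S n : Set Γ), {p : X × X | g • p.1 = p.2} := by
      ext p; simp
    rw [this]
    exact MeasurableSet.iUnion fun g => MeasurableSet.iUnion fun _ =>
      measurableSet_eq_fun ((hm g).comp measurable_fst) measurable_snd
  · exact fun n x => (h x).2 (S n)
  · rintro n x y ⟨g, hg, hxy⟩
    exact ⟨g, Subgroup.closure_mono (by exact_mod_cast hS n) hg, hxy⟩
  · intro x y
    constructor
    · rintro ⟨g, hg⟩
      obtain ⟨n, rfl⟩ := hγ g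
      exact ⟨n, γ n, Subgroup.subset_closure (by simp [S]; exact ⟨n, by omega, rfl⟩), hg⟩
    · rintro ⟨n, g, -, hg⟩
      exact ⟨g, hg⟩

/-- the locally finite type part, if there is an invariant measure -/
theorem lpart [Countable Γ] (hFWD : S_FWD) (hBWD : S_BWD) (hKBL : S_KBL) (hI : HasInv Γ) :
    CAct (SL Γ) (Orb Γ : SL Γ → SL Γ → Prop) := by
  obtain ⟨k1, k2, -, -, -, -⟩ := hKBL
  obtain ⟨F, hF⟩ := hf_of_LF (Γ := Γ) measurable_SL LF_SL
  have e1 := hFWD (SL Γ) (Orb Γ) F hF (fun x => (LF_SL x).1)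
  obtain ⟨X, x1, x2, x3, x4, x5, x6⟩ := hBWD Γ hI
  have e2 := x6.trans (iemb_SL x4 x5)
  exact CAct.of_iso (t_SB _ _ _ _ orb_equivalence k1 e1 e2) k2

/-- absorption of a compressible part -/
theorem apart [Countable Γ] (T : Finset Γ) (hT : (Subgroup.closure (T : Set Γ) : Set Γ).Infinite)
    (hRED : S_RED) {L : Type} [MeasurableSpace L] [StandardBorelSpace L] (R : L → L → Prop)
    (F : ℕ → L → L → Prop) (hF : HF R F) (hC : Cmp R) :
    Iso (Sum.LiftRel (Orb Γ : SV Γ → SV Γ → Prop) R) (Orb Γ : SV Γ → SV Γ → Prop) := by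
  have hmeas : MeasurableSet {p : SV Γ × SV Γ | Orb Γ p.1 p.2} := by
    have : {p : SV Γ × SV Γ | Orb Γ p.1 p.2} = ⋃ g : Γ, {p : SV Γ × SV Γ | g • p.1 = p.2} := by
      ext p; simp only [mem_iUnion]; rfl
    rw [this]
    exact MeasurableSet.iUnion fun g =>
      measurableSet_eq_fun ((measurable_SV g).comp measurable_fst) measurable_snd
  have hct : ∀ y : SV Γ, {y' | Orb Γ y y'}.Countable := fun y =>
    Set.countable_range (fun g : Γ => g • y)
  obtain ⟨s, s1, s2, s3⟩ := Pool.Agent.H139R3.FM.feldman_moore (Orb Γ : SV Γ → SV Γ → Prop)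
    orb_equivalence hmeas hct
  obtain ⟨γ, hγ⟩ := exists_surjective_nat Γ
  have hns : ¬ ∃ f : SV Γ → ℝ, Measurable f ∧ ∀ x y, Orb Γ x y ↔ f x = f y := by
    rintro ⟨f, f1, f2⟩
    obtain ⟨W, w1, w2, w3, w4, w5, N, p, π, w6, w7, w8⟩ := t_W Γ γ
    let m1 : MeasurableSpace W := borel W
    have m2 : BorelSpace W := ⟨rfl⟩
    have m3 : StandardBorelSpace W := inferInstance
    have hVW : VT Γ W := by
      intro w
      refine ⟨T, ?_⟩
      have : {y | ∃ g ∈ Subgroup.closure (T : Set Γ), g • w = y} =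
          (fun g : Γ => g • w) '' (Subgroup.closure (T : Set Γ) : Set Γ) := by
        ext y; simp
      rw [this]
      refine hT.image (fun g _ h _ hgh => ?_)
      have h1 : (h⁻¹ * g) • w = w := by
        rw [mul_smul]
        rw [show g • w = h • w from hgh, inv_smul_smul]
      have h2 := w6 _ _ h1
      exact (inv_mul_eq_one.1 h2).symm
    obtain ⟨e, e1, e2, e3, e4⟩ := iemb_SV (Γ := Γ) (X := W)
      (fun g => (continuous_const_smul g).measurable) hVW
    refine t_NS Γ W ?_ ⟨fun w => f (e w), f1.comp e1, fun x y => by rw [e3, f2]⟩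
    intro w
    obtain ⟨T', hT'⟩ := hVW w
    refine Set.Infinite.mono ?_ hT'
    rintro y ⟨g, -, hy⟩
    exact ⟨g, hy⟩
  obtain ⟨j, j1, j2, j3⟩ := Pool.Agent.TH286.CR.glimm_effros s s1 s2
    (Orb Γ : SV Γ → SV Γ → Prop) orb_equivalence s3 hns
  obtain ⟨c, c1, c2, c3⟩ := hRED L R F hF
  obtain ⟨st, t1, t2, t3⟩ := hC
  obtain ⟨h, hh⟩ := Pool.Agent.TH635.CRAbs.absorb s s1 s2 (Orb Γ : SV Γ → SV Γ → Prop)
    orb_equivalence s3 j j1 j2 j3 R c c1 c2 c3 st t1 t2 t3
  exact ⟨h, hh⟩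

/-- the main theorem -/
theorem main_cact (hNM : S_NM) (hLFG : S_LFG) (hFWD : S_FWD) (hBWD : S_BWD) (hRED : S_RED)
    (hKBL : S_KBL) (Γ : Type) [Group Γ] [Countable Γ] [Infinite Γ] :
    CAct (SA Γ) (Orb Γ : SA Γ → SA Γ → Prop) := by
  by_cases hI : HasInv Γ
  · have hL := lpart (Γ := Γ) hFWD hBWD hKBL hI
    have hV : CAct (SV Γ) (Orb Γ : SV Γ → SV Γ → Prop) := by
      by_cases hT : ∃ T : Finset Γ, (Subgroup.closure (T : Set Γ) : Set Γ).Infinite
      · obtain ⟨T, hT⟩ := hT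
        exact vpart Γ T hT
      · have he : IsEmpty (SV Γ) := by
          refine ⟨fun x => ?_⟩
          obtain ⟨T, hT'⟩ := VT_SV x
          apply hT
          refine ⟨T, fun hfin => hT' ?_⟩
          refine (hfin.image fun g : Γ => g • x).subset ?_
          rintro y ⟨g, hg, rfl⟩
          exact ⟨g, hg, rfl⟩
        exact CAct.of_empty _
    exact CAct.of_iso iso_SA (hV.sum hL)
  · have hT : ∃ T : Finset Γ, (Subgroup.closure (T : Set Γ) : Set Γ).Infinite := by
      by_contra hT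
      apply hI
      apply hLFG Γ
      intro T
      by_contra h
      exact hT ⟨T, h⟩
    obtain ⟨T, hT⟩ := hT
    obtain ⟨F, hF⟩ := hf_of_LF (Γ := Γ) measurable_SL LF_SL
    have hC := hNM Γ hI (SL Γ) measurable_SL LF_SL
    exact CAct.of_iso (iso_SA.trans (apart T hT hRED (Orb Γ) F hF hC)) (vpart Γ T hT)

/-- the final statement -/
theorem final (hNM : S_NM) (hLFG : S_LFG) (hFWD : S_FWD) (hBWD : S_BWD) (hRED : S_RED)
    (hKBL : S_KBL) :
    ∀ (Γ : Type) [Group Γ] [Countable Γ] [Infinite Γ],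
      ∃ (Y : Type) (tY : TopologicalSpace Y) (mY : MeasurableSpace Y),
        CompactSpace Y ∧ TopologicalSpace.MetrizableSpace Y ∧ BorelSpace Y ∧
        ∃ (Δ : Type) (gΔ : Group Δ) (aΔ : MulAction Δ Y),
          Countable Δ ∧ ContinuousConstSMul Δ Y ∧
          ∃ f : (Γ → ℕ → Bool) → Y, Measurable f ∧
            Set.InjOn f {x : Γ → ℕ → Bool |
              (Set.range (fun γ : Γ => fun δ : Γ => x (γ⁻¹ * δ))).Infinite} ∧
            f '' {x : Γ → ℕ → Bool |
              (Set.range (fun γ : Γ => fun δ : Γ => x (γ⁻¹ * δ))).Infinite} = Set.univ ∧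
            ∀ a ∈ {x : Γ → ℕ → Bool |
                (Set.range (fun γ : Γ => fun δ : Γ => x (γ⁻¹ * δ))).Infinite},
            ∀ b ∈ {x : Γ → ℕ → Bool |
                (Set.range (fun γ : Γ => fun δ : Γ => x (γ⁻¹ * δ))).Infinite},
              ((∃ γ : Γ, ∀ δ : Γ, b δ = a (γ⁻¹ * δ)) ↔ ∃ g : Δ, g • f a = f b) := by
  classical
  intro Γ _ _ _
  obtain ⟨Δ, d1, d2, Y, y1, y2, y3, y4, y5, y6, y7, f, hf⟩ :=
    main_cact hNM hLFG hFWD hBWD hRED hKBL Γ
  have hset : ∀ x : Sft Γ, AAx Γ x ↔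
      (Set.range (fun γ : Γ => fun δ : Γ => x (γ⁻¹ * δ))).Infinite := fun x => Iff.rfl
  -- a point with infinite orbit
  let x0 : Sft Γ := (fun δ _ => decide (δ = 1) : Γ → ℕ → Bool)
  have hx0 : AAx Γ x0 := by
    rw [hset]
    refine Set.infinite_range_of_injective fun a b hab => ?_
    have h1 := congrFun (congrFun hab a) 0
    have h2 : b⁻¹ * a = 1 := by simpa [x0] using h1.symm
    exact (inv_mul_eq_one.1 h2).symm
  let y0 : Y := f ⟨_, hx0⟩
  let g : Sft Γ → Y := fun x => if h : AAx Γ x then f ⟨x, h⟩ else y0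
  have hg : ∀ (x : Sft Γ) (h : AAx Γ x), g x = f ⟨x, h⟩ := fun x h => dif_pos h
  refine ⟨Y, y1, y4, y2, y3, y5, Δ, d1, y6, d2, y7, g, ?_, ?_, ?_, ?_⟩
  · have h1 : Measurable fun x : {x : Sft Γ | AAx Γ x} => f ⟨x.1, x.2⟩ := f.measurable
    have h2 : Measurable fun _ : ({x : Sft Γ | AAx Γ x}ᶜ : Set (Sft Γ)) => y0 := measurable_const
    exact Measurable.dite h1 h2 (meas_AAx (Γ := Γ) measurable_sft)
  · intro a ha b hb hab
    rw [hg a ((hset a).2 ha), hg b ((hset b).2 hb)] at hab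
    exact congrArg Subtype.val (f.injective hab)
  · refine eq_univ_of_forall fun y => ?_
    obtain ⟨⟨x, hx⟩, rfl⟩ := f.surjective y
    exact ⟨x, (hset x).1 hx, hg x hx⟩
  · intro a ha b hb
    rw [hg a ((hset a).2 ha), hg b ((hset b).2 hb), ← hf]
    constructor
    · rintro ⟨γ, hγ⟩
      exact ⟨γ, Subtype.ext (funext fun δ => (hγ δ).symm)⟩
    · rintro ⟨γ, hγ⟩
      exact ⟨γ, fun δ => (congrFun (congrArg Subtype.val hγ) δ).symm⟩

end

end Pool.Agent.N480.CV
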