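import Mathlib
import Pool.Agent.N480.CV.Stm2
import Pool.Agent.H139R3.FM

set_option autoImplicit false

/-!
# Reduction of a hyperfinite equivalence relation to eventual equality

The code of the `F n`-class `C` is the finite set of the triples `(φ n z, word n z, φ (n + 1) z)`,
`z ∈ C`, where `φ n : X → ℕ` is a Borel function injective on every `F n`-class.
-/

namespace Pool.Agent.N480.CV

namespace RED

open Set Filter

/-- countable-valued functions with measurable fibres -/
theorem enc_meas {X : Type} [MeasurableSpace X] {α : Type} [Encodable α] (D : X → α)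
    (h : ∀ S, MeasurableSet {x | D x = S}) : Measurable fun x => Encodable.encode (D x) := by
  apply measurable_to_countable'
  intro k
  have : (fun x => Encodable.encode (D x)) ⁻¹' {k} =
      ⋃ S : α, ⋃ _ : Encodable.encode S = k, {x | D x = S} := by
    ext x
    simp only [mem_preimage, mem_singleton_iff, mem_iUnion, mem_setOf_eq, exists_prop]
    constructor
    · intro hx
      exact ⟨D x, hx, rfl⟩
    · rintro ⟨S, hS, hx⟩
      rw [hx, hS]
  rw [this]
  exact MeasurableSet.iUnion fun S => MeasurableSet.iUnion fun _ => h S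

/-- the word of length `k` -/
def W {X : Type} (e : X → ℕ → Bool) (k : ℕ) (x : X) : Finset ℕ :=
  (Finset.range k).filter fun i => e x i = true

theorem mem_W {X : Type} (e : X → ℕ → Bool) (k : ℕ) (x : X) (i : ℕ) :
    i ∈ W e k x ↔ i < k ∧ e x i = true := by
  simp [W]

theorem W_eq {X : Type} (e : X → ℕ → Bool) (k : ℕ) (x y : X) (h : W e k x = W e k y) :
    ∀ i < k, e x i = e y i := by
  intro i hi
  have h1 : i ∈ W e k x ↔ i ∈ W e k y := by rw [h]
  rw [mem_W, mem_W] at h1
  simp only [hi, true_and] at h1
  exact Bool.eq_iff_iff.2 h1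

theorem W_meas {X : Type} [MeasurableSpace X] (e : X → ℕ → Bool) (he : Measurable e) (k : ℕ)
    (S : Finset ℕ) : MeasurableSet {x | W e k x = S} := by
  have : {x | W e k x = S} = ⋂ i : ℕ, {x | (i < k ∧ e x i = true) ↔ i ∈ S} := by
    ext x
    simp only [mem_setOf_eq, mem_iInter, Finset.ext_iff, mem_W]
  rw [this]
  refine MeasurableSet.iInter fun i => ?_
  have h1 : MeasurableSet {x | e x i = true} :=
    ((measurable_pi_apply i).comp he) (measurableSet_singleton true)
  have h2 : MeasurableSet {x | i < k ∧ e x i = true} := (MeasurableSet.const (i < k)).inter h1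
  exact measurableSet_setOf.2
    (Measurable.iff (measurableSet_setOf.1 h2) (measurableSet_setOf.1 (MeasurableSet.const (i ∈ S))))

/-- a Borel function to the natural numbers injective on each class -/
theorem exists_phi {X : Type} [MeasurableSpace X] (e : X → ℕ → Bool) (he : Measurable e)
    (hinj : Function.Injective e) (R : X → X → Prop) (hR : Equivalence R)
    (hfin : ∀ x, {y | R x y}.Finite) (s : ℕ → X → X) (hs : ∀ n, Measurable (s n))
    (hsR : ∀ x y, R x y ↔ ∃ n, s n x = y) :
    ∃ φ : X → ℕ, Measurable φ ∧ ∀ x y, R x y → φ x = φ y → x = y := by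
  classical
  let P : X → ℕ → Prop := fun x k => ∀ i j, W e k (s i x) = W e k (s j x) → s i x = s j x
  have hex : ∀ x, ∃ k, P x k := by
    intro x
    have h1 : ∀ p : X × X, ∃ k, ∀ m, k ≤ m → (W e m p.1 = W e m p.2 → p.1 = p.2) := by
      intro p
      by_cases hp : p.1 = p.2
      · exact ⟨0, fun _ _ _ => hp⟩
      · have : e p.1 ≠ e p.2 := fun h => hp (hinj h)
        obtain ⟨i, hi⟩ := Function.ne_iff.1 this
        refine ⟨i + 1, fun m hm h => ?_⟩
        exact absurd (W_eq e m p.1 p.2 h i (by omega)) hi
    choose K hK using h1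
    have hf : ({y | R x y} ×ˢ {y | R x y}).Finite := (hfin x).prod (hfin x)
    refine ⟨hf.toFinset.sup K, ?_⟩
    intro i j hij
    have hi : R x (s i x) := (hsR _ _).2 ⟨i, rfl⟩
    have hj : R x (s j x) := (hsR _ _).2 ⟨j, rfl⟩
    have hm : (s i x, s j x) ∈ hf.toFinset := by
      rw [Set.Finite.mem_toFinset]
      exact ⟨hi, hj⟩
    exact hK (s i x, s j x) _ (Finset.le_sup hm) hij
  have hPm : ∀ k, MeasurableSet {x | P x k} := by
    intro k
    have : {x | P x k} = ⋂ i, ⋂ j, ({x | s i x = s j x} ∪
        (⋃ S : Finset ℕ, {x | W e k (s i x) = S} ∩ {x | W e k (s j x) = S})ᶜ) := by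
      ext x
      simp only [P, mem_setOf_eq, mem_iInter, mem_union, mem_compl_iff, mem_iUnion, mem_inter_iff]
      refine forall_congr' fun i => forall_congr' fun j => ?_
      constructor
      · intro h
        by_cases h1 : W e k (s i x) = W e k (s j x)
        · exact Or.inl (h h1)
        · right
          rintro ⟨S, h2, h3⟩
          exact h1 (h2.trans h3.symm)
      · rintro (h | h) h1
        · exact h
        · exact absurd ⟨_, rfl, h1.symm⟩ h
    rw [this]
    refine MeasurableSet.iInter fun i => MeasurableSet.iInter fun j => ?_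
    refine MeasurableSet.union ?_ (MeasurableSet.compl (MeasurableSet.iUnion fun S => ?_))
    · have : {x | s i x = s j x} = {x | e (s i x) = e (s j x)} := by
        ext x
        exact ⟨fun h => congrArg e h, fun h => hinj h⟩
      rw [this]
      exact measurableSet_eq_fun (he.comp (hs i)) (he.comp (hs j))
    · exact ((hs i) (W_meas e he k S)).inter ((hs j) (W_meas e he k S))
  let m : X → ℕ := fun x => Nat.find (hex x)
  have hm : Measurable m := measurable_find hex hPm
  have hmP : ∀ x, P x (m x) := fun x => Nat.find_spec (hex x)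
  have hinv : ∀ x y, R x y → ∀ k, P x k → P y k := by
    intro x y hxy k h i j hij
    obtain ⟨a, ha⟩ := (hsR x (s i y)).1 (hR.trans hxy ((hsR _ _).2 ⟨i, rfl⟩))
    obtain ⟨b, hb⟩ := (hsR x (s j y)).1 (hR.trans hxy ((hsR _ _).2 ⟨j, rfl⟩))
    have := h a b
    rw [ha, hb] at this
    exact this hij
  have hminv : ∀ x y, R x y → m x = m y := by
    intro x y hxy
    apply le_antisymm
    · exact Nat.find_min' _ (hinv y x (hR.symm hxy) _ (hmP y))
    · exact Nat.find_min' _ (hinv x y hxy _ (hmP x))
  refine ⟨fun x => Encodable.encode (W e (m x) x), ?_, ?_⟩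
  · apply enc_meas
    intro S
    have : {x | W e (m x) x = S} = ⋃ k, ({x | m x = k} ∩ {x | W e k x = S}) := by
      ext x
      simp only [mem_setOf_eq, mem_iUnion, mem_inter_iff]
      constructor
      · intro h
        exact ⟨m x, rfl, h⟩
      · rintro ⟨k, h1, h2⟩
        rw [h1]
        exact h2
    rw [this]
    exact MeasurableSet.iUnion fun k => (hm (measurableSet_singleton k)).inter (W_meas e he k S)
  · intro x y hxy h
    have h1 : W e (m x) x = W e (m y) y := Encodable.encode_injective h
    rw [← hminv x y hxy] at h1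
    obtain ⟨a, ha⟩ := (hsR x x).1 (hR.refl x)
    obtain ⟨b, hb⟩ := (hsR x y).1 hxy
    have h2 := hmP x a b
    rw [ha, hb] at h2
    exact h2 h1

/-- the set of values on the class is measurable -/
theorem cls_meas {X : Type} [MeasurableSpace X] (R : X → X → Prop)
    (hfin : ∀ x, {y | R x y}.Finite) (s : ℕ → X → X) (hs : ∀ n, Measurable (s n))
    (hsR : ∀ x y, R x y ↔ ∃ n, s n x = y) (τ : X → ℕ) (hτ : Measurable τ) (S : Finset ℕ) :
    MeasurableSet {x | (hfin x).toFinset.image τ = S} := by
  have : {x | (hfin x).toFinset.image τ = S} =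
      ⋂ t : ℕ, {x | (∃ i, τ (s i x) = t) ↔ t ∈ S} := by
    ext x
    simp only [mem_setOf_eq, mem_iInter, Finset.ext_iff, Finset.mem_image,
      Set.Finite.mem_toFinset]
    refine forall_congr' fun t => ?_
    have : (∃ a, R x a ∧ τ a = t) ↔ ∃ i, τ (s i x) = t := by
      constructor
      · rintro ⟨a, ha, h⟩
        obtain ⟨i, hi⟩ := (hsR _ _).1 ha
        exact ⟨i, by rw [hi]; exact h⟩
      · rintro ⟨i, h⟩
        exact ⟨s i x, (hsR _ _).2 ⟨i, rfl⟩, h⟩
    rw [this]
  rw [this]
  refine MeasurableSet.iInter fun t => ?_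
  have h1 : MeasurableSet {x | ∃ i, τ (s i x) = t} := by
    have : {x | ∃ i, τ (s i x) = t} = ⋃ i, {x | τ (s i x) = t} := by
      ext x
      simp
    rw [this]
    exact MeasurableSet.iUnion fun i => (hτ.comp (hs i)) (measurableSet_singleton t)
  exact measurableSet_setOf.2
    (Measurable.iff (measurableSet_setOf.1 h1) (measurableSet_setOf.1 (MeasurableSet.const (t ∈ S))))

end RED

open Set Filter in
theorem t_RED : S_RED := by
  classical
  intro X _ _ E F hF
  obtain ⟨e, he, hinj⟩ := MeasurableSpace.measurable_injection_nat_bool_of_countablySeparated X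
  have hs0 : ∀ n, ∃ s : ℕ → X → X, (∀ i, Measurable (s i)) ∧ ∀ x y, F n x y ↔ ∃ i, s i x = y := by
    intro n
    obtain ⟨s, h1, _, h3⟩ := Pool.Agent.H139R3.FM.feldman_moore (F n) (hF.eqv n) (hF.meas n)
      (fun y => (hF.fin n y).countable)
    exact ⟨s, h1, h3⟩
  choose s hs hsF using hs0
  have hφ0 := fun n => RED.exists_phi e he hinj (F n) (hF.eqv n) (hF.fin n) (s n) (hs n) (hsF n)
  choose φ hφ hφi using hφ0
  -- the label of a point
  let τ : ℕ → X → ℕ := fun n z =>
    Nat.pair (φ n z) (Nat.pair (Encodable.encode (RED.W e n z)) (φ (n + 1) z))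
  have hpair : Measurable fun p : ℕ × ℕ => Nat.pair p.1 p.2 := measurable_from_prod_countable_right fun _ => measurable_from_top
  have hτ : ∀ n, Measurable (τ n) := by
    intro n
    have h1 : Measurable fun z : X => Encodable.encode (RED.W e n z) :=
      RED.enc_meas _ (RED.W_meas e he n)
    have h2 : Measurable fun z : X => Nat.pair (Encodable.encode (RED.W e n z)) (φ (n + 1) z) :=
      hpair.comp (h1.prodMk (hφ (n + 1)))
    exact hpair.comp ((hφ n).prodMk h2)
  have hτe : ∀ n z z', τ n z = τ n z' →
      φ n z = φ n z' ∧ RED.W e n z = RED.W e n z' ∧ φ (n + 1) z = φ (n + 1) z' := by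
    intro n z z' h
    have h1 := Nat.pair_eq_pair.1 h
    have h2 := Nat.pair_eq_pair.1 h1.2
    exact ⟨h1.1, Encodable.encode_injective h2.1, h2.2⟩
  let D : ℕ → X → Finset ℕ := fun n x => (hF.fin n x).toFinset.image (τ n)
  have hDmem : ∀ n x t, t ∈ D n x ↔ ∃ z, F n x z ∧ τ n z = t := by
    intro n x t
    simp only [D, Finset.mem_image, Set.Finite.mem_toFinset, mem_setOf_eq]
  have hDinv : ∀ n x y, F n x y → D n x = D n y := by
    intro n x y hxy
    ext t
    rw [hDmem, hDmem]
    constructor
    · rintro ⟨z, h1, h2⟩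
      exact ⟨z, (hF.eqv n).trans ((hF.eqv n).symm hxy) h1, h2⟩
    · rintro ⟨z, h1, h2⟩
      exact ⟨z, (hF.eqv n).trans hxy h1, h2⟩
  have hmono : ∀ n m, n ≤ m → ∀ x y, F n x y → F m x y := by
    intro n m hnm x y h
    induction hnm with
    | refl => exact h
    | step _ ih => exact hF.mono _ _ _ ih
  -- the key step
  have key : ∀ N x y, (∀ n, N ≤ n → D n x = D n y) → F N x y := by
    intro N x y h
    have hx : ∀ n, N ≤ n → ∃ z, F n y z ∧ τ n z = τ n x := by
      intro n hn
      have h1 : τ n x ∈ D n x := (hDmem _ _ _).2 ⟨x, (hF.eqv n).refl x, rfl⟩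
      rw [h n hn] at h1
      exact (hDmem _ _ _).1 h1
    obtain ⟨z, hz1, hz2⟩ := hx N le_rfl
    have hall : ∀ n, N ≤ n → τ n z = τ n x := by
      intro n hn
      induction n, hn using Nat.le_induction with
      | base => exact hz2
      | succ n hn ih =>
        obtain ⟨z', h1, h2⟩ := hx (n + 1) (by omega)
        have h3 : φ (n + 1) z = φ (n + 1) x := (hτe n z x ih).2.2
        have h4 : φ (n + 1) z' = φ (n + 1) x := (hτe (n + 1) z' x h2).1
        have h5 : F (n + 1) y z := hmono N (n + 1) (by omega) _ _ hz1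
        have h6 : z' = z := hφi (n + 1) z' z ((hF.eqv (n + 1)).trans ((hF.eqv (n + 1)).symm h1) h5)
          (h4.trans h3.symm)
        rw [← h6]
        exact h2
    have hzx : z = x := by
      apply hinj
      funext i
      have h1 := (hτe (max N (i + 1)) z x (hall _ (le_max_left _ _))).2.1
      exact RED.W_eq e _ z x h1 i (lt_of_lt_of_le (Nat.lt_succ_self i) (le_max_right _ _))
    rw [hzx] at hz1
    exact (hF.eqv N).symm hz1
  refine ⟨fun x n => Nat.pair (Encodable.encode (D n x)) (if n = 0 then φ 0 x else 0), ?_, ?_, ?_⟩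
  · refine measurable_pi_lambda _ fun n => ?_
    have h1 : Measurable fun x : X => Encodable.encode (D n x) :=
      RED.enc_meas _ (fun S => RED.cls_meas (F n) (hF.fin n) (s n) (hs n) (hsF n) (τ n) (hτ n) S)
    have h2 : Measurable fun x : X => (if n = 0 then φ 0 x else 0) := by
      by_cases hn : n = 0
      · simp only [hn, if_true]
        exact hφ 0
      · simp only [hn, if_false]
        exact measurable_const
    exact hpair.comp (h1.prodMk h2)
  · intro x y hxy
    have h1 : ∀ n, D n x = D n y ∧ (if n = 0 then φ 0 x else 0) = (if n = 0 then φ 0 y else 0) := by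
      intro n
      have h2 := Nat.pair_eq_pair.1 (congrFun hxy n)
      exact ⟨Encodable.encode_injective h2.1, h2.2⟩
    have h2 : F 0 x y := key 0 x y fun n _ => (h1 n).1
    have h3 := (h1 0).2
    simp only [if_true] at h3
    exact hφi 0 x y h2 h3
  · intro x y
    constructor
    · intro h
      obtain ⟨N, hN⟩ := (hF.union x y).1 h
      refine ⟨N + 1, fun n hn => ?_⟩
      have h1 : D n x = D n y := hDinv n x y (hmono N n (by omega) _ _ hN)
      have h2 : n ≠ 0 := by omega
      simp only [h1, h2, if_false]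
    · rintro ⟨N, hN⟩
      refine (hF.union x y).2 ⟨N, key N x y fun n hn => ?_⟩
      exact Encodable.encode_injective (Nat.pair_eq_pair.1 (hN n hn)).1

end Pool.Agent.N480.CV
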