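import Mathlib
import Pool.Agent.N480.CV.Stm2
import Pool.Agent.TH722.CR.Jobs

set_option autoImplicit false

/-!
Project CV, part 2, BWD (helper413): the model embeds invariantly in the orbit relation of an
action of `Γ` of locally finite type.
-/

namespace Pool.Agent.N480.CV

namespace BWD

open Set MeasureTheory

open Classical in
/-- the finite set of differences -/
noncomputable def D (o o' : ℕ → Bool) : Finset ℕ :=
  if h : {n | o n ≠ o' n}.Finite then h.toFinset else ∅

theorem te_fin {o o' : ℕ → Bool} : TE o o' ↔ {n | o n ≠ o' n}.Finite := by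
  constructor
  · rintro ⟨n, hn⟩
    refine (Set.finite_lt_nat n).subset ?_
    intro k hk
    by_contra hc
    exact hk (hn k (not_lt.1 hc))
  · intro h
    obtain ⟨M, hM⟩ := h.bddAbove
    refine ⟨M + 1, fun k hk => ?_⟩
    by_contra hc
    have := hM (show k ∈ {n | o n ≠ o' n} from hc)
    omega

theorem mem_D {o o' : ℕ → Bool} (h : TE o o') (n : ℕ) : n ∈ D o o' ↔ o n ≠ o' n := by
  unfold D
  rw [dif_pos (te_fin.1 h)]
  simp

theorem te_refl (o : ℕ → Bool) : TE o o := ⟨0, fun _ _ => rfl⟩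

theorem te_symm {o o' : ℕ → Bool} (h : TE o o') : TE o' o := by
  obtain ⟨n, hn⟩ := h
  exact ⟨n, fun k hk => (hn k hk).symm⟩

theorem te_trans {a b c : ℕ → Bool} (h : TE a b) (h' : TE b c) : TE a c := by
  obtain ⟨n, hn⟩ := h
  obtain ⟨m, hm⟩ := h'
  exact ⟨max n m, fun k hk => (hn k (le_trans (le_max_left _ _) hk)).trans
    (hm k (le_trans (le_max_right _ _) hk))⟩

theorem te_flip (s : Finset ℕ) (o : ℕ → Bool) : TE o (flip s o) := by
  rw [te_fin]
  refine s.finite_toSet.subset ?_
  intro n hn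
  by_contra hc
  apply hn
  have : n ∉ s := hc
  simp [flip, this]

theorem D_flip (s : Finset ℕ) (o : ℕ → Bool) : D o (flip s o) = s := by
  ext n
  rw [mem_D (te_flip s o)]
  by_cases h : n ∈ s <;> simp [flip, h]

theorem flip_D {o o' : ℕ → Bool} (h : TE o o') : flip (D o o') o = o' := by
  funext n
  by_cases hn : n ∈ D o o'
  · have h3 := (mem_D h n).1 hn
    simp only [flip, if_pos hn]
    revert h3
    cases o n <;> cases o' n <;> simp
  · have h2 : ¬ (o n ≠ o' n) := fun hc => hn ((mem_D h n).2 hc)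
    simp only [flip, if_neg hn]
    exact not_not.1 h2

theorem D_trans {a b c : ℕ → Bool} (h : TE a b) (h' : TE b c) :
    symmDiff (D a b) (D b c) = D a c := by
  ext n
  rw [Finset.mem_symmDiff, mem_D h, mem_D h', mem_D (te_trans h h')]
  cases a n <;> cases b n <;> cases c n <;> simp

/-- the modification of a point of the model with given first coordinate -/
noncomputable def sft (o' : ℕ → Bool) (p : KB) : KB := (o', fun t => p.2 (symmDiff (D p.1 o') t))

theorem sft_sft {p : KB} {a b : ℕ → Bool} (h : TE p.1 a) (h' : TE a b) :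
    sft b (sft a p) = sft b p := by
  refine Prod.ext rfl ?_
  funext t
  show p.2 (symmDiff (D p.1 a) (symmDiff (D a b) t)) = p.2 (symmDiff (D p.1 b) t)
  rw [← symmDiff_assoc, D_trans h h']

theorem sft_self (p : KB) : sft p.1 p = p := by
  refine Prod.ext rfl ?_
  funext t
  show p.2 (symmDiff (D p.1 p.1) t) = p.2 t
  have h : D p.1 p.1 = ⊥ := by
    ext n
    rw [mem_D (te_refl _)]
    simp
  rw [h, bot_symmDiff]

theorem sft_inj {p q : KB} {a b : ℕ → Bool} (h : p.1 = q.1) (hab : sft a p = sft b q) : p = q := by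
  have e : a = b := congrArg Prod.fst hab
  subst e
  refine Prod.ext h ?_
  have h2 := congrArg Prod.snd hab
  funext t
  have h3 := congrFun h2 (symmDiff (D p.1 a) t)
  change p.2 (symmDiff (D p.1 a) (symmDiff (D p.1 a) t)) =
    q.2 (symmDiff (D q.1 a) (symmDiff (D p.1 a) t)) at h3
  rw [← h, symmDiff_symmDiff_cancel_left] at h3
  exact h3

theorem rb_iff (p q : KB) : RB p q ↔ TE p.1 q.1 ∧ q = sft q.1 p := by
  constructor
  · rintro ⟨s, h1, h2⟩
    refine ⟨h1 ▸ te_flip s p.1, Prod.ext rfl ?_⟩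
    funext t
    show q.2 t = p.2 (symmDiff (D p.1 q.1) t)
    rw [h2 t, h1, D_flip]
  · rintro ⟨h1, h2⟩
    refine ⟨D p.1 q.1, (flip_D h1).symm, fun t => ?_⟩
    conv_lhs => rw [h2]
    rfl

theorem rb_sft {p : KB} {a : ℕ → Bool} (h : TE p.1 a) : RB p (sft a p) :=
  (rb_iff _ _).2 ⟨h, rfl⟩

theorem meas_TE {α : Type} [MeasurableSpace α] {u v : α → ℕ → Bool} (hu : Measurable u)
    (hv : Measurable v) : MeasurableSet {a | TE (u a) (v a)} := by
  have e : {a | TE (u a) (v a)} = ⋃ n : ℕ, ⋂ k : ℕ, ⋂ (_ : n ≤ k), {a | u a k = v a k} := by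
    ext a
    simp [TE]
  rw [e]
  refine MeasurableSet.iUnion fun n => MeasurableSet.iInter fun k =>
    MeasurableSet.iInter fun _ => ?_
  exact measurableSet_eq_fun (measurable_pi_iff.1 hu k) (measurable_pi_iff.1 hv k)

theorem meas_D {α : Type} [MeasurableSpace α] {u v : α → ℕ → Bool} (hu : Measurable u)
    (hv : Measurable v) (s : Finset ℕ) : MeasurableSet {a | D (u a) (v a) = s} := by
  have e : {a | D (u a) (v a) = s} =
      ({a | TE (u a) (v a)} ∩ ⋂ n : ℕ, {a | n ∈ s ↔ ¬ (u a n = v a n)}) ∪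
        ({a | TE (u a) (v a)}ᶜ ∩ {_a | ∅ = s}) := by
    ext a
    by_cases h : TE (u a) (v a)
    · simp only [mem_union, mem_inter_iff, mem_ofPred_eq, mem_compl_iff, mem_iInter, h, true_and,
        not_true_eq_false, false_and, or_false]
      rw [Finset.ext_iff]
      exact forall_congr' fun n => by rw [mem_D h]; exact Iff.comm
    · simp only [mem_union, mem_inter_iff, mem_ofPred_eq, mem_compl_iff, mem_iInter, h, false_and,
        not_false_eq_true, true_and, false_or]
      unfold D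
      rw [dif_neg (fun hc => h (te_fin.2 hc))]
  rw [e]
  have h1 := meas_TE hu hv
  refine (h1.inter (MeasurableSet.iInter fun n => ?_)).union (h1.compl.inter (MeasurableSet.const _))
  have h2 : MeasurableSet {a | u a n = v a n} :=
    measurableSet_eq_fun (measurable_pi_iff.1 hu n) (measurable_pi_iff.1 hv n)
  by_cases hn : n ∈ s
  · simp only [hn, true_iff]
    exact h2.compl
  · simp only [hn, false_iff, not_not]
    exact h2

theorem meas_count {α β ι : Type} [Countable ι] [MeasurableSpace α] [MeasurableSpace β]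
    (κ : α → ι) (g : ι → α → β) (h1 : ∀ i, MeasurableSet {a | κ a = i})
    (h2 : ∀ i, Measurable (g i)) : Measurable fun a => g (κ a) a := by
  intro B hB
  have e : (fun a => g (κ a) a) ⁻¹' B = ⋃ i, {a | κ a = i} ∩ g i ⁻¹' B := by
    ext a
    simp
  rw [e]
  exact MeasurableSet.iUnion fun i => (h1 i).inter (h2 i hB)

theorem meas_sft {α : Type} [MeasurableSpace α] {u : α → ℕ → Bool} {v : α → KB}
    (hu : Measurable u) (hv : Measurable v) : Measurable fun a => sft (u a) (v a) := by
  refine Measurable.prodMk hu ?_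
  rw [measurable_pi_iff]
  intro t
  exact meas_count (fun a => D (v a).1 (u a)) (fun i a => (v a).2 (symmDiff i t))
    (fun i => meas_D (measurable_fst.comp hv) hu i)
    (fun i => (measurable_pi_apply _).comp (measurable_snd.comp hv))

end BWD

open BWD Set MeasureTheory

theorem t_BWD (h1 : S_FIB) (h2 : S_RED) (h3 : S_KBL) (h4 : S_JI) : S_BWD := by
  classical
  intro Γ _ _ hΓ
  obtain ⟨I, act, hIm, hIinv, hIne, hact, hLF, hOrb, st0, hst0m, hst0T, hst0i⟩ := h1 Γ hΓ
  obtain ⟨hRBe, -, -, ⟨F, hF⟩, ⟨s, hsm, hsi, hsR⟩, -⟩ := h3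
  obtain ⟨j0, hj0m, hj0i, hj0I, hj0T⟩ := h4 I hIm hIinv ⟨st0, hst0m, hst0T, hst0i⟩
  let S : Set KB := {p | p.1 ∈ I}
  have hS : MeasurableSet S := measurable_fst hIm
  have hSinv : ∀ p q, RB p q → p ∈ S → q ∈ S := by
    intro p q hpq hp
    exact hIinv _ _ ((rb_iff p q).1 hpq).1 hp
  have hteg : ∀ (g : Γ) (o : I), TE o.1 (g • o : I).1 := fun g o => (hOrb o (g • o)).1 ⟨g, rfl⟩
  let actS : MulAction Γ S :=
    { smul := fun g p => ⟨sft (g • (⟨p.1.1, p.2⟩ : I) : I).1 p.1, (g • (⟨p.1.1, p.2⟩ : I) : I).2⟩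
      one_smul := by
        intro p
        apply Subtype.ext
        change sft ((1 : Γ) • (⟨p.1.1, p.2⟩ : I) : I).1 p.1 = p.1
        rw [one_smul]
        exact sft_self p.1
      mul_smul := by
        intro g h p
        apply Subtype.ext
        change sft ((g * h) • (⟨p.1.1, p.2⟩ : I) : I).1 p.1 =
          sft (g • (h • (⟨p.1.1, p.2⟩ : I)) : I).1 (sft (h • (⟨p.1.1, p.2⟩ : I) : I).1 p.1)
        rw [mul_smul, sft_sft (hteg h (⟨p.1.1, p.2⟩ : I)) (hteg g _)] }
  have hsmul : ∀ (g : Γ) (p : S), ((g • p : S) : KB) = sft (g • (⟨p.1.1, p.2⟩ : I) : I).1 p.1 :=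
    fun g p => rfl
  have hOS : ∀ p q : S, Orb Γ p q ↔ RB p.1 q.1 := by
    intro p q
    constructor
    · rintro ⟨g, rfl⟩
      rw [hsmul]
      exact rb_sft (hteg g (⟨p.1.1, p.2⟩ : I))
    · intro h
      obtain ⟨h5, h6⟩ := (rb_iff _ _).1 h
      obtain ⟨g, hg⟩ := (hOrb (⟨p.1.1, p.2⟩ : I) (⟨q.1.1, q.2⟩ : I)).2 h5
      refine ⟨g, Subtype.ext ?_⟩
      rw [hsmul, hg]
      exact h6.symm
  have hSB : StandardBorelSpace S := hS.standardBorel
  have hWB : StandardBorelSpace (Sᶜ : Set KB) := hS.compl.standardBorel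
  refine ⟨S, inferInstance, hSB, actS, ?_, ?_, ?_⟩
  · intro g
    refine Measurable.subtype_mk ?_
    refine meas_sft ?_ measurable_subtype_coe
    exact measurable_subtype_coe.comp ((hact g).comp
      ((measurable_fst.comp measurable_subtype_coe).subtype_mk))
  · intro p
    have key : ∀ g : Γ, (⟨(g • p : S).1.1, (g • p : S).2⟩ : I) = g • (⟨p.1.1, p.2⟩ : I) :=
      fun g => rfl
    obtain ⟨hL1, hL2⟩ := hLF (⟨p.1.1, p.2⟩ : I)
    constructor
    · intro hfin
      apply hL1
      refine (hfin.image fun q : S => (⟨q.1.1, q.2⟩ : I)).subset ?_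
      rintro y ⟨g, rfl⟩
      exact ⟨g • p, ⟨g, rfl⟩, key g⟩
    · intro T
      refine Set.Finite.of_finite_image (f := fun q : S => (⟨q.1.1, q.2⟩ : I))
        ((hL2 T).subset ?_) ?_
      · rintro _ ⟨_, ⟨g, hg, rfl⟩, rfl⟩
        exact ⟨g, hg, (key g).symm⟩
      · rintro _ ⟨g, hg, rfl⟩ _ ⟨g', hg', rfl⟩ hgg
        apply Subtype.ext
        have e : (g • (⟨p.1.1, p.2⟩ : I) : I) = g' • (⟨p.1.1, p.2⟩ : I) := hgg
        rw [hsmul, hsmul, e]
  · -- the embedding
    let sS : ℕ → S → S := fun n p => ⟨s n p.1, hSinv _ _ ((hsR _ _).2 ⟨n, rfl⟩) p.2⟩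
    let E : S → S → Prop := fun p q => RB p.1 q.1
    have hE : Equivalence E := ⟨fun p => hRBe.refl _, fun h => hRBe.symm h,
      fun h h' => hRBe.trans h h'⟩
    have hSc : ∀ p q, RB p q → p ∈ Sᶜ → q ∈ Sᶜ := fun p q h hp hq => hp (hSinv _ _ (hRBe.symm h) hq)
    -- reduction on the complement
    have hFW : HF (Res RB Sᶜ) (fun n (a b : (Sᶜ : Set KB)) => F n a.1 b.1) := by
      refine ⟨fun n => ⟨fun a => (hF.eqv n).refl _, fun h => (hF.eqv n).symm h,
        fun h h' => (hF.eqv n).trans h h'⟩, fun n => ?_, fun n x => ?_, fun n x y h =>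
        hF.mono n _ _ h, fun x y => hF.union _ _⟩
      · exact (((measurable_subtype_coe.comp measurable_fst).prodMk
          (measurable_subtype_coe.comp measurable_snd)) (hF.meas n))
      · exact Set.Finite.preimage (Subtype.val_injective.injOn) (hF.fin n x.1)
    obtain ⟨c, hcm, hci, hcE⟩ := h2 (Sᶜ : Set KB) _ _ hFW
    -- compression on the complement
    have hstI : ∀ (w : (Sᶜ : Set KB)) (n : ℕ), TE w.1.1 (st0 w.1.1 n) := fun w n =>
      hst0T _ (fun h => w.2 h) n
    let st : (Sᶜ : Set KB) → ℕ → (Sᶜ : Set KB) := fun w n =>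
      ⟨sft (st0 w.1.1 n) w.1, hSc _ _ (rb_sft (hstI w n)) w.2⟩
    obtain ⟨h, hh⟩ := Pool.Agent.TH722.CR.absorb (X := S) (W := (Sᶜ : Set KB)) sS
      (fun n => ((hsm n).comp measurable_subtype_coe).subtype_mk)
      (fun n x => Subtype.ext (hsi n x.1)) E hE
      (fun x y => by
        rw [show E x y ↔ _ from hsR x.1 y.1]
        exact ⟨fun ⟨n, hn⟩ => ⟨n, Subtype.ext hn⟩, fun ⟨n, hn⟩ => ⟨n, congrArg Subtype.val hn⟩⟩)
      (fun a => ⟨(j0 a, fun _ _ => false), hj0I a⟩)
      ((hj0m.prodMk measurable_const).subtype_mk)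
      (fun a b hab => hj0i (congrArg (fun p : S => p.1.1) hab))
      (fun a b => by
        rw [show E _ _ ↔ _ from rb_iff _ _]
        constructor
        · rintro ⟨h5, -⟩
          exact (hj0T a b).1 h5
        · intro h5
          exact ⟨(hj0T a b).2 h5, rfl⟩)
      (Res RB Sᶜ) c hcm hci hcE st
      (fun n => (meas_sft ((hst0m n).comp (measurable_fst.comp measurable_subtype_coe))
        measurable_subtype_coe).subtype_mk)
      (fun w n => rb_sft (hstI w n))
      (fun w w' n n' hw => by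
        have hw1 : sft (st0 w.1.1 n) w.1 = sft (st0 w'.1.1 n') w'.1 := congrArg Subtype.val hw
        have hw2 : st0 w.1.1 n = st0 w'.1.1 n' := congrArg Prod.fst hw1
        obtain ⟨e1, e2⟩ := hst0i _ (fun h => w.2 h) _ (fun h => w'.2 h) _ _ hw2
        exact ⟨Subtype.ext (sft_inj e1 hw1), e2⟩)
    let e := MeasurableEquiv.sumCompl hS
    refine ⟨fun p => h (e.symm p), h.measurable.comp e.symm.measurable,
      h.injective.comp e.symm.injective, ?_, ?_⟩
    · intro a b
      rw [hOS]
      refine Iff.trans ?_ (hh _ _)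
      obtain ⟨a', rfl⟩ := e.surjective a
      obtain ⟨b', rfl⟩ := e.surjective b
      rw [e.symm_apply_apply, e.symm_apply_apply]
      rcases a' with a | a <;> rcases b' with b | b
      · rw [Sum.liftRel_inl_inl]
        exact Iff.rfl
      · constructor
        · intro h5
          exact absurd (hSinv _ _ h5 a.2) b.2
        · intro h5
          cases h5
      · constructor
        · intro h5
          exact absurd b.2 (hSc _ _ h5 a.2)
        · intro h5
          cases h5
      · rw [Sum.liftRel_inr_inr]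
        exact Iff.rfl
    · intro a y _
      refine ⟨e (h.symm y), ?_⟩
      show h (e.symm (e (h.symm y))) = y
      rw [e.symm_apply_apply, h.apply_symm_apply]

end Pool.Agent.N480.CV
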