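import Pool.Agent.N480.CV.Stm2
import Pool.Agent.TH858.CR_GREEDY
import Pool.Agent.H139R3.FM

set_option autoImplicit false

/-! # Project CV (helper480), part CC (helper371): the comparison criterion -/

namespace Pool.Agent.N480.CV

open Set MeasureTheory TopologicalSpace Filter

namespace CC

variable {X : Type} [MeasurableSpace X] [StandardBorelSpace X] {E : X → X → Prop}
  {F : ℕ → X → X → Prop}

omit [StandardBorelSpace X] in
theorem equiv (h : HF E F) : Equivalence E := by
  have hmono : ∀ m n, m ≤ n → ∀ x y, F m x y → F n x y := by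
    intro m n hmn
    induction n, hmn using Nat.le_induction with
    | base => exact fun x y h => h
    | succ n _ ih => exact fun x y hxy => h.mono n x y (ih x y hxy)
  refine ⟨fun x => (h.union x x).2 ⟨0, (h.eqv 0).refl x⟩, ?_, ?_⟩
  · intro x y hxy
    obtain ⟨n, hn⟩ := (h.union x y).1 hxy
    exact (h.union y x).2 ⟨n, (h.eqv n).symm hn⟩
  · intro x y z hxy hyz
    obtain ⟨n, hn⟩ := (h.union x y).1 hxy
    obtain ⟨m, hm⟩ := (h.union y z).1 hyz
    exact (h.union x z).2 ⟨max m n, (h.eqv _).trans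
      (hmono n _ (le_max_right _ _) x y hn) (hmono m _ (le_max_left _ _) y z hm)⟩

theorem invs (h : HF E F) : ∃ s : ℕ → X → X, (∀ n, Measurable (s n)) ∧
    (∀ n x, s n (s n x) = x) ∧ ∀ x y, E x y ↔ ∃ n, s n x = y := by
  apply Pool.Agent.H139R3.FM.feldman_moore E (equiv h)
  · have e1 : {p : X × X | E p.1 p.2} = ⋃ n, {p : X × X | F n p.1 p.2} := by
      ext p
      simp [h.union]
    rw [e1]
    exact MeasurableSet.iUnion h.meas
  · intro y
    have e1 : {y' | E y y'} = ⋃ n, {y' | F n y y'} := by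
      ext p
      simp [h.union]
    rw [e1]
    exact countable_iUnion fun n => (h.fin n y).countable

omit [StandardBorelSpace X] in
theorem hf_res (h : HF E F) (Q : Set X) : HF (Res E Q) (fun n => Res (F n) Q) where
  eqv n := ⟨fun x => (h.eqv n).refl _, fun h' => (h.eqv n).symm h',
    fun h' h'' => (h.eqv n).trans h' h''⟩
  meas n := (h.meas n).preimage ((measurable_subtype_coe.comp measurable_fst).prodMk
    (measurable_subtype_coe.comp measurable_snd))
  fin n x := (h.fin n x).preimage (Subtype.val_injective.injOn)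
  mono n x y h' := h.mono n _ _ h'
  union x y := h.union _ _

theorem pinv {h : X → X} (hm : Measurable h) {D : Set X} (hD : MeasurableSet D)
    (hinj : InjOn h D) : ∃ g : X → X, Measurable g ∧ ∀ a ∈ D, g (h a) = a := by
  have hst : StandardBorelSpace D := hD.standardBorel
  have e : MeasurableEmbedding (fun a : D => h a) :=
    (hm.comp measurable_subtype_coe).measurableEmbedding
      (fun a b hab => Subtype.ext (hinj a.2 b.2 hab))
  obtain ⟨g, hg, hgc⟩ := e.exists_measurable_extend measurable_subtype_coe (fun x => ⟨x⟩)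
  exact ⟨g, hg, fun a ha => congrFun hgc ⟨a, ha⟩⟩

/-- an invariant set on which the copies of the sets `D i` cover, and one of the `A i` has a point
outside of `D i` in every class, is compressible -/
theorem cmp_of_cover (h1 : S_HFG) (h2 : S_BAS) (hF : HF E F) (k : ℕ) (A D : Fin (k + 1) → Set X)
    (hA : ∀ i, MeasurableSet (A i)) (hD : ∀ i, MeasurableSet (D i)) (hDA : ∀ i, D i ⊆ A i)
    (hden : ∀ x, ∃ᶠ n in atTop, ∑ i, {y | y ∈ A i ∧ F n x y}.ncard ≤ {y | F n x y}.ncard)
    (h : Fin (k + 1) → X → X) (hh : ∀ i, Measurable (h i)) (hE : ∀ i, ∀ x ∈ D i, E x (h i x))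
    (hinj : ∀ i j, ∀ x ∈ D i, ∀ y ∈ D j, h i x = h j y → i = j ∧ x = y)
    (Q : Set X) (hQ : MeasurableSet Q) (hQi : Inv E Q)
    (hcov : ∀ x ∈ Q, ∃ i, x ∈ h i '' D i)
    (hmiss : ∀ x ∈ Q, ∃ i, ∃ a ∈ A i, a ∉ D i ∧ E x a) : Cmp (Res E Q) := by
  have hEe := equiv hF
  obtain ⟨H, hH1, hH2, hH3⟩ := h1 X E F hF (k + 1) A univ hA MeasurableSet.univ
    (fun x => (hden x).mono fun n hn => by simpa using hn)
  have hinjD : ∀ i, InjOn (h i) (D i) := fun i x hx y hy hxy => (hinj i i x hx y hy hxy).2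
  choose g hg1 hg2 using fun i => pinv (hh i) (hD i) (hinjD i)
  have hJm : ∀ i, MeasurableSet (h i '' D i) := fun i =>
    (hD i).image_of_measurable_injOn (hh i) (hinjD i)
  obtain ⟨θ, hθm, hθ⟩ := exists_measurable_piecewise (fun i => h i '' D i) hJm
    (fun i => H i ∘ g i) (fun i => (hH1 i).comp (hg1 i)) (by
      intro i j hij x hx
      obtain ⟨⟨a, ha, rfl⟩, ⟨b, hb, hab⟩⟩ := hx
      exact absurd (hinj j i b hb a ha hab).1.symm hij)
  have hθv : ∀ i, ∀ a ∈ D i, θ (h i a) = H i a := by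
    intro i a ha
    have := hθ i (mem_image_of_mem (h i) ha)
    rw [this, Function.comp_apply, hg2 i a ha]
  have hθE : ∀ x ∈ Q, E x (θ x) := by
    intro x hx
    obtain ⟨i, a, ha, rfl⟩ := hcov x hx
    rw [hθv i a ha]
    exact hEe.trans (hEe.symm (hE i a ha)) (hH2 i a (hDA i ha)).1
  have hst : StandardBorelSpace Q := hQ.standardBorel
  refine (h2 Q (Res E Q) (fun n => Res (F n) Q) (hf_res hF Q)).1
    (fun x => ⟨θ x, hQi _ _ (hθE x x.2) x.2⟩) ?_ ?_ ?_ ?_
  · exact (hθm.comp measurable_subtype_coe).subtype_mk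
  · intro x y hxy
    have hxy' : θ x = θ y := congrArg Subtype.val hxy
    obtain ⟨i, a, ha, hax⟩ := hcov x x.2
    obtain ⟨j, b, hb, hby⟩ := hcov y y.2
    rw [← hax, ← hby, hθv i a ha, hθv j b hb] at hxy'
    obtain ⟨hij, hab⟩ := hH3 i j a (hDA i ha) b (hDA j hb) hxy'
    subst hij
    subst hab
    exact Subtype.ext (hax.symm.trans hby)
  · intro x
    exact hθE x x.2
  · intro x
    obtain ⟨i, a, ha, haD, hxa⟩ := hmiss x x.2
    have h3 : E x (H i a) := hEe.trans hxa (hH2 i a ha).1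
    refine ⟨⟨H i a, hQi _ _ h3 x.2⟩, h3, ?_⟩
    rintro ⟨y, hy⟩
    have hy' : θ y = H i a := congrArg Subtype.val hy
    obtain ⟨j, b, hb, hby⟩ := hcov y y.2
    rw [← hby, hθv j b hb] at hy'
    obtain ⟨hij, hab⟩ := hH3 j i b (hDA j hb) a ha hy'
    subst hij
    subst hab
    exact haD hb

/-- the state of the construction -/
structure St (E : X → X → Prop) (A : ℕ → Set X) (j : ℕ) (U : Set X) (h : ℕ → X → X) : Prop where
  meas : MeasurableSet U
  inv : Inv E U
  cmp : Cmp (Res E U)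
  hm : ∀ i < j, Measurable (h i)
  hE : ∀ i < j, ∀ x ∈ A i, x ∉ U → E x (h i x)
  inj : ∀ i < j, ∀ i' < j, ∀ x ∈ A i, ∀ y ∈ A i', x ∉ U → y ∉ U → h i x = h i' y → i = i' ∧ x = y

theorem step (h1 : S_HFG) (h2 : S_BAS) (hF : HF E F) (A : ℕ → Set X)
    (hA : ∀ i, MeasurableSet (A i))
    (hden : ∀ j x, ∃ᶠ n in atTop,
      ∑ i ∈ Finset.range (j + 1), {y | y ∈ A i ∧ F n x y}.ncard ≤ {y | F n x y}.ncard)
    (j : ℕ) (U : Set X) (h : ℕ → X → X) (hS : St E A j U h) :
    ∃ (U' : Set X) (f : X → X), U ⊆ U' ∧ St E A (j + 1) U' (Function.update h j f) := by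
  classical
  have hEe := equiv hF
  obtain ⟨s, hs1, hs2, hs3⟩ := invs hF
  have hAU : ∀ i, MeasurableSet (A i \ U) := fun i => (hA i).diff hS.meas
  have hI : ∀ i < j, MeasurableSet (h i '' (A i \ U)) := fun i hi =>
    (hAU i).image_of_measurable_injOn (hS.hm i hi)
      (fun x hx y hy hxy => (hS.inj i hi i hi x hx.1 y hy.1 hx.2 hy.2 hxy).2)
  set R : Set X := (U ∪ ⋃ i ∈ Finset.range j, h i '' (A i \ U))ᶜ with hR
  have hRm : MeasurableSet R := by
    refine (hS.meas.union ?_).compl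
    exact Finset.measurableSet_biUnion _ fun i hi => hI i (Finset.mem_range.1 hi)
  obtain ⟨M, f, hM, hMA, hf, hfE, hfinj, hfR, -, hgr⟩ := Pool.Agent.TH858.CR.greedy s hs1 hs2 E hEe
    hs3 (A j \ U) R (hAU j) hRm
  -- `Q`
  set Q : Set X := Uᶜ ∩ ⋃ n, (s n) ⁻¹' ((A j \ U) \ M) with hQ
  have hQm : MeasurableSet Q :=
    hS.meas.compl.inter (MeasurableSet.iUnion fun n => hs1 n ((hAU j).diff hM))
  have hQmem : ∀ x, x ∈ Q ↔ x ∉ U ∧ ∃ a ∈ A j, a ∉ U ∧ a ∉ M ∧ E x a := by
    intro x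
    rw [hQ]
    simp only [mem_inter_iff, mem_compl_iff, mem_iUnion, mem_preimage, Set.mem_sdiff]
    constructor
    · rintro ⟨h3, n, ⟨h4, h5⟩, h6⟩
      exact ⟨h3, s n x, h4, h5, h6, (hs3 _ _).2 ⟨n, rfl⟩⟩
    · rintro ⟨h3, a, h4, h5, h6, h7⟩
      obtain ⟨n, rfl⟩ := (hs3 _ _).1 h7
      exact ⟨h3, n, ⟨h4, h5⟩, h6⟩
  have hQi : Inv E Q := by
    intro x y hxy hx
    rw [hQmem] at hx ⊢
    obtain ⟨h3, a, h4, h5, h6, h7⟩ := hx
    exact ⟨fun hy => h3 (hS.inv y x (hEe.symm hxy) hy), a, h4, h5, h6,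
      hEe.trans (hEe.symm hxy) h7⟩
  -- the new maps
  set h' : ℕ → X → X := Function.update h j f with hh'
  have hlt : ∀ i < j, h' i = h i := fun i hi => by
    rw [hh', Function.update_of_ne (ne_of_lt hi)]
  have hj : h' j = f := by rw [hh', Function.update_self]
  set D : ℕ → Set X := fun i => if i = j then M else A i \ U with hDdef
  have hDlt : ∀ i < j, D i = A i \ U := fun i hi => by
    simp only [hDdef]
    rw [if_neg (ne_of_lt hi)]
  have hDj : D j = M := by simp [hDdef]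
  have hcases : ∀ i, i < j + 1 → i < j ∨ i = j := fun i hi => by omega
  have hDm : ∀ i < j + 1, MeasurableSet (D i) := by
    intro i hi
    rcases hcases i hi with h3 | h3
    · rw [hDlt i h3]; exact hAU i
    · rw [h3, hDj]; exact hM
  have hDA : ∀ i < j + 1, D i ⊆ A i \ U := by
    intro i hi
    rcases hcases i hi with h3 | h3
    · rw [hDlt i h3]
    · rw [h3, hDj]; exact hMA
  have hm' : ∀ i < j + 1, Measurable (h' i) := by
    intro i hi
    rcases hcases i hi with h3 | h3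
    · rw [hlt i h3]; exact hS.hm i h3
    · rw [h3, hj]; exact hf
  have hE' : ∀ i < j + 1, ∀ x ∈ D i, E x (h' i x) := by
    intro i hi x hx
    rcases hcases i hi with h3 | h3
    · rw [hlt i h3]
      rw [hDlt i h3] at hx
      exact hS.hE i h3 x hx.1 hx.2
    · rw [h3, hj]; exact hfE x
  have hnotR : ∀ i < j, ∀ x ∈ D i, ∀ y ∈ D j, h' i x ≠ h' j y := by
    intro i hi x hx y hy hxy
    rw [hlt i hi, hj] at hxy
    rw [hDlt i hi] at hx
    rw [hDj] at hy
    have h3 : f y ∈ R := hfR hy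
    rw [hR, mem_compl_iff] at h3
    apply h3
    right
    rw [← hxy]
    exact mem_biUnion (Finset.mem_coe.2 (Finset.mem_range.2 hi)) (mem_image_of_mem _ hx)
  have hinj' : ∀ i < j + 1, ∀ i' < j + 1, ∀ x ∈ D i, ∀ y ∈ D i', h' i x = h' i' y →
      i = i' ∧ x = y := by
    intro i hi i' hi' x hx y hy hxy
    rcases hcases i hi with h3 | h3 <;> rcases hcases i' hi' with h4 | h4
    · rw [hlt i h3, hlt i' h4] at hxy
      rw [hDlt i h3] at hx
      rw [hDlt i' h4] at hy
      exact hS.inj i h3 i' h4 x hx.1 y hy.1 hx.2 hy.2 hxy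
    · subst h4
      exact absurd hxy (hnotR i h3 x hx y hy)
    · subst h3
      exact absurd hxy.symm (hnotR i' h4 y hy x hx)
    · subst h3
      subst h4
      refine ⟨rfl, ?_⟩
      rw [hj] at hxy
      rw [hDj] at hx hy
      exact hfinj hx hy hxy
  have hcmpQ : Cmp (Res E Q) := by
    refine cmp_of_cover h1 h2 hF j (fun i => A i) (fun i => D i) (fun i => hA i)
      (fun i => hDm i i.2) (fun i => (hDA i i.2).trans sdiff_subset) (fun x => ?_)
      (fun i => h' i) (fun i => hm' i i.2) (fun i => hE' i i.2)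
      (fun i i' x hx y hy hxy => ?_) Q hQm hQi (fun x hx => ?_) (fun x hx => ?_)
    · refine (hden j x).mono fun n hn => ?_
      rw [Finset.sum_range] at hn
      exact hn
    · obtain ⟨h3, h4⟩ := hinj' i i.2 i' i'.2 x hx y hy hxy
      exact ⟨Fin.ext h3, h4⟩
    · rw [hQmem] at hx
      obtain ⟨h3, a, h4, h5, h6, h7⟩ := hx
      by_cases hxR : x ∈ R
      · refine ⟨⟨j, Nat.lt_succ_self j⟩, ?_⟩
        change x ∈ h' j '' D j
        rw [hj, hDj]
        exact (hgr a ⟨h4, h5⟩ x hxR (hEe.symm h7)).resolve_left h6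
      · rw [hR, mem_compl_iff, not_not] at hxR
        rcases hxR with h8 | h8
        · exact absurd h8 h3
        · rw [mem_iUnion₂] at h8
          obtain ⟨i, hi, h9⟩ := h8
          have hi' := Finset.mem_range.1 hi
          refine ⟨⟨i, Nat.lt_succ_of_lt hi'⟩, ?_⟩
          change x ∈ h' i '' D i
          rw [hlt i hi', hDlt i hi']
          exact h9
    · rw [hQmem] at hx
      obtain ⟨h3, a, h4, h5, h6, h7⟩ := hx
      refine ⟨⟨j, Nat.lt_succ_self j⟩, a, h4, ?_, h7⟩
      change a ∉ D j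
      rw [hDj]
      exact h6
  have hsub : ∀ i < j + 1, ∀ x ∈ A i, x ∉ U ∪ Q → x ∈ D i := by
    intro i hi x hx hxU
    rw [mem_union, not_or] at hxU
    rcases hcases i hi with h3 | h3
    · rw [hDlt i h3]
      exact ⟨hx, hxU.1⟩
    · subst h3
      rw [hDj]
      by_contra hxM
      apply hxU.2
      rw [hQmem]
      exact ⟨hxU.1, x, hx, hxU.1, hxM, hEe.refl x⟩
  refine ⟨U ∪ Q, f, subset_union_left, ⟨hS.meas.union hQm, ?_, ?_, hm', ?_, ?_⟩⟩
  · intro x y hxy hx
    rcases hx with hx | hx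
    · exact Or.inl (hS.inv x y hxy hx)
    · exact Or.inr (hQi x y hxy hx)
  · have h3 := (h2 X E F hF).2.1 (fun n => if n = 0 then U else Q)
      (fun n => by split_ifs; exacts [hS.meas, hQm])
      (fun n => by split_ifs; exacts [hS.inv, hQi])
      (fun n => by
        rcases Nat.eq_zero_or_pos n with h4 | h4
        · subst h4
          exact hS.cmp
        · rw [if_neg (by omega : ¬ n = 0)]
          exact hcmpQ)
    have h4 : (⋃ n : ℕ, if n = 0 then U else Q) = U ∪ Q := by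
      ext x
      rw [mem_iUnion]
      constructor
      · rintro ⟨n, hn⟩
        split_ifs at hn
        · exact Or.inl hn
        · exact Or.inr hn
      · rintro (hx | hx)
        · exact ⟨0, by simpa using hx⟩
        · exact ⟨1, by simpa using hx⟩
    rw [h4] at h3
    exact h3
  · intro i hi x hx hxU
    exact hE' i hi x (hsub i hi x hx hxU)
  · intro i hi i' hi' x hx y hy hxU hyU hxy
    exact hinj' i hi i' hi' x (hsub i hi x hx hxU) y (hsub i' hi' y hy hyU) hxy

end CC

theorem t_CC (h1 : S_HFG) (h2 : S_BAS) : S_CC := by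
  classical
  intro X _ _ E F hF _ A hA hden
  have base : CC.St E A 0 ∅ (fun _ x => x) := by
    refine ⟨MeasurableSet.empty, fun x y _ hx => hx.elim, ?_, fun i hi => by omega,
      fun i hi => by omega, fun i hi => by omega⟩
    exact ⟨fun x _ => x, fun n => measurable_id, fun x => x.2.elim, fun x => x.2.elim⟩
  let T := {p : ℕ × Set X × (ℕ → X → X) // CC.St E A p.1 p.2.1 p.2.2}
  choose U' f' hU' hf' using fun p : T =>
    CC.step h1 h2 hF A hA hden p.1.1 p.1.2.1 p.1.2.2 p.2
  let nx : T → T := fun p => ⟨(p.1.1 + 1, U' p, Function.update p.1.2.2 p.1.1 (f' p)), hf' p⟩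
  let st : ℕ → T := fun n => Nat.rec (⟨(0, ∅, fun _ x => x), base⟩ : T) (fun _ p => nx p) n
  have hst : ∀ n, st (n + 1) = nx (st n) := fun n => rfl
  have h0 : ∀ n, (st n).1.1 = n := by
    intro n
    induction n with
    | zero => rfl
    | succ n ih =>
      rw [hst]
      change (st n).1.1 + 1 = n + 1
      rw [ih]
  have hU1 : ∀ n, (st n).1.2.1 ⊆ (st (n + 1)).1.2.1 := fun n => hU' (st n)
  have hUm : Monotone fun n => (st n).1.2.1 := monotone_nat_of_le_succ hU1
  have hh1 : ∀ n i, i ≠ n → (st (n + 1)).1.2.2 i = (st n).1.2.2 i := by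
    intro n i hi
    rw [hst]
    change Function.update (st n).1.2.2 (st n).1.1 (f' (st n)) i = _
    rw [h0 n, Function.update_of_ne hi]
  have hh2 : ∀ i n, i + 1 ≤ n → (st n).1.2.2 i = (st (i + 1)).1.2.2 i := by
    intro i n hn
    induction n, hn using Nat.le_induction with
    | base => rfl
    | succ n hn ih => rw [hh1 n i (by omega), ih]
  have hS : ∀ n, CC.St E A n (st n).1.2.1 (st n).1.2.2 := by
    intro n
    have := (st n).2
    rwa [h0 n] at this
  refine ⟨⋃ n, (st n).1.2.1, MeasurableSet.iUnion fun n => (hS n).meas, ?_, ?_,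
    fun i => (st (i + 1)).1.2.2 i, fun i => (hS (i + 1)).hm i (Nat.lt_succ_self i), ?_, ?_⟩
  · intro x y hxy hx
    rw [mem_iUnion] at hx ⊢
    obtain ⟨n, hn⟩ := hx
    exact ⟨n, (hS n).inv x y hxy hn⟩
  · exact (h2 X E F hF).2.1 _ (fun n => (hS n).meas) (fun n => (hS n).inv) (fun n => (hS n).cmp)
  · intro i x hx hxU
    exact (hS (i + 1)).hE i (Nat.lt_succ_self i) x hx fun h3 => hxU (mem_iUnion.2 ⟨i + 1, h3⟩)
  · intro i j x hx y hy hxU hyU hxy
    have h3 := hh2 i (max i j + 1) (by omega)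
    have h4 := hh2 j (max i j + 1) (by omega)
    refine (hS (max i j + 1)).inj i (by omega) j (by omega) x hx y hy
      (fun h5 => hxU (mem_iUnion.2 ⟨max i j + 1, h5⟩))
      (fun h5 => hyU (mem_iUnion.2 ⟨max i j + 1, h5⟩)) ?_
    rw [h3, h4]
    exact hxy

end Pool.Agent.N480.CV
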