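import Pool.Agent.N480.CV.Stm2
import Pool.Agent.TH554.CR_DYE
import Pool.Agent.TH858.CR_GREEDY
import Pool.Agent.TH858.CR_HALVE
import Pool.Agent.TH926.CR_CELLS

set_option autoImplicit false
set_option linter.unusedSectionVars false
set_option linter.unusedVariables false

/-!
Project CV (helper480), part DYE2 (helper698): Dye's theorem for hyperfinite relations. Adaptation of
`Pool/Agent/TH554/CR_DYE.lean`: at the even steps the coordinates of `S_OD` are used.
-/

namespace Pool.Agent.N480.CV.DYE2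

open Set MeasureTheory Filter
open Pool.Agent.TH554.CRDye (exists_left_inv image_meas eq_meas measure_image step)

/-! ### Preliminaries -/

theorem hf_equiv {X : Type} [MeasurableSpace X] {E : X → X → Prop} {F : ℕ → X → X → Prop}
    (hF : HF E F) : Equivalence E := by
  have hmono : ∀ m n, m ≤ n → ∀ x y, F m x y → F n x y := by
    intro m n h x y
    induction h with
    | refl => exact id
    | step _ ih => exact fun h => hF.mono _ _ _ (ih h)
  refine ⟨fun x => (hF.union x x).2 ⟨0, (hF.eqv 0).refl x⟩, ?_, ?_⟩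
  · intro x y h
    obtain ⟨n, hn⟩ := (hF.union x y).1 h
    exact (hF.union y x).2 ⟨n, (hF.eqv n).symm hn⟩
  · intro x y z h h'
    obtain ⟨n, hn⟩ := (hF.union x y).1 h
    obtain ⟨m, hm⟩ := (hF.union y z).1 h'
    exact (hF.union x z).2 ⟨max n m, (hF.eqv _).trans (hmono _ _ (le_max_left _ _) _ _ hn)
      (hmono _ _ (le_max_right _ _) _ _ hm)⟩

theorem null_pre {X : Type} [MeasurableSpace X] {s : ℕ → X → X} (hs : ∀ n, Measurable (s n))
    {E : X → X → Prop} (hsE : ∀ x y, E x y ↔ ∃ n, s n x = y) {ν : Measure X}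
    (hν : ∀ n, ν.map (s n) = ν) {g : X → X} (hg : ∀ x, E x (g x)) {N : Set X} (hN : ν N = 0) :
    ν (g ⁻¹' N) = 0 := by
  have h1 : g ⁻¹' N ⊆ ⋃ n, s n ⁻¹' N := by
    intro x hx
    obtain ⟨n, hn⟩ := (hsE x (g x)).1 (hg x)
    exact mem_iUnion.2 ⟨n, by rw [mem_preimage, hn]; exact hx⟩
  refine measure_mono_null h1 (measure_iUnion_null fun n => ?_)
  have : MeasurePreserving (s n) ν ν := ⟨hs n, hν n⟩
  exact this.quasiMeasurePreserving.preimage_null hN

theorem sel {X : Type} [MeasurableSpace X] {s : ℕ → X → X} (hs : ∀ n, Measurable (s n))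
    {E : X → X → Prop} (hE : Equivalence E) (hsE : ∀ x y, E x y ↔ ∃ n, s n x = y)
    (A : ℕ → Set X) (hA : ∀ n, MeasurableSet (A n)) :
    ∃ g : X → X, Measurable g ∧ (∀ x, E x (g x)) ∧
      ∀ x, (∃ n, x ∈ A n) → ∃ n, x ∈ A n ∧ g x = s n x := by
  classical
  let g : X → X := fun x => if h : ∃ n, x ∈ A n then s (Nat.find h) x else x
  have hg1 : ∀ x n, x ∈ A n → (∀ m < n, x ∉ A m) → g x = s n x := by
    intro x n hn hm
    have h : ∃ n, x ∈ A n := ⟨n, hn⟩
    have h1 : g x = s (Nat.find h) x := dif_pos h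
    have h2 : Nat.find h = n := (Nat.find_eq_iff h).2 ⟨hn, hm⟩
    rw [h1, h2]
  have hg2 : ∀ x, (¬ ∃ n, x ∈ A n) → g x = x := fun x h => dif_neg h
  have hg3 : ∀ x, (∃ n, x ∈ A n) → ∃ n, x ∈ A n ∧ (∀ m < n, x ∉ A m) ∧ g x = s n x := by
    intro x h
    have h1 := Nat.find_spec h
    have h2 : ∀ m < Nat.find h, x ∉ A m := fun m hm => Nat.find_min h hm
    exact ⟨_, h1, h2, hg1 _ _ h1 h2⟩
  refine ⟨g, ?_, ?_, ?_⟩
  · intro U hU
    have : g ⁻¹' U = (⋃ n, ((A n ∩ (⋂ m ∈ Iio n, (A m)ᶜ)) ∩ s n ⁻¹' U)) ∪ ((⋃ n, A n)ᶜ ∩ U) := by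
      ext x
      constructor
      · intro hx
        rw [mem_preimage] at hx
        by_cases h : ∃ n, x ∈ A n
        · obtain ⟨n, h1, h2, h3⟩ := hg3 x h
          left
          rw [h3] at hx
          exact mem_iUnion.2 ⟨n, ⟨h1, mem_iInter₂.2 fun m hm => h2 m hm⟩, hx⟩
        · right
          rw [hg2 x h] at hx
          exact ⟨fun h' => h (mem_iUnion.1 h'), hx⟩
      · rintro (hx | hx)
        · obtain ⟨n, ⟨h1, h2⟩, h3⟩ := mem_iUnion.1 hx
          rw [mem_preimage, hg1 x n h1 fun m hm => mem_iInter₂.1 h2 m hm]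
          exact h3
        · rw [mem_preimage, hg2 x fun h' => hx.1 (mem_iUnion.2 h')]
          exact hx.2
    rw [this]
    refine (MeasurableSet.iUnion fun n => ((hA n).inter ?_).inter (hs n hU)).union
      ((MeasurableSet.iUnion hA).compl.inter hU)
    exact MeasurableSet.biInter (to_countable _) fun m _ => (hA m).compl
  · intro x
    by_cases h : ∃ n, x ∈ A n
    · obtain ⟨n, -, -, h3⟩ := hg3 x h
      rw [h3]
      exact (hsE _ _).2 ⟨n, rfl⟩
    · rw [hg2 x h]
      exact hE.refl x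
  · intro x h
    obtain ⟨n, h1, -, h3⟩ := hg3 x h
    exact ⟨n, h1, h3⟩

theorem null_of_inj {X : Type} [MeasurableSpace X] [StandardBorelSpace X] {s : ℕ → X → X}
    (hs : ∀ n, Measurable (s n)) (hinv : ∀ n x, s n (s n x) = x) {E : X → X → Prop}
    (hsE : ∀ x y, E x y ↔ ∃ n, s n x = y) {ν : Measure X} [IsProbabilityMeasure ν]
    (hν : ∀ n, ν.map (s n) = ν) {U : Set X} (hU : MeasurableSet U) (f : ℕ → X → X)
    (hf : ∀ n, Measurable (f n)) (hfE : ∀ n x, E x (f n x))
    (hi : ∀ m n, ∀ x ∈ U, ∀ y ∈ U, f m x = f n y → m = n ∧ x = y) : ν U = 0 := by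
  have h1 : ∀ n, InjOn (f n) U := fun n x hx y hy h => (hi n n x hx y hy h).2
  have hm : ∀ n, MeasurableSet (f n '' U) := fun n => image_meas hU (hf n) (h1 n)
  have hd : Pairwise (fun i j => Disjoint (f i '' U) (f j '' U)) := by
    intro i j hij
    rw [Set.disjoint_left]
    rintro _ ⟨x, hx, rfl⟩ ⟨y, hy, h⟩
    exact hij (hi j i y hy x hx h).1.symm
  have h2 : ∑' n, ν (f n '' U) ≤ 1 := by
    rw [← measure_iUnion hd hm]
    exact prob_le_one
  have h3 : ∀ n, ν (f n '' U) = ν U := fun n =>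
    measure_image hs hinv hsE hν hU (hf n) (hfE n) (h1 n)
  simp_rw [h3] at h2
  by_contra h
  rw [ENNReal.tsum_const_eq_top_of_ne_zero h] at h2
  exact absurd h2 (by simp)

/-- the odometer coordinates on a measurable set which meets almost every class in an infinite set
or not at all -/
theorem od_local (h : S_OD) {X : Type} [MeasurableSpace X] [StandardBorelSpace X]
    {E : X → X → Prop} {F : ℕ → X → X → Prop} (hF : HF E F) {s : ℕ → X → X}
    (hs : ∀ n, Measurable (s n)) (hinv : ∀ n x, s n (s n x) = x)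
    (hsE : ∀ x y, E x y ↔ ∃ n, s n x = y) {ν : Measure X} [IsProbabilityMeasure ν]
    (hν : ∀ n, ν.map (s n) = ν) {C : Set X} (hC : MeasurableSet C)
    (hinf : ν {c | c ∈ C ∧ ¬ {y | y ∈ C ∧ E c y}.Infinite} = 0) :
    ∃ (V : Set X) (π : X → ℕ → Bool), MeasurableSet V ∧ V ⊆ C ∧ ν (C \ V) = 0 ∧ Measurable π ∧
      (∀ c ∈ V, ∀ y ∈ V, E c y → ∃ n, ∀ k, n ≤ k → π c k = π y k) ∧
      (∀ c ∈ V, ∀ y ∈ V, E c y → π c = π y → c = y) ∧
      ∀ c ∈ V, ∀ k, ∃ y ∈ V, E c y ∧ π y = Function.update (π c) k (!π c k) := by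
  classical
  have hE := hf_equiv hF
  let C' : Set X := {c | c ∈ C ∧ {y | y ∈ C ∧ E c y}.Infinite}
  have hC'm : MeasurableSet C' := by
    have : C' = C ∩ ⋂ m : ℕ, ⋃ n : ℕ, (s n ⁻¹' C ∩ ⋂ i ∈ Iio m, {x | s i x = s n x}ᶜ) := by
      ext c
      simp only [C', mem_ofPred_eq, mem_inter_iff, mem_iInter, mem_iUnion, mem_preimage, mem_Iio,
        mem_compl_iff]
      refine and_congr_right fun hc => ⟨fun hi m => ?_, fun hh hfin => ?_⟩
      · have h1 : ((fun i => s i c) '' Iio m).Finite := (finite_Iio m).image _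
        obtain ⟨y, hy, hy2⟩ := (hi.sdiff h1).nonempty
        obtain ⟨n, rfl⟩ := (hsE _ _).1 hy.2
        refine ⟨n, hy.1, fun i hi h => hy2 ⟨i, hi, h⟩⟩
      · have h2 : ∃ m, ∀ y ∈ {y | y ∈ C ∧ E c y}, ∃ i < m, s i c = y := by
          choose! idx hidx using fun y (hy : y ∈ {y | y ∈ C ∧ E c y}) => (hsE c y).1 hy.2
          obtain ⟨m, hm⟩ := (hfin.image idx).bddAbove
          exact ⟨m + 1, fun y hy => ⟨idx y, Nat.lt_succ_of_le (hm ⟨y, hy, rfl⟩), hidx y hy⟩⟩
        obtain ⟨m, hm⟩ := h2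
        obtain ⟨n, h3, h4⟩ := hh m
        obtain ⟨i, hi, h5⟩ := hm (s n c) ⟨h3, (hsE _ _).2 ⟨n, rfl⟩⟩
        exact h4 i hi h5
    rw [this]
    refine hC.inter (MeasurableSet.iInter fun m => MeasurableSet.iUnion fun n =>
      (hs n hC).inter (MeasurableSet.biInter (to_countable _) fun i _ =>
        (eq_meas (hs i) (hs n)).compl))
  have hsb : StandardBorelSpace C' := hC'm.standardBorel
  have hC'inv : ∀ c ∈ C', ∀ y ∈ C, E c y → y ∈ C' := by
    intro c hc y hy hcy
    refine ⟨hy, ?_⟩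
    have : {z | z ∈ C ∧ E y z} = {z | z ∈ C ∧ E c z} := by
      ext z
      exact and_congr_right fun _ => ⟨fun h => hE.trans hcy h, fun h => hE.trans (hE.symm hcy) h⟩
    rw [this]
    exact hc.2
  have hHF : HF (fun a b : C' => E a b) (fun n (a b : C') => F n a b) :=
    { eqv := fun n => ⟨fun x => (hF.eqv n).refl x, fun h => (hF.eqv n).symm h,
        fun h h' => (hF.eqv n).trans h h'⟩
      meas := fun n => by
        have h1 : Measurable (fun p : C' × C' => ((p.1 : X), (p.2 : X))) :=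
          (measurable_subtype_coe.comp measurable_fst).prodMk
            (measurable_subtype_coe.comp measurable_snd)
        exact h1 (hF.meas n)
      fin := fun n x => (hF.fin n x).preimage Subtype.val_injective.injOn
      mono := fun n x y h => hF.mono n x y h
      union := fun x y => hF.union x y }
  have hApe : Ape (fun a b : C' => E a b) := by
    intro x hfin
    apply x.2.2
    refine (hfin.image Subtype.val).subset ?_
    rintro y ⟨hy, hxy⟩
    exact ⟨⟨y, hC'inv x x.2 y hy hxy⟩, hxy, rfl⟩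
  obtain ⟨U, hU, hUinv, ⟨st, hst1, hst2, hst3⟩, π, hπ, hπ'⟩ := h C' _ _ hHF hApe
  have hemb : MeasurableEmbedding (Subtype.val : C' → X) := MeasurableEmbedding.subtype_coe hC'm
  obtain ⟨ρ, hrho, hrhoπ⟩ := hemb.exists_measurable_extend (g := π) hπ (fun _ => ⟨fun _ => false⟩)
  have hrho' : ∀ c : C', ρ c = π c := fun c => congrFun hrhoπ c
  have hUm : MeasurableSet (Subtype.val '' U) := hemb.measurableSet_image.2 hU
  have hU0 : ν (Subtype.val '' U) = 0 := by
    have hembU : MeasurableEmbedding (fun x : U => (x.1.1 : X)) :=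
      hemb.comp (MeasurableEmbedding.subtype_coe hU)
    choose f0 hf0 hf0' using fun n => hembU.exists_measurable_extend
      (g := fun x : U => ((st x n).1.1 : X))
      (measurable_subtype_coe.comp (measurable_subtype_coe.comp (hst1 n))) (fun x => ⟨x⟩)
    have key : ∀ n (x : U), f0 n x.1.1 = (st x n).1.1 := fun n x => congrFun (hf0' n) x
    refine null_of_inj hs hinv hsE hν hUm
      (fun n x => if x ∈ (Subtype.val '' U : Set X) then f0 n x else x)
      (fun n => Measurable.ite hUm (hf0 n) measurable_id) ?_ ?_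
    · intro n x
      split_ifs with hx
      · obtain ⟨c, hc, rfl⟩ := hx
        have h1 := key n ⟨c, hc⟩
        have h2 := hst2 ⟨c, hc⟩ n
        rw [h1]
        exact h2
      · exact hE.refl x
    · rintro m n _ ⟨c, hc, rfl⟩ _ ⟨d, hd, rfl⟩ he
      rw [if_pos ⟨c, hc, rfl⟩, if_pos ⟨d, hd, rfl⟩, key m ⟨c, hc⟩, key n ⟨d, hd⟩] at he
      obtain ⟨h1, h2⟩ := hst3 ⟨c, hc⟩ ⟨d, hd⟩ m n (Subtype.ext (Subtype.ext he))
      exact ⟨h2, congrArg (fun x : U => x.1.1) h1⟩
  refine ⟨Subtype.val '' Uᶜ, ρ, hemb.measurableSet_image.2 hU.compl, ?_, ?_, hrho, ?_, ?_, ?_⟩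
  · rintro _ ⟨c, -, rfl⟩
    exact c.2.1
  · have h1 : C \ (Subtype.val '' Uᶜ) ⊆
        {c | c ∈ C ∧ ¬ {y | y ∈ C ∧ E c y}.Infinite} ∪ Subtype.val '' U := by
      rintro c ⟨hc, hc2⟩
      by_cases h1 : {y | y ∈ C ∧ E c y}.Infinite
      · right
        by_cases h2 : (⟨c, hc, h1⟩ : C') ∈ U
        · exact ⟨_, h2, rfl⟩
        · exact absurd ⟨_, h2, rfl⟩ hc2
      · exact Or.inl ⟨hc, h1⟩
    exact measure_mono_null h1 (measure_union_null hinf hU0)
  · rintro _ ⟨c, hc, rfl⟩ _ ⟨y, hy, rfl⟩ hcy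
    rw [hrho', hrho']
    exact (hπ' c hc).1 y hcy
  · rintro _ ⟨c, hc, rfl⟩ _ ⟨y, hy, rfl⟩ hcy he
    rw [hrho', hrho'] at he
    exact congrArg Subtype.val ((hπ' c hc).2.1 y hcy he)
  · rintro _ ⟨c, hc, rfl⟩ k
    obtain ⟨y, hy1, hy2⟩ := (hπ' c hc).2.2 k
    refine ⟨y, ⟨y, fun hyU => hc ?_, rfl⟩, hy1, ?_⟩
    · exact hUinv y c (hE.symm hy1) hyU
    · rw [hrho', hrho']
      exact hy2

/-- all finite modifications of the coordinates occur -/
theorem od_mod {X : Type} {E : X → X → Prop} (hE : Equivalence E) {V : Set X}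
    {π : X → ℕ → Bool}
    (h3 : ∀ c ∈ V, ∀ k, ∃ y ∈ V, E c y ∧ π y = Function.update (π c) k (!π c k)) :
    ∀ (j : ℕ), ∀ c ∈ V, ∀ q : ℕ → Bool, (∀ n, j ≤ n → q n = π c n) →
      ∃ y ∈ V, E c y ∧ π y = q := by
  intro j
  induction j with
  | zero =>
    intro c hc q hq
    exact ⟨c, hc, hE.refl c, funext fun n => (hq n (Nat.zero_le n)).symm⟩
  | succ j ih =>
    intro c hc q hq
    obtain ⟨y, hy, hcy, hπy⟩ := ih c hc (Function.update q j (π c j)) (by
      intro n hn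
      by_cases h : n = j
      · subst h
        simp
      · rw [Function.update_of_ne h]
        exact hq n (by omega))
    by_cases h : q j = π c j
    · refine ⟨y, hy, hcy, ?_⟩
      rw [hπy, ← h, Function.update_eq_self]
    · obtain ⟨z, hz, hyz, hπz⟩ := h3 y hy j
      refine ⟨z, hz, hE.trans hcy hyz, ?_⟩
      rw [hπz, hπy]
      funext n
      by_cases hn : n = j
      · subst hn
        simp only [Function.update_self]
        revert h
        cases q n <;> cases π c n <;> simp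
      · rw [Function.update_of_ne hn, Function.update_of_ne hn]

/-- change the first `j` digits to the bits of `u` -/
def md (j u : ℕ) (p : ℕ → Bool) : ℕ → Bool := fun n => if n < j then u.testBit n else p n

theorem measurable_md (j u : ℕ) : Measurable (md j u) := by
  refine measurable_pi_iff.2 fun n => ?_
  unfold md
  by_cases h : n < j
  · simp only [h, if_true]
    exact measurable_const
  · simp only [h, if_false]
    exact measurable_pi_apply n

/-- the number with given binary digits below `j` -/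
theorem exists_bits (j : ℕ) (p : ℕ → Bool) : ∃ u : Fin (2 ^ j), ∀ i < j, (u : ℕ).testBit i = p i := by
  refine ⟨⟨Nat.ofBits (fun i : Fin j => p i), Nat.ofBits_lt_two_pow _⟩, fun i hi => ?_⟩
  simp [Nat.testBit_ofBits_lt _ _ hi]

theorem eq_of_bits {j : ℕ} {u v : Fin (2 ^ j)} (h : ∀ i < j, (u : ℕ).testBit i = (v : ℕ).testBit i) :
    u = v := by
  apply Fin.ext
  apply Nat.eq_of_testBit_eq
  intro i
  by_cases hi : i < j
  · exact h i hi
  · have h1 : (u : ℕ) < 2 ^ i := lt_of_lt_of_le u.2 (Nat.pow_le_pow_right (by norm_num) (by omega))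
    have h2 : (v : ℕ) < 2 ^ i := lt_of_lt_of_le v.2 (Nat.pow_le_pow_right (by norm_num) (by omega))
    rw [Nat.testBit_lt_two_pow h1, Nat.testBit_lt_two_pow h2]

/-- the cells given by the first `j` digits -/
theorem od_cells {X : Type} [MeasurableSpace X] {E : X → X → Prop} (hE : Equivalence E)
    {s : ℕ → X → X} (hs : ∀ n, Measurable (s n)) (hsE : ∀ x y, E x y ↔ ∃ n, s n x = y)
    {V : Set X} (hV : MeasurableSet V) {π : X → ℕ → Bool} (hπ : Measurable π)
    (h2 : ∀ c ∈ V, ∀ y ∈ V, E c y → π c = π y → c = y)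
    (h3 : ∀ c ∈ V, ∀ k, ∃ y ∈ V, E c y ∧ π y = Function.update (π c) k (!π c k)) (j : ℕ) :
    ∃ (D : Set X) (φ : Fin (2 ^ j) → X → X), MeasurableSet D ∧ D ⊆ V ∧
      (∀ i, Measurable (φ i)) ∧ (∀ i x, E x (φ i x)) ∧ (∀ i, InjOn (φ i) D) ∧
      (∀ i, MapsTo (φ i) D V) ∧ (∀ i i', i ≠ i' → Disjoint (φ i '' D) (φ i' '' D)) ∧
      (∀ y ∈ V, ∃ i, ∃ d ∈ D, φ i d = y) ∧
      ∀ i, ∀ d ∈ D, ∀ i', ∀ d' ∈ D, E (φ i d) (φ i' d') →
        (∀ k, j ≤ k → π (φ i d) k = π (φ i' d') k) → d = d' := by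
  classical
  let D : Set X := {c | c ∈ V ∧ ∀ i < j, π c i = false}
  have hD : MeasurableSet D := by
    have : D = V ∩ ⋂ i ∈ Iio j, (fun c => π c i) ⁻¹' {false} := by
      ext c
      simp [D]
    rw [this]
    exact hV.inter (MeasurableSet.biInter (to_countable _) fun i _ =>
      ((measurable_pi_apply i).comp hπ) (measurableSet_singleton _))
  have hDV : D ⊆ V := fun c hc => hc.1
  have hA : ∀ (u : Fin (2 ^ j)) n, MeasurableSet {x | x ∈ V ∧ s n x ∈ V ∧ π (s n x) = md j u (π x)} := by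
    intro u n
    exact hV.inter ((hs n hV).inter
      (measurableSet_eq_fun (hπ.comp (hs n)) ((measurable_md j u).comp hπ)))
  choose φ hφ hφE hφA using fun u : Fin (2 ^ j) => sel hs hE hsE _ (hA u)
  have key : ∀ u, ∀ c ∈ V, φ u c ∈ V ∧ π (φ u c) = md j u (π c) := by
    intro u c hc
    obtain ⟨y, hy, hcy, hπy⟩ := od_mod hE h3 j c hc (md j u (π c)) (fun n hn => by
      unfold md
      rw [if_neg (by omega)])
    obtain ⟨n, rfl⟩ := (hsE _ _).1 hcy
    obtain ⟨n', hn', he⟩ := hφA u c ⟨n, hc, hy, hπy⟩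
    rw [he]
    exact ⟨hn'.2.1, hn'.2.2⟩
  have hπD : ∀ u, ∀ c ∈ D, ∀ n, π c n = if n < j then false else π (φ u c) n := by
    intro u c hc n
    split_ifs with hn
    · exact hc.2 n hn
    · rw [(key u c hc.1).2, md, if_neg hn]
  have last : ∀ i, ∀ d ∈ D, ∀ i', ∀ d' ∈ D, E (φ i d) (φ i' d') →
        (∀ k, j ≤ k → π (φ i d) k = π (φ i' d') k) → d = d' := by
    intro i d hd i' d' hd' h4 h5
    refine h2 d hd.1 d' hd'.1 (hE.trans (hφE i d) (hE.trans h4 (hE.symm (hφE i' d')))) ?_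
    funext n
    rw [hπD i d hd n, hπD i' d' hd' n]
    split_ifs with hn
    · rfl
    · exact h5 n (by omega)
  refine ⟨D, φ, hD, hDV, hφ, hφE, ?_, fun i c hc => (key i c hc.1).1, ?_, ?_, last⟩
  · intro i d hd d' hd' he
    exact last i d hd i d' hd' (by rw [he]; exact hE.refl _) (fun k _ => by rw [he])
  · intro i i' hii'
    rw [Set.disjoint_left]
    rintro _ ⟨d, hd, rfl⟩ ⟨d', hd', he⟩
    apply hii'
    apply eq_of_bits
    intro n hn
    have h4 := congrFun (key i d hd.1).2 n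
    have h5 := congrFun (key i' d' hd'.1).2 n
    rw [md, if_pos hn] at h4 h5
    rw [← h4, ← h5, he]
  · intro y hy
    obtain ⟨u, hu⟩ := exists_bits j (π y)
    obtain ⟨c, hc, hyc, hπc⟩ := od_mod hE h3 j y hy (fun n => if n < j then false else π y n)
      (fun n hn => by rw [if_neg (by omega)])
    refine ⟨u, c, ⟨hc, fun i hi => by simp only [hπc, if_pos hi]⟩, ?_⟩
    refine h2 _ (key u c hc).1 y hy (hE.symm (hE.trans hyc (hφE u c))) ?_
    rw [(key u c hc).2]
    funext n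
    unfold md
    split_ifs with hn
    · exact hu n hn
    · simp only [hπc, if_neg hn]

/-! ### The construction -/

section construction

variable {X : Type} [MeasurableSpace X] [StandardBorelSpace X]

/-- state of the construction: the set, the finite set of composites, the positions -/
structure St (E : X → X → Prop) (ν : Measure X) where
  C : Set X
  S : Finset (X → X)
  pos : X → X
  hC : MeasurableSet C
  hS : ∀ f ∈ S, Measurable f
  hpos : Measurable pos
  hposE : ∀ x, E x (pos x)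
  hnull : ν {x | ¬ (pos x ∈ C ∧ ∃ f ∈ S, f (pos x) = x)} = 0

open Classical in
/-- the next state -/
theorem exists_q {s : ℕ → X → X} (hs : ∀ n, Measurable (s n)) {E : X → X → Prop}
    (hE : Equivalence E) (hsE : ∀ x y, E x y ↔ ∃ n, s n x = y) {ν : Measure X}
    (hν : ∀ n, ν.map (s n) = ν) (p : St E ν) {m : ℕ} {D : Set X} {φ : Fin (2 ^ m) → X → X}
    {back : X → X} (hD : MeasurableSet D) (hφ : ∀ i, Measurable (φ i)) (hback : Measurable back)
    (hbackE : ∀ x, E x (back x)) (hib : ∀ i, ∀ x ∈ D, back (φ i x) = x)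
    (hcov : ν (p.C \ ⋃ i, φ i '' D) = 0) :
    ∃ q : St E ν, q.C = D ∧ (q.pos = fun x => back (p.pos x)) ∧
      ∀ f ∈ p.S, ∀ i, (fun x => f (φ i x)) ∈ q.S := by
  refine ⟨{ C := D
            S := (p.S ×ˢ (Finset.univ : Finset (Fin (2 ^ m)))).image (fun fi x => fi.1 (φ fi.2 x))
            pos := fun x => back (p.pos x)
            hC := hD
            hS := ?_
            hpos := hback.comp p.hpos
            hposE := fun x => hE.trans (p.hposE x) (hbackE _)
            hnull := ?_ }, rfl, rfl, ?_⟩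
  · intro f hf
    simp only [Finset.mem_image, Finset.mem_product, Finset.mem_univ, and_true] at hf
    obtain ⟨⟨g, i⟩, hg, rfl⟩ := hf
    exact (p.hS g hg).comp (hφ i)
  · have h1 : {x | ¬ (back (p.pos x) ∈ D ∧ ∃ f ∈ (p.S ×ˢ (Finset.univ : Finset (Fin (2 ^ m)))).image
        (fun fi x => fi.1 (φ fi.2 x)), f (back (p.pos x)) = x)} ⊆
        {x | ¬ (p.pos x ∈ p.C ∧ ∃ f ∈ p.S, f (p.pos x) = x)} ∪
          p.pos ⁻¹' (p.C \ ⋃ i, φ i '' D) := by
      intro x hx
      by_contra hcon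
      rw [mem_union, not_or] at hcon
      obtain ⟨h2, h3⟩ := hcon
      rw [mem_ofPred_eq, not_not] at h2
      obtain ⟨h4, f, hf, h5⟩ := h2
      have h6 : p.pos x ∈ ⋃ i, φ i '' D := by
        by_contra h7
        exact h3 ⟨h4, h7⟩
      obtain ⟨i, d, hd, hde⟩ := mem_iUnion.1 h6
      apply hx
      have h7 : back (p.pos x) = d := by rw [← hde, hib i d hd]
      refine ⟨by rw [h7]; exact hd, fun x => f (φ i x), ?_, ?_⟩
      · exact Finset.mem_image.2 ⟨(f, i), by simp [hf], rfl⟩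
      · show f (φ i (back (p.pos x))) = x
        rw [h7, hde, h5]
    exact measure_mono_null h1 (measure_union_null p.hnull
      (null_pre hs hsE hν p.hposE hcov))
  · intro f hf i
    exact Finset.mem_image.2 ⟨(f, i), by simp [hf], rfl⟩

/-- the data of one step -/
structure Data (s : ℕ → X → X) (E : X → X → Prop) (ν : Measure X) (t : X → ℕ → Bool) (k : ℕ)
    (p : St E ν) where
  m : ℕ
  hm : 1 ≤ m
  q : St E ν
  φ : Fin (2 ^ m) → X → X
  idx : X → Fin (2 ^ m)
  back : X → X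
  w : Fin (2 ^ m) → X → ℕ
  v : X → ℕ
  hv : k % 2 = 1 → ∀ x y, v x = v y → ∀ f ∈ p.S, ∀ i < k, t (f x) i = t (f y) i
  hφ : ∀ i, Measurable (φ i)
  hφE : ∀ i x, E x (φ i x)
  hφi : ∀ i, InjOn (φ i) q.C
  hφC : ∀ i, MapsTo (φ i) q.C p.C
  hφd : ∀ i j, i ≠ j → Disjoint (φ i '' q.C) (φ j '' q.C)
  hcov : ν (p.C \ ⋃ i, φ i '' q.C) = 0
  hw : ∀ i, Measurable (w i)
  hvm : Measurable v
  hwE : ∀ i x y, E x y → w i x = w i y
  hbad : ν {x | x ∈ p.C ∧ x ∈ ⋃ i, φ i '' q.C ∧ v x ≠ w (idx x) x} ≤ (2⁻¹ : ENNReal) ^ k * ν p.C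
  hidx : Measurable idx
  hback : Measurable back
  hbackE : ∀ x, E x (back x)
  hib : ∀ i, ∀ x ∈ q.C, idx (φ i x) = i ∧ back (φ i x) = x
  hqS : ∀ f ∈ p.S, ∀ i, (fun x => f (φ i x)) ∈ q.S
  hqpos : q.pos = fun x => back (p.pos x)
  hgood : k % 2 = 0 →
    ν {x | ∃ i < k, back (p.pos x) ≠ back (p.pos (s i x))} ≤ (2⁻¹ : ENNReal) ^ k

theorem data_odd (s : ℕ → X → X)
    (hs : ∀ n, Measurable (s n)) (hinv : ∀ n x, s n (s n x) = x) (E : X → X → Prop)
    (hE : Equivalence E) (hsE : ∀ x y, E x y ↔ ∃ n, s n x = y)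
    (ν : Measure X) [IsProbabilityMeasure ν] (hν : ∀ n, ν.map (s n) = ν)
    (hcells : ∀ (C : Set X), MeasurableSet C → ∀ (r : ℕ) (v : X → Fin r), Measurable v → ∀ m : ℕ,
      ∃ (D : Set X) (φ : Fin (2 ^ m) → X → X) (w : Fin (2 ^ m) → X → Fin r),
      MeasurableSet D ∧ D ⊆ C ∧ (∀ i, Measurable (φ i)) ∧ (∀ i x, E x (φ i x)) ∧
      (∀ i, InjOn (φ i) D) ∧ (∀ i, MapsTo (φ i) D C) ∧
      (∀ i j, i ≠ j → Disjoint (φ i '' D) (φ j '' D)) ∧ ν (C \ ⋃ i, φ i '' D) = 0 ∧
      (∀ i, Measurable (w i)) ∧ (∀ i x y, E x y → w i x = w i y) ∧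
      ν {x | x ∈ C ∧ ∃ i, x ∈ φ i '' D ∧ v x ≠ w i x} ≤ (r : ENNReal) / 2 ^ m * ν C)
    (t : X → ℕ → Bool) (ht : Measurable t) (k : ℕ) (hk : k % 2 = 1) (p : St E ν) :
    Nonempty (Data s E ν t k p) := by
  classical
  -- the vector of tags
  let T := (p.S → Fin k → Bool)
  let e := Fintype.equivFin T
  let r := Fintype.card T
  let v : X → Fin r := fun x => e (fun f i => t (f.1 x) i)
  have hvm : Measurable v := by
    have h1 : Measurable (fun x => (fun f i => t (f.1 x) i : T)) := by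
      refine measurable_pi_iff.2 fun f => measurable_pi_iff.2 fun i => ?_
      exact (measurable_pi_apply (i : ℕ)).comp (ht.comp (p.hS f.1 f.2))
    have h2 : Measurable e := measurable_of_countable _
    exact h2.comp h1
  obtain ⟨D, φ, w, hD, hDC, hφ, hφE, hφi, hφC, hφd, hcov, hw, hwE, hbad⟩ :=
    hcells p.C p.hC r v hvm (r + k + 1)
  obtain ⟨idx, back, hidx, hback, hbackE, hib⟩ := step hs hinv hE hsE ν v hD hDC hφ hφE hφi hφC hφd
  obtain ⟨q, hqC, hqpos, hqS⟩ := exists_q hs hE hsE hν p hD hφ hback hbackE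
    (fun i x hx => (hib i x hx).2) hcov
  subst hqC
  refine ⟨{ m := r + k + 1, hm := by omega, q := q
            φ := φ, idx := idx, back := back, w := fun i x => (w i x : ℕ), v := fun x => (v x : ℕ),
            hv := ?_, hφ := hφ, hφE := hφE, hφi := hφi, hφC := hφC, hφd := hφd,
            hcov := hcov, hw := fun i => (measurable_of_countable _).comp (hw i),
            hvm := (measurable_of_countable _).comp hvm,
            hwE := fun i x y h => by rw [hwE i x y h], hbad := ?_, hidx := hidx, hback := hback,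
            hbackE := hbackE, hib := hib, hqS := hqS, hqpos := hqpos,
            hgood := fun h => by omega }⟩
  · intro _ x y hxy f hf i hi
    have h1 : v x = v y := Fin.ext hxy
    have h2 := e.injective h1
    exact congrFun (congrFun h2 ⟨f, hf⟩) ⟨i, hi⟩
  · have h1 : {x | x ∈ p.C ∧ x ∈ ⋃ i, φ i '' q.C ∧ ((v x : ℕ)) ≠ (w (idx x) x : ℕ)} ⊆
        {x | x ∈ p.C ∧ ∃ i, x ∈ φ i '' q.C ∧ v x ≠ w i x} := by
      rintro x ⟨hx, hx2, hx3⟩
      obtain ⟨i, y, hy, rfl⟩ := mem_iUnion.1 hx2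
      refine ⟨hx, i, ⟨y, hy, rfl⟩, ?_⟩
      rw [(hib i y hy).1] at hx3
      exact fun h => hx3 (congrArg _ h)
    refine (measure_mono h1).trans (hbad.trans ?_)
    gcongr
    rw [ENNReal.div_le_iff (by positivity) (by finiteness)]
    have h3 : (r : ENNReal) ≤ 2 ^ (r + 1) := by
      have : r < 2 ^ r := Nat.lt_two_pow_self
      have h4 : r ≤ 2 ^ (r + 1) := by rw [pow_succ]; omega
      exact_mod_cast h4
    calc (r : ENNReal) ≤ 2 ^ (r + 1) := h3
      _ = (2⁻¹ ^ k * 2 ^ k) * 2 ^ (r + 1) := by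
        rw [← mul_pow, ENNReal.inv_mul_cancel (by norm_num) (by norm_num), one_pow, one_mul]
      _ = 2⁻¹ ^ k * 2 ^ (r + k + 1) := by ring

theorem data_even (h : S_OD) (s : ℕ → X → X)
    (hs : ∀ n, Measurable (s n)) (hinv : ∀ n x, s n (s n x) = x) (E : X → X → Prop)
    {F : ℕ → X → X → Prop} (hF : HF E F) (hApe : Ape E)
    (hsE : ∀ x y, E x y ↔ ∃ n, s n x = y)
    (ν : Measure X) [IsProbabilityMeasure ν] (hν : ∀ n, ν.map (s n) = ν)
    (t : X → ℕ → Bool) (k : ℕ) (hk : k % 2 = 0) (p : St E ν) :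
    Nonempty (Data s E ν t k p) := by
  classical
  have hE := hf_equiv hF
  have hEs : ∀ n x, E x (s n x) := fun n x => (hsE _ _).2 ⟨n, rfl⟩
  -- almost every point of `C` has infinitely many related points in `C`
  have hinf : ν {c | c ∈ p.C ∧ ¬ {y | y ∈ p.C ∧ E c y}.Infinite} = 0 := by
    have h1 : {c | c ∈ p.C ∧ ¬ {y | y ∈ p.C ∧ E c y}.Infinite} ⊆
        ⋃ n, s n ⁻¹' {x | ¬ (p.pos x ∈ p.C ∧ ∃ f ∈ p.S, f (p.pos x) = x)} := by
      rintro c ⟨hc, hfin⟩
      rw [not_infinite] at hfin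
      by_contra hcon
      have h2 : ∀ y, E c y → p.pos y ∈ p.C ∧ ∃ f ∈ p.S, f (p.pos y) = y := by
        intro y hy
        obtain ⟨n, rfl⟩ := (hsE _ _).1 hy
        by_contra h3
        exact hcon (mem_iUnion.2 ⟨n, h3⟩)
      have h3 : {y | E c y} ⊆
          (fun fy : (X → X) × X => fy.1 fy.2) '' ((p.S : Set (X → X)) ×ˢ {y | y ∈ p.C ∧ E c y}) := by
        intro y hy
        obtain ⟨h4, f, hf, h5⟩ := h2 y hy
        exact ⟨(f, p.pos y), ⟨hf, h4, hE.trans hy (p.hposE y)⟩, h5⟩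
      exact hApe c (((p.S.finite_toSet.prod hfin).image _).subset h3)
    refine measure_mono_null h1 (measure_iUnion_null fun n => ?_)
    exact null_pre hs hsE hν (hEs n) p.hnull
  obtain ⟨V, π, hV, hVC, hV0, hπ, h1, h2, h3⟩ := od_local h hF hs hinv hsE hν p.hC hinf
  -- choice of the number of digits
  let B : ℕ → Set X := fun n => {x | p.pos x ∈ V ∧ ∀ i < k, p.pos (s i x) ∈ V ∧
    ∀ l, n ≤ l → π (p.pos x) l = π (p.pos (s i x)) l}
  have hBm : ∀ n, MeasurableSet (B n) := by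
    intro n
    have : B n = p.pos ⁻¹' V ∩ ⋂ i ∈ Iio k, ((fun x => p.pos (s i x)) ⁻¹' V ∩
        ⋂ l ∈ Ici n, {x | π (p.pos x) l = π (p.pos (s i x)) l}) := by
      ext x
      simp [B]
    rw [this]
    refine (p.hpos hV).inter (MeasurableSet.biInter (to_countable _) fun i _ =>
      ((p.hpos.comp (hs i)) hV).inter (MeasurableSet.biInter (to_countable _) fun l _ => ?_))
    exact measurableSet_eq_fun ((measurable_pi_apply l).comp (hπ.comp p.hpos))
      ((measurable_pi_apply l).comp (hπ.comp (p.hpos.comp (hs i))))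
  have hBa : Antitone fun n => (B n)ᶜ := by
    intro n n' hn
    apply compl_subset_compl.2
    rintro x ⟨hx1, hx2⟩
    exact ⟨hx1, fun i hi => ⟨(hx2 i hi).1, fun l hl => (hx2 i hi).2 l (hn.trans hl)⟩⟩
  have hposV : ν {x | p.pos x ∉ V} = 0 := by
    have h4 : {x | p.pos x ∉ V} ⊆ {x | ¬ (p.pos x ∈ p.C ∧ ∃ f ∈ p.S, f (p.pos x) = x)} ∪
        p.pos ⁻¹' (p.C \ V) := by
      intro x hx
      by_cases h5 : p.pos x ∈ p.C
      · exact Or.inr ⟨h5, hx⟩
      · exact Or.inl fun h6 => h5 h6.1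
    exact measure_mono_null h4 (measure_union_null p.hnull (null_pre hs hsE hν p.hposE hV0))
  have hBi : ν (⋂ n, (B n)ᶜ) = 0 := by
    have h4 : (⋂ n, (B n)ᶜ) ⊆ {x | p.pos x ∉ V} ∪ ⋃ i, s i ⁻¹' {x | p.pos x ∉ V} := by
      intro x hx
      by_contra hcon
      rw [mem_union, not_or] at hcon
      obtain ⟨h5, h6⟩ := hcon
      have h5' : p.pos x ∈ V := not_not.1 h5
      have h6' : ∀ i, p.pos (s i x) ∈ V := by
        intro i
        by_contra h7
        exact h6 (mem_iUnion.2 ⟨i, h7⟩)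
      have h7 : ∀ i, ∃ n, ∀ l, n ≤ l → π (p.pos x) l = π (p.pos (s i x)) l := fun i =>
        h1 _ h5' _ (h6' i) (hE.trans (hE.symm (p.hposE x)) (hE.trans (hEs i x) (p.hposE _)))
      choose N hN using h7
      have h8 := mem_iInter.1 hx ((Finset.range k).sup N)
      apply h8
      refine ⟨h5', fun i hi => ⟨h6' i, fun l hl => hN i l (le_trans ?_ hl)⟩⟩
      exact Finset.le_sup (f := N) (Finset.mem_range.2 hi)
    refine measure_mono_null h4 (measure_union_null hposV (measure_iUnion_null fun i => ?_))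
    exact null_pre hs hsE hν (hEs i) hposV
  have htend : Tendsto (fun n => ν (B n)ᶜ) atTop (nhds 0) := by
    have h4 := tendsto_measure_iInter_atTop (μ := ν) (s := fun n => (B n)ᶜ)
      (fun n => (hBm n).compl.nullMeasurableSet) hBa ⟨0, measure_ne_top _ _⟩
    rwa [hBi] at h4
  have hpos2 : (0 : ENNReal) < (2⁻¹ : ENNReal) ^ k := by
    apply ENNReal.pow_pos
    simp
  obtain ⟨n0, hn0⟩ := eventually_atTop.1 ((tendsto_order.1 htend).2 _ hpos2)
  set j := max n0 1 with hj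
  have hjB : ν (B j)ᶜ ≤ (2⁻¹ : ENNReal) ^ k := (hn0 j (le_max_left _ _)).le
  obtain ⟨D, φ, hD, hDV, hφ, hφE, hφi, hφV, hφd, hφs, hlast⟩ :=
    od_cells hE hs hsE hV hπ h2 h3 j
  have hφC : ∀ i, MapsTo (φ i) D p.C := fun i x hx => hVC (hφV i hx)
  obtain ⟨idx, back, hidx, hback, hbackE, hib⟩ := step hs hinv hE hsE ν
    (fun _ => (0 : Fin 1)) hD (hDV.trans hVC) hφ hφE hφi hφC hφd
  have hcov : ν (p.C \ ⋃ i, φ i '' D) = 0 := by
    refine measure_mono_null ?_ hV0
    rintro x ⟨hx1, hx2⟩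
    refine ⟨hx1, fun hx3 => hx2 ?_⟩
    obtain ⟨i, d, hd, he⟩ := hφs x hx3
    exact mem_iUnion.2 ⟨i, d, hd, he⟩
  obtain ⟨q, hqC, hqpos, hqS⟩ := exists_q hs hE hsE hν p hD hφ hback hbackE
    (fun i x hx => (hib i x hx).2) hcov
  subst hqC
  refine ⟨{ m := j, hm := le_max_right _ _, q := q
            φ := φ, idx := idx, back := back, w := fun _ _ => 0, v := fun _ => 0,
            hv := fun h => by omega, hφ := hφ, hφE := hφE, hφi := hφi, hφC := hφC, hφd := hφd,
            hcov := hcov, hw := fun i => measurable_const,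
            hvm := measurable_const,
            hwE := fun i x y h => rfl, hbad := ?_, hidx := hidx, hback := hback,
            hbackE := hbackE, hib := hib, hqS := hqS, hqpos := hqpos,
            hgood := fun _ => ?_ }⟩
  · have : {x | x ∈ p.C ∧ x ∈ ⋃ i, φ i '' q.C ∧ (0 : ℕ) ≠ 0} = ∅ := by
      ext x
      simp
    rw [this, measure_empty]
    exact zero_le
  · refine (measure_mono ?_).trans hjB
    rintro x ⟨i, hi, hne⟩ hx
    apply hne
    obtain ⟨a, d, hd, hde⟩ := hφs _ hx.1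
    obtain ⟨a', d', hd', hde'⟩ := hφs _ (hx.2 i hi).1
    rw [← hde, ← hde', (hib a d hd).2, (hib a' d' hd').2]
    refine hlast a d hd a' d' hd' ?_ ?_
    · rw [hde, hde']
      exact hE.trans (hE.symm (p.hposE x)) (hE.trans (hEs i x) (p.hposE _))
    · intro l hl
      rw [hde, hde']
      exact (hx.2 i hi).2 l hl

end construction

/-! ### The whole sequence -/

section sequence

variable {X : Type} [MeasurableSpace X] [StandardBorelSpace X]

/-- the successive positions -/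
def posOf (back : ℕ → X → X) : ℕ → X → X
  | 0, x => x
  | k + 1, x => back k (posOf back k x)

/-- the whole sequence of data -/
structure Seq (s : ℕ → X → X) (E : X → X → Prop) (ν : Measure X) (t : X → ℕ → Bool) where
  C : ℕ → Set X
  S : ℕ → Finset (X → X)
  m : ℕ → ℕ
  φ : ∀ k, Fin (2 ^ m k) → X → X
  idx : ∀ k, X → Fin (2 ^ m k)
  back : ℕ → X → X
  w : ∀ k, Fin (2 ^ m k) → X → ℕ
  v : ℕ → X → ℕ
  hC0 : C 0 = univ
  hS0 : (fun x => x) ∈ S 0
  hC : ∀ k, MeasurableSet (C k)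
  hm : ∀ k, 1 ≤ m k
  hv : ∀ k, k % 2 = 1 → ∀ x y, v k x = v k y → ∀ f ∈ S k, ∀ i < k, t (f x) i = t (f y) i
  hφ : ∀ k i, Measurable (φ k i)
  hφE : ∀ k i x, E x (φ k i x)
  hφi : ∀ k i, InjOn (φ k i) (C (k + 1))
  hφC : ∀ k i, MapsTo (φ k i) (C (k + 1)) (C k)
  hφd : ∀ k i j, i ≠ j → Disjoint (φ k i '' C (k + 1)) (φ k j '' C (k + 1))
  hcov : ∀ k, ν (C k \ ⋃ i, φ k i '' C (k + 1)) = 0
  hw : ∀ k i, Measurable (w k i)
  hvm : ∀ k, Measurable (v k)
  hwE : ∀ k i x y, E x y → w k i x = w k i y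
  hbad : ∀ k, ν {x | x ∈ C k ∧ x ∈ ⋃ i, φ k i '' C (k + 1) ∧ v k x ≠ w k (idx k x) x} ≤
    (2⁻¹ : ENNReal) ^ k * ν (C k)
  hidx : ∀ k, Measurable (idx k)
  hback : ∀ k, Measurable (back k)
  hbackE : ∀ k x, E x (back k x)
  hib : ∀ k i, ∀ x ∈ C (k + 1), idx k (φ k i x) = i ∧ back k (φ k i x) = x
  hqS : ∀ k, ∀ f ∈ S k, ∀ i, (fun x => f (φ k i x)) ∈ S (k + 1)
  hgood : ∀ k, k % 2 = 0 → ν {x | ∃ i < k, back k (posOf back k x) ≠
    back k (posOf back k (s i x))} ≤ (2⁻¹ : ENNReal) ^ k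

theorem exists_seq (s : ℕ → X → X) {E : X → X → Prop} (hE : Equivalence E) (ν : Measure X)
    (t : X → ℕ → Bool)
    (hex : ∀ (k : ℕ) (p : St E ν), Nonempty (Data s E ν t k p)) : Nonempty (Seq s E ν t) := by
  let dat : ∀ (k : ℕ) (p : St E ν), Data s E ν t k p := fun k p => (hex k p).some
  let p0 : St E ν :=
    { C := univ
      S := {fun x => x}
      pos := fun x => x
      hC := MeasurableSet.univ
      hS := by
        intro f hf
        rw [Finset.mem_singleton] at hf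
        subst hf; exact measurable_id
      hpos := measurable_id
      hposE := fun x => hE.refl x
      hnull := by
        have : {x : X | ¬ (x ∈ (univ : Set X) ∧
            ∃ f ∈ ({fun x => x} : Finset (X → X)), f x = x)} = ∅ := by
          ext x
          simp
        rw [this, measure_empty] }
  let P : ℕ → St E ν := fun k => Nat.rec p0 (fun k p => (dat k p).q) k
  let d : ∀ k, Data s E ν t k (P k) := fun k => dat k (P k)
  have hpos : ∀ k, posOf (fun k => (d k).back) k = (P k).pos := by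
    intro k
    induction k with
    | zero => rfl
    | succ k ih =>
      have h1 : (P (k + 1)).pos = fun x => (d k).back ((P k).pos x) := (d k).hqpos
      rw [h1, ← ih]
      rfl
  exact ⟨{
    C := fun k => (P k).C
    S := fun k => (P k).S
    m := fun k => (d k).m
    φ := fun k => (d k).φ
    idx := fun k => (d k).idx
    back := fun k => (d k).back
    w := fun k => (d k).w
    v := fun k => (d k).v
    hC0 := rfl
    hS0 := Finset.mem_singleton_self _
    hC := fun k => (P k).hC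
    hm := fun k => (d k).hm
    hv := fun k => (d k).hv
    hφ := fun k => (d k).hφ
    hφE := fun k => (d k).hφE
    hφi := fun k => (d k).hφi
    hφC := fun k => (d k).hφC
    hφd := fun k => (d k).hφd
    hcov := fun k => (d k).hcov
    hw := fun k => (d k).hw
    hvm := fun k => (d k).hvm
    hwE := fun k => (d k).hwE
    hbad := fun k => (d k).hbad
    hidx := fun k => (d k).hidx
    hback := fun k => (d k).hback
    hbackE := fun k => (d k).hbackE
    hib := fun k => (d k).hib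
    hqS := fun k => (d k).hqS
    hgood := fun k hk => by
      rw [hpos]
      exact (d k).hgood hk }⟩

namespace Seq

variable {s₀ : ℕ → X → X} {E : X → X → Prop} {ν : Measure X} {t : X → ℕ → Bool}
  (Q : Seq s₀ E ν t)

/-- the successive positions -/
abbrev pos : ℕ → X → X := posOf Q.back

/-- the good part at level `k` -/
def W (k : ℕ) : Set X := ⋃ i, Q.φ k i '' Q.C (k + 1)

/-- digits -/
def om (x : X) (k : ℕ) : Fin (2 ^ Q.m k) := Q.idx k (Q.pos k x)

/-- composites -/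
def Y (θ : ∀ k, Fin (2 ^ Q.m k)) : ℕ → X → X
  | 0, x => x
  | k + 1, x => Y θ k (Q.φ k (θ k) x)

/-- the set of points good below `k` -/
def G (k : ℕ) : Set X := {x | ∀ j < k, Q.pos j x ∈ Q.W j}

theorem pos_meas (k : ℕ) : Measurable (Q.pos k) := by
  induction k with
  | zero => exact measurable_id
  | succ k ih => exact (Q.hback k).comp ih

theorem W_meas (k : ℕ) : MeasurableSet (Q.W k) :=
  MeasurableSet.iUnion fun i => image_meas (Q.hC _) (Q.hφ k i) (Q.hφi k i)

theorem G_meas (k : ℕ) : MeasurableSet (Q.G k) := by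
  have : Q.G k = ⋂ j ∈ Iio k, Q.pos j ⁻¹' Q.W j := by
    ext x; simp [G]
  rw [this]
  exact MeasurableSet.biInter (to_countable _) fun j _ => Q.pos_meas j (Q.W_meas j)

theorem G_succ (k : ℕ) : Q.G (k + 1) = Q.G k ∩ Q.pos k ⁻¹' Q.W k := by
  ext x
  simp only [G, mem_ofPred_eq, mem_inter_iff, mem_preimage]
  constructor
  · intro h
    exact ⟨fun j hj => h j (by omega), h k (by omega)⟩
  · rintro ⟨h1, h2⟩ j hj
    rcases Nat.lt_succ_iff_lt_or_eq.1 hj with h | rfl
    · exact h1 j h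
    · exact h2

theorem W_sub (k : ℕ) : Q.W k ⊆ Q.C k := by
  intro x hx
  obtain ⟨i, y, hy, rfl⟩ := mem_iUnion.1 hx
  exact Q.hφC k i hy

theorem back_mem {k : ℕ} {x : X} (hx : x ∈ Q.W k) :
    Q.back k x ∈ Q.C (k + 1) ∧ Q.φ k (Q.idx k x) (Q.back k x) = x := by
  obtain ⟨i, y, hy, rfl⟩ := mem_iUnion.1 hx
  rw [(Q.hib k i y hy).1, (Q.hib k i y hy).2]
  exact ⟨hy, rfl⟩

theorem pos_mem {k : ℕ} {x : X} (hx : x ∈ Q.G k) : Q.pos k x ∈ Q.C k := by
  cases k with
  | zero => rw [Q.hC0]; trivial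
  | succ k => exact (Q.back_mem (hx k (by omega))).1

theorem Y_om {k : ℕ} {x : X} (hx : x ∈ Q.G k) : Q.Y (Q.om x) k (Q.pos k x) = x := by
  induction k with
  | zero => rfl
  | succ k ih =>
    have h1 : x ∈ Q.G k := fun j hj => hx j (by omega)
    have h2 := (Q.back_mem (hx k (by omega))).2
    show Q.Y (Q.om x) k (Q.φ k (Q.idx k (Q.pos k x)) (Q.back k (Q.pos k x))) = x
    rw [h2, ih h1]

theorem Y_mem (θ : ∀ k, Fin (2 ^ Q.m k)) (k : ℕ) : (fun x => Q.Y θ k x) ∈ Q.S k := by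
  induction k with
  | zero => exact Q.hS0
  | succ k ih => exact Q.hqS k _ ih (θ k)

theorem Y_congr {θ θ' : ∀ k, Fin (2 ^ Q.m k)} {k : ℕ} (h : ∀ j < k, θ j = θ' j) (x : X) :
    Q.Y θ k x = Q.Y θ' k x := by
  induction k generalizing x with
  | zero => rfl
  | succ k ih =>
    show Q.Y θ k (Q.φ k (θ k) x) = Q.Y θ' k (Q.φ k (θ' k) x)
    rw [h k (by omega), ih (fun j hj => h j (by omega))]

theorem om_Y (θ : ∀ k, Fin (2 ^ Q.m k)) {k : ℕ} {c : X} (hc : c ∈ Q.C k) :
    Q.pos k (Q.Y θ k c) = c ∧ (∀ j < k, Q.om (Q.Y θ k c) j = θ j) := by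
  induction k generalizing c with
  | zero => exact ⟨rfl, by simp⟩
  | succ k ih =>
    obtain ⟨h1, h2⟩ := ih (Q.hφC k (θ k) hc)
    have h3 := Q.hib k (θ k) c hc
    refine ⟨?_, ?_⟩
    · show Q.back k (Q.pos k (Q.Y θ k (Q.φ k (θ k) c))) = c
      rw [h1, h3.2]
    · intro j hj
      rcases Nat.lt_succ_iff_lt_or_eq.1 hj with h | rfl
      · exact h2 j h
      · show Q.idx j (Q.pos j (Q.Y θ j (Q.φ j (θ j) c))) = θ j
        rw [h1, h3.1]

theorem pos_E (hE : Equivalence E) (k : ℕ) (x : X) : E x (Q.pos k x) := by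
  induction k with
  | zero => exact hE.refl x
  | succ k ih => exact hE.trans ih (Q.hbackE k _)

theorem Y_E (hE : Equivalence E) (θ : ∀ k, Fin (2 ^ Q.m k)) (k : ℕ) (x : X) : E x (Q.Y θ k x) := by
  induction k generalizing x with
  | zero => exact hE.refl x
  | succ k ih => exact hE.trans (Q.hφE k (θ k) x) (ih _)

/-- the fundamental measure identity -/
theorem measure_G {s : ℕ → X → X}
    (hs : ∀ n, Measurable (s n)) (hinv : ∀ n x, s n (s n x) = x)
    (hsE : ∀ x y, E x y ↔ ∃ n, s n x = y) (hν : ∀ n, ν.map (s n) = ν) (k : ℕ) :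
    ∀ B : Set X, MeasurableSet B → B ⊆ Q.C k →
      ν (Q.G k ∩ Q.pos k ⁻¹' B) = (∏ j ∈ Finset.range k, (2 ^ Q.m j : ENNReal)) * ν B := by
  induction k with
  | zero =>
    intro B hB _
    have : Q.G 0 ∩ Q.pos 0 ⁻¹' B = B := by
      ext x; simp [G, posOf]
    rw [this]; simp
  | succ k ih =>
    intro B hB hBC
    have h1 : Q.G (k + 1) ∩ Q.pos (k + 1) ⁻¹' B = Q.G k ∩ Q.pos k ⁻¹' (⋃ i, Q.φ k i '' B) := by
      ext x
      rw [G_succ]
      constructor
      · rintro ⟨⟨h1, h2⟩, h3⟩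
        refine ⟨h1, ?_⟩
        rw [mem_preimage, ← (Q.back_mem h2).2]
        exact mem_iUnion.2 ⟨_, mem_image_of_mem _ h3⟩
      · rintro ⟨h1, h2⟩
        obtain ⟨i, b, hb, hbx⟩ := mem_iUnion.1 h2
        refine ⟨⟨h1, ?_⟩, ?_⟩
        · exact mem_iUnion.2 ⟨i, b, hBC hb, hbx⟩
        · show Q.back k (Q.pos k x) ∈ B
          rw [← hbx, (Q.hib k i b (hBC hb)).2]
          exact hb
    have hm : ∀ i, MeasurableSet (Q.φ k i '' B) := fun i =>
      image_meas hB (Q.hφ k i) ((Q.hφi k i).mono hBC)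
    rw [h1, ih _ (MeasurableSet.iUnion hm), measure_iUnion, Finset.prod_range_succ]
    · have h2 : ∀ i, ν (Q.φ k i '' B) = ν B := fun i =>
        measure_image hs hinv hsE hν hB (Q.hφ k i) (Q.hφE k i) ((Q.hφi k i).mono hBC)
      simp_rw [h2]
      rw [tsum_fintype, Finset.sum_const, Finset.card_univ, Fintype.card_fin, nsmul_eq_mul]
      push_cast
      ring
    · intro i j hij
      exact (Q.hφd k i j hij).mono (image_mono hBC) (image_mono hBC)
    · exact hm
    · exact iUnion_subset fun i => ((Q.hφC k i).mono_left hBC).image_subset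

theorem measure_G_compl {s : ℕ → X → X}
    (hs : ∀ n, Measurable (s n)) (hinv : ∀ n x, s n (s n x) = x)
    (hsE : ∀ x y, E x y ↔ ∃ n, s n x = y) (hν : ∀ n, ν.map (s n) = ν) (k : ℕ) :
    ν (Q.G k)ᶜ = 0 := by
  induction k with
  | zero =>
    have : (Q.G 0)ᶜ = ∅ := by ext x; simp [G]
    rw [this]; simp
  | succ k ih =>
    have h1 : (Q.G (k + 1))ᶜ ⊆ (Q.G k)ᶜ ∪ (Q.G k ∩ Q.pos k ⁻¹' (Q.C k \ Q.W k)) := by
      intro x hx
      rw [G_succ] at hx
      by_cases h : x ∈ Q.G k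
      · right
        exact ⟨h, Q.pos_mem h, fun h' => hx ⟨h, h'⟩⟩
      · exact Or.inl h
    refine measure_mono_null h1 (measure_union_null ih ?_)
    rw [Q.measure_G hs hinv hsE hν k _ ((Q.hC k).diff (Q.W_meas k)) sdiff_subset]
    have : ν (Q.C k \ Q.W k) = 0 := Q.hcov k
    rw [this, mul_zero]

theorem measure_bad [IsProbabilityMeasure ν] {s : ℕ → X → X}
    (hs : ∀ n, Measurable (s n)) (hinv : ∀ n x, s n (s n x) = x)
    (hsE : ∀ x y, E x y ↔ ∃ n, s n x = y) (hν : ∀ n, ν.map (s n) = ν) (k : ℕ) :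
    ν {x | Q.v k (Q.pos k x) ≠ Q.w k (Q.om x k) (Q.pos k x)} ≤ (2⁻¹ : ENNReal) ^ k := by
  set B : Set X := {x | x ∈ Q.C k ∧ x ∈ ⋃ i, Q.φ k i '' Q.C (k + 1) ∧ Q.v k x ≠ Q.w k (Q.idx k x) x} with hBdef
  have hwm : Measurable (fun x => Q.w k (Q.idx k x) x) := by
    intro U hU
    have : (fun x => Q.w k (Q.idx k x) x) ⁻¹' U = ⋃ i, Q.idx k ⁻¹' {i} ∩ Q.w k i ⁻¹' U := by
      ext x; simp
    rw [this]
    exact MeasurableSet.iUnion fun i => (Q.hidx k (measurableSet_singleton i)).inter (Q.hw k i hU)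
  have hB : MeasurableSet B := by
    have : B = Q.C k ∩ (Q.W k ∩ {x | Q.v k x = Q.w k (Q.idx k x) x}ᶜ) := by
      ext x; simp [hBdef, W]; tauto
    rw [this]
    exact (Q.hC k).inter ((Q.W_meas k).inter (measurableSet_eq_fun (Q.hvm k) hwm).compl)
  have h1 : {x | Q.v k (Q.pos k x) ≠ Q.w k (Q.om x k) (Q.pos k x)} ⊆
      (Q.G (k + 1))ᶜ ∪ (Q.G k ∩ Q.pos k ⁻¹' B) := by
    intro x hx
    by_cases h : x ∈ Q.G (k + 1)
    · right
      rw [G_succ] at h
      exact ⟨h.1, Q.pos_mem h.1, h.2, hx⟩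
    · exact Or.inl h
  calc _ ≤ ν ((Q.G (k + 1))ᶜ ∪ (Q.G k ∩ Q.pos k ⁻¹' B)) := measure_mono h1
    _ ≤ ν (Q.G (k + 1))ᶜ + ν (Q.G k ∩ Q.pos k ⁻¹' B) := measure_union_le _ _
    _ = (∏ j ∈ Finset.range k, (2 ^ Q.m j : ENNReal)) * ν B := by
        rw [Q.measure_G_compl hs hinv hsE hν, zero_add,
          Q.measure_G hs hinv hsE hν k B hB (fun x hx => hx.1)]
    _ ≤ (∏ j ∈ Finset.range k, (2 ^ Q.m j : ENNReal)) * ((2⁻¹ : ENNReal) ^ k * ν (Q.C k)) := by
        gcongr
        exact Q.hbad k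
    _ = (2⁻¹ : ENNReal) ^ k * ((∏ j ∈ Finset.range k, (2 ^ Q.m j : ENNReal)) * ν (Q.C k)) := by ring
    _ = (2⁻¹ : ENNReal) ^ k * ν (Q.G k ∩ Q.pos k ⁻¹' Q.C k) := by
        rw [Q.measure_G hs hinv hsE hν k _ (Q.hC k) subset_rfl]
    _ ≤ (2⁻¹ : ENNReal) ^ k * 1 := by
        gcongr
        exact prob_le_one
    _ = _ := mul_one _

end Seq

end sequence

/-! ### The theorem -/

theorem t_aux (h : S_OD) {X : Type} [MeasurableSpace X] [StandardBorelSpace X] (s : ℕ → X → X)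
    (hs : ∀ n, Measurable (s n)) (hinv : ∀ n x, s n (s n x) = x) (E : X → X → Prop)
    {F : ℕ → X → X → Prop} (hF : HF E F) (hApe : Ape E) (hsE : ∀ x y, E x y ↔ ∃ n, s n x = y)
    (ν : Measure X) [IsProbabilityMeasure ν]
    (hν : ∀ n, ν.map (s n) = ν)
    (hcells : ∀ (C : Set X), MeasurableSet C → ∀ (r : ℕ) (v : X → Fin r), Measurable v → ∀ m : ℕ,
      ∃ (D : Set X) (φ : Fin (2 ^ m) → X → X) (w : Fin (2 ^ m) → X → Fin r),
      MeasurableSet D ∧ D ⊆ C ∧ (∀ i, Measurable (φ i)) ∧ (∀ i x, E x (φ i x)) ∧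
      (∀ i, InjOn (φ i) D) ∧ (∀ i, MapsTo (φ i) D C) ∧
      (∀ i j, i ≠ j → Disjoint (φ i '' D) (φ j '' D)) ∧ ν (C \ ⋃ i, φ i '' D) = 0 ∧
      (∀ i, Measurable (w i)) ∧ (∀ i x y, E x y → w i x = w i y) ∧
      ν {x | x ∈ C ∧ ∃ i, x ∈ φ i '' D ∧ v x ≠ w i x} ≤ (r : ENNReal) / 2 ^ m * ν C) :
    ∃ (m : ℕ → ℕ) (X1 : Set X) (z : X → (ℕ → Bool)) (ω : X → (k : ℕ) → Fin (2 ^ m k)),
      (∀ k, 1 ≤ m k) ∧ MeasurableSet X1 ∧ ν X1ᶜ = 0 ∧ (∀ x y, E x y → x ∈ X1 → y ∈ X1) ∧
      Measurable z ∧ Measurable ω ∧ (∀ x y, E x y → z x = z y) ∧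
      (∀ x ∈ X1, ∀ y ∈ X1, z x = z y → ω x = ω y → x = y) ∧
      (∀ x ∈ X1, ∀ (k : ℕ) (i : Fin (2 ^ m k)),
        ∃ y ∈ X1, E x y ∧ ω y = Function.update (ω x) k i) ∧
      ∀ x ∈ X1, ∀ y ∈ X1, E x y → ∃ n, ∀ k, n ≤ k → ω x k = ω y k := by
  classical
  have hE := hf_equiv hF
  obtain ⟨t, ht, hti⟩ := MeasurableSpace.measurable_injection_nat_bool_of_countablySeparated X
  obtain ⟨Q⟩ := exists_seq s hE ν t (fun k p => by
    rcases Nat.mod_two_eq_zero_or_one k with hk | hk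
    · exact data_even h s hs hinv E hF hApe hsE ν hν t k hk p
    · exact data_odd s hs hinv E hE hsE ν hν hcells t ht k hk p)
  let bad : ℕ → X → Prop := fun k x => Q.v k (Q.pos k x) ≠ Q.w k (Q.om x k) (Q.pos k x)
  let dif : ℕ → X → Prop := fun k x => k % 2 = 0 ∧
    ∃ i < k, Q.back k (Q.pos k x) ≠ Q.back k (Q.pos k (s i x))
  have hbadm : ∀ k, MeasurableSet {x | bad k x} := by
    intro k
    have hwm : Measurable (fun x => Q.w k (Q.idx k x) x) := by
      intro U hU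
      have : (fun x => Q.w k (Q.idx k x) x) ⁻¹' U = ⋃ i, Q.idx k ⁻¹' {i} ∩ Q.w k i ⁻¹' U := by
        ext x; simp
      rw [this]
      exact MeasurableSet.iUnion fun i => (Q.hidx k (measurableSet_singleton i)).inter (Q.hw k i hU)
    exact (measurableSet_eq_fun ((Q.hvm k).comp (Q.pos_meas k)) (hwm.comp (Q.pos_meas k))).compl
  have hdifm : ∀ k, MeasurableSet {x | dif k x} := by
    intro k
    by_cases hk : k % 2 = 0
    · have : {x | dif k x} = ⋃ i ∈ Iio k,
          {x | Q.back k (Q.pos k x) = Q.back k (Q.pos k (s i x))}ᶜ := by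
        ext x
        simp [dif, hk]
      rw [this]
      exact MeasurableSet.biUnion (to_countable _) fun i _ =>
        (eq_meas ((Q.hback k).comp (Q.pos_meas k))
          ((Q.hback k).comp ((Q.pos_meas k).comp (hs i)))).compl
    · have : {x | dif k x} = ∅ := by
        ext x
        simp [dif, hk]
      rw [this]
      exact MeasurableSet.empty
  have hdif : ∀ k, ν {x | dif k x} ≤ (2⁻¹ : ENNReal) ^ k := by
    intro k
    by_cases hk : k % 2 = 0
    · refine (measure_mono ?_).trans (Q.hgood k hk)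
      rintro x ⟨-, hx⟩
      exact hx
    · have : {x | dif k x} = ∅ := by
        ext x
        simp [dif, hk]
      rw [this, measure_empty]
      exact zero_le
  let Nul : Set X := {x | (∃ k, Q.pos k x ∉ Q.W k) ∨ (∃ᶠ k in atTop, bad k x) ∨
    ∃ᶠ k in atTop, dif k x}
  have hNulm : MeasurableSet Nul := by
    have : Nul = (⋃ k, Q.pos k ⁻¹' (Q.W k)ᶜ) ∪ ((⋂ k, ⋃ j ∈ Ici k, {x | bad j x}) ∪
        ⋂ k, ⋃ j ∈ Ici k, {x | dif j x}) := by
      ext x
      simp only [Nul, mem_ofPred_eq, mem_union, mem_iUnion, mem_preimage, mem_compl_iff, mem_iInter,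
        frequently_atTop, mem_Ici, exists_prop]
    rw [this]
    refine (MeasurableSet.iUnion fun k => Q.pos_meas k (Q.W_meas k).compl).union ?_
    exact (MeasurableSet.iInter fun k => MeasurableSet.biUnion (to_countable _) fun j _ =>
      hbadm j).union (MeasurableSet.iInter fun k => MeasurableSet.biUnion (to_countable _)
        fun j _ => hdifm j)
  have hgeom : (∑' k : ℕ, (2⁻¹ : ENNReal) ^ k) < ⊤ := by
    rw [ENNReal.tsum_geometric, ENNReal.one_sub_inv_two, inv_inv]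
    exact ENNReal.ofNat_lt_top
  have hNul0 : ν Nul = 0 := by
    have h1 : Nul ⊆ (⋃ k, (Q.G (k + 1))ᶜ) ∪ ({x | ∃ᶠ k in atTop, bad k x} ∪
        {x | ∃ᶠ k in atTop, dif k x}) := by
      rintro x (⟨k, hk⟩ | h | h)
      · left
        exact mem_iUnion.2 ⟨k, fun h => hk (h k (by omega))⟩
      · exact Or.inr (Or.inl h)
      · exact Or.inr (Or.inr h)
    refine measure_mono_null h1 (measure_union_null ?_ (measure_union_null ?_ ?_))
    · exact measure_iUnion_null fun k => Q.measure_G_compl hs hinv hsE hν (k + 1)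
    · apply measure_setOfPred_frequently_eq_zero
      exact ne_of_lt (lt_of_le_of_lt
        (ENNReal.tsum_le_tsum fun k => Q.measure_bad hs hinv hsE hν k) hgeom)
    · apply measure_setOfPred_frequently_eq_zero
      exact ne_of_lt (lt_of_le_of_lt (ENNReal.tsum_le_tsum hdif) hgeom)
  let X1 : Set X := {x | ∀ n, s n x ∉ Nul}
  have hX1 : ∀ x, x ∈ X1 ↔ ∀ y, E x y → y ∉ Nul := by
    intro x
    constructor
    · intro h y hy
      obtain ⟨n, rfl⟩ := (hsE x y).1 hy
      exact h n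
    · intro h n
      exact h _ ((hsE _ _).2 ⟨n, rfl⟩)
  have hX1self : ∀ x ∈ X1, x ∉ Nul := fun x hx => (hX1 x).1 hx x (hE.refl x)
  have hX1G : ∀ x ∈ X1, ∀ k, x ∈ Q.G k := by
    intro x hx k j _
    by_contra h
    exact hX1self x hx (Or.inl ⟨j, h⟩)
  have hX1inv : ∀ x y, E x y → x ∈ X1 → y ∈ X1 := by
    intro x y hxy hx
    rw [hX1] at hx ⊢
    exact fun y' hy' => hx y' (hE.trans hxy hy')
  -- the invariant coordinate
  obtain ⟨e, he, hei⟩ := MeasurableSpace.measurable_injection_nat_bool_of_countablySeparated (ℕ → ℕ → ℕ)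
  let zz : X → ℕ → ℕ → ℕ := fun x k i => if h : i < 2 ^ Q.m k then Q.w k ⟨i, h⟩ x else 0
  have hzz : Measurable zz := by
    refine measurable_pi_iff.2 fun k => measurable_pi_iff.2 fun i => ?_
    by_cases h : i < 2 ^ Q.m k
    · simp only [zz, dif_pos h]; exact Q.hw k _
    · simp only [zz, dif_neg h]; exact measurable_const
  have hprop : ∀ (x y : X) (k : ℕ), Q.pos k x = Q.pos k y → ∀ j, k ≤ j → Q.pos j x = Q.pos j y := by
    intro x y k hk j hj
    induction j, hj using Nat.le_induction with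
    | base => exact hk
    | succ j _ ih =>
      show Q.back j (Q.pos j x) = Q.back j (Q.pos j y)
      rw [ih]
  refine ⟨Q.m, X1, fun x => e (zz x), Q.om, Q.hm, ?_, ?_, hX1inv, he.comp hzz, ?_, ?_, ?_, ?_, ?_⟩
  · have : X1 = ⋂ n, s n ⁻¹' Nulᶜ := by
      ext x; simp [X1]
    rw [this]
    exact MeasurableSet.iInter fun n => hs n hNulm.compl
  · have : X1ᶜ = ⋃ n, s n ⁻¹' Nul := by
      ext x; simp [X1]
    rw [this]
    refine measure_iUnion_null fun n => ?_
    rw [← Measure.map_apply (hs n) hNulm, hν n, hNul0]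
  · refine measurable_pi_iff.2 fun k => ?_
    exact (Q.hidx k).comp (Q.pos_meas k)
  · intro x y hxy
    have : zz x = zz y := by
      funext k i
      by_cases h : i < 2 ^ Q.m k
      · simp only [zz, dif_pos h]; exact Q.hwE k _ _ _ hxy
      · simp only [zz, dif_neg h]
    show e (zz x) = e (zz y)
    rw [this]
  · intro x hx y hy hz hω
    have hzz' : zz x = zz y := hei hz
    have hw : ∀ k i, Q.w k i x = Q.w k i y := by
      intro k i
      have := congrFun (congrFun hzz' k) i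
      simpa only [zz, dif_pos i.2] using this
    have h1 : ∀ᶠ k in atTop, ¬ bad k x := by
      by_contra h
      exact hX1self x hx (Or.inr (Or.inl h))
    have h2 : ∀ᶠ k in atTop, ¬ bad k y := by
      by_contra h
      exact hX1self y hy (Or.inr (Or.inl h))
    obtain ⟨K, hK⟩ := eventually_atTop.1 (h1.and h2)
    apply hti
    funext i
    set k := 2 * (K + i) + 1 with hk
    have h3 := hK k (by omega)
    have h4 : Q.v k (Q.pos k x) = Q.w k (Q.om x k) (Q.pos k x) := not_not.1 h3.1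
    have h5 : Q.v k (Q.pos k y) = Q.w k (Q.om y k) (Q.pos k y) := not_not.1 h3.2
    have h6 : Q.v k (Q.pos k x) = Q.v k (Q.pos k y) := by
      rw [h4, h5, ← Q.hwE k _ _ _ (Q.pos_E hE k x), ← Q.hwE k _ _ _ (Q.pos_E hE k y), hw, hω]
    have h7 := Q.hv k (by omega) _ _ h6 _ (Q.Y_mem (Q.om x) k) i (by omega)
    have h8 : Q.Y (Q.om x) k (Q.pos k x) = x := Q.Y_om (hX1G x hx k)
    have h9 : Q.Y (Q.om x) k (Q.pos k y) = y := by
      rw [hω]; exact Q.Y_om (hX1G y hy k)
    simpa only [h8, h9] using h7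
  · intro x hx k i
    have hc : Q.pos (k + 1) x ∈ Q.C (k + 1) := Q.pos_mem (hX1G x hx (k + 1))
    set θ := Function.update (Q.om x) k i with hθ
    obtain ⟨h1, h2⟩ := Q.om_Y θ hc
    have hEy : E x (Q.Y θ (k + 1) (Q.pos (k + 1) x)) :=
      hE.trans (Q.pos_E hE (k + 1) x) (Q.Y_E hE θ (k + 1) _)
    refine ⟨Q.Y θ (k + 1) (Q.pos (k + 1) x), hX1inv _ _ hEy hx, hEy, ?_⟩
    set y := Q.Y θ (k + 1) (Q.pos (k + 1) x)
    have h3 : ∀ j, k + 1 ≤ j → Q.pos j y = Q.pos j x := hprop y x (k + 1) h1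
    funext j
    by_cases hj : j < k + 1
    · exact h2 j hj
    · have h4 : Q.om y j = Q.om x j := by
        show Q.idx j (Q.pos j y) = Q.idx j (Q.pos j x)
        rw [h3 j (by omega)]
      rw [h4, hθ, Function.update_of_ne (by omega)]
  · intro x hx y hy hxy
    obtain ⟨i, rfl⟩ := (hsE x y).1 hxy
    have h1 : ∀ᶠ k in atTop, ¬ dif k x := by
      by_contra h
      exact hX1self x hx (Or.inr (Or.inr h))
    obtain ⟨K, hK⟩ := eventually_atTop.1 h1
    set k := 2 * (K + i + 1) with hk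
    have h2 := hK k (by omega)
    have h3 : Q.back k (Q.pos k x) = Q.back k (Q.pos k (s i x)) := by
      by_contra h4
      exact h2 ⟨by omega, i, by omega, h4⟩
    refine ⟨k + 1, fun j hj => ?_⟩
    show Q.idx j (Q.pos j x) = Q.idx j (Q.pos j (s i x))
    rw [hprop x (s i x) (k + 1) h3 j hj]

end Pool.Agent.N480.CV.DYE2

namespace Pool.Agent.N480.CV

open Set MeasureTheory Filter

/-- DYE2 -/
theorem t_DYE2 (h : S_OD) : S_DYE2 := by
  intro X _ _ E F hF hApe s hs hinv hsE ν _ hν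
  classical
  have hE := DYE2.hf_equiv hF
  have hinf : ∀ x, {y | E x y}.Infinite := hApe
  have hqi : ∀ n V, MeasurableSet V → ν V = 0 → ν (s n ⁻¹' V) = 0 := by
    intro n V hV h
    rw [← Measure.map_apply (hs n) hV, hν n, h]
  have hfin : ∀ f : X → X, Measurable f → Function.Injective f → (∀ x, E x (f x)) →
      ν (range f)ᶜ = 0 := by
    intro f hf hfi hfE
    have h1 := Pool.Agent.TH554.CRDye.measure_image hs hinv hsE hν MeasurableSet.univ hf hfE
      hfi.injOn
    have hr : MeasurableSet (f '' univ) :=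
      MeasurableSet.univ.image_of_measurable_injOn hf hfi.injOn
    rw [← image_univ, prob_compl_eq_zero_iff hr, h1, measure_univ]
  have hgreedy := fun U V hU hV => Pool.Agent.TH858.CR.greedy s hs hinv E hE hsE U V hU hV
  have hhalve := fun C hC => Pool.Agent.TH858.CR.halve s hs hinv E hE hsE hinf ν hqi hfin C hC
  have hcells := fun C hC r v hv m =>
    Pool.Agent.TH926.CR.cells s hs hinv E hE hsE ν hν hgreedy hhalve C hC r v hv m
  obtain ⟨m, X1, z, ω, hm, h2, h3, h4, h5, h6, h7, h8, h9, h10⟩ :=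
    DYE2.t_aux h s hs hinv E hF hApe hsE ν hν hcells
  -- binary digits
  have hinfS : Infinite (Σ k, Fin (m k)) :=
    Infinite.of_injective (fun k => (⟨k, ⟨0, hm k⟩⟩ : Σ k, Fin (m k))) (fun a b hab => by
      simpa using congrArg Sigma.fst hab)
  obtain ⟨e⟩ : Nonempty ((Σ k, Fin (m k)) ≃ ℕ) := nonempty_equiv_of_countable
  let ω' : X → ℕ → Bool := fun x n => (ω x (e.symm n).1 : ℕ).testBit (e.symm n).2
  have hω' : ∀ x k (r : Fin (m k)), ω' x (e ⟨k, r⟩) = (ω x k : ℕ).testBit r := by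
    intro x k r
    show (ω x (e.symm (e ⟨k, r⟩)).1 : ℕ).testBit (e.symm (e ⟨k, r⟩)).2 = _
    rw [e.symm_apply_apply]
  refine ⟨X1, z, ω', h2, h3, h4, h5, ?_, h7, ?_, ?_, ?_⟩
  · refine measurable_pi_iff.2 fun n => ?_
    have h11 : Measurable fun x => ω x (e.symm n).1 := (measurable_pi_apply _).comp h6
    have h12 : Measurable fun u : Fin (2 ^ m (e.symm n).1) => (u : ℕ).testBit (e.symm n).2 :=
      measurable_of_countable _
    exact h12.comp h11
  · intro x hx y hy hz hω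
    refine h8 x hx y hy hz (funext fun k => ?_)
    apply DYE2.eq_of_bits
    intro i hi
    have h11 := congrFun hω (e ⟨k, ⟨i, hi⟩⟩)
    rw [hω', hω'] at h11
    exact h11
  · intro x hx n
    obtain ⟨⟨k, r⟩, rfl⟩ := e.surjective n
    have hlt : (ω x k : ℕ) ^^^ 2 ^ (r : ℕ) < 2 ^ m k :=
      Nat.xor_lt_two_pow (ω x k).2 (Nat.pow_lt_pow_right (by norm_num) r.2)
    obtain ⟨y, hy, hxy, hωy⟩ := h9 x hx k ⟨_, hlt⟩
    refine ⟨y, hy, hxy, funext fun n' => ?_⟩
    obtain ⟨⟨k', r'⟩, rfl⟩ := e.surjective n'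
    by_cases hk : k' = k
    · subst hk
      by_cases hr : r' = r
      · subst hr
        rw [Function.update_self, hω', hω', hωy, Function.update_self]
        simp only [Nat.testBit_xor, Nat.testBit_two_pow_self, Bool.xor_true]
      · rw [Function.update_of_ne (fun h => hr (by simpa using e.injective h)), hω', hω', hωy,
          Function.update_self]
        have hr' : ¬ ((r : ℕ) = r') := fun h => hr (Fin.ext h.symm)
        simp only [Nat.testBit_xor, Nat.testBit_two_pow, hr', decide_false, Bool.xor_false]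
    · rw [Function.update_of_ne (fun h => hk (congrArg Sigma.fst (e.injective h))), hω', hω', hωy,
        Function.update_of_ne hk]
  · intro x hx y hy hxy
    obtain ⟨N, hN⟩ := h10 x hx y hy hxy
    have hfinS : ({p : Σ k, Fin (m k) | p.1 < N}).Finite := by
      refine (finite_range (fun q : Σ k : Fin N, Fin (m k) =>
        (⟨q.1, q.2⟩ : Σ k, Fin (m k)))).subset ?_
      rintro ⟨k, r⟩ hk
      exact ⟨⟨⟨k, hk⟩, r⟩, rfl⟩
    obtain ⟨M, hM⟩ := (hfinS.image e).bddAbove
    refine ⟨M + 1, fun n hn => ?_⟩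
    obtain ⟨⟨k, r⟩, rfl⟩ := e.surjective n
    rw [hω', hω']
    have hk : N ≤ k := by
      by_contra hcon
      have := hM ⟨⟨k, r⟩, by simpa using hcon, rfl⟩
      omega
    rw [hN k hk]

end Pool.Agent.N480.CV
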