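import Pool.Agent.N480.CV.Stm2
import Pool.Agent.TH612.CR_PROD
import Pool.Agent.TH858.CR_STAB
import Pool.Agent.TH553.CR_LAMINV
import Pool.Agent.TH553.CR_AF1
import Pool.Agent.H139R3.FM

set_option autoImplicit false

/-!
Project CV (helper480), part FIB: the group acts by the odometer relation on a conull set
(helper227).
-/

namespace Pool.Agent.N480.CV

open Set MeasureTheory TopologicalSpace Filter

namespace FIB

section hf

variable {Γ X : Type} [Group Γ] [MulAction Γ X]

/-- orbit relation of the subgroup generated by `S` -/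
def FR (S : Set Γ) (x y : X) : Prop := ∃ g ∈ Subgroup.closure S, g • x = y

theorem FR_eqv (S : Set Γ) : Equivalence (FR S : X → X → Prop) := by
  refine ⟨fun x => ⟨1, one_mem _, one_smul _ _⟩, ?_, ?_⟩
  · rintro x y ⟨g, hg, rfl⟩
    exact ⟨g⁻¹, inv_mem hg, inv_smul_smul _ _⟩
  · rintro x y z ⟨g, hg, rfl⟩ ⟨h, hh, rfl⟩
    exact ⟨h * g, mul_mem hh hg, mul_smul _ _ _⟩

theorem Orb_eqv : Equivalence (Orb Γ : X → X → Prop) := by
  refine ⟨fun x => ⟨1, one_smul _ _⟩, ?_, ?_⟩
  · rintro x y ⟨g, rfl⟩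
    exact ⟨g⁻¹, inv_smul_smul _ _⟩
  · rintro x y z ⟨g, rfl⟩ ⟨h, rfl⟩
    exact ⟨h * g, mul_smul _ _ _⟩

theorem hf_orb [Countable Γ] [MeasurableSpace X] [StandardBorelSpace X]
    (hm : ∀ g : Γ, Measurable fun x : X => g • x) (hLF : LF Γ X) :
    ∃ F : ℕ → X → X → Prop, HF (Orb Γ : X → X → Prop) F := by
  classical
  obtain ⟨γ, hγ⟩ := exists_surjective_nat Γ
  let S : ℕ → Finset Γ := fun n => (Finset.range n).image γ
  refine ⟨fun n => FR (S n : Set Γ), ⟨fun n => FR_eqv _, fun n => ?_, fun n x => (hLF x).2 (S n),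
    fun n x y => ?_, fun x y => ?_⟩⟩
  · have e : {p : X × X | FR (S n : Set Γ) p.1 p.2} =
        ⋃ g : Subgroup.closure (S n : Set Γ), {p : X × X | (g : Γ) • p.1 = p.2} := by
      ext p
      simp only [mem_ofPred_eq, mem_iUnion, FR]
      constructor
      · rintro ⟨g, hg, h⟩
        exact ⟨⟨g, hg⟩, h⟩
      · rintro ⟨g, h⟩
        exact ⟨g, g.2, h⟩
    rw [e]
    exact MeasurableSet.iUnion fun g =>
      measurableSet_eq_fun ((hm g).comp measurable_fst) measurable_snd
  · rintro ⟨g, hg, h⟩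
    refine ⟨g, Subgroup.closure_mono ?_ hg, h⟩
    intro a ha
    rw [Finset.mem_coe, Finset.mem_image] at ha ⊢
    obtain ⟨i, hi, rfl⟩ := ha
    exact ⟨i, Finset.mem_range.2 (by have := Finset.mem_range.1 hi; omega), rfl⟩
  · constructor
    · rintro ⟨g, h⟩
      obtain ⟨n, rfl⟩ := hγ g
      refine ⟨n + 1, γ n, Subgroup.subset_closure ?_, h⟩
      exact Finset.mem_coe.2 (Finset.mem_image.2 ⟨n, Finset.mem_range.2 (by omega), rfl⟩)
    · rintro ⟨n, g, _, h⟩
      exact ⟨g, h⟩

/-- maps in the full group preserve an invariant measure -/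
theorem map_inv [Countable Γ] [MeasurableSpace X] [StandardBorelSpace X]
    (hm : ∀ g : Γ, Measurable fun x : X => g • x) (ν : Measure X)
    (hν : ∀ g : Γ, ν.map (fun x : X => g • x) = ν) (s : X → X) (hs : Measurable s)
    (hss : ∀ x, s (s x) = x) (hsE : ∀ x, Orb Γ x (s x)) : ν.map s = ν := by
  classical
  obtain ⟨γ, hγ⟩ := exists_surjective_nat Γ
  let P0 : ℕ → Set X := fun k => {x | γ k • x = s x}
  have hP0 : ∀ k, MeasurableSet (P0 k) := fun k => measurableSet_eq_fun (hm _) hs
  let P : ℕ → Set X := disjointed P0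
  have hP : ∀ k, MeasurableSet (P k) := fun k => MeasurableSet.disjointed hP0 k
  have hPd : Pairwise fun i j => Disjoint (P i) (P j) := disjoint_disjointed P0
  have hPU : (⋃ k, P k) = univ := by
    rw [iUnion_disjointed]
    rw [eq_univ_iff_forall]
    intro x
    obtain ⟨g, hg⟩ := hsE x
    obtain ⟨k, rfl⟩ := hγ g
    exact mem_iUnion.2 ⟨k, hg⟩
  have hPs : ∀ k, ∀ x ∈ P k, γ k • x = s x := fun k x hx => disjointed_subset P0 k hx
  have hsinj : Function.Injective s := fun x y h => by rw [← hss x, h, hss]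
  have hgm : ∀ (g : Γ) (B : Set X), MeasurableSet B →
      ν ((fun x : X => g • x) ⁻¹' B) = ν B := by
    intro g B hB
    rw [← Measure.map_apply (hm g) hB, hν]
  ext A hA
  rw [Measure.map_apply hs hA]
  -- the images
  have hQ : ∀ k, MeasurableSet (s ⁻¹' (P k)) := fun k => hs (hP k)
  have e1 : s ⁻¹' A = ⋃ k, (P k ∩ s ⁻¹' A) := by rw [← iUnion_inter, hPU, univ_inter]
  have e2 : A = ⋃ k, (s ⁻¹' (P k) ∩ A) := by
    rw [← iUnion_inter, ← preimage_iUnion, hPU, preimage_univ, univ_inter]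
  have d1 : Pairwise fun i j => Disjoint (P i ∩ s ⁻¹' A) (P j ∩ s ⁻¹' A) := fun i j hij =>
    (hPd hij).mono inter_subset_left inter_subset_left
  have d2 : Pairwise fun i j => Disjoint (s ⁻¹' (P i) ∩ A) (s ⁻¹' (P j) ∩ A) := fun i j hij =>
    ((hPd hij).preimage s).mono inter_subset_left inter_subset_left
  rw [e1, measure_iUnion d1 fun k => (hP k).inter (hs hA)]
  conv_rhs => rw [e2, measure_iUnion d2 fun k => (hQ k).inter hA]
  refine tsum_congr fun k => ?_
  have e3 : P k ∩ s ⁻¹' A = (fun x : X => γ k • x) ⁻¹' (s ⁻¹' (P k) ∩ A) := by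
    ext x
    simp only [mem_inter_iff, mem_preimage]
    constructor
    · rintro ⟨h1, h2⟩
      rw [hPs k x h1]
      exact ⟨by rw [hss]; exact h1, h2⟩
    · rintro ⟨h1, h2⟩
      have h3 := hPs k _ h1
      rw [hss] at h3
      have h4 : s (γ k • x) = x := smul_left_cancel _ h3
      rw [h4] at h1
      refine ⟨h1, ?_⟩
      rw [← hPs k x h1]
      exact h2
  rw [e3, hgm _ _ ((hQ k).inter hA)]

end hf

/-- `Bool` and `Fin 2` -/
def bf (b : Bool) : Fin 2 := if b then 1 else 0

/-- `Fin 2` and `Bool` -/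
def fb (i : Fin 2) : Bool := decide (i = 1)

theorem fb_bf (b : Bool) : fb (bf b) = b := by cases b <;> rfl

theorem bf_fb (i : Fin 2) : bf (fb i) = i := by fin_cases i <;> rfl

theorem bf_not (b : Bool) (i : Fin 2) (h : bf b ≠ i) : bf (!b) = i := by
  cases b <;> fin_cases i <;> simp_all [bf]

theorem meas_bf : Measurable fun (p : ℕ → Bool) (n : ℕ) => bf (p n) :=
  measurable_pi_lambda _ fun n => (measurable_of_finite bf).comp (measurable_pi_apply n)

theorem meas_fb : Measurable fun (p : ℕ → Fin 2) (n : ℕ) => fb (p n) :=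
  measurable_pi_lambda _ fun n => (measurable_of_finite fb).comp (measurable_pi_apply n)

theorem TE_refl (p : ℕ → Bool) : TE p p := ⟨0, fun _ _ => rfl⟩

/-- finitely many flips -/
theorem flips {X : Type} {E : X → X → Prop} (hE : Equivalence E) {X1 : Set X}
    {ω : X → ℕ → Bool}
    (hflip : ∀ x ∈ X1, ∀ k, ∃ y ∈ X1, E x y ∧ ω y = Function.update (ω x) k (!ω x k)) (n : ℕ) :
    ∀ x ∈ X1, ∀ q : ℕ → Bool, (∀ k, n ≤ k → ω x k = q k) → ∃ y ∈ X1, E x y ∧ ω y = q := by
  induction n with
  | zero =>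
    intro x hx q h
    exact ⟨x, hx, hE.refl x, funext fun k => h k (Nat.zero_le k)⟩
  | succ n ih =>
    intro x hx q h
    by_cases hn : ω x n = q n
    · refine ih x hx q fun k hk => ?_
      rcases eq_or_lt_of_le hk with h1 | h1
      · rw [← h1]; exact hn
      · exact h k h1
    · obtain ⟨y, hy, hxy, he⟩ := hflip x hx n
      obtain ⟨z, hz, hyz, hq⟩ := ih y hy q fun k hk => by
        rw [he]
        rcases eq_or_lt_of_le hk with h1 | h1
        · rw [← h1, Function.update_self]
          cases h2 : ω x n <;> cases h3 : q n <;> simp_all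
        · rw [Function.update_of_ne (by omega)]
          exact h k h1
      exact ⟨z, hz, hE.trans hxy hyz, hq⟩

end FIB

open FIB in
theorem t_FIB (h : S_DYE2) : S_FIB := by
  classical
  intro Γ _ _ hHas
  obtain ⟨X, _, _, _, hm, hLF, ν, hνp, hν⟩ := hHas
  obtain ⟨F, hF⟩ := hf_orb hm hLF
  have hE : Equivalence (Orb Γ : X → X → Prop) := Orb_eqv
  have hApe : Ape (Orb Γ : X → X → Prop) := fun x => (hLF x).1
  have hEm : MeasurableSet {p : X × X | Orb Γ p.1 p.2} := by
    have e : {p : X × X | Orb Γ p.1 p.2} = ⋃ n, {p : X × X | F n p.1 p.2} := by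
      ext p
      simp only [mem_ofPred_eq, mem_iUnion]
      exact hF.union _ _
    rw [e]
    exact MeasurableSet.iUnion hF.meas
  have hEc : ∀ y : X, {y' | Orb Γ y y'}.Countable := by
    intro y
    have : {y' | Orb Γ y y'} = range fun g : Γ => g • y := rfl
    rw [this]
    exact countable_range _
  obtain ⟨s, hs1, hs2, hs3⟩ := Pool.Agent.H139R3.FM.feldman_moore (Orb Γ : X → X → Prop) hE hEm hEc
  have hsν : ∀ n, ν.map (s n) = ν := fun n => map_inv hm ν hν (s n) (hs1 n) (hs2 n)
    fun x => (hs3 x _).2 ⟨n, rfl⟩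
  obtain ⟨X1, z, ω, hX1, hX1ν, hX1E, hz, hω, hzE, hinj, hflip, hTE⟩ :=
    h X (Orb Γ) F hF hApe s hs1 hs2 hs3 ν hsν
  -- the coordinates in `Fin 2`
  let ω' : X → (k : ℕ) → Fin 2 := fun x k => bf (ω x k)
  have hω' : Measurable ω' := meas_bf.comp hω
  have hω'i : ∀ x y, ω' x = ω' y → ω x = ω y := by
    intro x y hxy
    funext k
    rw [← fb_bf (ω x k), ← fb_bf (ω y k)]
    exact congrArg fb (congrFun hxy k)
  obtain ⟨hcyl, hprod⟩ := Pool.Agent.TH612.CR.dye_prod s hs1 hs2 (Orb Γ) hE hs3 ν hsν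
    (fun _ => 2) X1 z ω' (fun _ => le_rfl) hX1 hX1ν (fun x y hxy hx => hX1E x y hxy hx) hz hω' hzE
    (fun x hx y hy h1 h2 => hinj x hx y hy h1 (hω'i x y h2)) (by
      intro x hx k i
      by_cases hki : ω' x k = i
      · refine ⟨x, hx, hE.refl x, ?_⟩
        rw [← hki, Function.update_eq_self]
      · obtain ⟨y, hy, hxy, he⟩ := hflip x hx k
        refine ⟨y, hy, hxy, ?_⟩
        funext j
        show bf (ω y j) = _
        rw [he]
        by_cases hj : j = k
        · subst hj
          rw [Function.update_self, Function.update_self]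
          exact bf_not _ _ hki
        · rw [Function.update_of_ne hj, Function.update_of_ne hj])
  set lam : Measure (∀ _ : ℕ, Fin 2) := ν.map ω' with hlamdef
  have hlamp : IsProbabilityMeasure lam := Measure.isProbabilityMeasure_map hω'.aemeasurable
  have hzp : IsProbabilityMeasure (ν.map z) := Measure.isProbabilityMeasure_map hz.aemeasurable
  -- the image of `X1`
  let R : Set ((ℕ → Bool) × (∀ _ : ℕ, Fin 2)) := (fun x => (z x, ω' x)) '' X1
  have hzω : Measurable fun x => (z x, ω' x) := hz.prodMk hω'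
  have hR : MeasurableSet R := by
    refine hX1.image_of_measurable_injOn hzω ?_
    intro x hx y hy hxy
    exact hinj x hx y hy (congrArg Prod.fst hxy) (hω'i x y (congrArg Prod.snd hxy))
  have hR0 : ((ν.map z).prod lam) Rᶜ = 0 := by
    rw [← hprod, Measure.map_apply hzω hR.compl]
    refine measure_mono_null ?_ hX1ν
    intro x hx hx1
    exact hx ⟨x, hx1, rfl⟩
  rw [Measure.measure_prod_null hR.compl] at hR0
  obtain ⟨z0, hz0⟩ : ∃ z0, lam (Prod.mk z0 ⁻¹' Rᶜ) = 0 := by
    by_contra hcon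
    push Not at hcon
    have h1 : ∀ᵐ a ∂(ν.map z), False := by
      filter_upwards [hR0] with a ha
      exact hcon a ha
    rw [ae_iff] at h1
    simp at h1
  -- the fibre
  let Y0 : Set X := {x | x ∈ X1 ∧ z x = z0}
  have hY0 : MeasurableSet Y0 := hX1.inter (hz (measurableSet_singleton z0))
  have hY0E : ∀ (g : Γ) (x : X), x ∈ Y0 → g • x ∈ Y0 := by
    intro g x hx
    have h1 : Orb Γ x (g • x) := ⟨g, rfl⟩
    exact ⟨hX1E _ _ h1 hx.1, by rw [← hzE _ _ h1]; exact hx.2⟩
  let I : Set (ℕ → Bool) := ω '' Y0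
  have hωinj : InjOn ω Y0 := fun x hx y hy hxy =>
    hinj x hx.1 y hy.1 (hx.2.trans hy.2.symm) hxy
  have hI : MeasurableSet I := hY0.image_of_measurable_injOn hω hωinj
  have hII : ∀ p : ℕ → Bool, p ∈ I ↔ ((z0, fun n => bf (p n)) : (ℕ → Bool) × (∀ _ : ℕ, Fin 2)) ∈ R := by
    intro p
    constructor
    · rintro ⟨x, hx, rfl⟩
      exact ⟨x, hx.1, Prod.ext hx.2 rfl⟩
    · rintro ⟨x, hx, he⟩
      refine ⟨x, ⟨hx, congrArg Prod.fst he⟩, ?_⟩
      have h2 := congrArg Prod.snd he
      funext n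
      rw [← fb_bf (ω x n), ← fb_bf (p n)]
      exact congrArg fb (congrFun h2 n)
  have hIne : I.Nonempty := by
    by_contra hcon
    rw [not_nonempty_iff_eq_empty] at hcon
    have h1 : Prod.mk z0 ⁻¹' Rᶜ = (univ : Set (∀ _ : ℕ, Fin 2)) := by
      rw [eq_univ_iff_forall]
      intro o ho
      have h2 : (fun n => fb (o n)) ∈ I := by
        rw [hII]
        have : (fun n => bf (fb (o n))) = o := funext fun n => bf_fb _
        rw [this]
        exact ho
      rw [hcon] at h2
      exact h2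
    rw [h1, measure_univ] at hz0
    exact one_ne_zero hz0
  -- the isomorphism
  have : StandardBorelSpace Y0 := hY0.standardBorel
  let actY : MulAction Γ Y0 :=
    { smul := fun g x => ⟨g • (x : X), hY0E g x x.2⟩
      one_smul := fun x => Subtype.ext (one_smul _ _)
      mul_smul := fun g k x => Subtype.ext (mul_smul _ _ _) }
  have hactY : ∀ (g : Γ) (x : Y0), ((g • x : Y0) : X) = g • (x : X) := fun g x => rfl
  have hmY : ∀ g : Γ, Measurable fun x : Y0 => g • x := fun g =>
    ((hm g).comp measurable_subtype_coe).subtype_mk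
  let ψ : Y0 → I := fun x => ⟨ω x, x, x.2, rfl⟩
  have hψm : Measurable ψ := (hω.comp measurable_subtype_coe).subtype_mk
  have hψi : Function.Injective ψ := fun x y hxy =>
    Subtype.ext (hωinj x.2 y.2 (congrArg Subtype.val hxy))
  have hψs : Function.Surjective ψ := by
    rintro ⟨_, x, hx, rfl⟩
    exact ⟨⟨x, hx⟩, rfl⟩
  have hψe : MeasurableEmbedding ψ := hψm.measurableEmbedding hψi
  let e : Y0 ≃ I := Equiv.ofBijective ψ ⟨hψi, hψs⟩
  have hem : Measurable e.symm := by
    intro t ht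
    have : e.symm ⁻¹' t = ψ '' t := by
      ext p
      constructor
      · intro hp
        exact ⟨e.symm p, hp, e.apply_symm_apply p⟩
      · rintro ⟨x, hx, rfl⟩
        show e.symm (e x) ∈ t
        rw [e.symm_apply_apply]
        exact hx
    rw [this]
    exact hψe.measurableSet_image' ht
  let act : MulAction Γ I :=
    { smul := fun g p => e (g • e.symm p)
      one_smul := fun p => by
        show e ((1 : Γ) • e.symm p) = p
        rw [one_smul, e.apply_symm_apply]
      mul_smul := fun g k p => by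
        show e ((g * k) • e.symm p) = e (g • e.symm (e (k • e.symm p)))
        rw [e.symm_apply_apply, mul_smul] }
  have hact : ∀ (g : Γ) (p : I), g • p = e (g • e.symm p) := fun g p => rfl
  have hOrbI : ∀ p q : I, (∃ g : Γ, g • p = q) ↔ Orb Γ ((e.symm p : Y0) : X) ((e.symm q : Y0) : X) := by
    intro p q
    constructor
    · rintro ⟨g, rfl⟩
      refine ⟨g, ?_⟩
      rw [hact, e.symm_apply_apply]
      rfl
    · rintro ⟨g, hg⟩
      refine ⟨g, ?_⟩
      rw [hact]
      have : g • e.symm p = e.symm q := Subtype.ext hg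
      rw [this, e.apply_symm_apply]
  have hωe : ∀ p : I, ω ((e.symm p : Y0) : X) = p := by
    intro p
    have := congrArg Subtype.val (e.apply_symm_apply p)
    exact this
  have hInv : Inv TE I := by
    rintro p q ⟨n, hn⟩ ⟨x, hx, rfl⟩
    obtain ⟨y, hy, hxy, he⟩ := flips hE hflip n x hx.1 q hn
    exact ⟨y, ⟨hy, by rw [← hzE _ _ hxy]; exact hx.2⟩, he⟩
  refine ⟨I, act, hI, hInv, hIne, fun g => ?_, ?_, ?_, ?_⟩
  · exact hψm.comp ((hmY g).comp hem)
  · -- LF
    intro p
    constructor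
    · intro hfin
      have h1 := (hLF (e.symm p : Y0)).1
      apply h1
      have h2 : {y : X | ∃ g : Γ, g • ((e.symm p : Y0) : X) = y} ⊆
          (fun q : I => ((e.symm q : Y0) : X)) '' {q | ∃ g : Γ, g • p = q} := by
        rintro _ ⟨g, rfl⟩
        refine ⟨g • p, ⟨g, rfl⟩, ?_⟩
        show ((e.symm (g • p) : Y0) : X) = _
        rw [hact, e.symm_apply_apply]
        rfl
      exact (hfin.image _).subset h2
    · intro T
      have h1 := (hLF (e.symm p : Y0)).2 T
      refine Set.Finite.of_finite_image (f := fun q : I => ((e.symm q : Y0) : X))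
        (h1.subset ?_) (fun q _ r _ hqr => e.symm.injective (Subtype.ext hqr))
      rintro _ ⟨q, ⟨g, hg, rfl⟩, rfl⟩
      refine ⟨g, hg, ?_⟩
      show _ = ((e.symm (g • p) : Y0) : X)
      rw [hact, e.symm_apply_apply]
      rfl
  · -- the relation
    intro p q
    show (∃ g : Γ, g • p = q) ↔ _
    rw [hOrbI]
    constructor
    · intro hpq
      have := hTE _ (e.symm p).2.1 _ (e.symm q).2.1 hpq
      rw [hωe, hωe] at this
      exact this
    · rintro ⟨n, hn⟩
      obtain ⟨y, hy, hxy, he⟩ := flips hE hflip n _ (e.symm p).2.1 (q : ℕ → Bool) (by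
        rw [hωe]; exact hn)
      have hy0 : y ∈ Y0 := ⟨hy, by rw [← hzE _ _ hxy]; exact (e.symm p).2.2⟩
      have : y = ((e.symm q : Y0) : X) := hωinj hy0 (e.symm q).2 (by rw [he, hωe])
      rw [← this]
      exact hxy
  · -- the complement is compressible
    let S : Set (Unit × ∀ _ : ℕ, Fin 2) := {p | p.2 ∈ Prod.mk z0 ⁻¹' Rᶜ}
    obtain ⟨st, hst1, hst2, hst3⟩ := Pool.Agent.TH858.CR.af_stable (Z := Unit) (fun _ => 2)
      (fun _ => le_rfl) lam hcyl
      (fun S hS f hf hfi hfE => Pool.Agent.TH553.CR.lam_inv (fun _ => 2) lam hcyl S hS f hf hfi hfE)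
      (fun P Q hP hQ hPQ => Pool.Agent.TH553.CR.af_cmp (fun _ => 2) lam hcyl P Q hP hQ hPQ) S (by
        intro ε hε
        obtain ⟨U, hU1, hU2, hU3⟩ := Set.exists_isOpen_lt_of_lt (Prod.mk z0 ⁻¹' Rᶜ) ε
          (by rw [hz0]; exact hε)
        refine ⟨{p | p.2 ∈ U}, hU2.preimage continuous_snd, fun p hp => hU1 hp, fun z => ?_⟩
        exact hU3.le)
    refine ⟨fun p n k => fb ((st ((), fun i => bf (p i)) n).2 k), fun n => ?_, ?_, ?_⟩
    · exact meas_fb.comp (measurable_snd.comp ((hst1 n).comp (measurable_const.prodMk meas_bf)))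
    · intro p hp n
      have hpS : (((), fun i => bf (p i)) : Unit × ∀ _ : ℕ, Fin 2) ∈ S := fun h => hp ((hII p).2 h)
      obtain ⟨-, k, hk⟩ := hst2 _ hpS n
      refine ⟨k, fun i hi => ?_⟩
      show p i = fb _
      rw [← hk i hi, fb_bf]
    · intro p hp q hq m n hpq
      have hpS : (((), fun i => bf (p i)) : Unit × ∀ _ : ℕ, Fin 2) ∈ S := fun h => hp ((hII p).2 h)
      have hqS : (((), fun i => bf (q i)) : Unit × ∀ _ : ℕ, Fin 2) ∈ S := fun h => hq ((hII q).2 h)
      have h1 : st ((), fun i => bf (p i)) m = st ((), fun i => bf (q i)) n := by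
        refine Prod.ext rfl ?_
        funext k
        rw [← bf_fb ((st ((), fun i => bf (p i)) m).2 k), ← bf_fb ((st ((), fun i => bf (q i)) n).2 k)]
        exact congrArg bf (congrFun hpq k)
      obtain ⟨h2, h3⟩ := hst3 _ hpS _ hqS m n h1
      refine ⟨?_, h3⟩
      funext i
      rw [← fb_bf (p i), ← fb_bf (q i)]
      exact congrArg fb (congrFun (congrArg Prod.snd h2) i)

end Pool.Agent.N480.CV
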