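import Mathlib
import Pool.Agent.N480.CV.Stm2
import Pool.Agent.TH635.CR_ABS
import Pool.Agent.H139R3.FM

set_option autoImplicit false

/-!
Project CV, part FWD (helper769): every aperiodic hyperfinite Borel equivalence relation embeds
invariantly in the model.
-/

namespace Pool.Agent.N480.CV

open Set MeasureTheory TopologicalSpace Filter

namespace FWD

theorem hf_equiv {X : Type} [MeasurableSpace X] {E : X → X → Prop} {F : ℕ → X → X → Prop}
    (h : HF E F) : Equivalence E := by
  have hmono : ∀ x y m n, m ≤ n → F m x y → F n x y := by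
    intro x y m n hmn hm
    induction n, hmn using Nat.le_induction with
    | base => exact hm
    | succ n _ ih => exact h.mono _ _ _ ih
  refine ⟨fun x => (h.union _ _).2 ⟨0, (h.eqv 0).refl x⟩, ?_, ?_⟩
  · intro x y hxy
    obtain ⟨n, hn⟩ := (h.union _ _).1 hxy
    exact (h.union _ _).2 ⟨n, (h.eqv n).symm hn⟩
  · intro x y z hxy hyz
    obtain ⟨n, hn⟩ := (h.union _ _).1 hxy
    obtain ⟨m, hm⟩ := (h.union _ _).1 hyz
    exact (h.union _ _).2 ⟨max n m, (h.eqv _).trans (hmono _ _ _ _ (le_max_left _ _) hn)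
      (hmono _ _ _ _ (le_max_right _ _) hm)⟩

theorem hf_meas {X : Type} [MeasurableSpace X] {E : X → X → Prop} {F : ℕ → X → X → Prop}
    (h : HF E F) : MeasurableSet {p : X × X | E p.1 p.2} := by
  have : {p : X × X | E p.1 p.2} = ⋃ n, {p : X × X | F n p.1 p.2} := by
    ext p
    rw [mem_iUnion]
    exact h.union _ _
  rw [this]
  exact MeasurableSet.iUnion h.meas

theorem hf_ctbl {X : Type} [MeasurableSpace X] {E : X → X → Prop} {F : ℕ → X → X → Prop}
    (h : HF E F) (x : X) : {y | E x y}.Countable := by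
  have : {y | E x y} = ⋃ n, {y | F n x y} := by
    ext y
    rw [mem_iUnion]
    exact h.union _ _
  rw [this]
  exact countable_iUnion fun n => (h.fin n x).countable

theorem hf_res {X : Type} [MeasurableSpace X] {E : X → X → Prop} {F : ℕ → X → X → Prop}
    (h : HF E F) (U : Set X) : HF (Res E U) (fun n => Res (F n) U) where
  eqv n := ⟨fun x => (h.eqv n).refl _, fun hxy => (h.eqv n).symm hxy,
    fun hxy hyz => (h.eqv n).trans hxy hyz⟩
  meas n := by
    have hm : Measurable fun p : U × U => ((p.1 : X), (p.2 : X)) :=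
      (measurable_subtype_coe.comp measurable_fst).prodMk
        (measurable_subtype_coe.comp measurable_snd)
    exact hm (h.meas n)
  fin n x := by
    have : {y : U | Res (F n) U x y} = Subtype.val ⁻¹' {y : X | F n x y} := rfl
    rw [this]
    exact (h.fin n x).preimage Subtype.val_injective.injOn
  mono n x y hxy := h.mono n _ _ hxy
  union x y := h.union _ _

theorem bool_ne : ∀ a b : Bool, a ≠ b → b = !a := by decide

theorem flip_empty (o : ℕ → Bool) : flip ∅ o = o := by
  funext n
  simp [flip]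

theorem flip_flip (s t : Finset ℕ) (o : ℕ → Bool) : flip t (flip s o) = flip (symmDiff s t) o := by
  funext n
  unfold flip
  by_cases h1 : n ∈ s <;> by_cases h2 : n ∈ t <;> simp [h1, h2, Finset.mem_symmDiff]

theorem flip_insert {k : ℕ} {t : Finset ℕ} (hk : k ∉ t) (o : ℕ → Bool) :
    flip (insert k t) o = Function.update (flip t o) k (!flip t o k) := by
  classical
  funext n
  by_cases h : n = k
  · subst h
    rw [Function.update_self]
    simp [flip, hk]
  · rw [Function.update_of_ne h]
    simp [flip, h]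

end FWD

open FWD in
theorem t_FWD (h1 : S_OD) (h2 : S_RED) (h3 : S_KBL) : S_FWD := by
  classical
  intro X _ _ E F hHF hA
  have hE := hf_equiv hHF
  obtain ⟨s, hs, hss, hsE⟩ := Pool.Agent.H139R3.FM.feldman_moore E hE (hf_meas hHF) (hf_ctbl hHF)
  obtain ⟨U, hU, hUi, hUc, π, hπ, hπU⟩ := h1 X E F hHF hA
  have hUi' : ∀ x y, E x y → x ∉ U → y ∉ U := fun x y hxy hx hy => hx (hUi y x (hE.symm hxy) hy)
  -- the modifications
  have hmod : ∀ x, x ∉ U → ∀ t : Finset ℕ, ∃ y, E x y ∧ π y = flip t (π x) := by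
    intro x hx t
    induction t using Finset.induction_on with
    | empty => exact ⟨x, hE.refl x, (flip_empty _).symm⟩
    | insert k t hk ih =>
      obtain ⟨y', hy', hpy'⟩ := ih
      obtain ⟨y, hy, hpy⟩ := (hπU y' (hUi' _ _ hy' hx)).2.2 k
      refine ⟨y, hE.trans hy' hy, ?_⟩
      rw [hpy, hpy', flip_insert hk]
  have hexn : ∀ (t : Finset ℕ) (x : X), ∃ n, (π (s n x) = flip t (π x) ∨ x ∈ U) := by
    intro t x
    by_cases hx : x ∈ U
    · exact ⟨0, Or.inr hx⟩
    · obtain ⟨y, hy, hpy⟩ := hmod x hx t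
      obtain ⟨n, hn⟩ := (hsE _ _).1 hy
      exact ⟨n, Or.inl (by rw [hn]; exact hpy)⟩
  obtain ⟨Y, hYdef⟩ : ∃ Y : Finset ℕ → X → X, Y = fun t x => s (Nat.find (hexn t x)) x := ⟨_, rfl⟩
  have hYm : ∀ t, Measurable (Y t) := by
    intro t
    rw [hYdef]
    refine Measurable.find hs (fun n => ?_) (hexn t)
    have hset : {x | π (s n x) = flip t (π x) ∨ x ∈ U} =
        (⋂ k, {x | π (s n x) k = flip t (π x) k}) ∪ U := by
      ext x
      simp only [mem_ofPred_eq, mem_union, mem_iInter]
      rw [funext_iff]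
    rw [hset]
    refine MeasurableSet.union (MeasurableSet.iInter fun k => ?_) hU
    have m1 : Measurable fun x => π (s n x) k := (measurable_pi_apply k).comp (hπ.comp (hs n))
    have m2 : Measurable fun x => flip t (π x) k := by
      unfold flip
      by_cases hk : k ∈ t
      · simp only [hk, if_true]
        exact (measurable_of_countable (fun b : Bool => !b)).comp ((measurable_pi_apply k).comp hπ)
      · simp only [hk, if_false]
        exact (measurable_pi_apply k).comp hπ
    exact measurableSet_eq_fun m1 m2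
  have hYE : ∀ t x, E x (Y t x) := by
    intro t x
    rw [hYdef]
    exact (hsE _ _).2 ⟨_, rfl⟩
  have hYπ : ∀ t x, x ∉ U → π (Y t x) = flip t (π x) := by
    intro t x hx
    rw [hYdef]
    rcases Nat.find_spec (hexn t x) with h | h
    · exact h
    · exact absurd h hx
  have huniq : ∀ t x, x ∉ U → ∀ z, E x z → π z = flip t (π x) → z = Y t x := by
    intro t x hx z hz hpz
    refine (hπU z (hUi' _ _ hz hx)).2.1 _ (hE.trans (hE.symm hz) (hYE t x)) ?_
    rw [hpz, hYπ t x hx]
  have hY0 : ∀ x, x ∉ U → Y ∅ x = x := fun x hx =>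
    (huniq ∅ x hx x (hE.refl x) (flip_empty _).symm).symm
  have hYY : ∀ x, x ∉ U → ∀ (r : Finset ℕ) (y : X), E x y → π y = flip r (π x) →
      ∀ t, Y t y = Y (symmDiff r t) x := by
    intro x hx r y hxy hpy t
    refine huniq _ x hx _ (hE.trans hxy (hYE t y)) ?_
    rw [hYπ t y (hUi' _ _ hxy hx), hpy, FWD.flip_flip]
  obtain ⟨e, he, hei⟩ := MeasurableSpace.measurable_injection_nat_bool_of_countablySeparated X
  obtain ⟨f, hf⟩ : ∃ f : X → KB, f = fun x => (π x, fun t => e (Y t x)) := ⟨_, rfl⟩
  have hfm : Measurable f := by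
    rw [hf]
    exact hπ.prodMk (measurable_pi_lambda _ fun t => he.comp (hYm t))
  have hf1 : ∀ x, (f x).1 = π x := fun x => by rw [hf]
  have hf2 : ∀ x t, (f x).2 t = e (Y t x) := fun x t => by rw [hf]
  have hfi : ∀ x, x ∉ U → ∀ y, y ∉ U → f x = f y → x = y := by
    intro x hx y hy hxy
    have h4 : e (Y ∅ x) = e (Y ∅ y) := by rw [← hf2, ← hf2, hxy]
    have h5 := hei h4
    rwa [hY0 x hx, hY0 y hy] at h5
  have hfE : ∀ x, x ∉ U → ∀ y, y ∉ U → (E x y ↔ RB (f x) (f y)) := by
    intro x hx y hy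
    constructor
    · intro hxy
      obtain ⟨n, hn⟩ := (hπU x hx).1 y hxy
      have h4 : π y = flip ((Finset.range n).filter fun k => π x k ≠ π y k) (π x) := by
        funext k
        unfold flip
        by_cases hk : k < n
        · by_cases hk2 : π x k = π y k
          · simp [hk2]
          · have h5 : π y k = !π x k := bool_ne _ _ hk2
            simp [hk, h5]
        · have h5 := hn k (by omega)
          simp [hk, h5.symm]
      refine ⟨_, by rw [hf1, hf1]; exact h4, fun t => ?_⟩
      rw [hf2, hf2, hYY x hx _ y hxy h4]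
    · rintro ⟨r, hr1, hr2⟩
      have h4 := hr2 ∅
      rw [hf2, hf2] at h4
      have h5 := hei h4
      rw [hY0 y hy] at h5
      have h6 : symmDiff r ∅ = r := by
        ext k
        simp [Finset.mem_symmDiff]
      rw [h6] at h5
      rw [h5]
      exact hYE r x
  have hfinv : ∀ x, x ∉ U → ∀ q, RB (f x) q → ∃ b, b ∉ U ∧ f b = q := by
    rintro x hx q ⟨r, hr1, hr2⟩
    have hb := hUi' _ _ (hYE r x) hx
    refine ⟨Y r x, hb, ?_⟩
    refine Prod.ext ?_ ?_
    · rw [hf1, hYπ r x hx, hr1, hf1]
    · funext t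
      rw [hf2, hr2 t, hf2, hYY x hx r _ (hYE r x) (hYπ r x hx)]
  -- the compressible part
  have : StandardBorelSpace U := hU.standardBorel
  obtain ⟨c, hc, hci, hcE⟩ := h2 U (Res E U) _ (hf_res hHF U)
  obtain ⟨st, hst, hstE, hsti⟩ := hUc
  obtain ⟨hRB, -, -, -, ⟨s', hs'm, hs'i, hs'E⟩, j, hj, hji, hjE⟩ := h3
  obtain ⟨h, hh⟩ := Pool.Agent.TH635.CRAbs.absorb s' hs'm hs'i RB hRB hs'E j hj hji hjE (Res E U)
    c hc hci hcE st hst hstE hsti
  obtain ⟨k, hk⟩ : ∃ k : X → KB ⊕ U, k = fun x => if hx : x ∈ U then Sum.inr ⟨x, hx⟩ else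
    Sum.inl (f x) := ⟨_, rfl⟩
  have hk1 : ∀ x (hx : x ∈ U), k x = Sum.inr ⟨x, hx⟩ := fun x hx => by rw [hk]; simp [hx]
  have hk2 : ∀ x, x ∉ U → k x = Sum.inl (f x) := fun x hx => by rw [hk]; simp [hx]
  have hkm : Measurable k := by
    rw [hk]
    exact Measurable.dite (s := U) (f := fun x => (Sum.inr x : KB ⊕ U))
      (g := fun x => (Sum.inl (f x) : KB ⊕ U)) measurable_inr
      (measurable_inl.comp (hfm.comp measurable_subtype_coe)) hU
  refine ⟨fun x => h (k x), h.measurable.comp hkm, ?_, ?_, ?_⟩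
  · intro x y hxy
    have hxy' : k x = k y := h.injective hxy
    by_cases hx : x ∈ U <;> by_cases hy : y ∈ U
    · rw [hk1 x hx, hk1 y hy] at hxy'
      exact congrArg Subtype.val (Sum.inr_injective hxy')
    · rw [hk1 x hx, hk2 y hy] at hxy'
      exact absurd hxy' (by simp)
    · rw [hk2 x hx, hk1 y hy] at hxy'
      exact absurd hxy' (by simp)
    · rw [hk2 x hx, hk2 y hy] at hxy'
      exact hfi x hx y hy (Sum.inl_injective hxy')
  · intro x y
    rw [← hh]
    by_cases hx : x ∈ U <;> by_cases hy : y ∈ U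
    · rw [hk1 x hx, hk1 y hy, Sum.liftRel_inr_inr]
      rfl
    · rw [hk1 x hx, hk2 y hy]
      constructor
      · intro hxy
        exact absurd (hUi _ _ hxy hx) hy
      · intro hxy
        cases hxy
    · rw [hk2 x hx, hk1 y hy]
      constructor
      · intro hxy
        exact absurd hy (hUi' _ _ hxy hx)
      · intro hxy
        cases hxy
    · rw [hk2 x hx, hk2 y hy, Sum.liftRel_inl_inl]
      exact hfE x hx y hy
  · intro x y hxy
    obtain ⟨z, rfl⟩ := h.surjective y
    rw [← hh] at hxy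
    by_cases hx : x ∈ U
    · rw [hk1 x hx] at hxy
      cases hxy with
      | inr hxy' =>
        rename_i w
        exact ⟨w, congrArg h (hk1 _ w.2)⟩
    · rw [hk2 x hx] at hxy
      cases hxy with
      | inl hxy' =>
        rename_i q
        obtain ⟨b, hb, hbq⟩ := hfinv x hx q hxy'
        exact ⟨b, by
          show h (k b) = _
          rw [hk2 b hb, hbq]⟩

end Pool.Agent.N480.CV
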