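import Mathlib
import Pool.Agent.N480.CV.Stm2
import Pool.Agent.H139R3.FM

set_option autoImplicit false

/-!
Project CV (helper480), part HFG (helper681): greedy matching along a hyperfinite filtration.

The tokens are matched in the steps `(n, m, i)`, in the lexicographic order: in this step the
unmatched tokens `(i, x)` are matched with `s m x`, if `F n x (s m x)` and `s m x` is an unmatched
point of `B`, where `s` is a sequence of Borel involutions generating `E`.
-/

namespace Pool.Agent.N480.CV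

open Set MeasureTheory TopologicalSpace Filter

namespace HFG

section

variable {X J : Type} {k : ℕ} [LinearOrder J] [WellFoundedLT J]
  (F : ℕ → X → X → Prop) (s : ℕ → X → X) (A : Fin k → Set X) (B : Set X)
  (nn mm : J → ℕ) (ii : J → Fin k)

/-- the tokens `(ii p, x)` matched at the step `p` -/
noncomputable def D : J → Set X :=
  (wellFounded_lt (α := J)).fix fun p D =>
    {x | x ∈ A (ii p) ∧ s (mm p) x ∈ B ∧ F (nn p) x (s (mm p) x) ∧
      (∀ q (h : q < p), ii q = ii p → x ∉ D q h) ∧ ∀ q (h : q < p), s (mm q) (s (mm p) x) ∉ D q h}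

theorem mem_D (p : J) (x : X) : x ∈ D F s A B nn mm ii p ↔ x ∈ A (ii p) ∧ s (mm p) x ∈ B ∧
    F (nn p) x (s (mm p) x) ∧ (∀ q, q < p → ii q = ii p → x ∉ D F s A B nn mm ii q) ∧
      ∀ q, q < p → s (mm q) (s (mm p) x) ∉ D F s A B nn mm ii q := by
  have h : D F s A B nn mm ii p = {x | x ∈ A (ii p) ∧ s (mm p) x ∈ B ∧
    F (nn p) x (s (mm p) x) ∧ (∀ q, q < p → ii q = ii p → x ∉ D F s A B nn mm ii q) ∧
      ∀ q, q < p → s (mm q) (s (mm p) x) ∉ D F s A B nn mm ii q} := by
    unfold D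
    rw [WellFounded.fix_eq]
  rw [h]
  rfl

theorem uniq {p q : J} {x : X} (hp : x ∈ D F s A B nn mm ii p) (hq : x ∈ D F s A B nn mm ii q)
    (h : ii p = ii q) : p = q := by
  rcases lt_trichotomy p q with hl | hl | hl
  · exact absurd hp (((mem_D F s A B nn mm ii q x).1 hq).2.2.2.1 p hl h)
  · exact hl
  · exact absurd hq (((mem_D F s A B nn mm ii p x).1 hp).2.2.2.1 q hl h.symm)

variable {s}

theorem inj (hs : ∀ n x, s n (s n x) = x) {p q : J} {x y : X} (hp : x ∈ D F s A B nn mm ii p)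
    (hq : y ∈ D F s A B nn mm ii q) (h : s (mm p) x = s (mm q) y) : p = q ∧ x = y := by
  rcases lt_trichotomy p q with hl | hl | hl
  · exfalso
    apply ((mem_D F s A B nn mm ii q y).1 hq).2.2.2.2 p hl
    rw [← h, hs]
    exact hp
  · subst hl
    refine ⟨rfl, ?_⟩
    rw [← hs (mm p) x, h, hs]
  · exfalso
    apply ((mem_D F s A B nn mm ii p x).1 hp).2.2.2.2 q hl
    rw [h, hs]
    exact hq

variable {F A B nn mm ii}

theorem meas_D [MeasurableSpace X] [Countable J] (hF : ∀ n, MeasurableSet {p : X × X | F n p.1 p.2})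
    (hs : ∀ n, Measurable (s n)) (hA : ∀ i, MeasurableSet (A i)) (hB : MeasurableSet B) (p : J) :
    MeasurableSet (D F s A B nn mm ii p) := by
  induction p using (wellFounded_lt (α := J)).induction with
  | _ p ih =>
    have e : D F s A B nn mm ii p = ((A (ii p) ∩ (s (mm p)) ⁻¹' B) ∩
        (fun x => (x, s (mm p) x)) ⁻¹' {q : X × X | F (nn p) q.1 q.2}) ∩
        ((⋂ q, ⋂ (_ : q < p), ⋂ (_ : ii q = ii p), (D F s A B nn mm ii q)ᶜ) ∩
        (⋂ q, ⋂ (_ : q < p), (fun x => s (mm q) (s (mm p) x)) ⁻¹' (D F s A B nn mm ii q)ᶜ)) := by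
      ext x
      rw [mem_D]
      simp only [mem_inter_iff, mem_preimage, mem_ofPred_eq, mem_iInter, mem_compl_iff]
      tauto
    rw [e]
    refine (((hA _).inter (hs _ hB)).inter ((hF _).preimage
      (measurable_id.prodMk (hs _)))).inter (MeasurableSet.inter ?_ ?_)
    · exact MeasurableSet.iInter fun q => MeasurableSet.iInter fun hq =>
        MeasurableSet.iInter fun _ => (ih q hq).compl
    · exact MeasurableSet.iInter fun q => MeasurableSet.iInter fun hq =>
        (ih q hq).compl.preimage ((hs _).comp (hs _))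

/-- every token is matched -/
theorem complete (hmono : Monotone nn) (hall : ∀ n m i, ∃ p, nn p = n ∧ mm p = m ∧ ii p = i)
    (hFe : ∀ n, Equivalence (F n)) (hFf : ∀ n x, {y | F n x y}.Finite)
    (hFm : ∀ m n x y, m ≤ n → F m x y → F n x y)
    (hs : ∀ n x, s n (s n x) = x) (hsF : ∀ n x y, F n x y → ∃ m, s m x = y)
    (hgood : ∀ x, ∃ n, ∑ i, {y | y ∈ A i ∧ F n x y}.ncard ≤ {y | y ∈ B ∧ F n x y}.ncard)
    {i : Fin k} {x : X} (hx : x ∈ A i) : ∃ p, ii p = i ∧ x ∈ D F s A B nn mm ii p := by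
  classical
  by_contra hcon
  push Not at hcon
  obtain ⟨n, hn⟩ := hgood x
  have key : ∀ y, y ∈ B ∧ F n x y → ∃ q, nn q ≤ n ∧ s (mm q) y ∈ D F s A B nn mm ii q := by
    rintro y ⟨hyB, hyF⟩
    obtain ⟨m, hm⟩ := hsF n x y hyF
    obtain ⟨p, hp1, hp2, hp3⟩ := hall n m i
    have h1 := hcon p hp3
    rw [mem_D, hp1, hp2, hp3, hm] at h1
    have h2 : ¬ ∀ q, q < p → s (mm q) y ∉ D F s A B nn mm ii q := by
      intro h3
      exact h1 ⟨hx, hyB, hyF, fun q _ hq => hcon q hq, h3⟩
    push Not at h2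
    obtain ⟨q, hq, hq'⟩ := h2
    exact ⟨q, hp1 ▸ hmono hq.le, hq'⟩
  have hne : Nonempty J := ⟨(hall n 0 i).choose⟩
  choose! qq hq1 hq2 using key
  set TB : Set X := {y | y ∈ B ∧ F n x y} with hTB
  set TT : Set (Fin k × X) := {t | t.2 ∈ A t.1 ∧ F n x t.2} with hTT
  have hfin : ∀ j, {y | y ∈ A j ∧ F n x y}.Finite := fun j => (hFf n x).subset fun y hy => hy.2
  have hsub : TT ⊆ (Finset.univ.biUnion fun j => ((hfin j).toFinset.image (Prod.mk j)) :
      Finset (Fin k × X)) := by
    rintro ⟨j, y⟩ ht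
    rw [Finset.mem_coe, Finset.mem_biUnion]
    refine ⟨j, Finset.mem_univ _, Finset.mem_image.2 ⟨y, ?_, rfl⟩⟩
    rw [Set.Finite.mem_toFinset]
    exact ht
  have hTTfin : TT.Finite := (Finset.finite_toSet _).subset hsub
  have hTTcard : TT.ncard ≤ ∑ j, {y | y ∈ A j ∧ F n x y}.ncard := by
    refine (Set.ncard_le_ncard hsub (Finset.finite_toSet _)).trans ?_
    rw [Set.ncard_coe_finset]
    refine Finset.card_biUnion_le.trans (Finset.sum_le_sum fun j _ => ?_)
    refine Finset.card_image_le.trans ?_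
    rw [Set.ncard_eq_toFinset_card _ (hfin j)]
  have hxT : (i, x) ∈ TT := ⟨hx, (hFe n).refl x⟩
  have h1 : TB.ncard ≤ (TT \ {(i, x)}).ncard := by
    refine Set.ncard_le_ncard_of_injOn (fun y => (ii (qq y), s (mm (qq y)) y)) ?_ ?_
      (hTTfin.subset sdiff_subset)
    · intro y hy
      have g1 := hq1 y hy
      have g2 := hq2 y hy
      obtain ⟨g3, -, g4, -, -⟩ := (mem_D F s A B nn mm ii _ _).1 g2
      rw [hs] at g4
      refine ⟨⟨g3, ?_⟩, ?_⟩
      · have g5 := hFm _ _ _ _ g1 g4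
        exact (hFe n).trans hy.2 ((hFe n).symm g5)
      · intro g6
        rw [mem_singleton_iff, Prod.mk.injEq] at g6
        apply hcon (qq y) g6.1
        rw [← g6.2]
        exact g2
    · intro y hy y' hy' heq
      simp only [Prod.mk.injEq] at heq
      have g2 := hq2 y hy
      have g2' := hq2 y' hy'
      rw [← heq.2] at g2'
      have g7 := uniq F s A B nn mm ii g2 g2' heq.1
      have g8 := heq.2
      rw [← g7] at g8
      rw [← hs (mm (qq y)) y, g8, hs]
  have h2 : (TT \ {(i, x)}).ncard < TT.ncard := Set.ncard_sdiff_singleton_lt_of_mem hxT hTTfin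
  omega

variable (F s A B nn mm ii)

open Classical in
/-- the matching -/
noncomputable def hh (i : Fin k) (x : X) : X :=
  if hx : ∃ p, ii p = i ∧ x ∈ D F s A B nn mm ii p then s (mm hx.choose) x else x

theorem hh_eq {p : J} {x : X} (hp : x ∈ D F s A B nn mm ii p) :
    hh F s A B nn mm ii (ii p) x = s (mm p) x := by
  have hx : ∃ q, ii q = ii p ∧ x ∈ D F s A B nn mm ii q := ⟨p, rfl, hp⟩
  unfold hh
  rw [dif_pos hx]
  have := uniq F s A B nn mm ii hx.choose_spec.2 hp hx.choose_spec.1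
  rw [this]

variable {F s A B nn mm ii}

theorem meas_hh [MeasurableSpace X] [Countable J]
    (hF : ∀ n, MeasurableSet {p : X × X | F n p.1 p.2})
    (hs : ∀ n, Measurable (s n)) (hA : ∀ i, MeasurableSet (A i)) (hB : MeasurableSet B)
    (i : Fin k) : Measurable (hh F s A B nn mm ii i) := by
  intro S hS
  have e : hh F s A B nn mm ii i ⁻¹' S =
      (⋃ p, ⋃ (_ : ii p = i), D F s A B nn mm ii p ∩ (s (mm p)) ⁻¹' S) ∪
      ((⋃ p, ⋃ (_ : ii p = i), D F s A B nn mm ii p)ᶜ ∩ S) := by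
    ext x
    by_cases hx : ∃ p, ii p = i ∧ x ∈ D F s A B nn mm ii p
    · obtain ⟨p, hp, hxp⟩ := hx
      subst hp
      rw [mem_preimage, hh_eq F s A B nn mm ii hxp]
      constructor
      · intro h
        exact Or.inl (mem_iUnion.2 ⟨p, mem_iUnion.2 ⟨rfl, hxp, h⟩⟩)
      · rintro (h | h)
        · obtain ⟨q, hq⟩ := mem_iUnion.1 h
          obtain ⟨hq1, hq2, hq3⟩ := mem_iUnion.1 hq
          have := uniq F s A B nn mm ii hq2 hxp hq1
          rw [← this]
          exact hq3
        · exact absurd (mem_iUnion.2 ⟨p, mem_iUnion.2 ⟨rfl, hxp⟩⟩) h.1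
    · have e1 : hh F s A B nn mm ii i x = x := by
        unfold hh
        rw [dif_neg hx]
      rw [mem_preimage, e1]
      constructor
      · intro h
        refine Or.inr ⟨?_, h⟩
        intro h'
        obtain ⟨q, hq⟩ := mem_iUnion.1 h'
        obtain ⟨hq1, hq2⟩ := mem_iUnion.1 hq
        exact hx ⟨q, hq1, hq2⟩
      · rintro (h | h)
        · obtain ⟨q, hq⟩ := mem_iUnion.1 h
          obtain ⟨hq1, hq2, -⟩ := mem_iUnion.1 hq
          exact absurd ⟨q, hq1, hq2⟩ hx
        · exact h.2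
  have hD := fun p => meas_D (nn := nn) (mm := mm) (ii := ii) hF hs hA hB p
  rw [e]
  refine MeasurableSet.union ?_ (MeasurableSet.inter ?_ hS)
  · exact MeasurableSet.iUnion fun p => MeasurableSet.iUnion fun _ => (hD p).inter (hs _ hS)
  · exact (MeasurableSet.iUnion fun p => MeasurableSet.iUnion fun _ => hD p).compl

end

end HFG

open HFG in
/-- greedy matching along a hyperfinite filtration -/
theorem t_HFG : S_HFG := by
  intro X _ _ E F hEF k A B hA hB hgood
  have hmono : ∀ m n x y, m ≤ n → F m x y → F n x y := by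
    intro m n x y hmn h
    induction n, hmn using Nat.le_induction with
    | base => exact h
    | succ n _ ih => exact hEF.mono n x y ih
  have hE : Equivalence E := by
    refine ⟨fun x => (hEF.union x x).2 ⟨0, (hEF.eqv 0).refl x⟩, ?_, ?_⟩
    · intro x y h
      obtain ⟨n, hn⟩ := (hEF.union x y).1 h
      exact (hEF.union y x).2 ⟨n, (hEF.eqv n).symm hn⟩
    · intro x y z h h'
      obtain ⟨n, hn⟩ := (hEF.union x y).1 h
      obtain ⟨m, hm⟩ := (hEF.union y z).1 h'
      exact (hEF.union x z).2 ⟨max n m, (hEF.eqv _).trans (hmono _ _ _ _ (le_max_left _ _) hn)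
        (hmono _ _ _ _ (le_max_right _ _) hm)⟩
  have hEm : MeasurableSet {p : X × X | E p.1 p.2} := by
    have e : {p : X × X | E p.1 p.2} = ⋃ n, {p : X × X | F n p.1 p.2} := by
      ext p
      rw [mem_ofPred_eq, hEF.union, mem_iUnion]
      rfl
    rw [e]
    exact MeasurableSet.iUnion hEF.meas
  have hEc : ∀ x, {y | E x y}.Countable := by
    intro x
    have e : {y | E x y} = ⋃ n, {y | F n x y} := by
      ext y
      rw [mem_ofPred_eq, hEF.union, mem_iUnion]
      rfl
    rw [e]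
    exact countable_iUnion fun n => (hEF.fin n x).countable
  obtain ⟨s, hs1, hs2, hs3⟩ := Pool.Agent.H139R3.FM.feldman_moore E hE hEm hEc
  have hsF : ∀ n x y, F n x y → ∃ m, s m x = y := fun n x y h =>
    (hs3 x y).1 ((hEF.union x y).2 ⟨n, h⟩)
  -- the steps
  let J : Type := ℕ ×ₗ (ℕ ×ₗ Fin k)
  let nn : J → ℕ := fun p => (ofLex p).1
  let mm : J → ℕ := fun p => (ofLex (ofLex p).2).1
  let ii : J → Fin k := fun p => (ofLex (ofLex p).2).2
  have : Countable J := inferInstanceAs (Countable (ℕ × (ℕ × Fin k)))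
  have hnn : Monotone nn := by
    intro p q hpq
    rcases (Prod.Lex.le_iff).1 hpq with h | h
    · exact h.le
    · exact h.1.le
  have hall : ∀ n m i, ∃ p : J, nn p = n ∧ mm p = m ∧ ii p = i := fun n m i =>
    ⟨toLex (n, toLex (m, i)), rfl, rfl, rfl⟩
  have hcomp : ∀ (i : Fin k) (x : X), x ∈ A i → ∃ p, ii p = i ∧ x ∈ D F s A B nn mm ii p :=
    fun i x hx => complete hnn hall hEF.eqv hEF.fin hmono hs2 hsF (fun x => (hgood x).exists) hx
  refine ⟨hh F s A B nn mm ii, fun i => meas_hh hEF.meas hs1 hA hB i, ?_, ?_⟩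
  · intro i x hx
    obtain ⟨p, rfl, hp⟩ := hcomp i x hx
    rw [hh_eq F s A B nn mm ii hp]
    obtain ⟨-, h1, h2, -⟩ := (mem_D F s A B nn mm ii p x).1 hp
    exact ⟨(hEF.union _ _).2 ⟨_, h2⟩, h1⟩
  · intro i j x hx y hy h
    obtain ⟨p, rfl, hp⟩ := hcomp i x hx
    obtain ⟨q, rfl, hq⟩ := hcomp j y hy
    rw [hh_eq F s A B nn mm ii hp, hh_eq F s A B nn mm ii hq] at h
    obtain ⟨h1, h2⟩ := inj F A B nn mm ii hs2 hp hq h
    exact ⟨by rw [h1], h2⟩

end Pool.Agent.N480.CV
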