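import Pool.Agent.N480.CV.Stm2
import Pool.Agent.TH286.CR.GE

set_option autoImplicit false

/-!
Project CV (helper480), part 2: an invariant set with compressible complement contains a copy of
eventual equality.
-/

namespace Pool.Agent.N480.CV

open Set MeasureTheory TopologicalSpace Filter

namespace JI

/-- the fair coin -/
noncomputable def m0 : Measure Bool :=
  (2 : ENNReal)⁻¹ • (Measure.dirac true + Measure.dirac false)

instance : IsProbabilityMeasure m0 := by
  constructor
  simp only [m0, Measure.smul_apply, Measure.add_apply, measure_univ, smul_eq_mul]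
  rw [one_add_one_eq_two]
  exact ENNReal.inv_mul_cancel (by norm_num) (by norm_num)

theorem m0_not : m0.map (fun b => !b) = m0 := by
  have hm : Measurable (fun b : Bool => !b) := measurable_of_countable _
  simp only [m0]
  rw [Measure.map_smul, Measure.map_add _ _ hm, Measure.map_dirac' hm, Measure.map_dirac' hm,
    add_comm]
  rfl

/-- the measure -/
noncomputable def mu : Measure (ℕ → Bool) := Measure.infinitePi (fun _ : ℕ => m0)

instance : IsProbabilityMeasure mu := by
  unfold mu
  infer_instance

theorem flip_meas (s : Finset ℕ) : Measurable (flip s) := by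
  refine measurable_pi_iff.2 fun n => ?_
  have h : Measurable (fun b : Bool => if n ∈ s then !b else b) := measurable_of_countable _
  exact h.comp (measurable_pi_apply n)

theorem flip_flip (s : Finset ℕ) (x : ℕ → Bool) : flip s (flip s x) = x := by
  funext n
  simp only [flip]
  split_ifs <;> simp

theorem flip_map (s : Finset ℕ) : mu.map (flip s) = mu := by
  have h := Measure.infinitePi_map_pi (μ := fun _ : ℕ => m0) (X := fun _ => Bool)
    (Y := fun _ => Bool) (f := fun i b => if i ∈ s then !b else b)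
    (fun i => measurable_of_countable _)
  have h2 : (fun i : ℕ => m0.map (fun b : Bool => if i ∈ s then !b else b)) =
      fun _ : ℕ => m0 := by
    funext i
    by_cases hi : i ∈ s
    · simp only [hi, if_true]
      exact m0_not
    · simp only [hi, if_false]
      exact Measure.map_id
  have h3 : (flip s : (ℕ → Bool) → ℕ → Bool) =
      fun x i => (fun (i : ℕ) (b : Bool) => if i ∈ s then !b else b) i (x i) := by
    funext x i
    rfl
  unfold mu
  rw [h3, h]
  congr 1

theorem mu_flip (s : Finset ℕ) (A : Set (ℕ → Bool)) (hA : MeasurableSet A) :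
    mu (flip s ⁻¹' A) = mu A := by
  conv_rhs => rw [← flip_map s]
  rw [Measure.map_apply (flip_meas s) hA]

theorem flip_inj (s t : Finset ℕ) (x : ℕ → Bool) (h : flip s x = flip t x) : s = t := by
  ext n
  have h1 := congrFun h n
  simp only [flip] at h1
  by_cases h2 : n ∈ s <;> by_cases h3 : n ∈ t <;> simp [h2, h3] at h1 ⊢

theorem TE_flip (s : Finset ℕ) (x : ℕ → Bool) : TE x (flip s x) := by
  refine ⟨s.sup id + 1, fun k hk => ?_⟩
  have h1 : k ∉ s := by
    intro h
    have h2 : id k ≤ s.sup id := Finset.le_sup h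
    simp only [id] at h2
    omega
  simp [flip, h1]

theorem exists_flip (x y : ℕ → Bool) (h : TE x y) : ∃ s : Finset ℕ, flip s x = y := by
  obtain ⟨n, hn⟩ := h
  refine ⟨(Finset.range n).filter fun k => x k ≠ y k, ?_⟩
  funext k
  simp only [flip, Finset.mem_filter, Finset.mem_range]
  by_cases hk : k < n
  · by_cases hxy : x k = y k
    · simp [hxy]
    · simp only [hk, hxy, ne_eq, not_false_eq_true, and_self, if_true]
      revert hxy
      cases x k <;> cases y k <;> simp
  · simp only [hk, false_and, if_false]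
    exact hn k (by omega)

theorem TE_refl (x : ℕ → Bool) : TE x x := ⟨0, fun _ _ => rfl⟩

theorem TE_symm (x y : ℕ → Bool) (h : TE x y) : TE y x := by
  obtain ⟨n, hn⟩ := h
  exact ⟨n, fun k hk => (hn k hk).symm⟩

theorem TE_trans (x y z : ℕ → Bool) (h : TE x y) (h' : TE y z) : TE x z := by
  obtain ⟨n, hn⟩ := h
  obtain ⟨m, hm⟩ := h'
  exact ⟨max n m, fun k hk => (hn k (le_trans (le_max_left _ _) hk)).trans
    (hm k (le_trans (le_max_right _ _) hk))⟩

theorem zero_one (A : Set (ℕ → Bool)) (hA : MeasurableSet A) (hinv : Inv TE A) :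
    mu A = 0 ∨ mu A = 1 := by
  have hind : ProbabilityTheory.iIndep (fun n : ℕ =>
      MeasurableSpace.comap (fun x : ℕ → Bool => x n) inferInstance) mu :=
    ProbabilityTheory.iIndepFun_infinitePi (P := fun _ : ℕ => m0) (X := fun _ b => b)
      (fun _ => measurable_id)
  refine ProbabilityTheory.measure_zero_or_one_of_measurableSet_limsup_atTop
    (fun n => (measurable_pi_apply n).comap_le) hind ?_
  rw [limsup_eq_iInf_iSup_of_nat, MeasurableSpace.measurableSet_iInf]
  intro n
  have hr : @Measurable _ _ (⨆ i, ⨆ (_ : i ≥ n),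
      MeasurableSpace.comap (fun x : ℕ → Bool => x i) inferInstance) _
      (fun (x : ℕ → Bool) (k : ℕ) => if k < n then false else x k) := by
    refine (@measurable_pi_iff _ _ _ (_) _ _).2 fun k => ?_
    by_cases hk : k < n
    · simp only [hk, if_true]
      exact @measurable_const _ _ _ (_) _
    · simp only [hk, if_false]
      refine measurable_iff_comap_le.2 ?_
      exact le_iSup₂_of_le (f := fun (i : ℕ) (_ : i ≥ n) =>
        MeasurableSpace.comap (fun x : ℕ → Bool => x i) inferInstance) k (not_lt.1 hk) le_rfl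
  have h2 : A = (fun (x : ℕ → Bool) (k : ℕ) => if k < n then false else x k) ⁻¹' A := by
    ext x
    have h3 : TE x (fun k : ℕ => if k < n then false else x k) := by
      refine ⟨n, fun k hk => ?_⟩
      simp [not_lt.2 hk]
    exact ⟨fun h => hinv _ _ h3 h, fun h => hinv _ _ (TE_symm _ _ h3) h⟩
  rw [h2]
  exact hr hA

theorem null_single (x : ℕ → Bool) : mu {x} = 0 := by
  by_contra h
  have h1 : ∀ n : ℕ, mu {flip {n} x} = mu {x} := by
    intro n
    rw [← mu_flip {n} {flip {n} x} (measurableSet_singleton _)]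
    congr 1
    ext y
    simp only [mem_preimage, mem_singleton_iff]
    constructor
    · intro hy
      rw [← flip_flip {n} y, hy, flip_flip]
    · intro hy
      rw [hy]
  have h2 : mu (⋃ n : ℕ, {flip {n} x}) = ∑' n : ℕ, mu {flip {n} x} := by
    refine measure_iUnion ?_ (fun n => measurableSet_singleton _)
    intro m n hmn
    change Disjoint ({flip {m} x} : Set (ℕ → Bool)) {flip {n} x}
    rw [Set.disjoint_singleton]
    intro h3
    have h4 := flip_inj _ _ x h3
    rw [Finset.singleton_inj] at h4
    exact hmn h4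
  simp only [h1] at h2
  rw [ENNReal.tsum_const_eq_top_of_ne_zero h] at h2
  exact measure_ne_top mu _ h2

theorem null_compl (I : Set (ℕ → Bool)) (hI : MeasurableSet I)
    (st : (ℕ → Bool) → ℕ → ℕ → Bool) (hst : ∀ n, Measurable fun p => st p n)
    (h1 : ∀ p, p ∉ I → ∀ n, TE p (st p n))
    (h2 : ∀ p, p ∉ I → ∀ q, q ∉ I → ∀ m n, st p m = st q n → p = q ∧ m = n) :
    mu Iᶜ = 0 := by
  by_contra hne
  let P : ℕ × Finset ℕ → Set (ℕ → Bool) := fun q => {p | p ∉ I ∧ st p q.1 = flip q.2 p}
  have hP : ∀ q, MeasurableSet (P q) := fun q =>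
    hI.compl.inter (measurableSet_eq_fun (hst q.1) (flip_meas q.2))
  have h3 : ∀ n : ℕ, mu Iᶜ = ∑' s : Finset ℕ, mu (P (n, s)) := by
    intro n
    rw [← measure_iUnion _ (fun s => hP (n, s))]
    · congr 1
      ext p
      simp only [mem_compl_iff, mem_iUnion]
      constructor
      · intro hp
        obtain ⟨s, hs⟩ := exists_flip _ _ (h1 p hp n)
        exact ⟨s, hp, hs.symm⟩
      · rintro ⟨s, hs⟩
        exact hs.1
    · intro s t hst'
      change Disjoint (P (n, s)) (P (n, t))
      rw [Set.disjoint_left]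
      intro p hp hp'
      exact hst' (flip_inj s t p (hp.2.symm.trans hp'.2))
  have h4 : mu (⋃ q, flip q.2 ⁻¹' P q) = ∑' q : ℕ × Finset ℕ, mu (flip q.2 ⁻¹' P q) := by
    refine measure_iUnion ?_ (fun q => flip_meas q.2 (hP q))
    intro q q' hq
    change Disjoint (flip q.2 ⁻¹' P q) (flip q'.2 ⁻¹' P q')
    rw [Set.disjoint_left]
    rintro y ⟨hy1, hy2⟩ ⟨hy3, hy4⟩
    rw [flip_flip] at hy2 hy4
    have h5 := h2 _ hy1 _ hy3 q.1 q'.1 (hy2.trans hy4.symm)
    exact hq (Prod.ext h5.2 (flip_inj _ _ y h5.1))
  have h5 : ∑' q : ℕ × Finset ℕ, mu (flip q.2 ⁻¹' P q) = ∑' _ : ℕ, mu Iᶜ := by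
    rw [ENNReal.tsum_prod']
    refine tsum_congr fun n => ?_
    rw [h3 n]
    exact tsum_congr fun s => mu_flip s _ (hP (n, s))
  rw [h5, ENNReal.tsum_const_eq_top_of_ne_zero hne] at h4
  exact measure_ne_top mu _ h4

theorem not_smooth (I : Set (ℕ → Bool)) (hI : MeasurableSet I) (hinv : Inv TE I)
    (hnull : mu Iᶜ = 0) :
    ¬ ∃ f : I → ℝ, Measurable f ∧ ∀ x y : I, TE x y ↔ f x = f y := by
  classical
  rintro ⟨f, hf, hfE⟩
  let F : (ℕ → Bool) → ℝ := fun x => if h : x ∈ I then f ⟨x, h⟩ else 0
  have hF : Measurable F := by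
    refine measurable_of_restrict_of_restrict_compl hI ?_ ?_
    · have h1 : I.domRestrict F = f := by
        funext x
        simp [F, Set.domRestrict]
      rw [h1]
      exact hf
    · have h1 : (Iᶜ).domRestrict F = fun _ => 0 := by
        funext x
        have hx : (x : ℕ → Bool) ∉ I := x.2
        simp [F, Set.domRestrict, hx]
      rw [h1]
      exact measurable_const
  have hFE : ∀ x y, TE x y → F x = F y := by
    intro x y hxy
    by_cases hx : x ∈ I
    · have hy : y ∈ I := hinv _ _ hxy hx
      simp only [F, hx, hy, dif_pos]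
      exact (hfE ⟨x, hx⟩ ⟨y, hy⟩).1 hxy
    · have hy : y ∉ I := fun h => hx (hinv _ _ (TE_symm _ _ hxy) h)
      simp only [F, hx, hy, dif_neg, not_false_eq_true]
  obtain ⟨c, hc⟩ : ∃ c, F =ᵐ[mu] Function.const _ c := by
    refine exists_eventuallyEq_const_of_forall_separating MeasurableSet fun U hU => ?_
    have h1 : Inv TE (F ⁻¹' U) := by
      intro x y hxy hx
      change F y ∈ U
      rw [← hFE x y hxy]
      exact hx
    rcases zero_one _ (hF hU) h1 with h | h
    · right
      rw [ae_iff]
      simp only [not_not]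
      exact h
    · left
      have h2 : mu (F ⁻¹' U)ᶜ = 0 := by
        rw [prob_compl_eq_zero_iff (hF hU)]
        exact h
      rw [ae_iff]
      exact h2
  have hI' : ∀ᵐ x ∂mu, x ∈ I := by
    rw [ae_iff]
    exact hnull
  obtain ⟨x0, hx0, hx0I⟩ := (hc.and hI').exists
  have hx0c : F x0 = c := hx0
  have h3 : ∀ᵐ x ∂mu, TE x0 x := by
    filter_upwards [hc, hI'] with x hx hxI
    have hxc : F x = c := hx
    rw [← hx0c] at hxc
    simp only [F, hx0I, hxI, dif_pos] at hxc
    exact (hfE ⟨x0, hx0I⟩ ⟨x, hxI⟩).2 hxc.symm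
  have h4 : mu {x | TE x0 x} = 0 := by
    have h5 : {x | TE x0 x} ⊆ ⋃ s : Finset ℕ, {flip s x0} := by
      intro x hx
      obtain ⟨s, hs⟩ := exists_flip _ _ hx
      exact mem_iUnion.2 ⟨s, hs.symm⟩
    exact measure_mono_null h5 (measure_iUnion_null fun s => null_single _)
  have h5 : mu {x | TE x0 x}ᶜ = 0 := h3
  have h6 : mu (univ : Set (ℕ → Bool)) = 0 := by
    rw [← union_compl_self {x | TE x0 x}]
    exact measure_union_null h4 h5
  rw [measure_univ] at h6
  exact one_ne_zero h6

/-- the result, without hypothesis -/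
theorem main : S_JI := by
  intro I hI hinv ⟨st, hst, h1, h2⟩
  have hnull := null_compl I hI st hst h1 h2
  have hns := not_smooth I hI hinv hnull
  obtain ⟨e, he⟩ := exists_surjective_nat (Finset ℕ)
  have : StandardBorelSpace I := hI.standardBorel
  obtain ⟨j, hj, hji, hjE⟩ := Pool.Agent.TH286.CR.glimm_effros (X := I)
    (fun n x => ⟨flip (e n) x.1, hinv _ _ (TE_flip _ _) x.2⟩)
    (fun n => ((flip_meas (e n)).comp measurable_subtype_coe).subtype_mk)
    (fun n x => Subtype.ext (flip_flip _ _)) (fun x y => TE x.1 y.1)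
    ⟨fun x => TE_refl _, fun h => TE_symm _ _ h, fun h h' => TE_trans _ _ _ h h'⟩
    (fun x y => by
      constructor
      · intro h
        obtain ⟨s, hs⟩ := exists_flip _ _ h
        obtain ⟨n, hn⟩ := he s
        exact ⟨n, Subtype.ext (by rw [← hs, ← hn])⟩
      · rintro ⟨n, hn⟩
        rw [← hn]
        exact TE_flip _ _)
    hns
  refine ⟨fun a => (j a).1, measurable_subtype_coe.comp hj,
    fun a b hab => hji (Subtype.ext hab), fun a => (j a).2, fun a b => hjE a b⟩

end JI

theorem t_JI (_h : S_BAS) : S_JI := JI.main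

end Pool.Agent.N480.CV
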