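import Pool.Agent.N480.CV.Stm2

set_option autoImplicit false

/-! CV/KBL: facts on the compact model (helper11). -/

namespace Pool.Agent.N480.CV

open Set MeasureTheory TopologicalSpace Filter
open Pool.Agent.TH722.CR (CAct)

namespace KBL

/-- the homeomorphisms of the model -/
def th (s : Finset ℕ) (p : KB) : KB := (flip s p.1, fun t => p.2 (symmDiff s t))

lemma RB_iff (p q : KB) : RB p q ↔ ∃ s : Finset ℕ, th s p = q := by
  constructor
  · rintro ⟨s, h1, h2⟩
    refine ⟨s, ?_⟩
    apply Prod.ext
    · exact h1.symm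
    · funext t
      exact (h2 t).symm
  · rintro ⟨s, rfl⟩
    exact ⟨s, rfl, fun t => rfl⟩

lemma flip_flip (s t : Finset ℕ) (o : ℕ → Bool) : flip s (flip t o) = flip (symmDiff s t) o := by
  funext n
  unfold flip
  by_cases h1 : n ∈ s <;> by_cases h2 : n ∈ t <;> simp [Finset.mem_symmDiff, h1, h2]

lemma flip_empty (o : ℕ → Bool) : flip ∅ o = o := by
  funext n
  simp [flip]

lemma th_th (s t : Finset ℕ) (p : KB) : th s (th t p) = th (symmDiff s t) p := by
  apply Prod.ext
  · exact flip_flip s t p.1
  · funext u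
    change p.2 (symmDiff t (symmDiff s u)) = p.2 (symmDiff (symmDiff s t) u)
    rw [← symmDiff_assoc, symmDiff_comm t s]

lemma th_empty (p : KB) : th ∅ p = p := by
  apply Prod.ext
  · exact flip_empty p.1
  · funext u
    change p.2 (symmDiff ∅ u) = p.2 u
    have h : symmDiff (∅ : Finset ℕ) u = u := bot_symmDiff u
    rw [h]

lemma th_self (s : Finset ℕ) (p : KB) : th s (th s p) = p := by
  rw [th_th, symmDiff_self]
  exact th_empty p

lemma th_continuous (s : Finset ℕ) : Continuous (th s) := by
  apply Continuous.prodMk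
  · apply continuous_pi
    intro n
    unfold flip
    by_cases h : n ∈ s
    · simp only [h, if_true]
      have h1 : Continuous (fun q : ℕ → Bool => q n) := continuous_apply n
      have h2 : Continuous (fun b : Bool => !b) := continuous_of_discreteTopology
      exact h2.comp (h1.comp continuous_fst)
    · simp only [h, if_false]
      have h1 : Continuous (fun q : ℕ → Bool => q n) := continuous_apply n
      exact h1.comp continuous_fst
  · apply continuous_pi
    intro t
    have h1 : Continuous (fun q : Finset ℕ → ℕ → Bool => q (symmDiff s t)) :=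
      continuous_apply (symmDiff s t)
    exact h1.comp continuous_snd

/-- the homeomorphisms -/
def thH (s : Finset ℕ) : KB ≃ₜ KB where
  toFun := th s
  invFun := th s
  left_inv := th_self s
  right_inv := th_self s
  continuous_toFun := th_continuous s
  continuous_invFun := th_continuous s

lemma RB_equiv : Equivalence RB := by
  refine ⟨fun p => ?_, fun {p q} h => ?_, fun {p q r} h h' => ?_⟩
  · exact (RB_iff _ _).2 ⟨∅, th_empty p⟩
  · obtain ⟨s, rfl⟩ := (RB_iff _ _).1 h
    exact (RB_iff _ _).2 ⟨s, th_self s p⟩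
  · obtain ⟨s, rfl⟩ := (RB_iff _ _).1 h
    obtain ⟨t, rfl⟩ := (RB_iff _ _).1 h'
    exact (RB_iff _ _).2 ⟨symmDiff t s, (th_th t s p).symm⟩

lemma RB_cact : CAct KB RB := by
  have : MetrizableSpace KB := metrizableSpace_of_t3_secondCountable _
  apply CAct.of_homeos thH RB RB_equiv
  · intro s x
    exact (RB_iff _ _).2 ⟨s, rfl⟩
  · intro x y h
    obtain ⟨s, hs⟩ := (RB_iff _ _).1 h
    exact Relation.EqvGen.rel _ _ ⟨s, hs⟩

lemma RB_ape : Ape RB := by
  intro x
  apply Set.infinite_of_injective_forall_mem (f := fun n : ℕ => th {n} x)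
  · intro m n hmn
    by_contra hne
    have h1 := congrFun (congrArg Prod.fst hmn) n
    change flip {m} x.1 n = flip {n} x.1 n at h1
    unfold flip at h1
    have hne' : ¬ (n = m) := fun h => hne h.symm
    simp [hne'] at h1
  · intro n
    exact (RB_iff _ _).2 ⟨{n}, rfl⟩

/-- the finite relations -/
def FF (n : ℕ) (p q : KB) : Prop := ∃ s : Finset ℕ, s ⊆ Finset.range n ∧ th s p = q

lemma RB_hf : HF RB FF := by
  refine ⟨fun n => ⟨fun p => ?_, fun {p q} h => ?_, fun {p q r} h h' => ?_⟩, fun n => ?_,
    fun n x => ?_, fun n x y h => ?_, fun x y => ?_⟩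
  · exact ⟨∅, Finset.empty_subset _, th_empty p⟩
  · obtain ⟨s, hs, rfl⟩ := h
    exact ⟨s, hs, th_self s p⟩
  · obtain ⟨s, hs, rfl⟩ := h
    obtain ⟨t, ht, rfl⟩ := h'
    refine ⟨symmDiff t s, ?_, (th_th t s p).symm⟩
    intro k hk
    rw [Finset.mem_symmDiff] at hk
    rcases hk with hk | hk
    · exact ht hk.1
    · exact hs hk.1
  · have h1 : {p : KB × KB | FF n p.1 p.2} = ⋃ s ∈ (Finset.range n).powerset,
        {p : KB × KB | th s p.1 = p.2} := by
      ext p
      simp only [Set.mem_iUnion, Finset.mem_powerset]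
      constructor
      · rintro ⟨s, hs, h⟩
        exact ⟨s, hs, h⟩
      · rintro ⟨s, hs, h⟩
        exact ⟨s, hs, h⟩
    rw [h1]
    apply Finset.measurableSet_biUnion
    intro s _
    exact (isClosed_eq ((th_continuous s).comp continuous_fst) continuous_snd).measurableSet
  · apply ((Finset.range n).powerset.finite_toSet.image (fun s => th s x)).subset
    rintro y ⟨s, hs, rfl⟩
    exact ⟨s, Finset.mem_coe.2 (Finset.mem_powerset.2 hs), rfl⟩
  · obtain ⟨s, hs, rfl⟩ := h
    exact ⟨s, hs.trans (Finset.range_subset_range.2 (Nat.le_succ n)), rfl⟩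
  · rw [RB_iff]
    constructor
    · rintro ⟨s, hs⟩
      obtain ⟨n, hn⟩ := s.exists_nat_subset_range
      exact ⟨n, s, hn, hs⟩
    · rintro ⟨n, s, hn, hs⟩
      exact ⟨s, hs⟩

lemma RB_j (a b : ℕ → Bool) : RB ((a, fun _ _ => false) : KB) (b, fun _ _ => false) ↔ TE a b := by
  constructor
  · rintro ⟨s, hs, -⟩
    obtain ⟨n, hn⟩ := s.exists_nat_subset_range
    refine ⟨n, fun k hk => ?_⟩
    have h1 := congrFun hs k
    change b k = flip s a k at h1
    have h2 : k ∉ s := fun h => by
      have := Finset.mem_range.1 (hn h)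
      omega
    rw [h1]
    simp [flip, h2]
  · rintro ⟨n, hn⟩
    refine ⟨(Finset.range n).filter (fun k => a k ≠ b k), ?_, fun t => rfl⟩
    funext k
    change b k = flip _ a k
    unfold flip
    by_cases h1 : k < n
    · by_cases h2 : a k = b k
      · simp [h2]
      · simp only [Finset.mem_filter, Finset.mem_range, h1, true_and, ne_eq, h2, not_false_eq_true,
          if_true]
        cases ha : a k <;> cases hb : b k <;> simp_all
    · have h2 := hn k (by omega)
      simp [h1, h2]

end KBL

open KBL in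
theorem t_KBL : S_KBL := by
  refine ⟨RB_equiv, RB_cact, RB_ape, ⟨FF, RB_hf⟩, ?_, ?_⟩
  · obtain ⟨f, hf⟩ := exists_surjective_nat (Finset ℕ)
    refine ⟨fun n => th (f n), fun n => (th_continuous _).measurable, fun n x => th_self _ x, ?_⟩
    intro x y
    rw [RB_iff]
    constructor
    · rintro ⟨s, hs⟩
      obtain ⟨n, rfl⟩ := hf s
      exact ⟨n, hs⟩
    · rintro ⟨n, hn⟩
      exact ⟨f n, hn⟩
  · refine ⟨fun a => (a, fun _ _ => false), measurable_id.prodMk measurable_const, ?_, RB_j⟩
    intro a b h
    exact congrArg Prod.fst h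

end Pool.Agent.N480.CV
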