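import Pool.Agent.N480.CV.Stm2

/-!
Project CV (helper480), part MEAS (helper451): tight uniform orbit measures give an invariant
probability measure.
-/

set_option autoImplicit false
set_option linter.unusedSectionVars false

namespace Pool.Agent.N480.CV

open Set MeasureTheory TopologicalSpace Filter
open scoped ENNReal Topology

namespace MEAS

/-- words -/
abbrev Wd (Γ : Type) := Γ → Γ → Fin 4

section Code

variable {Γ : Type} [Group Γ]

/-- condition at one point -/
def Gd (u : Wd Γ) : Prop :=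
  ∀ g : Γ, (u 1 g = 3 → sh g u = u) ∧ (u 1 g ≠ 3 → sh g u 1 g ≠ u 1 g)

/-- the compact space -/
def KK (Γ : Type) [Group Γ] : Set (Wd Γ) := {w | ∀ δ : Γ, Gd (sh δ w)}

theorem KK_sh {w : Wd Γ} (hw : w ∈ KK Γ) (g : Γ) : sh g w ∈ KK Γ := by
  intro δ
  rw [sh_sh]
  exact hw (δ * g)

theorem fix_iff {w : Wd Γ} (hw : w ∈ KK Γ) (a b : Γ) :
    sh a w 1 (b * a⁻¹) = 3 ↔ sh a w = sh b w := by
  have h := hw a (b * a⁻¹)
  have e : sh (b * a⁻¹) (sh a w) = sh b w := by rw [sh_sh]; simp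
  constructor
  · intro h3
    have := h.1 h3
    rw [e] at this
    exact this.symm
  · intro heq
    by_contra h3
    have := h.2 h3
    rw [e, ← heq] at this
    exact this rfl

/-- at least `k` different points -/
def D (A : Set Γ) (k : ℕ) : Set (Wd Γ) :=
  {w | ∃ h : Fin k → A, ∀ i j, i < j → sh (h i : Γ) w 1 ((h j : Γ) * (h i : Γ)⁻¹) ≠ 3}

theorem inj_iff {Z : Type} {k : ℕ} (φ : Fin k → Z) :
    (∀ i j, i < j → φ i ≠ φ j) ↔ Function.Injective φ := by
  constructor
  · intro h i j hij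
    rcases lt_trichotomy i j with hlt | heq | hgt
    · exact absurd hij (h i j hlt)
    · exact heq
    · exact absurd hij.symm (h j i hgt)
  · intro h i j hij heq
    exact hij.ne (h heq)

theorem enc {A Z : Type} (φ : A → Z) (k : ℕ) :
    (∃ h : Fin k → A, Function.Injective fun i => φ (h i)) ↔ (k : ℕ∞) ≤ (range φ).encard := by
  constructor
  · rintro ⟨h, hi⟩
    have h1 := hi.encard_range
    have h2 : range (fun i => φ (h i)) ⊆ range φ := by
      rintro _ ⟨i, rfl⟩
      exact ⟨h i, rfl⟩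
    refine le_trans ?_ (h1.trans (encard_le_encard h2))
    simp
  · intro hk
    obtain ⟨t, ht, hc⟩ := exists_subset_encard_eq hk
    have htf : t.Finite := finite_of_encard_eq_coe hc
    have hn : Nat.card t = k := by
      have h1 : t.ncard = k := by
        have := htf.cast_ncard_eq
        rw [hc] at this
        exact_mod_cast this
      rw [← h1]
      rfl
    have : Finite t := htf
    let e := Finite.equivFinOfCardEq hn
    have h2 : ∀ y : t, ∃ a, φ a = y := fun y => ht y.2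
    choose a ha using h2
    refine ⟨fun i => a (e.symm i), fun i j hij => ?_⟩
    simp only [ha] at hij
    exact e.symm.injective (Subtype.ext hij)

theorem range_eq {Z : Type} (A : Set Γ) (φ : Γ → Z) :
    (range fun a : A => φ a) = {v | ∃ g ∈ A, φ g = v} := by
  ext v
  simp

theorem D_iff {w : Wd Γ} (hw : w ∈ KK Γ) (A : Set Γ) (k : ℕ) :
    w ∈ D A k ↔ (k : ℕ∞) ≤ {v | ∃ g ∈ A, sh g w = v}.encard := by
  rw [← range_eq A (fun g => sh g w), ← enc]
  refine exists_congr fun h => ?_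
  rw [← inj_iff]
  refine forall_congr' fun i => forall_congr' fun j => forall_congr' fun _ => ?_
  rw [Ne, fix_iff hw]

section topo

theorem cont_ev (a b : Γ) : Continuous fun w : Wd Γ => w a b :=
  (continuous_apply b).comp (continuous_apply a)

theorem cont_sh (g : Γ) : Continuous (sh g : Wd Γ → Wd Γ) :=
  continuous_pi fun δ => continuous_apply (g⁻¹ * δ)

theorem isOpen_ne (a b : Γ) : IsOpen {w : Wd Γ | w a b ≠ 3} :=
  (isOpen_discrete ({3}ᶜ : Set (Fin 4))).preimage (cont_ev a b)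

theorem isClosed_ne (a b : Γ) : IsClosed {w : Wd Γ | w a b ≠ 3} :=
  (isClosed_discrete ({3}ᶜ : Set (Fin 4))).preimage (cont_ev a b)

theorem isClosed_eq3 (a b : Γ) : IsClosed {w : Wd Γ | w a b = 3} :=
  (isClosed_discrete ({3} : Set (Fin 4))).preimage (cont_ev a b)

theorem D_open (A : Set Γ) (k : ℕ) : IsOpen (D A k) := by
  have : D A k = ⋃ h : Fin k → A, ⋂ i, ⋂ j, ⋂ (_ : i < j),
      {w : Wd Γ | sh (h i : Γ) w 1 ((h j : Γ) * (h i : Γ)⁻¹) ≠ 3} := by
    ext w
    simp only [mem_iUnion, mem_iInter]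
    rfl
  rw [this]
  refine isOpen_iUnion fun h => isOpen_iInter_of_finite fun i => isOpen_iInter_of_finite fun j =>
    isOpen_iInter_of_finite fun _ => ?_
  exact isOpen_ne _ _

theorem D_closed (A : Set Γ) [Finite A] (k : ℕ) : IsClosed (D A k) := by
  have : D A k = ⋃ h : Fin k → A, ⋂ i, ⋂ j, ⋂ (_ : i < j),
      {w : Wd Γ | sh (h i : Γ) w 1 ((h j : Γ) * (h i : Γ)⁻¹) ≠ 3} := by
    ext w
    simp only [mem_iUnion, mem_iInter]
    rfl
  rw [this]
  refine isClosed_iUnion_of_finite fun h => isClosed_iInter fun i => isClosed_iInter fun j =>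
    isClosed_iInter fun _ => ?_
  exact isClosed_ne _ _

theorem KK_closed : IsClosed (KK Γ) := by
  have : KK Γ = ⋂ δ : Γ, ⋂ g : Γ,
      (({w : Wd Γ | sh δ w 1 g ≠ 3} ∪ {w | sh g (sh δ w) = sh δ w}) ∩
        ({w : Wd Γ | sh δ w 1 g = 3} ∪ {w | sh g (sh δ w) 1 g ≠ sh δ w 1 g})) := by
    ext w
    simp only [mem_iInter, mem_inter_iff, mem_union, mem_ofPred_eq, KK, Gd]
    refine forall_congr' fun δ => forall_congr' fun g => ?_
    tauto
  rw [this]
  refine isClosed_iInter fun δ => isClosed_iInter fun g => IsClosed.inter ?_ ?_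
  · exact (isClosed_ne _ _).union (isClosed_eq ((cont_sh g).comp (cont_sh δ)) (cont_sh δ))
  · refine (isClosed_eq3 _ _).union ?_
    have hc : Continuous fun w : Wd Γ => (sh g (sh δ w) 1 g, sh δ w 1 g) := by
      refine Continuous.prodMk ?_ ?_
      · exact (cont_ev 1 g).comp ((cont_sh g).comp (cont_sh δ))
      · exact (cont_ev 1 g).comp (cont_sh δ)
    exact (isClosed_discrete {p : Fin 4 × Fin 4 | p.1 ≠ p.2}).preimage hc

end topo

/-! the good set -/

/-- the set of the words of locally finite type -/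
def Y (S : ℕ → Finset Γ) : Set (Wd Γ) :=
  {w | w ∈ KK Γ ∧ (∀ k, ∃ m, w ∈ D (S m : Set Γ) k) ∧
    ∀ k, ∃ M, w ∉ D (Subgroup.closure (S k : Set Γ) : Set Γ) (M + 1)}

theorem exists_level {S : ℕ → Finset Γ} (hS : Monotone S) (hU : ∀ g : Γ, ∃ n, g ∈ S n)
    (T : Finset Γ) : ∃ n, T ⊆ S n := by
  choose N hN using hU
  refine ⟨T.sup N, fun t ht => ?_⟩
  exact hS (Finset.le_sup (f := N) ht) (hN t)

theorem Y_iff {S : ℕ → Finset Γ} (hS : Monotone S) (hU : ∀ g : Γ, ∃ n, g ∈ S n) (w : Wd Γ) :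
    w ∈ Y S ↔ w ∈ KK Γ ∧ {v | ∃ g : Γ, sh g w = v}.Infinite ∧
      ∀ T : Finset Γ, {v | ∃ g ∈ Subgroup.closure (T : Set Γ), sh g w = v}.Finite := by
  refine and_congr_right fun hw => and_congr ?_ ?_
  · constructor
    · intro h hfin
      obtain ⟨m, hm⟩ := h ({v | ∃ g : Γ, sh g w = v}.ncard + 1)
      rw [D_iff hw] at hm
      have h1 : {v | ∃ g ∈ (S m : Set Γ), sh g w = v} ⊆ {v | ∃ g : Γ, sh g w = v} := by
        rintro v ⟨g, -, rfl⟩
        exact ⟨g, rfl⟩
      have h2 := hm.trans (encard_le_encard h1)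
      rw [← hfin.cast_ncard_eq] at h2
      have h3 : {v | ∃ g : Γ, sh g w = v}.ncard + 1 ≤ {v | ∃ g : Γ, sh g w = v}.ncard := by
        exact_mod_cast h2
      omega
    · intro h k
      have h1 : (k : ℕ∞) ≤ (range fun g : Γ => sh g w).encard := by
        have : (range fun g : Γ => sh g w) = {v | ∃ g : Γ, sh g w = v} := rfl
        rw [this, h.encard_eq]
        exact le_top
      rw [← enc] at h1
      classical
      obtain ⟨a, ha⟩ := h1
      obtain ⟨n, hn⟩ := exists_level hS hU (Finset.univ.image a)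
      refine ⟨n, ?_⟩
      rw [D_iff hw, ← range_eq (S n : Set Γ) (fun g => sh g w), ← enc]
      exact ⟨fun i => ⟨a i, hn (Finset.mem_image_of_mem a (Finset.mem_univ i))⟩, ha⟩
  · constructor
    · intro h T
      obtain ⟨n, hn⟩ := exists_level hS hU T
      obtain ⟨M, hM⟩ := h n
      rw [D_iff hw, not_le] at hM
      refine Set.Finite.subset (finite_of_encard_le_coe hM.le) ?_
      rintro v ⟨g, hg, rfl⟩
      exact ⟨g, Subgroup.closure_mono (by exact_mod_cast hn) hg, rfl⟩
    · intro h k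
      refine ⟨{v | ∃ g ∈ (Subgroup.closure (S k : Set Γ) : Set Γ), sh g w = v}.ncard, ?_⟩
      rw [D_iff hw]
      have hf : {v | ∃ g ∈ (Subgroup.closure (S k : Set Γ) : Set Γ), sh g w = v}.Finite := h (S k)
      rw [← hf.cast_ncard_eq]
      intro hle
      have : {v | ∃ g ∈ (Subgroup.closure (S k : Set Γ) : Set Γ), sh g w = v}.ncard + 1 ≤
          {v | ∃ g ∈ (Subgroup.closure (S k : Set Γ) : Set Γ), sh g w = v}.ncard := by
        exact_mod_cast hle
      omega

theorem Y_sh {S : ℕ → Finset Γ} (hS : Monotone S) (hU : ∀ g : Γ, ∃ n, g ∈ S n) {w : Wd Γ}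
    (hw : w ∈ Y S) (g : Γ) : sh g w ∈ Y S := by
  rw [Y_iff hS hU] at hw ⊢
  obtain ⟨h1, h2, h3⟩ := hw
  classical
  refine ⟨KK_sh h1 g, ?_, ?_⟩
  · refine h2.mono ?_
    rintro v ⟨a, rfl⟩
    refine ⟨a * g⁻¹, ?_⟩
    rw [sh_sh]
    simp
  · intro T
    refine (h3 (insert g T)).subset ?_
    rintro v ⟨a, ha, rfl⟩
    refine ⟨a * g, Subgroup.mul_mem _ ?_ ?_, (sh_sh a g w).symm⟩
    · exact Subgroup.closure_mono (by simp) ha
    · exact Subgroup.subset_closure (by simp)

theorem Y_meas [Countable Γ] (S : ℕ → Finset Γ) : MeasurableSet (Y S) := by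
  have : Y S = KK Γ ∩ ((⋂ k, ⋃ m, D (S m : Set Γ) k) ∩
      ⋂ k, ⋃ M, (D (Subgroup.closure (S k : Set Γ) : Set Γ) (M + 1))ᶜ) := by
    ext w
    simp only [mem_inter_iff, mem_iInter, mem_iUnion, mem_compl_iff]
    rfl
  rw [this]
  refine KK_closed.measurableSet.inter (MeasurableSet.inter ?_ ?_)
  · exact MeasurableSet.iInter fun k => MeasurableSet.iUnion fun m => (D_open _ _).measurableSet
  · exact MeasurableSet.iInter fun k => MeasurableSet.iUnion fun m =>
      (D_open _ _).measurableSet.compl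

end Code

/-! uniform measures -/

section um

open scoped Classical

variable {X W : Type} [MeasurableSpace W]

/-- image of the uniform measure -/
noncomputable def um (F : Finset X) (f : X → W) : Measure W :=
  (F.card : ℝ≥0∞)⁻¹ • ∑ y ∈ F, Measure.dirac (f y)

theorem um_apply (F : Finset X) (f : X → W) {A : Set W} (hA : MeasurableSet A) :
    um F f A = (F.card : ℝ≥0∞)⁻¹ * ((F.filter fun y => f y ∈ A).card : ℝ≥0∞) := by
  unfold um
  rw [Measure.smul_apply, Measure.finsetSum_apply, smul_eq_mul]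
  congr 1
  rw [Finset.card_filter, Nat.cast_sum]
  refine Finset.sum_congr rfl fun y _ => ?_
  rw [Measure.dirac_apply' _ hA, Set.indicator_apply]
  split_ifs <;> simp

theorem um_prob (F : Finset X) (hF : F.Nonempty) (f : X → W) : IsProbabilityMeasure (um F f) := by
  constructor
  rw [um_apply F f MeasurableSet.univ]
  simp only [mem_univ, Finset.filter_true]
  rw [ENNReal.inv_mul_cancel]
  · simpa using hF.ne_empty
  · simp

theorem um_le (F : Finset X) (f : X → W) {A : Set W} (hA : MeasurableSet A)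
    {c : ℕ} (hc : 0 < c) (h : c * (F.filter fun y => f y ∈ A).card ≤ F.card) :
    um F f A ≤ (c : ℝ≥0∞)⁻¹ := by
  rw [um_apply F f hA]
  rcases Nat.eq_zero_or_pos F.card with h0 | h0
  · have : (F.filter fun y => f y ∈ A).card = 0 := by
      have := Finset.card_filter_le F (fun y => f y ∈ A)
      omega
    rw [this]
    simp
  · have hF0 : (F.card : ℝ≥0∞) ≠ 0 := by
      simpa using h0.ne'
    have hFt : (F.card : ℝ≥0∞) ≠ ⊤ := ENNReal.natCast_ne_top _
    have hc0 : (c : ℝ≥0∞) ≠ 0 := by simpa using hc.ne'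
    have hct : (c : ℝ≥0∞) ≠ ⊤ := ENNReal.natCast_ne_top _
    have h' : (c : ℝ≥0∞) * ((F.filter fun y => f y ∈ A).card : ℝ≥0∞) ≤ F.card := by
      exact_mod_cast h
    rw [ENNReal.inv_mul_le_iff hF0 hFt, ← div_eq_mul_inv, ENNReal.le_div_iff_mul_le
      (Or.inl hc0) (Or.inl hct), mul_comm]
    exact h'

theorem um_one (F : Finset X) (hF : F.Nonempty) (f : X → W) {A : Set W} (hA : MeasurableSet A)
    (h : ∀ y, f y ∈ A) : um F f A = 1 := by
  rw [um_apply F f hA]
  simp only [h, Finset.filter_true]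
  rw [ENNReal.inv_mul_cancel]
  · simpa using hF.ne_empty
  · simp

end um

section act

open scoped Classical

variable {Γ X : Type} [Group Γ] [MulAction Γ X] {f : X → Wd Γ}

theorem um_map [Countable Γ] (hf : ∀ (g : Γ) (y : X), sh g (f y) = f (g • y)) (F : Finset X)
    (g : Γ) (hg : ∀ y ∈ F, g • y ∈ F) (hg' : ∀ y ∈ F, g⁻¹ • y ∈ F) :
    (um F f).map (sh g) = um F f := by
  ext A hA
  rw [Measure.map_apply (cont_sh g).measurable hA, um_apply F f ((cont_sh g).measurable hA),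
    um_apply F f hA]
  congr 2
  have : (F.filter fun y => f y ∈ A) =
      (F.filter fun y => f y ∈ (sh g : Wd Γ → Wd Γ) ⁻¹' A).image (fun y => g • y) := by
    ext y
    simp only [Finset.mem_filter, Finset.mem_image, mem_preimage]
    constructor
    · rintro ⟨h1, h2⟩
      refine ⟨g⁻¹ • y, ⟨hg' y h1, ?_⟩, smul_inv_smul g y⟩
      rw [hf, smul_inv_smul]
      exact h2
    · rintro ⟨z, ⟨h1, h2⟩, rfl⟩
      refine ⟨hg z h1, ?_⟩
      rw [hf] at h2
      exact h2
  rw [this, Finset.card_image_of_injective _ (MulAction.injective g)]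

/-- the colour of `g` -/
noncomputable def chi (c : Γ → X → Fin 3) (g : Γ) (x : X) : Fin 4 :=
  if g • x = x then 3 else Fin.castSucc (c g x)

theorem chi_three {c : Γ → X → Fin 3} {g : Γ} {x : X} : chi c g x = 3 ↔ g • x = x := by
  unfold chi
  split_ifs with h
  · simp [h]
  · simp only [h, iff_false]
    exact (Fin.castSucc_lt_last _).ne

/-- the code map -/
noncomputable def cd (c : Γ → X → Fin 3) (y : X) : Wd Γ := fun δ g => chi c g (δ⁻¹ • y)

theorem cd_sh (c : Γ → X → Fin 3) (g : Γ) (y : X) : sh g (cd c y) = cd c (g • y) := by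
  funext δ h
  show chi c h ((g⁻¹ * δ)⁻¹ • y) = chi c h (δ⁻¹ • g • y)
  rw [← mul_smul, mul_inv_rev, inv_inv]

theorem cd_one (c : Γ → X → Fin 3) (g : Γ) (y : X) : cd c y 1 g = chi c g y := by
  show chi c g ((1 : Γ)⁻¹ • y) = chi c g y
  rw [inv_one, one_smul]

theorem cd_KK {c : Γ → X → Fin 3} (hc : ∀ (g : Γ) (x : X), g • x ≠ x → c g (g • x) ≠ c g x)
    (y : X) : cd c y ∈ KK Γ := by
  intro δ
  rw [cd_sh]
  intro g
  rw [cd_sh, cd_one, cd_one]
  constructor
  · intro h3
    rw [chi_three.1 h3]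
  · intro h3
    have h4 : g • δ • y ≠ δ • y := fun h5 => h3 (chi_three.2 h5)
    have h5 : g • g • δ • y ≠ g • δ • y := fun h6 => h4 (smul_left_cancel g h6)
    unfold chi
    rw [if_neg h4, if_neg h5]
    exact fun h6 => hc g _ h4 (Fin.castSucc_injective _ h6)

theorem cd_D (c : Γ → X → Fin 3) (y : X) (A : Set Γ) (k : ℕ) :
    cd c y ∈ D A k ↔ (k : ℕ∞) ≤ {z | ∃ g ∈ A, g • y = z}.encard := by
  rw [← range_eq A (fun g => g • y), ← enc]
  refine exists_congr fun h => ?_
  rw [← inj_iff]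
  refine forall_congr' fun i => forall_congr' fun j => forall_congr' fun _ => ?_
  rw [cd_sh, cd_one, Ne, chi_three, mul_smul, inv_smul_smul]
  exact ⟨fun h e => h e.symm, fun h e => h e.symm⟩

end act

/-- the normalized restriction to an invariant set of positive measure -/
theorem hasInv_of {Γ : Type} [Group Γ] [Countable Γ] (S : ℕ → Finset Γ) (hS : Monotone S)
    (hU : ∀ g : Γ, ∃ n, g ∈ S n) (ν : Measure (Wd Γ)) [IsProbabilityMeasure ν]
    (hν : ∀ g : Γ, ν.map (sh g) = ν) (hpos : ν (Y S) ≠ 0) : HasInv Γ := by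
  have hYm := Y_meas S
  let act : MulAction Γ (Y S) :=
    { smul := fun g w => ⟨sh g w.1, Y_sh hS hU w.2 g⟩
      one_smul := fun w => Subtype.ext (sh_one w.1)
      mul_smul := fun g h w => Subtype.ext (sh_sh g h w.1).symm }
  have hsm : ∀ (g : Γ) (w : Y S), ((g • w : Y S) : Wd Γ) = sh g w.1 := fun g w => rfl
  have hmeas : ∀ g : Γ, Measurable fun w : Y S => g • w := by
    intro g
    refine Measurable.subtype_mk ?_
    exact (cont_sh g).measurable.comp measurable_subtype_coe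
  have hone : ν (Y S) ≠ ⊤ := measure_ne_top _ _
  refine ⟨Y S, inferInstance, hYm.standardBorel, act, hmeas, ?_,
    (ν (Y S))⁻¹ • ν.comap Subtype.val, ?_, ?_⟩
  · intro w
    have hw := (Y_iff hS hU w.1).1 w.2
    refine ⟨fun hfin => hw.2.1 ((hfin.image Subtype.val).subset ?_), fun T => ?_⟩
    · rintro v ⟨g, rfl⟩
      exact ⟨g • w, ⟨g, rfl⟩, rfl⟩
    · refine ((hw.2.2 T).preimage Subtype.val_injective.injOn).subset ?_
      rintro v ⟨g, hg, rfl⟩
      exact ⟨g, hg, rfl⟩
  · constructor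
    rw [Measure.smul_apply, smul_eq_mul, comap_subtype_coe_apply hYm]
    rw [image_univ, Subtype.range_val]
    exact ENNReal.inv_mul_cancel hpos hone
  · intro g
    ext A hA
    rw [Measure.map_apply (hmeas g) hA, Measure.smul_apply, Measure.smul_apply,
      comap_subtype_coe_apply hYm, comap_subtype_coe_apply hYm]
    congr 1
    have h1 : Subtype.val '' ((fun w : Y S => g • w) ⁻¹' A) =
        (sh g : Wd Γ → Wd Γ) ⁻¹' (Subtype.val '' A) := by
      ext w
      constructor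
      · rintro ⟨v, hv, rfl⟩
        exact ⟨g • v, hv, rfl⟩
      · rintro ⟨v, hv, hvw⟩
        have h2 : w = sh g⁻¹ v.1 := by
          rw [hvw, sh_sh, inv_mul_cancel, sh_one]
        have h3 : w ∈ Y S := by
          rw [h2]
          exact Y_sh hS hU v.2 g⁻¹
        refine ⟨⟨w, h3⟩, ?_, rfl⟩
        have h4 : g • (⟨w, h3⟩ : Y S) = v := Subtype.ext hvw.symm
        show g • (⟨w, h3⟩ : Y S) ∈ A
        rw [h4]
        exact hv
    rw [h1]
    have h2 := congrArg (fun μ : Measure (Wd Γ) => μ (Subtype.val '' A)) (hν g)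
    rw [Measure.map_apply (cont_sh g).measurable (hYm.subtype_image hA)] at h2
    exact h2

theorem tsum_small : ∑' k : ℕ, (((2 ^ (k + 3) : ℕ) : ℝ≥0∞))⁻¹ ≤ 4⁻¹ := by
  have h1 : ∀ k : ℕ, (((2 ^ (k + 3) : ℕ) : ℝ≥0∞))⁻¹ = 4⁻¹ * (2⁻¹ : ℝ≥0∞) ^ (k + 1) := by
    intro k
    rw [← ENNReal.inv_pow, ← ENNReal.mul_inv (Or.inl (by norm_num)) (Or.inl (by norm_num))]
    congr 1
    push_cast
    ring
  simp_rw [h1]
  rw [ENNReal.tsum_mul_left]
  have h2 : ∑' k : ℕ, (2⁻¹ : ℝ≥0∞) ^ (k + 1) = 1 := by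
    rw [ENNReal.tsum_geometric_add_one]
    rw [ENNReal.one_sub_inv_two, inv_inv]
    exact ENNReal.inv_mul_cancel (by norm_num) (by norm_num)
  rw [h2, mul_one]

end MEAS

open MEAS in
open scoped Classical in
theorem t_MEAS (h : S_COL) : S_MEAS := by
  intro Γ _ _ S hSm hSU X _ _ _ hm hLF x H1 H2
  have hc : ∀ g : Γ, ∃ c : X → Fin 3, Measurable c ∧ ∀ x, g • x ≠ x → c (g • x) ≠ c x := by
    intro g
    exact h X (fun x => g • x) (fun x => g⁻¹ • x) (hm g) (hm g⁻¹) (fun x => inv_smul_smul g x)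
      (fun x => smul_inv_smul g x)
  choose c hc1 hc2 using hc
  let f : X → Wd Γ := cd c
  have hfK : ∀ y, f y ∈ KK Γ := cd_KK hc2
  -- the finite orbits
  have hfin : ∀ n, {y | ∃ g ∈ Subgroup.closure (S n : Set Γ), g • x = y}.Finite :=
    fun n => (hLF x).2 (S n)
  let F : ℕ → Finset X := fun n => (hfin n).toFinset
  have hF : ∀ n y, y ∈ F n ↔ ∃ g ∈ Subgroup.closure (S n : Set Γ), g • x = y := by
    intro n y
    exact (hfin n).mem_toFinset
  have hFne : ∀ n, (F n).Nonempty := fun n => ⟨x, (hF n x).2 ⟨1, Subgroup.one_mem _, one_smul _ _⟩⟩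
  have hFinv : ∀ n, ∀ g ∈ Subgroup.closure (S n : Set Γ), ∀ y ∈ F n, g • y ∈ F n := by
    intro n g hg y hy
    rw [hF] at hy ⊢
    obtain ⟨a, ha, rfl⟩ := hy
    exact ⟨g * a, Subgroup.mul_mem _ hg ha, mul_smul _ _ _⟩
  have hFcard : ∀ n, (F n).card =
      {y | ∃ g ∈ Subgroup.closure (S n : Set Γ), g • x = y}.ncard := by
    intro n
    rw [Set.ncard_eq_toFinset_card _ (hfin n)]
  let μ : ℕ → ProbabilityMeasure (Wd Γ) := fun n => ⟨um (F n) f, um_prob (F n) (hFne n) f⟩
  -- the limit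
  obtain ⟨ν, -, hν⟩ := isCompact_univ.ultrafilter_le_nhds ((hyperfilter ℕ).map μ) (by simp)
  have hT : Tendsto μ (hyperfilter ℕ : Filter ℕ) (𝓝 ν) := hν
  have hle : (hyperfilter ℕ : Filter ℕ) ≤ atTop := Nat.hyperfilter_le_atTop
  have hinv : ∀ g : Γ, (ν : Measure (Wd Γ)).map (sh g) = ν := by
    intro g
    have h1 := ProbabilityMeasure.tendsto_map_of_tendsto_of_continuous μ ν hT (cont_sh g)
    have h2 : ∀ᶠ n in (hyperfilter ℕ : Filter ℕ),
        (μ n).map (cont_sh g).aemeasurable = μ n := by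
      obtain ⟨n0, hn0⟩ := hSU g
      refine Filter.Eventually.filter_mono hle ?_
      filter_upwards [eventually_ge_atTop n0] with n hn
      apply Subtype.ext
      have hg : g ∈ Subgroup.closure (S n : Set Γ) :=
        Subgroup.subset_closure (by exact_mod_cast hSm hn hn0)
      exact um_map (fun g y => cd_sh c g y) (F n) g (hFinv n g hg)
        (hFinv n g⁻¹ (Subgroup.inv_mem _ hg))
    have h3 := (tendsto_congr' h2).1 h1
    have h4 := tendsto_nhds_unique h3 hT
    have h5 := congrArg (fun p : ProbabilityMeasure (Wd Γ) => (p : Measure (Wd Γ))) h4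
    simpa using h5
  -- bounds
  have bound : ∀ (A : Set (Wd Γ)), IsOpen A → ∀ b : ℝ≥0∞,
      (∀ᶠ n in atTop, um (F n) f A ≤ b) → (ν : Measure (Wd Γ)) A ≤ b := by
    intro A hA b hb
    refine (ProbabilityMeasure.le_liminf_measure_open_of_tendsto hT hA).trans ?_
    refine Filter.liminf_le_of_frequently_le' ?_
    exact (Filter.Eventually.filter_mono hle hb).frequently
  have hK1 : (ν : Measure (Wd Γ)) (KK Γ)ᶜ = 0 := by
    refine le_antisymm (bound _ KK_closed.isOpen_compl 0 ?_) bot_le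
    refine Filter.Eventually.of_forall fun n => ?_
    have h1 := um_prob (F n) (hFne n) f
    rw [prob_compl_eq_zero_iff KK_closed.measurableSet |>.2
      (um_one (F n) (hFne n) f KK_closed.measurableSet hfK)]
  have hB1 : ∀ k, ∃ M, (ν : Measure (Wd Γ))
      (D (Subgroup.closure (S k : Set Γ) : Set Γ) (M + 1)) ≤ (((2 ^ (k + 3) : ℕ) : ℝ≥0∞))⁻¹ := by
    intro k
    obtain ⟨M, hM⟩ := H1 k
    refine ⟨M, bound _ (D_open _ _) _ ?_⟩
    filter_upwards [hM] with n hn
    refine um_le (F n) f (D_open _ _).measurableSet (by positivity) ?_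
    rw [hFcard]
    refine le_trans (le_of_eq ?_) hn
    congr 1
    rw [← Set.ncard_coe_finset]
    congr 1
    ext y
    simp only [Finset.coe_filter, mem_ofPred_eq, hF]
    refine and_congr_right fun _ => ?_
    rw [cd_D]
    have hf : {z | ∃ g ∈ (Subgroup.closure (S k : Set Γ) : Set Γ), g • y = z}.Finite :=
      (hLF y).2 (S k)
    rw [← hf.cast_ncard_eq]
    have : ((M + 1 : ℕ) : ℕ∞) ≤
      (({z | ∃ g ∈ (Subgroup.closure (S k : Set Γ) : Set Γ), g • y = z}.ncard : ℕ) : ℕ∞) ↔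
      M + 1 ≤ {z | ∃ g ∈ (Subgroup.closure (S k : Set Γ) : Set Γ), g • y = z}.ncard := by
      exact Nat.cast_le
    rw [this]
    exact Nat.succ_le_iff
  have hB2 : ∀ k, ∃ m, (ν : Measure (Wd Γ))
      (D (S m : Set Γ) k)ᶜ ≤ (((2 ^ (k + 3) : ℕ) : ℝ≥0∞))⁻¹ := by
    intro k
    obtain ⟨m, hm⟩ := H2 k
    have hcl : IsClosed (D (S m : Set Γ) k) := D_closed _ _
    refine ⟨m, bound _ hcl.isOpen_compl _ ?_⟩
    filter_upwards [hm] with n hn
    refine um_le (F n) f hcl.measurableSet.compl (by positivity) ?_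
    rw [hFcard]
    refine le_trans (le_of_eq ?_) hn
    congr 1
    rw [← Set.ncard_coe_finset]
    congr 1
    ext y
    simp only [Finset.coe_filter, mem_ofPred_eq, hF]
    refine and_congr_right fun _ => ?_
    rw [mem_compl_iff, cd_D, not_le]
    have hf : {z | ∃ g ∈ (S m : Set Γ), g • y = z}.Finite := by
      have : {z | ∃ g ∈ (S m : Set Γ), g • y = z} = (fun g : Γ => g • y) '' (S m : Set Γ) := rfl
      rw [this]
      exact (S m).finite_toSet.image _
    rw [← hf.cast_ncard_eq, Nat.cast_lt]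
    rfl
  choose M hM using hB1
  choose m hm' using hB2
  refine hasInv_of S hSm hSU ν hinv ?_
  intro h0
  have hsub : (univ : Set (Wd Γ)) ⊆ Y S ∪ ((KK Γ)ᶜ ∪
      ((⋃ k, D (Subgroup.closure (S k : Set Γ) : Set Γ) (M k + 1)) ∪
        ⋃ k, (D (S (m k) : Set Γ) k)ᶜ)) := by
    intro w _
    by_contra hw
    simp only [mem_union, mem_iUnion, not_or, not_exists, mem_compl_iff, not_not] at hw
    exact hw.1 ⟨hw.2.1, fun k => ⟨m k, hw.2.2.2 k⟩, fun k => ⟨M k, hw.2.2.1 k⟩⟩
  have h1 : (1 : ℝ≥0∞) ≤ 0 + (0 + (4⁻¹ + 4⁻¹)) := by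
    calc (1 : ℝ≥0∞) = (ν : Measure (Wd Γ)) univ := measure_univ.symm
      _ ≤ _ := measure_mono hsub
      _ ≤ _ := measure_union_le _ _
      _ ≤ 0 + (0 + (4⁻¹ + 4⁻¹)) := by
        refine add_le_add h0.le ((measure_union_le _ _).trans (add_le_add hK1.le ?_))
        refine (measure_union_le _ _).trans (add_le_add ?_ ?_)
        · exact (measure_iUnion_le _).trans ((ENNReal.tsum_le_tsum hM).trans tsum_small)
        · exact (measure_iUnion_le _).trans ((ENNReal.tsum_le_tsum hm').trans tsum_small)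
  rw [zero_add, zero_add] at h1
  have h2 : (4⁻¹ + 4⁻¹ : ℝ≥0∞) < 1 := by
    have h3 : (4⁻¹ : ℝ≥0∞) < 2⁻¹ := by
      rw [ENNReal.inv_lt_inv]
      norm_num
    calc (4⁻¹ + 4⁻¹ : ℝ≥0∞) < 2⁻¹ + 2⁻¹ := ENNReal.add_lt_add h3 h3
      _ = 1 := ENNReal.inv_two_add_inv_two
  exact absurd h1 (not_le.2 h2)

end Pool.Agent.N480.CV
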