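import Mathlib
import Pool.Agent.N480.CV.Stm2

set_option autoImplicit false

/-!
CV/NM (helper933 for project CV of helper480): without invariant measures the locally finite type is
compressible, and locally finite groups.
-/

namespace Pool.Agent.N480.CV

open Set MeasureTheory TopologicalSpace Filter

namespace NM

section count

variable {Γ X : Type} [Group Γ] [MulAction Γ X]

theorem le_ncard_iff (T : Set Γ) (P : Set X) (x : X)
    (hfin : {y | ∃ g ∈ T, g • x = y}.Finite) (c : ℕ) :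
    c ≤ {y | (∃ g ∈ T, g • x = y) ∧ y ∈ P}.ncard ↔
      ∃ t : Fin c → T, (∀ i, ((t i : Γ) • x) ∈ P) ∧
        ∀ i j, i ≠ j → (t i : Γ) • x ≠ (t j : Γ) • x := by
  classical
  have hA : {y | (∃ g ∈ T, g • x = y) ∧ y ∈ P}.Finite := hfin.subset fun y hy => hy.1
  constructor
  · intro hc
    rw [Set.ncard_eq_toFinset_card _ hA] at hc
    obtain ⟨B, hB, hBc⟩ := Finset.exists_subset_card_eq hc
    let e := (Finset.equivFinOfCardEq hBc).symm
    have h1 : ∀ i : Fin c, ∃ g : T, (g : Γ) • x = (e i : X) ∧ (e i : X) ∈ P := by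
      intro i
      have h2 := hB (e i).2
      rw [Set.Finite.mem_toFinset] at h2
      obtain ⟨⟨g, hg, hgx⟩, h3⟩ := h2
      exact ⟨⟨g, hg⟩, hgx, h3⟩
    choose t ht1 ht2 using h1
    refine ⟨t, fun i => by rw [ht1]; exact ht2 i, fun i j hij h => hij ?_⟩
    rw [ht1, ht1] at h
    exact e.injective (Subtype.ext h)
  · rintro ⟨t, ht1, ht2⟩
    have hinj : Function.Injective fun i => (t i : Γ) • x := by
      intro i j h
      by_contra hne
      exact ht2 i j hne h
    have h1 : (range fun i => (t i : Γ) • x).ncard = c := by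
      rw [← Set.image_univ, Set.ncard_image_of_injective _ hinj, Set.ncard_univ, Nat.card_fin]
    rw [← h1]
    refine Set.ncard_le_ncard ?_ hA
    rintro _ ⟨i, rfl⟩
    exact ⟨⟨t i, (t i).2, rfl⟩, ht1 i⟩

theorem ncard_meas [Countable Γ] [MeasurableSpace X] [StandardBorelSpace X]
    (hm : ∀ g : Γ, Measurable fun x : X => g • x) (T : Set Γ) (P : Set X) (hP : MeasurableSet P)
    (hfin : ∀ x : X, {y | ∃ g ∈ T, g • x = y}.Finite) :
    Measurable fun x : X => {y | (∃ g ∈ T, g • x = y) ∧ y ∈ P}.ncard := by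
  refine measurable_of_Ici fun c => ?_
  have h1 : (fun x : X => {y | (∃ g ∈ T, g • x = y) ∧ y ∈ P}.ncard) ⁻¹' Ici c =
      ⋃ t : Fin c → T, ((⋂ i, {x | ((t i : Γ) • x) ∈ P}) ∩
        ⋂ i, ⋂ j, {x | i ≠ j → (t i : Γ) • x ≠ (t j : Γ) • x}) := by
    ext x
    rw [mem_preimage, mem_Ici, le_ncard_iff T P x (hfin x) c]
    simp only [mem_iUnion, mem_inter_iff, mem_iInter]
    rfl
  rw [h1]
  refine MeasurableSet.iUnion fun t => (MeasurableSet.iInter fun i => hm _ hP).inter
    (MeasurableSet.iInter fun i => MeasurableSet.iInter fun j => ?_)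
  by_cases hij : i = j
  · have : {x : X | i ≠ j → (t i : Γ) • x ≠ (t j : Γ) • x} = univ := by
      ext x
      simp [hij]
    rw [this]
    exact MeasurableSet.univ
  · have : {x : X | i ≠ j → (t i : Γ) • x ≠ (t j : Γ) • x} =
        {x : X | (t i : Γ) • x = (t j : Γ) • x}ᶜ := by
      ext x
      simp [hij]
    rw [this]
    exact (measurableSet_eq_fun (hm _) (hm _)).compl

theorem ncard_meas' [Countable Γ] [MeasurableSpace X] [StandardBorelSpace X]
    (hm : ∀ g : Γ, Measurable fun x : X => g • x) (T : Set Γ)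
    (hfin : ∀ x : X, {y | ∃ g ∈ T, g • x = y}.Finite) :
    Measurable fun x : X => {y | ∃ g ∈ T, g • x = y}.ncard := by
  have h1 := ncard_meas hm T univ MeasurableSet.univ hfin
  simpa using h1

end count

section freq

variable {X : Type} [MeasurableSpace X]

theorem freq_meas (a b : ℕ → X → ℕ) (q : ℕ) (ha : ∀ n, Measurable (a n))
    (hb : ∀ n, Measurable (b n)) : MeasurableSet {x | ∃ᶠ n in atTop, a n x < q * b n x} := by
  have h1 : {x | ∃ᶠ n in atTop, a n x < q * b n x} =
      ⋂ N : ℕ, ⋃ n : ℕ, ⋃ _ : N ≤ n, {x | a n x < q * b n x} := by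
    ext x
    simp only [mem_iInter, mem_iUnion]
    rw [mem_ofPred_eq, frequently_atTop]
    refine forall_congr' fun N => ?_
    constructor
    · rintro ⟨n, hn, h⟩
      exact ⟨n, hn, h⟩
    · rintro ⟨n, hn, h⟩
      exact ⟨n, hn, h⟩
  rw [h1]
  exact MeasurableSet.iInter fun N => MeasurableSet.iUnion fun n => MeasurableSet.iUnion fun _ =>
    measurableSet_lt (ha n) ((hb n).const_mul q)

end freq

/-- restriction of the filtration -/
theorem hf_res {X : Type} [MeasurableSpace X] {E : X → X → Prop} {F : ℕ → X → X → Prop}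
    (h : HF E F) (U : Set X) : HF (Res E U) (fun n => Res (F n) U) where
  eqv n := ⟨fun x => (h.eqv n).refl _, fun hxy => (h.eqv n).symm hxy,
    fun hxy hyz => (h.eqv n).trans hxy hyz⟩
  meas n := by
    have h1 : Measurable fun p : U × U => ((p.1 : X), (p.2 : X)) :=
      (measurable_subtype_coe.comp measurable_fst).prodMk
        (measurable_subtype_coe.comp measurable_snd)
    exact h1 (h.meas n)
  fin n x := by
    have h1 := (h.fin n (x : X)).preimage (f := (Subtype.val : U → X))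
      Subtype.val_injective.injOn
    exact h1
  mono n x y hxy := h.mono n _ _ hxy
  union x y := h.union _ _

theorem ncard_res {X : Type} (U : Set X) (A : Set X) (hA : A ⊆ U) :
    {y : U | (y : X) ∈ A}.ncard = A.ncard := by
  rw [← Set.ncard_image_of_injective _ (Subtype.val_injective (p := fun y => y ∈ U))]
  congr 1
  ext y
  constructor
  · rintro ⟨z, hz, rfl⟩
    exact hz
  · intro hy
    exact ⟨⟨y, hA hy⟩, hy, rfl⟩

/-- the escaping mass criterion on an invariant set -/
theorem van_res (h2 : S_VAN) {X : Type} [MeasurableSpace X] [StandardBorelSpace X]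
    {E : X → X → Prop} {F : ℕ → X → X → Prop} (h : HF E F) (hE : Ape E) (U : Set X)
    (hU : MeasurableSet U) (hinv : Inv E U) (d : X → ℕ) (q : ℕ) (hd : Measurable d) (hq : 0 < q)
    (hfr : ∀ x ∈ U, ∀ κ, ∃ᶠ n in atTop,
      {y | F n x y}.ncard < q * {y | F n x y ∧ κ < d y}.ncard) : Cmp (Res E U) := by
  have := hU.standardBorel
  refine h2 U (Res E U) (fun n => Res (F n) U) (hf_res h U) ?_ (fun x => d x) q
    (hd.comp measurable_subtype_coe) hq ?_
  · intro x hfin
    refine hE (x : X) ((hfin.image Subtype.val).subset ?_)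
    intro y hy
    exact ⟨⟨y, hinv _ _ hy x.2⟩, hy, rfl⟩
  · intro x κ
    refine (hfr x x.2 κ).mono fun n hn => ?_
    have hsub : ∀ y, F n (x : X) y → y ∈ U := fun y hy =>
      hinv _ _ ((h.union _ _).2 ⟨n, hy⟩) x.2
    have e1 : {y : U | d y ≤ κ ∧ Res (F n) U x y}.ncard =
        {y : X | d y ≤ κ ∧ F n (x : X) y}.ncard :=
      ncard_res U {y | d y ≤ κ ∧ F n (x : X) y} fun y hy => hsub y hy.2
    have e2 : {y : U | Res (F n) U x y}.ncard = {y : X | F n (x : X) y}.ncard :=
      ncard_res U {y | F n (x : X) y} fun y hy => hsub y hy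
    rw [e1, e2]
    have hF : {y : X | F n (x : X) y}.Finite := h.fin n x
    have e3 : {y : X | F n (x : X) y}.ncard = {y : X | d y ≤ κ ∧ F n (x : X) y}.ncard +
        {y | F n (x : X) y ∧ κ < d y}.ncard := by
      have hdis : Disjoint {y : X | d y ≤ κ ∧ F n (x : X) y} {y | F n (x : X) y ∧ κ < d y} := by
        rw [Set.disjoint_left]
        intro y hy hy'
        exact absurd hy'.2 (not_lt.2 hy.1)
      rw [← Set.ncard_union_eq hdis (hF.subset fun y hy => hy.2) (hF.subset fun y hy => hy.1)]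
      congr 1
      ext y
      constructor
      · intro hy
        rcases le_or_gt (d y) κ with h3 | h3
        · exact Or.inl ⟨h3, hy⟩
        · exact Or.inr ⟨hy, h3⟩
      · rintro (hy | hy)
        · exact hy.2
        · exact hy.1
    obtain ⟨q', rfl⟩ : ∃ q', q = q' + 1 := ⟨q - 1, by omega⟩
    rw [Nat.add_sub_cancel]
    set A := {y : X | d y ≤ κ ∧ F n (x : X) y}.ncard
    set B := {y | F n (x : X) y ∧ κ < d y}.ncard
    rw [e3] at hn ⊢
    nlinarith

/-- from the whole space -/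
theorem cmp_univ {X : Type} [MeasurableSpace X] {E : X → X → Prop} (U : Set X)
    (hU : ∀ x, x ∈ U) (h : Cmp (Res E U)) : Cmp E := by
  obtain ⟨st, h1, h2, h3⟩ := h
  refine ⟨fun x n => (st ⟨x, hU x⟩ n : X), fun n => ?_, fun x n => h2 ⟨x, hU x⟩ n, ?_⟩
  · exact measurable_subtype_coe.comp ((h1 n).comp (measurable_id.subtype_mk))
  · intro x x' n n' hx
    obtain ⟨h4, h5⟩ := h3 _ _ _ _ (Subtype.ext hx)
    exact ⟨congrArg Subtype.val h4, h5⟩

/-- an exhaustion of a countable group by finite sets -/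
theorem exh (Γ : Type) [Group Γ] [Countable Γ] :
    ∃ S : ℕ → Finset Γ, Monotone S ∧ ∀ g : Γ, ∃ n, g ∈ S n := by
  classical
  obtain ⟨f, hf⟩ := exists_surjective_nat Γ
  refine ⟨fun n => (Finset.range (n + 1)).image f, ?_, ?_⟩
  · intro m n hmn
    exact Finset.image_subset_image (Finset.range_subset_range.2 (by omega))
  · intro g
    obtain ⟨n, rfl⟩ := hf g
    exact ⟨n, Finset.mem_image_of_mem f (Finset.mem_range.2 (by omega))⟩

section filt

variable {Γ X : Type} [Group Γ] [MulAction Γ X]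

/-- the relations of the finitely generated subgroups -/
def FF (S : ℕ → Finset Γ) (n : ℕ) (x y : X) : Prop :=
  ∃ g ∈ Subgroup.closure (S n : Set Γ), g • x = y

theorem hf [Countable Γ] [MeasurableSpace X] [StandardBorelSpace X]
    (hm : ∀ g : Γ, Measurable fun x : X => g • x) (hLF : LF Γ X) (S : ℕ → Finset Γ)
    (hS : Monotone S) (hS' : ∀ g : Γ, ∃ n, g ∈ S n) :
    HF (Orb Γ : X → X → Prop) (FF S) where
  eqv n := by
    refine ⟨fun x => ⟨1, one_mem _, one_smul _ _⟩, ?_, ?_⟩
    · rintro x y ⟨g, hg, rfl⟩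
      exact ⟨g⁻¹, inv_mem hg, by rw [inv_smul_smul]⟩
    · rintro x y z ⟨g, hg, rfl⟩ ⟨h, hh, rfl⟩
      exact ⟨h * g, mul_mem hh hg, by rw [mul_smul]⟩
  meas n := by
    have h1 : {p : X × X | FF S n p.1 p.2} =
        ⋃ g : Subgroup.closure (S n : Set Γ), {p : X × X | (g : Γ) • p.1 = p.2} := by
      ext p
      simp only [mem_iUnion, Subtype.exists]
      constructor
      · rintro ⟨g, hg, h⟩
        exact ⟨g, hg, h⟩
      · rintro ⟨g, hg, h⟩
        exact ⟨g, hg, h⟩
    rw [h1]
    exact MeasurableSet.iUnion fun g =>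
      measurableSet_eq_fun ((hm g).comp measurable_fst) measurable_snd
  fin n x := (hLF x).2 (S n)
  mono n x y := by
    rintro ⟨g, hg, h⟩
    exact ⟨g, Subgroup.closure_mono (Finset.coe_subset.2 (hS (Nat.le_succ n))) hg, h⟩
  union x y := by
    constructor
    · rintro ⟨g, hg⟩
      obtain ⟨n, hn⟩ := hS' g
      exact ⟨n, g, Subgroup.subset_closure hn, hg⟩
    · rintro ⟨n, g, -, hg⟩
      exact ⟨g, hg⟩

theorem FF_mono (S : ℕ → Finset Γ) (hS : Monotone S) {m n : ℕ} (h : m ≤ n) {x y : X}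
    (hxy : FF S m x y) : FF S n x y := by
  obtain ⟨g, hg, h1⟩ := hxy
  exact ⟨g, Subgroup.closure_mono (Finset.coe_subset.2 (hS h)) hg, h1⟩

theorem FF_set [Countable Γ] [MeasurableSpace X] [StandardBorelSpace X]
    (hm : ∀ g : Γ, Measurable fun x : X => g • x) (hLF : LF Γ X) (S : ℕ → Finset Γ)
    (hS : Monotone S) (hS' : ∀ g : Γ, ∃ n, g ∈ S n) {x y : X} (h : Orb Γ x y) :
    ∀ᶠ n in atTop, ∀ z, FF S n x z ↔ FF S n y z := by
  have hH := hf hm hLF S hS hS'
  obtain ⟨m, hm'⟩ := (hH.union x y).1 h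
  filter_upwards [eventually_ge_atTop m] with n hn z
  have h1 := FF_mono S hS hn hm'
  exact ⟨fun h2 => (hH.eqv n).trans ((hH.eqv n).symm h1) h2, fun h2 => (hH.eqv n).trans h1 h2⟩

end filt

end NM

open NM in
/-- NM: without invariant measures the locally finite type is compressible -/
theorem t_NM (h1 : S_MEAS) (h2 : S_VAN) (h3 : S_BAS) : S_NM := by
  intro Γ _ _ hNI X _ _ _ hm hLF
  classical
  obtain ⟨S, hS, hS'⟩ := exh Γ
  have hH : HF (Orb Γ : X → X → Prop) (FF S) := hf hm hLF S hS hS'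
  have hApe : Ape (Orb Γ : X → X → Prop) := fun x => (hLF x).1
  -- sizes
  let s : ℕ → X → ℕ := fun k y => {z | FF S k y z}.ncard
  let b : ℕ → X → ℕ := fun m y => {z | ∃ g ∈ S m, g • y = z}.ncard
  have hfinT : ∀ (m : ℕ) (x : X), {y | ∃ g ∈ ((S m : Finset Γ) : Set Γ), g • x = y}.Finite := by
    intro m x
    exact ((hLF x).2 (S m)).subset fun y ⟨g, hg, h⟩ => ⟨g, Subgroup.subset_closure hg, h⟩
  have hs : ∀ k, Measurable (s k) := fun k =>
    ncard_meas' hm (Subgroup.closure (S k : Set Γ) : Set Γ) fun x => (hLF x).2 (S k)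
  have hb : ∀ k, Measurable (b k) := fun k =>
    ncard_meas' hm ((S k : Finset Γ) : Set Γ) fun x => hfinT k x
  have hbm : ∀ y, Monotone fun m => b m y := by
    intro y m n hmn
    refine Set.ncard_le_ncard ?_ (hfinT n y)
    rintro z ⟨g, hg, h⟩
    exact ⟨g, hS hmn hg, h⟩
  have hbu : ∀ (k : ℕ) (y : X), ∃ m, k ≤ b m y := by
    intro k y
    obtain ⟨B, hB, hBc⟩ := (hLF y).1.exists_subset_ncard_eq k
    have hBf : B.Finite := hBc.1
    have h4 : ∀ z ∈ B, ∃ n, ∃ g ∈ S n, g • y = z := by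
      intro z hz
      obtain ⟨g, hg⟩ := hB hz
      obtain ⟨n, hn⟩ := hS' g
      exact ⟨n, g, hn, hg⟩
    choose! N hN using h4
    obtain ⟨M, hM⟩ : ∃ M, ∀ z ∈ B, N z ≤ M := by
      obtain ⟨M, hM⟩ := (hBf.image N).bddAbove
      exact ⟨M, fun z hz => hM (mem_image_of_mem N hz)⟩
    refine ⟨M, ?_⟩
    rw [← hBc.2]
    refine Set.ncard_le_ncard ?_ (hfinT M y)
    intro z hz
    obtain ⟨g, hg, h⟩ := hN z hz
    exact ⟨g, hS (hM z hz) hg, h⟩
  let d' : ℕ → X → ℕ := fun k y => Nat.find (hbu k y)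
  have hd' : ∀ k y κ, κ < d' k y ↔ b κ y < k := by
    intro k y κ
    constructor
    · intro h
      exact not_le.1 (Nat.find_min (hbu k y) h)
    · intro h
      by_contra hcon
      have h5 : k ≤ b (d' k y) y := Nat.find_spec (hbu k y)
      have h6 := hbm y (not_lt.1 hcon)
      simp only at h6
      omega
  have hd'm : ∀ k, Measurable (d' k) := by
    intro k
    refine measurable_of_Iic fun κ => ?_
    have h4 : d' k ⁻¹' Iic κ = (b κ) ⁻¹' Ici k := by
      ext y
      rw [mem_preimage, mem_Iic, mem_preimage, mem_Ici, ← not_lt, ← not_lt]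
      exact not_congr (hd' k y κ)
    rw [h4]
    exact hb κ measurableSet_Ici
  -- general invariant sets
  have gen : ∀ (d : X → ℕ) (q : ℕ), Measurable d → 0 < q →
      MeasurableSet {x | ∀ M, ∃ᶠ n in atTop, {y | FF S n x y}.ncard <
        q * {y | FF S n x y ∧ M < d y}.ncard} ∧
      Inv (Orb Γ : X → X → Prop) {x | ∀ M, ∃ᶠ n in atTop, {y | FF S n x y}.ncard <
        q * {y | FF S n x y ∧ M < d y}.ncard} ∧
      Cmp (Res (Orb Γ : X → X → Prop) {x | ∀ M, ∃ᶠ n in atTop, {y | FF S n x y}.ncard <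
        q * {y | FF S n x y ∧ M < d y}.ncard}) := by
    intro d q hd hq
    have hmeas : MeasurableSet {x : X | ∀ M, ∃ᶠ n in atTop, {y | FF S n x y}.ncard <
        q * {y | FF S n x y ∧ M < d y}.ncard} := by
      have h4 : {x : X | ∀ M, ∃ᶠ n in atTop, {y | FF S n x y}.ncard <
          q * {y | FF S n x y ∧ M < d y}.ncard} = ⋂ M : ℕ, {x : X | ∃ᶠ n in atTop,
          {y | FF S n x y}.ncard < q * {y | FF S n x y ∧ M < d y}.ncard} := by
        ext x
        simp only [mem_iInter]
        rfl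
      rw [h4]
      refine MeasurableSet.iInter fun M => freq_meas _ _ q (fun n => ?_) (fun n => ?_)
      · exact ncard_meas' hm (Subgroup.closure (S n : Set Γ) : Set Γ) fun x => (hLF x).2 (S n)
      · exact ncard_meas hm (Subgroup.closure (S n : Set Γ) : Set Γ) {y | M < d y}
          (hd measurableSet_Ioi) fun x => (hLF x).2 (S n)
    have hinv : Inv (Orb Γ : X → X → Prop) {x | ∀ M, ∃ᶠ n in atTop, {y | FF S n x y}.ncard <
        q * {y | FF S n x y ∧ M < d y}.ncard} := by
      intro x y hxy hx M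
      have h4 := FF_set hm hLF S hS hS' hxy
      refine ((hx M).and_eventually h4).mono ?_
      rintro n ⟨h5, h6⟩
      simp only [h6] at h5
      exact h5
    exact ⟨hmeas, hinv, van_res h2 hH hApe _ hmeas hinv d q hd hq fun x hx κ => hx κ⟩
  let U : ℕ → Set X := fun j => {x | ∀ M, ∃ᶠ n in atTop, {y | FF S n x y}.ncard <
      2 ^ (j / 2 + 3) * {y | FF S n x y ∧ M < (if j % 2 = 0 then s (j / 2) else d' (j / 2)) y}.ncard}
  have hdm : ∀ j, Measurable (if j % 2 = 0 then s (j / 2) else d' (j / 2)) := by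
    intro j
    split_ifs
    · exact hs _
    · exact hd'm _
  have hU := fun j => gen (if j % 2 = 0 then s (j / 2) else d' (j / 2)) (2 ^ (j / 2 + 3)) (hdm j)
    (by positivity)
  have h4 := (h3 X _ _ hH).2.1 U (fun j => (hU j).1) (fun j => (hU j).2.1) (fun j => (hU j).2.2)
  refine cmp_univ _ ?_ h4
  intro x
  rw [mem_iUnion]
  by_contra hcon
  push Not at hcon
  apply hNI
  refine h1 Γ S hS hS' X hm hLF x ?_ ?_
  · intro k
    have h5 := hcon (2 * k)
    have e1 : 2 * k / 2 = k := by omega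
    have e2 : 2 * k % 2 = 0 := by omega
    simp only [U, e1, e2, if_true] at h5
    rw [mem_ofPred_eq] at h5
    push Not at h5
    obtain ⟨M, hM⟩ := h5
    exact ⟨M, hM⟩
  · intro k
    have h5 := hcon (2 * k + 1)
    have e1 : (2 * k + 1) / 2 = k := by omega
    have e2 : (2 * k + 1) % 2 = 1 := by omega
    simp only [U, e1, e2, one_ne_zero, if_false] at h5
    rw [mem_ofPred_eq] at h5
    push Not at h5
    obtain ⟨M, hM⟩ := h5
    simp only [hd'] at hM
    exact ⟨M, hM⟩

/-- LFG: locally finite groups -/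
theorem t_LFG (h1 : S_MEAS) : S_LFG := by
  intro Γ _ _ _ hfg
  classical
  obtain ⟨S, hS, hS'⟩ := NM.exh Γ
  let mΓ : MeasurableSpace Γ := ⊤
  have hd : DiscreteMeasurableSpace Γ := ⟨fun _ => trivial⟩
  have hst : StandardBorelSpace Γ := inferInstance
  have hLF : LF Γ Γ := by
    intro x
    constructor
    · have : {y | ∃ g : Γ, g • x = y} = univ := by
        rw [eq_univ_iff_forall]
        intro y
        exact ⟨y * x⁻¹, by simp⟩
      rw [this]
      exact infinite_univ
    · intro T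
      exact ((hfg T).image fun g => g • x).subset fun y ⟨g, hg, h⟩ => ⟨g, hg, h⟩
  refine h1 Γ S hS hS' Γ (fun g => measurable_of_countable _) hLF 1 ?_ ?_
  · intro k
    refine ⟨(Subgroup.closure (S k : Set Γ) : Set Γ).ncard, Eventually.of_forall fun n => ?_⟩
    have h2 : {y : Γ | (∃ g ∈ Subgroup.closure (S n : Set Γ), g • (1 : Γ) = y) ∧
        (Subgroup.closure (S k : Set Γ) : Set Γ).ncard <
          {z : Γ | ∃ g ∈ Subgroup.closure (S k : Set Γ), g • y = z}.ncard} = ∅ := by
      rw [eq_empty_iff_forall_notMem]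
      rintro y ⟨-, hy⟩
      refine absurd hy (not_lt.2 ?_)
      have h3 : {z : Γ | ∃ g ∈ Subgroup.closure (S k : Set Γ), g • y = z} =
          (fun g : Γ => g • y) '' (Subgroup.closure (S k : Set Γ) : Set Γ) := rfl
      rw [h3]
      exact Set.ncard_image_le (hfg (S k))
    rw [h2, ncard_empty, mul_zero]
    exact Nat.zero_le _
  · intro k
    obtain ⟨B, hB⟩ := Infinite.exists_subset_card_eq Γ k
    obtain ⟨m, hm⟩ : ∃ m, B ⊆ S m := by
      choose N hN using hS'
      refine ⟨B.sup N, fun g hg => hS (Finset.le_sup (f := N) hg) (hN g)⟩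
    refine ⟨m, Eventually.of_forall fun n => ?_⟩
    have h2 : {y : Γ | (∃ g ∈ Subgroup.closure (S n : Set Γ), g • (1 : Γ) = y) ∧
        {z : Γ | ∃ g ∈ S m, g • y = z}.ncard < k} = ∅ := by
      rw [eq_empty_iff_forall_notMem]
      rintro y ⟨-, hy⟩
      refine absurd hy (not_lt.2 ?_)
      have h3 : {z : Γ | ∃ g ∈ S m, g • y = z} = (fun g : Γ => g • y) '' ((S m : Finset Γ) : Set Γ) :=
        rfl
      have h4 : Function.Injective fun g : Γ => g • y := fun a b h => mul_right_cancel h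
      rw [h3, Set.ncard_image_of_injective _ h4, Set.ncard_coe_finset, ← hB]
      exact Finset.card_le_card hm
    rw [h2, ncard_empty, mul_zero]
    exact Nat.zero_le _

end Pool.Agent.N480.CV
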