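import Pool.Agent.N480.CV.OD5

set_option autoImplicit false

/-!
Project CV, leaf OD (helper247): odometer coordinates of a hyperfinite relation up to a
compressible part.
-/

namespace Pool.Agent.N480.CV
namespace OD

open Set MeasureTheory TopologicalSpace Filter

set_option linter.unusedSectionVars false

variable {X : Type} [MeasurableSpace X]

/-- the conclusion of `S_OD` -/
def Con (X : Type) [MeasurableSpace X] (E : X → X → Prop) : Prop :=
  ∃ U : Set X, MeasurableSet U ∧ Inv E U ∧ Cmp (Res E U) ∧ ∃ π : X → ℕ → Bool, Measurable π ∧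
    ∀ x, x ∉ U → (∀ y, E x y → ∃ n, ∀ k, n ≤ k → π x k = π y k) ∧
      (∀ y, E x y → π x = π y → x = y) ∧
      ∀ k, ∃ y, E x y ∧ π y = Function.update (π x) k (!π x k)

section tower

variable {E : X → X → Prop} {F : ℕ → X → X → Prop} {b : ℕ → ℕ} {lt : ℕ → X → X → Prop}

/-- partial sums -/
def sm (b : ℕ → ℕ) (j : ℕ) : ℕ := ∑ i ∈ Finset.range j, b i

theorem sm_succ (b : ℕ → ℕ) (j : ℕ) : sm b (j + 1) = sm b j + b j := Finset.sum_range_succ b j

theorem sm_mono (b : ℕ → ℕ) {i j : ℕ} (h : i ≤ j) : sm b i ≤ sm b j := by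
  induction j, h using Nat.le_induction with
  | base => exact le_rfl
  | succ j _ ih => rw [sm_succ]; omega

theorem sm_ge (b : ℕ → ℕ) (hb : ∀ j, 1 ≤ b j) (j : ℕ) : j ≤ sm b j := by
  induction j with
  | zero => exact Nat.zero_le _
  | succ j ih => rw [sm_succ]; have := hb j; omega

theorem ex_lev (b : ℕ → ℕ) (hb : ∀ j, 1 ≤ b j) (k : ℕ) : ∃ j, k < sm b (j + 1) :=
  ⟨k, sm_ge b hb (k + 1)⟩

open Classical in
/-- the level of a coordinate -/
noncomputable def lev (b : ℕ → ℕ) (hb : ∀ j, 1 ≤ b j) (k : ℕ) : ℕ := Nat.find (ex_lev b hb k)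

theorem lev_spec (b : ℕ → ℕ) (hb : ∀ j, 1 ≤ b j) (k : ℕ) :
    sm b (lev b hb k) ≤ k ∧ k < sm b (lev b hb k) + b (lev b hb k) := by
  classical
  constructor
  · rcases Nat.eq_zero_or_pos (lev b hb k) with h | h
    · rw [h]; simp [sm]
    · have h1 := Nat.find_min (ex_lev b hb k) (m := lev b hb k - 1)
        (by change lev b hb k - 1 < lev b hb k; omega)
      rw [Nat.sub_add_cancel h] at h1
      exact not_lt.1 h1
  · rw [← sm_succ]
    exact Nat.find_spec (ex_lev b hb k)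

theorem lev_eq (b : ℕ → ℕ) (hb : ∀ j, 1 ≤ b j) (j i : ℕ) (hi : i < b j) :
    lev b hb (sm b j + i) = j := by
  have h := lev_spec b hb (sm b j + i)
  rcases lt_trichotomy (lev b hb (sm b j + i)) j with h1 | h1 | h1
  · have := sm_mono b (Nat.succ_le_of_lt h1)
    rw [Nat.succ_eq_add_one, sm_succ] at this
    omega
  · exact h1
  · have := sm_mono b (Nat.succ_le_of_lt h1)
    rw [Nat.succ_eq_add_one, sm_succ] at this
    omega

theorem le_lev (b : ℕ → ℕ) (hb : ∀ j, 1 ≤ b j) (j k : ℕ) (h : sm b j ≤ k) :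
    j ≤ lev b hb k := by
  by_contra hcon
  have h1 := lev_spec b hb k
  have := sm_mono b (Nat.succ_le_of_lt (not_le.1 hcon))
  rw [Nat.succ_eq_add_one, sm_succ] at this
  omega

/-- the coordinates -/
noncomputable def Tw.pi (hb : ∀ j, 1 ≤ b j) (t : Tw E F (fun j => 2 ^ b j) lt) (x : X) (k : ℕ) :
    Bool :=
  Nat.testBit (t.dg (lev b hb k) (t.pos (lev b hb k) x)) (k - sm b (lev b hb k))

theorem Tw.pi_meas (hb : ∀ j, 1 ≤ b j) (t : Tw E F (fun j => 2 ^ b j) lt) :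
    Measurable (t.pi hb) := by
  rw [measurable_pi_iff]
  intro k
  exact (measurable_of_countable fun n : ℕ => Nat.testBit n (k - sm b (lev b hb k))).comp
    ((t.grp (lev b hb k)).mdg.comp (t.pos_meas (lev b hb k)))

theorem Tw.pi_ev (hb : ∀ j, 1 ≤ b j) (t : Tw E F (fun j => 2 ^ b j) lt) {x y : X} {J : ℕ}
    (h : t.pos J x = t.pos J y) (k : ℕ) (hk : sm b J ≤ k) : t.pi hb x k = t.pi hb y k := by
  unfold Tw.pi
  rw [t.pos_eq_of_le h (le_lev b hb J k hk)]

theorem Tw.dg_eq (hb : ∀ j, 1 ≤ b j) (t : Tw E F (fun j => 2 ^ b j) lt) {x y : X}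
    (h : t.pi hb x = t.pi hb y) (j : ℕ) : t.dg j (t.pos j x) = t.dg j (t.pos j y) := by
  apply Nat.eq_of_testBit_eq
  intro i
  by_cases hi : i < b j
  · have h1 := congrFun h (sm b j + i)
    unfold Tw.pi at h1
    rw [lev_eq b hb j i hi, Nat.add_sub_cancel_left] at h1
    exact h1
  · have h2 : 2 ^ b j ≤ 2 ^ i := Nat.pow_le_pow_right (by norm_num) (not_lt.1 hi)
    rw [Nat.testBit_lt_two_pow (lt_of_lt_of_le ((t.grp j).dN _) h2),
      Nat.testBit_lt_two_pow (lt_of_lt_of_le ((t.grp j).dN _) h2)]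

theorem Tw.pi_flip (hb : ∀ j, 1 ≤ b j) (t : Tw E F (fun j => 2 ^ b j) lt) (hF : HF E F) {x : X}
    (hx : x ∈ t.Y) (k : ℕ) :
    ∃ y, E x y ∧ t.pi hb y = Function.update (t.pi hb x) k (!t.pi hb x k) := by
  classical
  set j := lev b hb k with hj
  obtain ⟨hk1, hk2⟩ := lev_spec b hb k
  rw [← hj] at hk1 hk2
  set i := k - sm b j with hi
  have hib : i < b j := by omega
  have huD := t.pos_mem hF hx j
  have huZ : t.pos j x ∉ t.Z j := hx j _ (t.E_pos hF j x)
  obtain ⟨v, hv1, hv2, hv3, hv4⟩ := (t.grp j).g3 (t.pos j x) huD huZ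
    (t.dg j (t.pos j x) ^^^ 2 ^ i) (Nat.xor_lt_two_pow ((t.grp j).dN _)
      (Nat.pow_lt_pow_right (by norm_num) hib))
  have hE := hf_eqv hF
  have hxv : E x v := by
    refine hE.trans (t.E_pos hF (j + 1) x) ?_
    rw [t.pos_succ, ← hv3]
    exact hE.symm ((t.grp j).eb v)
  have hvY : v ∈ t.Y := t.Y_inv hF hxv hx
  obtain ⟨y, hy1, hy2⟩ := t.surj hF j v hvY hv1 (fun l => t.dg l (t.pos l x))
    (fun l _ => (t.grp l).dN _)
  refine ⟨y, ?_, ?_⟩
  · exact hE.trans hxv (hy1 ▸ hE.symm (t.E_pos hF j y))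
  · funext m
    by_cases hm : m = k
    · subst hm
      rw [Function.update_self]
      unfold Tw.pi
      rw [← hj, hy1, hv4, Nat.testBit_xor, Nat.testBit_two_pow, ← hi]
      simp
    · rw [Function.update_of_ne hm]
      rcases lt_trichotomy (lev b hb m) j with h | h | h
      · unfold Tw.pi
        rw [hy2 _ h]
      · unfold Tw.pi
        rw [h, hy1, hv4, Nat.testBit_xor, Nat.testBit_two_pow]
        have h5 := lev_spec b hb m
        rw [h] at h5
        have h6 : i ≠ m - sm b j := by omega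
        simp [h6]
      · have h7 : t.pos (j + 1) y = t.pos (j + 1) x := by
          rw [t.pos_succ, t.pos_succ, hy1, hv3]
        unfold Tw.pi
        rw [t.pos_eq_of_le h7 h]

end tower

/-- the uniform case -/
theorem con_unif (h2 : S_CC) (h3 : S_BAS) [StandardBorelSpace X] {E : X → X → Prop}
    {F : ℕ → X → X → Prop} (hF : HF E F) (ha : Ape E) (b C L : ℕ → ℕ)
    (hb : ∀ j, 1 ≤ b j) (hC : ∀ j y, {z | F j y z}.ncard ≤ C j)
    (hL : ∀ j y, L j ≤ {z | F (j + 1) y z}.ncard) (hL0 : ∀ j, 0 < L j)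
    (h5 : ∀ j, 4 * 2 ^ (j + 1) * C j ≤ 2 ^ b j)
    (h6 : ∀ j, 4 * 2 ^ (j + 1) * C j * MM (fun j => 2 ^ b j) j * 2 ^ b j ≤ L j) : Con X E := by
  classical
  obtain ⟨s, hs⟩ := hf_enm hF
  have hE := hf_eqv hF
  obtain ⟨lt, ho⟩ := exists_ord hF
  obtain ⟨t⟩ := exists_tw hF ho (fun j => 2 ^ b j) (fun j => by positivity)
  obtain ⟨U1, hU1m, hU1i, hU1c, h, hh, hh1, hh2⟩ := h2 X E F hF ha t.A (t.A_meas hF) (by
    intro j x
    have h7 : ∀ᶠ n in atTop, ∀ i ∈ Finset.range (j + 1),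
        2 ^ (i + 1) * {y | y ∈ t.A i ∧ F n x y}.ncard ≤ {y | F n x y}.ncard := by
      rw [Filter.eventually_all_finset]
      intro i _
      exact t.dens hF ho ha i (C i) (L i) (hC i) (hL i) (by positivity) (hL0 i) (2 ^ (i + 1))
        (h5 i) (h6 i) x
    refine Eventually.frequently (h7.mono fun n hn => ?_)
    have h8 := sum_arith (fun i => {y | y ∈ t.A i ∧ F n x y}.ncard) {y | F n x y}.ncard (j + 1)
      (fun i hi => hn i (Finset.mem_range.2 hi))
    exact Nat.le_of_mul_le_mul_left ((Nat.le_add_right _ _).trans h8) (by positivity))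
  obtain ⟨hLm, hWc⟩ := cmp_limsup h3 hF t.A (t.A_meas hF) U1 hU1m h hh hh1 hh2
  set Ls : Set X := {x | x ∉ U1 ∧ ∃ᶠ i in atTop, x ∈ t.A i} with hLs
  let V : ℕ → Set X := fun n => match n with
    | 0 => U1
    | 1 => sat E Ls
    | m + 2 => sat E (t.Z m)
  have hVm : ∀ n, MeasurableSet (V n) := fun n => match n with
    | 0 => hU1m
    | 1 => sat_meas hs hLm
    | m + 2 => sat_meas hs (t.grp m).mZ
  have hVi : ∀ n, Inv E (V n) := fun n => match n with
    | 0 => hU1i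
    | 1 => sat_inv hE _
    | m + 2 => sat_inv hE _
  have hVc : ∀ n, Cmp (Res E (V n)) := fun n => match n with
    | 0 => hU1c
    | 1 => hWc
    | m + 2 => cmp_sat_fin h3 hF ha (t.grp m).mZ (t.grp m).g4
  refine ⟨⋃ n, V n, MeasurableSet.iUnion hVm, ?_, (h3 X E F hF).2.1 V hVm hVi hVc, t.pi hb,
    t.pi_meas hb, ?_⟩
  · intro x y hxy hx
    rw [mem_iUnion] at hx ⊢
    obtain ⟨n, hn⟩ := hx
    exact ⟨n, hVi n x y hxy hn⟩
  · intro x hx
    rw [mem_iUnion, not_exists] at hx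
    have hxY : x ∈ t.Y := by
      rw [t.Y_eq, mem_compl_iff, mem_iUnion, not_exists]
      exact fun m => hx (m + 2)
    have hnA : ∀ y, E x y → ¬ ∃ᶠ i in atTop, y ∈ t.A i := by
      intro y hxy hfr
      have h0 : y ∉ U1 := fun h0 => hx 0 (hU1i y x (hE.symm hxy) h0)
      exact hx 1 ⟨y, hxy, h0, hfr⟩
    have hev : ∀ y, E x y → ∃ J, t.pos J x = t.pos J y := fun y hxy =>
      t.eventually_eq hF hxy hxY (hnA x (hE.refl x)) (hnA y hxy)
    refine ⟨fun y hxy => ?_, fun y hxy hpi => ?_, fun k => t.pi_flip hb hF hxY k⟩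
    · obtain ⟨J, hJ⟩ := hev y hxy
      exact ⟨sm b J, fun k hk => t.pi_ev hb hJ k hk⟩
    · obtain ⟨J, hJ⟩ := hev y hxy
      exact t.inj hF hxY (t.Y_inv hF hxy hxY) J hJ fun i _ => t.dg_eq hb hpi i

/-- adding a compressible invariant set -/
theorem con_of_compl (h3 : S_BAS) [StandardBorelSpace X] {E : X → X → Prop}
    {F : ℕ → X → X → Prop} (hF : HF E F) (U : Set X) (hU : MeasurableSet U) (hUi : Inv E U)
    (hUc : Cmp (Res E U)) (h : Con (Uᶜ : Set X) (Res E Uᶜ)) : Con X E := by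
  classical
  have hE := hf_eqv hF
  obtain ⟨U', hU'm, hU'i, hU'c, π, hπm, hπ⟩ := h
  set W : Set X := Subtype.val '' U' with hW
  have hWm : MeasurableSet W :=
    (MeasurableEmbedding.subtype_coe hU.compl).measurableSet_image.2 hU'm
  have hUci : ∀ x y, E x y → x ∉ U → y ∉ U := fun x y hxy hx hy => hx (hUi y x (hE.symm hxy) hy)
  have hWi : Inv E W := by
    rintro x y hxy ⟨a, ha, rfl⟩
    exact ⟨⟨y, hUci _ y hxy a.2⟩, hU'i a ⟨y, hUci _ y hxy a.2⟩ hxy ha, rfl⟩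
  have hWc : Cmp (Res E W) := by
    obtain ⟨st, hst1, hst2, hst3⟩ := hU'c
    have hWU : ∀ a : W, ∃ h : (a : X) ∉ U, (⟨a, h⟩ : (Uᶜ : Set X)) ∈ U' := by
      rintro ⟨_, c, hc, rfl⟩
      exact ⟨c.2, hc⟩
    let ι : W → U' := fun a => ⟨⟨a.1, (hWU a).1⟩, (hWU a).2⟩
    have hιm : Measurable ι := (measurable_subtype_coe.subtype_mk).subtype_mk
    let κ : U' → W := fun c => ⟨c.1.1, c.1, c.2, rfl⟩
    have hκm : Measurable κ := (measurable_subtype_coe.comp measurable_subtype_coe).subtype_mk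
    have hκi : ∀ c c' : U', κ c = κ c' → c = c' := by
      intro c c' hcc
      exact Subtype.ext (Subtype.ext (congrArg (fun a : W => (a : X)) hcc))
    have hιi : ∀ a a' : W, ι a = ι a' → a = a' := by
      intro a a' haa
      apply Subtype.ext
      exact congrArg (fun c : U' => c.1.1) haa
    refine ⟨fun a n => κ (st (ι a) n), fun n => hκm.comp ((hst1 n).comp hιm),
      fun a n => hst2 (ι a) n, fun a a' n n' haa => ?_⟩
    obtain ⟨h1, h2⟩ := hst3 _ _ _ _ (hκi _ _ haa)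
    exact ⟨hιi _ _ h1, h2⟩
  let V : ℕ → Set X := fun n => match n with
    | 0 => U
    | _ + 1 => W
  have hVm : ∀ n, MeasurableSet (V n) := fun n => match n with
    | 0 => hU
    | _ + 1 => hWm
  have hVi : ∀ n, Inv E (V n) := fun n => match n with
    | 0 => hUi
    | _ + 1 => hWi
  have hVc : ∀ n, Cmp (Res E (V n)) := fun n => match n with
    | 0 => hUc
    | _ + 1 => hWc
  let ρ : X → ℕ → Bool := fun x => if hx : x ∈ U then (fun _ => false) else π ⟨x, hx⟩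
  have hρ : ∀ (x : X) (hx : x ∉ U), ρ x = π ⟨x, hx⟩ := fun x hx => dif_neg hx
  refine ⟨⋃ n, V n, MeasurableSet.iUnion hVm, ?_, (h3 X E F hF).2.1 V hVm hVi hVc, ρ, ?_, ?_⟩
  · intro x y hxy hx
    rw [mem_iUnion] at hx ⊢
    obtain ⟨n, hn⟩ := hx
    exact ⟨n, hVi n x y hxy hn⟩
  · exact Measurable.dite (s := U) (f := fun _ => fun _ => false) measurable_const hπm hU
  · intro x hx
    rw [mem_iUnion, not_exists] at hx
    have hxU : x ∉ U := hx 0
    have hxW : (⟨x, hxU⟩ : (Uᶜ : Set X)) ∉ U' := fun h1 => hx 1 ⟨⟨x, hxU⟩, h1, rfl⟩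
    obtain ⟨e1, e2, e3⟩ := hπ ⟨x, hxU⟩ hxW
    refine ⟨fun y hxy => ?_, fun y hxy hpi => ?_, fun k => ?_⟩
    · rw [hρ x hxU, hρ y (hUci x y hxy hxU)]
      exact e1 ⟨y, hUci x y hxy hxU⟩ hxy
    · rw [hρ x hxU, hρ y (hUci x y hxy hxU)] at hpi
      exact congrArg Subtype.val (e2 ⟨y, hUci x y hxy hxU⟩ hxy hpi)
    · obtain ⟨y, hy1, hy2⟩ := e3 k
      refine ⟨y.1, hy1, ?_⟩
      rw [hρ x hxU, hρ y.1 y.2]
      exact hy2

theorem MM_two (b : ℕ → ℕ) (j : ℕ) : MM (fun j => 2 ^ b j) j = 2 ^ sm b j := by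
  unfold MM sm
  rw [Finset.prod_pow_eq_pow_sum]

end OD

open Set MeasureTheory TopologicalSpace Filter

open OD in
theorem t_OD (h1 : S_UF) (h2 : S_CC) (h3 : S_BAS) : S_OD := by
  classical
  intro X _ _ E F hF ha
  obtain ⟨U, hU, hUi, hUc, L, C, hLC, F', hF', hF'2⟩ := h1 X E F hF ha
    (fun j c => 2 ^ (j + 3) * (c + 1) * 2 ^ ((j + 1) * (j + 3 + c)))
  apply con_of_compl h3 hF U hU hUi hUc
  have hE := hf_eqv hF
  have : StandardBorelSpace (Uᶜ : Set X) := hU.compl.standardBorel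
  have hUci : Inv E Uᶜ := fun x y hxy hx hy => hx (hUi y x (hE.symm hxy) hy)
  -- the minimal bounds
  set C' : ℕ → ℕ := fun j => sInf (C '' Ici j) with hC'
  have hC'w : ∀ j, ∃ i, j ≤ i ∧ C i = C' j := by
    intro j
    have : C' j ∈ C '' Ici j := Nat.sInf_mem ⟨C j, j, le_refl j, rfl⟩
    obtain ⟨i, hi, h⟩ := this
    exact ⟨i, hi, h⟩
  have hC'le : ∀ i j, j ≤ i → C' j ≤ C i := fun i j hij => Nat.sInf_le ⟨i, hij, rfl⟩
  have hC'm : ∀ i j, i ≤ j → C' i ≤ C' j := by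
    intro i j hij
    obtain ⟨k, hk, hk2⟩ := hC'w j
    rw [← hk2]
    exact hC'le k i (hij.trans hk)
  set b : ℕ → ℕ := fun j => j + 3 + C' j with hb
  have hsm : ∀ j, sm b (j + 1) ≤ (j + 1) * (j + 3 + C' j) := by
    intro j
    unfold sm
    calc ∑ i ∈ Finset.range (j + 1), b i ≤ ∑ i ∈ Finset.range (j + 1), (j + 3 + C' j) := by
          refine Finset.sum_le_sum fun i hi => ?_
          rw [Finset.mem_range] at hi
          have := hC'm i j (by omega)
          simp only [hb]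
          omega
      _ = (j + 1) * (j + 3 + C' j) := by simp
  have hψ : ∀ j, 2 ^ (j + 3) * (C' j + 1) * 2 ^ ((j + 1) * (j + 3 + C' j)) ≤ L (j + 1) := by
    intro j
    refine le_trans ?_ (hLC j)
    have := hC'le j j le_rfl
    gcongr
    norm_num
  refine con_unif h2 h3 hF' (ape_res ha hUci) b C' (fun j => L (j + 1)) (fun j => ?_)
    (fun j y => ?_) (fun j y => (hF'2 (j + 1) y).1) (fun j => ?_) (fun j => ?_) (fun j => ?_)
  · simp only [hb]; omega
  · obtain ⟨i, hi, hi2⟩ := hC'w j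
    rw [← hi2]
    refine le_trans (Set.ncard_le_ncard ?_ (hF'.fin i y)) (hF'2 i y).2
    intro z hz
    exact hf_le hF' hi hz
  · exact lt_of_lt_of_le (by positivity) (hψ j)
  · have h4 : C' j ≤ 2 ^ C' j := Nat.lt_two_pow_self.le
    calc 4 * 2 ^ (j + 1) * C' j = 2 ^ (j + 3) * C' j := by ring
      _ ≤ 2 ^ (j + 3) * 2 ^ C' j := by gcongr
      _ = 2 ^ b j := by rw [← pow_add]
  · rw [MM_two]
    calc 4 * 2 ^ (j + 1) * C' j * 2 ^ sm b j * 2 ^ b j
        = 2 ^ (j + 3) * C' j * 2 ^ sm b (j + 1) := by rw [sm_succ, pow_add]; ring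
      _ ≤ 2 ^ (j + 3) * (C' j + 1) * 2 ^ ((j + 1) * (j + 3 + C' j)) := by
          have := hsm j
          gcongr
          · omega
          · norm_num
      _ ≤ L (j + 1) := hψ j

end Pool.Agent.N480.CV
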