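import Mathlib
import Pool.Agent.N480.CV.Stm2
import Pool.Agent.N480.CV.COL
import Pool.Agent.H139R3.FM

/-!
Project CV (helper480), part UF: finite relations with uniformly bounded and rapidly growing
classes.
-/

set_option autoImplicit false

namespace Pool.Agent.N480.CV

open Set MeasureTheory TopologicalSpace Filter

namespace UF

/-! ### Positions -/

/-- the finite relations, preceded by equality -/
def G {X : Type} (F : ℕ → X → X → Prop) : ℕ → X → X → Prop
  | 0 => fun x y => x = y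
  | n + 1 => F n

/-- an increasing sequence of finite equivalence relations and an injection into the reals -/
structure Sq {X : Type} (F : ℕ → X → X → Prop) (r : X → ℝ) : Prop where
  eqv : ∀ n, Equivalence (G F n)
  fin : ∀ n x, {y | G F n x y}.Finite
  mono : ∀ n x y, G F n x y → G F (n + 1) x y
  inj : Function.Injective r

section pos

variable {X : Type} {F : ℕ → X → X → Prop} {r : X → ℝ}

/-- the least value of `r` on the class -/
noncomputable def mm (F : ℕ → X → X → Prop) (r : X → ℝ) (n : ℕ) (x : X) : ℝ :=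
  sInf (r '' {y | G F n x y})

theorem mm_att (h : Sq F r) (n : ℕ) (x : X) : ∃ y, G F n x y ∧ r y = mm F r n x := by
  have h1 : (r '' {y | G F n x y}).Nonempty := ⟨r x, x, (h.eqv n).refl x, rfl⟩
  have h2 := h1.csInf_mem ((h.fin n x).image r)
  obtain ⟨y, hy, hy2⟩ := h2
  exact ⟨y, hy, hy2⟩

theorem mm_eq (h : Sq F r) {n : ℕ} {x y : X} : mm F r n x = mm F r n y ↔ G F n x y := by
  constructor
  · intro he
    obtain ⟨a, ha, ha2⟩ := mm_att h n x
    obtain ⟨b, hb, hb2⟩ := mm_att h n y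
    have : a = b := h.inj (by rw [ha2, hb2, he])
    subst this
    exact (h.eqv n).trans ha ((h.eqv n).symm hb)
  · intro hG
    unfold mm
    congr 2
    ext z
    exact ⟨fun hz => (h.eqv n).trans ((h.eqv n).symm hG) hz, fun hz => (h.eqv n).trans hG hz⟩

theorem mono_le (h : Sq F r) {n m : ℕ} (hnm : n ≤ m) {x y : X} (hG : G F n x y) : G F m x y := by
  induction m, hnm using Nat.le_induction with
  | base => exact hG
  | succ m _ ih => exact h.mono m x y ih

/-- the points of the next class in earlier cells -/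
def Q (F : ℕ → X → X → Prop) (r : X → ℝ) (n : ℕ) (x : X) : Set X :=
  {y | F n x y ∧ mm F r n y < mm F r n x}

theorem Q_fin (h : Sq F r) (n : ℕ) (x : X) : (Q F r n x).Finite :=
  (h.fin (n + 1) x).subset fun _ hy => hy.1

theorem Q_eq (h : Sq F r) {n : ℕ} {x y : X} (hG : G F n x y) : Q F r n x = Q F r n y := by
  have h1 : mm F r n x = mm F r n y := (mm_eq h).2 hG
  have h2 : F n x y := h.mono n x y hG
  have h3 : Equivalence (F n) := h.eqv (n + 1)
  ext z
  unfold Q
  show (F n x z ∧ mm F r n z < mm F r n x) ↔ (F n y z ∧ mm F r n z < mm F r n y)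
  rw [h1]
  exact ⟨fun hz => ⟨h3.trans (h3.symm h2) hz.1, hz.2⟩, fun hz => ⟨h3.trans h2 hz.1, hz.2⟩⟩

/-- the position of a point in its class -/
noncomputable def dl (F : ℕ → X → X → Prop) (r : X → ℝ) : ℕ → X → ℕ
  | 0 => fun _ => 0
  | n + 1 => fun x => dl F r n x + (Q F r n x).ncard

theorem dl_succ (n : ℕ) (x : X) : dl F r (n + 1) x = dl F r n x + (Q F r n x).ncard := rfl

/-- the size of a class -/
noncomputable def sz (F : ℕ → X → X → Prop) (n : ℕ) (x : X) : ℕ := {y | G F n x y}.ncard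

theorem sz_eq (h : Sq F r) {n : ℕ} {x y : X} (hG : G F n x y) : sz F n x = sz F n y := by
  unfold sz
  congr 1
  ext z
  exact ⟨fun hz => (h.eqv n).trans ((h.eqv n).symm hG) hz, fun hz => (h.eqv n).trans hG hz⟩

theorem sz_add (h : Sq F r) (n : ℕ) (x : X) (S : Set X) (hS : S.Finite)
    (hx : {y | G F n x y} ⊆ S) (hQ : Q F r n x ⊆ S) :
    sz F n x + (Q F r n x).ncard ≤ S.ncard := by
  unfold sz
  rw [← ncard_union_eq _ (h.fin n x) (Q_fin h n x)]
  · exact ncard_le_ncard (union_subset hx hQ) hS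
  · rw [Set.disjoint_left]
    intro y hy hy2
    have h1 : mm F r n x = mm F r n y := (mm_eq h).2 hy
    exact absurd hy2.2 (by rw [h1]; exact lt_irrefl _)

theorem dl_lt (h : Sq F r) (n : ℕ) (x : X) : dl F r n x < sz F n x := by
  induction n generalizing x with
  | zero =>
    have : {y | G F 0 x y} = {x} := by
      ext y
      exact ⟨fun hy => (Eq.symm hy), fun hy => Eq.symm hy⟩
    unfold sz
    rw [this, ncard_singleton]
    exact Nat.one_pos
  | succ n ih =>
    have h1 := sz_add h n x {y | G F (n + 1) x y} (h.fin (n + 1) x)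
      (fun y hy => h.mono n x y hy) (fun y hy => hy.1)
    have h2 := ih x
    rw [dl_succ]
    unfold sz at h1 h2 ⊢
    omega

theorem dl_lt_of (h : Sq F r) {n : ℕ} {x y : X} (hG : F n x y) (hm : mm F r n x < mm F r n y) :
    dl F r (n + 1) x < dl F r (n + 1) y := by
  have h3 : Equivalence (F n) := h.eqv (n + 1)
  have h1 := sz_add h n x (Q F r n y) (Q_fin h n y)
    (fun z hz => ⟨h3.trans (h3.symm hG) (h.mono n x z hz), by
      rw [← (mm_eq h).2 hz]; exact hm⟩)
    (fun z hz => ⟨h3.trans (h3.symm hG) hz.1, hz.2.trans hm⟩)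
  have h2 := dl_lt h n x
  rw [dl_succ, dl_succ]
  omega

theorem dl_inj (h : Sq F r) (n : ℕ) {x y : X} (hG : G F n x y) (he : dl F r n x = dl F r n y) :
    x = y := by
  induction n generalizing x y with
  | zero => exact hG
  | succ n ih =>
    rcases lt_trichotomy (mm F r n x) (mm F r n y) with h1 | h1 | h1
    · exact absurd he (dl_lt_of h hG h1).ne
    · have h2 := (mm_eq h).1 h1
      rw [dl_succ, dl_succ, Q_eq h h2] at he
      exact ih h2 (by omega)
    · exact absurd he (dl_lt_of h ((h.eqv (n + 1)).symm hG) h1).ne'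

theorem dl_surj (h : Sq F r) (n : ℕ) (x : X) (i : ℕ) (hi : i < sz F n x) :
    ∃ y, G F n x y ∧ dl F r n y = i := by
  have key := surj_on_of_inj_on_of_ncard_le (s := {y | G F n x y}) (t := Set.Iio (sz F n x))
    (fun y _ => dl F r n y) (fun y hy => by
      have := dl_lt h n y
      rw [← sz_eq h hy] at this
      exact this)
    (fun a b ha hb hab => dl_inj h n ((h.eqv n).trans ((h.eqv n).symm ha) hb) hab)
    (by
      have : (Set.Iio (sz F n x)).ncard = sz F n x := by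
        rw [Set.ncard_eq_toFinset_card']; simp
      rw [this]; rfl)
    (Set.finite_Iio _)
  obtain ⟨y, hy, he⟩ := key i hi
  exact ⟨y, hy, he.symm⟩

theorem dl_level (h : Sq F r) {n m : ℕ} (hnm : n ≤ m) {x y : X} (hG : G F n x y) :
    (dl F r m y : ℤ) - dl F r m x = dl F r n y - dl F r n x := by
  induction m, hnm using Nat.le_induction with
  | base => rfl
  | succ m hm ih =>
    rw [dl_succ, dl_succ, Q_eq h (mono_le h hm hG)]
    push_cast
    linarith

/-- `y` is `k` places after `x` -/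
def D (F : ℕ → X → X → Prop) (r : X → ℝ) (k : ℤ) (x y : X) : Prop :=
  ∃ n, G F n x y ∧ (dl F r n y : ℤ) - dl F r n x = k

theorem D_lift (h : Sq F r) {k : ℤ} {x y : X} (hD : D F r k x y) :
    ∃ N, ∀ n, N ≤ n → G F n x y ∧ (dl F r n y : ℤ) - dl F r n x = k := by
  obtain ⟨N, hN, hk⟩ := hD
  exact ⟨N, fun n hn => ⟨mono_le h hn hN, by rw [dl_level h hn hN, hk]⟩⟩

theorem D_add (h : Sq F r) {k l : ℤ} {x y z : X} (h1 : D F r k x y) (h2 : D F r l y z) :
    D F r (l + k) x z := by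
  obtain ⟨N, hN⟩ := D_lift h h1
  obtain ⟨M, hM⟩ := D_lift h h2
  obtain ⟨a1, a2⟩ := hN (max N M) (le_max_left _ _)
  obtain ⟨b1, b2⟩ := hM (max N M) (le_max_right _ _)
  exact ⟨max N M, (h.eqv _).trans a1 b1, by omega⟩

theorem D_symm (h : Sq F r) {k : ℤ} {x y : X} (h1 : D F r k x y) : D F r (-k) y x := by
  obtain ⟨n, hn, hk⟩ := h1
  exact ⟨n, (h.eqv n).symm hn, by omega⟩

theorem D_refl (x : X) : D F r 0 x x := ⟨0, rfl, by omega⟩

theorem D_zero (h : Sq F r) {x y : X} (h1 : D F r 0 x y) : x = y := by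
  obtain ⟨n, hn, hk⟩ := h1
  exact dl_inj h n hn (by omega)

theorem D_uniq (h : Sq F r) {k : ℤ} {x y z : X} (h1 : D F r k x y) (h2 : D F r k x z) : y = z := by
  have := D_add h (D_symm h h1) h2
  rw [add_neg_cancel] at this
  exact D_zero h this

theorem D_val (h : Sq F r) {k l : ℤ} {x y : X} (h1 : D F r k x y) (h2 : D F r l x y) : k = l := by
  obtain ⟨N, hN⟩ := D_lift h h1
  obtain ⟨M, hM⟩ := D_lift h h2
  have a2 := (hN (max N M) (le_max_left _ _)).2
  have b2 := (hM (max N M) (le_max_right _ _)).2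
  omega

/-- a first point -/
def Fst (F : ℕ → X → X → Prop) (r : X → ℝ) (x : X) : Prop := ∀ n, dl F r n x = 0

/-- a last point -/
def Lst (F : ℕ → X → X → Prop) (r : X → ℝ) (x : X) : Prop := ∀ n, dl F r n x + 1 = sz F n x

theorem D_one (h : Sq F r) (x : X) (hx : ¬ Lst F r x) : ∃ y, D F r 1 x y := by
  unfold Lst at hx
  push Not at hx
  obtain ⟨n, hn⟩ := hx
  have := dl_lt h n x
  obtain ⟨y, hy, hy2⟩ := dl_surj h n x (dl F r n x + 1) (by omega)
  exact ⟨y, n, hy, by rw [hy2]; push_cast; ring⟩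

theorem D_neg_one (h : Sq F r) (x : X) (hx : ¬ Fst F r x) : ∃ y, D F r (-1) x y := by
  unfold Fst at hx
  push Not at hx
  obtain ⟨n, hn⟩ := hx
  have := dl_lt h n x
  obtain ⟨y, hy, hy2⟩ := dl_surj h n x (dl F r n x - 1) (by omega)
  exact ⟨y, n, hy, by rw [hy2]; omega⟩

end pos

/-! ### Actions of the integers on a part of the space -/

/-- `sh` is a free Borel action of `ℤ` on `V` -/
structure Act {X : Type} [MeasurableSpace X] (V : Set X) (sh : ℤ → X → X) : Prop where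
  vm : MeasurableSet V
  meas : ∀ k, Measurable (sh k)
  mem : ∀ k, ∀ x ∈ V, sh k x ∈ V
  zero : ∀ x ∈ V, sh 0 x = x
  add : ∀ k l, ∀ x ∈ V, sh (k + l) x = sh k (sh l x)
  free : ∀ k, ∀ x ∈ V, sh k x = x → k = 0

/-- markers with distances between `L` and `C` -/
structure Mk {X : Type} [MeasurableSpace X] (V : Set X) (sh : ℤ → X → X) (P : Set X)
    (L C : ℕ) : Prop where
  pm : MeasurableSet P
  sub : P ⊆ V
  g1 : ∀ p ∈ P, ∀ n : ℕ, 0 < n → sh n p ∈ P → L ≤ n
  g2 : ∀ x ∈ V, ∃ n : ℕ, 0 < n ∧ n ≤ C ∧ sh n x ∈ P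
  g3 : ∀ x ∈ V, ∃ n : ℕ, 0 < n ∧ n ≤ C ∧ sh (-(n : ℤ)) x ∈ P

theorem glue {X Y ι : Type} [MeasurableSpace X] [MeasurableSpace Y] [Countable ι] (f : X → Y)
    (A : ι → Set X) (hA : ∀ n, MeasurableSet (A n)) (fn : ι → X → Y)
    (hfn : ∀ n, Measurable (fn n)) (hc : ∀ x, ∃ n, x ∈ A n) (he : ∀ n, ∀ x ∈ A n, f x = fn n x) :
    Measurable f := by
  intro B hB
  have : f ⁻¹' B = ⋃ n, A n ∩ fn n ⁻¹' B := by
    ext x
    simp only [mem_preimage, mem_iUnion, mem_inter_iff]
    constructor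
    · intro hx
      obtain ⟨n, hn⟩ := hc x
      exact ⟨n, hn, by rw [← he n x hn]; exact hx⟩
    · rintro ⟨n, hn, hx⟩
      rw [he n x hn]; exact hx
  rw [this]
  exact MeasurableSet.iUnion fun n => (hA n).inter (hfn n hB)

section act

variable {X : Type} [MeasurableSpace X] {V : Set X} {sh : ℤ → X → X}

theorem Act.rev (h : Act V sh) : Act V (fun k => sh (-k)) where
  vm := h.vm
  meas k := h.meas _
  mem k := h.mem _
  zero x hx := by rw [neg_zero]; exact h.zero x hx
  add k l x hx := by rw [neg_add]; exact h.add _ _ x hx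
  free k x hx he := by
    have := h.free _ x hx he
    omega

/-- the next point -/
theorem exists_next (h : Act V sh) {P : Set X} {C : ℕ} (hP : MeasurableSet P) (hPV : P ⊆ V)
    (g2 : ∀ x ∈ V, ∃ n : ℕ, 0 < n ∧ n ≤ C ∧ sh n x ∈ P) :
    ∃ S : X → X, Measurable S ∧ (∀ x, x ∉ P → S x = x) ∧ ∀ x ∈ P, ∃ g : ℕ, 0 < g ∧ g ≤ C ∧
      S x = sh g x ∧ S x ∈ P ∧ ∀ i : ℕ, 0 < i → i < g → sh i x ∉ P := by
  classical
  have hex : ∀ x, ∃ y, (x ∉ P → y = x) ∧ (x ∈ P → ∃ g : ℕ, 0 < g ∧ g ≤ C ∧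
      y = sh g x ∧ y ∈ P ∧ ∀ i : ℕ, 0 < i → i < g → sh i x ∉ P) := by
    intro x
    by_cases hx : x ∈ P
    · have h1 : ∃ n : ℕ, 0 < n ∧ sh n x ∈ P := by
        obtain ⟨n, a, -, b⟩ := g2 x (hPV hx)
        exact ⟨n, a, b⟩
      refine ⟨sh (Nat.find h1) x, fun hn => absurd hx hn, fun _ => ⟨Nat.find h1,
        (Nat.find_spec h1).1, ?_, rfl, (Nat.find_spec h1).2, fun i hi hi2 hi3 =>
        Nat.find_min h1 hi2 ⟨hi, hi3⟩⟩⟩
      obtain ⟨n, a, b, c⟩ := g2 x (hPV hx)
      exact (Nat.find_min' h1 ⟨a, c⟩).trans b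
    · exact ⟨x, fun _ => rfl, fun hx' => absurd hx' hx⟩
  choose S hS1 hS2 using hex
  refine ⟨S, ?_, hS1, hS2⟩
  refine glue (ι := Option ℕ) S (fun o => o.elim Pᶜ (fun n => {x | x ∈ P ∧ 0 < n ∧ sh n x ∈ P ∧
    ∀ i : ℕ, 0 < i → i < n → sh i x ∉ P})) ?_ (fun o => o.elim id (fun n => sh n)) ?_ ?_ ?_
  · rintro (_ | n)
    · exact hP.compl
    · show MeasurableSet {x | x ∈ P ∧ 0 < n ∧ sh n x ∈ P ∧ ∀ i : ℕ, 0 < i → i < n → sh i x ∉ P}
      have m1 : ∀ i : ℕ, MeasurableSet {x | sh i x ∈ P} := fun i => h.meas i hP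
      have m2 : MeasurableSet {x : X | ∀ i : ℕ, 0 < i → i < n → sh i x ∉ P} := by
        have : {x : X | ∀ i : ℕ, 0 < i → i < n → sh i x ∉ P} =
            ⋂ i : ℕ, ⋂ _ : 0 < i, ⋂ _ : i < n, {x | sh i x ∈ P}ᶜ := by
          ext x
          simp only [mem_iInter]
          rfl
        rw [this]
        exact MeasurableSet.iInter fun i => MeasurableSet.iInter fun _ =>
          MeasurableSet.iInter fun _ => (m1 i).compl
      exact hP.inter ((MeasurableSet.const _).inter ((m1 n).inter m2))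
  · rintro (_ | n)
    · exact measurable_id
    · exact h.meas n
  · intro x
    by_cases hx : x ∈ P
    · obtain ⟨g, a, -, b, c, d⟩ := hS2 x hx
      exact ⟨some g, hx, a, by rw [← b]; exact c, d⟩
    · exact ⟨none, hx⟩
  · rintro (_ | n) x hx
    · exact hS1 x hx
    · obtain ⟨hx1, hx2, hx3, hx4⟩ := hx
      obtain ⟨g, a, -, b, c, d⟩ := hS2 x hx1
      have : g = n := by
        rcases lt_trichotomy g n with h1 | h1 | h1
        · rw [b] at c
          exact absurd c (hx4 g a h1)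
        · exact h1
        · exact absurd hx3 (d n hx2 h1)
      rw [← this]
      exact b

theorem color_dec : ∀ a b c d e f : Fin 3, b ≠ a → c ≠ b → d ≠ c → e ≠ d → f ≠ e →
    (b < c ∧ b < a) ∨ (c < d ∧ c < b) ∨ (d < e ∧ d < c) ∨ (e < f ∧ e < d) := by
  decide

/-- local minima of a colouring occur with bounded gaps -/
theorem minima (h : Act V sh) {P : Set X} {C : ℕ} (S S' : X → X) (c : X → Fin 3)
    (g2 : ∀ x ∈ V, ∃ n : ℕ, 0 < n ∧ n ≤ C ∧ sh n x ∈ P)
    (hS : ∀ p ∈ P, ∃ n : ℕ, n ≤ C ∧ S p = sh n p ∧ S p ∈ P)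
    (hS' : ∀ p ∈ P, S' (S p) = p) (hc : ∀ p ∈ P, c (S p) ≠ c p) :
    ∀ x ∈ V, ∃ n : ℕ, 0 < n ∧ n ≤ 5 * C ∧ sh n x ∈ {p | p ∈ P ∧ c p < c (S p) ∧ c p < c (S' p)} := by
  intro x hx
  obtain ⟨n0, a0, b0, p0⟩ := g2 x hx
  have key : ∀ (n : ℕ) (q : ℕ), sh n x ∈ P → n ≤ q → ∃ m : ℕ, n ≤ m ∧ m ≤ q + C ∧
      S (sh n x) = sh m x ∧ sh m x ∈ P := by
    intro n q hn hq
    obtain ⟨g, g1, g2, g3⟩ := hS _ hn
    have e : sh g (sh n x) = sh ((n + g : ℕ) : ℤ) x := by
      rw [← h.add _ _ x hx]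
      congr 1
      push_cast
      ring
    refine ⟨n + g, by omega, by omega, by rw [g2, e], ?_⟩
    rw [← e, ← g2]; exact g3
  obtain ⟨n1, a1, b1, e1, p1⟩ := key n0 C p0 b0
  obtain ⟨n2, a2, b2, e2, p2⟩ := key n1 _ p1 b1
  obtain ⟨n3, a3, b3, e3, p3⟩ := key n2 _ p2 b2
  obtain ⟨n4, a4, b4, e4, p4⟩ := key n3 _ p3 b3
  obtain ⟨n5, a5, b5, e5, p5⟩ := key n4 _ p4 b4
  have c0 := hc _ p0
  have c1 := hc _ p1
  have c2 := hc _ p2
  have c3 := hc _ p3
  have c4 := hc _ p4
  have d0 := hS' _ p0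
  have d1 := hS' _ p1
  have d2 := hS' _ p2
  have d3 := hS' _ p3
  rw [e1] at c0 d0
  rw [e2] at c1 d1
  rw [e3] at c2 d2
  rw [e4] at c3 d3
  rw [e5] at c4
  rcases color_dec _ _ _ _ _ _ c0 c1 c2 c3 c4 with h1 | h1 | h1 | h1
  · exact ⟨n1, by omega, by omega, p1, by rw [e2]; exact h1.1, by rw [d0]; exact h1.2⟩
  · exact ⟨n2, by omega, by omega, p2, by rw [e3]; exact h1.1, by rw [d1]; exact h1.2⟩
  · exact ⟨n3, by omega, by omega, p3, by rw [e4]; exact h1.1, by rw [d2]; exact h1.2⟩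
  · exact ⟨n4, by omega, by omega, p4, by rw [e5]; exact h1.1, by rw [d3]; exact h1.2⟩

theorem step [StandardBorelSpace X] (h : Act V sh) {P : Set X} {L C : ℕ} (hP : Mk V sh P L C) :
    ∃ P' : Set X, P' ⊆ P ∧ Mk V sh P' (2 * L) (5 * C) := by
  obtain ⟨S, mS, hS1, hS2⟩ := exists_next h hP.pm hP.sub hP.g2
  obtain ⟨S', mS', hS1', hS2'⟩ := exists_next h.rev hP.pm hP.sub hP.g3
  have hSS : ∀ p ∈ P, S' (S p) = p := by
    intro p hp
    obtain ⟨g, a, -, b, c, d⟩ := hS2 p hp
    obtain ⟨g', a', -, b', c', d'⟩ := hS2' (S p) c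
    have hpV := hP.sub hp
    have e : ∀ i : ℕ, sh (-(i : ℤ)) (S p) = sh (g - i) p := by
      intro i
      rw [b, ← h.add _ _ p hpV]
      congr 1; ring
    have hg : g' = g := by
      rcases lt_trichotomy g' g with h1 | h1 | h1
      · exfalso
        refine d (g - g') (by omega) (by omega) ?_
        rw [b', e] at c'
        rwa [Nat.cast_sub h1.le]
      · exact h1
      · exfalso
        apply d' g a h1
        rw [e, sub_self, h.zero p hpV]
        exact hp
    rw [b', hg, e, sub_self, h.zero p hpV]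
  have hSS' : ∀ p ∈ P, S (S' p) = p := by
    intro p hp
    obtain ⟨g, a, -, b, c, d⟩ := hS2' p hp
    obtain ⟨g', a', -, b', c', d'⟩ := hS2 (S' p) c
    have hpV := hP.sub hp
    have e : ∀ i : ℕ, sh (i : ℤ) (S' p) = sh (-(g - i : ℤ)) p := by
      intro i
      rw [b, ← h.add _ _ p hpV]
      congr 1; ring
    have hg : g' = g := by
      rcases lt_trichotomy g' g with h1 | h1 | h1
      · exfalso
        refine d (g - g') (by omega) (by omega) ?_
        rw [b', e] at c'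
        rwa [Nat.cast_sub h1.le]
      · exact h1
      · exfalso
        apply d' g a h1
        rw [e, sub_self, neg_zero, h.zero p hpV]
        exact hp
    rw [b', hg, e, sub_self, neg_zero, h.zero p hpV]
  have hne : ∀ p ∈ P, S p ≠ p := by
    intro p hp he
    obtain ⟨g, a, -, b, -, -⟩ := hS2 p hp
    rw [b] at he
    have := h.free _ p (hP.sub hp) he
    omega
  obtain ⟨c, mc, hc⟩ := t_COL X S S' mS mS'
    (fun x => by
      by_cases hx : x ∈ P
      · exact hSS x hx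
      · rw [hS1 x hx, hS1' x hx])
    (fun x => by
      by_cases hx : x ∈ P
      · exact hSS' x hx
      · rw [hS1' x hx, hS1 x hx])
  have hc1 : ∀ p ∈ P, c (S p) ≠ c p := fun p hp => hc p (hne p hp)
  have hS'P : ∀ p ∈ P, S' p ∈ P := fun p hp => by
    obtain ⟨g, -, -, -, c, -⟩ := hS2' p hp
    exact c
  have hc2 : ∀ p ∈ P, c (S' p) ≠ c p := fun p hp => by
    have := hc1 (S' p) (hS'P p hp)
    rw [hSS' p hp] at this
    exact this.symm
  refine ⟨{p | p ∈ P ∧ c p < c (S p) ∧ c p < c (S' p)}, fun p hp => hp.1, ?_, fun p hp =>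
    hP.sub hp.1, ?_, ?_, ?_⟩
  · have md : MeasurableSet {q : Fin 3 × Fin 3 | q.1 < q.2} := MeasurableSet.of_discrete
    have m1 : MeasurableSet {p | c p < c (S p)} := (mc.prodMk (mc.comp mS)) md
    have m2 : MeasurableSet {p | c p < c (S' p)} := (mc.prodMk (mc.comp mS')) md
    exact hP.pm.inter (m1.inter m2)
  · rintro p ⟨hp, hp1, hp2⟩ n hn ⟨hq, hq1, hq2⟩
    obtain ⟨g, a, -, b, e, d⟩ := hS2 p hp
    have hL1 : L ≤ g := hP.g1 p hp g a (by rw [← b]; exact e)
    rcases lt_trichotomy g n with h1 | h1 | h1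
    · have e2 : sh ((n - g : ℕ) : ℤ) (S p) = sh n p := by
        rw [b, ← h.add _ _ p (hP.sub hp)]
        congr 1
        rw [Nat.cast_sub h1.le]; ring
      have hL2 : L ≤ n - g := hP.g1 (S p) e (n - g) (by omega) (by rw [e2]; exact hq)
      omega
    · exfalso
      rw [← h1, ← b, hSS p hp] at hq2
      exact absurd hp1 (not_lt.2 hq2.le)
    · exact absurd hq (d n hn h1)
  · exact minima h S S' c hP.g2 (fun p hp => by
      obtain ⟨g, -, a, b, e, -⟩ := hS2 p hp
      exact ⟨g, a, b, e⟩) hSS hc1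
  · intro x hx
    obtain ⟨n, n1, n2, n3, n4, n5⟩ := minima h.rev S' S c hP.g3 (fun p hp => by
      obtain ⟨g, -, a, b, e, -⟩ := hS2' p hp
      exact ⟨g, a, b, e⟩) hSS' hc2 x hx
    exact ⟨n, n1, n2, n3, n5, n4⟩

theorem seq [StandardBorelSpace X] (h : Act V sh) : ∃ P : ℕ → Set X,
    (∀ k, Mk V sh (P k) (2 ^ k) (5 ^ k)) ∧ ∀ k, P (k + 1) ⊆ P k := by
  have h0 : Mk V sh V (2 ^ 0) (5 ^ 0) := ⟨h.vm, subset_rfl, fun p hp n hn _ => hn,
    fun x hx => ⟨1, one_pos, le_rfl, h.mem _ x hx⟩, fun x hx => ⟨1, one_pos, le_rfl, h.mem _ x hx⟩⟩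
  have h1 : ∀ k (P : {P : Set X // Mk V sh P (2 ^ k) (5 ^ k)}),
      ∃ P' : {P : Set X // Mk V sh P (2 ^ (k + 1)) (5 ^ (k + 1))}, P'.1 ⊆ P.1 := by
    intro k P
    obtain ⟨P', a, b⟩ := step h P.2
    rw [← pow_succ', ← pow_succ'] at b
    exact ⟨⟨P', b⟩, a⟩
  choose nx hnx using h1
  let sq : ∀ k, {P : Set X // Mk V sh P (2 ^ k) (5 ^ k)} := fun k =>
    Nat.rec ⟨V, h0⟩ (fun k P => nx k P) k
  exact ⟨fun k => (sq k).1, fun k => (sq k).2, fun k => hnx k (sq k)⟩

/-- the distance to the last marker -/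
noncomputable def dd (sh : ℤ → X → X) (P : Set X) (x : X) : ℕ := sInf {n : ℕ | sh (-(n : ℤ)) x ∈ P}

/-- the last marker -/
noncomputable def pr (sh : ℤ → X → X) (P : Set X) (x : X) : X := sh (-(dd sh P x : ℤ)) x

omit [MeasurableSpace X] in
theorem dd_uniq {P : Set X} {x : X} {n : ℕ} (hn : sh (-(n : ℤ)) x ∈ P)
    (hm : ∀ m : ℕ, m < n → sh (-(m : ℤ)) x ∉ P) : dd sh P x = n := by
  have h1 : dd sh P x ≤ n := Nat.sInf_le hn
  rcases h1.lt_or_eq with h2 | h2
  · have h3 : dd sh P x ∈ {n : ℕ | sh (-(n : ℤ)) x ∈ P} := Nat.sInf_mem ⟨n, hn⟩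
    exact absurd h3 (hm _ h2)
  · exact h2

omit [MeasurableSpace X] in
theorem pr_uniq {P : Set X} {x : X} {n : ℕ} (hn : sh (-(n : ℤ)) x ∈ P)
    (hm : ∀ m : ℕ, m < n → sh (-(m : ℤ)) x ∉ P) : pr sh P x = sh (-(n : ℤ)) x := by
  rw [pr, dd_uniq hn hm]

theorem pr_spec {P : Set X} {L C : ℕ} (hP : Mk V sh P L C) {x : X} (hx : x ∈ V) :
    dd sh P x ≤ C ∧ pr sh P x ∈ P ∧ ∀ m : ℕ, m < dd sh P x → sh (-(m : ℤ)) x ∉ P := by
  obtain ⟨n, -, hn, hn2⟩ := hP.g3 x hx
  refine ⟨(Nat.sInf_le (show n ∈ {n : ℕ | sh (-(n : ℤ)) x ∈ P} from hn2)).trans hn, ?_, ?_⟩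
  · exact Nat.sInf_mem (s := {n : ℕ | sh (-(n : ℤ)) x ∈ P}) ⟨n, hn2⟩
  · intro m hm hm2
    exact absurd (Nat.sInf_le (show m ∈ {n : ℕ | sh (-(n : ℤ)) x ∈ P} from hm2)) (not_le.2 hm)

theorem measurable_pr (h : Act V sh) {P : Set X} (hP : MeasurableSet P) :
    Measurable (pr sh P) := by
  have m1 : ∀ i : ℕ, MeasurableSet {x | sh (-(i : ℤ)) x ∈ P} := fun i => h.meas (-(i : ℤ)) hP
  refine glue (ι := Option ℕ) (pr sh P) (fun o => o.elim {x | ∀ n : ℕ, sh (-(n : ℤ)) x ∉ P}
    (fun n => {x | sh (-(n : ℤ)) x ∈ P ∧ ∀ m : ℕ, m < n → sh (-(m : ℤ)) x ∉ P})) ?_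
    (fun o => o.elim (sh (-((0 : ℕ) : ℤ))) (fun n => sh (-(n : ℤ)))) ?_ ?_ ?_
  · rintro (_ | n)
    · show MeasurableSet {x | ∀ n : ℕ, sh (-(n : ℤ)) x ∉ P}
      have : {x : X | ∀ n : ℕ, sh (-(n : ℤ)) x ∉ P} = ⋂ n : ℕ, {x | sh (-(n : ℤ)) x ∈ P}ᶜ := by
        ext x
        simp only [mem_iInter]
        rfl
      rw [this]
      exact MeasurableSet.iInter fun i => (m1 i).compl
    · have m2 : MeasurableSet {x : X | ∀ m : ℕ, m < n → sh (-(m : ℤ)) x ∉ P} := by
        have : {x : X | ∀ m : ℕ, m < n → sh (-(m : ℤ)) x ∉ P} =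
            ⋂ m : ℕ, ⋂ _ : m < n, {x | sh (-(m : ℤ)) x ∈ P}ᶜ := by
          ext x
          simp only [mem_iInter]
          rfl
        rw [this]
        exact MeasurableSet.iInter fun i => MeasurableSet.iInter fun _ => (m1 i).compl
      exact (m1 n).inter m2
  · rintro (_ | n)
    · exact h.meas _
    · exact h.meas _
  · intro x
    classical
    by_cases hx : ∃ n : ℕ, sh (-(n : ℤ)) x ∈ P
    · exact ⟨some (Nat.find hx), Nat.find_spec hx, fun m hm => Nat.find_min hx hm⟩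
    · push Not at hx
      exact ⟨none, hx⟩
  · rintro (_ | n) x hx
    · have : {n : ℕ | sh (-(n : ℤ)) x ∈ P} = ∅ := by
        ext n
        exact ⟨fun hn => absurd hn (hx n), fun hn => absurd hn (notMem_empty n)⟩
      show pr sh P x = sh (-((0 : ℕ) : ℤ)) x
      rw [pr, dd, this, Nat.sInf_empty]
    · exact pr_uniq hx.1 hx.2

theorem sh_back (h : Act V sh) {x : X} (hx : x ∈ V) (n : ℤ) : sh n (sh (-n) x) = x := by
  rw [← h.add _ _ x hx, add_neg_cancel, h.zero x hx]

theorem class_sub (h : Act V sh) {P : Set X} {L C : ℕ} (hP : Mk V sh P L C) {x : X} :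
    {y | y ∈ V ∧ pr sh P y = pr sh P x} ⊆ (fun i : ℕ => sh i (pr sh P x)) '' Set.Iic C := by
  rintro y ⟨hy, hy2⟩
  refine ⟨dd sh P y, (pr_spec hP hy).1, ?_⟩
  show sh (dd sh P y) (pr sh P x) = y
  rw [← hy2, pr, sh_back h hy]

theorem class_fin (h : Act V sh) {P : Set X} {L C : ℕ} (hP : Mk V sh P L C) (x : X) :
    {y | y ∈ V ∧ pr sh P y = pr sh P x}.Finite ∧
      {y | y ∈ V ∧ pr sh P y = pr sh P x}.ncard ≤ C + 1 := by
  have hf : ((fun i : ℕ => sh i (pr sh P x)) '' Set.Iic C).Finite := (Set.finite_Iic C).image _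
  refine ⟨hf.subset (class_sub h hP), (ncard_le_ncard (class_sub h hP) hf).trans ?_⟩
  refine (ncard_image_le (Set.finite_Iic C)).trans ?_
  rw [Set.ncard_eq_toFinset_card']
  simp

theorem class_ge (h : Act V sh) {P : Set X} {L C : ℕ} (hP : Mk V sh P L C) {x : X} (hx : x ∈ V) :
    L ≤ {y | y ∈ V ∧ pr sh P y = pr sh P x}.ncard := by
  obtain ⟨-, hp, -⟩ := pr_spec hP hx
  have hpV := hP.sub hp
  have h1 : (fun i : ℕ => sh i (pr sh P x)) '' Set.Iio L ⊆
      {y | y ∈ V ∧ pr sh P y = pr sh P x} := by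
    rintro _ ⟨i, hi, rfl⟩
    refine ⟨h.mem _ _ hpV, ?_⟩
    have e : ∀ m : ℕ, sh (-(m : ℤ)) (sh i (pr sh P x)) = sh (i - m) (pr sh P x) := by
      intro m
      rw [← h.add _ _ _ hpV]
      congr 1; ring
    have h2 : pr sh P (sh i (pr sh P x)) = sh (-(i : ℤ)) (sh i (pr sh P x)) := by
      apply pr_uniq
      · rw [e, sub_self, h.zero _ hpV]; exact hp
      · intro m hm hm2
        rw [e] at hm2
        have := hP.g1 _ hp (i - m) (by omega) (by rw [Nat.cast_sub hm.le]; exact hm2)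
        have hi' : i < L := hi
        omega
    show pr sh P (sh i (pr sh P x)) = pr sh P x
    rw [h2, e, sub_self, h.zero _ hpV]
  have h2 : ((fun i : ℕ => sh i (pr sh P x)) '' Set.Iio L).ncard = L := by
    rw [Set.InjOn.ncard_image, Set.ncard_eq_toFinset_card']
    · simp
    · intro i _ j _ he
      have he' : sh i (pr sh P x) = sh j (pr sh P x) := he
      have : sh ((i : ℤ) - j) (pr sh P x) = pr sh P x := by
        rw [sub_eq_neg_add, h.add _ _ _ hpV, he', ← h.add _ _ _ hpV, neg_add_cancel,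
          h.zero _ hpV]
      have := h.free _ _ hpV this
      omega
  rw [← h2]
  exact ncard_le_ncard h1 (class_fin h hP x).1

theorem pr_pr (h : Act V sh) {P P' : Set X} {L C L' C' : ℕ} (hP : Mk V sh P L C)
    (hP' : Mk V sh P' L' C') (hsub : P' ⊆ P) {x : X} (hx : x ∈ V) :
    pr sh P' x = pr sh P' (pr sh P x) := by
  obtain ⟨-, -, a⟩ := pr_spec hP hx
  obtain ⟨-, b, b2⟩ := pr_spec hP' hx
  have hle : dd sh P x ≤ dd sh P' x := by
    by_contra hcon
    push Not at hcon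
    exact a _ hcon (hsub b)
  have e : ∀ m : ℕ, sh (-(m : ℤ)) (pr sh P x) = sh (-((m + dd sh P x : ℕ) : ℤ)) x := by
    intro m
    rw [pr, ← h.add _ _ _ hx]
    congr 1; push_cast; ring
  have h1 : pr sh P' (pr sh P x) = sh (-((dd sh P' x - dd sh P x : ℕ) : ℤ)) (pr sh P x) := by
    apply pr_uniq
    · rw [e, Nat.sub_add_cancel hle]; exact b
    · intro m hm
      rw [e]
      exact b2 _ (by omega)
  rw [h1, e, Nat.sub_add_cancel hle]
  rfl

theorem pr_step (h : Act V sh) {P : Set X} {L C : ℕ} (hP : Mk V sh P L C) {x : X} (hx : x ∈ V)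
    (h1 : sh 1 x ∉ P) : pr sh P (sh 1 x) = pr sh P x := by
  obtain ⟨-, a, b⟩ := pr_spec hP hx
  have e : ∀ m : ℕ, sh (-((m + 1 : ℕ) : ℤ)) (sh 1 x) = sh (-(m : ℤ)) x := by
    intro m
    rw [← h.add _ _ _ hx]
    congr 1; push_cast; ring
  have h2 : pr sh P (sh 1 x) = sh (-((dd sh P x + 1 : ℕ) : ℤ)) (sh 1 x) := by
    apply pr_uniq
    · rw [e]; exact a
    · intro m hm
      rcases Nat.eq_zero_or_pos m with h0 | h0
      · rw [h0, Nat.cast_zero, neg_zero, h.zero _ (h.mem _ _ hx)]; exact h1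
      · obtain ⟨m', rfl⟩ : ∃ m', m = m' + 1 := ⟨m - 1, by omega⟩
        rw [e]
        exact b m' (by omega)
  rw [h2, e]
  rfl

end act

/-! ### Measurability -/

section meas

variable {X : Type} [MeasurableSpace X] [StandardBorelSpace X] {F : ℕ → X → X → Prop}

theorem meas_count (s : ℕ → X → X) (hs : ∀ n, Measurable (s n)) (A : Set (X × X))
    (hA : MeasurableSet A) (hAs : ∀ x y, (x, y) ∈ A → ∃ n, s n x = y)
    (hf : ∀ x, {y | (x, y) ∈ A}.Finite) : Measurable fun x => {y | (x, y) ∈ A}.ncard := by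
  classical
  have hr := measurableEmbedding_embeddingReal X
  obtain ⟨J, hJ⟩ : ∃ J : X → Set ℕ, J = fun x => {j | (x, s j x) ∈ A ∧ ∀ i < j, s i x ≠ s j x} :=
    ⟨_, rfl⟩
  have hmem : ∀ x j, j ∈ J x ↔ (x, s j x) ∈ A ∧ ∀ i < j, s i x ≠ s j x := by
    intro x j; rw [hJ]; rfl
  have hinj : ∀ x, InjOn (fun j => s j x) (J x) := by
    intro x i hi j hj he
    rcases lt_trichotomy i j with h1 | h1 | h1
    · exact absurd he (((hmem x j).1 hj).2 i h1)
    · exact h1
    · exact absurd he.symm (((hmem x i).1 hi).2 j h1)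
  have himg : ∀ x, {y | (x, y) ∈ A} = (fun j => s j x) '' J x := by
    intro x
    ext y
    constructor
    · intro hy
      have hex := hAs x y hy
      refine ⟨Nat.find hex, (hmem _ _).2 ⟨?_, ?_⟩, Nat.find_spec hex⟩
      · rw [Nat.find_spec hex]; exact hy
      · intro i hi he
        rw [Nat.find_spec hex] at he
        exact Nat.find_min hex hi he
    · rintro ⟨j, hj, rfl⟩
      exact ((hmem x j).1 hj).1
  have hJf : ∀ x, (J x).Finite := fun x => by
    have := hf x
    rw [himg x] at this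
    exact Set.Finite.of_finite_image this (hinj x)
  have hcard : ∀ x, {y | (x, y) ∈ A}.ncard = (J x).ncard := by
    intro x
    rw [himg x, (hinj x).ncard_image]
  have hJm : ∀ j, MeasurableSet {x | j ∈ J x} := by
    intro j
    have e : {x | j ∈ J x} = {x | (x, s j x) ∈ A} ∩ ⋂ i : ℕ, ⋂ _ : i < j,
        {x | embeddingReal X (s i x) = embeddingReal X (s j x)}ᶜ := by
      ext x
      simp only [mem_inter_iff, mem_iInter]
      constructor
      · intro hx
        exact ⟨((hmem x j).1 hx).1, fun i hi he =>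
          ((hmem x j).1 hx).2 i hi (hr.injective he)⟩
      · rintro ⟨a, b⟩
        exact (hmem x j).2 ⟨a, fun i hi he => b i hi (congrArg _ he)⟩
    rw [e]
    refine ((measurable_id.prodMk (hs j)) hA).inter (MeasurableSet.iInter fun i =>
      MeasurableSet.iInter fun _ => MeasurableSet.compl ?_)
    exact measurableSet_eq_fun (hr.measurable.comp (hs i)) (hr.measurable.comp (hs j))
  apply measurable_to_countable'
  intro n
  have e : (fun x => {y | (x, y) ∈ A}.ncard) ⁻¹' {n} =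
      ⋃ S : Finset ℕ, ⋃ _ : S.card = n, ⋂ j : ℕ, {x | j ∈ J x ↔ j ∈ S} := by
    ext x
    simp only [mem_preimage, mem_singleton_iff, mem_iUnion, mem_iInter]
    rw [hcard]
    constructor
    · intro hx
      refine ⟨(hJf x).toFinset, ?_, fun j => ?_⟩
      · rw [← hx, Set.ncard_eq_toFinset_card _ (hJf x)]
      · show j ∈ J x ↔ j ∈ (hJf x).toFinset
        rw [Set.Finite.mem_toFinset]
    · rintro ⟨S, hS, hj⟩
      have : J x = S := by
        ext j
        exact hj j
      rw [this, Set.ncard_coe_finset, hS]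
  rw [e]
  refine MeasurableSet.iUnion fun S => MeasurableSet.iUnion fun _ => MeasurableSet.iInter fun j => ?_
  by_cases hj : j ∈ S
  · have : {x | j ∈ J x ↔ j ∈ S} = {x | j ∈ J x} := by
      ext x
      exact ⟨fun hx => hx.2 hj, fun hx => ⟨fun _ => hj, fun _ => hx⟩⟩
    rw [this]; exact hJm j
  · have : {x | j ∈ J x ↔ j ∈ S} = {x | j ∈ J x}ᶜ := by
      ext x
      exact ⟨fun hx hx' => hj (hx.1 hx'), fun hx => ⟨fun h' => absurd h' hx, fun h' => absurd h' hj⟩⟩
    rw [this]; exact (hJm j).compl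

theorem sq_of {E : X → X → Prop} (hF : HF E F) : Sq F (embeddingReal X) where
  eqv n := by
    cases n with
    | zero => exact eq_equivalence
    | succ n => exact hF.eqv n
  fin n x := by
    cases n with
    | zero => exact (Set.finite_singleton x).subset fun y hy => Eq.symm hy
    | succ n => exact hF.fin n x
  mono n x y hxy := by
    cases n with
    | zero =>
      have : x = y := hxy
      rw [this]; exact (hF.eqv 0).refl y
    | succ n => exact hF.mono n x y hxy
  inj := (measurableEmbedding_embeddingReal X).injective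

theorem E_iff {E : X → X → Prop} (hF : HF E F) {x y : X} : E x y ↔ ∃ n, G F n x y := by
  rw [hF.union]
  constructor
  · rintro ⟨n, hn⟩
    exact ⟨n + 1, hn⟩
  · rintro ⟨n, hn⟩
    exact ⟨n, (sq_of hF).mono n x y hn⟩

theorem E_eqv {E : X → X → Prop} (hF : HF E F) : Equivalence E := by
  have h := sq_of hF
  refine ⟨fun x => (E_iff hF).2 ⟨0, rfl⟩, fun {x y} hxy => ?_, fun {x y z} hxy hyz => ?_⟩
  · obtain ⟨n, hn⟩ := (E_iff hF).1 hxy
    exact (E_iff hF).2 ⟨n, (h.eqv n).symm hn⟩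
  · obtain ⟨n, hn⟩ := (E_iff hF).1 hxy
    obtain ⟨m, hm⟩ := (E_iff hF).1 hyz
    exact (E_iff hF).2 ⟨max n m, (h.eqv _).trans (mono_le h (le_max_left n m) hn)
      (mono_le h (le_max_right n m) hm)⟩

theorem exists_s {E : X → X → Prop} (hF : HF E F) : ∃ s : ℕ → X → X, (∀ n, Measurable (s n)) ∧
    ∀ x y, E x y ↔ ∃ n, s n x = y := by
  obtain ⟨s, a, -, b⟩ := Pool.Agent.H139R3.FM.feldman_moore E (E_eqv hF)
    (by
      have : {p : X × X | E p.1 p.2} = ⋃ n, {p : X × X | F n p.1 p.2} := by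
        ext p
        rw [mem_iUnion]
        exact hF.union _ _
      rw [this]
      exact MeasurableSet.iUnion fun n => hF.meas n)
    (fun x => by
      have : {y | E x y} = ⋃ n, {y | F n x y} := by
        ext y
        rw [mem_iUnion]
        exact hF.union _ _
      rw [this]
      exact countable_iUnion fun n => (hF.fin n x).countable)
  exact ⟨s, a, b⟩

theorem meas_G {E : X → X → Prop} (hF : HF E F) (n : ℕ) :
    MeasurableSet {p : X × X | G F n p.1 p.2} := by
  cases n with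
  | zero =>
    have hr := measurableEmbedding_embeddingReal X
    have : {p : X × X | G F 0 p.1 p.2} =
        {p : X × X | embeddingReal X p.1 = embeddingReal X p.2} := by
      ext p
      exact ⟨fun hp => congrArg _ hp, fun hp => hr.injective hp⟩
    rw [this]
    exact measurableSet_eq_fun (hr.measurable.comp measurable_fst)
      (hr.measurable.comp measurable_snd)
  | succ n => exact hF.meas n

theorem meas_mm {E : X → X → Prop} (hF : HF E F) (n : ℕ) :
    Measurable (mm F (embeddingReal X) n) := by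
  obtain ⟨s, hs, hsE⟩ := exists_s hF
  have h := sq_of hF
  have hr := measurableEmbedding_embeddingReal X
  apply measurable_of_Iio
  intro a
  have : mm F (embeddingReal X) n ⁻¹' Iio a = ⋃ j, {x | (x, s j x) ∈ {p : X × X | G F n p.1 p.2}} ∩
      {x | embeddingReal X (s j x) < a} := by
    ext x
    simp only [mem_preimage, mem_Iio, mem_iUnion, mem_inter_iff]
    constructor
    · intro hx
      obtain ⟨y, hy, hy2⟩ := mm_att h n x
      obtain ⟨j, hj⟩ := (hsE x y).1 ((E_iff hF).2 ⟨n, hy⟩)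
      refine ⟨j, ?_, ?_⟩
      · show G F n x (s j x)
        rw [hj]; exact hy
      · show embeddingReal X (s j x) < a
        rw [hj, hy2]; exact hx
    · rintro ⟨j, hj, hj2⟩
      exact lt_of_le_of_lt (csInf_le ((h.fin n x).image _).bddBelow ⟨s j x, hj, rfl⟩) hj2
  rw [this]
  exact MeasurableSet.iUnion fun j => ((measurable_id.prodMk (hs j)) (meas_G hF n)).inter
    (measurableSet_lt (hr.measurable.comp (hs j)) measurable_const)

theorem meas_sz {E : X → X → Prop} (hF : HF E F) (n : ℕ) : Measurable (sz F n) := by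
  obtain ⟨s, hs, hsE⟩ := exists_s hF
  exact meas_count s hs {p : X × X | G F n p.1 p.2} (meas_G hF n)
    (fun x y hxy => (hsE x y).1 ((E_iff hF).2 ⟨n, hxy⟩)) (fun x => (sq_of hF).fin n x)

theorem meas_dl {E : X → X → Prop} (hF : HF E F) (n : ℕ) :
    Measurable (dl F (embeddingReal X) n) := by
  obtain ⟨s, hs, hsE⟩ := exists_s hF
  induction n with
  | zero => exact measurable_const
  | succ n ih =>
    refine ih.add ?_
    refine meas_count s hs {p : X × X | F n p.1 p.2 ∧ mm F (embeddingReal X) n p.2 <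
      mm F (embeddingReal X) n p.1} ?_ ?_ (fun x => Q_fin (sq_of hF) n x)
    · exact (hF.meas n).inter (measurableSet_lt ((meas_mm hF n).comp measurable_snd)
        ((meas_mm hF n).comp measurable_fst))
    · intro x y hxy
      exact (hsE x y).1 ((hF.union x y).2 ⟨n, hxy.1⟩)

theorem meas_sat {E : X → X → Prop} (hF : HF E F) (A : Set X) (hA : MeasurableSet A) :
    MeasurableSet {x | ∃ a ∈ A, E x a} := by
  obtain ⟨s, hs, hsE⟩ := exists_s hF
  have : {x | ∃ a ∈ A, E x a} = ⋃ j, s j ⁻¹' A := by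
    ext x
    simp only [mem_iUnion, mem_preimage]
    constructor
    · rintro ⟨a, ha, hxa⟩
      obtain ⟨j, hj⟩ := (hsE x a).1 hxa
      exact ⟨j, by rw [hj]; exact ha⟩
    · rintro ⟨j, hj⟩
      exact ⟨s j x, hj, (hsE _ _).2 ⟨j, rfl⟩⟩
  rw [this]
  exact MeasurableSet.iUnion fun j => hs j hA

/-- the ends of the classes -/
def Ed (F : ℕ → X → X → Prop) : Set X :=
  {x | Fst F (embeddingReal X) x ∨ Lst F (embeddingReal X) x}

theorem meas_Ed {E : X → X → Prop} (hF : HF E F) : MeasurableSet (Ed F) := by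
  have h1 : {x | Fst F (embeddingReal X) x} = ⋂ n, dl F (embeddingReal X) n ⁻¹' {0} := by
    ext x
    simp only [mem_iInter]
    exact Iff.rfl
  have h2 : {x | Lst F (embeddingReal X) x} = ⋂ n, {x | (dl F (embeddingReal X) n x, sz F n x) ∈
      {q : ℕ × ℕ | q.1 + 1 = q.2}} := by
    ext x
    simp only [mem_iInter]
    exact Iff.rfl
  have h3 : Ed F = {x | Fst F (embeddingReal X) x} ∪ {x | Lst F (embeddingReal X) x} := rfl
  rw [h3, h1, h2]
  refine (MeasurableSet.iInter fun n => meas_dl hF n (measurableSet_singleton 0)).union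
    (MeasurableSet.iInter fun n => ?_)
  exact ((meas_dl hF n).prodMk (meas_sz hF n)) MeasurableSet.of_discrete

open Classical in
/-- the shift by `k` places -/
noncomputable def shf (F : ℕ → X → X → Prop) (k : ℤ) (x : X) : X :=
  if hx : ∃ y, D F (embeddingReal X) k x y then hx.choose else x

theorem shf_eq (h : Sq F (embeddingReal X)) {k : ℤ} {x y : X}
    (hD : D F (embeddingReal X) k x y) : shf F k x = y := by
  unfold shf
  have hx : ∃ y, D F (embeddingReal X) k x y := ⟨y, hD⟩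
  rw [dif_pos hx]
  exact D_uniq h hx.choose_spec hD

theorem meas_shf {E : X → X → Prop} (hF : HF E F) (k : ℤ) : Measurable (shf F k) := by
  obtain ⟨s, hs, hsE⟩ := exists_s hF
  have h := sq_of hF
  have m1 : ∀ j, MeasurableSet {x | D F (embeddingReal X) k x (s j x)} := by
    intro j
    have : {x | D F (embeddingReal X) k x (s j x)} = ⋃ n,
        {x | (x, s j x) ∈ {p : X × X | G F n p.1 p.2}} ∩
        {x | (dl F (embeddingReal X) n (s j x), dl F (embeddingReal X) n x) ∈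
          {q : ℕ × ℕ | (q.1 : ℤ) - q.2 = k}} := by
      ext x
      simp only [mem_iUnion, mem_inter_iff]
      exact Iff.rfl
    rw [this]
    exact MeasurableSet.iUnion fun n => ((measurable_id.prodMk (hs j)) (meas_G hF n)).inter
      ((((meas_dl hF n).comp (hs j)).prodMk (meas_dl hF n)) MeasurableSet.of_discrete)
  refine glue (ι := Option ℕ) (shf F k) (fun o => o.elim
    {x | ∀ j, ¬ D F (embeddingReal X) k x (s j x)}
    (fun j => {x | D F (embeddingReal X) k x (s j x)})) ?_ (fun o => o.elim id s) ?_ ?_ ?_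
  · rintro (_ | j)
    · show MeasurableSet {x | ∀ j, ¬ D F (embeddingReal X) k x (s j x)}
      have : {x | ∀ j, ¬ D F (embeddingReal X) k x (s j x)} =
          ⋂ j, {x | D F (embeddingReal X) k x (s j x)}ᶜ := by
        ext x
        simp only [mem_iInter]
        rfl
      rw [this]
      exact MeasurableSet.iInter fun j => (m1 j).compl
    · exact m1 j
  · rintro (_ | j)
    · exact measurable_id
    · exact hs j
  · intro x
    by_cases hx : ∃ j, D F (embeddingReal X) k x (s j x)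
    · obtain ⟨j, hj⟩ := hx
      exact ⟨some j, hj⟩
    · push Not at hx
      exact ⟨none, hx⟩
  · rintro (_ | j) x hx
    · show shf F k x = x
      unfold shf
      rw [dif_neg]
      rintro ⟨y, n, hy, hy2⟩
      obtain ⟨j, hj⟩ := (hsE x y).1 ((E_iff hF).2 ⟨n, hy⟩)
      exact hx j (by rw [hj]; exact ⟨n, hy, hy2⟩)
    · exact shf_eq h hx

theorem exists_D {E : X → X → Prop} (hF : HF E F) {x : X} (hx : ¬ ∃ a ∈ Ed F, E x a) (k : ℤ) :
    ∃ y, D F (embeddingReal X) k x y := by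
  have h := sq_of hF
  have hE := E_eqv hF
  have hn : ∀ y, E x y → ¬ Lst F (embeddingReal X) y ∧ ¬ Fst F (embeddingReal X) y := fun y hy =>
    ⟨fun hl => hx ⟨y, Or.inr hl, hy⟩, fun hf => hx ⟨y, Or.inl hf, hy⟩⟩
  induction k using Int.induction_on with
  | zero => exact ⟨x, D_refl x⟩
  | succ i ih =>
    obtain ⟨y, hy⟩ := ih
    have hxy : E x y := (E_iff hF).2 ⟨_, hy.choose_spec.1⟩
    obtain ⟨z, hz⟩ := D_one h y (hn y hxy).1
    refine ⟨z, ?_⟩
    have := D_add h hy hz
    rwa [add_comm] at this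
  | pred i ih =>
    obtain ⟨y, hy⟩ := ih
    have hxy : E x y := (E_iff hF).2 ⟨_, hy.choose_spec.1⟩
    obtain ⟨z, hz⟩ := D_neg_one h y (hn y hxy).2
    refine ⟨z, ?_⟩
    have := D_add h hy hz
    rw [show (-1 : ℤ) + -(i : ℤ) = -(i : ℤ) - 1 by ring] at this
    exact this

theorem act_of {E : X → X → Prop} (hF : HF E F) : Act {x | ∃ a ∈ Ed F, E x a}ᶜ (shf F) := by
  have h := sq_of hF
  have hE := E_eqv hF
  have hD : ∀ k, ∀ x ∈ {x | ∃ a ∈ Ed F, E x a}ᶜ, D F (embeddingReal X) k x (shf F k x) := by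
    intro k x hx
    obtain ⟨y, hy⟩ := exists_D hF hx k
    rw [shf_eq h hy]; exact hy
  have hm : ∀ k, ∀ x ∈ {x | ∃ a ∈ Ed F, E x a}ᶜ, shf F k x ∈ {x | ∃ a ∈ Ed F, E x a}ᶜ := by
    intro k x hx hx2
    obtain ⟨n, hn, -⟩ := hD k x hx
    obtain ⟨a, ha, ha2⟩ := hx2
    exact hx ⟨a, ha, hE.trans ((E_iff hF).2 ⟨n, hn⟩) ha2⟩
  refine ⟨(meas_sat hF _ (meas_Ed hF)).compl, meas_shf hF, hm, ?_, ?_, ?_⟩
  · intro x _
    exact shf_eq h (D_refl x)
  · intro k l x hx
    exact shf_eq h (D_add h (hD l x hx) (hD k _ (hm l x hx)))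
  · intro k x hx he
    have h1 := hD k x hx
    rw [he] at h1
    exact D_val h h1 (D_refl x)

theorem act_E {E : X → X → Prop} (hF : HF E F) {x : X} (hx : x ∈ {x | ∃ a ∈ Ed F, E x a}ᶜ)
    (k : ℤ) : E x (shf F k x) := by
  obtain ⟨y, hy⟩ := exists_D hF hx k
  rw [shf_eq (sq_of hF) hy]
  exact (E_iff hF).2 ⟨_, hy.choose_spec.1⟩

theorem act_orb {E : X → X → Prop} (hF : HF E F) {x y : X} (hxy : E x y) :
    ∃ k, shf F k x = y := by
  obtain ⟨n, hn⟩ := (E_iff hF).1 hxy
  exact ⟨_, shf_eq (sq_of hF) ⟨n, hn, rfl⟩⟩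

omit [StandardBorelSpace X] in
/-- restriction to an invariant set, all of whose relations are restrictions -/
theorem hf_res {E : X → X → Prop} (hF : HF E F) (U : Set X) :
    HF (Res E U) (fun n => Res (F n) U) where
  eqv n := ⟨fun x => (hF.eqv n).refl _, fun h => (hF.eqv n).symm h,
    fun h h' => (hF.eqv n).trans h h'⟩
  meas n := by
    have m : Measurable (fun p : U × U => ((p.1 : X), (p.2 : X))) :=
      (measurable_subtype_coe.comp measurable_fst).prodMk
        (measurable_subtype_coe.comp measurable_snd)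
    exact m (hF.meas n)
  fin n x := (hF.fin n x).preimage Subtype.val_injective.injOn
  mono n x y h := hF.mono n _ _ h
  union x y := hF.union _ _

theorem cmp_sat (hB : S_BAS) {E : X → X → Prop} (hF : HF E F) (hE : Ape E) (A : Set X)
    (hA : MeasurableSet A) (hfin : ∀ x, {t | t ∈ A ∧ E x t}.Finite) :
    Cmp (Res E {x | ∃ a ∈ A, E x a}) := by
  have hEq := E_eqv hF
  obtain ⟨U, hU⟩ : ∃ U : Set X, U = {x | ∃ a ∈ A, E x a} := ⟨_, rfl⟩
  rw [← hU]
  have hUm : MeasurableSet U := by rw [hU]; exact meas_sat hF A hA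
  have := hUm.standardBorel
  have hinv : ∀ x ∈ U, ∀ y, E x y → y ∈ U := by
    intro x hx y hxy
    rw [hU] at hx ⊢
    obtain ⟨a, ha, ha2⟩ := hx
    exact ⟨a, ha, hEq.trans (hEq.symm hxy) ha2⟩
  refine (hB U (Res E U) (fun n => Res (F n) U) (hf_res hF U)).2.2.2
    {u : U | (u : X) ∈ A} (measurable_subtype_coe hA) ?_ ?_ ?_
  · intro x
    apply Set.Infinite.of_image Subtype.val
    have : Subtype.val '' {y : U | Res E U x y} = {y | E x y} := by
      ext y
      constructor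
      · rintro ⟨z, hz, rfl⟩
        exact hz
      · intro hy
        exact ⟨⟨y, hinv x x.2 y hy⟩, hy, rfl⟩
    rw [this]
    exact hE x
  · intro x
    exact (hfin x).preimage Subtype.val_injective.injOn
  · rintro ⟨x, hx⟩
    have hx' := hx
    rw [hU] at hx'
    obtain ⟨a, ha, ha2⟩ := hx'
    exact ⟨⟨a, hinv x hx a ha2⟩, ha, ha2⟩

omit [MeasurableSpace X] [StandardBorelSpace X] in
theorem subs_union {A B : Set X} {E : X → X → Prop} (x : X)
    (hA : {t | t ∈ A ∧ E x t}.Finite) (hB : {t | t ∈ B ∧ E x t}.Finite) :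
    {t | t ∈ A ∪ B ∧ E x t}.Finite := by
  refine (hA.union hB).subset ?_
  rintro t ⟨ht | ht, h2⟩
  · exact Or.inl ⟨ht, h2⟩
  · exact Or.inr ⟨ht, h2⟩

end meas

/-- the levels -/
def lev (ψ : ℕ → ℕ → ℕ) : ℕ → ℕ
  | 0 => 0
  | j + 1 => max (lev ψ j + 1) (ψ j (5 ^ lev ψ j + 1))

theorem le_lev (ψ : ℕ → ℕ → ℕ) (j : ℕ) : j ≤ lev ψ j := by
  induction j with
  | zero => exact Nat.zero_le _
  | succ j ih =>
    have : lev ψ j + 1 ≤ lev ψ (j + 1) := le_max_left _ _
    omega

theorem lev_le (ψ : ℕ → ℕ → ℕ) (j : ℕ) : lev ψ j ≤ lev ψ (j + 1) :=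
  (Nat.le_succ _).trans (le_max_left _ _)

end UF

open UF in
/-- UF: finite relations with uniformly bounded and rapidly growing classes -/
theorem t_UF (hB : S_BAS) : S_UF := by
  intro X _ _ E F hF hApe ψ
  have h := sq_of hF
  have hEq := E_eqv hF
  obtain ⟨V, hV⟩ : ∃ V : Set X, V = {x | ∃ a ∈ Ed F, E x a}ᶜ := ⟨_, rfl⟩
  have hact : Act V (shf F) := by rw [hV]; exact act_of hF
  have hactE : ∀ x ∈ V, ∀ k, E x (shf F k x) := by
    intro x hx k
    rw [hV] at hx
    exact act_E hF hx k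
  obtain ⟨P, hP, hPs⟩ := seq hact
  have hPm : ∀ k m, k ≤ m → P m ⊆ P k := by
    intro k m hkm
    induction m, hkm using Nat.le_induction with
    | base => exact subset_rfl
    | succ m _ ih => exact (hPs m).trans ih
  obtain ⟨Pi, hPi⟩ : ∃ Pi : Set X, Pi = ⋂ k, P k := ⟨_, rfl⟩
  have hPiP : ∀ k, Pi ⊆ P k := fun k => by rw [hPi]; exact iInter_subset _ k
  have hPim : MeasurableSet Pi := by rw [hPi]; exact MeasurableSet.iInter fun k => (hP k).pm
  -- the three smooth parts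
  have hPi1 : ∀ a ∈ Pi, ∀ n : ℕ, 0 < n → shf F n a ∉ Pi := by
    intro a ha n hn hn2
    have h1 := (hP n).g1 a (hPiP n ha) n hn (hPiP n hn2)
    have h2 : n < 2 ^ n := Nat.lt_two_pow_self
    omega
  have hPi2 : ∀ a ∈ Pi, ∀ b ∈ Pi, E a b → a = b := by
    intro a ha b hb hab
    have haV : a ∈ V := (hP 0).sub (hPiP 0 ha)
    have hbV : b ∈ V := (hP 0).sub (hPiP 0 hb)
    obtain ⟨k, hk⟩ := act_orb hF hab
    rcases lt_trichotomy k 0 with h1 | h1 | h1
    · exfalso
      have h2 : shf F (-k) b = a := by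
        rw [← hk, ← hact.add _ _ a haV, neg_add_cancel, hact.zero a haV]
      obtain ⟨n, hn⟩ := Int.eq_ofNat_of_zero_le (show 0 ≤ -k by omega)
      refine hPi1 b hb n (by omega) ?_
      have h3 : shf F ((n : ℕ) : ℤ) b = a := by rw [← h2]; congr 1; exact hn.symm
      rw [h3]; exact ha
    · rw [h1, hact.zero a haV] at hk
      exact hk
    · exfalso
      obtain ⟨n, hn⟩ := Int.eq_ofNat_of_zero_le h1.le
      refine hPi1 a ha n (by omega) ?_
      have h3 : shf F ((n : ℕ) : ℤ) a = b := by rw [← hk]; congr 1; exact hn.symm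
      rw [h3]; exact hb
  have hfin : ∀ x, {t | t ∈ Ed F ∪ Pi ∧ E x t}.Finite := by
    intro x
    refine subs_union x ?_ ?_
    · have : Ed F = {x | Fst F (embeddingReal X) x} ∪ {x | Lst F (embeddingReal X) x} := rfl
      rw [this]
      refine subs_union x ?_ ?_
      · apply Set.Subsingleton.finite
        rintro a ⟨ha, ha2⟩ b ⟨hb, hb2⟩
        obtain ⟨n, hn⟩ := (E_iff hF).1 (hEq.trans (hEq.symm ha2) hb2)
        have ha' : dl F (embeddingReal X) n a = 0 := ha n
        have hb' : dl F (embeddingReal X) n b = 0 := hb n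
        exact dl_inj h n hn (by rw [ha', hb'])
      · apply Set.Subsingleton.finite
        rintro a ⟨ha, ha2⟩ b ⟨hb, hb2⟩
        obtain ⟨n, hn⟩ := (E_iff hF).1 (hEq.trans (hEq.symm ha2) hb2)
        have ha' : dl F (embeddingReal X) n a + 1 = sz F n a := ha n
        have hb' : dl F (embeddingReal X) n b + 1 = sz F n b := hb n
        have hs := sz_eq h hn
        exact dl_inj h n hn (by omega)
    · apply Set.Subsingleton.finite
      rintro a ⟨ha, ha2⟩ b ⟨hb, hb2⟩
      exact hPi2 a ha b hb (hEq.trans (hEq.symm ha2) hb2)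
  have hAm : MeasurableSet (Ed F ∪ Pi) := (meas_Ed hF).union hPim
  have hcmp := cmp_sat hB hF hApe (Ed F ∪ Pi) hAm hfin
  obtain ⟨U, hU⟩ : ∃ U : Set X, U = {x | ∃ a ∈ Ed F ∪ Pi, E x a} := ⟨_, rfl⟩
  rw [← hU] at hcmp
  have hUm : MeasurableSet U := by rw [hU]; exact meas_sat hF _ hAm
  have hinv : Inv E U := by
    intro x y hxy hx
    rw [hU] at hx ⊢
    obtain ⟨a, ha, ha2⟩ := hx
    exact ⟨a, ha, hEq.trans (hEq.symm hxy) ha2⟩
  have hinv' : ∀ x, x ∉ U → ∀ y, E x y → y ∉ U := fun x hx y hxy hy =>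
    hx (hinv y x (hEq.symm hxy) hy)
  have hUV : ∀ x, x ∉ U → x ∈ V := by
    intro x hx
    rw [hV]
    rintro ⟨a, ha, ha2⟩
    apply hx
    rw [hU]
    exact ⟨a, Or.inl ha, ha2⟩
  have hUPi : ∀ x, x ∉ U → ∃ k, x ∉ P k := by
    intro x hx
    by_contra hcon
    push Not at hcon
    apply hx
    rw [hU]
    refine ⟨x, Or.inr ?_, hEq.refl x⟩
    rw [hPi]
    exact mem_iInter.2 hcon
  -- the projections
  obtain ⟨q, hq⟩ : ∃ q : ℕ → X → X, q = fun k => pr (shf F) (P k) := ⟨_, rfl⟩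
  have hqE : ∀ k, ∀ x ∈ V, E x (q k x) := by
    intro k x hx
    rw [hq]
    exact hactE x hx _
  have hqm : ∀ k, Measurable (q k) := by
    intro k
    rw [hq]
    exact measurable_pr hact (hP k).pm
  have hqs : ∀ k, ∀ x ∈ V, ∀ y ∈ V, q k x = q k y → q (k + 1) x = q (k + 1) y := by
    intro k x hx y hy he
    rw [hq] at he ⊢
    have he' : pr (shf F) (P k) x = pr (shf F) (P k) y := he
    show pr (shf F) (P (k + 1)) x = pr (shf F) (P (k + 1)) y
    rw [pr_pr hact (hP k) (hP (k + 1)) (hPs k) hx, pr_pr hact (hP k) (hP (k + 1)) (hPs k) hy, he']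
  have hqmono : ∀ k m, k ≤ m → ∀ x ∈ V, ∀ y ∈ V, q k x = q k y → q m x = q m y := by
    intro k m hkm x hx y hy he
    induction m, hkm using Nat.le_induction with
    | base => exact he
    | succ m _ ih => exact hqs m x hx y hy ih
  have hqn : ∀ n : ℕ, ∀ x, x ∉ U → ∃ k, q k x = q k (shf F n x) := by
    intro n
    induction n with
    | zero =>
      intro x hx
      exact ⟨0, by rw [Nat.cast_zero, hact.zero x (hUV x hx)]⟩
    | succ n ih =>
      intro x hx
      have hxV := hUV x hx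
      obtain ⟨k, hk⟩ := ih x hx
      have hy : shf F ((n + 1 : ℕ) : ℤ) x ∉ U := hinv' x hx _ (hactE x hxV _)
      obtain ⟨k', hk'⟩ := hUPi _ hy
      have e : shf F ((n + 1 : ℕ) : ℤ) x = shf F 1 (shf F n x) := by
        rw [← hact.add _ _ x hxV]
        congr 1; push_cast; ring
      have hnV : shf F n x ∈ V := hact.mem _ x hxV
      refine ⟨max k k', ?_⟩
      rw [hqmono k _ (le_max_left _ _) x hxV _ hnV hk, e, hq]
      refine (pr_step hact (hP _) hnV ?_).symm
      rw [← e]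
      intro hcon
      exact hk' (hPm _ _ (le_max_right _ _) hcon)
  have hqE2 : ∀ x, x ∉ U → ∀ y, E x y → ∃ k, q k x = q k y := by
    intro x hx y hxy
    have hxV := hUV x hx
    obtain ⟨k, hk⟩ := act_orb hF hxy
    rcases le_total 0 k with h1 | h1
    · obtain ⟨n, hn⟩ := Int.eq_ofNat_of_zero_le h1
      obtain ⟨m, hm⟩ := hqn n x hx
      refine ⟨m, ?_⟩
      have h3 : shf F ((n : ℕ) : ℤ) x = y := by rw [← hk]; congr 1; exact hn.symm
      rw [h3] at hm
      exact hm
    · have h2 : shf F (-k) y = x := by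
        rw [← hk, ← hact.add _ _ x hxV, neg_add_cancel, hact.zero x hxV]
      obtain ⟨n, hn⟩ := Int.eq_ofNat_of_zero_le (show 0 ≤ -k by omega)
      obtain ⟨m, hm⟩ := hqn n y (hinv' x hx y hxy)
      refine ⟨m, ?_⟩
      have h3 : shf F ((n : ℕ) : ℤ) y = x := by rw [← h2]; congr 1; exact hn.symm
      rw [h3] at hm
      exact hm.symm
  refine ⟨U, hUm, hinv, hcmp, fun j => 2 ^ lev ψ j, fun j => 5 ^ lev ψ j + 1, ?_,
    fun j x y => q (lev ψ j) x = q (lev ψ j) y, ?_, ?_⟩
  · intro j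
    have h1 : ψ j (5 ^ lev ψ j + 1) ≤ lev ψ (j + 1) := le_max_right _ _
    exact h1.trans Nat.lt_two_pow_self.le
  · refine ⟨fun j => ⟨fun x => rfl, fun h => h.symm, fun h h' => h.trans h'⟩, ?_, ?_, ?_, ?_⟩
    · intro j
      have hr := measurableEmbedding_embeddingReal X
      have : {p : (Uᶜ : Set X) × (Uᶜ : Set X) | q (lev ψ j) p.1 = q (lev ψ j) p.2} =
          {p | embeddingReal X (q (lev ψ j) p.1) = embeddingReal X (q (lev ψ j) p.2)} := by
        ext p
        exact ⟨fun hp => congrArg _ hp, fun hp => hr.injective hp⟩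
      show MeasurableSet {p : (Uᶜ : Set X) × (Uᶜ : Set X) | q (lev ψ j) p.1 = q (lev ψ j) p.2}
      rw [this]
      exact measurableSet_eq_fun
        (hr.measurable.comp ((hqm _).comp (measurable_subtype_coe.comp measurable_fst)))
        (hr.measurable.comp ((hqm _).comp (measurable_subtype_coe.comp measurable_snd)))
    · intro j x
      have h1 := (class_fin hact (hP (lev ψ j)) (x : X)).1
      refine (h1.preimage (f := Subtype.val) Subtype.val_injective.injOn).subset ?_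
      intro y hy
      refine ⟨hUV _ y.2, ?_⟩
      have hy' : q (lev ψ j) x = q (lev ψ j) y := hy
      rw [hq] at hy'
      exact hy'.symm
    · intro j x y hxy
      exact hqmono _ _ (lev_le ψ j) _ (hUV _ x.2) _ (hUV _ y.2) hxy
    · intro x y
      constructor
      · intro hxy
        obtain ⟨k, hk⟩ := hqE2 x x.2 y hxy
        exact ⟨k, hqmono _ _ (le_lev ψ k) _ (hUV _ x.2) _ (hUV _ y.2) hk⟩
      · rintro ⟨j, hj⟩
        have h1 := hqE (lev ψ j) x (hUV _ x.2)
        have h2 := hqE (lev ψ j) y (hUV _ y.2)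
        have hj' : q (lev ψ j) x = q (lev ψ j) y := hj
        rw [hj'] at h1
        exact hEq.trans h1 (hEq.symm h2)
  · intro j x
    have e : {y : (Uᶜ : Set X) | q (lev ψ j) x = q (lev ψ j) y}.ncard =
        {y | y ∈ V ∧ pr (shf F) (P (lev ψ j)) y = pr (shf F) (P (lev ψ j)) x}.ncard := by
      rw [← Set.ncard_image_of_injective _ Subtype.val_injective]
      congr 1
      ext y
      constructor
      · rintro ⟨z, hz, rfl⟩
        have hz' : q (lev ψ j) x = q (lev ψ j) z := hz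
        rw [hq] at hz'
        exact ⟨hUV _ z.2, hz'.symm⟩
      · rintro ⟨hyV, hy⟩
        have hy' : q (lev ψ j) x = q (lev ψ j) y := by
          rw [hq]; exact hy.symm
        have hxy : E x y := by
          have h1 := hqE (lev ψ j) x (hUV _ x.2)
          rw [hy'] at h1
          exact hEq.trans h1 (hEq.symm (hqE (lev ψ j) y hyV))
        exact ⟨⟨y, hinv' x x.2 y hxy⟩, hy', rfl⟩
    show 2 ^ lev ψ j ≤ {y : (Uᶜ : Set X) | q (lev ψ j) x = q (lev ψ j) y}.ncard ∧
      {y : (Uᶜ : Set X) | q (lev ψ j) x = q (lev ψ j) y}.ncard ≤ 5 ^ lev ψ j + 1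
    rw [e]
    exact ⟨class_ge hact (hP _) (hUV _ x.2), (class_fin hact (hP _) (x : X)).2⟩

end Pool.Agent.N480.CV
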