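import Mathlib
import Pool.Agent.N480.CV.Stm2
import Pool.Agent.N480.CV.UF

set_option autoImplicit false

/-!
Project CV: escaping mass gives compressibility (helper480).
-/

namespace Pool.Agent.N480.CV

open Set MeasureTheory TopologicalSpace Filter

namespace VAN

open UF

variable {X : Type} [MeasurableSpace X] [StandardBorelSpace X]

theorem exists_sz {E : X → X → Prop} {F : ℕ → X → X → Prop} (hF : HF E F) (hA : Ape E) (q : ℕ)
    (x : X) : ∃ n, q ≤ sz F n x := by
  classical
  have h := sq_of hF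
  obtain ⟨t, ht, hc⟩ := (hA x).exists_subset_card_eq q
  have h1 : ∀ y ∈ t, ∃ n, G F n x y := fun y hy => (E_iff hF).1 (ht hy)
  choose! N hN using h1
  refine ⟨t.sup N, ?_⟩
  unfold sz
  rw [← hc, ← Set.ncard_coe_finset]
  refine ncard_le_ncard ?_ (h.fin _ x)
  intro y hy
  exact mono_le h (Finset.le_sup (f := N) hy) (hN y hy)

/-- a sparse complete section -/
theorem sparse {E : X → X → Prop} {F : ℕ → X → X → Prop} (hF : HF E F) (hA : Ape E) (q : ℕ) :
    ∃ T : Set X, MeasurableSet T ∧ (∀ x, ∃ t ∈ T, E x t) ∧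
      ∀ x, ∀ᶠ n in atTop, q * {y | y ∈ T ∧ F n x y}.ncard ≤ {y | F n x y}.ncard := by
  classical
  have h := sq_of hF
  obtain ⟨s, hs, hsE⟩ := exists_s hF
  obtain ⟨ν, hν⟩ : ∃ ν : X → ℕ, ν = fun x => Nat.find (exists_sz hF hA q x) := ⟨_, rfl⟩
  have ν1 : ∀ x, q ≤ sz F (ν x) x := fun x => by
    rw [hν]; exact Nat.find_spec (exists_sz hF hA q x)
  have ν2 : ∀ x n, q ≤ sz F n x → ν x ≤ n := fun x n hn => by
    rw [hν]; exact Nat.find_min' (exists_sz hF hA q x) hn
  have νm : ∀ n, MeasurableSet {x | ν x = n} := by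
    intro n
    have : {x | ν x = n} = {x | q ≤ sz F n x} ∩ ⋂ m : ℕ, ⋂ _ : m < n, {x | q ≤ sz F m x}ᶜ := by
      ext x
      simp only [mem_inter_iff, mem_iInter, mem_compl_iff]
      constructor
      · intro hx
        have hx' : ν x = n := hx
        refine ⟨by rw [← hx']; exact ν1 x, fun m hm hq => ?_⟩
        have := ν2 x m hq
        omega
      · rintro ⟨h1, h2⟩
        have h3 := ν2 x n h1
        by_contra hne
        exact h2 (ν x) (lt_of_le_of_ne h3 hne) (ν1 x)
    rw [this]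
    have hle : ∀ m, MeasurableSet {x | q ≤ sz F m x} := fun m =>
      measurableSet_le measurable_const (meas_sz hF m)
    exact (hle n).inter (MeasurableSet.iInter fun m => MeasurableSet.iInter fun _ => (hle m).compl)
  obtain ⟨T, hT⟩ : ∃ T : Set X, T = {x | embeddingReal X x = mm F (embeddingReal X) (ν x) x ∧
      ∀ y, G F (ν x) x y → ν y = ν x} := ⟨_, rfl⟩
  have memT : ∀ x, x ∈ T ↔ (embeddingReal X x = mm F (embeddingReal X) (ν x) x ∧
      ∀ y, G F (ν x) x y → ν y = ν x) := fun x => by rw [hT]; rfl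
  have hr := measurableEmbedding_embeddingReal X
  refine ⟨T, ?_, ?_, ?_⟩
  · have : T = ⋃ n : ℕ, {x | ν x = n} ∩ ({x | embeddingReal X x = mm F (embeddingReal X) n x} ∩
        ⋂ j : ℕ, ({x | (x, s j x) ∈ {p : X × X | G F n p.1 p.2}}ᶜ ∪ {x | s j x ∈ {x | ν x = n}})) := by
      ext x
      simp only [mem_iUnion, mem_inter_iff, mem_iInter, mem_union, mem_compl_iff]
      rw [memT]
      constructor
      · rintro ⟨h1, h2⟩
        refine ⟨ν x, rfl, h1, fun j => ?_⟩
        by_cases hj : G F (ν x) x (s j x)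
        · exact Or.inr (h2 _ hj)
        · exact Or.inl hj
      · rintro ⟨n, h1, h2, h3⟩
        have h1' : ν x = n := h1
        subst h1'
        refine ⟨h2, fun y hy => ?_⟩
        obtain ⟨j, rfl⟩ := (hsE x y).1 ((E_iff hF).2 ⟨_, hy⟩)
        rcases h3 j with h4 | h4
        · exact absurd hy h4
        · exact h4
    rw [this]
    refine MeasurableSet.iUnion fun n => (νm n).inter (MeasurableSet.inter ?_
      (MeasurableSet.iInter fun j => MeasurableSet.union ?_ ?_))
    · exact measurableSet_eq_fun hr.measurable (meas_mm hF n)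
    · exact (measurable_id.prodMk (hs j) (meas_G hF n)).compl
    · exact hs j (νm n)
  · intro x
    have hex : ∃ n, ∃ y, E x y ∧ ν y = n := ⟨ν x, x, (E_eqv hF).refl x, rfl⟩
    obtain ⟨y, hxy, hy⟩ := Nat.find_spec hex
    have hmin : ∀ z, E x z → ν y ≤ ν z := fun z hz => by
      rw [hy]; exact Nat.find_min' hex ⟨z, hz, rfl⟩
    have hC : ∀ z, G F (ν y) y z → ν z = ν y := by
      intro z hz
      have h1 : q ≤ sz F (ν y) z := by rw [← sz_eq h hz]; exact ν1 y
      exact le_antisymm (ν2 z _ h1) (hmin z ((E_eqv hF).trans hxy ((E_iff hF).2 ⟨_, hz⟩)))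
    obtain ⟨t, ht, ht2⟩ := mm_att h (ν y) y
    refine ⟨t, ?_, (E_eqv hF).trans hxy ((E_iff hF).2 ⟨_, ht⟩)⟩
    rw [memT, hC t ht]
    refine ⟨by rw [ht2]; exact (mm_eq h).2 ht, fun z hz => ?_⟩
    rw [hC z ((h.eqv _).trans ht hz)]
  · intro x
    obtain ⟨n0, hn0⟩ := exists_sz hF hA q x
    rw [eventually_atTop]
    refine ⟨n0, fun n hn => ?_⟩
    have hsz : q ≤ sz F (n + 1) x := by
      refine le_trans hn0 ?_
      exact ncard_le_ncard (fun y hy => mono_le h (by omega : n0 ≤ n + 1) hy) (h.fin _ x)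
    have hfin : {y | F n x y}.Finite := hF.fin n x
    have hfinT : {y | y ∈ T ∧ F n x y}.Finite := hfin.subset fun y hy => hy.2
    -- the cells
    have hν : ∀ t ∈ hfinT.toFinset, G F (n + 1) x t ∧ t ∈ T ∧ ν t ≤ n + 1 := by
      intro t ht
      rw [Set.Finite.mem_toFinset] at ht
      obtain ⟨h1, h2⟩ := ht
      have h3 : G F (n + 1) x t := h2
      refine ⟨h3, h1, ν2 t _ ?_⟩
      rw [← sz_eq h h3]; exact hsz
    have hdis : ∀ t ∈ hfinT.toFinset, ∀ t' ∈ hfinT.toFinset, t ≠ t' →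
        Disjoint (h.fin (ν t) t).toFinset (h.fin (ν t') t').toFinset := by
      intro t ht t' ht' hne
      rw [Finset.disjoint_left]
      intro z hz hz'
      rw [Set.Finite.mem_toFinset] at hz hz'
      apply hne
      obtain ⟨-, h1, -⟩ := hν t ht
      obtain ⟨-, h1', -⟩ := hν t' ht'
      rw [memT] at h1 h1'
      have e1 : ν z = ν t := h1.2 z hz
      have e2 : ν z = ν t' := h1'.2 z hz'
      have e3 : ν t = ν t' := by rw [← e1, e2]
      have hz2 : G F (ν t) t z := hz
      have hz2' : G F (ν t) t' z := by rw [e3]; exact hz'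
      have e4 : G F (ν t) t t' := (h.eqv _).trans hz2 ((h.eqv _).symm hz2')
      have e5 := (mm_eq h).2 e4
      apply h.inj
      rw [h1.1, h1'.1, e5, e3]
    have hsub : hfinT.toFinset.biUnion (fun t => (h.fin (ν t) t).toFinset) ⊆ hfin.toFinset := by
      intro z hz
      rw [Finset.mem_biUnion] at hz
      obtain ⟨t, ht, hz⟩ := hz
      rw [Set.Finite.mem_toFinset] at hz ⊢
      obtain ⟨h1, -, h3⟩ := hν t ht
      have h4 : G F (n + 1) x z := (h.eqv _).trans h1 (mono_le h h3 hz)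
      exact h4
    have hcard := Finset.card_le_card hsub
    rw [Finset.card_biUnion hdis] at hcard
    have h5 : hfinT.toFinset.card * q ≤ ∑ t ∈ hfinT.toFinset, (h.fin (ν t) t).toFinset.card := by
      rw [← smul_eq_mul]
      refine Finset.card_nsmul_le_sum _ _ _ fun t _ => ?_
      have := ν1 t
      unfold sz at this
      rwa [Set.ncard_eq_toFinset_card _ (h.fin (ν t) t)] at this
    rw [Set.ncard_eq_toFinset_card _ hfinT, Set.ncard_eq_toFinset_card _ hfin, mul_comm]
    exact h5.trans hcard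

theorem cmp_univ {E : X → X → Prop} (U : Set X) (hU : ∀ x, x ∈ U) (h : Cmp (Res E U)) : Cmp E := by
  obtain ⟨st, h1, h2, h3⟩ := h
  refine ⟨fun x n => (st ⟨x, hU x⟩ n : X), fun n => ?_, fun x n => h2 ⟨x, hU x⟩ n, ?_⟩
  · exact measurable_subtype_coe.comp ((h1 n).comp (measurable_id.subtype_mk))
  · intro x x' n n' he
    obtain ⟨e1, e2⟩ := h3 _ _ _ _ (Subtype.ext he)
    exact ⟨congrArg Subtype.val e1, e2⟩

end VAN

open VAN in
theorem t_VAN (h1 : S_CC) (h2 : S_BAS) : S_VAN := by
  classical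
  intro X _ _ E F hF hA d q hd hq hfreq
  have hE := UF.E_eqv hF
  obtain ⟨T, hTm, hTc, hTs⟩ := sparse hF hA q
  obtain ⟨A, hA0, hAs⟩ : ∃ A : ℕ → Set X, A 0 = T ∧ ∀ i, A (i + 1) = {x | d x = i} :=
    ⟨fun i => Nat.casesOn i T (fun i => {x | d x = i}), rfl, fun _ => rfl⟩
  have hAm : ∀ i, MeasurableSet (A i) := by
    intro i
    cases i with
    | zero => rw [hA0]; exact hTm
    | succ i => rw [hAs]; exact hd (measurableSet_singleton i)
  obtain ⟨U, hU, hUi, hUc, h, hm, hh, hinj⟩ := h1 X E F hF hA A hAm (by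
    intro j x
    refine ((hfreq x j).and_eventually (hTs x)).mono ?_
    rintro n ⟨e1, e2⟩
    have hfin : {y | F n x y}.Finite := hF.fin n x
    have e3 : ∀ j : ℕ, ∑ i ∈ Finset.range (j + 1), {y | y ∈ A i ∧ F n x y}.ncard ≤
        {y | y ∈ T ∧ F n x y}.ncard + {y | d y < j ∧ F n x y}.ncard := by
      intro j
      induction j with
      | zero => rw [Finset.sum_range_one, hA0]; omega
      | succ j ih =>
        rw [Finset.sum_range_succ]
        have e4 : {y | d y < j ∧ F n x y}.ncard + {y | y ∈ A (j + 1) ∧ F n x y}.ncard ≤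
            {y | d y < j + 1 ∧ F n x y}.ncard := by
          rw [← ncard_union_eq _ (hfin.subset fun y hy => hy.2) (hfin.subset fun y hy => hy.2)]
          · refine ncard_le_ncard ?_ (hfin.subset fun y hy => hy.2)
            rintro y (⟨h1, h2⟩ | ⟨h1, h2⟩)
            · exact ⟨by omega, h2⟩
            · rw [hAs] at h1
              have h1' : d y = j := h1
              exact ⟨by omega, h2⟩
          · rw [Set.disjoint_left]
            rintro y ⟨h1, -⟩ ⟨h2, -⟩
            rw [hAs] at h2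
            have h2' : d y = j := h2
            omega
        omega
    have e5 : {y | d y < j ∧ F n x y}.ncard ≤ {y | d y ≤ j ∧ F n x y}.ncard :=
      ncard_le_ncard (fun y hy => ⟨le_of_lt hy.1, hy.2⟩) (hfin.subset fun y hy => hy.2)
    have e6 := e3 j
    have e7 : q * (∑ i ∈ Finset.range (j + 1), {y | y ∈ A i ∧ F n x y}.ncard) ≤
        q * {y | F n x y}.ncard := by
      calc q * (∑ i ∈ Finset.range (j + 1), {y | y ∈ A i ∧ F n x y}.ncard)
          ≤ q * ({y | y ∈ T ∧ F n x y}.ncard + {y | d y ≤ j ∧ F n x y}.ncard) :=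
            Nat.mul_le_mul_left _ (by omega)
        _ = q * {y | y ∈ T ∧ F n x y}.ncard + q * {y | d y ≤ j ∧ F n x y}.ncard := by ring
        _ ≤ {y | F n x y}.ncard + (q - 1) * {y | F n x y}.ncard := by omega
        _ = q * {y | F n x y}.ncard := by
            obtain ⟨k, rfl⟩ : ∃ k, q = k + 1 := ⟨q - 1, by omega⟩
            simp only [Nat.add_sub_cancel]
            ring
    exact Nat.le_of_mul_le_mul_left e7 hq)
  have := hU.compl.standardBorel
  have hinvc : ∀ x y, E x y → x ∉ U → y ∉ U := fun x y hxy hx hy => hx (hUi y x (hE.symm hxy) hy)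
  have hdA : ∀ x, x ∈ A (d x + 1) := fun x => by rw [hAs]; rfl
  have hfE : ∀ x, x ∉ U → E x (h (d x + 1) x) := fun x hx => hh _ x (hdA x) hx
  have hfm : Measurable fun x => h (d x + 1) x := by
    intro s hs
    have : (fun x => h (d x + 1) x) ⁻¹' s = ⋃ k : ℕ, {x | d x = k} ∩ h (k + 1) ⁻¹' s := by
      ext x
      simp only [mem_preimage, mem_iUnion, mem_inter_iff]
      constructor
      · exact fun hx => ⟨d x, rfl, hx⟩
      · rintro ⟨k, h1, h2⟩
        have h1' : d x = k := h1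
        rw [h1']; exact h2
    rw [this]
    exact MeasurableSet.iUnion fun k => (hd (measurableSet_singleton k)).inter (hm (k + 1) hs)
  have hc : Cmp (Res E Uᶜ) := by
    refine (h2 (Uᶜ : Set X) (Res E Uᶜ) (fun n => Res (F n) Uᶜ) (UF.hf_res hF _)).1
      (fun x => ⟨h (d (x : X) + 1) x, hinvc _ _ (hfE x x.2) x.2⟩) ?_ ?_ ?_ ?_
    · exact (hfm.comp measurable_subtype_coe).subtype_mk
    · intro x y hxy
      exact Subtype.ext (hinj _ _ x (hdA x) y (hdA y) x.2 y.2 (congrArg Subtype.val hxy)).2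
    · intro x
      exact hfE x x.2
    · intro x
      obtain ⟨t, ht, hxt⟩ := hTc (x : X)
      have htU : t ∉ U := hinvc _ _ hxt x.2
      have ht0 : t ∈ A 0 := by rw [hA0]; exact ht
      have h3 : E t (h 0 t) := hh 0 t ht0 htU
      refine ⟨⟨h 0 t, hinvc _ _ h3 htU⟩, hE.trans hxt h3, ?_⟩
      rintro ⟨y, hy⟩
      have h4 := (hinj _ _ y (hdA y) t ht0 y.2 htU (congrArg Subtype.val hy)).1
      omega
  -- union
  obtain ⟨V, hV0, hVs⟩ : ∃ V : ℕ → Set X, V 0 = U ∧ ∀ i, V (i + 1) = Uᶜ :=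
    ⟨fun i => Nat.casesOn i U (fun _ => Uᶜ), rfl, fun _ => rfl⟩
  refine cmp_univ (⋃ n, V n) ?_ ((h2 X E F hF).2.1 V ?_ ?_ ?_)
  · intro x
    by_cases hx : x ∈ U
    · exact mem_iUnion.2 ⟨0, by rw [hV0]; exact hx⟩
    · exact mem_iUnion.2 ⟨1, by rw [hVs 0]; exact hx⟩
  · intro n
    cases n with
    | zero => rw [hV0]; exact hU
    | succ n => rw [hVs]; exact hU.compl
  · intro n
    cases n with
    | zero => rw [hV0]; exact hUi
    | succ n => rw [hVs]; exact hinvc
  · intro n
    cases n with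
    | zero => rw [hV0]; exact hUc
    | succ n => rw [hVs]; exact hc

end Pool.Agent.N480.CV
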