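import Mathlib
import Pool.Agent.N480.CV.Fin2
import Pool.Agent.N480.CV.HFG
import Pool.Agent.N480.CV.BAS
import Pool.Agent.N480.CV.CC
import Pool.Agent.N480.CV.VAN
import Pool.Agent.N480.CV.MEAS
import Pool.Agent.N480.CV.NM
import Pool.Agent.N480.CV.RED
import Pool.Agent.N480.CV.UF
import Pool.Agent.N480.CV.OD
import Pool.Agent.N480.CV.DYE2
import Pool.Agent.N480.CV.FIB
import Pool.Agent.N480.CV.JI
import Pool.Agent.N480.CV.KBL
import Pool.Agent.N480.CV.FWD
import Pool.Agent.N480.CV.BWD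

set_option autoImplicit false

/-!
Project CV: all parts together.
-/

namespace Pool.Agent.N480.CV

theorem c_CC : S_CC := t_CC t_HFG t_BAS
theorem c_VAN : S_VAN := t_VAN c_CC t_BAS
theorem c_MEAS : S_MEAS := t_MEAS t_COL
theorem c_NM : S_NM := t_NM c_MEAS c_VAN t_BAS
theorem c_LFG : S_LFG := t_LFG c_MEAS
theorem c_UF : S_UF := t_UF t_BAS
theorem c_OD : S_OD := t_OD c_UF c_CC t_BAS
theorem c_DYE2 : S_DYE2 := t_DYE2 c_OD
theorem c_FIB : S_FIB := t_FIB c_DYE2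
theorem c_JI : S_JI := t_JI t_BAS
theorem c_FWD : S_FWD := t_FWD c_OD t_RED t_KBL
theorem c_BWD : S_BWD := t_BWD c_FIB t_RED t_KBL c_JI

end Pool.Agent.N480.CV
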