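import Mathlib
import Pool.Agent.N480.CV.Stm2
import Pool.Agent.H139R3.FM

set_option autoImplicit false

/-!
Project CV, leaf OD (helper247), part 1: measurability tools and one stage of grouping.
-/

namespace Pool.Agent.N480.CV
namespace OD

open Set MeasureTheory TopologicalSpace Filter

variable {X : Type} [MeasurableSpace X]

set_option linter.unusedSectionVars false

/-- enumeration of the classes by measurable maps -/
structure Enm (E : X → X → Prop) (s : ℕ → X → X) : Prop where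
  ms : ∀ n, Measurable (s n)
  gen : ∀ x y, E x y ↔ ∃ n, s n x = y

theorem meas_ex {E : X → X → Prop} {s : ℕ → X → X} (h : Enm E s) (G : Set (X × X))
    (hG : MeasurableSet G) : MeasurableSet {x | ∃ y, E x y ∧ (x, y) ∈ G} := by
  have : {x | ∃ y, E x y ∧ (x, y) ∈ G} = ⋃ n, (fun x => (x, s n x)) ⁻¹' G := by
    ext x
    simp only [mem_ofPred_eq, mem_iUnion, mem_preimage, h.gen]
    constructor
    · rintro ⟨y, ⟨n, rfl⟩, hy⟩; exact ⟨n, hy⟩
    · rintro ⟨n, hn⟩; exact ⟨s n x, ⟨n, rfl⟩, hn⟩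
  rw [this]
  exact MeasurableSet.iUnion fun n => (measurable_id.prodMk (h.ms n)) hG

theorem le_ncard_iff {S : Set X} (hS : S.Finite) (k : ℕ) :
    k ≤ S.ncard ↔ ∃ f : Fin k → X, Function.Injective f ∧ ∀ i, f i ∈ S := by
  classical
  constructor
  · intro h
    rw [Set.ncard_eq_toFinset_card S hS] at h
    obtain ⟨T, hT, hc⟩ := Finset.exists_subset_card_eq h
    refine ⟨fun i => ((T.equivFinOfCardEq hc).symm i).1, ?_, ?_⟩
    · exact Subtype.val_injective.comp (T.equivFinOfCardEq hc).symm.injective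
    · intro i
      have := hT ((T.equivFinOfCardEq hc).symm i).2
      simpa using this
  · rintro ⟨f, hf, hfS⟩
    have h1 : (Finset.univ.image f : Finset X).card = k := by
      rw [Finset.card_image_of_injective _ hf, Finset.card_univ, Fintype.card_fin]
    rw [← h1, ← Set.ncard_coe_finset]
    apply Set.ncard_le_ncard _ hS
    intro x hx
    simp only [Finset.coe_image, Finset.coe_univ, Set.image_univ, Set.mem_range] at hx
    obtain ⟨i, rfl⟩ := hx
    exact hfS i

theorem meas_eqfun [StandardBorelSpace X] {f g : X → X} (hf : Measurable f) (hg : Measurable g) :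
    MeasurableSet {x | f x = g x} := by
  have he := MeasureTheory.measurableEmbedding_embeddingReal X
  have : {x | f x = g x} = {x | embeddingReal X (f x) = embeddingReal X (g x)} := by
    ext x
    simp only [mem_ofPred_eq]
    exact ⟨fun h => by rw [h], fun h => he.injective h⟩
  rw [this]
  exact measurableSet_eq_fun (he.measurable.comp hf) (he.measurable.comp hg)

theorem meas_card [StandardBorelSpace X] {E : X → X → Prop} {s : ℕ → X → X} (h : Enm E s)
    (G : Set (X × X)) (hG : MeasurableSet G) (hGE : ∀ x y, (x, y) ∈ G → E x y)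
    (hfin : ∀ x, {y | (x, y) ∈ G}.Finite) : Measurable fun x => {y | (x, y) ∈ G}.ncard := by
  apply measurable_of_Ici
  intro k
  have : (fun x => {y | (x, y) ∈ G}.ncard) ⁻¹' Ici k = ⋃ t : Fin k → ℕ,
      ((⋂ i : Fin k, (fun x => (x, s (t i) x)) ⁻¹' G) ∩
        ⋂ i : Fin k, ⋂ j : Fin k, ⋂ _ : i ≠ j, {x | s (t i) x = s (t j) x}ᶜ) := by
    ext x
    simp only [mem_preimage, mem_Ici, mem_iUnion, mem_inter_iff, mem_iInter, mem_compl_iff,
      mem_ofPred_eq]
    rw [le_ncard_iff (hfin x)]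
    constructor
    · rintro ⟨f, hf, hfS⟩
      have h1 : ∀ i, ∃ n, s n x = f i := fun i => (h.gen _ _).1 (hGE _ _ (hfS i))
      choose t ht using h1
      refine ⟨t, fun i => ?_, fun i j hij => ?_⟩
      · rw [ht]; exact hfS i
      · rw [ht, ht]; exact fun hh => hij (hf hh)
    · rintro ⟨t, h1, h2⟩
      refine ⟨fun i => s (t i) x, fun i j hij => ?_, h1⟩
      by_contra hne
      exact h2 i j hne hij
  rw [this]
  refine MeasurableSet.iUnion fun t => MeasurableSet.inter ?_ ?_
  · exact MeasurableSet.iInter fun i => (measurable_id.prodMk (h.ms _)) hG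
  · exact MeasurableSet.iInter fun i => MeasurableSet.iInter fun j => MeasurableSet.iInter fun _ =>
      (meas_eqfun (h.ms _) (h.ms _)).compl

/-- measurable selectors -/
theorem exists_sel {E : X → X → Prop} {s : ℕ → X → X} (h : Enm E s)
    (G : Set (X × X)) (hG : MeasurableSet G) (hGE : ∀ x y, (x, y) ∈ G → E x y)
    (hfun : ∀ x y z, (x, y) ∈ G → (x, z) ∈ G → y = z) :
    ∃ f : X → X, Measurable f ∧ (∀ x y, (x, y) ∈ G → f x = y) ∧
      ∀ x, (x, f x) ∈ G ∨ ((∀ y, (x, y) ∉ G) ∧ f x = x) := by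
  classical
  let f : X → X := fun x => if hx : ∃ y, (x, y) ∈ G then hx.choose else x
  have e1 : ∀ x y, (x, y) ∈ G → f x = y := by
    intro x y hxy
    have hx : ∃ y, (x, y) ∈ G := ⟨y, hxy⟩
    have : f x = hx.choose := dif_pos hx
    rw [this]
    exact hfun _ _ _ hx.choose_spec hxy
  have e2 : ∀ x, (∀ y, (x, y) ∉ G) → f x = x := by
    intro x hx
    exact dif_neg (by push Not; exact hx)
  refine ⟨f, ?_, e1, ?_⟩
  · intro B hB
    have : f ⁻¹' B = {x | ∃ y, E x y ∧ (x, y) ∈ G ∩ (Prod.snd ⁻¹' B)} ∪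
        ({x | ∃ y, E x y ∧ (x, y) ∈ G}ᶜ ∩ B) := by
      ext x
      simp only [mem_preimage, mem_union, mem_ofPred_eq, mem_inter_iff, mem_compl_iff, not_exists,
        not_and]
      by_cases hx : ∃ y, (x, y) ∈ G
      · obtain ⟨y, hy⟩ := hx
        rw [e1 x y hy]
        constructor
        · intro hB'; exact Or.inl ⟨y, hGE _ _ hy, hy, hB'⟩
        · rintro (⟨z, _, hz, hzB⟩ | ⟨hh, _⟩)
          · rw [hfun _ _ _ hy hz]; exact hzB
          · exact absurd hy (hh y (hGE _ _ hy))
      · push Not at hx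
        rw [e2 x hx]
        constructor
        · intro hB'; exact Or.inr ⟨fun y _ => hx y, hB'⟩
        · rintro (⟨z, _, hz, _⟩ | ⟨_, hh⟩)
          · exact absurd hz (hx z)
          · exact hh
    rw [this]
    exact (meas_ex h _ (hG.inter (measurable_snd hB))).union ((meas_ex h _ hG).compl.inter hB)
  · intro x
    by_cases hx : ∃ y, (x, y) ∈ G
    · obtain ⟨y, hy⟩ := hx
      left; rw [e1 x y hy]; exact hy
    · push Not at hx
      exact Or.inr ⟨hx, e2 x hx⟩

/-! ### ranks in finite linearly ordered sets -/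

/-- strict linear order -/
structure SLO (lt : X → X → Prop) : Prop where
  irr : ∀ x, ¬ lt x x
  tr : ∀ x y z, lt x y → lt y z → lt x z
  tot : ∀ x y, x ≠ y → lt x y ∨ lt y x

/-- rank in a set -/
noncomputable def rk (lt : X → X → Prop) (K : Set X) (x : X) : ℕ := {y | y ∈ K ∧ lt y x}.ncard

theorem rk_lt_of_lt {lt : X → X → Prop} (hl : SLO lt) {K : Set X} (hK : K.Finite) {x y : X}
    (hx : x ∈ K) (hxy : lt x y) : rk lt K x < rk lt K y := by
  unfold rk
  apply Set.ncard_lt_ncard
  · constructor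
    · rintro z ⟨hz, hzx⟩
      exact ⟨hz, hl.tr _ _ _ hzx hxy⟩
    · intro hsub
      exact hl.irr x (hsub ⟨hx, hxy⟩ : x ∈ {y | y ∈ K ∧ lt y x}).2
  · exact hK.subset fun z hz => hz.1

theorem rk_lt {lt : X → X → Prop} (hl : SLO lt) {K : Set X} (hK : K.Finite) {x : X}
    (hx : x ∈ K) : rk lt K x < K.ncard := by
  unfold rk
  apply Set.ncard_lt_ncard
  · constructor
    · rintro z ⟨hz, _⟩
      exact hz
    · intro hsub
      exact hl.irr x (hsub hx : x ∈ {y | y ∈ K ∧ lt y x}).2
  · exact hK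

theorem rk_inj {lt : X → X → Prop} (hl : SLO lt) {K : Set X} (hK : K.Finite) {x y : X}
    (hx : x ∈ K) (hy : y ∈ K) (h : rk lt K x = rk lt K y) : x = y := by
  by_contra hne
  rcases hl.tot x y hne with h1 | h1
  · have := rk_lt_of_lt hl hK hx h1; omega
  · have := rk_lt_of_lt hl hK hy h1; omega

theorem lt_of_rk_lt {lt : X → X → Prop} (hl : SLO lt) {K : Set X} (hK : K.Finite) {x y : X}
    (hy : y ∈ K) (h : rk lt K x < rk lt K y) : lt x y := by
  by_contra hne
  by_cases hxy : x = y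
  · subst hxy; omega
  rcases hl.tot x y hxy with h1 | h1
  · exact hne h1
  · have := rk_lt_of_lt hl hK hy h1; omega

theorem rk_surj {lt : X → X → Prop} (hl : SLO lt) {K : Set X} (hK : K.Finite) {r : ℕ}
    (hr : r < K.ncard) : ∃ x ∈ K, rk lt K x = r := by
  classical
  have h1 : (hK.toFinset.image (rk lt K)) = Finset.range K.ncard := by
    apply Finset.eq_of_subset_of_card_le
    · intro a ha
      rw [Finset.mem_image] at ha
      obtain ⟨x, hx, rfl⟩ := ha
      rw [Set.Finite.mem_toFinset] at hx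
      exact Finset.mem_range.2 (rk_lt hl hK hx)
    · rw [Finset.card_image_of_injOn, Finset.card_range, ← Set.ncard_eq_toFinset_card K hK]
      intro x hx y hy h
      simp only [Set.Finite.coe_toFinset] at hx hy
      exact rk_inj hl hK hx hy h
  have h2 : r ∈ hK.toFinset.image (rk lt K) := by rw [h1]; exact Finset.mem_range.2 hr
  rw [Finset.mem_image] at h2
  obtain ⟨x, hx, h3⟩ := h2
  exact ⟨x, (Set.Finite.mem_toFinset hK).1 hx, h3⟩

/-- the output of one stage of the grouping -/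
structure Stg (F : X → X → Prop) (lt : X → X → Prop) (L : Set X) (N : ℕ) (L' : Set X)
    (b : X → X) (d : X → ℕ) (S : Set X) : Prop where
  mL : MeasurableSet L'
  mb : Measurable b
  md : Measurable d
  mS : MeasurableSet S
  sub : L' ⊆ L
  dN : ∀ x, d x < N
  fb : ∀ x, F x (b x)
  o1 : ∀ x ∈ L, x ∉ L' → b x ∈ L ∧ b x ∉ L' ∧ b (b x) = b x
  o2 : ∀ x ∈ L, x ∉ L' → ∀ y ∈ L, y ∉ L' → b x = b y → d x = d y → x = y
  o3 : ∀ x ∈ L, x ∉ L' → ∀ i < N, ∃ y ∈ L, y ∉ L' ∧ b y = b x ∧ d y = i
  o4 : ∀ x, {y | y ∈ L' ∧ F x y}.ncard ≤ N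
  o5 : ∀ P : Set X, P ⊆ L → P ∩ S = ∅ → (∀ u ∈ P, ∀ v ∈ P, F u v) →
    (∀ u ∈ P, ∀ v ∈ P, ∀ w ∈ L, F u w → lt u w → lt w v → w ∈ P) →
    ∀ u ∈ P, u ∉ L' ∧ ∀ v ∈ P, b v = b u
  o6 : ∀ x, N * {w | w ∈ S ∧ F x w}.ncard ≤ {w | w ∈ L ∧ F x w}.ncard + N * N

theorem exists_stg [StandardBorelSpace X] {E : X → X → Prop} {s : ℕ → X → X} (h : Enm E s)
    (F : X → X → Prop) (hF : Equivalence F) (hFm : MeasurableSet {p : X × X | F p.1 p.2})
    (hFE : ∀ x y, F x y → E x y) (hFf : ∀ x, {y | F x y}.Finite)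
    (lt : X → X → Prop) (hl : SLO lt) (hlm : MeasurableSet {p : X × X | lt p.1 p.2})
    (L : Set X) (hL : MeasurableSet L) (N : ℕ) (hN : 0 < N) :
    ∃ (L' : Set X) (b : X → X) (d : X → ℕ) (S : Set X), Stg F lt L N L' b d S := by
  classical
  let K : X → Set X := fun x => {y | y ∈ L ∧ F x y}
  have hKf : ∀ x, (K x).Finite := fun x => (hFf x).subset fun y hy => hy.2
  have hK : ∀ x y, F x y → K x = K y := by
    intro x y hxy
    ext z
    exact ⟨fun hz => ⟨hz.1, hF.trans (hF.symm hxy) hz.2⟩, fun hz => ⟨hz.1, hF.trans hxy hz.2⟩⟩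
  let c : X → ℕ := fun x => (K x).ncard
  let R : X → ℕ := fun x => rk lt (K x) x
  have hc : ∀ x y, F x y → c x = c y := fun x y hxy => by
    change (K x).ncard = (K y).ncard
    rw [hK x y hxy]
  have hR : ∀ x y, F x y → R y = rk lt (K x) y := fun x y hxy => by
    change rk lt (K y) y = _
    rw [hK x y hxy]
  have hself : ∀ x ∈ L, x ∈ K x := fun x hx => ⟨hx, hF.refl x⟩
  have hRc : ∀ x ∈ L, R x < c x := fun x hx => rk_lt hl (hKf x) (hself x hx)
  have hRinj : ∀ x ∈ L, ∀ y ∈ L, F x y → R x = R y → x = y := by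
    intro x hx y hy hxy hh
    rw [hR x y hxy] at hh
    exact rk_inj hl (hKf x) (hself x hx) ⟨hy, hxy⟩ hh
  have hRs : ∀ x, ∀ r < c x, ∃ y ∈ L, F x y ∧ R y = r := by
    intro x r hr
    obtain ⟨y, hy, hyr⟩ := rk_surj hl (hKf x) hr
    exact ⟨y, hy.1, hy.2, by rw [hR x y hy.2]; exact hyr⟩
  have hRlt : ∀ x ∈ L, ∀ y ∈ L, F x y → R x < R y → lt x y := by
    intro x hx y hy hxy hh
    rw [hR x y hxy] at hh
    exact lt_of_rk_lt hl (hKf x) ⟨hy, hxy⟩ hh
  have hcm : Measurable c := by
    refine meas_card h {p | p.2 ∈ L ∧ F p.1 p.2} ?_ (fun x y hxy => hFE x y hxy.2) hKf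
    exact (measurable_snd hL).inter hFm
  have hRm : Measurable R := by
    refine meas_card h {p | (p.2 ∈ L ∧ F p.1 p.2) ∧ lt p.2 p.1} ?_
      (fun x y hxy => hFE x y hxy.1.2) (fun x => (hKf x).subset fun y hy => hy.1)
    exact ((measurable_snd hL).inter hFm).inter
      (hlm.preimage (measurable_snd.prodMk measurable_fst))
  have hdiv : ∀ r, N * (r / N) ≤ r := fun r => Nat.mul_div_le r N
  have hdiv2 : ∀ r, r < N * (r / N + 1) := fun r => by
    have h1 := Nat.div_add_mod r N
    have h2 := Nat.mod_lt r hN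
    rw [mul_add, mul_one]; omega
  let L' : Set X := {x | x ∈ L ∧ N * (c x / N) ≤ R x}
  have hL'm : MeasurableSet L' :=
    hL.inter (measurableSet_le ((measurable_of_countable fun n : ℕ => N * (n / N)).comp hcm) hRm)
  have hnL' : ∀ x ∈ L, x ∉ L' → R x < N * (c x / N) := by
    intro x hx hx'
    by_contra hcon
    exact hx' ⟨hx, not_lt.1 hcon⟩
  obtain ⟨b, hbm, hb1, hb2⟩ := exists_sel h
    {p : X × X | (p.2 ∈ L ∧ F p.1 p.2) ∧ R p.2 = N * (R p.1 / N)}
    (((measurable_snd hL).inter hFm).inter (measurableSet_eq_fun (hRm.comp measurable_snd)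
      ((measurable_of_countable fun n : ℕ => N * (n / N)).comp (hRm.comp measurable_fst))))
    (fun x y hxy => hFE x y hxy.1.2)
    (fun x y z hy hz => hRinj y hy.1.1 z hz.1.1 (hF.trans (hF.symm hy.1.2) hz.1.2)
      (hy.2.trans hz.2.symm))
  have hfb : ∀ x, F x (b x) := by
    intro x
    rcases hb2 x with h1 | ⟨_, h1⟩
    · exact h1.1.2
    · rw [h1]; exact hF.refl x
  have hbx : ∀ x ∈ L, b x ∈ L ∧ R (b x) = N * (R x / N) := by
    intro x hx
    obtain ⟨y, hy, hxy, hyr⟩ := hRs x (N * (R x / N)) (lt_of_le_of_lt (hdiv _) (hRc x hx))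
    rw [hb1 x y ⟨⟨hy, hxy⟩, hyr⟩]
    exact ⟨hy, hyr⟩
  have hbq : ∀ x ∈ L, ∀ y ∈ L, F x y → R x / N = R y / N → b x = b y := by
    intro x hx y hy hxy hh
    apply hb1
    obtain ⟨h1, h2⟩ := hbx y hy
    refine ⟨⟨h1, hF.trans hxy (hfb y)⟩, ?_⟩
    rw [h2, hh]
  have hbq' : ∀ x ∈ L, ∀ y ∈ L, b x = b y → R x / N = R y / N := by
    intro x hx y hy hh
    have h1 := (hbx x hx).2
    have h2 := (hbx y hy).2
    rw [hh, h2] at h1
    exact (Nat.eq_of_mul_eq_mul_left hN h1).symm
  let S : Set X := {w | w ∈ L ∧ (R w % N = 0 ∨ N * (c w / N) ≤ R w)}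
  have hSm : MeasurableSet S := by
    refine hL.inter (MeasurableSet.union ?_ ?_)
    · exact measurableSet_eq_fun ((measurable_of_countable fun n : ℕ => n % N).comp hRm)
        measurable_const
    · exact measurableSet_le ((measurable_of_countable fun n : ℕ => N * (n / N)).comp hcm) hRm
  refine ⟨L', b, fun x => R x % N, S, hL'm, hbm,
    (measurable_of_countable fun n : ℕ => n % N).comp hRm, hSm, fun x hx => hx.1,
    fun x => Nat.mod_lt _ hN, hfb, ?_, ?_, ?_, ?_, ?_, ?_⟩
  · intro x hx hx'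
    obtain ⟨h1, h2⟩ := hbx x hx
    have h3 := hnL' x hx hx'
    refine ⟨h1, fun h4 => ?_, ?_⟩
    · have h5 := h4.2
      rw [← hc x (b x) (hfb x), h2] at h5
      have := hdiv (R x)
      omega
    · apply hbq (b x) h1 x hx (hF.symm (hfb x))
      rw [h2, Nat.mul_div_cancel_left _ hN]
  · intro x hx _ y hy _ hxy hd
    have h1 := hbq' x hx y hy hxy
    have h2 : F x y := hF.trans (hfb x) (hxy ▸ hF.symm (hfb y))
    apply hRinj x hx y hy h2
    rw [← Nat.div_add_mod (R x) N, ← Nat.div_add_mod (R y) N, h1]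
    rw [hd]
  · intro x hx hx' i hi
    have h3 := hnL' x hx hx'
    have h4 : R x / N < c x / N := by
      rw [Nat.div_lt_iff_lt_mul hN, mul_comm]; exact h3
    have h5 : N * (R x / N) + i < N * (c x / N) := by
      calc N * (R x / N) + i < N * (R x / N) + N := by omega
        _ = N * (R x / N + 1) := by ring
        _ ≤ N * (c x / N) := Nat.mul_le_mul_left N h4
    obtain ⟨y, hy, hxy, hyr⟩ := hRs x (N * (R x / N) + i) (lt_of_lt_of_le h5 (hdiv _))
    have h6 : R y / N = R x / N := by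
      rw [hyr, Nat.mul_add_div hN, Nat.div_eq_of_lt hi, add_zero]
    refine ⟨y, hy, ?_, ?_, ?_⟩
    · intro h7
      have h8 := h7.2
      rw [← hc x y hxy, hyr] at h8
      omega
    · exact hbq y hy x hx (hF.symm hxy) h6
    · rw [hyr, Nat.mul_add_mod, Nat.mod_eq_of_lt hi]
  · intro x
    have h1 : {y | y ∈ L' ∧ F x y}.ncard ≤ ((Finset.Ico (N * (c x / N)) (c x) : Finset ℕ) :
        Set ℕ).ncard := by
      apply Set.ncard_le_ncard_of_injOn R
      · intro y hy
        simp only [Finset.coe_Ico, mem_Ico]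
        refine ⟨?_, ?_⟩
        · have := hy.1.2
          rwa [← hc x y hy.2] at this
        · have := hRc y hy.1.1
          rwa [← hc x y hy.2] at this
      · intro y hy z hz hh
        exact hRinj y hy.1.1 z hz.1.1 (hF.trans (hF.symm hy.2) hz.2) hh
    rw [Set.ncard_coe_finset, Nat.card_Ico] at h1
    have h2 := Nat.div_add_mod (c x) N
    have h3 := Nat.mod_lt (c x) hN
    omega
  · intro P hPL hPS hPF hconv
    have hnS : ∀ u ∈ P, R u % N ≠ 0 ∧ R u < N * (c u / N) := by
      intro u hu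
      have h1 : u ∉ S := fun h2 => by
        have : u ∈ P ∩ S := ⟨hu, h2⟩
        rw [hPS] at this; exact this
      constructor
      · intro h2; exact h1 ⟨hPL hu, Or.inl h2⟩
      · by_contra h2; exact h1 ⟨hPL hu, Or.inr (not_lt.1 h2)⟩
    have key : ∀ u ∈ P, ∀ v ∈ P, ¬ (R u / N < R v / N) := by
      intro u hu v hv hlt
      obtain ⟨w, hw, huw, hwr⟩ := hRs u (N * (R v / N))
        (lt_of_le_of_lt (hdiv _) (by rw [hc u v (hPF u hu v hv)]; exact hRc v (hPL hv)))
      have h1 : R u < R w := by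
        rw [hwr]
        exact lt_of_lt_of_le (hdiv2 _) (Nat.mul_le_mul_left N hlt)
      have h2 : R w % N = 0 := by rw [hwr]; exact Nat.mul_mod_right N _
      have hvw : F w v := hF.trans (hF.symm huw) (hPF u hu v hv)
      have h3 : R w < R v := by
        rcases lt_or_eq_of_le (hwr ▸ hdiv (R v) : R w ≤ R v) with h4 | h4
        · exact h4
        · exact absurd (h4 ▸ h2) (hnS v hv).1
      have h5 : w ∈ P := hconv u hu v hv w hw huw (hRlt u (hPL hu) w hw huw h1)
        (hRlt w hw v (hPL hv) hvw h3)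
      exact (hnS w h5).1 h2
    intro u hu
    refine ⟨fun h1 => ?_, fun v hv => ?_⟩
    · have := h1.2
      have := (hnS u hu).2
      omega
    · apply hbq v (hPL hv) u (hPL hu) (hPF v hv u hu)
      have h1 := key u hu v hv
      have h2 := key v hv u hu
      omega
  · intro x
    have h1 : {w | w ∈ S ∧ F x w}.ncard ≤ (((Finset.range (c x / N)).image (fun i => N * i) ∪
        Finset.Ico (N * (c x / N)) (c x) : Finset ℕ) : Set ℕ).ncard := by
      apply Set.ncard_le_ncard_of_injOn R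
      · intro y hy
        simp only [Finset.coe_union, Finset.coe_image, Finset.coe_range, Finset.coe_Ico,
          mem_union, Set.mem_image, mem_Iio, mem_Ico]
        have h2 := hRc y hy.1.1
        rw [← hc x y hy.2] at h2
        by_cases h3 : N * (c x / N) ≤ R y
        · exact Or.inr ⟨h3, h2⟩
        · left
          rcases hy.1.2 with h4 | h4
          · refine ⟨R y / N, ?_, ?_⟩
            · rw [Nat.div_lt_iff_lt_mul hN, mul_comm]; omega
            · have := Nat.div_add_mod (R y) N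
              omega
          · rw [← hc x y hy.2] at h4
            exact absurd h4 h3
      · intro y hy z hz hh
        exact hRinj y hy.1.1 z hz.1.1 (hF.trans (hF.symm hy.2) hz.2) hh
    rw [Set.ncard_coe_finset] at h1
    have h2 : ((Finset.range (c x / N)).image (fun i => N * i) ∪
        Finset.Ico (N * (c x / N)) (c x) : Finset ℕ).card ≤ c x / N + (c x - N * (c x / N)) := by
      refine (Finset.card_union_le _ _).trans ?_
      rw [Nat.card_Ico]
      gcongr
      exact Finset.card_image_le.trans (by rw [Finset.card_range])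
    have h3 := Nat.div_add_mod (c x) N
    have h4 := Nat.mod_lt (c x) hN
    have h5 : {w | w ∈ S ∧ F x w}.ncard ≤ c x / N + N := by omega
    calc N * {w | w ∈ S ∧ F x w}.ncard ≤ N * (c x / N + N) := Nat.mul_le_mul_left N h5
      _ = N * (c x / N) + N * N := by ring
      _ ≤ c x + N * N := by have := hdiv (c x); omega

end OD
end Pool.Agent.N480.CV
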