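import Pool.Agent.N480.CV.OD1

set_option autoImplicit false

/-!
Project CV, leaf OD (helper247), part 2: grouping along the finite relations.
-/

namespace Pool.Agent.N480.CV
namespace OD

open Set MeasureTheory TopologicalSpace Filter

set_option linter.unusedSectionVars false

variable {X : Type} [MeasurableSpace X]

theorem hf_le {E : X → X → Prop} {F : ℕ → X → X → Prop} (h : HF E F) {m n : ℕ} (hmn : m ≤ n)
    {x y : X} (hxy : F m x y) : F n x y := by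
  induction n, hmn using Nat.le_induction with
  | base => exact hxy
  | succ n _ ih => exact h.mono n x y ih

theorem hf_E {E : X → X → Prop} {F : ℕ → X → X → Prop} (h : HF E F) {n : ℕ} {x y : X}
    (hxy : F n x y) : E x y := (h.union x y).2 ⟨n, hxy⟩

theorem hf_eqv {E : X → X → Prop} {F : ℕ → X → X → Prop} (h : HF E F) : Equivalence E := by
  refine ⟨fun x => hf_E h ((h.eqv 0).refl x), fun {x y} hxy => ?_, fun {x y z} hxy hyz => ?_⟩
  · obtain ⟨n, hn⟩ := (h.union x y).1 hxy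
    exact hf_E h ((h.eqv n).symm hn)
  · obtain ⟨n, hn⟩ := (h.union x y).1 hxy
    obtain ⟨m, hm⟩ := (h.union y z).1 hyz
    exact hf_E h ((h.eqv (max n m)).trans (hf_le h (le_max_left _ _) hn)
      (hf_le h (le_max_right _ _) hm))

theorem hf_shift {E : X → X → Prop} {F : ℕ → X → X → Prop} (h : HF E F) (k : ℕ) :
    HF E (fun m => F (k + m)) := by
  refine ⟨fun n => h.eqv _, fun n => h.meas _, fun n x => h.fin _ x,
    fun n x y hxy => h.mono _ x y hxy, fun x y => ⟨fun hxy => ?_, ?_⟩⟩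
  · obtain ⟨n, hn⟩ := (h.union x y).1 hxy
    exact ⟨n, hf_le h (by omega) hn⟩
  · rintro ⟨n, hn⟩
    exact hf_E h hn

theorem hf_enm [StandardBorelSpace X] {E : X → X → Prop} {F : ℕ → X → X → Prop} (h : HF E F) :
    ∃ s : ℕ → X → X, Enm E s := by
  obtain ⟨s, h1, _, h3⟩ := Pool.Agent.H139R3.FM.feldman_moore E (hf_eqv h)
    (by
      have : {p : X × X | E p.1 p.2} = ⋃ n, {p : X × X | F n p.1 p.2} := by
        ext p
        simp only [mem_ofPred_eq, mem_iUnion, h.union]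
      rw [this]
      exact MeasurableSet.iUnion h.meas)
    (fun x => by
      have : {y | E x y} = ⋃ n, {y | F n x y} := by
        ext y
        simp only [mem_ofPred_eq, mem_iUnion, h.union]
      rw [this]
      exact countable_iUnion fun n => (h.fin n x).countable)
  exact ⟨s, h1, h3⟩

/-- finitely many related points are related at some stage -/
theorem hf_fin {E : X → X → Prop} {F : ℕ → X → X → Prop} (h : HF E F) (x : X) (T : Finset X)
    (hT : ∀ t ∈ T, E x t) : ∃ n, ∀ t ∈ T, F n x t := by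
  classical
  induction T using Finset.induction_on with
  | empty => exact ⟨0, by simp⟩
  | insert a T ha ih =>
    obtain ⟨n, hn⟩ := ih fun t ht => hT t (Finset.mem_insert_of_mem ht)
    obtain ⟨m, hm⟩ := (h.union x a).1 (hT a (Finset.mem_insert_self _ _))
    refine ⟨max n m, fun t ht => ?_⟩
    rw [Finset.mem_insert] at ht
    rcases ht with rfl | ht
    · exact hf_le h (le_max_right _ _) hm
    · exact hf_le h (le_max_left _ _) (hn t ht)

/-- grouping of the points of `D` in groups of `N` points -/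
structure Grp (E : X → X → Prop) (F : ℕ → X → X → Prop) (lt : X → X → Prop) (D : Set X) (N : ℕ)
    (Z : Set X) (bk : X → X) (dg : X → ℕ) (S : Set X) : Prop where
  mZ : MeasurableSet Z
  mbk : Measurable bk
  mdg : Measurable dg
  mS : MeasurableSet S
  ZD : Z ⊆ D
  eb : ∀ x, E x (bk x)
  dN : ∀ x, dg x < N
  g1 : ∀ x ∈ D, x ∉ Z → bk x ∈ D ∧ bk x ∉ Z ∧ bk (bk x) = bk x
  g2 : ∀ x ∈ D, x ∉ Z → ∀ y ∈ D, y ∉ Z → bk x = bk y → dg x = dg y → x = y
  g3 : ∀ x ∈ D, x ∉ Z → ∀ i < N, ∃ y ∈ D, y ∉ Z ∧ bk y = bk x ∧ dg y = i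
  g4 : ∀ x, {t | t ∈ Z ∧ E x t}.Finite
  g5 : ∀ n x, {y | y ∈ D ∧ F n x y ∧
    ¬ (y ∉ Z ∧ ∀ z ∈ D, z ∉ Z → bk z = bk y → F n x z)}.ncard ≤ N
  g6 : ∀ P : Set X, P ⊆ D → P ∩ S = ∅ → (∀ u ∈ P, ∀ v ∈ P, F 0 u v) →
    (∀ u ∈ P, ∀ v ∈ P, ∀ w ∈ D, F 0 u w → lt u w → lt w v → w ∈ P) →
    ∀ u ∈ P, F 0 u (bk u) ∧ ∀ v ∈ P, bk v = bk u
  g7 : ∀ x, N * {w | w ∈ S ∧ F 0 x w}.ncard ≤ {w | w ∈ D ∧ F 0 x w}.ncard + N * N

theorem exists_grp [StandardBorelSpace X] {E : X → X → Prop} {F : ℕ → X → X → Prop}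
    (hF : HF E F) (lt : X → X → Prop) (hl : SLO lt)
    (hlm : MeasurableSet {p : X × X | lt p.1 p.2}) (D : Set X) (hD : MeasurableSet D) (N : ℕ)
    (hN : 0 < N) : ∃ (Z : Set X) (bk : X → X) (dg : X → ℕ) (S : Set X),
      Grp E F lt D N Z bk dg S := by
  classical
  obtain ⟨s, hs⟩ := hf_enm hF
  have hst : ∀ (m : ℕ) (L : {L : Set X // MeasurableSet L}), ∃ (L' : Set X) (b : X → X)
      (d : X → ℕ) (S : Set X), Stg (F m) lt L.1 N L' b d S := fun m L =>
    exists_stg hs (F m) (hF.eqv m) (hF.meas m) (fun x y hxy => hf_E hF hxy) (hF.fin m) lt hl hlm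
      L.1 L.2 N hN
  choose L' b d S hS using hst
  let Λ : ℕ → {L : Set X // MeasurableSet L} := fun m =>
    Nat.rec ⟨D, hD⟩ (fun m L => ⟨L' m L, (hS m L).mL⟩) m
  have hΛ0 : (Λ 0).1 = D := rfl
  have hΛs : ∀ m, (Λ (m + 1)).1 = L' m (Λ m) := fun m => rfl
  have hanti : ∀ m n, m ≤ n → (Λ n).1 ⊆ (Λ m).1 := by
    intro m n hmn
    induction n, hmn using Nat.le_induction with
    | base => exact subset_rfl
    | succ n _ ih => exact ((hS n (Λ n)).sub).trans ih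
  have hSt : ∀ m, Stg (F m) lt (Λ m).1 N (Λ (m + 1)).1 (b m (Λ m)) (d m (Λ m)) (S m (Λ m)) :=
    fun m => hS m (Λ m)
  set Z : Set X := ⋂ m, (Λ m).1 with hZ
  have hZm : MeasurableSet Z := MeasurableSet.iInter fun m => (Λ m).2
  have hZD : Z ⊆ D := iInter_subset _ 0
  let p : ℕ → X → Prop := fun m x => x ∉ (Λ (m + 1)).1 ∨ x ∈ Z
  have hpm : ∀ m, MeasurableSet {x | p m x} := fun m => ((Λ (m + 1)).2.compl).union hZm
  have hex : ∀ x, ∃ m, p m x := by
    intro x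
    by_cases hx : x ∈ Z
    · exact ⟨0, Or.inr hx⟩
    · rw [hZ, mem_iInter] at hx
      push Not at hx
      obtain ⟨m, hm⟩ := hx
      exact ⟨m, Or.inl fun h => hm (hanti m (m + 1) (Nat.le_succ m) h)⟩
  let st : X → ℕ := fun x => Nat.find (hex x)
  have st_spec : ∀ x ∈ D, x ∉ Z → x ∈ (Λ (st x)).1 ∧ x ∉ (Λ (st x + 1)).1 := by
    intro x hx hxZ
    have h1 : p (st x) x := Nat.find_spec (hex x)
    refine ⟨?_, h1.resolve_right hxZ⟩
    rcases Nat.eq_zero_or_pos (st x) with h2 | h2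
    · rw [h2]; exact hx
    · have h3 : ¬ p (st x - 1) x := Nat.find_min (hex x) (by change st x - 1 < st x; omega)
      have h4 : x ∈ (Λ (st x - 1 + 1)).1 := by
        by_contra h5
        exact h3 (Or.inl h5)
      rwa [Nat.sub_add_cancel h2] at h4
  have st_eq : ∀ x m, x ∈ (Λ m).1 → x ∉ (Λ (m + 1)).1 → x ∈ D ∧ x ∉ Z ∧ st x = m := by
    intro x m h1 h2
    have hxZ : x ∉ Z := fun h3 => h2 (mem_iInter.1 h3 (m + 1))
    refine ⟨hanti 0 m (Nat.zero_le m) h1, hxZ, ?_⟩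
    rw [Nat.find_eq_iff]
    refine ⟨Or.inl h2, fun k hk h3 => ?_⟩
    rcases h3 with h3 | h3
    · exact h3 (hanti (k + 1) m hk h1)
    · exact hxZ h3
  let bk : X → X := fun x => b (st x) (Λ (st x)) x
  let dg : X → ℕ := fun x => d (st x) (Λ (st x)) x
  have hbkm : Measurable bk :=
    Measurable.find (f := fun m x => b m (Λ m) x) (fun m => (hSt m).mb) hpm hex
  have hdgm : Measurable dg :=
    Measurable.find (f := fun m x => d m (Λ m) x) (fun m => (hSt m).md) hpm hex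
  have hbk : ∀ x m, st x = m → bk x = b m (Λ m) x := by
    rintro x m rfl; rfl
  have hdg : ∀ x m, st x = m → dg x = d m (Λ m) x := by
    rintro x m rfl; rfl
  have hb1 : ∀ x ∈ D, x ∉ Z → bk x ∈ D ∧ bk x ∉ Z ∧ bk (bk x) = bk x ∧ st (bk x) = st x := by
    intro x hx hxZ
    obtain ⟨h1, h2⟩ := st_spec x hx hxZ
    obtain ⟨h3, h4, h5⟩ := (hSt (st x)).o1 x h1 h2
    obtain ⟨h6, h7, h8⟩ := st_eq (bk x) (st x) h3 h4
    exact ⟨h6, h7, by rw [hbk (bk x) (st x) h8]; exact h5, h8⟩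
  have hsteq : ∀ x ∈ D, x ∉ Z → ∀ y ∈ D, y ∉ Z → bk x = bk y → st x = st y := by
    intro x hx hxZ y hy hyZ hxy
    rw [← (hb1 x hx hxZ).2.2.2, ← (hb1 y hy hyZ).2.2.2, hxy]
  have hfb : ∀ x m, st x = m → F m x (bk x) := by
    rintro x m rfl
    exact (hSt (st x)).fb x
  refine ⟨Z, bk, dg, S 0 (Λ 0), hZm, hbkm, hdgm, (hSt 0).mS, hZD, fun x => hf_E hF (hfb x _ rfl),
    fun x => (hSt (st x)).dN x, fun x hx hxZ => ⟨(hb1 x hx hxZ).1, (hb1 x hx hxZ).2.1,
      (hb1 x hx hxZ).2.2.1⟩, ?_, ?_, ?_, ?_, ?_, ?_⟩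
  · intro x hx hxZ y hy hyZ hxy hd
    have h1 := hsteq x hx hxZ y hy hyZ hxy
    obtain ⟨h2, h3⟩ := st_spec x hx hxZ
    obtain ⟨h4, h5⟩ := st_spec y hy hyZ
    rw [← h1] at h4 h5
    refine (hSt (st x)).o2 x h2 h3 y h4 h5 ?_ ?_
    · rw [← hbk x _ rfl, ← hbk y _ h1.symm]; exact hxy
    · rw [← hdg x _ rfl, ← hdg y _ h1.symm]; exact hd
  · intro x hx hxZ i hi
    obtain ⟨h2, h3⟩ := st_spec x hx hxZ
    obtain ⟨y, hy1, hy2, hy3, hy4⟩ := (hSt (st x)).o3 x h2 h3 i hi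
    obtain ⟨h6, h7, h8⟩ := st_eq y (st x) hy1 hy2
    exact ⟨y, h6, h7, by rw [hbk y _ h8, hbk x _ rfl]; exact hy3, by rw [hdg y _ h8]; exact hy4⟩
  · intro x
    by_contra hinf
    obtain ⟨T, hT, hc⟩ := Set.Infinite.exists_subset_card_eq hinf (N + 1)
    obtain ⟨n, hn⟩ := hf_fin hF x T fun t ht => (hT ht).2
    have h1 : (T : Set X).ncard ≤ {y | y ∈ (Λ (n + 1)).1 ∧ F n x y}.ncard := by
      apply Set.ncard_le_ncard
      · intro t ht
        exact ⟨mem_iInter.1 (hT ht).1 (n + 1), hn t ht⟩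
      · exact (hF.fin n x).subset fun y hy => hy.2
    rw [Set.ncard_coe_finset, hc] at h1
    have h2 := (hSt n).o4 x
    omega
  · intro n x
    refine le_trans (Set.ncard_le_ncard ?_ ?_) ((hSt n).o4 x)
    · rintro y ⟨hy, hxy, hnot⟩
      refine ⟨?_, hxy⟩
      by_contra hyn
      apply hnot
      have hyZ : y ∉ Z := fun h => hyn (mem_iInter.1 h (n + 1))
      refine ⟨hyZ, fun z hz hzZ hzy => ?_⟩
      have h1 : st y ≤ n := Nat.find_min' (hex y) (Or.inl hyn)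
      have h2 := hsteq z hz hzZ y hy hyZ hzy
      have h3 : F (st y) z (bk z) := hfb z _ h2
      have h4 : F (st y) y (bk y) := hfb y _ rfl
      rw [hzy] at h3
      exact (hF.eqv n).trans hxy (hf_le hF h1 ((hF.eqv _).trans h4 ((hF.eqv _).symm h3)))
    · exact (hF.fin n x).subset fun y hy => hy.2
  · intro P hP hPS hPF hconv u hu
    have h1 := (hSt 0).o5 P hP hPS hPF hconv
    have h2 : ∀ v ∈ P, st v = 0 := fun v hv => (st_eq v 0 (hP hv) (h1 v hv).1).2.2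
    refine ⟨hfb u 0 (h2 u hu), fun v hv => ?_⟩
    rw [hbk v 0 (h2 v hv), hbk u 0 (h2 u hu)]
    exact (h1 u hu).2 v hv
  · exact (hSt 0).o6

end OD
end Pool.Agent.N480.CV
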