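import Pool.Agent.N480.CV.OD2

set_option autoImplicit false

/-!
Project CV, leaf OD (helper247), part 3: the tower of groupings, counting.
-/

namespace Pool.Agent.N480.CV
namespace OD

open Set MeasureTheory TopologicalSpace Filter

set_option linter.unusedSectionVars false

variable {X : Type} [MeasurableSpace X]

/-- the orders: the classes of `F j` are convex for `lt j` -/
structure Ord (F : ℕ → X → X → Prop) (lt : ℕ → X → X → Prop) : Prop where
  slo : ∀ j, SLO (lt j)
  meas : ∀ j, MeasurableSet {p : X × X | lt j p.1 p.2}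
  conv : ∀ j u v w, F j u v → lt j u w → lt j w v → F j u w

theorem exists_ord [StandardBorelSpace X] {E : X → X → Prop} {F : ℕ → X → X → Prop}
    (hF : HF E F) : ∃ lt : ℕ → X → X → Prop, Ord F lt := by
  classical
  obtain ⟨s, hs⟩ := hf_enm hF
  have he := MeasureTheory.measurableEmbedding_embeddingReal X
  set e : X → ℝ := embeddingReal X with hedef
  have key : ∀ j, ∃ κ : X → X, Measurable κ ∧ (∀ x, F j x (κ x)) ∧
      ∀ x y, F j x y → κ x = κ y := by
    intro j
    have hG : MeasurableSet {p : X × X | F j p.1 p.2 ∧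
        ¬ ∃ n, F j p.1 (s n p.1) ∧ e (s n p.1) < e p.2} := by
      suffices hA : MeasurableSet {p : X × X | ∃ n, F j p.1 (s n p.1) ∧ e (s n p.1) < e p.2} from
        (hF.meas j).inter hA.compl
      have : {p : X × X | ∃ n, F j p.1 (s n p.1) ∧ e (s n p.1) < e p.2} =
          ⋃ n, ((fun p : X × X => (p.1, s n p.1)) ⁻¹' {p | F j p.1 p.2}) ∩
            {p : X × X | e (s n p.1) < e p.2} := by
        ext p
        simp only [mem_ofPred_eq, mem_iUnion, mem_inter_iff, mem_preimage]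
      rw [this]
      refine MeasurableSet.iUnion fun n => MeasurableSet.inter ?_ ?_
      · exact (measurable_fst.prodMk ((hs.ms n).comp measurable_fst)) (hF.meas j)
      · exact measurableSet_lt (he.measurable.comp ((hs.ms n).comp measurable_fst))
          (he.measurable.comp measurable_snd)
    have hmin : ∀ x y, (F j x y ∧ ¬ ∃ n, F j x (s n x) ∧ e (s n x) < e y) ↔
        F j x y ∧ ∀ z, F j x z → e y ≤ e z := by
      intro x y
      constructor
      · rintro ⟨h1, h2⟩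
        refine ⟨h1, fun z hz => ?_⟩
        by_contra h3
        obtain ⟨n, hn⟩ := (hs.gen x z).1 (hf_E hF hz)
        exact h2 ⟨n, by rw [hn]; exact hz, by rw [hn]; exact not_le.1 h3⟩
      · rintro ⟨h1, h2⟩
        refine ⟨h1, ?_⟩
        rintro ⟨n, h3, h4⟩
        exact absurd (h2 _ h3) (not_le.2 h4)
    obtain ⟨κ, hκ1, hκ2, hκ3⟩ := exists_sel hs _ hG (fun x y hxy => hf_E hF hxy.1)
      (fun x y z hy hz => by
        have h1 := (hmin x y).1 hy
        have h2 := (hmin x z).1 hz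
        exact he.injective (le_antisymm (h1.2 z h2.1) (h2.2 y h1.1)))
    have hex : ∀ x, ∃ y, F j x y ∧ ∀ z, F j x z → e y ≤ e z := by
      intro x
      obtain ⟨y, hy, hy2⟩ := Set.exists_min_image {y | F j x y} e (hF.fin j x)
        ⟨x, (hF.eqv j).refl x⟩
      exact ⟨y, hy, fun z hz => hy2 z hz⟩
    have hκ4 : ∀ x, F j x (κ x) ∧ ∀ z, F j x z → e (κ x) ≤ e z := by
      intro x
      rcases hκ3 x with h | ⟨h, _⟩
      · exact (hmin x _).1 h
      · obtain ⟨y, hy⟩ := hex x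
        exact absurd ((hmin x y).2 hy) (h y)
    refine ⟨κ, hκ1, fun x => (hκ4 x).1, fun x y hxy => ?_⟩
    have h1 := hκ4 x
    have h2 := hκ4 y
    exact he.injective (le_antisymm (h1.2 _ ((hF.eqv j).trans hxy h2.1))
      (h2.2 _ ((hF.eqv j).trans ((hF.eqv j).symm hxy) h1.1)))
  choose κ hκm hκ1 hκ2 using key
  refine ⟨fun j x y => e (κ j x) < e (κ j y) ∨ (e (κ j x) = e (κ j y) ∧ e x < e y),
    fun j => ⟨?_, ?_, ?_⟩, fun j => ?_, ?_⟩
  · rintro x (h | ⟨_, h⟩)
    · exact lt_irrefl _ h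
    · exact lt_irrefl _ h
  · rintro x y z (h1 | ⟨h1, h1'⟩) (h2 | ⟨h2, h2'⟩)
    · exact Or.inl (h1.trans h2)
    · exact Or.inl (h2 ▸ h1)
    · exact Or.inl (h1 ▸ h2)
    · exact Or.inr ⟨h1.trans h2, h1'.trans h2'⟩
  · intro x y hxy
    have hne : e x ≠ e y := fun h => hxy (he.injective h)
    rcases lt_trichotomy (e (κ j x)) (e (κ j y)) with h | h | h
    · exact Or.inl (Or.inl h)
    · rcases lt_or_gt_of_ne hne with h' | h'
      · exact Or.inl (Or.inr ⟨h, h'⟩)
      · exact Or.inr (Or.inr ⟨h.symm, h'⟩)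
    · exact Or.inr (Or.inl h)
  · have m1 : Measurable fun p : X × X => e (κ j p.1) :=
      he.measurable.comp ((hκm j).comp measurable_fst)
    have m2 : Measurable fun p : X × X => e (κ j p.2) :=
      he.measurable.comp ((hκm j).comp measurable_snd)
    exact (measurableSet_lt m1 m2).union ((measurableSet_eq_fun m1 m2).inter
      (measurableSet_lt (he.measurable.comp measurable_fst) (he.measurable.comp measurable_snd)))
  · intro j u v w huv h1 h2
    have h3 : e (κ j u) ≤ e (κ j w) := by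
      rcases h1 with h | ⟨h, _⟩
      · exact h.le
      · exact h.le
    have h4 : e (κ j w) ≤ e (κ j v) := by
      rcases h2 with h | ⟨h, _⟩
      · exact h.le
      · exact h.le
    rw [← hκ2 j u v huv] at h4
    have h5 : κ j u = κ j w := he.injective (le_antisymm h3 h4)
    exact (hF.eqv j).trans (hκ1 j u) (h5 ▸ (hF.eqv j).symm (hκ1 j w))

/-- the tower -/
structure Tw (E : X → X → Prop) (F : ℕ → X → X → Prop) (N : ℕ → ℕ) (lt : ℕ → X → X → Prop) where
  D : ℕ → Set X
  Z : ℕ → Set X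
  bk : ℕ → X → X
  dg : ℕ → X → ℕ
  S : ℕ → Set X
  D0 : D 0 = univ
  Ds : ∀ j, D (j + 1) = {x | x ∈ D j ∧ x ∉ Z j ∧ bk j x = x}
  mD : ∀ j, MeasurableSet (D j)
  grp : ∀ j, Grp E (fun m => F (j + 1 + m)) (lt j) (D j) (N j) (Z j) (bk j) (dg j) (S j)

theorem exists_tw [StandardBorelSpace X] {E : X → X → Prop} {F : ℕ → X → X → Prop}
    (hF : HF E F) {lt : ℕ → X → X → Prop} (ho : Ord F lt) (N : ℕ → ℕ) (hN : ∀ j, 0 < N j) :
    Nonempty (Tw E F N lt) := by
  classical
  have hst : ∀ (j : ℕ) (D : {D : Set X // MeasurableSet D}), ∃ (Z : Set X) (bk : X → X)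
      (dg : X → ℕ) (S : Set X), Grp E (fun m => F (j + 1 + m)) (lt j) D.1 (N j) Z bk dg S :=
    fun j D => exists_grp (hf_shift hF (j + 1)) (lt j) (ho.slo j) (ho.meas j) D.1 D.2 (N j) (hN j)
  choose Z bk dg S hG using hst
  have hm : ∀ j (D : {D : Set X // MeasurableSet D}),
      MeasurableSet {x | x ∈ D.1 ∧ x ∉ Z j D ∧ bk j D x = x} := fun j D =>
    D.2.inter ((hG j D).mZ.compl.inter (meas_eqfun (hG j D).mbk measurable_id))
  let Dm : ℕ → {D : Set X // MeasurableSet D} := fun j =>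
    Nat.rec ⟨univ, MeasurableSet.univ⟩
      (fun j D => ⟨{x | x ∈ D.1 ∧ x ∉ Z j D ∧ bk j D x = x}, hm j D⟩) j
  exact ⟨⟨fun j => (Dm j).1, fun j => Z j (Dm j), fun j => bk j (Dm j), fun j => dg j (Dm j),
    fun j => S j (Dm j), rfl, fun j => rfl, fun j => (Dm j).2, fun j => hG j (Dm j)⟩⟩

section tower

variable {E : X → X → Prop} {F : ℕ → X → X → Prop} {N : ℕ → ℕ} {lt : ℕ → X → X → Prop}

/-- the position at level `j` -/
def Tw.pos (t : Tw E F N lt) : ℕ → X → X
  | 0, x => x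
  | j + 1, x => t.bk j (t.pos j x)

/-- the good set -/
def Tw.Y (t : Tw E F N lt) : Set X := {x | ∀ j z, E x z → z ∉ t.Z j}

theorem Tw.pos_succ (t : Tw E F N lt) (j : ℕ) (x : X) : t.pos (j + 1) x = t.bk j (t.pos j x) :=
  rfl

theorem Tw.Y_inv (t : Tw E F N lt) (hF : HF E F) {x y : X} (h : E x y) (hx : x ∈ t.Y) :
    y ∈ t.Y := fun j z hz => hx j z ((hf_eqv hF).trans h hz)

theorem Tw.E_pos (t : Tw E F N lt) (hF : HF E F) (j : ℕ) (x : X) : E x (t.pos j x) := by
  induction j with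
  | zero => exact (hf_eqv hF).refl x
  | succ j ih => exact (hf_eqv hF).trans ih ((t.grp j).eb _)

theorem Tw.notZ (t : Tw E F N lt) (hF : HF E F) {x : X} (hx : x ∈ t.Y) (j : ℕ) : x ∉ t.Z j :=
  hx j x ((hf_eqv hF).refl x)

theorem Tw.pos_mem (t : Tw E F N lt) (hF : HF E F) {x : X} (hx : x ∈ t.Y) (j : ℕ) :
    t.pos j x ∈ t.D j := by
  induction j with
  | zero => rw [t.D0]; trivial
  | succ j ih =>
    have h1 : t.pos j x ∉ t.Z j := hx j _ (t.E_pos hF j x)
    obtain ⟨h2, h3, h4⟩ := (t.grp j).g1 _ ih h1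
    rw [t.Ds]
    exact ⟨h2, h3, h4⟩

theorem Tw.pos_self (t : Tw E F N lt) {u : X} (j : ℕ) (hu : u ∈ t.D j) : t.pos j u = u := by
  induction j with
  | zero => rfl
  | succ j ih =>
    rw [t.Ds] at hu
    rw [t.pos_succ, ih hu.1]
    exact hu.2.2

theorem Tw.inj (t : Tw E F N lt) (hF : HF E F) {x y : X} (hx : x ∈ t.Y) (hy : y ∈ t.Y) (j : ℕ)
    (h : t.pos j x = t.pos j y) (hd : ∀ i < j, t.dg i (t.pos i x) = t.dg i (t.pos i y)) :
    x = y := by
  induction j with
  | zero => exact h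
  | succ j ih =>
    apply ih _ fun i hi => hd i (by omega)
    exact (t.grp j).g2 _ (t.pos_mem hF hx j) (hx j _ (t.E_pos hF j x)) _ (t.pos_mem hF hy j)
      (hy j _ (t.E_pos hF j y)) h (hd j (by omega))

theorem Tw.surj (t : Tw E F N lt) (hF : HF E F) (j : ℕ) : ∀ u ∈ t.Y, u ∈ t.D j → ∀ d : ℕ → ℕ,
    (∀ i < j, d i < N i) → ∃ y, t.pos j y = u ∧ ∀ i < j, t.dg i (t.pos i y) = d i := by
  induction j with
  | zero => exact fun u _ _ d _ => ⟨u, rfl, by simp⟩
  | succ j ih =>
    intro u hu huD d hd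
    rw [t.Ds] at huD
    obtain ⟨h1, h2, h3⟩ := huD
    obtain ⟨v, hv1, hv2, hv3, hv4⟩ := (t.grp j).g3 u h1 h2 (d j) (hd j (by omega))
    rw [h3] at hv3
    have hvY : v ∈ t.Y := t.Y_inv hF ((hf_eqv hF).symm (hv3 ▸ (t.grp j).eb v)) hu
    obtain ⟨y, hy1, hy2⟩ := ih v hvY hv1 d fun i hi => hd i (by omega)
    refine ⟨y, by rw [t.pos_succ, hy1, hv3], fun i hi => ?_⟩
    rcases Nat.lt_succ_iff_lt_or_eq.1 hi with h | rfl
    · exact hy2 i h
    · rw [hy1, hv4]

/-- the size of the groups -/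
def MM (N : ℕ → ℕ) (j : ℕ) : ℕ := ∏ i ∈ Finset.range j, N i

theorem Tw.fib (t : Tw E F N lt) (hF : HF E F) (j : ℕ) {u : X} (hu : u ∈ t.Y)
    (huD : u ∈ t.D j) : {y | t.pos j y = u}.Finite ∧ {y | t.pos j y = u}.ncard = MM N j := by
  classical
  have hY : ∀ y, t.pos j y = u → y ∈ t.Y := fun y hy =>
    t.Y_inv hF ((hf_eqv hF).symm (hy ▸ t.E_pos hF j y)) hu
  let φ : {y | t.pos j y = u} → ((i : Fin j) → Fin (N i)) := fun y i =>
    ⟨t.dg i (t.pos i y), (t.grp i).dN _⟩
  have hφ : Function.Bijective φ := by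
    constructor
    · intro y z hyz
      apply Subtype.ext
      apply t.inj hF (hY y.1 y.2) (hY z.1 z.2) j (y.2.trans z.2.symm)
      intro i hi
      have := congrFun hyz ⟨i, hi⟩
      exact congrArg Fin.val this
    · intro f
      obtain ⟨y, hy1, hy2⟩ := t.surj hF j u hu huD
        (fun i => if h : i < j then (f ⟨i, h⟩ : ℕ) else 0) (fun i hi => by
          simp only [dif_pos hi]
          exact (f ⟨i, hi⟩).2)
      refine ⟨⟨y, hy1⟩, ?_⟩
      funext i
      apply Fin.ext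
      have := hy2 i i.2
      simp only [dif_pos i.2] at this
      exact this
  constructor
  · have : Finite {y | t.pos j y = u} := Finite.of_injective φ hφ.1
    exact Set.toFinite _
  · rw [← Nat.card_coe_set_eq, Nat.card_congr (Equiv.ofBijective φ hφ),
      Nat.card_eq_fintype_card, Fintype.card_pi]
    simp only [Fintype.card_fin]
    exact Fin.prod_univ_eq_prod_range N j

end tower

end OD
end Pool.Agent.N480.CV
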