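import Pool.Agent.N480.CV.OD3

set_option autoImplicit false

/-!
Project CV, leaf OD (helper247), part 4: counting.
-/

namespace Pool.Agent.N480.CV
namespace OD

open Set MeasureTheory TopologicalSpace Filter

set_option linter.unusedSectionVars false

variable {X : Type} [MeasurableSpace X]

/-- covering by few sets -/
theorem ncard_le_cover {A T : Set X} (hA : A.Finite) (f : X → Set X) (M : ℕ)
    (hf : ∀ a ∈ A, (f a).Finite ∧ (f a).ncard ≤ M) (hT : ∀ y ∈ T, ∃ a ∈ A, y ∈ f a) :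
    T.ncard ≤ M * A.ncard := by
  classical
  have h1 : (⋃ a ∈ A, f a).Finite := hA.biUnion fun a ha => (hf a ha).1
  have h2 : T.ncard ≤ (⋃ a ∈ A, f a).ncard := by
    apply Set.ncard_le_ncard _ h1
    intro y hy
    obtain ⟨a, ha, hya⟩ := hT y hy
    exact mem_biUnion ha hya
  refine h2.trans ?_
  have h3 : (⋃ a ∈ A, f a) ⊆ ((hA.toFinset.biUnion fun a =>
      if h : a ∈ A then (hf a h).1.toFinset else ∅ : Finset X) : Set X) := by
    intro y hy
    rw [mem_iUnion₂] at hy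
    obtain ⟨a, ha, hya⟩ := hy
    rw [Finset.mem_coe, Finset.mem_biUnion]
    refine ⟨a, (Set.Finite.mem_toFinset hA).2 ha, ?_⟩
    rw [dif_pos ha, Set.Finite.mem_toFinset]
    exact hya
  refine (Set.ncard_le_ncard h3 (Finset.finite_toSet _)).trans ?_
  rw [Set.ncard_coe_finset, Set.ncard_eq_toFinset_card A hA, mul_comm]
  apply Finset.card_biUnion_le_card_mul
  intro a ha
  rw [Set.Finite.mem_toFinset] at ha
  rw [dif_pos ha, ← Set.ncard_eq_toFinset_card _ (hf a ha).1]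
  exact (hf a ha).2

/-- summation over the classes of `F'` inside a class of `F` -/
theorem sum_classes {F' : X → X → Prop} (hF' : Equivalence F') (K : Set X) (hK : K.Finite)
    (hKF : ∀ x ∈ K, ∀ y, F' x y → y ∈ K) (A B : Set X) (a b c : ℕ)
    (h : ∀ x ∈ K, a * {y | y ∈ A ∧ F' x y}.ncard ≤ b * {y | y ∈ B ∧ F' x y}.ncard +
      c * {y | F' x y}.ncard) :
    a * {y | y ∈ A ∧ y ∈ K}.ncard ≤ b * {y | y ∈ B ∧ y ∈ K}.ncard + c * K.ncard := by
  classical
  let sd : Setoid X := ⟨F', hF'⟩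
  let κ : X → X := fun x => (Quotient.mk sd x).out
  have hκ1 : ∀ x, F' x (κ x) := fun x => hF'.symm (Quotient.mk_out (s := sd) x)
  have hκ2 : ∀ x y, F' x y ↔ κ x = κ y := by
    intro x y
    constructor
    · intro hxy
      have : Quotient.mk sd x = Quotient.mk sd y := Quotient.sound hxy
      change (Quotient.mk sd x).out = (Quotient.mk sd y).out
      rw [this]
    · intro hxy
      exact hF'.trans (hκ1 x) (hxy ▸ hF'.symm (hκ1 y))
  set Kf := hK.toFinset with hKf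
  have hmem : ∀ x, x ∈ Kf ↔ x ∈ K := fun x => Set.Finite.mem_toFinset hK
  have key : ∀ P : Set X, {y | y ∈ P ∧ y ∈ K}.ncard =
      ∑ z ∈ Kf.image κ, ((Kf.filter (fun y => y ∈ P)).filter (fun y => κ y = z)).card := by
    intro P
    rw [← Finset.card_eq_sum_card_fiberwise (f := κ) (s := Kf.filter (fun y => y ∈ P))
      (t := Kf.image κ)]
    · rw [← Set.ncard_coe_finset]
      congr 1
      ext y
      simp only [Finset.coe_filter, mem_ofPred_eq, hmem]
      tauto
    · intro y hy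
      simp only [Finset.coe_filter, mem_ofPred_eq] at hy
      exact Finset.mem_coe.2 (Finset.mem_image_of_mem _ hy.1)
  have key2 : ∀ P : Set X, ∀ x ∈ K, ((Kf.filter (fun y => y ∈ P)).filter
      (fun y => κ y = κ x)).card = {y | y ∈ P ∧ F' x y}.ncard := by
    intro P x hx
    rw [← Set.ncard_coe_finset]
    congr 1
    ext y
    simp only [Finset.coe_filter, mem_ofPred_eq, Finset.mem_filter, hmem]
    constructor
    · rintro ⟨⟨h1, h2⟩, h3⟩
      exact ⟨h2, (hκ2 x y).2 h3.symm⟩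
    · rintro ⟨h1, h2⟩
      exact ⟨⟨hKF x hx y h2, h1⟩, ((hκ2 x y).1 h2).symm⟩
  have hKe : K.ncard = {y | y ∈ (univ : Set X) ∧ y ∈ K}.ncard := by
    congr 1; ext y; simp
  rw [hKe, key A, key B, key univ, Finset.mul_sum, Finset.mul_sum, Finset.mul_sum,
    ← Finset.sum_add_distrib]
  refine Finset.sum_le_sum fun z hz => ?_
  rw [Finset.mem_image] at hz
  obtain ⟨x, hx, rfl⟩ := hz
  rw [hmem] at hx
  rw [key2 A x hx, key2 B x hx, key2 univ x hx]
  have := h x hx
  simpa using this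

section tower

variable {E : X → X → Prop} {F : ℕ → X → X → Prop} {N : ℕ → ℕ} {lt : ℕ → X → X → Prop}

/-- the boundary of a class -/
def Tw.bd (t : Tw E F N lt) (j n : ℕ) (x : X) : Set X :=
  {y | F n x y ∧ ∃ z, t.pos j z = t.pos j y ∧ ¬ F n x z}

theorem Tw.bd_fin (t : Tw E F N lt) (hF : HF E F) (j n : ℕ) (x : X) : (t.bd j n x).Finite :=
  (hF.fin n x).subset fun _ hy => hy.1

theorem Tw.bd_le (t : Tw E F N lt) (hF : HF E F) (j : ℕ) :
    ∃ B : ℕ, ∀ n, j ≤ n → ∀ x ∈ t.Y, (t.bd j n x).ncard ≤ B := by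
  induction j with
  | zero =>
    refine ⟨0, fun n _ x _ => ?_⟩
    have : t.bd 0 n x = ∅ := by
      ext y
      simp only [Tw.bd, Tw.pos, mem_ofPred_eq, mem_empty_iff_false, iff_false]
      rintro ⟨h1, z, rfl, h2⟩
      exact h2 h1
    rw [this, Set.ncard_empty]
  | succ j ih =>
    obtain ⟨B, hB⟩ := ih
    refine ⟨MM N (j + 1) * (B + N j), fun n hn x hx => ?_⟩
    obtain ⟨m, rfl⟩ : ∃ m, n = j + 1 + m := ⟨n - (j + 1), by omega⟩
    have h5 := (t.grp j).g5 m x
    set Un := {y | y ∈ t.D j ∧ F (j + 1 + m) x y ∧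
      ¬ (y ∉ t.Z j ∧ ∀ z ∈ t.D j, z ∉ t.Z j → t.bk j z = t.bk j y → F (j + 1 + m) x z)} with hUn
    have hUf : Un.Finite := (hF.fin (j + 1 + m) x).subset fun y hy => hy.2.1
    have hEx : ∀ {y}, F (j + 1 + m) x y → y ∈ t.Y := fun {y} hy => t.Y_inv hF (hf_E hF hy) hx
    have h6 : (t.bd (j + 1) (j + 1 + m) x).ncard ≤
        MM N (j + 1) * (t.bd j (j + 1 + m) x ∪ Un).ncard := by
      apply ncard_le_cover ((t.bd_fin hF _ _ _).union hUf)
        (fun w => {y | t.pos (j + 1) y = t.pos (j + 1) w})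
      · intro w hw
        have hwY : w ∈ t.Y := by
          rcases hw with hw | hw
          · exact hEx hw.1
          · exact hEx hw.2.1
        have hpY : t.pos (j + 1) w ∈ t.Y := t.Y_inv hF (t.E_pos hF _ _) hwY
        have := t.fib hF (j + 1) hpY (t.pos_mem hF hwY (j + 1))
        exact ⟨this.1, this.2.le⟩
      · intro y hy
        obtain ⟨h7, z, h8, h9⟩ := hy
        have hyY : y ∈ t.Y := hEx h7
        have hzY : z ∈ t.Y := by
          apply t.Y_inv hF _ hyY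
          exact (hf_eqv hF).trans (t.E_pos hF (j + 1) y)
            (h8 ▸ (hf_eqv hF).symm (t.E_pos hF (j + 1) z))
        by_cases hyb : y ∈ t.bd j (j + 1 + m) x
        · exact ⟨y, Or.inl hyb, rfl⟩
        have hyb' : ∀ z', t.pos j z' = t.pos j y → F (j + 1 + m) x z' := by
          intro z' hz'
          by_contra hcon
          exact hyb ⟨h7, z', hz', hcon⟩
        have huD := t.pos_mem hF hyY j
        have hxu : F (j + 1 + m) x (t.pos j y) := hyb' _ (t.pos_self j huD)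
        by_cases huU : t.pos j y ∈ Un
        · refine ⟨t.pos j y, Or.inr huU, ?_⟩
          simp only [mem_ofPred_eq, Tw.pos_succ]
          rw [t.pos_self j huD]
        · have h10 : t.pos j y ∉ t.Z j ∧ ∀ z ∈ t.D j, z ∉ t.Z j →
              t.bk j z = t.bk j (t.pos j y) → F (j + 1 + m) x z := by
            by_contra hcon
            exact huU ⟨huD, hxu, hcon⟩
          have hvD := t.pos_mem hF hzY j
          have hvZ : t.pos j z ∉ t.Z j := hzY j _ (t.E_pos hF j z)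
          have hxv := h10.2 _ hvD hvZ h8
          refine ⟨t.pos j z, Or.inl ⟨hxv, z, (t.pos_self j hvD).symm, h9⟩, ?_⟩
          simp only [mem_ofPred_eq, Tw.pos_succ]
          rw [t.pos_self j hvD]
          exact h8.symm
    refine h6.trans (Nat.mul_le_mul_left _ ?_)
    exact (Set.ncard_union_le _ _).trans (add_le_add (hB _ (by omega) x hx) h5)

/-- the bad points at level `j` -/
def Tw.bad (t : Tw E F N lt) (j : ℕ) : Set X :=
  {u | u ∈ t.D j ∧ ∃ v ∈ t.D j, F j u v ∧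
    ¬ (t.bk j v = t.bk j u ∧ F (j + 1) u (t.bk j u))}

theorem Tw.bad_S (t : Tw E F N lt) (hF : HF E F) (ho : Ord F lt) (j : ℕ) {u : X}
    (hu : u ∈ t.bad j) : ∃ w ∈ t.S j, F j w u := by
  by_contra hcon
  push Not at hcon
  obtain ⟨huD, v, hvD, huv, hnot⟩ := hu
  apply hnot
  have h1 := (t.grp j).g6 {w | w ∈ t.D j ∧ F j u w} (fun w hw => hw.1) (by
      ext w
      simp only [mem_inter_iff, mem_ofPred_eq, mem_empty_iff_false, iff_false]
      rintro ⟨⟨_, h2⟩, h3⟩
      exact hcon w h3 ((hF.eqv j).symm h2))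
    (fun a ha b hb => hf_le hF (by omega) ((hF.eqv j).trans ((hF.eqv j).symm ha.2) hb.2))
    (fun a ha b hb w hw _ h3 h4 => ⟨hw, (hF.eqv j).trans ha.2
      (ho.conv j a b w ((hF.eqv j).trans ((hF.eqv j).symm ha.2) hb.2) h3 h4)⟩)
    u ⟨huD, (hF.eqv j).refl u⟩
  exact ⟨h1.2 v ⟨hvD, huv⟩, h1.1⟩

theorem Tw.bad_card (t : Tw E F N lt) (hF : HF E F) (ho : Ord F lt) (j n : ℕ) (hn : j ≤ n)
    (C : ℕ) (hC : ∀ y, {z | F j y z}.ncard ≤ C) (x : X) :
    {u | u ∈ t.bad j ∧ F n x u}.ncard ≤ C * {w | w ∈ t.S j ∧ F n x w}.ncard := by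
  apply ncard_le_cover ((hF.fin n x).subset fun y hy => hy.2) (fun w => {u | F j w u})
  · intro w _
    exact ⟨hF.fin j w, hC w⟩
  · rintro u ⟨hu, hxu⟩
    obtain ⟨w, hw, hwu⟩ := t.bad_S hF ho j hu
    exact ⟨w, ⟨hw, (hF.eqv n).trans hxu (hf_le hF hn ((hF.eqv j).symm hwu))⟩, hwu⟩

theorem Tw.S_card (t : Tw E F N lt) (hF : HF E F) (j n : ℕ) (hn : j + 1 ≤ n)
    (L : ℕ) (hL : ∀ y, L ≤ {z | F (j + 1) y z}.ncard) (x : X) :
    (N j * L) * {w | w ∈ t.S j ∧ F n x w}.ncard ≤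
      L * {w | w ∈ t.D j ∧ F n x w}.ncard + (N j * N j) * {w | F n x w}.ncard := by
  apply sum_classes (hF.eqv (j + 1)) {w | F n x w} (hF.fin n x)
    (fun y hy z hz => (hF.eqv n).trans hy (hf_le hF hn hz)) (t.S j) (t.D j)
  intro y _
  have h1 := (t.grp j).g7 y
  simp only [add_zero] at h1
  have h2 := hL y
  calc N j * L * {w | w ∈ t.S j ∧ F (j + 1) y w}.ncard
      = L * (N j * {w | w ∈ t.S j ∧ F (j + 1) y w}.ncard) := by ring
    _ ≤ L * ({w | w ∈ t.D j ∧ F (j + 1) y w}.ncard + N j * N j) := Nat.mul_le_mul_left _ h1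
    _ = L * {w | w ∈ t.D j ∧ F (j + 1) y w}.ncard + (N j * N j) * L := by ring
    _ ≤ _ := by gcongr

theorem Tw.D_card (t : Tw E F N lt) (hF : HF E F) (j n : ℕ) {x : X} (hx : x ∈ t.Y) :
    MM N j * {w | w ∈ t.D j ∧ F n x w}.ncard ≤
      {w | F n x w}.ncard + MM N j * (t.bd j n x).ncard := by
  classical
  have hK := hF.fin n x
  set U : Set X := {w | (w ∈ t.D j ∧ F n x w) ∧ w ∉ t.bd j n x} with hU
  have hUf : U.Finite := hK.subset fun w hw => hw.1.2
  have h1 : MM N j * U.ncard ≤ {w | F n x w}.ncard := by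
    have h2 : ∀ u ∈ U, {y | t.pos j y = u}.Finite ∧ {y | t.pos j y = u}.ncard = MM N j ∧
        ∀ y, t.pos j y = u → F n x y := by
      intro u hu
      have huY : u ∈ t.Y := t.Y_inv hF (hf_E hF hu.1.2) hx
      have h3 := t.fib hF j huY hu.1.1
      refine ⟨h3.1, h3.2, fun y hy => ?_⟩
      by_contra hcon
      exact hu.2 ⟨hu.1.2, y, by rw [t.pos_self j hu.1.1]; exact hy, hcon⟩
    have h3 : (hK.toFinset.filter (fun y => t.pos j y ∈ U)).card =
        ∑ u ∈ hUf.toFinset, ((hK.toFinset.filter (fun y => t.pos j y ∈ U)).filter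
          (fun y => t.pos j y = u)).card := by
      apply Finset.card_eq_sum_card_fiberwise
      intro y hy
      simp only [Finset.coe_filter, mem_ofPred_eq] at hy
      simp only [Set.Finite.coe_toFinset]
      exact hy.2
    have h4 : ∀ u ∈ hUf.toFinset, ((hK.toFinset.filter (fun y => t.pos j y ∈ U)).filter
          (fun y => t.pos j y = u)).card = MM N j := by
      intro u hu
      rw [Set.Finite.mem_toFinset] at hu
      obtain ⟨h5, h6, h7⟩ := h2 u hu
      rw [← h6, ← Set.ncard_coe_finset]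
      congr 1
      ext y
      simp only [Finset.coe_filter, mem_ofPred_eq, Finset.mem_filter, Set.Finite.mem_toFinset]
      constructor
      · exact fun h => h.2
      · intro h
        exact ⟨⟨h7 y h, by rw [h]; exact hu⟩, h⟩
    rw [Finset.sum_congr rfl h4, Finset.sum_const, smul_eq_mul,
      ← Set.ncard_eq_toFinset_card U hUf] at h3
    rw [mul_comm, ← h3, Set.ncard_eq_toFinset_card _ hK]
    exact Finset.card_filter_le _ _
  have h8 : {w | w ∈ t.D j ∧ F n x w}.ncard ≤ U.ncard + (t.bd j n x).ncard := by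
    refine le_trans (Set.ncard_le_ncard ?_ (hUf.union (t.bd_fin hF j n x)))
      (Set.ncard_union_le _ _)
    intro w hw
    by_cases h : w ∈ t.bd j n x
    · exact Or.inr h
    · exact Or.inl ⟨hw, h⟩
  calc MM N j * {w | w ∈ t.D j ∧ F n x w}.ncard ≤ MM N j * (U.ncard + (t.bd j n x).ncard) :=
        Nat.mul_le_mul_left _ h8
    _ = MM N j * U.ncard + MM N j * (t.bd j n x).ncard := by ring
    _ ≤ _ := by gcongr

/-- the points whose position is bad -/
def Tw.A (t : Tw E F N lt) (j : ℕ) : Set X := {x | x ∈ t.Y ∧ t.pos j x ∈ t.bad j}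

theorem Tw.A_card (t : Tw E F N lt) (hF : HF E F) (j n : ℕ) {x : X} (hx : x ∈ t.Y) :
    {y | y ∈ t.A j ∧ F n x y}.ncard ≤
      (t.bd j n x).ncard + MM N j * {u | u ∈ t.bad j ∧ F n x u}.ncard := by
  have hK := hF.fin n x
  have h1 : {y | y ∈ t.A j ∧ F n x y} ⊆ t.bd j n x ∪
      {y | t.pos j y ∈ {u | u ∈ t.bad j ∧ F n x u}} := by
    rintro y ⟨⟨hyY, hy⟩, hxy⟩
    by_cases h : F n x (t.pos j y)
    · exact Or.inr ⟨hy, h⟩
    · exact Or.inl ⟨hxy, t.pos j y, t.pos_self j (t.pos_mem hF hyY j), h⟩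
  have h2 : ∀ u ∈ {u | u ∈ t.bad j ∧ F n x u}, {y | t.pos j y = u}.Finite ∧
      {y | t.pos j y = u}.ncard ≤ MM N j := by
    rintro u ⟨hu, hxu⟩
    have := t.fib hF j (t.Y_inv hF (hf_E hF hxu) hx) hu.1
    exact ⟨this.1, this.2.le⟩
  have hAf : {u | u ∈ t.bad j ∧ F n x u}.Finite := hK.subset fun u hu => hu.2
  have h3 : {y | t.pos j y ∈ {u | u ∈ t.bad j ∧ F n x u}}.Finite := by
    have : {y | t.pos j y ∈ {u | u ∈ t.bad j ∧ F n x u}} =
        ⋃ u ∈ {u | u ∈ t.bad j ∧ F n x u}, {y | t.pos j y = u} := by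
      ext y; simp
    rw [this]
    exact hAf.biUnion fun u hu => (h2 u hu).1
  refine (Set.ncard_le_ncard h1 ((t.bd_fin hF j n x).union h3)).trans ?_
  refine (Set.ncard_union_le _ _).trans (add_le_add le_rfl ?_)
  exact ncard_le_cover hAf (fun u => {y | t.pos j y = u}) _ h2
    (fun y hy => ⟨t.pos j y, hy, rfl⟩)

theorem arith (β k δ σ τ a M Nj L C P : ℕ) (h1 : a ≤ β + M * τ) (h2 : τ ≤ C * σ)
    (h3 : (Nj * L) * σ ≤ L * δ + (Nj * Nj) * k) (h4 : M * δ ≤ k + M * β)
    (h5 : 4 * P * C ≤ Nj) (h6 : 4 * P * C * M * Nj ≤ L) (hN : 0 < Nj) (hL : 0 < L)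
    (hk : 4 * P * (Nj * L + C * L * M) * β ≤ k) : P * a ≤ k := by
  have e1 : (Nj * L) * a ≤ (Nj * L) * β + (Nj * L) * (M * (C * σ)) := by
    calc (Nj * L) * a ≤ (Nj * L) * (β + M * (C * σ)) :=
          Nat.mul_le_mul_left _ (h1.trans (by gcongr))
      _ = _ := by ring
  have e2 : (Nj * L) * (M * (C * σ)) ≤ C * (L * (k + M * β) + M * (Nj * Nj) * k) := by
    calc (Nj * L) * (M * (C * σ)) = C * (M * ((Nj * L) * σ)) := by ring
      _ ≤ C * (M * (L * δ + (Nj * Nj) * k)) := by gcongr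
      _ = C * (L * (M * δ) + M * (Nj * Nj) * k) := by ring
      _ ≤ _ := by gcongr
  have e3 : (Nj * L) * (4 * P * a) ≤ (Nj * L) * (4 * k) := by
    have f1 : 4 * P * C * L * k ≤ Nj * L * k := by gcongr
    have f2 : 4 * P * C * M * Nj * (Nj * k) ≤ L * (Nj * k) := by gcongr
    have f3 : k ≤ Nj * L * k := by
      have : 1 ≤ Nj * L := Nat.mul_pos hN hL
      nlinarith
    calc (Nj * L) * (4 * P * a) = 4 * P * ((Nj * L) * a) := by ring
      _ ≤ 4 * P * ((Nj * L) * β + C * (L * (k + M * β) + M * (Nj * Nj) * k)) := by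
          gcongr
          exact e1.trans (by gcongr)
      _ = 4 * P * (Nj * L + C * L * M) * β + 4 * P * C * L * k +
          4 * P * C * M * Nj * (Nj * k) := by ring
      _ ≤ k + Nj * L * k + L * (Nj * k) := by gcongr
      _ ≤ Nj * L * k + Nj * L * k + L * (Nj * k) := by gcongr
      _ = (Nj * L) * (3 * k) := by ring
      _ ≤ (Nj * L) * (4 * k) := by gcongr; omega
  have e4 := Nat.le_of_mul_le_mul_left e3 (Nat.mul_pos hN hL)
  nlinarith

theorem card_tendsto {E : X → X → Prop} {F : ℕ → X → X → Prop} (hF : HF E F) (ha : Ape E)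
    (x : X) (B : ℕ) : ∀ᶠ n in atTop, B ≤ {y | F n x y}.ncard := by
  obtain ⟨T, hT, hc⟩ := Set.Infinite.exists_subset_card_eq (ha x) B
  obtain ⟨n, hn⟩ := hf_fin hF x T fun t ht => hT ht
  filter_upwards [eventually_ge_atTop n] with m hm
  rw [← hc, ← Set.ncard_coe_finset]
  apply Set.ncard_le_ncard _ (hF.fin m x)
  intro t ht
  exact hf_le hF hm (hn t ht)

theorem Tw.dens (t : Tw E F N lt) (hF : HF E F) (ho : Ord F lt) (ha : Ape E) (j : ℕ) (C L : ℕ)
    (hC : ∀ y, {z | F j y z}.ncard ≤ C) (hL : ∀ y, L ≤ {z | F (j + 1) y z}.ncard)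
    (hN : 0 < N j) (hL0 : 0 < L) (P : ℕ) (h5 : 4 * P * C ≤ N j)
    (h6 : 4 * P * C * MM N j * N j ≤ L) (x : X) :
    ∀ᶠ n in atTop, P * {y | y ∈ t.A j ∧ F n x y}.ncard ≤ {y | F n x y}.ncard := by
  by_cases hx : x ∈ t.Y
  · obtain ⟨B, hB⟩ := t.bd_le hF j
    filter_upwards [card_tendsto hF ha x (4 * P * (N j * L + C * L * MM N j) * B),
      eventually_ge_atTop (j + 1)] with n hn hj
    refine arith (t.bd j n x).ncard _ {w | w ∈ t.D j ∧ F n x w}.ncard
      {w | w ∈ t.S j ∧ F n x w}.ncard {u | u ∈ t.bad j ∧ F n x u}.ncard _ (MM N j) (N j) L C P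
      (t.A_card hF j n hx) (t.bad_card hF ho j n (by omega) C hC x) (t.S_card hF j n hj L hL x)
      (t.D_card hF j n hx) h5 h6 hN hL0 (le_trans ?_ hn)
    gcongr
    exact hB n (by omega) x hx
  · refine Eventually.of_forall fun n => ?_
    have : {y | y ∈ t.A j ∧ F n x y} = ∅ := by
      ext y
      simp only [mem_ofPred_eq, mem_empty_iff_false, iff_false]
      rintro ⟨h1, h2⟩
      exact hx (t.Y_inv hF ((hf_eqv hF).symm (hf_E hF h2)) h1.1)
    rw [this, Set.ncard_empty, mul_zero]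
    exact Nat.zero_le _

end tower

end OD
end Pool.Agent.N480.CV
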