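import Pool.Agent.N480.CV.OD4

set_option autoImplicit false

/-!
Project CV, leaf OD (helper247), part 5: the compressible part and the coordinates.
-/

namespace Pool.Agent.N480.CV
namespace OD

open Set MeasureTheory TopologicalSpace Filter

set_option linter.unusedSectionVars false

variable {X : Type} [MeasurableSpace X]

theorem meas_eqfun' {Y : Type} [MeasurableSpace Y] [StandardBorelSpace X] {f g : Y → X}
    (hf : Measurable f) (hg : Measurable g) : MeasurableSet {x | f x = g x} := by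
  have he := MeasureTheory.measurableEmbedding_embeddingReal X
  have : {x | f x = g x} = {x | embeddingReal X (f x) = embeddingReal X (g x)} := by
    ext x
    simp only [mem_ofPred_eq]
    exact ⟨fun h => by rw [h], fun h => he.injective h⟩
  rw [this]
  exact measurableSet_eq_fun (he.measurable.comp hf) (he.measurable.comp hg)

theorem hf_res {E : X → X → Prop} {F : ℕ → X → X → Prop} (h : HF E F) (U : Set X) :
    HF (Res E U) (fun n (a b : U) => F n a b) := by
  refine ⟨fun n => ⟨fun x => (h.eqv n).refl _, fun {x y} hxy => (h.eqv n).symm hxy,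
    fun {x y z} hxy hyz => (h.eqv n).trans hxy hyz⟩, fun n => ?_, fun n x => ?_,
    fun n x y hxy => h.mono n _ _ hxy, fun x y => h.union x y⟩
  · exact ((measurable_subtype_coe.comp measurable_fst).prodMk
      (measurable_subtype_coe.comp measurable_snd)) (h.meas n)
  · exact (h.fin n x).preimage Subtype.val_injective.injOn

theorem ape_res {E : X → X → Prop} (ha : Ape E) {U : Set X} (hU : Inv E U) : Ape (Res E U) := by
  intro x hfin
  apply ha x
  have h1 : {y | E x y} ⊆ Subtype.val '' {y : U | Res E U x y} := by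
    intro y hy
    exact ⟨⟨y, hU _ _ hy x.2⟩, hy, rfl⟩
  exact (hfin.image _).subset h1

/-- the saturation -/
def sat (E : X → X → Prop) (L : Set X) : Set X := {x | ∃ y, E x y ∧ y ∈ L}

theorem sat_meas {E : X → X → Prop} {s : ℕ → X → X} (h : Enm E s) {L : Set X}
    (hL : MeasurableSet L) : MeasurableSet (sat E L) :=
  meas_ex h {p : X × X | p.2 ∈ L} (measurable_snd hL)

theorem sat_inv {E : X → X → Prop} (h : Equivalence E) (L : Set X) : Inv E (sat E L) := by
  rintro x y hxy ⟨z, hz, hzL⟩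
  exact ⟨z, h.trans (h.symm hxy) hz, hzL⟩

/-- the saturation of a set with finite sections is compressible -/
theorem cmp_sat_fin [StandardBorelSpace X] (h3 : S_BAS) {E : X → X → Prop}
    {F : ℕ → X → X → Prop} (hF : HF E F) (ha : Ape E) {Z : Set X} (hZ : MeasurableSet Z)
    (hfin : ∀ x, {t | t ∈ Z ∧ E x t}.Finite) : Cmp (Res E (sat E Z)) := by
  obtain ⟨s, hs⟩ := hf_enm hF
  have hm := sat_meas hs hZ
  have hi := sat_inv (hf_eqv hF) Z
  have : StandardBorelSpace (sat E Z) := hm.standardBorel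
  refine (h3 (sat E Z) _ _ (hf_res hF (sat E Z))).2.2.2 (Subtype.val ⁻¹' Z)
    (measurable_subtype_coe hZ) (ape_res ha hi) ?_ ?_
  · intro x
    exact (hfin x).preimage Subtype.val_injective.injOn
  · rintro ⟨x, y, hxy, hy⟩
    exact ⟨⟨y, hi x y hxy ⟨y, hxy, hy⟩⟩, hy, hxy⟩

/-- the saturation of the limit superior is compressible -/
theorem cmp_limsup [StandardBorelSpace X] (h3 : S_BAS) {E : X → X → Prop}
    {F : ℕ → X → X → Prop} (hF : HF E F) (A : ℕ → Set X) (hA : ∀ i, MeasurableSet (A i))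
    (U : Set X) (hU : MeasurableSet U) (h : ℕ → X → X) (hh : ∀ i, Measurable (h i))
    (h1 : ∀ i, ∀ x ∈ A i, x ∉ U → E x (h i x))
    (h2 : ∀ i j, ∀ x ∈ A i, ∀ y ∈ A j, x ∉ U → y ∉ U → h i x = h j y → i = j ∧ x = y) :
    MeasurableSet {x | x ∉ U ∧ ∃ᶠ i in atTop, x ∈ A i} ∧
    Cmp (Res E (sat E {x | x ∉ U ∧ ∃ᶠ i in atTop, x ∈ A i})) := by
  classical
  obtain ⟨s, hs⟩ := hf_enm hF
  set L : Set X := {x | x ∉ U ∧ ∃ᶠ i in atTop, x ∈ A i} with hL
  have hLm : MeasurableSet L := by
    have : L = Uᶜ ∩ ⋂ n, ⋃ i, ⋃ _ : n ≤ i, A i := by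
      ext x
      simp only [hL, mem_ofPred_eq, frequently_atTop, mem_inter_iff, mem_compl_iff, mem_iInter,
        mem_iUnion, exists_prop]
    rw [this]
    exact hU.compl.inter (MeasurableSet.iInter fun n => MeasurableSet.iUnion fun i =>
      MeasurableSet.iUnion fun _ => hA i)
  refine ⟨hLm, ?_⟩
  have hm := sat_meas hs hLm
  have hi := sat_inv (hf_eqv hF) L
  have : StandardBorelSpace (sat E L) := hm.standardBorel
  have hcm : ∀ i, Measurable fun x : X => Nat.count (fun i => x ∈ A i) i := by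
    intro i
    induction i with
    | zero => simp only [Nat.count_zero]; exact measurable_const
    | succ i ih =>
      simp only [Nat.count_succ]
      exact ih.add (Measurable.ite (hA i) measurable_const measurable_const)
  let p : ℕ → ℕ → X → Prop := fun n i x =>
    (x ∈ A i ∧ Nat.count (fun i => x ∈ A i) i = n) ∨ x ∉ L
  have hpm : ∀ n i, MeasurableSet {x | p n i x} := fun n i =>
    ((hA i).inter (measurableSet_eq_fun (hcm i) measurable_const)).union hLm.compl
  have hex : ∀ n x, ∃ i, p n i x := by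
    intro n x
    by_cases hx : x ∈ L
    · have hinf : (Set.ofPred fun i => x ∈ A i).Infinite := Nat.frequently_atTop_iff_infinite.1 hx.2
      exact ⟨Nat.nth (fun i => x ∈ A i) n, Or.inl ⟨Nat.nth_mem_of_infinite hinf n,
        Nat.count_nth_of_infinite hinf n⟩⟩
    · exact ⟨0, Or.inr hx⟩
  let I : ℕ → X → ℕ := fun n x => Nat.find (hex n x)
  have hI : ∀ n, ∀ x ∈ L, x ∈ A (I n x) ∧ Nat.count (fun i => x ∈ A i) (I n x) = n := by
    intro n x hx
    exact (Nat.find_spec (hex n x)).resolve_right (not_not.2 hx)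
  let H : ℕ → X → X := fun n x => if x ∈ L then h (I n x) x else x
  have hHm : ∀ n, Measurable (H n) := fun n => Measurable.ite hLm
    (Measurable.find (f := fun i x => h i x) hh (hpm n) (hex n)) measurable_id
  have hHL : ∀ n, ∀ x ∈ L, H n x = h (I n x) x := fun n x hx => if_pos hx
  have hHE : ∀ n x, E x (H n x) := by
    intro n x
    by_cases hx : x ∈ L
    · rw [hHL n x hx]
      exact h1 _ x (hI n x hx).1 hx.1
    · have : H n x = x := if_neg hx
      rw [this]
      exact (hf_eqv hF).refl x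
  refine (h3 (sat E L) _ _ (hf_res hF (sat E L))).2.2.1 (Subtype.val ⁻¹' L)
    (fun n x => ⟨H n x, hi _ _ (hHE n x) x.2⟩) (measurable_subtype_coe hLm)
    (fun n => ((hHm n).comp measurable_subtype_coe).subtype_mk) ?_ (fun n x _ => hHE n x) ?_
  · rintro ⟨x, y, hxy, hy⟩
    exact ⟨⟨y, hi x y hxy ⟨y, hxy, hy⟩⟩, hy, hxy⟩
  · intro m n x hx y hy hxy
    have hxy' : H m x = H n y := congrArg Subtype.val hxy
    rw [hHL m x hx, hHL n y hy] at hxy'
    obtain ⟨e1, e2⟩ := hI m x hx
    obtain ⟨e3, e4⟩ := hI n y hy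
    obtain ⟨e5, e6⟩ := h2 _ _ x e1 y e3 hx.1 hy.1 hxy'
    refine ⟨?_, Subtype.ext e6⟩
    rw [← e2, ← e4, e5, e6]

theorem sum_arith (a : ℕ → ℕ) (k : ℕ) (m : ℕ) (h : ∀ i < m, 2 ^ (i + 1) * a i ≤ k) :
    2 ^ m * ∑ i ∈ Finset.range m, a i + k ≤ 2 ^ m * k := by
  induction m with
  | zero => simp
  | succ m ih =>
    have h1 := ih fun i hi => h i (by omega)
    have h2 := h m (by omega)
    rw [Finset.sum_range_succ, pow_succ, mul_add]
    rw [pow_succ] at h2
    nlinarith

section tower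

variable {E : X → X → Prop} {F : ℕ → X → X → Prop} {N : ℕ → ℕ} {lt : ℕ → X → X → Prop}

theorem Tw.pos_meas (t : Tw E F N lt) (j : ℕ) : Measurable (t.pos j) := by
  induction j with
  | zero => exact measurable_id
  | succ j ih => exact (t.grp j).mbk.comp ih

theorem Tw.Y_eq (t : Tw E F N lt) : t.Y = (⋃ j, sat E (t.Z j))ᶜ := by
  ext x
  simp only [Tw.Y, sat, mem_ofPred_eq, mem_compl_iff, mem_iUnion, not_exists, not_and]

theorem Tw.A_meas [StandardBorelSpace X] (t : Tw E F N lt) (hF : HF E F) (j : ℕ) :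
    MeasurableSet (t.A j) := by
  obtain ⟨s, hs⟩ := hf_enm hF
  have hY : MeasurableSet t.Y := by
    rw [t.Y_eq]
    exact (MeasurableSet.iUnion fun j => sat_meas hs (t.grp j).mZ).compl
  suffices hbad : MeasurableSet (t.bad j) from hY.inter (t.pos_meas j hbad)
  have hb := (t.grp j).mbk
  have h1 : MeasurableSet {p : X × X | p.2 ∈ t.D j ∧ F j p.1 p.2 ∧
      ¬ (t.bk j p.2 = t.bk j p.1 ∧ F (j + 1) p.1 (t.bk j p.1))} := by
    refine (measurable_snd (t.mD j)).inter ((hF.meas j).inter (MeasurableSet.compl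
      (MeasurableSet.inter ?_ ?_)))
    · exact meas_eqfun' (hb.comp measurable_snd) (hb.comp measurable_fst)
    · exact (measurable_fst.prodMk (hb.comp measurable_fst)) (hF.meas (j + 1))
  have h2 : t.bad j = t.D j ∩ {x | ∃ y, E x y ∧ (x, y) ∈ {p : X × X | p.2 ∈ t.D j ∧
      F j p.1 p.2 ∧ ¬ (t.bk j p.2 = t.bk j p.1 ∧ F (j + 1) p.1 (t.bk j p.1))}} := by
    ext u
    simp only [Tw.bad, mem_ofPred_eq, mem_inter_iff]
    constructor
    · rintro ⟨h3, v, h4, h5, h6⟩
      exact ⟨h3, v, hf_E hF h5, h4, h5, h6⟩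
    · rintro ⟨h3, v, _, h4, h5, h6⟩
      exact ⟨h3, v, h4, h5, h6⟩
  rw [h2]
  exact (t.mD j).inter (meas_ex hs _ h1)

theorem Tw.pos_eq_of_le (t : Tw E F N lt) {x y : X} {J : ℕ} (h : t.pos J x = t.pos J y) {j : ℕ}
    (hj : J ≤ j) : t.pos j x = t.pos j y := by
  induction j, hj using Nat.le_induction with
  | base => exact h
  | succ j _ ih => rw [t.pos_succ, t.pos_succ, ih]

theorem Tw.eventually_eq (t : Tw E F N lt) (hF : HF E F) {x y : X} (hxy : E x y)
    (hx : x ∈ t.Y) (hx' : ¬ ∃ᶠ i in atTop, x ∈ t.A i) (hy' : ¬ ∃ᶠ i in atTop, y ∈ t.A i) :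
    ∃ J, t.pos J x = t.pos J y := by
  classical
  have hy : y ∈ t.Y := t.Y_inv hF hxy hx
  rw [not_frequently, eventually_atTop] at hx' hy'
  obtain ⟨i1, hi1⟩ := hx'
  obtain ⟨i2, hi2⟩ := hy'
  set i0 := max i1 i2 with hi0
  have hgood : ∀ z ∈ t.Y, (∀ i, i0 ≤ i → z ∉ t.A i) → ∀ i, i0 ≤ i →
      F i (t.pos i0 z) (t.pos i z) := by
    intro z hz hzA i hi
    induction i, hi using Nat.le_induction with
    | base => exact (hF.eqv _).refl _
    | succ i hi ih =>
      have h1 : t.pos i z ∉ t.bad i := fun h => hzA i hi ⟨hz, h⟩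
      have h2 : F (i + 1) (t.pos i z) (t.bk i (t.pos i z)) := by
        by_contra hcon
        exact h1 ⟨t.pos_mem hF hz i, _, t.pos_mem hF hz i, (hF.eqv i).refl _,
          fun h => hcon h.2⟩
      exact (hF.eqv (i + 1)).trans (hF.mono i _ _ ih) h2
  have hgx := hgood x hx fun i hi => hi1 i (le_trans (le_max_left _ _) hi)
  have hgy := hgood y hy fun i hi => hi2 i (le_trans (le_max_right _ _) hi)
  obtain ⟨m, hm⟩ := hf_fin hF x {t.pos i0 x, t.pos i0 y} (by
    intro z hz
    rw [Finset.mem_insert, Finset.mem_singleton] at hz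
    rcases hz with rfl | rfl
    · exact t.E_pos hF _ _
    · exact (hf_eqv hF).trans hxy (t.E_pos hF _ _))
  set J := max i0 m with hJ
  have h1 : F J x (t.pos J x) := (hF.eqv J).trans
    (hf_le hF (le_max_right _ _) (hm _ (by simp))) (hgx J (le_max_left _ _))
  have h2 : F J x (t.pos J y) := (hF.eqv J).trans
    (hf_le hF (le_max_right _ _) (hm _ (by simp))) (hgy J (le_max_left _ _))
  refine ⟨J + 1, ?_⟩
  have h3 : t.pos J x ∉ t.bad J := fun h =>
    hi1 J (le_trans (le_max_left i1 i2) (le_max_left _ _)) ⟨hx, h⟩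
  by_contra hcon
  exact h3 ⟨t.pos_mem hF hx J, t.pos J y, t.pos_mem hF hy J,
    (hF.eqv J).trans ((hF.eqv J).symm h1) h2, fun h => hcon h.1.symm⟩

end tower

end OD
end Pool.Agent.N480.CV
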